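import Pool.Agent.Lib_MP_f1a94e_eq.HDefs

/-!
# Stage B (`ω = -1`): definitions

After the clusters only the average over (almost) all classes remains.
-/

set_option autoImplicit false

namespace Pool.Agent.OmEq

open Finset Pool.Agent.GaussMR Pool.Agent.OmAll MeasureTheory Filter

/-- the index of the classes `1 mod 4` -/
noncomputable def kap (n : ℕ) : ℝ := if 4 ∣ n then 2 else 1

/-- if `4 ∣ n` then `V' = V mod 4` -/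
def hc (n : ℕ) (e : G × G) : Prop := 4 ∣ n → cg 4 e.2 e.1

open Classical in
/-- the sum over almost all classes -/
noncomputable def Qs (f : ℕ → ℂ) (n : ℕ) (x : ℝ) (W : ℝ → ℝ → ℂ) (X : ℝ) : ℂ :=
  ∑ e ∈ (EN n x).filter (hc n), f (nm e.1) * (starRingEnd ℂ) (f (nm e.2)) * W (mE e / X) (tE e)

/-- the triangle on `[0, 1]` -/
noncomputable def r0 (u : ℝ) : ℝ := max 0 (1 - |2 * u - 1|)

/-- its autocorrelation -/
noncomputable def ww (s : ℝ) : ℝ := ∫ u, r0 u * r0 (u - s)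

/-- weighted sums of the correlations -/
def QSmall (f : ℕ → ℂ) : Prop :=
  ∀ (h : ℝ → ℝ) (h1 h2 : ℝ), HF h h1 h2 → ∀ ε : ℝ, 0 < ε → ∃ N0 : ℕ, ∀ N : ℕ, N0 ≤ N → ∀ᶠ Y : ℝ in atTop,
    ‖∑ n ∈ Icc 1 N, ((kap n * (n / n.totient) * ww ((n : ℝ) / N) : ℝ) : ℂ) *
      Qs f n (h2 * Y) (fun y t => ((h y ^ 2 * ps0 t : ℝ) : ℂ)) Y‖ ≤ ε * N * Y

/-- the same over the multiples of `d`, without the factor `n / φ(n)` -/
def QdSmall (f : ℕ → ℂ) : Prop :=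
  ∀ d : ℕ, 1 ≤ d → ∀ (h : ℝ → ℝ) (h1 h2 : ℝ), HF h h1 h2 → ∀ ε : ℝ, 0 < ε → ∃ N0 : ℕ, ∀ N : ℕ, N0 ≤ N →
    ∀ᶠ Y : ℝ in atTop, ‖∑ n ∈ (Icc 1 N).filter (fun n => d ∣ n), ((kap n * ww ((n : ℝ) / N) : ℝ) : ℂ) *
      Qs f n (h2 * Y) (fun y t => ((h y ^ 2 * ps0 t : ℝ) : ℂ)) Y‖ ≤ ε * N * Y

/-- the argument of `z` modulo `2 π` lies in `[θ, θ + δ)` -/
def arcIn (θ δ : ℝ) (z : G) : Prop :=
  ∃ k : ℤ, θ ≤ Complex.arg (z : ℂ) + 2 * Real.pi * k ∧ Complex.arg (z : ℂ) + 2 * Real.pi * k < θ + δ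

open Classical in
/-- all primitive Gaussian integers of norm at most `X` -/
noncomputable def PV (X : ℝ) : Finset G := (ball X).filter Prim

open Classical in
/-- sum over an arc and a residue class, odd primitive -/
noncomputable def So (f : ℕ → ℂ) (D : ℕ) (b : G) (X δ θ : ℝ) : ℂ :=
  ∑ z ∈ (V X).filter (fun z => cg D z b ∧ arcIn θ δ z), f (nm z)

open Classical in
/-- sum over an arc and a residue class, primitive -/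
noncomputable def Sp (f : ℕ → ℂ) (D : ℕ) (b : G) (X δ θ : ℝ) : ℂ :=
  ∑ z ∈ (PV X).filter (fun z => cg D z b ∧ arcIn θ δ z), f (nm z)

/-- Matomaki-Radziwill in arcs, odd primitive numbers -/
def MRO (f : ℕ → ℂ) : Prop :=
  ∀ D : ℕ, 0 < D → ∀ b : G, ∀ ε : ℝ, 0 < ε → ∃ H0 : ℝ, 0 < H0 ∧ ∀ H : ℝ, H0 ≤ H → ∃ X0 : ℝ, ∀ X : ℝ, X0 ≤ X →
    ∫ θ in (0 : ℝ)..(2 * Real.pi), ‖So f D b X (H / X) θ‖ ^ 2 ≤ ε * H ^ 2

/-- Matomaki-Radziwill in arcs, primitive numbers -/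
def MRP (f : ℕ → ℂ) : Prop :=
  ∀ D : ℕ, 0 < D → ∀ b : G, ∀ ε : ℝ, 0 < ε → ∃ H0 : ℝ, 0 < H0 ∧ ∀ H : ℝ, H0 ≤ H → ∃ X0 : ℝ, ∀ X : ℝ, X0 ≤ X →
    ∫ θ in (0 : ℝ)..(2 * Real.pi), ‖Sp f D b X (H / X) θ‖ ^ 2 ≤ ε * H ^ 2

/-- the oriented angle from `V` to `V'`, in `(-π, π]` -/
noncomputable def ang (V V' : G) : ℝ := Complex.arg ((star V * V' : G) : ℂ)

theorem mem_PV {X : ℝ} {z : G} : z ∈ PV X ↔ (nm z : ℝ) ≤ X ∧ Prim z := by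
  classical
  unfold PV
  rw [mem_filter, mem_ball]

end Pool.Agent.OmEq
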