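import Pool.Agent.Lib_MP_f1a94e_eq.ApxN

/-!
# Piece APXO: the weights of the unbalanced edges
-/

set_option autoImplicit false

namespace Pool.Agent.OmEq

open Finset Pool.Agent.GaussMR Pool.Agent.OmAll MeasureTheory Filter

/-- the limit of the weight of `SX` -/
noncomputable def WO (h : ℝ → ℝ) (J N : ℕ) (y t : ℝ) : ℂ :=
  ((h (y * Real.exp (-t / 2)) * rho J N (Real.exp (t / 2)) : ℝ) : ℂ)

private theorem apxo_WO_ne {h : ℝ → ℝ} {h1 h2 : ℝ} (hh : HF h h1 h2) {J N : ℕ} (hJ : 1 ≤ J) (hN : 1 ≤ N)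
    {y t : ℝ} (hne : WO h J N y t ≠ 0) :
    0 < y ∧ y < ((J : ℝ) + N) * h2 ∧ 0 ≤ t ∧ t < 2 * Real.log (J + N) := by
  have hJ' : (1 : ℝ) ≤ J := by exact_mod_cast hJ
  have hN' : (1 : ℝ) ≤ N := by exact_mod_cast hN
  unfold WO at hne
  obtain ⟨x, hx⟩ : ∃ x : ℝ, x = Real.exp (t / 2) := ⟨_, rfl⟩
  have hx0 : 0 < x := by rw [hx]; exact Real.exp_pos _
  have hxn : Real.exp (-t / 2) = x⁻¹ := by rw [hx, ← Real.exp_neg, neg_div]
  rw [← hx, hxn] at hne
  have hne' : h (y * x⁻¹) * rho J N x ≠ 0 := by exact_mod_cast hne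
  have e1 := left_ne_zero_of_mul hne'
  have e2 := apxn_rho_ne hN (right_ne_zero_of_mul hne')
  have e3 : h1 < y * x⁻¹ := by
    by_contra h0
    exact e1 (hh.lo _ (not_lt.1 h0))
  have e4 : y * x⁻¹ < h2 := by
    by_contra h0
    exact e1 (hh.hi _ (not_lt.1 h0))
  have hy : 0 < y := by
    by_contra h0
    have h3 : y * x⁻¹ ≤ 0 := mul_nonpos_of_nonpos_of_nonneg (not_lt.1 h0) (by positivity)
    linarith [hh.pos]
  refine ⟨hy, ?_, ?_, ?_⟩
  · rw [← div_eq_mul_inv, div_lt_iff₀ hx0] at e4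
    have : h2 * x ≤ h2 * (J + N) := mul_le_mul_of_nonneg_left e2.2.le (by linarith [hh.one])
    linarith
  · have h3 : 1 ≤ Real.exp (t / 2) := by
      rw [← hx]
      linarith [e2.1]
    have := Real.one_le_exp_iff.1 h3
    linarith
  · have h3 : t / 2 < Real.log (J + N) := by
      rw [Real.lt_log_iff_exp_lt (by positivity), ← hx]
      exact e2.2
    linarith

/-- PROOF. Continuous; nonzero only if `J < exp (t/2) < J + N` and `h1 < y exp (-t/2) < h2`: compact support, `0 < y ≤ (J + N) h2`. -/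
theorem WO_tf (h : ℝ → ℝ) (h1 h2 : ℝ) (hh : HF h h1 h2) (J N : ℕ) (hJ : 1 ≤ J) (hN : 1 ≤ N) (b : ℝ)
    (hb : ((J : ℝ) + N) * h2 ≤ b) : TF b (WO h J N) := by
  have hT : ∀ y t, WO h J N y t ≠ 0 → 0 < y ∧ y < ((J : ℝ) + N) * h2 ∧ 0 ≤ t ∧
      t < 2 * Real.log (J + N) := fun y t => apxo_WO_ne hh hJ hN
  refine ⟨?_, ?_, ?_, ?_⟩
  · have c1 : Continuous fun p : ℝ × ℝ => h (p.1 * Real.exp (-p.2 / 2)) :=
      hh.cont.comp (by fun_prop)
    have c2 : Continuous fun p : ℝ × ℝ => rho J N (Real.exp (p.2 / 2)) :=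
      (apxn_rho_cont J N).comp (by fun_prop)
    exact Complex.continuous_ofReal.comp (c1.mul c2)
  · refine HasCompactSupport.of_support_subset_isCompact
      ((isCompact_Icc (a := (0 : ℝ)) (b := b)).prod
        (isCompact_Icc (a := (0 : ℝ)) (b := 2 * Real.log (J + N)))) ?_
    rintro ⟨y, t⟩ h3
    have h4 := hT y t h3
    exact Set.mem_prod.2 ⟨⟨h4.1.le, (h4.2.1.trans_le hb).le⟩, ⟨h4.2.2.1, h4.2.2.2.le⟩⟩
  · intro y t hy
    by_contra h4
    linarith [(hT _ _ h4).1]
  · intro y t hy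
    by_contra h4
    linarith [(hT _ _ h4).2.1]

/-- the weight as a continuous function of `(y, t, δ)` -/
private noncomputable def apxo_K (h : ℝ → ℝ) (J N : ℕ) (h1 : ℝ) (p : ℝ × ℝ × ℝ) : ℝ :=
  h (√(p.1 ^ 2 + p.2.2 ^ 2) * Real.exp (-p.2.1 / 2)) *
    rho J N (p.1 / max (√(p.1 ^ 2 + p.2.2 ^ 2) * Real.exp (-p.2.1 / 2)) h1)

private theorem apxo_K_cont {h : ℝ → ℝ} {h1 h2 : ℝ} (hh : HF h h1 h2) (J N : ℕ) :
    Continuous (apxo_K h J N h1) := by
  have c0 : Continuous fun p : ℝ × ℝ × ℝ => √(p.1 ^ 2 + p.2.2 ^ 2) * Real.exp (-p.2.1 / 2) := by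
    fun_prop
  have c1 : Continuous fun p : ℝ × ℝ × ℝ =>
      max (√(p.1 ^ 2 + p.2.2 ^ 2) * Real.exp (-p.2.1 / 2)) h1 := c0.max continuous_const
  have hne : ∀ p : ℝ × ℝ × ℝ, max (√(p.1 ^ 2 + p.2.2 ^ 2) * Real.exp (-p.2.1 / 2)) h1 ≠ 0 := fun p =>
    (lt_of_lt_of_le hh.pos (le_max_right _ _)).ne'
  have d1 : Continuous fun p : ℝ × ℝ × ℝ =>
      p.1 / max (√(p.1 ^ 2 + p.2.2 ^ 2) * Real.exp (-p.2.1 / 2)) h1 :=
    Continuous.div (by fun_prop) c1 hne
  exact (hh.cont.comp c0).mul ((apxn_rho_cont J N).comp d1)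

private theorem apxo_K_zero {h : ℝ → ℝ} {h1 h2 : ℝ} (hh : HF h h1 h2) {J N : ℕ}
    {y t : ℝ} (hy : 0 < y) : ((apxo_K h J N h1 (y, t, 0) : ℝ) : ℂ) = WO h J N y t := by
  have hs : √(y ^ 2 + (0 : ℝ) ^ 2) = y := by
    rw [zero_pow two_ne_zero, add_zero, Real.sqrt_sq hy.le]
  obtain ⟨x, hx⟩ : ∃ x : ℝ, x = Real.exp (t / 2) := ⟨_, rfl⟩
  have hx0 : 0 < x := by rw [hx]; exact Real.exp_pos _
  have hxn : Real.exp (-t / 2) = x⁻¹ := by rw [hx, ← Real.exp_neg, neg_div]
  unfold WO apxo_K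
  simp only
  rw [hs, hxn, ← hx]
  congr 1
  by_cases h3 : y * x⁻¹ ≤ h1
  · rw [hh.lo _ h3]
    ring
  · have h4 : max (y * x⁻¹) h1 = y * x⁻¹ := max_eq_left (not_le.1 h3).le
    rw [h4]
    have e1 : y / (y * x⁻¹) = x := by
      field_simp
    rw [e1]

private theorem apxo_w {h : ℝ → ℝ} {h1 h2 : ℝ} (hh : HF h h1 h2) {J N : ℕ} {X : ℝ} (hX : 0 < X)
    {e : G × G} (he : En 1 e) :
    h (nm e.1 / X) * rho J N (mE e / nm e.1) = apxo_K h J N h1 (mE e / X, tE e, 1 / X) := by
  have hne := clu_nm_ne (by omega : 0 < 1) he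
  have hP : (0 : ℝ) < nm e.1 := by exact_mod_cast Nat.pos_of_ne_zero hne.1
  have hQ : (0 : ℝ) < nm e.2 := by exact_mod_cast Nat.pos_of_ne_zero hne.2
  have hPQ : (nm e.1 : ℝ) * nm e.2 = mE e ^ 2 + 1 ^ 2 := by
    have h4 := dot_sq_add_det_sq e.1 e.2
    rw [he.1] at h4
    unfold mE
    exact_mod_cast h4.symm
  have hs : √((mE e / X) ^ 2 + (1 / X) ^ 2) = √(nm e.1) * √(nm e.2) / X := by
    rw [← Real.sqrt_mul hP.le, hPQ]
    have h5 : (mE e / X) ^ 2 + (1 / X) ^ 2 = (mE e ^ 2 + 1 ^ 2) / X ^ 2 := by ring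
    rw [h5, Real.sqrt_div' _ (by positivity), Real.sqrt_sq hX.le]
  have ht : Real.exp (tE e / 2) = √(nm e.2) / √(nm e.1) := by
    unfold tE
    rw [sub_div, Real.exp_sub, ← Real.log_sqrt hQ.le, ← Real.log_sqrt hP.le,
      Real.exp_log (Real.sqrt_pos.2 hQ), Real.exp_log (Real.sqrt_pos.2 hP)]
  have ht' : Real.exp (-tE e / 2) = √(nm e.1) / √(nm e.2) := by
    rw [neg_div, Real.exp_neg, ht, inv_div]
  have q1 := Real.sqrt_pos.2 hP
  have q2 := Real.sqrt_pos.2 hQ
  have s1 := Real.mul_self_sqrt hP.le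
  have f1 : √(nm e.1) * √(nm e.2) / X * (√(nm e.1) / √(nm e.2)) = nm e.1 / X := by
    calc √(nm e.1) * √(nm e.2) / X * (√(nm e.1) / √(nm e.2)) = √(nm e.1) * √(nm e.1) / X := by
          field_simp
      _ = nm e.1 / X := by rw [s1]
  unfold apxo_K
  simp only
  rw [hs, ht', f1]
  by_cases h3 : (nm e.1 : ℝ) / X ≤ h1
  · rw [hh.lo _ h3]
    ring
  · rw [max_eq_left (not_le.1 h3).le]
    have e1 : mE e / X / (nm e.1 / X) = mE e / nm e.1 := by
      field_simp
    rw [e1]

private theorem apxo_t_bound {J N : ℕ} (hJ : 1 ≤ J) (hN : 1 ≤ N)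
    {e : G × G} (he : En 1 e) (hne : rho J N (mE e / nm e.1) ≠ 0) :
    |tE e| ≤ Real.log ((J + N) ^ 2 + 1) := by
  have hJ' : (1 : ℝ) ≤ J := by exact_mod_cast hJ
  have hN' : (1 : ℝ) ≤ N := by exact_mod_cast hN
  have hnz := clu_nm_ne (by omega : 0 < 1) he
  have hP : (0 : ℝ) < nm e.1 := by exact_mod_cast Nat.pos_of_ne_zero hnz.1
  have hP1 : (1 : ℝ) ≤ nm e.1 := by exact_mod_cast Nat.pos_of_ne_zero hnz.1
  have hQ : (0 : ℝ) < nm e.2 := by exact_mod_cast Nat.pos_of_ne_zero hnz.2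
  have hPQ : (nm e.1 : ℝ) * nm e.2 = mE e ^ 2 + 1 ^ 2 := by
    have h4 := dot_sq_add_det_sq e.1 e.2
    rw [he.1] at h4
    unfold mE
    exact_mod_cast h4.symm
  obtain ⟨e1, e2⟩ := apxn_rho_ne hN hne
  obtain ⟨P, hPe⟩ : ∃ P : ℝ, P = nm e.1 := ⟨_, rfl⟩
  obtain ⟨Q, hQe⟩ : ∃ Q : ℝ, Q = nm e.2 := ⟨_, rfl⟩
  obtain ⟨m, hme⟩ : ∃ m, m = mE e := ⟨_, rfl⟩
  obtain ⟨M, hM⟩ : ∃ M : ℝ, M = J + N := ⟨_, rfl⟩
  unfold tE
  rw [← hPe, ← hQe, ← hme] at hPQ
  rw [← hPe, ← hme] at e1 e2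
  rw [← hM] at e2
  rw [← hPe] at hP hP1
  rw [← hQe] at hQ
  rw [← hPe, ← hQe, ← hM]
  rw [lt_div_iff₀ hP] at e1
  rw [div_lt_iff₀ hP] at e2
  have g1 : P ≤ m := by nlinarith
  have g2 : P ≤ Q := by
    by_contra h0
    nlinarith
  have g3 : Q ≤ (M ^ 2 + 1) * P := by
    have h5 : P * Q ≤ P * ((M ^ 2 + 1) * P) := by
      rw [hPQ]
      have h6 : m ^ 2 ≤ (M * P) ^ 2 := pow_le_pow_left₀ (by linarith) e2.le 2
      nlinarith
    exact le_of_mul_le_mul_left h5 hP
  have l1 : Real.log P ≤ Real.log Q := Real.log_le_log hP g2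
  have l2 : Real.log Q ≤ Real.log (M ^ 2 + 1) + Real.log P := by
    rw [← Real.log_mul (by positivity) hP.ne']
    exact Real.log_le_log hQ g3
  rw [abs_le]
  have l3 : 0 ≤ Real.log (M ^ 2 + 1) := Real.log_nonneg (by nlinarith [sq_nonneg M])
  constructor <;> linarith

/-- PROOF. As `apxN` with `n = 1`: `δ = 1/X`, `s = sqrt (y^2 + δ^2)`, `nm e.1 / X = s exp (-t/2)`, and the weight is `K y t δ = h (s exp (-t/2)) rho (y / max (s exp (-t/2)) h1)`, continuous on `ℝ^3`,
`K y t 0 = WO y t` for `0 < y`. If the weight is not zero, `dot / nm V ∈ [J, J + N]`, `nm V' nm V = dot^2 + 1`, so `nm V' / nm V ∈ [J^2, (J+N)^2 + 1]`, `|t| ≤ B`. `cnt` and uniform continuity. -/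
theorem apxO (f : ℕ → ℂ) (hf : ∀ n, ‖f n‖ ≤ 1) (h : ℝ → ℝ) (h1 h2 : ℝ) (hh : HF h h1 h2) (J N : ℕ) (hJ : 1 ≤ J)
    (hN : 1 ≤ N) (b : ℝ) (hb : 0 < b) :
    Tendsto (fun X : ℝ => (SX f h J N (b * X) X - ∑ e ∈ EN 1 (b * X),
      f (nm e.1) * f (nm e.2) * WO h J N (mE e / X) (tE e)) / X) atTop (nhds 0) := by
  have hJ' : (1 : ℝ) ≤ J := by exact_mod_cast hJ
  have hN' : (1 : ℝ) ≤ N := by exact_mod_cast hN
  obtain ⟨B, hB⟩ : ∃ B : ℝ, B = Real.log ((J + N) ^ 2 + 1) := ⟨_, rfl⟩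
  have hB2 : 2 * Real.log ((J : ℝ) + N) ≤ B := by
    rw [hB, ← Nat.cast_two, ← Real.log_pow]
    exact Real.log_le_log (by positivity) (by linarith)
  have hl1 : 0 ≤ Real.log ((J : ℝ) + N) := Real.log_nonneg (by linarith)
  obtain ⟨C, hC, hcnt⟩ := cnt B
  have hK := apxo_K_cont hh J N
  have hcomp : IsCompact (Set.Icc (0 : ℝ) b ×ˢ (Set.Icc (-B) B ×ˢ Set.Icc (0 : ℝ) 1)) :=
    isCompact_Icc.prod (isCompact_Icc.prod isCompact_Icc)
  have huc := hcomp.uniformContinuousOn_of_continuous hK.continuousOn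
  rw [Metric.tendsto_atTop]
  intro ε hε
  have hε' : 0 < ε / (2 * (C * b)) := by positivity
  obtain ⟨η, hη, hK2⟩ := Metric.uniformContinuousOn_iff.1 huc (ε / (2 * (C * b))) hε'
  refine ⟨max 1 (max (1 / b) (2 * 1 / η)), fun X hX => ?_⟩
  have x1 : 1 ≤ X := (le_max_left _ _).trans hX
  have x2 : 1 / b ≤ X := ((le_max_left _ _).trans (le_max_right _ _)).trans hX
  have x4 : 2 * 1 / η ≤ X := ((le_max_right _ _).trans (le_max_right _ _)).trans hX
  have hX0 : 0 < X := by linarith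
  have y1 : ((1 : ℕ) : ℝ) ≤ b * X := by
    rw [div_le_iff₀ hb] at x2
    rw [Nat.cast_one]
    linarith
  have y2 : 1 / X ≤ 1 := by
    rw [div_le_one hX0]
    exact x1
  have y3 : 1 / X < η := by
    rw [div_le_iff₀ hη] at x4
    rw [div_lt_iff₀ hX0]
    nlinarith
  have hterm : ∀ e ∈ EN 1 (b * X), ‖((h (nm e.1 / X) * rho J N (mE e / nm e.1) : ℝ) : ℂ) -
      WO h J N (mE e / X) (tE e)‖ ≤ if |tE e| ≤ B then ε / (2 * (C * b)) else 0 := by
    intro e he
    rw [mem_EN one_pos] at he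
    have hm := mE_pos he.1
    have hy : 0 < mE e / X := div_pos hm hX0
    have hyb : mE e / X ≤ b := by
      rw [div_le_iff₀ hX0]
      exact he.2
    split_ifs with ht
    · rw [apxo_w hh hX0 he.1, ← apxo_K_zero hh hy, ← Complex.ofReal_sub,
        Complex.norm_real, ← dist_eq_norm]
      refine (hK2 _ ?_ _ ?_ ?_).le
      · rw [abs_le] at ht
        exact ⟨⟨hy.le, hyb⟩, ⟨ht, ⟨by positivity, y2⟩⟩⟩
      · rw [abs_le] at ht
        exact ⟨⟨hy.le, hyb⟩, ⟨ht, ⟨le_refl _, zero_le_one⟩⟩⟩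
      · rw [Prod.dist_eq, Prod.dist_eq]
        simp only [dist_self]
        rw [Real.dist_eq, sub_zero, abs_of_nonneg (by positivity : (0 : ℝ) ≤ 1 / X)]
        exact max_lt hη (max_lt hη y3)
    · have z1 : h (nm e.1 / X) * rho J N (mE e / nm e.1) = 0 := by
        by_contra h3
        have := apxo_t_bound hJ hN he.1 (right_ne_zero_of_mul h3)
        exact ht (by rw [hB]; linarith)
      have z2 : WO h J N (mE e / X) (tE e) = 0 := by
        by_contra h3
        have h4 := apxo_WO_ne hh hJ hN h3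
        apply ht
        rw [abs_le]
        constructor <;> linarith [h4.2.2.1, h4.2.2.2]
      rw [z1, z2]
      simp
  rw [dist_zero_right, norm_div, Complex.norm_real, Real.norm_eq_abs, abs_of_pos hX0,
    div_lt_iff₀ hX0]
  unfold SX
  rw [← sum_sub_distrib]
  have hs : ‖∑ e ∈ EN 1 (b * X),
      (f (nm e.1) * f (nm e.2) * ((h (nm e.1 / X) * rho J N (mE e / nm e.1) : ℝ) : ℂ) -
        f (nm e.1) * f (nm e.2) * WO h J N (mE e / X) (tE e))‖ ≤
      ∑ e ∈ EN 1 (b * X), if |tE e| ≤ B then ε / (2 * (C * b)) else 0 := by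
    refine (norm_sum_le _ _).trans ?_
    refine sum_le_sum fun e he => ?_
    rw [← mul_sub, norm_mul, norm_mul]
    have h3 := hterm e he
    have h4 : ‖f (nm e.1)‖ * ‖f (nm e.2)‖ ≤ 1 := by
      have := mul_le_mul (hf (nm e.1)) (hf (nm e.2)) (norm_nonneg _) zero_le_one
      linarith
    calc ‖f (nm e.1)‖ * ‖f (nm e.2)‖ * _ ≤ 1 * _ := mul_le_mul_of_nonneg_right h4 (norm_nonneg _)
      _ ≤ _ := by rw [one_mul]; exact h3
  refine lt_of_le_of_lt hs ?_
  rw [← sum_filter, sum_const, nsmul_eq_mul]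
  have h5 := hcnt 1 one_pos (b * X) y1
  calc (((EN 1 (b * X)).filter (fun e => |tE e| ≤ B)).card : ℝ) * (ε / (2 * (C * b)))
      ≤ C * (b * X) * (ε / (2 * (C * b))) := mul_le_mul_of_nonneg_right h5 hε'.le
    _ = ε * X / 2 := by field_simp
    _ < ε * X := by
      have : 0 < ε * X := by positivity
      linarith

/-- `∫ r in J..(J+N), rho J N r = N/2` -/
private theorem apxo_rho_int (J N : ℕ) (hN : 1 ≤ N) :
    ∫ r in (J : ℝ)..(J + N), rho J N r = (N : ℝ) / 2 := by
  have hN' : (0 : ℝ) < N := by exact_mod_cast hN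
  have hi : ∀ a b : ℝ, IntervalIntegrable (rho J N) volume a b := fun a b =>
    (apxn_rho_cont J N).intervalIntegrable a b
  rw [← intervalIntegral.integral_add_adjacent_intervals (hi (J : ℝ) (J + N / 2)) (hi (J + N / 2) (J + N))]
  have e1 : ∫ r in (J : ℝ)..(J + N / 2), rho J N r = ∫ r in (J : ℝ)..(J + N / 2), 2 * (r - J) / N := by
    refine intervalIntegral.integral_congr fun r hr => ?_
    rw [Set.uIcc_of_le (by linarith)] at hr
    unfold rho
    have h1 : 0 ≤ 2 * (r - J) / N := div_nonneg (by linarith [hr.1]) hN'.le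
    have h2 : 2 * (r - J) / N ≤ 1 := by
      rw [div_le_one hN']
      linarith [hr.2]
    rw [abs_of_nonpos (by linarith), max_eq_right (by linarith)]
    ring
  have e2 : ∫ r in (J + N / 2 : ℝ)..(J + N), rho J N r =
      ∫ r in (J + N / 2 : ℝ)..(J + N), (2 - 2 * (r - J) / N) := by
    refine intervalIntegral.integral_congr fun r hr => ?_
    rw [Set.uIcc_of_le (by linarith)] at hr
    unfold rho
    have h1 : 1 ≤ 2 * (r - J) / N := by
      rw [one_le_div hN']
      linarith [hr.1]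
    have h2 : 2 * (r - J) / N ≤ 2 := by
      rw [div_le_iff₀ hN']
      linarith [hr.2]
    rw [abs_of_nonneg (by linarith), max_eq_right (by linarith)]
    ring
  have f1 : ∫ r in (J : ℝ)..(J + N / 2), 2 * (r - J) / N =
      ((J + N / 2 : ℝ) - J) ^ 2 / N - ((J : ℝ) - J) ^ 2 / N := by
    refine intervalIntegral.integral_eq_sub_of_hasDerivAt (f := fun r : ℝ => (r - J) ^ 2 / N)
      (fun r _ => ?_) (Continuous.intervalIntegrable (by fun_prop) _ _)
    have h1 := (((hasDerivAt_id r).sub_const (J : ℝ)).pow 2).div_const (N : ℝ)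
    exact h1.congr_deriv (by simp)
  have f2 : ∫ r in (J + N / 2 : ℝ)..(J + N), (2 - 2 * (r - J) / N) =
      (2 * (J + N : ℝ) - ((J + N : ℝ) - J) ^ 2 / N) - (2 * (J + N / 2 : ℝ) - ((J + N / 2 : ℝ) - J) ^ 2 / N) := by
    refine intervalIntegral.integral_eq_sub_of_hasDerivAt (f := fun r : ℝ => 2 * r - (r - J) ^ 2 / N)
      (fun r _ => ?_) (Continuous.intervalIntegrable (by fun_prop) _ _)
    have h1 := (((hasDerivAt_id r).sub_const (J : ℝ)).pow 2).div_const (N : ℝ)
    have h2 := ((hasDerivAt_id r).const_mul (2 : ℝ)).sub h1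
    exact h2.congr_deriv (by simp)
  rw [e1, e2, f1, f2]
  field_simp
  ring

/-- bounds for `∫ t, rho J N (exp (t/2))` -/
private theorem apxo_I (J N : ℕ) (hJ : 1 ≤ J) (hN : 1 ≤ N) :
    (N : ℝ) / (J + N) ≤ ∫ t, rho J N (Real.exp (t / 2)) ∧
      ∫ t, rho J N (Real.exp (t / 2)) ≤ (N : ℝ) / J := by
  have hJ' : (1 : ℝ) ≤ J := by exact_mod_cast hJ
  have hN' : (1 : ℝ) ≤ N := by exact_mod_cast hN
  have hsupp : Function.support (fun t : ℝ => rho J N (Real.exp (t / 2))) ⊆
      Set.Ioc (2 * Real.log J) (2 * Real.log (J + N)) := by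
    intro t ht
    obtain ⟨h1, h2⟩ := apxn_rho_ne hN ht
    constructor
    · have := (Real.log_lt_iff_lt_exp (by linarith)).2 h1
      linarith
    · have := (Real.lt_log_iff_exp_lt (by linarith)).2 h2
      linarith
  have hle : 2 * Real.log J ≤ 2 * Real.log (J + N) := by
    have := Real.log_le_log (by linarith : (0 : ℝ) < J) (by linarith : (J : ℝ) ≤ J + N)
    linarith
  have e0 : ∫ t, rho J N (Real.exp (t / 2)) =
      ∫ t in (2 * Real.log J)..(2 * Real.log (J + N)), rho J N (Real.exp (t / 2)) :=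
    (intervalIntegral.integral_eq_integral_of_support_subset hsupp).symm
  have hg : Continuous fun r : ℝ => rho J N r * (2 / max r 1) :=
    (apxn_rho_cont J N).mul (Continuous.div continuous_const (continuous_id.max continuous_const)
      (fun r => (lt_of_lt_of_le one_pos (le_max_right _ _)).ne'))
  have e1 : ∫ t in (2 * Real.log J)..(2 * Real.log (J + N)), rho J N (Real.exp (t / 2)) =
      ∫ t in (2 * Real.log J)..(2 * Real.log (J + N)),
        ((fun r : ℝ => rho J N r * (2 / max r 1)) ∘ (fun t : ℝ => Real.exp (t / 2))) t *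
          (Real.exp (t / 2) / 2) := by
    refine intervalIntegral.integral_congr fun t ht => ?_
    rw [Set.uIcc_of_le hle] at ht
    have h1 : 1 ≤ Real.exp (t / 2) := by
      rw [Real.one_le_exp_iff]
      have := Real.log_nonneg hJ'
      linarith [ht.1]
    simp only [Function.comp]
    rw [max_eq_left h1]
    have h2 := (Real.exp_pos (t / 2)).ne'
    field_simp
  have e2 := intervalIntegral.integral_comp_mul_deriv (a := 2 * Real.log J) (b := 2 * Real.log (J + N))
    (f := fun t : ℝ => Real.exp (t / 2)) (f' := fun t : ℝ => Real.exp (t / 2) / 2)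
    (g := fun r : ℝ => rho J N r * (2 / max r 1))
    (fun t _ => by
      have h1 := ((hasDerivAt_id t).div_const (2 : ℝ)).exp
      exact h1.congr_deriv (by simp; ring)) (by fun_prop) hg
  have e3 : Real.exp (2 * Real.log J / 2) = J := by
    rw [mul_div_cancel_left₀ _ (two_ne_zero), Real.exp_log (by linarith)]
  have e4 : Real.exp (2 * Real.log (J + N) / 2) = J + N := by
    rw [mul_div_cancel_left₀ _ (two_ne_zero), Real.exp_log (by linarith)]
  rw [e3, e4] at e2
  rw [e0, e1, e2]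
  have hrho := apxo_rho_int J N hN
  constructor
  · have h1 : ∫ r in (J : ℝ)..(J + N), rho J N r * (2 / (J + N)) ≤
        ∫ r in (J : ℝ)..(J + N), rho J N r * (2 / max r 1) := by
      refine intervalIntegral.integral_mono_on (by linarith)
        (((apxn_rho_cont J N).mul continuous_const).intervalIntegrable _ _)
        (hg.intervalIntegrable _ _) fun r hr => ?_
      refine mul_le_mul_of_nonneg_left ?_ (apxn_rho_nn J N r)
      exact div_le_div_of_nonneg_left (by norm_num) (lt_of_lt_of_le one_pos (le_max_right _ _))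
        (max_le hr.2 (by linarith))
    rw [intervalIntegral.integral_mul_const, hrho] at h1
    calc (N : ℝ) / (J + N) = N / 2 * (2 / (J + N)) := by field_simp
      _ ≤ _ := h1
  · have h1 : ∫ r in (J : ℝ)..(J + N), rho J N r * (2 / max r 1) ≤
        ∫ r in (J : ℝ)..(J + N), rho J N r * (2 / J) := by
      refine intervalIntegral.integral_mono_on (by linarith)
        (hg.intervalIntegrable _ _)
        (((apxn_rho_cont J N).mul continuous_const).intervalIntegrable _ _) fun r hr => ?_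
      refine mul_le_mul_of_nonneg_left ?_ (apxn_rho_nn J N r)
      exact div_le_div_of_nonneg_left (by norm_num) (by linarith) (hr.1.trans (le_max_left _ _))
    rw [intervalIntegral.integral_mul_const, hrho] at h1
    calc _ ≤ (N : ℝ) / 2 * (2 / J) := h1
      _ = (N : ℝ) / J := by field_simp

/-- PROOF. `r = exp (t/2)`, `dt = 2 dr / r`: the integral is `∫ r in J..(J+N), h (y/r) rho J N r * (2/r)` (substitution `integral_comp_...` or `MeasureTheory.integral_image_eq_integral_abs_deriv_smul`; both sides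
are integrals of continuous functions over compact intervals `[2 log J, 2 log (J+N)]`), and `∫ r in J..(J+N), rho J N r = N/2`. Pointwise
`|h (y/r) (2/r) - h (y/J) (2/J)| ≤ (2/J) (|h (y/r) - h (y/J)| + N/J)`; if not both values of `h` vanish then `y ≤ h2 (J + N)` (and `y > 0`), `|y/r - y/J| ≤ y N/J^2 ≤ h2 (J+N) N/J^2`, small for
`J ≥ J0(N, η)`; uniform continuity of `h` (compact support). -/
theorem crho (h : ℝ → ℝ) (h1 h2 : ℝ) (hh : HF h h1 h2) (N : ℕ) (hN : 1 ≤ N) (η : ℝ) (hη : 0 < η) :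
    ∃ J0 : ℕ, 1 ≤ J0 ∧ ∀ J : ℕ, J0 ≤ J → ∀ y : ℝ,
      ‖(∫ t, WO h J N y t) - (((N : ℝ) / J * h (y / J) : ℝ) : ℂ)‖ ≤ η * (N / J) := by
  have hN' : (1 : ℝ) ≤ N := by exact_mod_cast hN
  have h2pos : 0 < h2 := by linarith [hh.one]
  have hcs : HasCompactSupport h := by
    refine HasCompactSupport.of_support_subset_isCompact (isCompact_Icc (a := h1) (b := h2)) ?_
    intro y hy
    constructor
    · by_contra h0
      exact hy (hh.lo _ (not_le.1 h0).le)
    · by_contra h0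
      exact hy (hh.hi _ (not_le.1 h0).le)
  have huc : UniformContinuous h := hcs.uniformContinuous_of_continuous hh.cont
  obtain ⟨δ, hδ, hδ2⟩ := Metric.uniformContinuous_iff.1 huc (η / 2) (by positivity)
  obtain ⟨J0, hJ0⟩ := exists_nat_gt (max (h2 * N / δ) (2 * N / η))
  refine ⟨J0 + 1, by omega, fun J hJ y => ?_⟩
  have hJ0J : (J0 : ℝ) ≤ J := by exact_mod_cast (by omega : J0 ≤ J)
  have hJ1 : 1 ≤ J := by omega
  have hJ' : (1 : ℝ) ≤ J := by exact_mod_cast hJ1
  have hJpos : (0 : ℝ) < J := by linarith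
  have a1 : h2 * N / J < δ := by
    rw [div_lt_iff₀ hJpos]
    have := (le_max_left _ _).trans_lt hJ0
    rw [div_lt_iff₀ hδ] at this
    nlinarith
  have a2 : (N : ℝ) / J ≤ η / 2 := by
    rw [div_le_iff₀ hJpos]
    have := (le_max_right _ _).trans_lt hJ0
    rw [div_lt_iff₀ hη] at this
    nlinarith
  obtain ⟨i1, i2⟩ := apxo_I J N hJ1 hN
  set I := ∫ t, rho J N (Real.exp (t / 2)) with hI
  have hrc : Continuous fun t : ℝ => rho J N (Real.exp (t / 2)) :=
    (apxn_rho_cont J N).comp (by fun_prop)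
  have hrcs : HasCompactSupport fun t : ℝ => rho J N (Real.exp (t / 2)) := by
    refine HasCompactSupport.of_support_subset_isCompact
      (isCompact_Icc (a := 2 * Real.log J) (b := 2 * Real.log (J + N))) ?_
    intro t ht
    obtain ⟨h3, h4⟩ := apxn_rho_ne hN ht
    constructor
    · have := (Real.log_lt_iff_lt_exp (by linarith)).2 h3
      linarith
    · have := (Real.lt_log_iff_exp_lt (by linarith)).2 h4
      linarith
  have hri : Integrable fun t : ℝ => rho J N (Real.exp (t / 2)) :=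
    hrc.integrable_of_hasCompactSupport hrcs
  have hti : Integrable fun t : ℝ => h (y * Real.exp (-t / 2)) * rho J N (Real.exp (t / 2)) :=
    Continuous.integrable_of_hasCompactSupport ((hh.cont.comp (by fun_prop)).mul hrc)
      hrcs.mul_left
  have hW : (∫ t, WO h J N y t) =
      ((∫ t, h (y * Real.exp (-t / 2)) * rho J N (Real.exp (t / 2)) : ℝ) : ℂ) := by
    unfold WO
    exact integral_ofReal
  rw [hW, ← Complex.ofReal_sub, Complex.norm_real, Real.norm_eq_abs]
  have hpt : ∀ t : ℝ, |h (y * Real.exp (-t / 2)) * rho J N (Real.exp (t / 2)) -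
      h (y / J) * rho J N (Real.exp (t / 2))| ≤ η / 2 * rho J N (Real.exp (t / 2)) := by
    intro t
    rw [← sub_mul, abs_mul, abs_of_nonneg (apxn_rho_nn J N _)]
    by_cases hz : rho J N (Real.exp (t / 2)) = 0
    · rw [hz, mul_zero, mul_zero]
    refine mul_le_mul_of_nonneg_right ?_ (apxn_rho_nn J N _)
    obtain ⟨h3, h4⟩ := apxn_rho_ne hN hz
    obtain ⟨r, hr⟩ : ∃ r : ℝ, r = Real.exp (t / 2) := ⟨_, rfl⟩
    have hrn : Real.exp (-t / 2) = r⁻¹ := by rw [hr, ← Real.exp_neg, neg_div]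
    rw [hrn, ← div_eq_mul_inv]
    rw [← hr] at h3 h4
    have hr0 : 0 < r := by linarith
    rcases le_or_gt y 0 with hy | hy
    · rw [hh.lo _ ((div_nonpos_of_nonpos_of_nonneg hy hr0.le).trans hh.pos.le),
        hh.lo _ ((div_nonpos_of_nonpos_of_nonneg hy hJpos.le).trans hh.pos.le)]
      simp only [sub_self, abs_zero]
      positivity
    rcases le_or_gt h2 (y / r) with hb | hb
    · have h5 : y / r ≤ y / J := div_le_div_of_nonneg_left hy.le hJpos h3.le
      rw [hh.hi _ hb, hh.hi _ (hb.trans h5)]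
      simp only [sub_self, abs_zero]
      positivity
    · have h5 : dist (y / r) (y / J) < δ := by
        rw [Real.dist_eq, abs_sub_comm]
        have h6 : y / J - y / r = (y / r) * ((r - J) / J) := by
          field_simp
        rw [h6, abs_of_nonneg (mul_nonneg (div_nonneg hy.le hr0.le) (div_nonneg (by linarith) hJpos.le))]
        refine lt_of_le_of_lt ?_ a1
        rw [mul_div_assoc]
        refine mul_le_mul hb.le ?_ (div_nonneg (by linarith) hJpos.le) h2pos.le
        exact div_le_div_of_nonneg_right (by linarith) hJpos.le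
      have := hδ2 h5
      rw [Real.dist_eq] at this
      exact this.le
  have hmain : |(∫ t, h (y * Real.exp (-t / 2)) * rho J N (Real.exp (t / 2))) - h (y / J) * I| ≤
      η / 2 * I := by
    rw [hI, ← integral_const_mul, ← integral_sub hti (hri.const_mul _), ← integral_const_mul]
    refine (abs_integral_le_integral_abs).trans ?_
    refine integral_mono (hti.sub (hri.const_mul _)).abs (hri.const_mul _) fun t => hpt t
  have hI2 : |I - N / J| ≤ η / 2 * (N / J) := by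
    rw [abs_le]
    constructor
    · have h3 : (N : ℝ) / J - N / (J + N) ≤ N / J * (N / J) := by
        have h4 : (N : ℝ) / J - N / (J + N) = N / J * (N / (J + N)) := by
          field_simp
          ring
        rw [h4]
        exact mul_le_mul_of_nonneg_left (div_le_div_of_nonneg_left (by linarith) hJpos (by linarith))
          (by positivity)
      have h5 : (N : ℝ) / J * (N / J) ≤ η / 2 * (N / J) :=
        mul_le_mul_of_nonneg_right a2 (by positivity)
      linarith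
    · have : 0 ≤ η / 2 * ((N : ℝ) / J) := by positivity
      linarith
  have hhb : |h (y / J)| ≤ 1 := by
    rw [abs_of_nonneg (hh.nn _)]
    exact hh.le _
  calc |(∫ t, h (y * Real.exp (-t / 2)) * rho J N (Real.exp (t / 2))) - N / J * h (y / J)|
      = |((∫ t, h (y * Real.exp (-t / 2)) * rho J N (Real.exp (t / 2))) - h (y / J) * I) +
          h (y / J) * (I - N / J)| := by congr 1; ring
    _ ≤ |(∫ t, h (y * Real.exp (-t / 2)) * rho J N (Real.exp (t / 2))) - h (y / J) * I| +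
          |h (y / J) * (I - N / J)| := abs_add_le _ _
    _ ≤ η / 2 * I + 1 * (η / 2 * (N / J)) := by
        rw [abs_mul]
        exact add_le_add hmain (mul_le_mul hhb hI2 (abs_nonneg _) zero_le_one)
    _ ≤ η / 2 * (N / J) + 1 * (η / 2 * (N / J)) := by
        have := mul_le_mul_of_nonneg_left i2 (by positivity : (0 : ℝ) ≤ η / 2)
        linarith
    _ = η * (N / J) := by ring

end Pool.Agent.OmEq
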