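import Pool.Agent.Lib_MP_f1a94e_eq.Cls

/-!
# Piece CMPP: products of multiplicative functions are compatible with moves
-/

set_option autoImplicit false

namespace Pool.Agent.OmEq

open Finset Pool.Agent.GaussMR Pool.Agent.OmAll

/-- completely multiplicative functions bounded by 1, equal to `ω` at the primes `1 mod 4` outside `E` -/
structure FF (f : ℕ → ℂ) (E : Finset ℕ) (ω : ℂ) : Prop where
  mul : ∀ m n, f (m * n) = f m * f n
  bd : ∀ n, ‖f n‖ ≤ 1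
  pr : ∀ p : ℕ, p.Prime → p % 4 = 1 → p ∉ E → f p = ω

/-- immediate -/
theorem FF.conj {f : ℕ → ℂ} {E : Finset ℕ} {ω : ℂ} (h : FF f E ω) :
    FF (fun n => (starRingEnd ℂ) (f n)) E ((starRingEnd ℂ) ω) := by
  refine ⟨fun m n => ?_, fun n => ?_, fun p hp h4 hE => ?_⟩
  · rw [h.mul, map_mul]
  · rw [RCLike.norm_conj]
    exact h.bd n
  · rw [h.pr p hp h4 hE]

/-- PROOF. `bd`: `‖χ‖ ≤ 1` (`DirichletCharacter.norm_le_one`). `mv`: `p = nm γ ∉ E ∪ n.primeFactors` is coprime to `n`; by `En_move` and multiplicativity (`nm_mul`, `nm_star`)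
`Φ (γ U, W) = ω1 f1(nm U) f2(nm W) χ(c)` and `Φ (U, star γ W) = f1(nm U) ω2 f2(nm W) χ(p) χ(c)`; `ω1 = (ω1 conj ω2) ω2` (`‖ω2‖ = 1`) and `χ⁻¹(p) χ(p) = 1` (`p` is a unit). -/
theorem cmp_pair (n : ℕ) [NeZero n] (χ : DirichletCharacter ℂ n) (E : Finset ℕ) (f1 f2 : ℕ → ℂ) (ω1 ω2 : ℂ)
    (h1 : FF f1 E ω1) (h2 : FF f2 E ω2) (hω1 : ‖ω1‖ = 1) (hω2 : ‖ω2‖ = 1) :
    Cmp n (E ∪ n.primeFactors) (fun p => ω1 * (starRingEnd ℂ) ω2 * χ⁻¹ (p : ZMod n))
      (fun e => f1 (nm e.1) * f2 (nm e.2) * χ (cl n e)) := by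
  classical
  refine ⟨fun e => ?_, ?_⟩
  · rw [norm_mul, norm_mul]
    have k1 := h1.bd (nm e.1)
    have k2 := h2.bd (nm e.2)
    have k3 := χ.norm_le_one (cl n e)
    exact mul_le_one₀ (mul_le_one₀ k1 (norm_nonneg _) k2) (norm_nonneg _) k3
  · intro γ U W hp h4 hE he _
    have hE1 : nm γ ∉ E := fun h => hE (Finset.mem_union_left _ h)
    have hcop : (nm γ).Coprime n := by
      rw [Nat.Prime.coprime_iff_not_dvd hp]
      intro hd
      exact hE (Finset.mem_union_right _ (Nat.mem_primeFactors.mpr ⟨hp, hd, NeZero.ne n⟩))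
    obtain ⟨_, hcl⟩ := En_move hp hcop he
    have hu : IsUnit ((nm γ : ZMod n)) := (ZMod.isUnit_iff_coprime _ _).mpr hcop
    have e1 : f1 (nm (γ * U)) = ω1 * f1 (nm U) := by
      rw [nm_mul, h1.mul, h1.pr _ hp h4 hE1]
    have e2 : f2 (nm (star γ * W)) = ω2 * f2 (nm W) := by
      rw [nm_mul, nm_star, h2.mul, h2.pr _ hp h4 hE1]
    have e3 : (starRingEnd ℂ) ω2 * ω2 = 1 := by
      rw [mul_comm, Complex.mul_conj, Complex.normSq_eq_norm_sq, hω2]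
      norm_num
    have e4 : χ⁻¹ ((nm γ : ZMod n)) * χ ((nm γ : ZMod n)) = 1 := by
      rw [← MulChar.mul_apply, inv_mul_cancel, MulChar.one_apply hu]
    simp only
    rw [hcl, e1, e2, map_mul]
    calc ω1 * f1 (nm U) * f2 (nm W) * χ (cl n (γ * U, W))
        = ω1 * f1 (nm U) * f2 (nm W) * χ (cl n (γ * U, W)) * ((starRingEnd ℂ) ω2 * ω2) *
          (χ⁻¹ ((nm γ : ZMod n)) * χ ((nm γ : ZMod n))) := by rw [e3, e4, mul_one, mul_one]
      _ = _ := by ring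

end Pool.Agent.OmEq
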