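import Pool.Agent.Lib_MP_f1a94e_aq.ZEuler

/-!
# Piece NPT: sums over primes near the line 1
-/

set_option autoImplicit false

namespace Pool.Agent.OmEq

open Complex

namespace NpT

open ArithmeticFunction ArithmeticFunction.vonMangoldt LSeries

/-- the indicator function of the primes -/
noncomputable def f (n : ℕ) : ℂ := if n.Prime then 1 else 0

theorem f_absc : abscissaOfAbsConv f ≤ 1 := by
  refine abscissaOfAbsConv_le_of_le_const ⟨1, fun n _ => ?_⟩
  unfold f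
  split_ifs <;> simp

theorem f_absc_lt {s : ℂ} (hs : 1 < s.re) : abscissaOfAbsConv f < s.re :=
  f_absc.trans_lt (by exact_mod_cast hs)

theorem P_eq (s : ℂ) : ∑' p : Nat.Primes, ((p : ℕ) : ℂ) ^ (-s) = LSeries f s := by
  unfold LSeries
  have h1 : (fun p : Nat.Primes => ((p : ℕ) : ℂ) ^ (-s)) =
      fun p : Nat.Primes => (fun n : ℕ => (n : ℂ) ^ (-s)) (p : ℕ) := rfl
  rw [h1]
  have h2 := tsum_subtype {p : ℕ | p.Prime} (fun n : ℕ => (n : ℂ) ^ (-s))
  refine h2.trans (tsum_congr fun n => ?_)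
  unfold Set.indicator f term
  simp only [Set.mem_ofPred_eq]
  by_cases hn : n.Prime
  · rw [if_pos hn, if_neg hn.ne_zero, if_pos hn, cpow_neg, one_div]
  · rw [if_neg hn, if_neg hn, zero_div, ite_self]

/-- the von Mangoldt function outside the primes -/
noncomputable def g (n : ℕ) : ℝ := if n.Prime then 0 else residueClass (0 : ZMod 1) n

theorem g_nonneg (n : ℕ) : 0 ≤ g n := by
  unfold g
  split_ifs
  · exact le_rfl
  · exact residueClass_nonneg _ n

theorem g_term {s : ℂ} (hs : 1 < s.re) (n : ℕ) : ‖term (fun n => (g n : ℂ)) s n‖ ≤ g n / n := by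
  rw [norm_term_eq]
  by_cases hn : n = 0
  · rw [if_pos hn]
    exact div_nonneg (g_nonneg n) (Nat.cast_nonneg n)
  · rw [if_neg hn, Complex.norm_real, Real.norm_eq_abs, abs_of_nonneg (g_nonneg n)]
    have h1 : (1 : ℝ) ≤ n := by exact_mod_cast Nat.one_le_iff_ne_zero.2 hn
    refine div_le_div_of_nonneg_left (g_nonneg n) (by linarith) ?_
    calc (n : ℝ) = (n : ℝ) ^ (1 : ℝ) := (Real.rpow_one _).symm
      _ ≤ (n : ℝ) ^ s.re := Real.rpow_le_rpow_of_exponent_le h1 hs.le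

theorem g_sum : Summable fun n : ℕ => g n / n := summable_residueClass_non_primes_div (0 : ZMod 1)

theorem g_summable {s : ℂ} (hs : 1 < s.re) : LSeriesSummable (fun n => (g n : ℂ)) s :=
  Summable.of_norm_bounded g_sum (g_term hs)

theorem g_bound {s : ℂ} (hs : 1 < s.re) :
    ‖LSeries (fun n => (g n : ℂ)) s‖ ≤ ∑' n : ℕ, g n / n := by
  unfold LSeries
  exact tsum_of_norm_bounded g_sum.hasSum (g_term hs)

theorem L_summable {s : ℂ} (hs : 1 < s.re) :
    LSeriesSummable (fun n => (residueClass (0 : ZMod 1) n : ℂ)) s :=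
  LSeriesSummable_of_abscissaOfAbsConv_lt_re
    ((abscissaOfAbsConv_residueClass_le_one _).trans_lt (by exact_mod_cast hs))

theorem logMul_eq {s : ℂ} (hs : 1 < s.re) : LSeries (logMul f) s =
    LSeries (fun n => (residueClass (0 : ZMod 1) n : ℂ)) s - LSeries (fun n => (g n : ℂ)) s := by
  rw [← LSeries_sub (L_summable hs) (g_summable hs)]
  refine LSeries_congr (fun {n} hn => ?_) s
  unfold logMul f g
  simp only [Pi.sub_apply]
  by_cases hp : n.Prime
  · rw [if_pos hp, if_pos hp, mul_one, ofReal_zero, sub_zero]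
    have h1 : residueClass (0 : ZMod 1) n = vonMangoldt n := by
      unfold residueClass
      rw [Set.indicator_of_mem]
      exact Subsingleton.elim _ _
    rw [h1, vonMangoldt_apply_prime hp, ofReal_log (Nat.cast_nonneg n), ofReal_natCast]
  · rw [if_neg hp, if_neg hp, mul_zero, sub_self]

theorem deriv_bound (B : ℝ) : ∃ C : ℝ, 0 ≤ C ∧ ∀ s : ℂ, 1 < s.re → s.re ≤ 2 → |s.im| ≤ B →
    ‖LSeries (logMul f) s - 1 / (s - 1)‖ ≤ C := by
  have hK : IsCompact (Set.Icc (1 : ℝ) 2 ×ℂ Set.Icc (-B) B) := isCompact_Icc.reProdIm isCompact_Icc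
  have hcont : ContinuousOn (LFunctionResidueClassAux (0 : ZMod 1))
      (Set.Icc (1 : ℝ) 2 ×ℂ Set.Icc (-B) B) := by
    refine (continuousOn_LFunctionResidueClassAux (0 : ZMod 1)).mono ?_
    intro s hs
    exact (mem_reProdIm.1 hs).1.1
  obtain ⟨C, hC⟩ := hK.exists_bound_of_continuousOn hcont
  have hG : 0 ≤ ∑' n : ℕ, g n / n :=
    tsum_nonneg fun n => div_nonneg (g_nonneg n) (Nat.cast_nonneg n)
  refine ⟨max C 0 + ∑' n : ℕ, g n / n, by positivity, fun s h1 h2 h3 => ?_⟩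
  have hm : s ∈ (Set.Icc (1 : ℝ) 2 ×ℂ Set.Icc (-B) B) :=
    mem_reProdIm.2 ⟨⟨h1.le, h2⟩, abs_le.1 h3⟩
  have h4 := hC s hm
  have h5 := eqOn_LFunctionResidueClassAux (a := (0 : ZMod 1)) (isUnit_of_subsingleton _)
    (show s ∈ {s : ℂ | 1 < s.re} from h1)
  rw [h5] at h4
  simp only [Nat.totient_one, Nat.cast_one, inv_one] at h4
  rw [logMul_eq h1]
  have h6 := g_bound h1
  calc ‖LSeries (fun n => (residueClass (0 : ZMod 1) n : ℂ)) s - LSeries (fun n => (g n : ℂ)) s -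
        1 / (s - 1)‖ = ‖(LSeries (fun n => (residueClass (0 : ZMod 1) n : ℂ)) s - 1 / (s - 1)) -
          LSeries (fun n => (g n : ℂ)) s‖ := by congr 1; ring
    _ ≤ C + ∑' n : ℕ, g n / n := (norm_sub_le _ _).trans (add_le_add h4 h6)
    _ ≤ max C 0 + ∑' n : ℕ, g n / n := by
        have := le_max_left C 0
        linarith

end NpT

open NpT in
/-- PROOF. `P(δ) = ∑_p p^(-s)`, `s = 1 + δ + i t`. Let `Z(s) = ∑ Λ(n) n^(-s)`; Mathlib (`Mathlib/NumberTheory/LSeries/Nonvanishing.lean`,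
`continuousOn_neg_logDeriv_LFunctionTrivChar₁` with modulus 1, or the zeta function versions): `Z(s) - 1/(s-1)` extends to a continuous function on `Re s ≥ 1`, so it is bounded by `C1`
on the compact set `1 ≤ Re s ≤ 2`, `|Im s| ≤ B`. Termwise `P(δ) - P(1) = ∑_p p^(-1-it) (p^(-δ) - p^(-1)) = ∫_δ^1 ∑_p log p p^(-1-u-it) du` and
`∑_p log p p^(-1-u-it) = Z(1+u+it) - ∑_(p, k ≥ 2) log p p^(-k(1+u+it))`, the last sum is bounded by `∑ 2 log p/p^2 ≤ C2`. So
`P(δ) = O(1) + ∫_δ^1 du/(u + i t)`, and `∫_δ^1 du/(u+it) = log (1 + i t) - log (δ + i t)` (real part of `δ + it` positive: derivative of `Complex.log`), which differs from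
`Real.log (1/‖δ + i t‖)` by at most `|log ‖1 + i t‖| + π`. (An alternative: `exp (∑' -log (1 - p^(-s))) = ζ(s)` controls only the real part; here the imaginary
part is needed too.) -/
theorem npT (B : ℝ) (hB : 0 < B) : ∃ C : ℝ, ∀ δ t : ℝ, 0 < δ → δ ≤ 1 → |t| ≤ B →
    ‖(∑' p : Nat.Primes, ((p : ℕ) : ℂ) ^ (-((1 + δ : ℝ) + (t : ℂ) * I))) -
      (Real.log (1 / ‖(δ : ℂ) + (t : ℂ) * I‖) : ℂ)‖ ≤ C := by
  obtain ⟨C, hC0, hC⟩ := deriv_bound B
  -- the value at `2 + i t`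
  have hsum : Summable fun p : Nat.Primes => ((p : ℕ) : ℝ) ^ (-(2 : ℝ)) :=
    Nat.Primes.summable_rpow.2 (by norm_num)
  set C3 := ∑' p : Nat.Primes, ((p : ℕ) : ℝ) ^ (-(2 : ℝ)) with hC3
  have h2 : ∀ t : ℝ, ‖LSeries f ((2 : ℝ) + (t : ℂ) * I)‖ ≤ C3 := by
    intro t
    rw [← P_eq]
    refine tsum_of_norm_bounded hsum.hasSum fun p => ?_
    rw [Complex.norm_natCast_cpow_of_pos p.2.pos]
    simp
  set C4 := Real.log (1 + B) + Real.pi with hC4
  have h3 : ∀ t : ℝ, |t| ≤ B → ‖Complex.log ((1 : ℂ) + (t : ℂ) * I)‖ ≤ C4 := by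
    intro t ht
    have hre : ((1 : ℂ) + (t : ℂ) * I).re = 1 := by simp
    have hn1 : 1 ≤ ‖(1 : ℂ) + (t : ℂ) * I‖ := by
      have := Complex.abs_re_le_norm ((1 : ℂ) + (t : ℂ) * I)
      rwa [hre, abs_one] at this
    have hn2 : ‖(1 : ℂ) + (t : ℂ) * I‖ ≤ 1 + B := by
      refine (norm_add_le _ _).trans ?_
      rw [norm_one, norm_mul, Complex.norm_I, mul_one, Complex.norm_real, Real.norm_eq_abs]
      linarith
    refine (Complex.norm_le_abs_re_add_abs_im _).trans ?_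
    rw [Complex.log_re, Complex.log_im]
    refine add_le_add ?_ (Complex.abs_arg_le_pi _)
    rw [abs_of_nonneg (Real.log_nonneg hn1)]
    exact Real.log_le_log (by linarith) hn2
  refine ⟨C + C3 + C4 + Real.pi, fun δ t hδ hδ1 ht => ?_⟩
  rw [P_eq]
  -- `D x = P(1 + x + i t) + log (x + i t)`
  set D : ℝ → ℂ := fun x => LSeries f (((1 + x : ℝ) : ℂ) + (t : ℂ) * I) +
    Complex.log ((x : ℂ) + (t : ℂ) * I) with hD
  have hderiv : ∀ x ∈ Set.Icc δ 1, HasDerivWithinAt D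
      (-(LSeries (LSeries.logMul f) (((1 + x : ℝ) : ℂ) + (t : ℂ) * I) -
        1 / ((((1 + x : ℝ) : ℂ) + (t : ℂ) * I) - 1))) (Set.Icc δ 1) x := by
    intro x hx
    have hx0 : 0 < x := hδ.trans_le hx.1
    have e1 : HasDerivAt (fun x : ℝ => ((1 + x : ℝ) : ℂ) + (t : ℂ) * I) 1 x := by
      have h5 : HasDerivAt (fun x : ℝ => ((1 + x : ℝ) : ℂ)) 1 x := by
        have := ((hasDerivAt_id x).const_add 1).ofReal_comp
        simpa using this
      exact h5.add_const _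
    have e2 : HasDerivAt (fun x : ℝ => (x : ℂ) + (t : ℂ) * I) 1 x := by
      have h5 : HasDerivAt (fun x : ℝ => (x : ℂ)) 1 x := by
        have := (hasDerivAt_id x).ofReal_comp
        simpa using this
      exact h5.add_const _
    have hs : 1 < (((1 + x : ℝ) : ℂ) + (t : ℂ) * I).re := by
      simp
      exact hx0
    have e3 := (LSeries_hasDerivAt (f_absc_lt hs)).comp x e1
    have hsl : (x : ℂ) + (t : ℂ) * I ∈ Complex.slitPlane := by
      left
      simp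
      exact hx0
    have e4 := (Complex.hasDerivAt_log hsl).comp x e2
    have e5 := (e3.add e4).hasDerivWithinAt (s := Set.Icc δ 1)
    refine (e5.congr_deriv ?_)
    have h6 : (((1 + x : ℝ) : ℂ) + (t : ℂ) * I) - 1 = (x : ℂ) + (t : ℂ) * I := by
      push_cast
      ring
    rw [h6, mul_one, mul_one, one_div]
    ring
  have hb : ∀ x ∈ Set.Icc δ 1, ‖(-(LSeries (LSeries.logMul f) (((1 + x : ℝ) : ℂ) + (t : ℂ) * I) -
        1 / ((((1 + x : ℝ) : ℂ) + (t : ℂ) * I) - 1)))‖ ≤ C := by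
    intro x hx
    rw [norm_neg]
    apply hC
    · simp
      exact hδ.trans_le hx.1
    · simp
      linarith [hx.2]
    · simpa using ht
  have hmv := (convex_Icc δ 1).norm_image_sub_le_of_norm_hasDerivWithin_le (C := C) hderiv hb
    (Set.right_mem_Icc.2 hδ1) (Set.left_mem_Icc.2 hδ1)
  have h7 : ‖D δ - D 1‖ ≤ C := by
    refine hmv.trans ?_
    rw [Real.norm_eq_abs, abs_of_nonpos (by linarith)]
    nlinarith
  have h8 : ‖D 1‖ ≤ C3 + C4 := by
    rw [hD]
    simp only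
    refine (norm_add_le _ _).trans (add_le_add ?_ ?_)
    · have := h2 t
      norm_num at this ⊢
      exact this
    · have := h3 t ht
      simpa using this
  have h9 : ‖Complex.log ((δ : ℂ) + (t : ℂ) * I) +
      (Real.log (1 / ‖(δ : ℂ) + (t : ℂ) * I‖) : ℂ)‖ ≤ Real.pi := by
    have h10 : Complex.log ((δ : ℂ) + (t : ℂ) * I) =
        (Real.log ‖(δ : ℂ) + (t : ℂ) * I‖ : ℂ) + (arg ((δ : ℂ) + (t : ℂ) * I) : ℂ) * I := rfl
    rw [h10, one_div, Real.log_inv, ofReal_neg]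
    have h11 : (Real.log ‖(δ : ℂ) + (t : ℂ) * I‖ : ℂ) + (arg ((δ : ℂ) + (t : ℂ) * I) : ℂ) * I +
        -(Real.log ‖(δ : ℂ) + (t : ℂ) * I‖ : ℂ) = (arg ((δ : ℂ) + (t : ℂ) * I) : ℂ) * I := by ring
    rw [h11, norm_mul, Complex.norm_I, mul_one, Complex.norm_real, Real.norm_eq_abs]
    exact Complex.abs_arg_le_pi _
  have h12 : LSeries f (((1 + δ : ℝ) : ℂ) + (t : ℂ) * I) -
      (Real.log (1 / ‖(δ : ℂ) + (t : ℂ) * I‖) : ℂ) = (D δ - D 1) + D 1 -
        (Complex.log ((δ : ℂ) + (t : ℂ) * I) +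
          (Real.log (1 / ‖(δ : ℂ) + (t : ℂ) * I‖) : ℂ)) := by
    rw [hD]
    simp only
    ring
  rw [h12]
  calc ‖(D δ - D 1) + D 1 - (Complex.log ((δ : ℂ) + (t : ℂ) * I) +
          (Real.log (1 / ‖(δ : ℂ) + (t : ℂ) * I‖) : ℂ))‖
      ≤ ‖(D δ - D 1) + D 1‖ + ‖Complex.log ((δ : ℂ) + (t : ℂ) * I) +
          (Real.log (1 / ‖(δ : ℂ) + (t : ℂ) * I‖) : ℂ)‖ := norm_sub_le _ _
    _ ≤ (‖D δ - D 1‖ + ‖D 1‖) + Real.pi := add_le_add (norm_add_le _ _) h9
    _ ≤ C + C3 + C4 + Real.pi := by linarith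

end Pool.Agent.OmEq
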