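import Pool.Agent.Lib_MP_f1a94e_aq.ZEuler

/-!
# Piece NPN: twisted sums over primes near the line 1
-/

set_option autoImplicit false

namespace Pool.Agent.OmEq

open Complex

/-- values of the character at primes, `0` otherwise -/
noncomputable def npf {N : ℕ} (χ : DirichletCharacter ℂ N) (n : ℕ) : ℂ :=
  if n.Prime then χ (n : ZMod N) else 0

theorem npf_le {N : ℕ} (χ : DirichletCharacter ℂ N) (n : ℕ) : ‖npf χ n‖ ≤ 1 := by
  unfold npf
  split_ifs
  · exact χ.norm_le_one _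
  · simp

theorem npf_abs {N : ℕ} (χ : DirichletCharacter ℂ N) {s : ℂ} (hs : 1 < s.re) :
    LSeries.abscissaOfAbsConv (npf χ) < s.re := by
  refine lt_of_le_of_lt (LSeries.abscissaOfAbsConv_le_of_le_const ⟨1, fun n _ => npf_le χ n⟩) ?_
  exact_mod_cast hs

theorem npf_series {N : ℕ} (χ : DirichletCharacter ℂ N) (s : ℂ) :
    ∑' p : Nat.Primes, χ (((p : ℕ) : ZMod N)) * ((p : ℕ) : ℂ) ^ (-s) = LSeries (npf χ) s := by
  have h := tsum_subtype {p : ℕ | p.Prime} (fun n : ℕ => χ ((n : ZMod N)) * (n : ℂ) ^ (-s))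
  have h1 : ∑' p : Nat.Primes, χ (((p : ℕ) : ZMod N)) * ((p : ℕ) : ℂ) ^ (-s) =
      ∑' x : ↑{p : ℕ | p.Prime}, (fun n : ℕ => χ ((n : ZMod N)) * (n : ℂ) ^ (-s)) ↑x := rfl
  rw [h1, h]
  unfold LSeries
  apply tsum_congr
  intro n
  rw [Set.indicator_apply, LSeries.term_def]
  by_cases hp : n.Prime
  · rw [if_pos (show n ∈ {p : ℕ | p.Prime} from hp), if_neg hp.ne_zero, npf, if_pos hp,
      Complex.cpow_neg, div_eq_mul_inv]
  · rw [if_neg (show ¬ n ∈ {p : ℕ | p.Prime} from hp), npf, if_neg hp, zero_div]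
    simp

/-- the sum over prime powers -/
noncomputable def npC : ℝ := ∑' n : ℕ, (if n.Prime then 0 else ArithmeticFunction.vonMangoldt.residueClass (q := 1) 0 n) / (n : ℝ)

theorem npf_log {N : ℕ} (χ : DirichletCharacter ℂ N) {s : ℂ} (hs : 1 < s.re) :
    ‖LSeries ((fun n : ℕ => χ (n : ZMod N)) * (fun n : ℕ => ((ArithmeticFunction.vonMangoldt n : ℝ) : ℂ))) s -
      LSeries (LSeries.logMul (npf χ)) s‖ ≤ npC := by
  have h1 : LSeriesSummable ((fun n : ℕ => χ (n : ZMod N)) * (fun n : ℕ => ((ArithmeticFunction.vonMangoldt n : ℝ) : ℂ))) s :=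
    DirichletCharacter.LSeriesSummable_twist_vonMangoldt χ hs
  have h2 : LSeriesSummable (LSeries.logMul (npf χ)) s :=
    LSeriesSummable_logMul_of_lt_re (npf_abs χ hs)
  rw [← LSeries_sub h1 h2]
  unfold LSeries npC
  apply tsum_of_norm_bounded (ArithmeticFunction.vonMangoldt.summable_residueClass_non_primes_div (q := 1) 0).hasSum
  intro n
  rw [LSeries.term_def]
  by_cases h0 : n = 0
  · simp [h0]
  · rw [if_neg h0]
    have hn : (1 : ℝ) ≤ n := by exact_mod_cast Nat.pos_of_ne_zero h0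
    by_cases hp : n.Prime
    · rw [if_pos hp]
      have : ((fun n : ℕ => χ (n : ZMod N)) * (fun n : ℕ => ((ArithmeticFunction.vonMangoldt n : ℝ) : ℂ)) -
          LSeries.logMul (npf χ)) n = 0 := by
        simp only [Pi.sub_apply, Pi.mul_apply, LSeries.logMul, npf, if_pos hp]
        rw [ArithmeticFunction.vonMangoldt_apply_prime hp, Complex.natCast_log]
        ring
      rw [this]
      simp
    · rw [if_neg hp, norm_div, Complex.norm_natCast_cpow_of_pos (Nat.pos_of_ne_zero h0)]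
      have h3 : ((fun n : ℕ => χ (n : ZMod N)) * (fun n : ℕ => ((ArithmeticFunction.vonMangoldt n : ℝ) : ℂ)) -
          LSeries.logMul (npf χ)) n = χ (n : ZMod N) * ((ArithmeticFunction.vonMangoldt n : ℝ) : ℂ) := by
        simp only [Pi.sub_apply, Pi.mul_apply, LSeries.logMul, npf, if_neg hp]
        ring
      have h4 : ArithmeticFunction.vonMangoldt.residueClass (q := 1) 0 n = ArithmeticFunction.vonMangoldt n := by
        rw [ArithmeticFunction.vonMangoldt.residueClass, Set.indicator_apply, if_pos]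
        exact Subsingleton.elim _ _
      rw [h3, h4, norm_mul]
      have h5 : ‖χ (n : ZMod N)‖ ≤ 1 := χ.norm_le_one _
      have h6 : ‖((ArithmeticFunction.vonMangoldt n : ℝ) : ℂ)‖ = ArithmeticFunction.vonMangoldt n := by
        rw [Complex.norm_real, Real.norm_eq_abs, abs_of_nonneg ArithmeticFunction.vonMangoldt_nonneg]
      rw [h6]
      have h7 : (n : ℝ) ≤ (n : ℝ) ^ s.re := by
        calc (n : ℝ) = (n : ℝ) ^ (1 : ℝ) := (Real.rpow_one _).symm
          _ ≤ _ := Real.rpow_le_rpow_of_exponent_le hn hs.le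
      have h8 : 0 ≤ ArithmeticFunction.vonMangoldt n := ArithmeticFunction.vonMangoldt_nonneg
      apply div_le_div₀ h8 _ (by linarith) h7
      nlinarith

/-- boundedness of the derivative -/
theorem npf_bd {N : ℕ} [NeZero N] (χ : DirichletCharacter ℂ N) (hχ : χ ≠ 1) (B : ℝ) :
    ∃ C : ℝ, ∀ u t : ℝ, 0 < u → u ≤ 1 → |t| ≤ B →
      ‖LSeries (LSeries.logMul (npf χ)) ((1 + u : ℝ) + (t : ℂ) * I)‖ ≤ C := by
  have hc := DirichletCharacter.continuousOn_neg_logDeriv_LFunction_of_nontriv hχ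
  have hmap : Continuous fun q : ℝ × ℝ => (((1 + q.1 : ℝ) : ℂ) + (q.2 : ℂ) * I) := by fun_prop
  have hre : ∀ u t : ℝ, ((((1 + u : ℝ) : ℂ) + (t : ℂ) * I)).re = 1 + u := by
    intro u t
    simp
  have hmaps : Set.MapsTo (fun q : ℝ × ℝ => (((1 + q.1 : ℝ) : ℂ) + (q.2 : ℂ) * I))
      (Set.Icc (0:ℝ) 1 ×ˢ Set.Icc (-B) B) {s | DirichletCharacter.LFunction χ s ≠ 0} := by
    rintro ⟨u, t⟩ ⟨h1, h2⟩
    apply DirichletCharacter.LFunction_ne_zero_of_one_le_re χ (.inl hχ)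
    rw [hre]
    linarith [h1.1]
  obtain ⟨C, hC⟩ := ((isCompact_Icc (a := (0 : ℝ)) (b := 1)).prod
    (isCompact_Icc (a := -B) (b := B))).exists_bound_of_continuousOn (hc.comp hmap.continuousOn hmaps)
  refine ⟨C + npC, fun u t hu hu1 ht => ?_⟩
  have hs : 1 < ((((1 + u : ℝ) : ℂ) + (t : ℂ) * I)).re := by rw [hre]; linarith
  have h1 := hC (u, t) ⟨⟨hu.le, hu1⟩, abs_le.1 ht⟩
  have h2 := npf_log χ hs
  have h3 := DirichletCharacter.LSeries_twist_vonMangoldt_eq χ hs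
  have h4 : LSeries ((fun n : ℕ => χ (n : ZMod N)) * (fun n : ℕ => ((ArithmeticFunction.vonMangoldt n : ℝ) : ℂ)))
      (((1 + u : ℝ) : ℂ) + (t : ℂ) * I) =
      -deriv (DirichletCharacter.LFunction χ) (((1 + u : ℝ) : ℂ) + (t : ℂ) * I) /
        DirichletCharacter.LFunction χ (((1 + u : ℝ) : ℂ) + (t : ℂ) * I) := by
    rw [DirichletCharacter.deriv_LFunction_eq_deriv_LSeries χ hs,
      DirichletCharacter.LFunction_eq_LSeries χ hs]
    exact h3
  rw [h4] at h2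
  simp only [Function.comp] at h1
  have key : ∀ a b : ℂ, ‖a‖ ≤ C → ‖a - b‖ ≤ npC → ‖b‖ ≤ C + npC := by
    intro a b k1 k2
    have k3 := norm_sub_norm_le b a
    rw [norm_sub_rev] at k3
    linarith
  exact key _ _ h1 h2

/-- PROOF. As in piece NPT, without pole: `∑ χ(n) Λ(n) n^(-s) = -L'/L(s, χ)` for `Re s > 1` extends continuously to `Re s ≥ 1` (Mathlib
`Mathlib/NumberTheory/LSeries/Nonvanishing.lean` / `DirichletContinuation`: `continuousOn_neg_logDeriv_LFunction_of_nontriv`, `LFunction_ne_zero_of_one_le_re`), so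
it is bounded on `1 ≤ Re s ≤ 2`, `|Im s| ≤ B`. `P(δ) - P(1) = ∫_δ^1 ∑_p χ(p) log p p^(-1-u-it) du`, prime powers contribute `O(1)`, `|P(1)| ≤ ∑ p^(-2)`. -/
theorem npN (N : ℕ) [NeZero N] (χ : DirichletCharacter ℂ N) (hχ : χ ≠ 1) (B : ℝ) (hB : 0 < B) :
    ∃ C : ℝ, ∀ δ t : ℝ, 0 < δ → δ ≤ 1 → |t| ≤ B →
      ‖∑' p : Nat.Primes, χ (((p : ℕ) : ZMod N)) * ((p : ℕ) : ℂ) ^ (-((1 + δ : ℝ) + (t : ℂ) * I))‖ ≤ C := by
  obtain ⟨C, hC⟩ := npf_bd χ hχ B
  refine ⟨C + ∑' n : ℕ, 1 / (n : ℝ) ^ 2, fun δ t hδ hδ1 ht => ?_⟩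
  rw [npf_series]
  have hre : ∀ u t : ℝ, ((((1 + u : ℝ) : ℂ) + (t : ℂ) * I)).re = 1 + u := by
    intro u t
    simp
  -- value at `2 + i t`
  have h2 : ‖LSeries (npf χ) (((1 + 1 : ℝ) : ℂ) + (t : ℂ) * I)‖ ≤ ∑' n : ℕ, 1 / (n : ℝ) ^ 2 := by
    unfold LSeries
    apply tsum_of_norm_bounded (Real.summable_one_div_nat_pow.2 (by norm_num)).hasSum
    intro n
    rw [LSeries.term_def]
    by_cases h0 : n = 0
    · simp [h0]
    · rw [if_neg h0, norm_div, Complex.norm_natCast_cpow_of_pos (Nat.pos_of_ne_zero h0), hre]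
      have h3 : (n : ℝ) ^ (1 + 1 : ℝ) = (n : ℝ) ^ 2 := by norm_num
      rw [h3]
      exact div_le_div_of_nonneg_right (npf_le χ n) (by positivity)
  -- derivative along the segment
  have hd : ∀ u ∈ Set.Icc δ 1, HasDerivWithinAt
      (fun u : ℝ => LSeries (npf χ) (((1 + u : ℝ) : ℂ) + (t : ℂ) * I))
      (-LSeries (LSeries.logMul (npf χ)) (((1 + u : ℝ) : ℂ) + (t : ℂ) * I)) (Set.Icc δ 1) u := by
    intro u hu
    have h3 := LSeries_hasDerivAt (npf_abs χ (s := ((1 + u : ℝ) : ℂ) + (t : ℂ) * I)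
      (by rw [hre]; linarith [hu.1]))
    have h4 : HasDerivAt (fun u : ℝ => ((1 + u : ℝ) : ℂ) + (t : ℂ) * I) 1 u := by
      have h5 : HasDerivAt (fun u : ℝ => (1 + u : ℝ)) 1 u := (hasDerivAt_id u).const_add 1
      have h6 := h5.ofReal_comp
      have h7 := h6.add_const ((t : ℂ) * I)
      simpa using h7
    have h8 := h3.comp u h4
    rw [mul_one] at h8
    exact h8.hasDerivWithinAt
  have hb : ∀ u ∈ Set.Ico δ 1,
      ‖-LSeries (LSeries.logMul (npf χ)) (((1 + u : ℝ) : ℂ) + (t : ℂ) * I)‖ ≤ C := by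
    intro u hu
    rw [norm_neg]
    exact hC u t (hδ.trans_le hu.1) hu.2.le ht
  have h3 := norm_image_sub_le_of_norm_deriv_le_segment' hd hb 1 (Set.right_mem_Icc.2 hδ1)
  have h4 : 0 ≤ C := (norm_nonneg _).trans (hC 1 t one_pos le_rfl ht)
  have key : ∀ a b : ℂ, ∀ S : ℝ, ‖a‖ ≤ S → ‖a - b‖ ≤ C * (1 - δ) → ‖b‖ ≤ C + S := by
    intro a b S k1 k2
    have k3 := norm_sub_norm_le b a
    rw [norm_sub_rev] at k3
    have k4 : C * (1 - δ) ≤ C := by nlinarith
    linarith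
  exact key _ _ _ h2 h3

end Pool.Agent.OmEq
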