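import Pool.Agent.Lib_MP_f1a94e_eq.Defs
import Pool.Agent.Lib_MP_f1a94e_eq.NpN
import Pool.Agent.Lib_MP_f1a94e_eq.Np
import Pool.Agent.Lib_MP_f1a94e_aq.ZSmooth

/-!
# Piece NPZ: characters that are not trivial on `1 mod 4` satisfy `NP` with `R = 0`
-/

set_option autoImplicit false

namespace Pool.Agent.OmEq

open Finset Pool.Agent.OmAll

open NpP ZEuler in
/-- PROOF. As piece NP (`npChi` in Np.lean), with the nontrivial case only: `smooth_cut` replaces the sum over `PT T` of `Re (ω χ(p) exp (-2 i τ log p)) / p` by the sum over all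
primes `p = 1 mod 4` of `Re (ω χ(p) p^(-(1 + δ + 2 i τ)))`, `δ = 1/log T`; for odd `p`, `1_(p = 1 mod 4) = (1 + χ₄(p))/2`; so up to `O(1)` it is
`Re (ω/2 (P_χ + P_(χ χ₄)))`, with both characters considered modulo `4 N` (`DirichletCharacter.changeLevel`, differs at the primes dividing `4 N` only). Both are nontrivial
modulo `4 N`: `a` is coprime to `4 N` and `χ(a) ≠ 1`, `χ(a) χ₄(a) = χ(a) ≠ 1`. So both sums are bounded by `npN` (`|t| = |2 τ| ≤ 2 B`), the primes of `E` contribute at most `#E`. -/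
theorem npZ (N : ℕ) [NeZero N] (χ : DirichletCharacter ℂ N) (a : ℕ) (ha : a % 4 = 1) (haN : a.Coprime N)
    (hχ : χ ((a : ZMod N)) ≠ 1) (ω : ℂ) (hω : ‖ω‖ = 1) (E : Finset ℕ) :
    NP E (fun p => ω * χ ((p : ZMod N))) 0 := by
  classical
  intro B hB
  obtain ⟨C0, hC0⟩ := smooth_cut
  have hM : 0 < 4 * N := by
    have := NeZero.pos N
    omega
  have : NeZero (4 * N) := ⟨hM.ne'⟩
  set M := 4 * N with hMdef
  have hN : N ∣ M := Dvd.intro_left 4 rfl
  have h4 : 4 ∣ M := Dvd.intro N rfl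
  set ψ1 : DirichletCharacter ℂ M := DirichletCharacter.changeLevel hN χ with hψ1
  set ψ4 : DirichletCharacter ℂ M := DirichletCharacter.changeLevel h4 ch with hψ4
  set ψ2 : DirichletCharacter ℂ M := ψ1 * ψ4 with hψ2
  have ha0 : Odd a := Nat.odd_iff.mpr (by omega)
  have hcopa : Nat.Coprime a M := by
    rw [hMdef]
    refine Nat.Coprime.mul_right ?_ haN
    have h2 : Nat.Coprime a 2 := (Nat.coprime_two_right).mpr ha0
    exact Nat.Coprime.pow_right 2 h2
  have hcopaZ : IsCoprime ((a : ℕ) : ℤ) (M : ℤ) := Nat.isCoprime_iff_coprime.mpr hcopa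
  have hua : IsUnit ((a : ZMod M)) := (ZMod.isUnit_iff_coprime a M).mpr hcopa
  have ea1 : ψ1 ((a : ZMod M)) = χ ((a : ZMod N)) := by
    have := DirichletCharacter.changeLevel_eq_cast_of_dvd' χ hN hcopaZ
    simpa using this
  have ea4 : ψ4 ((a : ZMod M)) = 1 := by
    have := DirichletCharacter.changeLevel_eq_cast_of_dvd' ch h4 hcopaZ
    have h5 : ψ4 ((a : ZMod M)) = ch ((a : ZMod 4)) := by simpa using this
    rw [h5, ch_apply, ZMod.χ₄_nat_one_mod_four ha]
    norm_num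
  have hψ1ne : ψ1 ≠ 1 := by
    intro h
    apply hχ
    rw [← ea1, h, MulChar.one_apply hua]
  have hψ2ne : ψ2 ≠ 1 := by
    intro h
    apply hχ
    have h6 : ψ2 ((a : ZMod M)) = χ ((a : ZMod N)) := by
      rw [hψ2, MulChar.mul_apply, ea1, ea4, mul_one]
    rw [← h6, h, MulChar.one_apply hua]
  obtain ⟨C1, hC1⟩ := charSum M ψ1 (2 * B) (by linarith)
  obtain ⟨C2, hC2⟩ := charSum M ψ2 (2 * B) (by linarith)
  refine ⟨C0 + (E.card : ℝ) + ((M : ℝ) + 1) + (C1 + C2), ?_⟩
  intro T hT τ hτ0 hτB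
  have hL := ZSm.one_le_logT hT
  set δ : ℝ := 1 / Real.log T with hδdef
  have hδ : 0 < δ := by positivity
  have hδ1 : δ ≤ 1 := by
    rw [hδdef, div_le_one (by linarith)]
    exact hL
  -- the function
  set f : ℕ → ℝ := fun p => (ω * χ ((p : ZMod N)) *
    Complex.exp (-(2 * τ * Real.log p : ℝ) * Complex.I)).re with hf
  have hf1 : ∀ p, |f p| ≤ 1 := by
    intro p
    refine (Complex.abs_re_le_norm _).trans ?_
    have hexp : ‖Complex.exp (-(2 * τ * Real.log p : ℝ) * Complex.I)‖ = 1 := by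
      have : (-(2 * τ * Real.log p : ℝ) * Complex.I : ℂ) =
        ((-(2 * τ * Real.log p) : ℝ) : ℂ) * Complex.I := by push_cast; ring
      rw [this, Complex.norm_exp_ofReal_mul_I]
    rw [norm_mul, norm_mul, hω, hexp, one_mul, mul_one]
    exact χ.norm_le_one _
  obtain ⟨-, hcut⟩ := hC0 T hT f hf1
  rw [← hδdef] at hcut
  -- the primes of `E`
  have hE : ∑ p ∈ PE E T, f p / p ≤ ∑ p ∈ PT T, f p / p + (E.card : ℝ) := by
    have h1 : ∑ p ∈ PT T \ (PT T \ E), f p / (p : ℝ) + ∑ p ∈ PT T \ E, f p / (p : ℝ) =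
        ∑ p ∈ PT T, f p / (p : ℝ) := sum_sdiff sdiff_subset
    have h2 : -(E.card : ℝ) ≤ ∑ p ∈ PT T \ (PT T \ E), f p / (p : ℝ) := by
      have h3 : |∑ p ∈ PT T \ (PT T \ E), f p / (p : ℝ)| ≤ (E.card : ℝ) := by
        calc |∑ p ∈ PT T \ (PT T \ E), f p / (p : ℝ)|
            ≤ ∑ p ∈ PT T \ (PT T \ E), |f p / (p : ℝ)| := abs_sum_le_sum_abs _ _
          _ ≤ ∑ p ∈ PT T \ (PT T \ E), (1 : ℝ) := by
              refine sum_le_sum fun p hp => ?_
              have hp5 := ZSm.PT_five (mem_sdiff.mp hp).1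
              have hp1 : (1 : ℝ) ≤ p := by exact_mod_cast (by omega : 1 ≤ p)
              rw [abs_div, abs_of_pos (by linarith : (0 : ℝ) < p), div_le_one (by linarith)]
              exact (hf1 p).trans hp1
          _ = ((PT T \ (PT T \ E)).card : ℝ) := by simp
          _ ≤ (E.card : ℝ) := by
              have : PT T \ (PT T \ E) ⊆ E := by
                intro p hp
                rw [mem_sdiff, mem_sdiff] at hp
                by_contra hc
                exact hp.2 ⟨hp.1, hc⟩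
              exact_mod_cast card_le_card this
      exact (abs_le.mp h3).1
    have h3 : PE E T = PT T \ E := rfl
    rw [h3]
    linarith
  -- as a sum over primes
  set A : Nat.Primes → ℂ := fun p => (if (p : ℕ) % 4 = 1 then ω * χ (((p : ℕ) : ZMod N)) else 0) *
    ((p : ℕ) : ℂ) ^ (-((1 + δ : ℝ) + ((2 * τ : ℝ) : ℂ) * Complex.I)) with hA
  set b : Nat.Primes → ℂ := fun p => (ω / 2 * (ψ1 (((p : ℕ) : ZMod M)) + ψ2 (((p : ℕ) : ZMod M)))) *
    ((p : ℕ) : ℂ) ^ (-((1 + δ : ℝ) + ((2 * τ : ℝ) : ℂ) * Complex.I)) with hb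
  have hac : ∀ p : Nat.Primes,
      ‖(if (p : ℕ) % 4 = 1 then ω * χ (((p : ℕ) : ZMod N)) else 0 : ℂ)‖ ≤ 1 := by
    intro p
    split_ifs
    · rw [norm_mul, hω, one_mul]
      exact χ.norm_le_one _
    · simp
  have hbc : ∀ p : Nat.Primes,
      ‖ω / 2 * (ψ1 (((p : ℕ) : ZMod M)) + ψ2 (((p : ℕ) : ZMod M)))‖ ≤ 1 := by
    intro p
    rw [norm_mul, norm_div, hω, Complex.norm_ofNat]
    have h1 := ψ1.norm_le_one (((p : ℕ) : ZMod M))
    have h2 := ψ2.norm_le_one (((p : ℕ) : ZMod M))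
    have h3 := norm_add_le (ψ1 (((p : ℕ) : ZMod M))) (ψ2 (((p : ℕ) : ZMod M)))
    linarith
  have hsa : Summable A := summ _ hac hδ (2 * τ)
  have hsb : Summable b := summ _ hbc hδ (2 * τ)
  have hST : ∑' p : ℕ, (if p.Prime ∧ p % 4 = 1 then f p / (p : ℝ) ^ (1 + δ) else 0) =
      (∑' p, A p).re := by
    rw [Complex.re_tsum hsa]
    have h1 : ∀ p : ℕ, (if p.Prime ∧ p % 4 = 1 then f p / (p : ℝ) ^ (1 + δ) else 0) =
        (if p.Prime then (if p % 4 = 1 then f p / (p : ℝ) ^ (1 + δ) else 0) else 0) := by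
      intro p
      by_cases hp : p.Prime <;> simp [hp]
    rw [tsum_congr h1, tsum_ite (fun p : ℕ => if p % 4 = 1 then f p / (p : ℝ) ^ (1 + δ) else 0)]
    refine tsum_congr fun p => ?_
    rw [hA]
    simp only
    split_ifs with h
    · exact f_eq p p.2.pos _ δ τ
    · simp
  have hdiff : ‖∑' p, A p - ∑' p, b p‖ ≤ (M : ℝ) + 1 := by
    refine tsum_diff M hM A b hsa hsb ?_ ?_
    · intro p hp
      have hcop : Nat.Coprime (p : ℕ) M := (Nat.Prime.coprime_iff_not_dvd p.2).mpr hp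
      have hcopZ : IsCoprime ((p : ℕ) : ℤ) (M : ℤ) := Nat.isCoprime_iff_coprime.mpr hcop
      have e1 : ψ1 (((p : ℕ) : ZMod M)) = χ (((p : ℕ) : ZMod N)) := by
        have := DirichletCharacter.changeLevel_eq_cast_of_dvd' χ hN hcopZ
        simpa using this
      have e4 : ψ4 (((p : ℕ) : ZMod M)) = ch (((p : ℕ) : ZMod 4)) := by
        have := DirichletCharacter.changeLevel_eq_cast_of_dvd' ch h4 hcopZ
        simpa using this
      have e2 : ψ2 (((p : ℕ) : ZMod M)) = χ (((p : ℕ) : ZMod N)) * ch (((p : ℕ) : ZMod 4)) := by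
        rw [hψ2, MulChar.mul_apply, e1, e4]
      rw [hA, hb]
      simp only
      rw [e1, e2, ch_apply]
      have hodd : (p : ℕ) % 4 = 1 ∨ (p : ℕ) % 4 = 3 := by
        rcases p.2.eq_two_or_odd with h | h
        · exfalso
          apply hp
          rw [h]
          exact (by norm_num : 2 ∣ 4).trans h4
        · omega
      rcases hodd with h | h
      · rw [if_pos h, ZMod.χ₄_nat_one_mod_four h]
        push_cast
        ring
      · rw [if_neg (by omega), ZMod.χ₄_nat_three_mod_four h]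
        push_cast
        ring
    · intro p
      refine (norm_sub_le _ _).trans ?_
      have h1 : ‖A p‖ ≤ 1 / 2 := by
        rw [hA]
        simp only
        rw [norm_mul, norm_pow]
        have h3 : (0 : ℝ) ≤ ((p : ℕ) : ℝ) ^ (-(1 + δ)) := by positivity
        exact (mul_le_of_le_one_left h3 (hac p)).trans (rpow_half p hδ)
      have h2 : ‖b p‖ ≤ 1 / 2 := by
        rw [hb]
        simp only
        rw [norm_mul, norm_pow]
        have h3 : (0 : ℝ) ≤ ((p : ℕ) : ℝ) ^ (-(1 + δ)) := by positivity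
        exact (mul_le_of_le_one_left h3 (hbc p)).trans (rpow_half p hδ)
      linarith
  -- the two character sums
  set P1 := ∑' p : Nat.Primes, ψ1 (((p : ℕ) : ZMod M)) *
    ((p : ℕ) : ℂ) ^ (-((1 + δ : ℝ) + ((2 * τ : ℝ) : ℂ) * Complex.I)) with hP1
  set P2 := ∑' p : Nat.Primes, ψ2 (((p : ℕ) : ZMod M)) *
    ((p : ℕ) : ℂ) ^ (-((1 + δ : ℝ) + ((2 * τ : ℝ) : ℂ) * Complex.I)) with hP2
  have hbsum : ∑' p, b p = ω / 2 * (P1 + P2) := by
    have s1 := summ (fun p : Nat.Primes => ψ1 (((p : ℕ) : ZMod M)))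
      (fun p => ψ1.norm_le_one _) hδ (2 * τ)
    have s2 := summ (fun p : Nat.Primes => ψ2 (((p : ℕ) : ZMod M)))
      (fun p => ψ2.norm_le_one _) hδ (2 * τ)
    rw [hP1, hP2, ← s1.tsum_add s2, ← tsum_mul_left]
    refine tsum_congr fun p => ?_
    rw [hb]
    simp only
    ring
  have hτ2 : |2 * τ| ≤ 2 * B := by
    rw [abs_mul, abs_two]
    linarith
  have k1 := hC1 δ (2 * τ) hδ hδ1 hτ2
  have k2 := hC2 δ (2 * τ) hδ hδ1 hτ2
  rw [← hP1, if_neg hψ1ne, zero_mul, Complex.ofReal_zero, sub_zero] at k1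
  rw [← hP2, if_neg hψ2ne, zero_mul, Complex.ofReal_zero, sub_zero] at k2
  have hmain : (ω / 2 * (P1 + P2)).re ≤ C1 + C2 := by
    refine (Complex.re_le_norm _).trans ?_
    rw [norm_mul, norm_div, hω, Complex.norm_ofNat]
    have h3 := norm_add_le P1 P2
    have h4 := norm_nonneg (P1 + P2)
    linarith
  have hcut' := (abs_le.mp hcut).2
  have hd' : (∑' p, A p).re - (∑' p, b p).re ≤ (M : ℝ) + 1 := by
    rw [← Complex.sub_re]
    exact (Complex.re_le_norm _).trans hdiff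
  rw [hST] at hcut'
  rw [hbsum] at hd'
  have hfin : ∑ p ∈ PE E T, f p / p ≤ 0 / 2 * max 0 (Real.log (1 / |τ|)) +
      (C0 + (E.card : ℝ) + ((M : ℝ) + 1) + (C1 + C2)) := by
    linarith
  exact hfin

end Pool.Agent.OmEq
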