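import Pool.Agent.Lib_MP_f1a94e_eq.Ctw
import Pool.Agent.Lib_MP_f1a94e_eq.CmpP
import Pool.Agent.Lib_MP_f1a94e_eq.Np
import Pool.Agent.Lib_MP_f1a94e_eq.NpZ

/-!
# Piece PAIR: sums over pairs with characters
-/

set_option autoImplicit false

namespace Pool.Agent.OmEq

open Finset Pool.Agent.GaussMR Pool.Agent.OmAll MeasureTheory Filter

theorem pair_re_lt {z : ℂ} (hz : ‖z‖ = 1) (h1 : z ≠ 1) : z.re < 1 := by
  rcases lt_or_eq_of_le (hz ▸ Complex.re_le_norm z) with h | h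
  · exact h
  · exfalso
    apply h1
    have h2 := Complex.sq_norm_sub_sq_re z
    rw [hz, h] at h2
    have h3 : z.im = 0 := by
      have : z.im ^ 2 = 0 := by rw [← h2]; norm_num
      exact pow_eq_zero_iff (two_ne_zero) |>.1 this
    exact Complex.ext (by simpa using h) (by simpa using h3)

/-- PROOF. `ctw` with `E ∪ n.primeFactors`, `cmp_pair`, `g p = ω1 conj ω2 χ⁻¹(p)`, `‖g p‖ = 1` for primes `p ∤ n`. Put `ω = ω1 conj ω2`, `‖ω‖ = 1`.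
Case 1 (`ω ≠ 1`): `R = max 0 ω.re < 1` (`‖ω‖ = 1`, `ω ≠ 1`), `npChi n χ⁻¹ ω`. Case 2: `R = 0`, `npZ n χ⁻¹ a` (`χ⁻¹(a) = χ(a)⁻¹ ≠ 1`). Case 3: `R = max 0 ω.re ≤ 1`, `npChi`,
second alternative of `h0` of `ctw`. -/
theorem pair_lim (n : ℕ) [NeZero n] (χ : DirichletCharacter ℂ n) (E : Finset ℕ) (f1 f2 : ℕ → ℂ) (ω1 ω2 : ℂ)
    (h1 : FF f1 E ω1) (h2 : FF f2 E ω2) (hω1 : ‖ω1‖ = 1) (hω2 : ‖ω2‖ = 1) (b : ℝ) (W : ℝ → ℝ → ℂ) (hW : TF b W)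
    (h0 : ω1 * (starRingEnd ℂ) ω2 ≠ 1 ∨ (∃ a : ℕ, a % 4 = 1 ∧ a.Coprime n ∧ χ ((a : ZMod n)) ≠ 1) ∨
      ∀ y, (∫ t, W y t) = 0) :
    Tendsto (fun X : ℝ => (∑ e ∈ EN n (b * X), f1 (nm e.1) * f2 (nm e.2) * χ (cl n e) * W (mE e / X) (tE e)) / X)
      atTop (nhds 0) := by
  have hn : 0 < n := Nat.pos_of_ne_zero (NeZero.ne n)
  have hω : ‖ω1 * (starRingEnd ℂ) ω2‖ = 1 := by
    rw [norm_mul, Complex.norm_conj, hω1, hω2, one_mul]
  have hg1 : ∀ p : ℕ, p.Prime → p % 4 = 1 → p ∉ E ∪ n.primeFactors →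
      ‖ω1 * (starRingEnd ℂ) ω2 * χ⁻¹ (p : ZMod n)‖ = 1 := by
    intro p hp _ hpE
    have hpn : ¬ p ∣ n := fun h => hpE (mem_union_right _ (Nat.mem_primeFactors.2 ⟨hp, h, hn.ne'⟩))
    have hcop : p.Coprime n := (Nat.Prime.coprime_iff_not_dvd hp).2 hpn
    have hu := (ZMod.unitOfCoprime p hcop)
    rw [norm_mul, hω, one_mul]
    have h3 := DirichletCharacter.unit_norm_eq_one χ⁻¹ (ZMod.unitOfCoprime p hcop)
    rwa [ZMod.coe_unitOfCoprime] at h3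
  have hC := cmp_pair n χ E f1 f2 ω1 ω2 h1 h2 hω1 hω2
  rcases h0 with h | ⟨a, ha4, hac, hχ⟩ | h
  · exact ctw n hn _ subset_union_right _ hg1 (max 0 (ω1 * (starRingEnd ℂ) ω2).re) (le_max_left _ _)
      (max_le zero_le_one (pair_re_lt hω h).le) (npChi n χ⁻¹ _ hω _) _ hC b W hW
      (Or.inl (max_lt zero_lt_one (pair_re_lt hω h)))
  · refine ctw n hn _ subset_union_right _ hg1 0 le_rfl zero_le_one (npZ n χ⁻¹ a ha4 hac ?_ _ hω _) _ hC b W hW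
      (Or.inl zero_lt_one)
    intro h3
    apply hχ
    have h4 : (χ⁻¹ * χ) (a : ZMod n) = 1 := by
      rw [inv_mul_cancel, MulChar.one_apply ((ZMod.isUnit_iff_coprime a n).2 hac)]
    rw [MulChar.mul_apply, h3, one_mul] at h4
    exact h4
  · exact ctw n hn _ subset_union_right _ hg1 (max 0 (ω1 * (starRingEnd ℂ) ω2).re) (le_max_left _ _)
      (max_le zero_le_one (hω ▸ Complex.re_le_norm _)) (npChi n χ⁻¹ _ hω _) _ hC b W hW (Or.inr h)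

/-- PROOF. `ctw` with `n = 1`, `E = ∅`, `g = 1`, `R = 1`, `Φ e = u (dot e.1 e.2)`: `Cmp`: `dot (γ U) W = dot U (star γ W)` (`star_mul_eq`). `NP ∅ (fun _ => 1) 1` from `npChi` with `N = 1`, `χ = 1`,
`ω = 1` (`max 0 1 = 1`; `χ p = 1` in `ZMod 1`). -/
theorem tvf (u : ℤ → ℂ) (hu : ∀ m, ‖u m‖ ≤ 1) (b : ℝ) (W : ℝ → ℝ → ℂ) (hW : TF b W) (h0 : ∀ y, (∫ t, W y t) = 0) :
    Tendsto (fun X : ℝ => (∑ e ∈ EN 1 (b * X), u (dot e.1 e.2) * W (mE e / X) (tE e)) / X) atTop (nhds 0) := by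
  have hNP : NP ∅ (fun _ => (1 : ℂ)) 1 := by
    have h := npChi 1 1 1 (by simp) ∅
    have h1 : (fun p : ℕ => (1 : ℂ) * (1 : DirichletCharacter ℂ 1) ((p : ZMod 1))) = fun _ => (1 : ℂ) := by
      funext p
      rw [one_mul, MulChar.one_apply (isUnit_of_subsingleton _)]
    have h2 : max 0 (1 : ℂ).re = 1 := by simp
    rw [h1, h2] at h
    exact h
  refine ctw 1 one_pos ∅ (by simp) (fun _ => (1 : ℂ)) (fun _ _ _ _ => by simp) 1 zero_le_one le_rfl hNP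
    (fun e => u (dot e.1 e.2)) ⟨fun e => hu _, ?_⟩ b W hW (Or.inr h0)
  intro γ U W _ _ _ _ _
  show u (dot (γ * U) W) = 1 * u (dot U (star γ * W))
  rw [one_mul, tog_det.2]

/-- two different values: joint sums vanish. PROOF. `pair_lim` with `n = 1`, `χ = 1` (`χ (cl 1 e) = 1` as `ZMod 1` is trivial), case 1. -/
theorem joint_ne (E : Finset ℕ) (f1 f2 : ℕ → ℂ) (ω1 ω2 : ℂ) (h1 : FF f1 E ω1) (h2 : FF f2 E ω2) (hω1 : ‖ω1‖ = 1)
    (hω2 : ‖ω2‖ = 1) (hne : ω1 ≠ ω2) (b : ℝ) (W : ℝ → ℝ → ℂ) (hW : TF b W) :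
    Tendsto (fun X : ℝ => (∑ e ∈ EN 1 (b * X), f1 (nm e.1) * f2 (nm e.2) * W (mE e / X) (tE e)) / X)
      atTop (nhds 0) := by
  have hne2 : ω1 * (starRingEnd ℂ) ω2 ≠ 1 := by
    intro h
    apply hne
    have h3 : ω2 * (starRingEnd ℂ) ω2 = 1 := by
      rw [Complex.mul_conj, Complex.normSq_eq_norm_sq, hω2]
      simp
    have h4 : (starRingEnd ℂ) ω2 ≠ 0 := by
      intro h5
      rw [h5, mul_zero] at h3
      exact zero_ne_one h3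
    exact mul_right_cancel₀ h4 (h.trans h3.symm)
  have h := pair_lim 1 1 E f1 f2 ω1 ω2 h1 h2 hω1 hω2 b W hW (Or.inl hne2)
  have h3 : ∀ e, f1 (nm e.1) * f2 (nm e.2) * (1 : DirichletCharacter ℂ 1) (cl 1 e) =
      f1 (nm e.1) * f2 (nm e.2) := by
    intro e
    rw [MulChar.one_apply (isUnit_of_subsingleton _), mul_one]
  simp only [h3] at h
  exact h

end Pool.Agent.OmEq
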