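import Pool.Agent.Lib_MP_f1a94e_aq.Local

/-!
# MP_f1a94e_nt, equidistribution of `Ω (m ^ 2 + 1)` modulo `q`: definitions

Pairs `(V, V')` of Gaussian integers with `det (V, V') = n`, moves of small primes, limit quantities.
-/

set_option autoImplicit false

namespace Pool.Agent.OmEq

open Finset Pool.Agent.GaussMR Pool.Agent.OmAll

/-- pairs `(V, V')` of determinant `n` with `V` primitive, positive scalar product and `V' = c V` modulo `n`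
for some `c` coprime to `n` -/
def En (n : ℕ) (e : G × G) : Prop :=
  det e.1 e.2 = n ∧ 0 < dot e.1 e.2 ∧ Prim e.1 ∧
    ∃ c : ℤ, IsCoprime c (n : ℤ) ∧ cg n e.2 ((c : G) * e.1)

open Classical in
/-- the pairs of `En n` with scalar product at most `x` -/
noncomputable def EN (n : ℕ) (x : ℝ) : Finset (G × G) :=
  (ball (x ^ 2 + (n : ℝ) ^ 2) ×ˢ ball (x ^ 2 + (n : ℝ) ^ 2)).filter
    (fun e => En n e ∧ ((dot e.1 e.2 : ℤ) : ℝ) ≤ x)

/-- `log (|V'|^2 / |V|^2)` -/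
noncomputable def tE (e : G × G) : ℝ := Real.log (nm e.2) - Real.log (nm e.1)

/-- the scalar product as a real number -/
noncomputable def mE (e : G × G) : ℝ := ((dot e.1 e.2 : ℤ) : ℝ)

/-- the primes `1 mod 4` up to `T` not in `E` -/
def PE (E : Finset ℕ) (T : ℕ) : Finset ℕ := PT T \ E

open Classical in
/-- the primes of `PE E T` dividing `|V|^2 |V'|^2` exactly once -/
noncomputable def ds (E : Finset ℕ) (T : ℕ) (e : G × G) : Finset ℕ :=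
  (PE E T).filter (fun p => p ∣ nm e.1 * nm e.2 ∧ ¬ p ^ 2 ∣ nm e.1 * nm e.2)

/-- all these primes divide `|V'|^2` -/
def bs (E : Finset ℕ) (T : ℕ) (e : G × G) : Prop := ∀ p ∈ ds E T e, ¬ p ∣ nm e.1

/-- `∑ log p` over a finite set of primes -/
noncomputable def lg (a : Finset ℕ) : ℝ := ∑ p ∈ a, Real.log p

/-- functions on pairs that are multiplied by `g p` when a prime `γ` of norm `p ∉ E` moves from `V'` to `V` -/
structure Cmp (n : ℕ) (E : Finset ℕ) (g : ℕ → ℂ) (Φ : G × G → ℂ) : Prop where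
  bd : ∀ e, ‖Φ e‖ ≤ 1
  mv : ∀ γ U W : G, (nm γ).Prime → nm γ % 4 = 1 → nm γ ∉ E → En n (γ * U, W) →
    ¬ (nm γ) ^ 2 ∣ nm (γ * U) * nm W → Φ (γ * U, W) = g (nm γ) * Φ (U, star γ * W)

/-- density of the base pairs with `ds E T e = D` -/
noncomputable def Pr (E : Finset ℕ) (T : ℕ) (D : Finset ℕ) : ℝ :=
  (∏ p ∈ D, Ap p) * ∏ p ∈ PE E T \ D, (1 - 2 * Ap p)

/-- the sum over a cluster with movable primes `D` -/
noncomputable def cs (g : ℕ → ℂ) (w : ℝ → ℂ) (D : Finset ℕ) (t : ℝ) : ℂ :=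
  ∑ a ∈ D.powerset, (∏ p ∈ a, g p) * w (t - 2 * lg a)

/-- the limit of the sums of the absolute values of the cluster sums -/
noncomputable def IT (E : Finset ℕ) (g : ℕ → ℂ) (T : ℕ) (w : ℝ → ℂ) : ℝ :=
  ∑ D ∈ (PE E T).powerset, Pr E T D * ∫ t, ‖cs g w D t‖

/-- `g (p) p^(-2 i τ) / p` has bounded sums up to `(R / 2) log (1 / |τ|)` -/
def NP (E : Finset ℕ) (g : ℕ → ℂ) (R : ℝ) : Prop :=
  ∀ B : ℝ, 0 < B → ∃ C : ℝ, ∀ T : ℕ, 3 ≤ T → ∀ τ : ℝ, 0 < |τ| → |τ| ≤ B →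
    ∑ p ∈ PE E T, (g p * Complex.exp (-(2 * τ * Real.log p : ℝ) * Complex.I)).re / p ≤
      R / 2 * max 0 (Real.log (1 / |τ|)) + C

theorem mem_EN {n : ℕ} (hn : 0 < n) {x : ℝ} {e : G × G} : e ∈ EN n x ↔ En n e ∧ mE e ≤ x := by
  classical
  unfold EN mE
  simp only [mem_filter, mem_product, mem_ball]
  refine ⟨fun h => h.2, fun h => ⟨?_, h⟩⟩
  obtain ⟨⟨h1, h2, -, -⟩, h3⟩ := h
  have h4 := dot_sq_add_det_sq e.1 e.2
  rw [h1] at h4
  have hn' : (1 : ℤ) ≤ (n : ℤ) := by exact_mod_cast hn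
  have h5 : (0 : ℤ) < (nm e.1 : ℤ) * nm e.2 := by
    rw [← h4]
    positivity
  have h6 : 0 < nm e.1 * nm e.2 := by exact_mod_cast h5
  have h7 : 1 ≤ nm e.1 := Nat.pos_of_mul_pos_left h6 |> fun _ => Nat.pos_of_ne_zero (by
    rintro h0
    rw [h0, zero_mul] at h6
    exact lt_irrefl _ h6)
  have h8 : 1 ≤ nm e.2 := Nat.pos_of_ne_zero (by
    rintro h0
    rw [h0, mul_zero] at h6
    exact lt_irrefl _ h6)
  have h9 : ((dot e.1 e.2 : ℤ) : ℝ) ^ 2 + (n : ℝ) ^ 2 = (nm e.1 : ℝ) * nm e.2 := by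
    exact_mod_cast h4
  have h10 : (0 : ℝ) < ((dot e.1 e.2 : ℤ) : ℝ) := by exact_mod_cast h2
  have h11 : ((dot e.1 e.2 : ℤ) : ℝ) ^ 2 ≤ x ^ 2 := by nlinarith
  have h12 : (1 : ℝ) ≤ nm e.1 := by exact_mod_cast h7
  have h13 : (1 : ℝ) ≤ nm e.2 := by exact_mod_cast h8
  constructor <;> nlinarith

theorem mem_PE {E : Finset ℕ} {T p : ℕ} : p ∈ PE E T ↔ p ≤ T ∧ p.Prime ∧ p % 4 = 1 ∧ p ∉ E := by
  unfold PE PT
  rw [mem_sdiff, mem_filter, mem_range]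
  constructor
  · rintro ⟨⟨h1, h2, h3⟩, h4⟩
    exact ⟨by omega, h2, h3, h4⟩
  · rintro ⟨h1, h2, h3, h4⟩
    exact ⟨⟨by omega, h2, h3⟩, h4⟩

theorem mE_pos {n : ℕ} {e : G × G} (h : En n e) : 0 < mE e := by
  unfold mE
  exact_mod_cast h.2.1

end Pool.Agent.OmEq
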