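import Pool.Agent.Lib_MP_f1a94e_eq.FourC

/-!
# From edges to factorisations
-/

set_option autoImplicit false

namespace Pool.Agent.OmEq

open Finset Pool.Agent.GaussMR Pool.Agent.OmAll Filter

/-- the factorisations `d e = m ^ 2 + 1`, `1 ≤ m ≤ x`, `α ≤ e / d ≤ β`, with a further condition -/
def FS (α β x : ℝ) (P : ℕ × ℕ → Prop) : Set (ℕ × ℕ) :=
  {r | (∃ m : ℕ, 1 ≤ m ∧ (m : ℝ) ≤ x ∧ r.1 * r.2 = m ^ 2 + 1) ∧
    (α * r.1 ≤ r.2 ∧ (r.2 : ℝ) ≤ β * r.1) ∧ P r}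

theorem log_cond {α β : ℝ} (hα : 0 < α) (hβ : 0 < β) {d e : ℕ} (hd : 0 < d) (he : 0 < e) :
    (Real.log α ≤ Real.log e - Real.log d ∧ Real.log e - Real.log d ≤ Real.log β) ↔
      (α * d ≤ e ∧ (e : ℝ) ≤ β * d) := by
  have hd' : (0 : ℝ) < d := by exact_mod_cast hd
  have he' : (0 : ℝ) < e := by exact_mod_cast he
  constructor
  · rintro ⟨h1, h2⟩
    constructor
    · rw [← Real.log_le_log_iff (by positivity) he', Real.log_mul hα.ne' hd'.ne']
      linarith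
    · rw [← Real.log_le_log_iff he' (by positivity), Real.log_mul hβ.ne' hd'.ne']
      linarith
  · rintro ⟨h1, h2⟩
    have h3 := Real.log_le_log (by positivity) h1
    have h4 := Real.log_le_log he' h2
    rw [Real.log_mul hα.ne' hd'.ne'] at h3
    rw [Real.log_mul hβ.ne' hd'.ne'] at h4
    constructor <;> linarith

open Classical in
theorem card_conv (α β : ℝ) (hα : 0 < α) (hβ : 0 < β) (X : ℝ) (P : ℕ × ℕ → Prop) :
    ((EN 1 X).filter (fun e => (Real.log α ≤ tE e ∧ tE e ≤ Real.log β) ∧ P (nm e.1, nm e.2))).card =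
      4 * (FS α β X P).ncard := by
  have h := four_count X (fun r => (α * (r.1 : ℝ) ≤ r.2 ∧ ((r.2 : ℕ) : ℝ) ≤ β * r.1) ∧ P r)
  unfold FS
  rw [← h]
  congr 1
  ext e
  simp only [mem_filter]
  refine and_congr_right (fun he => ?_)
  have h1 := (mem_EN one_pos).1 he
  obtain ⟨⟨h2, h3, -, -⟩, -⟩ := h1
  have h4 := dot_sq_add_det_sq e.1 e.2
  rw [h2] at h4
  have h5 : (0 : ℤ) < (nm e.1 : ℤ) * nm e.2 := by
    rw [← h4]
    positivity
  have h6 : 0 < nm e.1 * nm e.2 := by exact_mod_cast h5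
  have h7 : 0 < nm e.1 := Nat.pos_of_mul_pos_left h6 |> fun _ => Nat.pos_of_ne_zero (by
    rintro h0
    rw [h0, zero_mul] at h6
    exact lt_irrefl _ h6)
  have h8 : 0 < nm e.2 := Nat.pos_of_ne_zero (by
    rintro h0
    rw [h0, mul_zero] at h6
    exact lt_irrefl _ h6)
  have h9 := log_cond hα hβ h7 h8
  unfold tE
  rw [h9]

end Pool.Agent.OmEq
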