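import Pool.Agent.Lib_MP_f1a94e_eq.CmpP

/-!
# Powers of roots of unity
-/

set_option autoImplicit false

namespace Pool.Agent.OmEq

open Finset Pool.Agent.GaussMR Pool.Agent.OmAll MeasureTheory Filter

/-- `z ^ Ω(n)` on the numbers coprime to `R`, zero otherwise -/
noncomputable def fz (R : ℕ) (z : ℂ) (n : ℕ) : ℂ :=
  if n = 0 ∨ ¬ n.Coprime R then 0 else z ^ ArithmeticFunction.cardFactors n

/-- `exp (2 π i / q)` -/
noncomputable def zq (q : ℕ) : ℂ := Complex.exp (2 * Real.pi * Complex.I / q)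

/-- PROOF. `mul`: if `m n = 0` or `m n` is not coprime to `R` both sides vanish (`Nat.Coprime.mul_left` / `Nat.coprime_mul_iff_left`); otherwise `ArithmeticFunction.cardFactors_mul`. `pr`: a prime not in `R.primeFactors` is coprime to `R`
(`R ≠ 0`), `cardFactors p = 1`. -/
theorem fz_FF (R : ℕ) (hR : 0 < R) (z : ℂ) (hz : ‖z‖ = 1) : FF (fz R z) R.primeFactors z := by
  refine ⟨?_, ?_, ?_⟩
  · intro m n
    unfold fz
    by_cases hm : m = 0
    · subst hm
      simp
    by_cases hn : n = 0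
    · subst hn
      simp
    have hmn : m * n ≠ 0 := mul_ne_zero hm hn
    by_cases h1 : m.Coprime R
    · by_cases h2 : n.Coprime R
      · have h3 : (m * n).Coprime R := Nat.Coprime.mul_left h1 h2
        rw [if_neg (by tauto), if_neg (by tauto), if_neg (by tauto),
          ArithmeticFunction.cardFactors_mul hm hn, pow_add]
      · have h3 : ¬ (m * n).Coprime R := fun h => h2 (Nat.Coprime.coprime_mul_left h)
        rw [if_pos (Or.inr h3), if_pos (Or.inr h2), mul_zero]
    · have h3 : ¬ (m * n).Coprime R := fun h => h1 (Nat.Coprime.coprime_mul_right h)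
      rw [if_pos (Or.inr h3), if_pos (Or.inr h1), zero_mul]
  · intro n
    unfold fz
    split_ifs
    · rw [norm_zero]
      exact zero_le_one
    · rw [norm_pow, hz, one_pow]
  · intro p hp _ hpR
    unfold fz
    have h1 : p.Coprime R := by
      rw [Nat.Prime.coprime_iff_not_dvd hp]
      intro h
      exact hpR (Nat.mem_primeFactors.2 ⟨hp, h, hR.ne'⟩)
    rw [if_neg]
    · rw [ArithmeticFunction.cardFactors_apply_prime hp, pow_one]
    · rintro (h | h)
      · exact hp.ne_zero h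
      · exact h h1

theorem fine_prim (q : ℕ) (hq : 0 < q) : IsPrimitiveRoot (zq q) q :=
  Complex.isPrimitiveRoot_exp q hq.ne'

theorem fine_norm (q : ℕ) (hq : 0 < q) (i : ℕ) : ‖zq q ^ i‖ = 1 := by
  rw [norm_pow, Complex.norm_eq_one_of_pow_eq_one (fine_prim q hq).pow_eq_one hq.ne', one_pow]

theorem fine_ne {q : ℕ} (hq : 0 < q) : zq q ≠ 0 := (fine_prim q hq).ne_zero hq.ne'

/-- powers of the primitive root -/
theorem fine_pow_eq {q : ℕ} (hq : 0 < q) (m n : ℕ) : zq q ^ m = zq q ^ n ↔ m ≡ n [MOD q] := by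
  have key : ∀ m n : ℕ, m ≤ n → (zq q ^ m = zq q ^ n ↔ m ≡ n [MOD q]) := by
    intro m n hmn
    rw [Nat.modEq_iff_dvd' hmn, ← (fine_prim q hq).pow_eq_one_iff_dvd]
    have h1 : zq q ^ n = zq q ^ m * zq q ^ (n - m) := by
      rw [← pow_add, Nat.add_sub_cancel' hmn]
    rw [h1]
    have h2 : zq q ^ m ≠ 0 := pow_ne_zero _ (fine_ne hq)
    constructor
    · intro h
      have h3 : zq q ^ m * 1 = zq q ^ m * zq q ^ (n - m) := by rw [mul_one]; exact h
      exact (mul_left_cancel₀ h2 h3).symm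
    · intro h
      rw [h, mul_one]
  rcases le_total m n with h | h
  · exact key m n h
  · rw [eq_comm, Nat.ModEq.comm]
    exact key n m h

open Classical in
/-- orthogonality -/
theorem fine_orth {q : ℕ} (hq : 0 < q) (n a : ℕ) :
    ∑ i ∈ range q, (zq q ^ (i * a))⁻¹ * (zq q ^ i) ^ n = if n ≡ a [MOD q] then (q : ℂ) else 0 := by
  have h0 := fine_ne hq
  have h1 : ∀ i ∈ range q, (zq q ^ (i * a))⁻¹ * (zq q ^ i) ^ n = (zq q ^ n * (zq q ^ a)⁻¹) ^ i := by
    intro i _
    rw [mul_pow, inv_pow, ← pow_mul, ← pow_mul, ← pow_mul, mul_comm i a, mul_comm i n]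
    ring
  rw [sum_congr rfl h1]
  by_cases h : n ≡ a [MOD q]
  · rw [if_pos h, (fine_pow_eq hq n a).2 h, mul_inv_cancel₀ (pow_ne_zero _ h0)]
    simp
  · rw [if_neg h]
    set y : ℂ := zq q ^ n * (zq q ^ a)⁻¹ with hy
    have hy1 : y ≠ 1 := by
      intro h2
      apply h
      rw [← fine_pow_eq hq]
      rw [hy] at h2
      rw [← div_eq_mul_inv, div_eq_one_iff_eq (pow_ne_zero _ h0)] at h2
      exact h2
    have hyq : y ^ q = 1 := by
      rw [hy, mul_pow, inv_pow, ← pow_mul, ← pow_mul, mul_comm n q, mul_comm a q, pow_mul, pow_mul,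
        (fine_prim q hq).pow_eq_one, one_pow, one_pow, inv_one, mul_one]
    rw [geom_sum_eq hy1, hyq, sub_self, zero_div]

end Pool.Agent.OmEq
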