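import Pool.Agent.Lib_MP_f1a94e_eq.CS

/-!
# Test functions and weights
-/

set_option autoImplicit false

namespace Pool.Agent.OmEq

open Finset Pool.Agent.GaussMR Pool.Agent.OmAll MeasureTheory Filter

/-- test functions of `y = dot / X`, `t = log (nm V' / nm V)`, supported on `0 ≤ y ≤ b` -/
structure TF (b : ℝ) (W : ℝ → ℝ → ℂ) : Prop where
  cont : Continuous (Function.uncurry W)
  supp : HasCompactSupport (Function.uncurry W)
  lo : ∀ y t, y ≤ 0 → W y t = 0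
  hi : ∀ y t, b ≤ y → W y t = 0

theorem ctw_supp {b : ℝ} {W : ℝ → ℝ → ℂ} (hW : TF b W) :
    ∃ R0 : ℝ, 0 < R0 ∧ ∀ y t, W y t ≠ 0 → |y| ≤ R0 ∧ |t| ≤ R0 := by
  obtain ⟨R1, hR1⟩ := hW.supp.isCompact.isBounded.subset_closedBall (0 : ℝ × ℝ)
  refine ⟨max R1 1, by positivity, fun y t h => ?_⟩
  have h1 : (y, t) ∈ tsupport (Function.uncurry W) := subset_tsupport _ h
  have h2 := hR1 h1
  rw [mem_closedBall_zero_iff, Prod.norm_def, max_le_iff, Real.norm_eq_abs, Real.norm_eq_abs] at h2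
  exact ⟨h2.1.trans (le_max_left _ _), h2.2.trans (le_max_left _ _)⟩

theorem ctw_cont_right {b : ℝ} {W : ℝ → ℝ → ℂ} (hW : TF b W) (y : ℝ) : Continuous (W y) :=
  hW.cont.comp (Continuous.prodMk_right y)

theorem ctw_supp_right {b : ℝ} {W : ℝ → ℝ → ℂ} (hW : TF b W) (y : ℝ) : HasCompactSupport (W y) := by
  obtain ⟨R0, _, hR⟩ := ctw_supp hW
  refine HasCompactSupport.of_support_subset_isCompact (isCompact_Icc (a := -R0) (b := R0)) ?_
  intro t ht
  rw [Set.mem_Icc, ← abs_le]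
  exact (hR y t ht).2

/-- continuous cut-off functions supported in `[h1, h2]`, `0 < h1` -/
structure HF (h : ℝ → ℝ) (h1 h2 : ℝ) : Prop where
  cont : Continuous h
  nn : ∀ y, 0 ≤ h y
  le : ∀ y, h y ≤ 1
  pos : 0 < h1
  one : 1 ≤ h2
  lo : ∀ y, y ≤ h1 → h y = 0
  hi : ∀ y, h2 ≤ y → h y = 0

/-- the limit of the weight `wN` as a function of `y = dot / X` and `t = log (nm V' / nm V)`; `x = exp (t / 2)` -/
noncomputable def WN (h : ℝ → ℝ) (J N n : ℕ) (y t : ℝ) : ℂ :=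
  if t < 0 then ((h (y * (1 - Real.exp (t / 2)) ^ 2 / (n ^ 2 * Real.exp (t / 2))) ^ 2 *
    rho J N (n / (1 - Real.exp (t / 2))) * rho J N (n * Real.exp (t / 2) / (1 - Real.exp (t / 2))) : ℝ) : ℂ) else 0


theorem apxn_rho_cont (J N : ℕ) : Continuous (rho J N) := by
  unfold rho
  exact continuous_const.max (continuous_const.sub ((((continuous_const.mul
    (continuous_id.sub continuous_const)).div_const _).sub continuous_const).abs))

theorem apxn_rho_nn (J N : ℕ) (r : ℝ) : 0 ≤ rho J N r := le_max_left _ _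

theorem apxn_rho_ne {J N : ℕ} (hN : 1 ≤ N) {r : ℝ} (h : rho J N r ≠ 0) : (J : ℝ) < r ∧ r < J + N := by
  have hN' : (0 : ℝ) < N := by exact_mod_cast hN
  unfold rho at h
  have h1 : 0 < 1 - |2 * (r - J) / N - 1| := by
    by_contra h2
    exact h (max_eq_left (not_lt.1 h2))
  have h3 : |2 * (r - J) / N - 1| < 1 := by linarith
  rw [abs_lt] at h3
  obtain ⟨h4, h5⟩ := h3
  have h6 : 0 < 2 * (r - J) / N := by linarith
  have h7 : 2 * (r - J) / N < 2 := by linarith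
  rw [div_lt_iff₀ hN'] at h7
  have h8 : 0 < 2 * (r - J) := by
    by_contra h9
    exact absurd h6 (not_lt.2 (div_nonpos_of_nonpos_of_nonneg (not_lt.1 h9) hN'.le))
  constructor <;> linarith

/-- the triangle function -/
noncomputable def ps0 (t : ℝ) : ℝ := max 0 (1 - |t|)

/-- the correlations are small on average -/
def GmSmall (f : ℕ → ℂ) : Prop :=
  ∀ (h : ℝ → ℝ) (h1 h2 : ℝ), HF h h1 h2 → ∀ ε : ℝ, 0 < ε → ∃ N0 : ℕ, ∀ N : ℕ, N0 ≤ N → ∃ J0 : ℕ, ∀ J : ℕ, J0 ≤ J →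
    ∀ᶠ X : ℝ in atTop, ‖∑ n ∈ Icc 1 N, Gm f h J N n (((J + N) ^ 2 * h2 + 1) * X) X‖ ≤ ε * N ^ 2 * X

end Pool.Agent.OmEq
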