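import Pool.Agent.Lib_MP_f1a94e_eq.CS
import Pool.Agent.Lib_MP_f1a94e_eq.Clu
import Pool.Agent.Lib_MP_f1a94e_eq.HDefs

/-!
# Piece APXN: the weights of the correlations are test functions
-/

set_option autoImplicit false

namespace Pool.Agent.OmEq

open Finset Pool.Agent.GaussMR Pool.Agent.OmAll MeasureTheory Filter

/-- consequences of `WN ≠ 0` -/
theorem apxn_WN_ne {h : ℝ → ℝ} {h1 h2 : ℝ} (hh : HF h h1 h2) {J N n : ℕ} (hJ : 1 ≤ J) (hN : 1 ≤ N)
    (hn : 1 ≤ n) {y t : ℝ} (hne : WN h J N n y t ≠ 0) :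
    0 < y ∧ y < ((J : ℝ) + N) ^ 2 * h2 ∧ t < -(2 / ((J : ℝ) + N)) ∧ -(2 * Real.log (n + 1)) < t := by
  have hJ' : (1 : ℝ) ≤ J := by exact_mod_cast hJ
  have hN' : (1 : ℝ) ≤ N := by exact_mod_cast hN
  have hn' : (1 : ℝ) ≤ n := by exact_mod_cast hn
  unfold WN at hne
  split_ifs at hne with ht
  · obtain ⟨x, hx⟩ : ∃ x : ℝ, x = Real.exp (t / 2) := ⟨_, rfl⟩
    rw [← hx] at hne
    have hx0 : 0 < x := by rw [hx]; exact Real.exp_pos _
    have hx1 : x < 1 := by rw [hx, Real.exp_lt_one_iff]; linarith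
    have hne' : h (y * (1 - x) ^ 2 / (n ^ 2 * x)) ^ 2 * rho J N (n / (1 - x)) *
        rho J N (n * x / (1 - x)) ≠ 0 := by exact_mod_cast hne
    have e1 := left_ne_zero_of_mul (left_ne_zero_of_mul hne')
    have e2 := apxn_rho_ne hN (right_ne_zero_of_mul (left_ne_zero_of_mul hne'))
    have e3 := apxn_rho_ne hN (right_ne_zero_of_mul hne')
    have e4 : h (y * (1 - x) ^ 2 / (n ^ 2 * x)) ≠ 0 := fun h0 => e1 (by rw [h0]; ring)
    have e5 : h1 < y * (1 - x) ^ 2 / (n ^ 2 * x) := by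
      by_contra h0
      exact e4 (hh.lo _ (not_lt.1 h0))
    have e6 : y * (1 - x) ^ 2 / (n ^ 2 * x) < h2 := by
      by_contra h0
      exact e4 (hh.hi _ (not_lt.1 h0))
    have hx2 : 0 < 1 - x := by linarith
    have hnx : 0 < (n : ℝ) ^ 2 * x := by positivity
    have hy : 0 < y := by
      by_contra h0
      have h3 : y * (1 - x) ^ 2 / (n ^ 2 * x) ≤ 0 :=
        div_nonpos_of_nonpos_of_nonneg (mul_nonpos_of_nonpos_of_nonneg (not_lt.1 h0) (by positivity)) hnx.le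
      linarith [hh.pos]
    refine ⟨hy, ?_, ?_, ?_⟩
    · rw [div_lt_iff₀ hnx] at e6
      have h3 : (n / (1 - x)) * (n * x / (1 - x)) < (J + N) * (J + N) :=
        mul_lt_mul'' e2.2 e3.2 (by positivity) (by positivity)
      have h4 : y = y * (1 - x) ^ 2 / (1 - x) ^ 2 := by field_simp
      rw [h4]
      calc y * (1 - x) ^ 2 / (1 - x) ^ 2 < h2 * (n ^ 2 * x) / (1 - x) ^ 2 :=
            div_lt_div_of_pos_right e6 (by positivity)
        _ = h2 * ((n / (1 - x)) * (n * x / (1 - x))) := by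
            field_simp
        _ ≤ h2 * ((J + N) * (J + N)) := mul_le_mul_of_nonneg_left h3.le (by linarith [hh.one])
        _ = (J + N) ^ 2 * h2 := by ring
    · have h3 : (n : ℝ) < (J + N) * (1 - x) := by
        have := e2.2
        rwa [div_lt_iff₀ hx2] at this
      have h4 : 1 < (J + N) * (1 - x) := lt_of_le_of_lt hn' h3
      have h5 : 1 / ((J : ℝ) + N) < 1 - x := by
        rw [div_lt_iff₀ (by positivity)]
        linarith
      have h6 : t / 2 ≤ x - 1 := by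
        have := Real.add_one_le_exp (t / 2)
        rw [← hx] at this
        linarith
      have h7 : 2 / ((J : ℝ) + N) = 2 * (1 / ((J : ℝ) + N)) := by ring
      rw [h7]
      linarith
    · have h3 : (J : ℝ) * (1 - x) < n * x := by
        have := e3.1
        rwa [lt_div_iff₀ hx2] at this
      have h4 : 1 - x < n * x := by
        have : 1 * (1 - x) ≤ J * (1 - x) := mul_le_mul_of_nonneg_right hJ' hx2.le
        linarith
      have h5 : 1 / ((n : ℝ) + 1) < x := by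
        rw [div_lt_iff₀ (by positivity)]
        linarith
      have h6 : Real.log (1 / ((n : ℝ) + 1)) < t / 2 := by
        rw [← Real.log_exp (t / 2), ← hx]
        exact Real.log_lt_log (by positivity) h5
      rw [one_div, Real.log_inv] at h6
      linarith
  · exact absurd rfl hne

/-- PROOF. `rho J N r = 0` unless `J < r < J + N`. If the value is not zero then with `x = exp (t/2)`: `1 - x ∈ (n/(J+N), n/J)` and `n x/(1-x) > J`, so
`x / (1 - x) > J / n`, `x ≥ c > 0`: `t` in a compact interval `[t0, t1]`, `t1 < 0`. `y = a n^2 x/(1-x)^2` with `h1 < a < h2`: `0 < y ≤ h2 (J+N)^2`. Continuity: on the open set `t < 0` the formula is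
continuous, and on the open set `t > t1` the function is zero; the two open sets cover the plane (`ContinuousOn`, or `continuous_iff_continuousAt`). -/
theorem WN_tf (h : ℝ → ℝ) (h1 h2 : ℝ) (hh : HF h h1 h2) (J N n : ℕ) (hJ : 1 ≤ J) (hN : 1 ≤ N) (hn : 1 ≤ n) (b : ℝ)
    (hb : ((J : ℝ) + N) ^ 2 * h2 ≤ b) : TF b (WN h J N n) := by
  have hT : ∀ y t, WN h J N n y t ≠ 0 → 0 < y ∧ y < ((J : ℝ) + N) ^ 2 * h2 ∧
      t < -(2 / ((J : ℝ) + N)) ∧ -(2 * Real.log (n + 1)) < t := fun y t => apxn_WN_ne hh hJ hN hn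
  have hJ' : (1 : ℝ) ≤ J := by exact_mod_cast hJ
  have hN' : (1 : ℝ) ≤ N := by exact_mod_cast hN
  have hc : 0 < 2 / ((J : ℝ) + N) := by positivity
  refine ⟨?_, ?_, ?_, ?_⟩
  · rw [continuous_iff_continuousAt]
    rintro ⟨y, t⟩
    by_cases ht : t < 0
    · have hev : Function.uncurry (WN h J N n) =ᶠ[nhds (y, t)] fun p : ℝ × ℝ =>
          ((h (p.1 * (1 - Real.exp (p.2 / 2)) ^ 2 / (n ^ 2 * Real.exp (p.2 / 2))) ^ 2 *
            rho J N (n / (1 - Real.exp (p.2 / 2))) *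
            rho J N (n * Real.exp (p.2 / 2) / (1 - Real.exp (p.2 / 2))) : ℝ) : ℂ) := by
        have h3 : ∀ᶠ p : ℝ × ℝ in nhds (y, t), p.2 < 0 :=
          (continuous_snd.tendsto (y, t)).eventually (gt_mem_nhds ht)
        filter_upwards [h3] with p hp
        show WN h J N n p.1 p.2 = _
        unfold WN
        rw [if_pos hp]
      rw [continuousAt_congr hev]
      have hne : 1 - Real.exp (t / 2) ≠ 0 := by
        have : Real.exp (t / 2) < 1 := by rw [Real.exp_lt_one_iff]; linarith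
        exact (by linarith : 0 < 1 - Real.exp (t / 2)).ne'
      have hne2 : (n : ℝ) ^ 2 * Real.exp (t / 2) ≠ 0 := by
        have : (0 : ℝ) < n := by exact_mod_cast hn
        positivity
      have c1 : ContinuousAt (fun p : ℝ × ℝ => Real.exp (p.2 / 2)) (y, t) := by fun_prop
      have c2 : ContinuousAt (fun p : ℝ × ℝ => 1 - Real.exp (p.2 / 2)) (y, t) :=
        continuousAt_const.sub c1
      refine Complex.continuous_ofReal.continuousAt.comp ?_
      have d1 : ContinuousAt (fun p : ℝ × ℝ => p.1 * (1 - Real.exp (p.2 / 2)) ^ 2 /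
          (n ^ 2 * Real.exp (p.2 / 2))) (y, t) :=
        (continuousAt_fst.mul (c2.pow 2)).div (continuousAt_const.mul c1) hne2
      have d2 : ContinuousAt (fun p : ℝ × ℝ => (n : ℝ) / (1 - Real.exp (p.2 / 2))) (y, t) :=
        continuousAt_const.div c2 hne
      have d3 : ContinuousAt (fun p : ℝ × ℝ => (n : ℝ) * Real.exp (p.2 / 2) /
          (1 - Real.exp (p.2 / 2))) (y, t) :=
        (continuousAt_const.mul c1).div c2 hne
      exact ((ContinuousAt.comp (g := h) hh.cont.continuousAt d1).pow 2 |>.mul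
        (ContinuousAt.comp (g := rho J N) (apxn_rho_cont J N).continuousAt d2)).mul
        (ContinuousAt.comp (g := rho J N) (apxn_rho_cont J N).continuousAt d3)
    · have hev : Function.uncurry (WN h J N n) =ᶠ[nhds (y, t)] fun _ => (0 : ℂ) := by
        have h3 : ∀ᶠ p : ℝ × ℝ in nhds (y, t), -(2 / ((J : ℝ) + N)) < p.2 :=
          (continuous_snd.tendsto (y, t)).eventually (lt_mem_nhds (by
            show -(2 / ((J : ℝ) + N)) < t
            linarith))
        filter_upwards [h3] with p hp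
        show WN h J N n p.1 p.2 = 0
        by_contra h4
        linarith [(hT _ _ h4).2.2.1]
      rw [continuousAt_congr hev]
      exact continuousAt_const
  · refine HasCompactSupport.of_support_subset_isCompact
      ((isCompact_Icc (a := (0 : ℝ)) (b := b)).prod
        (isCompact_Icc (a := -(2 * Real.log (n + 1))) (b := 0))) ?_
    rintro ⟨y, t⟩ h3
    have h4 := hT y t h3
    refine Set.mem_prod.2 ⟨⟨h4.1.le, ?_⟩, ⟨h4.2.2.2.le, ?_⟩⟩
    · exact (h4.2.1.trans_le hb).le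
    · show t ≤ 0
      linarith [h4.2.2.1]
  · intro y t hy
    by_contra h4
    linarith [(hT _ _ h4).1]
  · intro y t hy
    by_contra h4
    linarith [(hT _ _ h4).2.1]


/-- `aN / X` as a function of `(y, t, δ)` -/
noncomputable def apxn_a (n : ℕ) (p : ℝ × ℝ × ℝ) : ℝ :=
  (√(p.1 ^ 2 + p.2.2 ^ 2) * (Real.exp (-(p.2.1 / 2)) + Real.exp (p.2.1 / 2)) - 2 * p.1) / (n : ℝ) ^ 2

/-- the weight `wN` as a continuous function of `(y, t, δ)` -/
noncomputable def apxn_K (h : ℝ → ℝ) (J N n : ℕ) (h1 : ℝ) (p : ℝ × ℝ × ℝ) : ℝ :=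
  h (apxn_a n p) ^ 2 *
    rho J N ((√(p.1 ^ 2 + p.2.2 ^ 2) * Real.exp (-(p.2.1 / 2)) - p.1) / (n * max (apxn_a n p) h1)) *
    rho J N ((p.1 - √(p.1 ^ 2 + p.2.2 ^ 2) * Real.exp (p.2.1 / 2)) / (n * max (apxn_a n p) h1))

theorem apxn_a_cont (n : ℕ) : Continuous (apxn_a n) := by
  unfold apxn_a
  fun_prop

theorem apxn_K_cont {h : ℝ → ℝ} {h1 h2 : ℝ} (hh : HF h h1 h2) (J N n : ℕ) (hn : 1 ≤ n) :
    Continuous (apxn_K h J N n h1) := by
  have hn' : (0 : ℝ) < n := by exact_mod_cast hn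
  have c0 := apxn_a_cont n
  have c1 : Continuous fun p : ℝ × ℝ × ℝ => (n : ℝ) * max (apxn_a n p) h1 :=
    continuous_const.mul (c0.max continuous_const)
  have hne : ∀ p : ℝ × ℝ × ℝ, (n : ℝ) * max (apxn_a n p) h1 ≠ 0 := fun p =>
    (mul_pos hn' (lt_of_lt_of_le hh.pos (le_max_right _ _))).ne'
  have d1 : Continuous fun p : ℝ × ℝ × ℝ =>
      (√(p.1 ^ 2 + p.2.2 ^ 2) * Real.exp (-(p.2.1 / 2)) - p.1) / (n * max (apxn_a n p) h1) :=
    Continuous.div (by fun_prop) c1 hne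
  have d2 : Continuous fun p : ℝ × ℝ × ℝ =>
      (p.1 - √(p.1 ^ 2 + p.2.2 ^ 2) * Real.exp (p.2.1 / 2)) / (n * max (apxn_a n p) h1) :=
    Continuous.div (by fun_prop) c1 hne
  exact (((hh.cont.comp c0).pow 2).mul ((apxn_rho_cont J N).comp d1)).mul
    ((apxn_rho_cont J N).comp d2)

/-- `K (y, t, 0) = WN y t` for `0 < y` -/
theorem apxn_K_zero {h : ℝ → ℝ} {h1 h2 : ℝ} (hh : HF h h1 h2) {J N n : ℕ} (hJ : 1 ≤ J) (hN : 1 ≤ N)
    (hn : 1 ≤ n) {y t : ℝ} (hy : 0 < y) :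
    ((apxn_K h J N n h1 (y, t, 0) : ℝ) : ℂ) = WN h J N n y t := by
  have hn' : (0 : ℝ) < n := by exact_mod_cast hn
  have hs : √(y ^ 2 + (0 : ℝ) ^ 2) = y := by
    rw [zero_pow two_ne_zero, add_zero, Real.sqrt_sq hy.le]
  obtain ⟨x, hx⟩ : ∃ x : ℝ, x = Real.exp (t / 2) := ⟨_, rfl⟩
  have hx0 : 0 < x := by rw [hx]; exact Real.exp_pos _
  have hxn : Real.exp (-(t / 2)) = x⁻¹ := by rw [hx, Real.exp_neg]
  have ha : apxn_a n (y, t, 0) = y * (1 - x) ^ 2 / (n ^ 2 * x) := by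
    unfold apxn_a
    simp only
    rw [hs, hxn, ← hx]
    field_simp
    ring
  unfold WN
  split_ifs with ht
  · congr 1
    unfold apxn_K
    simp only
    rw [hs, hxn, ← hx, ha]
    by_cases h3 : y * (1 - x) ^ 2 / (n ^ 2 * x) ≤ h1
    · rw [hh.lo _ h3]
      ring
    · have h4 : max (y * (1 - x) ^ 2 / (n ^ 2 * x)) h1 = y * (1 - x) ^ 2 / (n ^ 2 * x) :=
        max_eq_left (not_le.1 h3).le
      rw [h4]
      have hx1 : x < 1 := by rw [hx, Real.exp_lt_one_iff]; linarith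
      have hx2 : 1 - x ≠ 0 := by linarith
      have e1 : (y * x⁻¹ - y) / (n * (y * (1 - x) ^ 2 / (n ^ 2 * x))) = n / (1 - x) := by
        field_simp
      have e2 : (y - y * x) / (n * (y * (1 - x) ^ 2 / (n ^ 2 * x))) = n * x / (1 - x) := by
        field_simp
      rw [e1, e2]
  · have hx1 : 1 ≤ x := by
      rw [hx]
      exact Real.one_le_exp (by linarith)
    have h3 : rho J N ((y - y * x) / (n * max (apxn_a n (y, t, 0)) h1)) = 0 := by
      by_contra h4
      have h5 := (apxn_rho_ne hN h4).1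
      have h6 : (y - y * x) / (n * max (apxn_a n (y, t, 0)) h1) ≤ 0 := by
        refine div_nonpos_of_nonpos_of_nonneg ?_ ?_
        · nlinarith
        · exact (mul_pos hn' (lt_of_lt_of_le hh.pos (le_max_right _ _))).le
      have h7 : (1 : ℝ) ≤ J := by exact_mod_cast hJ
      linarith
    unfold apxn_K
    simp only
    rw [hs, ← hx, h3]
    simp

/-- the weight is a value of `K` -/
theorem apxn_wN {h : ℝ → ℝ} {h1 h2 : ℝ} (hh : HF h h1 h2) {J N n : ℕ} (hn : 1 ≤ n) {X : ℝ} (hX : 0 < X)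
    {e : G × G} (he : En n e) :
    wN h J N n X e = apxn_K h J N n h1 (mE e / X, tE e, n / X) := by
  have hn' : (0 : ℝ) < n := by exact_mod_cast hn
  have hne := clu_nm_ne (by omega : 0 < n) he
  have hP : (0 : ℝ) < nm e.1 := by exact_mod_cast Nat.pos_of_ne_zero hne.1
  have hQ : (0 : ℝ) < nm e.2 := by exact_mod_cast Nat.pos_of_ne_zero hne.2
  have hPQ : (nm e.1 : ℝ) * nm e.2 = mE e ^ 2 + (n : ℝ) ^ 2 := by
    have h4 := dot_sq_add_det_sq e.1 e.2
    rw [he.1] at h4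
    unfold mE
    exact_mod_cast h4.symm
  have hs : √((mE e / X) ^ 2 + ((n : ℝ) / X) ^ 2) = √(nm e.1) * √(nm e.2) / X := by
    rw [← Real.sqrt_mul hP.le, hPQ]
    have h5 : (mE e / X) ^ 2 + ((n : ℝ) / X) ^ 2 = (mE e ^ 2 + (n : ℝ) ^ 2) / X ^ 2 := by ring
    rw [h5, Real.sqrt_div' _ (by positivity), Real.sqrt_sq hX.le]
  have ht : Real.exp (tE e / 2) = √(nm e.2) / √(nm e.1) := by
    unfold tE
    rw [sub_div, Real.exp_sub, ← Real.log_sqrt hQ.le, ← Real.log_sqrt hP.le,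
      Real.exp_log (Real.sqrt_pos.2 hQ), Real.exp_log (Real.sqrt_pos.2 hP)]
  have ht' : Real.exp (-(tE e / 2)) = √(nm e.1) / √(nm e.2) := by
    rw [Real.exp_neg, ht, inv_div]
  have q1 := Real.sqrt_pos.2 hP
  have q2 := Real.sqrt_pos.2 hQ
  have s1 := Real.mul_self_sqrt hP.le
  have s2 := Real.mul_self_sqrt hQ.le
  have f1 : √(nm e.1) * √(nm e.2) / X * (√(nm e.1) / √(nm e.2)) = nm e.1 / X := by
    calc √(nm e.1) * √(nm e.2) / X * (√(nm e.1) / √(nm e.2)) = √(nm e.1) * √(nm e.1) / X := by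
          field_simp
      _ = nm e.1 / X := by rw [s1]
  have f2 : √(nm e.1) * √(nm e.2) / X * (√(nm e.2) / √(nm e.1)) = nm e.2 / X := by
    calc √(nm e.1) * √(nm e.2) / X * (√(nm e.2) / √(nm e.1)) = √(nm e.2) * √(nm e.2) / X := by
          field_simp
      _ = nm e.2 / X := by rw [s2]
  have ha : apxn_a n (mE e / X, tE e, n / X) = aN n e / X := by
    unfold apxn_a aN
    simp only
    rw [mul_add, hs, ht, ht', f1, f2]
    field_simp
  unfold wN apxn_K
  simp only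
  rw [ha, hs, ht, ht', f1, f2]
  by_cases h3 : aN n e / X ≤ h1
  · rw [hh.lo _ h3]
    ring
  · rw [max_eq_left (not_le.1 h3).le]
    have hpos : 0 < aN n e / X := hh.pos.trans (not_le.1 h3)
    have hpos' : 0 < aN n e := by
      have := mul_pos hpos hX
      rwa [div_mul_cancel₀ _ hX.ne'] at this
    have e1 : ((nm e.1 : ℝ) / X - mE e / X) / (n * (aN n e / X)) = (nm e.1 - mE e) / (n * aN n e) := by
      field_simp
    have e2 : (mE e / X - (nm e.2 : ℝ) / X) / (n * (aN n e / X)) = (mE e - nm e.2) / (n * aN n e) := by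
      field_simp
    rw [e1, e2]

theorem apxn_t_bound {h : ℝ → ℝ} {h1 h2 : ℝ} (hh : HF h h1 h2) {J N n : ℕ} (hJ : 1 ≤ J) (hN : 1 ≤ N)
    (hn : 1 ≤ n) {X : ℝ} (hX : 0 < X) {e : G × G} (he : En n e) (hne : wN h J N n X e ≠ 0) :
    |tE e| ≤ 2 * Real.log (J + N) := by
  have hn' : (1 : ℝ) ≤ n := by exact_mod_cast hn
  have hJ' : (1 : ℝ) ≤ J := by exact_mod_cast hJ
  have hN' : (1 : ℝ) ≤ N := by exact_mod_cast hN
  have hnz := clu_nm_ne (by omega : 0 < n) he
  have hP : (0 : ℝ) < nm e.1 := by exact_mod_cast Nat.pos_of_ne_zero hnz.1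
  have hQ : (0 : ℝ) < nm e.2 := by exact_mod_cast Nat.pos_of_ne_zero hnz.2
  have hPQ : (nm e.1 : ℝ) * nm e.2 = mE e ^ 2 + (n : ℝ) ^ 2 := by
    have h4 := dot_sq_add_det_sq e.1 e.2
    rw [he.1] at h4
    unfold mE
    exact_mod_cast h4.symm
  have hA : (n : ℝ) ^ 2 * aN n e = nm e.1 + nm e.2 - 2 * mE e := by
    unfold aN
    field_simp
  unfold wN at hne
  have e1 := left_ne_zero_of_mul (left_ne_zero_of_mul hne)
  have e2 := apxn_rho_ne hN (right_ne_zero_of_mul (left_ne_zero_of_mul hne))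
  have e3 := apxn_rho_ne hN (right_ne_zero_of_mul hne)
  have e4 : h (aN n e / X) ≠ 0 := fun h0 => e1 (by rw [h0]; ring)
  have e5 : h1 < aN n e / X := by
    by_contra h0
    exact e4 (hh.lo _ (not_lt.1 h0))
  have hpos : 0 < aN n e := by
    have := mul_pos (hh.pos.trans e5) hX
    rwa [div_mul_cancel₀ _ hX.ne'] at this
  obtain ⟨A, hAe⟩ : ∃ A, A = aN n e := ⟨_, rfl⟩
  obtain ⟨P, hPe⟩ : ∃ P : ℝ, P = nm e.1 := ⟨_, rfl⟩
  obtain ⟨Q, hQe⟩ : ∃ Q : ℝ, Q = nm e.2 := ⟨_, rfl⟩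
  obtain ⟨m, hme⟩ : ∃ m, m = mE e := ⟨_, rfl⟩
  obtain ⟨M, hM⟩ : ∃ M : ℝ, M = J + N := ⟨_, rfl⟩
  rw [← hAe] at hA hpos
  rw [← hPe, ← hQe, ← hme] at hA hPQ
  rw [← hPe] at hP
  rw [← hQe] at hQ
  rw [← hAe, ← hPe, ← hme, ← hM] at e2
  rw [← hAe, ← hQe, ← hme, ← hM] at e3
  have hnA : 0 < n * A := by positivity
  rw [lt_div_iff₀ hnA, div_lt_iff₀ hnA] at e2 e3
  have hM1 : 1 ≤ M := by rw [hM]; linarith
  have g1 : 0 < P - m := lt_trans (by positivity) e2.1
  have g2 : 0 < m - Q := lt_trans (by positivity) e3.1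
  have g3 : n * A ≤ m - Q := by
    have : 1 * (n * A) ≤ J * (n * A) := mul_le_mul_of_nonneg_right hJ' hnA.le
    linarith [e3.1]
  have k1 : (n : ℝ) ^ 2 * A * P = n ^ 2 + (P - m) ^ 2 := by
    rw [hA]
    linear_combination hPQ
  have k2 : (n : ℝ) ^ 2 * A * Q = n ^ 2 + (m - Q) ^ 2 := by
    rw [hA]
    linear_combination hPQ
  have k3 : (P - m) ^ 2 ≤ (M * (n * A)) ^ 2 := pow_le_pow_left₀ g1.le e2.2.le 2
  have k4 : (n * A) ^ 2 ≤ (m - Q) ^ 2 := pow_le_pow_left₀ hnA.le g3 2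
  have hM2 : 1 ≤ M ^ 2 := one_le_pow₀ hM1
  have k5 : P ≤ M ^ 2 * Q := by
    have h5 : (n : ℝ) ^ 2 * A * P ≤ (n : ℝ) ^ 2 * A * (M ^ 2 * Q) := by
      have h6 : (n : ℝ) ^ 2 * A * (M ^ 2 * Q) = M ^ 2 * ((n : ℝ) ^ 2 * A * Q) := by ring
      rw [h6, k1, k2]
      have h7 : (n : ℝ) ^ 2 ≤ M ^ 2 * n ^ 2 := le_mul_of_one_le_left (by positivity) hM2
      have h8 : M ^ 2 * (n * A) ^ 2 ≤ M ^ 2 * (m - Q) ^ 2 := mul_le_mul_of_nonneg_left k4 (by positivity)
      nlinarith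
    exact le_of_mul_le_mul_left h5 (by positivity)
  unfold tE
  rw [← hPe, ← hQe, ← hM]
  have l1 : Real.log P ≤ 2 * Real.log M + Real.log Q := by
    have := Real.log_le_log hP k5
    rwa [Real.log_mul (by positivity) hQ.ne', Real.log_pow, Nat.cast_ofNat] at this
  have l2 : Real.log Q ≤ Real.log P := Real.log_le_log hQ (by linarith)
  rw [abs_le]
  have l3 : 0 ≤ Real.log M := Real.log_nonneg hM1
  constructor <;> linarith

open Classical in
/-- PROOF. Put `δ = n / X`, `y = mE e / X`, `t = tE e`, `s = sqrt (y^2 + δ^2)`; for `e ∈ En n`: `nm e.1 nm e.2 = dot^2 + n^2` (`dot_sq_add_det_sq`), so `nm e.1 / X = s exp (-t/2)`, `nm e.2 / X = s exp (t/2)` and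
`wN h J N n X e = K y t δ` for `a y t δ = (s (exp (-t/2) + exp (t/2)) - 2 y) / n^2`,
`K y t δ = h (a)^2 rho ((s exp (-t/2) - y) / (n max a h1)) rho ((y - s exp (t/2)) / (n max a h1))` (`h (a) = 0` if `a ≤ h1`). `K` is continuous on `ℝ^3`, and `K y t 0 = WN y t` for `0 < y`, `t < 0`
(`a y t 0 = y (1-x)^2/(n^2 x)`), `K y t 0 = 0 = WN` for `0 < y`, `t ≥ 0` (`y - y exp (t/2) ≤ 0`, `rho = 0` as `J ≥ 1`). If `wN ≠ 0` then `c1 = (nm V - dot)/(n aN)`,
`c2 = (dot - nm V')/(n aN)` lie in `[J, J+N]`, `c1 = c2 + n`, `aN ≥ h1 X > 0`, `(n^2 aN nm V) ...`: with `A = aN`, `nm V A = c1^2 A^2 + 1`, `nm V' A = c2^2 A^2 + 1` (identities from `nm V nm V' = dot^2 + n^2`), so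
`1 ≤ nm V / nm V' ≤ (c1/c2)^2 ≤ (1 + N + n)^2` and `|t| ≤ B`; the support of `WN` is compact too; enlarge `B`. On the compact set `0 ≤ y ≤ b`, `|t| ≤ B`, `0 ≤ δ ≤ 1`, `K` is uniformly continuous: for every
`ε` and large `X` (`n/X` small), `|wN e - WN (mE e/X) (tE e)| ≤ ε` if `|tE e| ≤ B`, and both are zero otherwise. The number of `e ∈ EN n (b X)` with `|tE e| ≤ B` is at most `C b X` (`cnt`). -/
theorem apxN (f : ℕ → ℂ) (hf : ∀ n, ‖f n‖ ≤ 1) (h : ℝ → ℝ) (h1 h2 : ℝ) (hh : HF h h1 h2) (J N n : ℕ) (hJ : 1 ≤ J)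
    (hN : 1 ≤ N) (hn : 1 ≤ n) (b : ℝ) (hb : 0 < b) :
    Tendsto (fun X : ℝ => (Gm f h J N n (b * X) X - ∑ e ∈ (EN n (b * X)).filter (fun e => cg n e.2 e.1),
      f (nm e.1) * (starRingEnd ℂ) (f (nm e.2)) * WN h J N n (mE e / X) (tE e)) / X) atTop (nhds 0) := by
  have hn' : (1 : ℝ) ≤ n := by exact_mod_cast hn
  have hJ' : (1 : ℝ) ≤ J := by exact_mod_cast hJ
  have hN' : (1 : ℝ) ≤ N := by exact_mod_cast hN
  obtain ⟨B, hB⟩ : ∃ B : ℝ, B = 2 * Real.log (J + N) + 2 * Real.log (n + 1) := ⟨_, rfl⟩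
  have hl1 : 0 ≤ Real.log ((J : ℝ) + N) := Real.log_nonneg (by linarith)
  have hl2 : 0 ≤ Real.log ((n : ℝ) + 1) := Real.log_nonneg (by linarith)
  obtain ⟨C, hC, hcnt⟩ := cnt B
  have hK := apxn_K_cont hh J N n hn
  have hcomp : IsCompact (Set.Icc (0 : ℝ) b ×ˢ (Set.Icc (-B) B ×ˢ Set.Icc (0 : ℝ) 1)) :=
    isCompact_Icc.prod (isCompact_Icc.prod isCompact_Icc)
  have huc := hcomp.uniformContinuousOn_of_continuous hK.continuousOn
  rw [Metric.tendsto_atTop]
  intro ε hε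
  have hε' : 0 < ε / (2 * (C * b)) := by positivity
  obtain ⟨η, hη, hK2⟩ := Metric.uniformContinuousOn_iff.1 huc (ε / (2 * (C * b))) hε'
  refine ⟨max 1 (max (n / b) (max n (2 * n / η))), fun X hX => ?_⟩
  have x1 : 1 ≤ X := (le_max_left _ _).trans hX
  have x2 : n / b ≤ X := ((le_max_left _ _).trans (le_max_right _ _)).trans hX
  have x3 : (n : ℝ) ≤ X := ((le_max_left _ _).trans ((le_max_right _ _).trans (le_max_right _ _))).trans hX
  have x4 : 2 * n / η ≤ X :=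
    ((le_max_right _ _).trans ((le_max_right _ _).trans (le_max_right _ _))).trans hX
  have hX0 : 0 < X := by linarith
  have y1 : (n : ℝ) ≤ b * X := by
    rw [div_le_iff₀ hb] at x2
    linarith
  have y2 : (n : ℝ) / X ≤ 1 := by
    rw [div_le_one hX0]
    exact x3
  have y3 : (n : ℝ) / X < η := by
    rw [div_le_iff₀ hη] at x4
    rw [div_lt_iff₀ hX0]
    nlinarith
  have hterm : ∀ e ∈ EN n (b * X), ‖((wN h J N n X e : ℝ) : ℂ) - WN h J N n (mE e / X) (tE e)‖ ≤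
      if |tE e| ≤ B then ε / (2 * (C * b)) else 0 := by
    intro e he
    rw [mem_EN (by omega)] at he
    have hm := mE_pos he.1
    have hy : 0 < mE e / X := div_pos hm hX0
    have hyb : mE e / X ≤ b := by
      rw [div_le_iff₀ hX0]
      exact he.2
    split_ifs with ht
    · rw [apxn_wN hh hn hX0 he.1, ← apxn_K_zero hh hJ hN hn hy, ← Complex.ofReal_sub,
        Complex.norm_real, ← dist_eq_norm]
      refine (hK2 _ ?_ _ ?_ ?_).le
      · rw [abs_le] at ht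
        exact ⟨⟨hy.le, hyb⟩, ⟨ht, ⟨by positivity, y2⟩⟩⟩
      · rw [abs_le] at ht
        exact ⟨⟨hy.le, hyb⟩, ⟨ht, ⟨le_refl _, zero_le_one⟩⟩⟩
      · rw [Prod.dist_eq, Prod.dist_eq]
        simp only [dist_self]
        rw [Real.dist_eq, sub_zero, abs_of_nonneg (by positivity : (0 : ℝ) ≤ n / X)]
        exact max_lt hη (max_lt hη y3)
    · have z1 : wN h J N n X e = 0 := by
        by_contra h3
        have := apxn_t_bound hh hJ hN hn hX0 he.1 h3
        exact ht (by rw [hB]; linarith)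
      have z2 : WN h J N n (mE e / X) (tE e) = 0 := by
        by_contra h3
        have h4 := apxn_WN_ne hh hJ hN hn h3
        apply ht
        rw [abs_le, hB]
        have h5 : 0 < 2 / ((J : ℝ) + N) := by positivity
        constructor <;> linarith [h4.2.2.1, h4.2.2.2]
      rw [z1, z2]
      simp
  rw [dist_zero_right, norm_div, Complex.norm_real, Real.norm_eq_abs, abs_of_pos hX0,
    div_lt_iff₀ hX0]
  unfold Gm
  rw [← sum_sub_distrib]
  have hs : ‖∑ e ∈ (EN n (b * X)).filter (fun e => cg n e.2 e.1),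
      (f (nm e.1) * (starRingEnd ℂ) (f (nm e.2)) * ((wN h J N n X e : ℝ) : ℂ) -
        f (nm e.1) * (starRingEnd ℂ) (f (nm e.2)) * WN h J N n (mE e / X) (tE e))‖ ≤
      ∑ e ∈ EN n (b * X), if |tE e| ≤ B then ε / (2 * (C * b)) else 0 := by
    refine (norm_sum_le _ _).trans ?_
    refine (sum_le_sum (g := fun e => if |tE e| ≤ B then ε / (2 * (C * b)) else 0) fun e he => ?_).trans ?_
    · rw [← mul_sub, norm_mul, norm_mul, RCLike.norm_conj]
      have h3 := hterm e (mem_filter.1 he).1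
      have h4 : ‖f (nm e.1)‖ * ‖f (nm e.2)‖ ≤ 1 := by
        have := mul_le_mul (hf (nm e.1)) (hf (nm e.2)) (norm_nonneg _) zero_le_one
        linarith
      calc ‖f (nm e.1)‖ * ‖f (nm e.2)‖ * _ ≤ 1 * _ := mul_le_mul_of_nonneg_right h4 (norm_nonneg _)
        _ ≤ _ := by rw [one_mul]; exact h3
    · refine sum_le_sum_of_subset_of_nonneg (filter_subset _ _) fun e _ _ => ?_
      split_ifs
      · exact hε'.le
      · exact le_refl _
  refine lt_of_le_of_lt hs ?_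
  rw [← sum_filter, sum_const, nsmul_eq_mul]
  have h5 := hcnt n (by omega) (b * X) y1
  calc (((EN n (b * X)).filter (fun e => |tE e| ≤ B)).card : ℝ) * (ε / (2 * (C * b)))
      ≤ C * (b * X) * (ε / (2 * (C * b))) := mul_le_mul_of_nonneg_right h5 hε'.le
    _ = ε * X / 2 := by field_simp
    _ < ε * X := by
      have : 0 < ε * X := by positivity
      linarith

end Pool.Agent.OmEq
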