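import Pool.Agent.Lib_MP_f1a94e_eq.BDefs

/-!
# Piece CNB: the integrals of the weights
-/

set_option autoImplicit false

namespace Pool.Agent.OmEq

open Finset MeasureTheory Filter

theorem cnb_r0_cont : Continuous r0 := by
  unfold r0
  exact continuous_const.max (continuous_const.sub
    (((continuous_const.mul continuous_id).sub continuous_const).abs))

theorem cnb_r0_nn (u : ℝ) : 0 ≤ r0 u := le_max_left _ _

theorem cnb_r0_le (u : ℝ) : r0 u ≤ 1 := by
  unfold r0
  exact max_le zero_le_one (by linarith [abs_nonneg (2 * u - 1)])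

theorem cnb_r0_ne {u : ℝ} (h : r0 u ≠ 0) : 0 < u ∧ u < 1 := by
  unfold r0 at h
  have h1 : 0 < 1 - |2 * u - 1| := by
    by_contra h2
    exact h (max_eq_left (not_lt.1 h2))
  have h3 : |2 * u - 1| < 1 := by linarith
  rw [abs_lt] at h3
  constructor <;> linarith [h3.1, h3.2]

theorem cnb_ww (s : ℝ) : ww s = ∫ u in (0:ℝ)..1, r0 u * r0 (u - s) := by
  unfold ww
  symm
  apply intervalIntegral.integral_eq_integral_of_support_subset
  intro u hu
  rw [Function.mem_support] at hu
  have h1 := cnb_r0_ne (left_ne_zero_of_mul hu)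
  exact ⟨h1.1, h1.2.le⟩

/-- PROOF. `r0` is continuous, `0 ≤ r0 ≤ 1`, supported in `[0, 1]`; continuity of the parametric integral (`continuous_parametric_integral_of_continuous` or dominated convergence, the integral is over `[0, 1]`). -/
theorem ww_props : Continuous ww ∧ (∀ s, 0 ≤ ww s) ∧ (∀ s, ww s ≤ 1) ∧ ∀ s, 1 ≤ |s| → ww s = 0 := by
  refine ⟨?_, ?_, ?_, ?_⟩
  · have h1 : ww = fun s => ∫ u in (0:ℝ)..1, r0 u * r0 (u - s) := funext cnb_ww
    rw [h1]
    apply intervalIntegral.continuous_parametric_intervalIntegral_of_continuous'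
    have h2 := cnb_r0_cont
    exact (h2.comp continuous_snd).mul (h2.comp (continuous_snd.sub continuous_fst))
  · intro s
    unfold ww
    exact integral_nonneg fun u => mul_nonneg (cnb_r0_nn _) (cnb_r0_nn _)
  · intro s
    rw [cnb_ww]
    have h1 := intervalIntegral.norm_integral_le_of_norm_le_const (a := 0) (b := 1) (C := 1)
      (f := fun u => r0 u * r0 (u - s)) (by
        intro u _
        rw [Real.norm_eq_abs, abs_of_nonneg (mul_nonneg (cnb_r0_nn _) (cnb_r0_nn _))]
        exact mul_le_one₀ (cnb_r0_le _) (cnb_r0_nn _) (cnb_r0_le _))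
    rw [sub_zero, abs_one, mul_one] at h1
    exact (le_abs_self _).trans h1
  · intro s hs
    unfold ww
    have h1 : ∀ u, r0 u * r0 (u - s) = 0 := by
      intro u
      by_contra h
      have h2 := cnb_r0_ne (left_ne_zero_of_mul h)
      have h3 := cnb_r0_ne (right_ne_zero_of_mul h)
      rcases le_abs.1 hs with h4 | h4
      · linarith [h2.2, h3.1]
      · linarith [h2.1, h3.2]
    simp [h1]

theorem cnb_rho (J N : ℕ) (r : ℝ) : rho J N r = r0 ((r - J) / N) := by
  unfold rho r0
  rw [mul_div_assoc]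

theorem cnb_rho_le (J N : ℕ) (r : ℝ) : rho J N r ≤ 1 := by
  rw [cnb_rho]
  exact cnb_r0_le _

/-- the integral of the product of two triangles -/
theorem cnb_int (J N n : ℕ) (hN : 1 ≤ N) :
    ∫ r in ((J : ℝ) + n)..(J + N + n), rho J N r * rho J N (r - n) = N * ww ((n : ℝ) / N) := by
  have hN0 : (0 : ℝ) < N := by exact_mod_cast hN
  have h1 : ∫ r in ((J : ℝ) + n)..(J + N + n), rho J N r * rho J N (r - n) =
      ∫ r, rho J N r * rho J N (r - n) := by
    apply intervalIntegral.integral_eq_integral_of_support_subset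
    intro r hr
    rw [Function.mem_support] at hr
    have h2 := apxn_rho_ne hN (right_ne_zero_of_mul hr)
    constructor
    · linarith [h2.1]
    · linarith [h2.2]
  rw [h1]
  unfold ww
  have h3 : ∀ r : ℝ, rho J N r * rho J N (r - n) =
      (fun u => r0 u * r0 (u - n / N)) ((r - J) / N) := by
    intro r
    rw [cnb_rho, cnb_rho]
    simp only
    congr 2
    ring
  simp_rw [h3]
  have h4 := integral_sub_right_eq_self (μ := volume)
    (fun r : ℝ => (fun u => r0 u * r0 (u - n / N)) (r / N)) (J : ℝ)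
  rw [h4, Measure.integral_comp_div (fun u => r0 u * r0 (u - n / N)) (N : ℝ), abs_of_pos hN0,
    smul_eq_mul]

/-- the substitution -/
theorem cnb_sub (h : ℝ → ℝ) (h1 h2 : ℝ) (hh : HF h h1 h2) (J N n : ℕ) (hJ : 1 ≤ J) (hN : 1 ≤ N)
    (hn : 1 ≤ n) (y : ℝ) :
    ∫ t, WN h J N n y t = ((∫ r in ((J : ℝ) + n)..(J + N + n),
      2 * n / (r * (r - n)) * (h (y / (r * (r - n))) ^ 2 * (rho J N r * rho J N (r - n))) : ℝ) : ℂ) := by
  have hN0 : (0 : ℝ) < N := by exact_mod_cast hN
  have hJ0 : (0 : ℝ) < J := by exact_mod_cast hJ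
  have hn0 : (0 : ℝ) < n := by exact_mod_cast hn
  obtain ⟨T, hT⟩ : ∃ T : ℝ → ℝ, T = fun r => 2 * (Real.log (r - n) - Real.log r) := ⟨_, rfl⟩
  obtain ⟨g, hg⟩ : ∃ g : ℝ → ℝ, g = fun t => h (y * (1 - Real.exp (t / 2)) ^ 2 / (n ^ 2 * Real.exp (t / 2))) ^ 2 *
    rho J N (n / (1 - Real.exp (t / 2))) * rho J N (n * Real.exp (t / 2) / (1 - Real.exp (t / 2))) :=
    ⟨_, rfl⟩
  have hTexp : ∀ r : ℝ, n < r → Real.exp (T r / 2) = (r - n) / r := by
    intro r hr
    rw [hT]
    simp only
    rw [mul_div_cancel_left₀ _ (two_ne_zero), Real.exp_sub, Real.exp_log (by linarith),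
      Real.exp_log (by linarith)]
  have hTneg : ∀ r : ℝ, n < r → T r < 0 := by
    intro r hr
    have h3 := hTexp r hr
    have h4 : (r - n) / r < 1 := by rw [div_lt_one (by linarith)]; linarith
    rw [← h3, Real.exp_lt_one_iff] at h4
    linarith
  have hab : (J : ℝ) + n ≤ J + N + n := by linarith
  -- the integral over the line is the integral over an interval
  have e1 : ∫ t, WN h J N n y t = ∫ t in (T (J + n))..(T (J + N + n)), WN h J N n y t := by
    symm
    apply intervalIntegral.integral_eq_integral_of_support_subset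
    intro t ht
    rw [Function.mem_support] at ht
    unfold WN at ht
    split_ifs at ht with ht0
    · have hx0 := Real.exp_pos (t / 2)
      have hx1 : Real.exp (t / 2) < 1 := by
        rw [Real.exp_lt_one_iff]
        linarith
      have h3 : h (y * (1 - Real.exp (t / 2)) ^ 2 / (n ^ 2 * Real.exp (t / 2))) ^ 2 *
          rho J N (n / (1 - Real.exp (t / 2))) *
          rho J N (n * Real.exp (t / 2) / (1 - Real.exp (t / 2))) ≠ 0 := by exact_mod_cast ht
      have h4 := apxn_rho_ne hN (right_ne_zero_of_mul h3)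
      obtain ⟨x, hx⟩ : ∃ x, x = Real.exp (t / 2) := ⟨_, rfl⟩
      rw [← hx] at h4 hx0 hx1
      have hx2 : 0 < 1 - x := by linarith
      rw [lt_div_iff₀ hx2, div_lt_iff₀ hx2] at h4
      constructor
      · have h5 : Real.exp (T (J + n) / 2) < Real.exp (t / 2) := by
          rw [hTexp _ (by linarith), ← hx, add_sub_cancel_right, div_lt_iff₀ (by linarith)]
          linarith [h4.1]
        have := Real.exp_lt_exp.1 h5
        linarith
      · have h5 : Real.exp (t / 2) < Real.exp (T (J + N + n) / 2) := by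
          rw [hTexp _ (by linarith), ← hx, add_sub_cancel_right, lt_div_iff₀ (by linarith)]
          linarith [h4.2]
        have := Real.exp_lt_exp.1 h5
        linarith
    · exact absurd rfl ht
  have hmem : ∀ r ∈ Set.uIcc ((J : ℝ) + n) (J + N + n), (n : ℝ) < r := by
    intro r hr
    rw [Set.uIcc_of_le hab] at hr
    linarith [hr.1]
  have hderiv : ∀ r : ℝ, (n : ℝ) < r → HasDerivAt T (2 * n / (r * (r - n))) r := by
    intro r hr
    have d1 : HasDerivAt (fun r : ℝ => Real.log (r - n)) (1 / (r - n)) r := by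
      have := ((hasDerivAt_id r).sub_const (n : ℝ)).log (by simp only [id]; linarith)
      simpa using this
    have d2 : HasDerivAt (fun r : ℝ => Real.log r) r⁻¹ r := Real.hasDerivAt_log (by linarith)
    have d3 := (d1.sub d2).const_mul 2
    rw [hT]
    refine d3.congr_deriv ?_
    have p1 : r - n ≠ 0 := by linarith
    have p2 : r ≠ 0 := by linarith
    field_simp
    ring
  have e2 : ∫ t in (T (J + n))..(T (J + N + n)), WN h J N n y t =
      ((∫ t in (T (J + n))..(T (J + N + n)), g t : ℝ) : ℂ) := by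
    rw [← intervalIntegral.integral_ofReal]
    apply intervalIntegral.integral_congr
    intro t ht
    have ht1 : t < 0 := by
      have h3 : T (J + n) ≤ T (J + N + n) := by
        have h4 : Real.exp (T (J + n) / 2) ≤ Real.exp (T (J + N + n) / 2) := by
          rw [hTexp _ (by linarith only [hJ0]), hTexp _ (by linarith only [hJ0, hN0]),
            div_le_div_iff₀ (by linarith only [hJ0, hn0]) (by linarith only [hJ0, hN0, hn0])]
          have hNn := mul_pos hN0 hn0
          linarith only [hNn]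
        have := Real.exp_le_exp.1 h4
        linarith
      rw [Set.uIcc_of_le h3] at ht
      exact ht.2.trans_lt (hTneg _ (by linarith))
    simp only [WN, if_pos ht1, hg]
  have e3 : ∫ r in ((J : ℝ) + n)..(J + N + n), (2 * n / (r * (r - n))) • (g ∘ T) r =
      ∫ t in (T (J + n))..(T (J + N + n)), g t := by
    apply intervalIntegral.integral_comp_smul_deriv''
    · intro r hr
      exact (hderiv r (hmem r hr)).continuousAt.continuousWithinAt
    · intro r hr
      apply (hderiv r _).hasDerivWithinAt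
      rw [min_eq_left hab] at hr
      linarith [hr.1]
    · apply ContinuousOn.div continuousOn_const (by fun_prop)
      intro r hr
      have := hmem r hr
      have p1 : r - n ≠ 0 := by linarith
      have p2 : r ≠ 0 := by linarith
      exact mul_ne_zero p2 p1
    · rintro t ⟨r, hr, rfl⟩
      apply ContinuousAt.continuousWithinAt
      have hr1 := hmem r hr
      have hx : Real.exp (T r / 2) ≠ 0 := (Real.exp_pos _).ne'
      have hx1 : 1 - Real.exp (T r / 2) ≠ 0 := by
        have : Real.exp (T r / 2) < 1 := by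
          rw [Real.exp_lt_one_iff]
          linarith [hTneg r hr1]
        linarith
      have hce : ContinuousAt (fun t : ℝ => Real.exp (t / 2)) (T r) := by fun_prop
      rw [hg]
      apply ContinuousAt.mul
      · apply ContinuousAt.mul
        · apply ContinuousAt.pow
          apply (hh.cont.continuousAt).comp
          exact (continuousAt_const.mul ((continuousAt_const.sub hce).pow 2)).div
            (continuousAt_const.mul hce) (mul_ne_zero (by positivity) hx)
        · apply ((apxn_rho_cont J N).continuousAt).comp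
          exact continuousAt_const.div (continuousAt_const.sub hce) hx1
      · apply ((apxn_rho_cont J N).continuousAt).comp
        exact (continuousAt_const.mul hce).div (continuousAt_const.sub hce) hx1
  rw [e1, e2, ← e3]
  congr 1
  apply intervalIntegral.integral_congr
  intro r hr
  have hr1 := hmem r hr
  have p1 : r - n ≠ 0 := by linarith
  have p2 : r ≠ 0 := by linarith
  simp only [Function.comp, smul_eq_mul]
  rw [hg]
  simp only
  rw [hTexp r hr1]
  have q1 : 1 - (r - n) / r = n / r := by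
    field_simp
    ring
  have q2 : y * (n / r) ^ 2 / (n ^ 2 * ((r - n) / r)) = y / (r * (r - n)) := by
    field_simp
  have q3 : (n : ℝ) / (n / r) = r := by field_simp
  have q4 : n * ((r - n) / r) / (n / r) = r - n := by field_simp
  rw [q1, q2, q3, q4, mul_assoc (h _ ^ 2)]

/-- the pointwise estimate -/
theorem cnb_pt (h : ℝ → ℝ) (h1 h2 : ℝ) (hh : HF h h1 h2) (N : ℕ) (hN : 1 ≤ N) (η : ℝ) (hη : 0 < η) :
    ∃ J0 : ℕ, 1 ≤ J0 ∧ ∀ J : ℕ, J0 ≤ J → ∀ q : ℝ, (J : ℝ) ^ 2 ≤ q → q ≤ ((J : ℝ) + N) ^ 2 → ∀ y : ℝ,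
      |2 / q * h (y / q) ^ 2 - 2 / (J : ℝ) ^ 2 * h (y / (J : ℝ) ^ 2) ^ 2| ≤ η / (J : ℝ) ^ 2 := by
  have hN0 : (0 : ℝ) < N := by exact_mod_cast hN
  have hcs : HasCompactSupport h := by
    apply HasCompactSupport.of_support_subset_isCompact (isCompact_Icc (a := h1) (b := h2))
    intro y hy
    rw [Function.mem_support] at hy
    constructor
    · by_contra hc
      exact hy (hh.lo y (not_le.1 hc).le)
    · by_contra hc
      exact hy (hh.hi y (not_le.1 hc).le)
  have huc : UniformContinuous h := hcs.uniformContinuous_of_continuous hh.cont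
  obtain ⟨δ, hδ, hδ'⟩ := Metric.uniformContinuous_iff.1 huc (η / 8) (by positivity)
  have hh2 : 0 < h2 := lt_of_lt_of_le one_pos hh.one
  obtain ⟨J0, hJ0⟩ := exists_nat_gt (max (N : ℝ) (max (12 * N / η) (12 * h2 * N / δ)))
  have k1 : (N : ℝ) < J0 := (le_max_left _ _).trans_lt hJ0
  have k2 : 12 * N / η < J0 := ((le_max_left _ _).trans (le_max_right _ _)).trans_lt hJ0
  have k3 : 12 * h2 * N / δ < J0 := ((le_max_right _ _).trans (le_max_right _ _)).trans_lt hJ0
  refine ⟨J0, ?_, fun J hJ q hq1 hq2 y => ?_⟩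
  · have : (0 : ℝ) < J0 := hN0.trans k1
    exact_mod_cast this
  have hJJ : (J0 : ℝ) ≤ J := by exact_mod_cast hJ
  have hNJ : (N : ℝ) < J := k1.trans_le hJJ
  have hJ0' : (0 : ℝ) < J := hN0.trans hNJ
  have hJ2 : (0 : ℝ) < (J : ℝ) ^ 2 := by positivity
  have hq0 : 0 < q := hJ2.trans_le hq1
  have hNNJ : (N : ℝ) * N ≤ N * J := mul_le_mul_of_nonneg_left hNJ.le hN0.le
  have hqd : q - (J : ℝ) ^ 2 ≤ 3 * N * J := by linarith only [hq2, hNNJ]
  have k4 : 12 * N / J < η := by
    rw [div_lt_iff₀ hJ0']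
    rw [div_lt_iff₀ hη] at k2
    linarith only [k2, mul_le_mul_of_nonneg_left hJJ hη.le]
  have k5 : 12 * h2 * N / J < δ := by
    rw [div_lt_iff₀ hJ0']
    rw [div_lt_iff₀ hδ] at k3
    linarith only [k3, mul_le_mul_of_nonneg_left hJJ hδ.le]
  -- the difference of the values
  have hab : |h (y / q) - h (y / (J : ℝ) ^ 2)| ≤ η / 8 := by
    by_cases hz : h (y / q) = 0 ∧ h (y / (J : ℝ) ^ 2) = 0
    · rw [hz.1, hz.2, sub_zero, abs_zero]
      positivity
    · have hy0 : 0 < y := by
        by_contra hc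
        push Not at hc
        apply hz
        constructor
        · exact hh.lo _ ((div_nonpos_of_nonpos_of_nonneg hc hq0.le).trans hh.pos.le)
        · exact hh.lo _ ((div_nonpos_of_nonpos_of_nonneg hc hJ2.le).trans hh.pos.le)
      have hyle : y ≤ h2 * ((J : ℝ) + N) ^ 2 := by
        by_contra hc
        push Not at hc
        apply hz
        constructor
        · apply hh.hi
          rw [le_div_iff₀ hq0]
          exact (mul_le_mul_of_nonneg_left hq2 hh2.le).trans hc.le
        · apply hh.hi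
          rw [le_div_iff₀ hJ2]
          exact (mul_le_mul_of_nonneg_left (hq1.trans hq2) hh2.le).trans hc.le
      have hy4 : y ≤ 4 * h2 * (J : ℝ) ^ 2 := by
        have hNJJ : (N : ℝ) * J ≤ J * J := mul_le_mul_of_nonneg_right hNJ.le hJ0'.le
        have : ((J : ℝ) + N) ^ 2 ≤ 4 * (J : ℝ) ^ 2 := by linarith only [hNJJ, hNNJ]
        linarith only [mul_le_mul_of_nonneg_left this hh2.le, hyle]
      have hd : dist (y / q) (y / (J : ℝ) ^ 2) < δ := by
        rw [dist_comm, Real.dist_eq]
        have e1 : y / (J : ℝ) ^ 2 - y / q = y * (q - (J : ℝ) ^ 2) / ((J : ℝ) ^ 2 * q) := by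
          field_simp
        rw [e1, abs_of_nonneg (div_nonneg (mul_nonneg hy0.le (by linarith)) (by positivity))]
        refine lt_of_le_of_lt ?_ k5
        rw [div_le_div_iff₀ (by positivity) hJ0']
        have e2 : y * (q - (J : ℝ) ^ 2) ≤ 4 * h2 * (J : ℝ) ^ 2 * (3 * N * J) :=
          mul_le_mul hy4 hqd (by linarith) (by positivity)
        have e3 : 12 * h2 * N * ((J : ℝ) ^ 2 * (J : ℝ) ^ 2) ≤ 12 * h2 * N * ((J : ℝ) ^ 2 * q) := by
          apply mul_le_mul_of_nonneg_left _ (by positivity)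
          exact mul_le_mul_of_nonneg_left hq1 hJ2.le
        calc y * (q - (J : ℝ) ^ 2) * J ≤ 4 * h2 * (J : ℝ) ^ 2 * (3 * N * J) * J :=
              mul_le_mul_of_nonneg_right e2 hJ0'.le
          _ = 12 * h2 * N * ((J : ℝ) ^ 2 * (J : ℝ) ^ 2) := by ring
          _ ≤ _ := e3
      have := hδ' hd
      rw [Real.dist_eq] at this
      exact this.le
  obtain ⟨a, ha⟩ : ∃ a, a = h (y / q) := ⟨_, rfl⟩
  obtain ⟨b, hb⟩ : ∃ b, b = h (y / (J : ℝ) ^ 2) := ⟨_, rfl⟩
  have ha0 : 0 ≤ a := by rw [ha]; exact hh.nn _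
  have ha1 : a ≤ 1 := by rw [ha]; exact hh.le _
  have hb0 : 0 ≤ b := by rw [hb]; exact hh.nn _
  have hb1 : b ≤ 1 := by rw [hb]; exact hh.le _
  rw [← ha, ← hb] at hab ⊢
  have e1 : 2 / q * a ^ 2 - 2 / (J : ℝ) ^ 2 * b ^ 2 =
      (2 / (J : ℝ) ^ 2) * (-((q - (J : ℝ) ^ 2) / q * a ^ 2) + (a - b) * (a + b)) := by
    field_simp
    ring
  rw [e1, abs_mul, abs_of_pos (by positivity : 0 < 2 / (J : ℝ) ^ 2)]
  have e2 : |-((q - (J : ℝ) ^ 2) / q * a ^ 2) + (a - b) * (a + b)| ≤ η / 2 := by
    refine (abs_add_le _ _).trans ?_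
    rw [abs_neg, abs_mul (a - b)]
    have e3 : |(q - (J : ℝ) ^ 2) / q * a ^ 2| ≤ η / 4 := by
      have e4 : 0 ≤ (q - (J : ℝ) ^ 2) / q := div_nonneg (by linarith) hq0.le
      rw [abs_of_nonneg (mul_nonneg e4 (sq_nonneg _))]
      have e5 : (q - (J : ℝ) ^ 2) / q ≤ 3 * N / J := by
        rw [div_le_div_iff₀ hq0 hJ0']
        have e51 := mul_le_mul_of_nonneg_right hqd hJ0'.le
        have e52 := mul_le_mul_of_nonneg_left hq1 (mul_nonneg zero_le_three hN0.le)
        linarith only [e51, e52]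
      have e6 : 3 * N / J < η / 4 := by
        have : 3 * (N : ℝ) / J = (12 * N / J) / 4 := by ring
        rw [this]
        linarith
      have e7 : a ^ 2 ≤ 1 := pow_le_one₀ ha0 ha1
      have e71 := mul_le_mul_of_nonneg_left e7 e4
      linarith only [e71, e5, e6]
    have e8 : |a + b| ≤ 2 := by rw [abs_of_nonneg (by linarith)]; linarith
    have e9 : |a - b| * |a + b| ≤ η / 8 * 2 := mul_le_mul hab e8 (abs_nonneg _) (by positivity)
    linarith
  calc 2 / (J : ℝ) ^ 2 * _ ≤ 2 / (J : ℝ) ^ 2 * (η / 2) := mul_le_mul_of_nonneg_left e2 (by positivity)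
    _ = η / (J : ℝ) ^ 2 := by ring

/-- PROOF. Substitute `r = n / (1 - exp (t/2))`, i.e. `exp (t/2) = (r - n)/r`, `dt = 2 n dr / (r (r - n))`, `r ∈ (n, ∞)`:
`∫ t, WN h J N n y t = ∫ r in J..(J+N), h (y / (r (r - n)))^2 rho J N r rho J N (r - n) * (2 n / (r (r - n)))` (`r > n + J`-part only; `y (1-x)^2/(n^2 x) = y / (r (r-n))`, `n x/(1-x) = r - n`; it is convenient to restrict to a compact
interval of `t < 0` that contains the support and use the interval substitution). Also `∫ r, rho J N r rho J N (r - n) = N ww (n/N)` (`rho J N r = r0 ((r - J)/N)`). For `J ≤ r - n`, `r ≤ J + N`: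
`|1/(r (r-n)) - 1/J^2| ≤ 2 N/J^3`, and `|h (y/(r (r-n)))^2 - h (y/J^2)^2| ≤ 2 |h (..) - h (..)|`, where, if not both vanish, `y ≤ h2 (J + N)^2`, so the arguments differ by at most `8 h2 N/J` if `J ≥ N`; uniform continuity of `h`. So the error is at most
`η n N / J^2` for `J ≥ J0(N, η)`, for all `y` and all `n ≤ N`. -/
theorem cnB (h : ℝ → ℝ) (h1 h2 : ℝ) (hh : HF h h1 h2) (N : ℕ) (hN : 1 ≤ N) (η : ℝ) (hη : 0 < η) :
    ∃ J0 : ℕ, 1 ≤ J0 ∧ ∀ J : ℕ, J0 ≤ J → ∀ n : ℕ, 1 ≤ n → n ≤ N → ∀ y : ℝ,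
      ‖(∫ t, WN h J N n y t) - ((2 * n * N / (J : ℝ) ^ 2 * h (y / (J : ℝ) ^ 2) ^ 2 * ww ((n : ℝ) / N) : ℝ) : ℂ)‖ ≤
        η * (n * N / (J : ℝ) ^ 2) := by
  have hN0 : (0 : ℝ) < N := by exact_mod_cast hN
  obtain ⟨J0, hJ0, hpt⟩ := cnb_pt h h1 h2 hh N hN η hη
  refine ⟨J0, hJ0, fun J hJ n hn hnN y => ?_⟩
  have hJ1 : 1 ≤ J := hJ0.trans hJ
  have hJ0' : (0 : ℝ) < J := by exact_mod_cast hJ1
  have hn0 : (0 : ℝ) < n := by exact_mod_cast hn
  rw [cnb_sub h h1 h2 hh J N n hJ1 hN hn y, ← Complex.ofReal_sub, Complex.norm_real, Real.norm_eq_abs]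
  have hab : (J : ℝ) + n ≤ J + N + n := by linarith
  have hmem : ∀ r ∈ Set.uIcc ((J : ℝ) + n) (J + N + n), (J : ℝ) + n ≤ r := by
    intro r hr
    rw [Set.uIcc_of_le hab] at hr
    exact hr.1
  have hcr := apxn_rho_cont J N
  -- continuity
  have hc1 : ContinuousOn (fun r : ℝ => 2 * n / (r * (r - n)) *
      (h (y / (r * (r - n))) ^ 2 * (rho J N r * rho J N (r - n))))
      (Set.uIcc ((J : ℝ) + n) (J + N + n)) := by
    have hne : ∀ r ∈ Set.uIcc ((J : ℝ) + n) (J + N + n), r * (r - n) ≠ 0 := by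
      intro r hr
      have := hmem r hr
      exact mul_ne_zero (by linarith) (by linarith)
    apply ContinuousOn.mul
    · exact ContinuousOn.div continuousOn_const (by fun_prop) hne
    · apply ContinuousOn.mul
      · apply ContinuousOn.pow
        exact hh.cont.comp_continuousOn (ContinuousOn.div continuousOn_const (by fun_prop) hne)
      · exact (hcr.mul (hcr.comp (continuous_id.sub continuous_const))).continuousOn
  have hc2 : Continuous (fun r : ℝ => rho J N r * rho J N (r - n)) :=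
    hcr.mul (hcr.comp (continuous_id.sub continuous_const))
  have e1 : 2 * n * N / (J : ℝ) ^ 2 * h (y / (J : ℝ) ^ 2) ^ 2 * ww ((n : ℝ) / N) =
      ∫ r in ((J : ℝ) + n)..(J + N + n), 2 * n / (J : ℝ) ^ 2 * h (y / (J : ℝ) ^ 2) ^ 2 *
        (rho J N r * rho J N (r - n)) := by
    rw [intervalIntegral.integral_const_mul, cnb_int J N n hN]
    ring
  have hc3 : Continuous (fun r : ℝ => 2 * n / (J : ℝ) ^ 2 * h (y / (J : ℝ) ^ 2) ^ 2 *
      (rho J N r * rho J N (r - n))) := continuous_const.mul hc2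
  rw [e1, ← intervalIntegral.integral_sub hc1.intervalIntegrable (hc3.intervalIntegrable _ _)]
  have e2 : ∀ r ∈ Set.uIoc ((J : ℝ) + n) (J + N + n),
      ‖2 * n / (r * (r - n)) * (h (y / (r * (r - n))) ^ 2 * (rho J N r * rho J N (r - n))) -
        2 * n / (J : ℝ) ^ 2 * h (y / (J : ℝ) ^ 2) ^ 2 * (rho J N r * rho J N (r - n))‖ ≤
      η * (n / (J : ℝ) ^ 2) := by
    intro r hr
    rw [Set.uIoc_of_le hab] at hr
    have e3 : 2 * n / (r * (r - n)) * (h (y / (r * (r - n))) ^ 2 * (rho J N r * rho J N (r - n))) -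
        2 * n / (J : ℝ) ^ 2 * h (y / (J : ℝ) ^ 2) ^ 2 * (rho J N r * rho J N (r - n)) =
        n * (2 / (r * (r - n)) * h (y / (r * (r - n))) ^ 2 -
          2 / (J : ℝ) ^ 2 * h (y / (J : ℝ) ^ 2) ^ 2) * (rho J N r * rho J N (r - n)) := by ring
    rw [e3, Real.norm_eq_abs, abs_mul, abs_mul, abs_of_pos hn0]
    by_cases hz : rho J N r * rho J N (r - n) = 0
    · rw [hz, abs_zero, mul_zero]
      positivity
    · have e4 := apxn_rho_ne hN (left_ne_zero_of_mul hz)
      have e5 := apxn_rho_ne hN (right_ne_zero_of_mul hz)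
      have e61 : (J : ℝ) ≤ r - n := by linarith only [e5.1]
      have e62 : r ≤ (J : ℝ) + N := e4.2.le
      have e63 : (J : ℝ) ^ 2 ≤ r * (r - n) := by
        rw [sq]
        exact mul_le_mul (e61.trans (sub_le_self r hn0.le)) e61 hJ0'.le
          (hJ0'.le.trans (e61.trans (sub_le_self r hn0.le)))
      have e64 : r * (r - n) ≤ ((J : ℝ) + N) ^ 2 := by
        rw [sq]
        exact mul_le_mul e62 ((sub_le_self r hn0.le).trans e62) (hJ0'.le.trans e61)
          (add_nonneg hJ0'.le hN0.le)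
      have e6 := hpt J hJ (r * (r - n)) e63 e64 y
      have e7 : |rho J N r * rho J N (r - n)| ≤ 1 := by
        rw [abs_of_nonneg (mul_nonneg (apxn_rho_nn _ _ _) (apxn_rho_nn _ _ _))]
        exact mul_le_one₀ (cnb_rho_le _ _ _) (apxn_rho_nn _ _ _) (cnb_rho_le _ _ _)
      calc n * |2 / (r * (r - n)) * h (y / (r * (r - n))) ^ 2 -
          2 / (J : ℝ) ^ 2 * h (y / (J : ℝ) ^ 2) ^ 2| * |rho J N r * rho J N (r - n)|
          ≤ n * (η / (J : ℝ) ^ 2) * 1 :=
            mul_le_mul (mul_le_mul_of_nonneg_left e6 hn0.le) e7 (abs_nonneg _) (by positivity)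
        _ = η * (n / (J : ℝ) ^ 2) := by ring
  have e8 := intervalIntegral.norm_integral_le_of_norm_le_const e2
  rw [Real.norm_eq_abs] at e8
  refine e8.trans (le_of_eq ?_)
  rw [abs_of_nonneg (by linarith)]
  ring

end Pool.Agent.OmEq
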