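import Pool.Agent.Lib_MP_f1a94e_eq.GramB
import Pool.Agent.Lib_MP_f1a94e_eq.CnB
import Pool.Agent.Lib_MP_f1a94e_eq.ApxN

/-!
# Piece REDB: reduction of the correlations
-/

set_option autoImplicit false

namespace Pool.Agent.OmEq

open Finset Pool.Agent.GaussMR Pool.Agent.OmAll MeasureTheory Filter

theorem redb_ps0_cont : Continuous ps0 := by
  unfold ps0
  exact continuous_const.max (continuous_const.sub continuous_abs)

theorem redb_ps0_nonneg (t : ℝ) : 0 ≤ ps0 t := le_max_left _ _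

theorem redb_ps0_le (t : ℝ) : ps0 t ≤ 1 := max_le zero_le_one (by linarith [abs_nonneg t])

theorem redb_ps0_zero (t : ℝ) (h : 1 ≤ |t|) : ps0 t = 0 := by
  unfold ps0
  exact max_eq_left (by linarith)

theorem redb_ps0_int : ∫ t, ps0 t = 1 := by
  have h1 : ∫ t, ps0 t = ∫ t in (-1 : ℝ)..1, ps0 t := by
    rw [intervalIntegral.integral_of_le (by norm_num),
      MeasureTheory.setIntegral_eq_integral_of_forall_compl_eq_zero]
    intro t ht
    apply redb_ps0_zero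
    by_contra hc
    push Not at hc
    rw [abs_lt] at hc
    exact ht ⟨hc.1, hc.2.le⟩
  have h2 : ∫ t in (-1 : ℝ)..1, ps0 t = (∫ t in (-1 : ℝ)..0, ps0 t) + ∫ t in (0 : ℝ)..1, ps0 t :=
    (intervalIntegral.integral_add_adjacent_intervals (redb_ps0_cont.intervalIntegrable _ _)
      (redb_ps0_cont.intervalIntegrable _ _)).symm
  have h3 : ∫ t in (-1 : ℝ)..0, ps0 t = ∫ t in (-1 : ℝ)..0, (1 + t) := by
    refine intervalIntegral.integral_congr (fun t ht => ?_)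
    rw [Set.uIcc_of_le (by norm_num)] at ht
    unfold ps0
    rw [abs_of_nonpos ht.2, max_eq_right]
    · ring
    · linarith [ht.1]
  have h4 : ∫ t in (0 : ℝ)..1, ps0 t = ∫ t in (0 : ℝ)..1, (1 - t) := by
    refine intervalIntegral.integral_congr (fun t ht => ?_)
    rw [Set.uIcc_of_le (by norm_num)] at ht
    unfold ps0
    rw [abs_of_nonneg ht.1, max_eq_right]
    linarith [ht.2]
  have h5 : ∫ t in (-1 : ℝ)..0, (1 + t) = 1 / 2 := by
    rw [intervalIntegral.integral_add intervalIntegrable_const intervalIntegral.intervalIntegrable_id]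
    rw [intervalIntegral.integral_const, integral_id]
    norm_num
  have h6 : ∫ t in (0 : ℝ)..1, (1 - t) = 1 / 2 := by
    rw [intervalIntegral.integral_sub intervalIntegrable_const intervalIntegral.intervalIntegrable_id]
    rw [intervalIntegral.integral_const, integral_id]
    norm_num
  rw [h1, h2, h3, h4, h5, h6]
  norm_num

theorem redb_R {b : ℝ} {W : ℝ → ℝ → ℂ} (hW : TF b W) : ∃ R : ℝ, ∀ y t, R < |t| → W y t = 0 := by
  obtain ⟨R, hR⟩ := ((HasCompactSupport.isCompact hW.supp).image continuous_snd).isBounded.subset_closedBall 0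
  refine ⟨R, fun y t ht => ?_⟩
  by_contra hne
  have h1 : (y, t) ∈ tsupport (Function.uncurry W) := subset_tsupport _ hne
  have h2 : t ∈ Metric.closedBall (0 : ℝ) R := hR ⟨(y, t), h1, rfl⟩
  rw [mem_closedBall_zero_iff, Real.norm_eq_abs] at h2
  linarith

theorem redb_int {b : ℝ} {W : ℝ → ℝ → ℂ} (hW : TF b W) (y : ℝ) : Integrable (fun t => W y t) := by
  obtain ⟨R, hR⟩ := redb_R hW
  have hc : Continuous (fun t => W y t) := hW.cont.comp (Continuous.prodMk_right y)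
  refine hc.integrable_of_hasCompactSupport (HasCompactSupport.intro (isCompact_Icc (a := -R) (b := R)) ?_)
  intro t ht
  apply hR y t
  by_contra hcon
  push Not at hcon
  exact ht (abs_le.mp hcon)

theorem redb_c {b : ℝ} {W : ℝ → ℝ → ℂ} (hW : TF b W) : Continuous (fun y => ∫ t, W y t) := by
  obtain ⟨R, hR⟩ := redb_R hW
  have h1 : (fun y => ∫ t, W y t) = fun y => ∫ t in Set.Icc (-R) R, W y t := by
    funext y
    rw [MeasureTheory.setIntegral_eq_integral_of_forall_compl_eq_zero]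
    intro t ht
    apply hR y t
    by_contra hcon
    push Not at hcon
    exact ht (abs_le.mp hcon)
  rw [h1]
  exact continuous_parametric_integral_of_continuous hW.cont isCompact_Icc

theorem redb_tf {b : ℝ} {W : ℝ → ℝ → ℂ} (hW : TF b W) :
    TF b (fun y t => W y t - (∫ s, W y s) * ((ps0 t : ℝ) : ℂ)) := by
  have hc := redb_c hW
  have hlo : ∀ y, y ≤ 0 → (∫ s, W y s) = 0 := by
    intro y hy
    have : (fun s => W y s) = fun _ => 0 := funext (fun s => hW.lo y s hy)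
    rw [this, integral_zero]
  have hhi : ∀ y, b ≤ y → (∫ s, W y s) = 0 := by
    intro y hy
    have : (fun s => W y s) = fun _ => 0 := funext (fun s => hW.hi y s hy)
    rw [this, integral_zero]
  refine ⟨?_, ?_, ?_, ?_⟩
  · refine Continuous.sub hW.cont ?_
    exact (hc.comp continuous_fst).mul (Complex.continuous_ofReal.comp (redb_ps0_cont.comp continuous_snd))
  · refine HasCompactSupport.intro
      ((HasCompactSupport.isCompact hW.supp).union
        ((isCompact_Icc (a := (0 : ℝ)) (b := b)).prod (isCompact_Icc (a := (-1 : ℝ)) (b := 1)))) ?_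
    rintro ⟨y, t⟩ hyt
    have h1 : (y, t) ∉ tsupport (Function.uncurry W) := fun h => hyt (Or.inl h)
    have h2 : ¬ (y ∈ Set.Icc (0 : ℝ) b ∧ t ∈ Set.Icc (-1 : ℝ) 1) := fun h => hyt (Or.inr h)
    have h3 : W y t = 0 := image_eq_zero_of_notMem_tsupport (f := Function.uncurry W) h1
    have h4 : (∫ s, W y s) * ((ps0 t : ℝ) : ℂ) = 0 := by
      by_cases hy : y ∈ Set.Icc (0 : ℝ) b
      · have ht : t ∉ Set.Icc (-1 : ℝ) 1 := fun h => h2 ⟨hy, h⟩
        have : ps0 t = 0 := by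
          apply redb_ps0_zero
          by_contra hcon
          push Not at hcon
          exact ht (abs_le.mp hcon.le)
        rw [this, Complex.ofReal_zero, mul_zero]
      · have : (∫ s, W y s) = 0 := by
          rcases lt_or_ge y 0 with h5 | h5
          · exact hlo y h5.le
          · refine hhi y ?_
            by_contra hcon
            push Not at hcon
            exact hy ⟨h5, hcon.le⟩
        rw [this, zero_mul]
    change W y t - (∫ s, W y s) * ((ps0 t : ℝ) : ℂ) = 0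
    rw [h3, h4, sub_zero]
  · intro y t hy
    rw [hlo y hy, hW.lo y t hy, zero_mul, sub_zero]
  · intro y t hy
    rw [hhi y hy, hW.hi y t hy, zero_mul, sub_zero]

theorem redb_zero {b : ℝ} {W : ℝ → ℝ → ℂ} (hW : TF b W) (y : ℝ) :
    (∫ t, (W y t - (∫ s, W y s) * ((ps0 t : ℝ) : ℂ))) = 0 := by
  have hi : Integrable (fun t => ((ps0 t : ℝ) : ℂ)) := by
    have hc : Continuous (fun t => ((ps0 t : ℝ) : ℂ)) := Complex.continuous_ofReal.comp redb_ps0_cont
    refine hc.integrable_of_hasCompactSupport (HasCompactSupport.intro (isCompact_Icc (a := (-1 : ℝ)) (b := 1)) ?_)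
    intro t ht
    have : ps0 t = 0 := by
      apply redb_ps0_zero
      by_contra hcon
      push Not at hcon
      exact ht (abs_le.mp hcon.le)
    rw [this, Complex.ofReal_zero]
  rw [integral_sub (redb_int hW y) (hi.const_mul _), integral_const_mul, integral_complex_ofReal, redb_ps0_int,
    Complex.ofReal_one, mul_one, sub_self]

/-- linearity and the change of scale -/
theorem redb_scale (f : ℕ → ℂ) (h : ℝ → ℝ) (h1 h2 : ℝ) (hh : HF h h1 h2) (n : ℕ) (hn : 0 < n) (a b X : ℝ) (J : ℕ)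
    (hJ : 1 ≤ J) (hX : 0 < X) (hb : (J : ℝ) ^ 2 * h2 ≤ b) :
    Qs f n (b * X) (fun y t => ((a * h (y / (J : ℝ) ^ 2) ^ 2 : ℝ) : ℂ) * ((ps0 t : ℝ) : ℂ)) X =
      (a : ℂ) * Qs f n (h2 * ((J : ℝ) ^ 2 * X)) (fun y t => ((h y ^ 2 * ps0 t : ℝ) : ℂ)) ((J : ℝ) ^ 2 * X) := by
  classical
  have hJ0 : (0 : ℝ) < (J : ℝ) ^ 2 := by
    have : (0 : ℝ) < J := by exact_mod_cast hJ
    positivity
  unfold Qs
  rw [Finset.mul_sum]
  symm
  have hsub : (EN n (h2 * ((J : ℝ) ^ 2 * X))).filter (hc n) ⊆ (EN n (b * X)).filter (hc n) := by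
    intro e he
    obtain ⟨he1, he2⟩ := mem_filter.mp he
    have he3 := (mem_EN hn).mp he1
    refine mem_filter.mpr ⟨(mem_EN hn).mpr ⟨he3.1, he3.2.trans ?_⟩, he2⟩
    nlinarith
  have key : ∀ e : G × G, h (mE e / ((J : ℝ) ^ 2 * X)) = h (mE e / X / (J : ℝ) ^ 2) := by
    intro e
    rw [div_div, mul_comm X]
  rw [← Finset.sum_subset hsub]
  · refine Finset.sum_congr rfl (fun e _ => ?_)
    beta_reduce
    rw [key]
    push_cast
    ring
  · intro e he hne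
    obtain ⟨he1, he2⟩ := mem_filter.mp he
    have he3 := (mem_EN hn).mp he1
    have h4 : h2 * ((J : ℝ) ^ 2 * X) < mE e := by
      by_contra hcon
      push Not at hcon
      exact hne (mem_filter.mpr ⟨(mem_EN hn).mpr ⟨he3.1, hcon⟩, he2⟩)
    have h5 : h (mE e / X / (J : ℝ) ^ 2) = 0 := by
      rw [← key]
      apply hh.hi
      rw [le_div_iff₀ (by positivity)]
      exact h4.le
    beta_reduce
    rw [h5]
    push_cast
    ring

/-- comparison of two weights -/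
theorem redb_cmp (f : ℕ → ℂ) (hf : ∀ n, ‖f n‖ ≤ 1) (C : ℝ)
    (hC : ∀ n : ℕ, 0 < n → ∀ x : ℝ, (n : ℝ) ≤ x → by classical exact (((EN n x).filter (fun e => |tE e| ≤ 1)).card : ℝ) ≤ C * x)
    (n : ℕ) (hn : 0 < n) (c d : ℝ → ℂ) (κ : ℝ) (hκ : 0 ≤ κ) (hcd : ∀ y, ‖c y - d y‖ ≤ κ) (x X : ℝ) (hx : (n : ℝ) ≤ x) :
    ‖Qs f n x (fun y t => c y * ((ps0 t : ℝ) : ℂ)) X - Qs f n x (fun y t => d y * ((ps0 t : ℝ) : ℂ)) X‖ ≤
      κ * (C * x) := by
  classical
  refine le_trans ?_ (mul_le_mul_of_nonneg_left (hC n hn x hx) hκ)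
  unfold Qs
  rw [← Finset.sum_sub_distrib]
  calc ‖∑ e ∈ (EN n x).filter (hc n), (f (nm e.1) * (starRingEnd ℂ) (f (nm e.2)) * (c (mE e / X) * ((ps0 (tE e) : ℝ) : ℂ)) -
        f (nm e.1) * (starRingEnd ℂ) (f (nm e.2)) * (d (mE e / X) * ((ps0 (tE e) : ℝ) : ℂ)))‖
      ≤ ∑ e ∈ (EN n x).filter (hc n), (if |tE e| ≤ 1 then κ else 0) := by
        refine norm_sum_le_of_le _ (fun e _ => ?_)
        have e1 : f (nm e.1) * (starRingEnd ℂ) (f (nm e.2)) * (c (mE e / X) * ((ps0 (tE e) : ℝ) : ℂ)) -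
            f (nm e.1) * (starRingEnd ℂ) (f (nm e.2)) * (d (mE e / X) * ((ps0 (tE e) : ℝ) : ℂ)) =
            f (nm e.1) * (starRingEnd ℂ) (f (nm e.2)) * ((c (mE e / X) - d (mE e / X)) * ((ps0 (tE e) : ℝ) : ℂ)) := by
          ring
        rw [e1, norm_mul, norm_mul, norm_mul, RCLike.norm_conj, Complex.norm_real, Real.norm_eq_abs,
          abs_of_nonneg (redb_ps0_nonneg _)]
        have a1 := hf (nm e.1)
        have a2 := hf (nm e.2)
        have a5 : ‖f (nm e.1)‖ * ‖f (nm e.2)‖ ≤ 1 := mul_le_one₀ a1 (norm_nonneg _) a2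
        have a6 := redb_ps0_nonneg (tE e)
        have a7 := redb_ps0_le (tE e)
        have a8 := hcd (mE e / X)
        by_cases ht : |tE e| ≤ 1
        · rw [if_pos ht]
          calc ‖f (nm e.1)‖ * ‖f (nm e.2)‖ * (‖c (mE e / X) - d (mE e / X)‖ * ps0 (tE e)) ≤ 1 * (κ * 1) := by
                gcongr
            _ = κ := by ring
        · rw [if_neg ht, redb_ps0_zero _ (by push Not at ht; exact ht.le), mul_zero, mul_zero]
    _ ≤ ∑ e ∈ EN n x, (if |tE e| ≤ 1 then κ else 0) := by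
        refine Finset.sum_le_sum_of_subset_of_nonneg (Finset.filter_subset _ _) (fun e _ _ => ?_)
        split_ifs
        · exact hκ
        · exact le_rfl
    _ = κ * (((EN n x).filter (fun e => |tE e| ≤ 1)).card : ℝ) := by
        rw [← Finset.sum_filter, Finset.sum_const, nsmul_eq_mul, mul_comm]

/-- one determinant: the limit statement -/
theorem redb_one (f : ℕ → ℂ) (E : Finset ℕ) (ω : ℂ) (h : FF f E ω) (hω : ‖ω‖ = 1) (h' : ℝ → ℝ) (h1 h2 : ℝ)
    (hh : HF h' h1 h2) (J N n : ℕ) (hJ : 1 ≤ J) (hN : 1 ≤ N) (hn : 1 ≤ n) (b : ℝ) (hb : ((J : ℝ) + N) ^ 2 * h2 ≤ b)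
    (hb0 : 0 < b) :
    Tendsto (fun X : ℝ => (Gm f h' J N n (b * X) X - ((kap n / n.totient : ℝ) : ℂ) *
      Qs f n (b * X) (fun y t => (∫ s, WN h' J N n y s) * ((ps0 t : ℝ) : ℂ)) X) / X) atTop (nhds 0) := by
  have hTF := WN_tf h' h1 h2 hh J N n hJ hN hn b hb
  have e1 := apxN f h.bd h' h1 h2 hh J N n hJ hN hn b hb0
  have e2 := gramB n hn f E ω h hω b (WN h' J N n) hTF
  have e3 := (tvfB n hn f E ω h hω b _ (redb_tf hTF) (redb_zero hTF)).const_mul ((kap n / n.totient : ℝ) : ℂ)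
  rw [mul_zero] at e3
  have e4 := (e1.add e2).add e3
  rw [add_zero, add_zero] at e4
  refine e4.congr (fun X => ?_)
  have e5 : Qs f n (b * X) (fun y t => WN h' J N n y t - (∫ s, WN h' J N n y s) * ((ps0 t : ℝ) : ℂ)) X =
      Qs f n (b * X) (WN h' J N n) X -
        Qs f n (b * X) (fun y t => (∫ s, WN h' J N n y s) * ((ps0 t : ℝ) : ℂ)) X := by
    unfold Qs
    rw [← Finset.sum_sub_distrib]
    refine Finset.sum_congr rfl (fun e _ => ?_)
    ring
  rw [e5]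
  ring

/-- PROOF. Given `h, h1, h2, ε`. `N0` from `hQ` with `ε/4`, `N ≥ max N0 1`; `C` from `cnt 1`; `J0 ≥ N` so large that `cnB` holds with `η = ε / (40 C h2 N)`. Fix `J ≥ J0`, `b = (J+N)^2 h2 + 1 ≤ 5 J^2 h2`. For `1 ≤ n ≤ N`, as `X → ∞`:
(i) `apxN` and `gramB` for `WN h J N n` (`WN_tf`): `Gm_n = (kap n/φ(n)) Qs f n (b X) (WN) X + o(X)`.
(ii) `tvfB` for `W y t = WN y t - c y * ps0 t`, `c y = ∫ t, WN y t` (continuous, zero for `y ≤ 0` and `y ≥ b`; `∫ ps0 = 1`): `Qs (WN) = Qs (c ⊗ ps0) + o(X)`.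
(iii) `cnB`: `‖Qs (c ⊗ ps0) - (2 n N/J^2) ww(n/N) Qs f n (b X) (h (y/J^2)^2 ⊗ ps0) X‖ ≤ η (n N/J^2) #{e ∈ EN n (b X) : |tE e| ≤ 1} ≤ 5 η n N C h2 X` (`cnt`, `n ≤ b X`).
(iv) With `Y = J^2 X`: `Qs f n (b X) (h (y/J^2)^2 ⊗ ps0) X = Qs f n (h2 Y) (h y^2 ⊗ ps0) Y` (terms with `mE ≥ h2 Y` vanish, `b X ≥ h2 Y`).
(v) `kap n/φ(n) * 2 n N/J^2 * ww = (2 N/J^2) * kap n (n/φ(n)) ww`; by `hQ`, `(2 N/J^2) (ε/4) N Y = (ε/2) N^2 X`; the errors (iii): `∑_(n ≤ N) (2/φ(n)) 5 η n N C h2 X ≤ 10 η C h2 N * N^2 X` (`n/φ(n) ≤ n ≤ N`) `= (ε/4) N^2 X`; the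
`o(X)` terms are `≤ (ε/4) N^2 X` eventually. -/
theorem redB (f : ℕ → ℂ) (E : Finset ℕ) (ω : ℂ) (h : FF f E ω) (hω : ‖ω‖ = 1) (hQ : QSmall f) : GmSmall f := by
  classical
  intro h' h1 h2 hh ε hε
  have h2one : (1 : ℝ) ≤ h2 := hh.one
  have h2pos : 0 < h2 := by linarith
  obtain ⟨C, hC, hcnt⟩ := cnt 1
  obtain ⟨N0, hN0⟩ := hQ h' h1 h2 hh (ε / 4) (by positivity)
  refine ⟨max N0 1, fun N hN => ?_⟩
  have hN1 : 1 ≤ N := le_trans (le_max_right _ _) hN
  have hNN0 : N0 ≤ N := le_trans (le_max_left _ _) hN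
  have hNr : (1 : ℝ) ≤ N := by exact_mod_cast hN1
  have hNpos : (0 : ℝ) < N := by linarith
  set η : ℝ := ε / (40 * C * h2 * N) with hη
  have hηpos : 0 < η := by positivity
  obtain ⟨J0, hJ01, hcn⟩ := cnB h' h1 h2 hh N hN1 η hηpos
  refine ⟨max J0 N, fun J hJ => ?_⟩
  have hJ0 : J0 ≤ J := le_trans (le_max_left _ _) hJ
  have hJN : N ≤ J := le_trans (le_max_right _ _) hJ
  have hJ1 : 1 ≤ J := le_trans hN1 hJN
  have hJNr : (N : ℝ) ≤ J := by exact_mod_cast hJN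
  have hJr : (1 : ℝ) ≤ J := by linarith
  have hJpos : (0 : ℝ) < J := by linarith
  set b : ℝ := ((J : ℝ) + N) ^ 2 * h2 + 1 with hb
  have hbpos : 0 < b := by positivity
  have hb5 : b ≤ 5 * (J : ℝ) ^ 2 * h2 := by
    have e1 : ((J : ℝ) + N) ^ 2 ≤ 4 * (J : ℝ) ^ 2 := by nlinarith
    have e2 : (1 : ℝ) ≤ (J : ℝ) ^ 2 * h2 := by nlinarith
    nlinarith
  have hbJ : (J : ℝ) ^ 2 * h2 ≤ b := by
    have e1 : (J : ℝ) ^ 2 ≤ ((J : ℝ) + N) ^ 2 := by nlinarith
    nlinarith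
  -- the limit part
  have hlim : Tendsto (fun X : ℝ => ∑ n ∈ Icc 1 N, (Gm f h' J N n (b * X) X - ((kap n / n.totient : ℝ) : ℂ) *
      Qs f n (b * X) (fun y t => (∫ s, WN h' J N n y s) * ((ps0 t : ℝ) : ℂ)) X) / X) atTop (nhds 0) := by
    have := tendsto_finsetSum (Icc 1 N) (fun n hn => redb_one f E ω h hω h' h1 h2 hh J N n hJ1 hN1
      (mem_Icc.mp hn).1 b (by linarith) hbpos)
    rw [Finset.sum_const_zero] at this
    exact this
  have hev := (Metric.tendsto_nhds.mp hlim) (ε / 4) (by positivity)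
  have hQev := (tendsto_id.const_mul_atTop (r := (J : ℝ) ^ 2) (by positivity)).eventually (hN0 N hNN0)
  filter_upwards [hev, hQev, eventually_gt_atTop (0 : ℝ), eventually_ge_atTop (N : ℝ)] with X hX hXQ hX0 hXN
  rw [dist_zero_right, ← Finset.sum_div, norm_div, Complex.norm_real, Real.norm_eq_abs, abs_of_pos hX0,
    div_lt_iff₀ hX0] at hX
  simp only [id] at hXQ
  set Y : ℝ := (J : ℝ) ^ 2 * X with hY
  -- notation
  set q : ℕ → ℂ := fun n => Qs f n (h2 * Y) (fun y t => ((h' y ^ 2 * ps0 t : ℝ) : ℂ)) Y with hq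
  set c : ℕ → ℂ := fun n => Qs f n (b * X) (fun y t => (∫ s, WN h' J N n y s) * ((ps0 t : ℝ) : ℂ)) X with hc
  set d : ℕ → ℂ := fun n => Qs f n (b * X) (fun y t =>
    (((2 * n * N / (J : ℝ) ^ 2 * h' (y / (J : ℝ) ^ 2) ^ 2 * ww ((n : ℝ) / N) : ℝ)) : ℂ) * ((ps0 t : ℝ) : ℂ)) X with hd
  have hdq : ∀ n ∈ Icc 1 N, d n = ((2 * n * N / (J : ℝ) ^ 2 * ww ((n : ℝ) / N) : ℝ) : ℂ) * q n := by
    intro n hn
    have hn1 := (mem_Icc.mp hn).1
    have e1 := redb_scale f h' h1 h2 hh n hn1 (2 * n * N / (J : ℝ) ^ 2 * ww ((n : ℝ) / N)) b X J hJ1 hX0 hbJ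
    rw [hq]
    simp only
    rw [hY, ← e1, hd]
    simp only
    congr 1
    funext y t
    congr 2
    ring
  have hcd : ∀ n ∈ Icc 1 N, ‖c n - d n‖ ≤ 5 * η * n * N * C * h2 * X := by
    intro n hn
    obtain ⟨hn1, hn2⟩ := mem_Icc.mp hn
    have hnr : (1 : ℝ) ≤ n := by exact_mod_cast hn1
    have hnN : (n : ℝ) ≤ N := by exact_mod_cast hn2
    have hbX : (n : ℝ) ≤ b * X := by
      have : (1 : ℝ) ≤ b := by
        have : 0 ≤ ((J : ℝ) + N) ^ 2 * h2 := by positivity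
        linarith
      nlinarith
    have e1 := redb_cmp f h.bd C hcnt n hn1 (fun y => ∫ s, WN h' J N n y s)
      (fun y => (((2 * n * N / (J : ℝ) ^ 2 * h' (y / (J : ℝ) ^ 2) ^ 2 * ww ((n : ℝ) / N) : ℝ)) : ℂ))
      (η * (n * N / (J : ℝ) ^ 2)) (by positivity) (fun y => hcn J hJ0 n hn1 hn2 y) (b * X) X hbX
    refine e1.trans ?_
    calc η * (n * N / (J : ℝ) ^ 2) * (C * (b * X)) ≤ η * (n * N / (J : ℝ) ^ 2) * (C * ((5 * (J : ℝ) ^ 2 * h2) * X)) := by
          gcongr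
      _ = 5 * η * n * N * C * h2 * X := by
          field_simp
  -- the decomposition
  have hdec : ∑ n ∈ Icc 1 N, Gm f h' J N n (b * X) X =
      ∑ n ∈ Icc 1 N, (Gm f h' J N n (b * X) X - ((kap n / n.totient : ℝ) : ℂ) * c n) +
      ∑ n ∈ Icc 1 N, ((kap n / n.totient : ℝ) : ℂ) * (c n - d n) +
      ((2 * N / (J : ℝ) ^ 2 : ℝ) : ℂ) *
        ∑ n ∈ Icc 1 N, ((kap n * (n / n.totient) * ww ((n : ℝ) / N) : ℝ) : ℂ) * q n := by
    rw [Finset.mul_sum, ← Finset.sum_add_distrib, ← Finset.sum_add_distrib]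
    refine Finset.sum_congr rfl (fun n hn => ?_)
    rw [hdq n hn]
    push_cast
    ring
  have hp1 : ‖∑ n ∈ Icc 1 N, (Gm f h' J N n (b * X) X - ((kap n / n.totient : ℝ) : ℂ) * c n)‖ ≤
      ε / 4 * N ^ 2 * X := by
    refine hX.le.trans ?_
    have : (1 : ℝ) ≤ (N : ℝ) ^ 2 := one_le_pow₀ hNr
    have h3 : ε / 4 * X * 1 ≤ ε / 4 * X * (N : ℝ) ^ 2 := mul_le_mul_of_nonneg_left this (by positivity)
    linarith
  have hp2 : ‖∑ n ∈ Icc 1 N, ((kap n / n.totient : ℝ) : ℂ) * (c n - d n)‖ ≤ ε / 4 * N ^ 2 * X := by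
    calc ‖∑ n ∈ Icc 1 N, ((kap n / n.totient : ℝ) : ℂ) * (c n - d n)‖
        ≤ ∑ n ∈ Icc 1 N, (2 * (5 * η * N * N * C * h2 * X)) := by
          refine norm_sum_le_of_le _ (fun n hn => ?_)
          obtain ⟨hn1, hn2⟩ := mem_Icc.mp hn
          have hnN : (n : ℝ) ≤ N := by exact_mod_cast hn2
          have hφ : (1 : ℝ) ≤ n.totient := by exact_mod_cast Nat.totient_pos.mpr hn1
          have k1 : 0 ≤ kap n ∧ kap n ≤ 2 := by
            unfold kap
            split_ifs <;> norm_num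
          have k2 : kap n / n.totient ≤ 2 := by
            rw [div_le_iff₀ (by linarith)]
            nlinarith
          rw [norm_mul, Complex.norm_real, Real.norm_eq_abs, abs_of_nonneg (div_nonneg k1.1 (by linarith))]
          refine mul_le_mul k2 ((hcd n hn).trans ?_) (norm_nonneg _) (by norm_num)
          gcongr
      _ = N * (2 * (5 * η * N * N * C * h2 * X)) := by
          rw [Finset.sum_const, nsmul_eq_mul, Nat.card_Icc, Nat.add_sub_cancel]
      _ = ε / 4 * N ^ 2 * X := by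
          rw [hη]
          field_simp
          ring
  have hp3 : ‖((2 * N / (J : ℝ) ^ 2 : ℝ) : ℂ) *
        ∑ n ∈ Icc 1 N, ((kap n * (n / n.totient) * ww ((n : ℝ) / N) : ℝ) : ℂ) * q n‖ ≤ ε / 2 * N ^ 2 * X := by
    rw [norm_mul, Complex.norm_real, Real.norm_eq_abs, abs_of_nonneg (by positivity)]
    calc (2 * N / (J : ℝ) ^ 2) * ‖∑ n ∈ Icc 1 N, ((kap n * (n / n.totient) * ww ((n : ℝ) / N) : ℝ) : ℂ) * q n‖
        ≤ (2 * N / (J : ℝ) ^ 2) * (ε / 4 * N * Y) := mul_le_mul_of_nonneg_left hXQ (by positivity)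
      _ = ε / 2 * N ^ 2 * X := by
          rw [hY]
          field_simp
          ring
  rw [hdec]
  refine (norm_add_le _ _).trans ?_
  have := norm_add_le (∑ n ∈ Icc 1 N, (Gm f h' J N n (b * X) X - ((kap n / n.totient : ℝ) : ℂ) * c n))
    (∑ n ∈ Icc 1 N, ((kap n / n.totient : ℝ) : ℂ) * (c n - d n))
  linarith

end Pool.Agent.OmEq
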