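import Pool.Agent.Lib_MP_f1a94e_eq.Ctw
import Pool.Agent.Lib_MP_f1a94e_aq.Equid
import Pool.Agent.Lib_MP_f1a94e_aq.DCount

/-!
# Piece SHARP: sharp cut-offs
-/

set_option autoImplicit false

namespace Pool.Agent.OmEq

open Finset Pool.Agent.GaussMR Pool.Agent.OmAll MeasureTheory Filter

theorem sharp_En_iff (e : G × G) : En 1 e ↔ det e.1 e.2 = 1 ∧ 0 < dot e.1 e.2 := by
  unfold En
  constructor
  · rintro ⟨h1, h2, -, -⟩
    exact ⟨by simpa using h1, h2⟩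
  · rintro ⟨h1, h2⟩
    refine ⟨by simpa using h1, h2, ?_, 1, by simpa using isCoprime_one_left, ?_⟩
    · unfold Prim
      unfold det at h1
      exact ⟨e.2.im, -e.2.re, by linarith⟩
    · unfold cg
      simp

theorem sharp_nm_pos {n : ℕ} (hn : 0 < n) {e : G × G} (h : En n e) : 0 < nm e.1 ∧ 0 < nm e.2 := by
  have h1 : det e.1 e.2 ≠ 0 := by
    rw [h.1]
    exact_mod_cast hn.ne'
  constructor
  · apply nm_pos
    intro h0
    apply h1
    rw [h0]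
    simp [det]
  · apply nm_pos
    intro h0
    apply h1
    rw [h0]
    simp [det]

theorem sharp_lo {e : G × G} (h1 : 0 < nm e.1) (h2 : 0 < nm e.2) (s : ℝ) :
    s ≤ tE e ↔ Real.exp s * (nm e.1 : ℝ) ≤ (nm e.2 : ℝ) := by
  have h1' : (0 : ℝ) < nm e.1 := by exact_mod_cast h1
  have h2' : (0 : ℝ) < nm e.2 := by exact_mod_cast h2
  unfold tE
  rw [le_sub_iff_add_le, Real.le_log_iff_exp_le h2', Real.exp_add, Real.exp_log h1']

theorem sharp_hi {e : G × G} (h1 : 0 < nm e.1) (h2 : 0 < nm e.2) (t : ℝ) :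
    tE e < t ↔ (nm e.2 : ℝ) < Real.exp t * (nm e.1 : ℝ) := by
  rw [← not_le, sharp_lo h1 h2, not_le]

open Classical in
theorem sharp_card (s t x : ℝ) :
    ((EN 1 x).filter (fun e => s ≤ tE e ∧ tE e < t)).card = (NE 1 (1, 1) s t x).ncard := by
  rw [← Set.ncard_coe_finset]
  congr 1
  ext e
  rw [coe_filter]
  show e ∈ EN 1 x ∧ s ≤ tE e ∧ tE e < t ↔ _
  rw [mem_EN one_pos]
  unfold NE
  rw [Set.mem_ofPred_eq]
  constructor
  · rintro ⟨⟨h1, h2⟩, h3, h4⟩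
    obtain ⟨h5, h6⟩ := sharp_nm_pos one_pos h1
    refine ⟨((sharp_En_iff e).1 h1).1, ((sharp_En_iff e).1 h1).2, h2, (sharp_lo h5 h6 s).1 h3,
      (sharp_hi h5 h6 t).1 h4, ?_, ?_⟩ <;> simp [cg]
  · rintro ⟨h1, h2, h3, h4, h5, -, -⟩
    have h : En 1 e := (sharp_En_iff e).2 ⟨h1, h2⟩
    obtain ⟨h6, h7⟩ := sharp_nm_pos one_pos h
    exact ⟨⟨h, h3⟩, (sharp_lo h6 h7 s).2 h4, (sharp_hi h6 h7 t).2 h5⟩

/-- PROOF. `EN 1 x` with `s ≤ tE < t` is `NE 1 0 s t x` (every pair with `det = 1`, `0 < dot` is in `En 1`: `V` is primitive, congruences modulo 1 are trivial; `exp s nm V ≤ nm V'` iff `s ≤ tE`); `equid 1`. -/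
theorem en_lim : ∃ κ : ℝ, 0 ≤ κ ∧ ∀ s t : ℝ, s ≤ t → Tendsto (fun x : ℝ =>
    (((EN 1 x).filter (fun e => s ≤ tE e ∧ tE e < t)).card : ℝ) / x) atTop (nhds (κ * (t - s))) := by
  obtain ⟨κ, hκ⟩ := equid 1 one_pos
  have h := hκ (1, 1) (by simp)
  have h' : ∀ s t : ℝ, s ≤ t → Tendsto (fun x : ℝ =>
    (((EN 1 x).filter (fun e => s ≤ tE e ∧ tE e < t)).card : ℝ) / x) atTop (nhds (κ * (t - s))) := by
    intro s t hst
    have h1 := h s t hst
    have h2 : (fun x : ℝ => (((EN 1 x).filter (fun e => s ≤ tE e ∧ tE e < t)).card : ℝ) / x) =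
        fun x : ℝ => ((NE 1 (1, 1) s t x).ncard : ℝ) / x := by
      funext x
      rw [← sharp_card s t x]
    rw [h2]
    exact h1
  refine ⟨κ, ?_, h'⟩
  have h1 := h' 0 1 zero_le_one
  rw [sub_zero, mul_one] at h1
  refine ge_of_tendsto h1 ?_
  filter_upwards [eventually_gt_atTop 0] with x hx
  positivity

/-- trapezoid: `1` on `[a, b]`, `0` outside `[a - δ, b + δ]` -/
noncomputable def sharp_tz (a b δ y : ℝ) : ℝ := max 0 (min 1 (min ((y - (a - δ)) / δ) ((b + δ - y) / δ)))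

theorem sharp_tz_cont (a b δ : ℝ) : Continuous (sharp_tz a b δ) := by
  unfold sharp_tz
  fun_prop

theorem sharp_tz_nonneg (a b δ y : ℝ) : 0 ≤ sharp_tz a b δ y := le_max_left _ _

theorem sharp_tz_le_one (a b δ y : ℝ) : sharp_tz a b δ y ≤ 1 :=
  max_le zero_le_one (min_le_left _ _)

theorem sharp_tz_one {a b δ y : ℝ} (hδ : 0 < δ) (h1 : a ≤ y) (h2 : y ≤ b) : sharp_tz a b δ y = 1 := by
  unfold sharp_tz
  have h3 : 1 ≤ (y - (a - δ)) / δ := by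
    rw [le_div_iff₀ hδ]
    linarith
  have h4 : 1 ≤ (b + δ - y) / δ := by
    rw [le_div_iff₀ hδ]
    linarith
  rw [min_eq_left (le_min h3 h4), max_eq_right zero_le_one]

theorem sharp_tz_zero_left {a b δ y : ℝ} (hδ : 0 < δ) (h : y ≤ a - δ) : sharp_tz a b δ y = 0 := by
  unfold sharp_tz
  refine max_eq_left ((min_le_right _ _).trans ((min_le_left _ _).trans ?_))
  exact div_nonpos_of_nonpos_of_nonneg (by linarith) hδ.le

theorem sharp_tz_zero_right {a b δ y : ℝ} (hδ : 0 < δ) (h : b + δ ≤ y) : sharp_tz a b δ y = 0 := by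
  unfold sharp_tz
  refine max_eq_left ((min_le_right _ _).trans ((min_le_right _ _).trans ?_))
  exact div_nonpos_of_nonpos_of_nonneg (by linarith) hδ.le

/-- the smooth cut-off -/
noncomputable def sharp_W (s t δ : ℝ) (y u : ℝ) : ℂ :=
  ((sharp_tz δ 1 (δ / 2) y * sharp_tz s t δ u : ℝ) : ℂ)

theorem sharp_TF (s t δ : ℝ) (hδ : 0 < δ) : TF (1 + δ) (sharp_W s t δ) := by
  refine ⟨?_, ?_, ?_, ?_⟩
  · unfold sharp_W Function.uncurry
    exact Complex.continuous_ofReal.comp (((sharp_tz_cont _ _ _).comp continuous_fst).mul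
      ((sharp_tz_cont _ _ _).comp continuous_snd))
  · refine HasCompactSupport.intro (K := Set.Icc 0 (1 + δ) ×ˢ Set.Icc (s - δ) (t + δ))
      (isCompact_Icc.prod isCompact_Icc) ?_
    rintro ⟨y, u⟩ hx
    show sharp_W s t δ y u = 0
    unfold sharp_W
    by_cases h1 : y < 0
    · rw [sharp_tz_zero_left (by linarith) (by linarith)]
      simp
    by_cases h2 : 1 + δ < y
    · rw [sharp_tz_zero_right (by linarith) (by linarith)]
      simp
    by_cases h3 : u < s - δ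
    · rw [sharp_tz_zero_left (a := s) (b := t) hδ (by linarith)]
      simp
    by_cases h4 : t + δ < u
    · rw [sharp_tz_zero_right (a := s) (b := t) hδ (by linarith)]
      simp
    exfalso
    exact hx ⟨⟨not_lt.1 h1, not_lt.1 h2⟩, ⟨not_lt.1 h3, not_lt.1 h4⟩⟩
  · intro y u hy
    unfold sharp_W
    rw [sharp_tz_zero_left (by linarith) (by linarith)]
    simp
  · intro y u hy
    unfold sharp_W
    rw [sharp_tz_zero_right (by linarith) (by linarith)]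
    simp

/-- indicator -/
noncomputable def sharp_i (p : Prop) : ℝ := by
  classical exact if p then 1 else 0

theorem sharp_i_nonneg (p : Prop) : 0 ≤ sharp_i p := by
  classical
  unfold sharp_i
  split_ifs <;> simp

theorem sharp_i_pos {p : Prop} (h : p) : sharp_i p = 1 := by
  classical
  unfold sharp_i
  rw [if_pos h]

theorem sharp_i_neg {p : Prop} (h : ¬ p) : sharp_i p = 0 := by
  classical
  unfold sharp_i
  rw [if_neg h]

theorem sharp_point (s t δ X y u : ℝ) (hδ : 0 < δ) (hX : 0 < X) :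
    |sharp_i (y ≤ X ∧ s ≤ u ∧ u ≤ t) - sharp_tz δ 1 (δ / 2) (y / X) * sharp_tz s t δ u| ≤
      sharp_i (y ≤ δ * X ∧ s - δ ≤ u ∧ u < t + 2 * δ) + sharp_i (X < y ∧ s - δ ≤ u ∧ u < t + 2 * δ) +
        sharp_i (s - δ ≤ u ∧ u < s) + sharp_i (t ≤ u ∧ u < t + 2 * δ) := by
  have a1 := sharp_i_nonneg (y ≤ δ * X ∧ s - δ ≤ u ∧ u < t + 2 * δ)
  have a2 := sharp_i_nonneg (X < y ∧ s - δ ≤ u ∧ u < t + 2 * δ)
  have a3 := sharp_i_nonneg (s - δ ≤ u ∧ u < s)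
  have a4 := sharp_i_nonneg (t ≤ u ∧ u < t + 2 * δ)
  have b1 : |sharp_i (y ≤ X ∧ s ≤ u ∧ u ≤ t) - sharp_tz δ 1 (δ / 2) (y / X) * sharp_tz s t δ u| ≤ 1 := by
    have c1 := sharp_tz_nonneg δ 1 (δ / 2) (y / X)
    have c2 := sharp_tz_le_one δ 1 (δ / 2) (y / X)
    have c3 := sharp_tz_nonneg s t δ u
    have c4 := sharp_tz_le_one s t δ u
    have c5 : sharp_tz δ 1 (δ / 2) (y / X) * sharp_tz s t δ u ≤ 1 := mul_le_one₀ c2 c3 c4
    have c6 : 0 ≤ sharp_tz δ 1 (δ / 2) (y / X) * sharp_tz s t δ u := mul_nonneg c1 c3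
    have c7 := sharp_i_nonneg (y ≤ X ∧ s ≤ u ∧ u ≤ t)
    have c8 : sharp_i (y ≤ X ∧ s ≤ u ∧ u ≤ t) ≤ 1 := by
      classical
      unfold sharp_i
      split_ifs <;> simp
    rw [abs_le]
    constructor <;> linarith
  -- outside the support in `u`
  by_cases h1 : u < s - δ
  · rw [sharp_tz_zero_left (a := s) (b := t) hδ h1.le, sharp_i_neg (p := y ≤ X ∧ s ≤ u ∧ u ≤ t)
      (by rintro ⟨-, h, -⟩; linarith)]
    simp only [mul_zero, sub_zero, abs_zero]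
    linarith
  by_cases h2 : t + 2 * δ ≤ u
  · rw [sharp_tz_zero_right (a := s) (b := t) hδ (by linarith), sharp_i_neg (p := y ≤ X ∧ s ≤ u ∧ u ≤ t)
      (by rintro ⟨-, -, h⟩; linarith)]
    simp only [mul_zero, sub_zero, abs_zero]
    linarith
  rw [not_lt] at h1
  rw [not_le] at h2
  by_cases h3 : y ≤ δ * X
  · have := sharp_i_pos (p := y ≤ δ * X ∧ s - δ ≤ u ∧ u < t + 2 * δ) ⟨h3, h1, h2⟩
    linarith
  by_cases h4 : X < y
  · have := sharp_i_pos (p := X < y ∧ s - δ ≤ u ∧ u < t + 2 * δ) ⟨h4, h1, h2⟩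
    linarith
  by_cases h5 : u < s
  · have := sharp_i_pos (p := s - δ ≤ u ∧ u < s) ⟨h1, h5⟩
    linarith
  by_cases h6 : t < u
  · have := sharp_i_pos (p := t ≤ u ∧ u < t + 2 * δ) ⟨h6.le, h2⟩
    linarith
  rw [not_le] at h3
  rw [not_lt] at h4 h5 h6
  rw [sharp_i_pos (p := y ≤ X ∧ s ≤ u ∧ u ≤ t) ⟨h4, h5, h6⟩, sharp_tz_one hδ h5 h6,
    sharp_tz_one (by linarith) ((le_div_iff₀ hX).2 h3.le) ((div_le_one hX).2 h4)]
  simp only [mul_one, sub_self, abs_zero]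
  linarith

/-- the count -/
noncomputable def sharp_N (a b x : ℝ) : ℝ := (((EN 1 x).filter (fun e => a ≤ tE e ∧ tE e < b)).card : ℝ)

theorem sharp_sum_i (S : Finset (G × G)) (p : G × G → Prop) [DecidablePred p] :
    ∑ e ∈ S, sharp_i (p e) = ((S.filter p).card : ℝ) := by
  rw [Finset.card_filter]
  push_cast
  refine Finset.sum_congr rfl fun e _ => ?_
  by_cases h : p e
  · rw [sharp_i_pos h, if_pos h]
  · rw [sharp_i_neg h, if_neg h]

theorem sharp_diff (Φ : G × G → ℂ) (hΦ : ∀ e, ‖Φ e‖ ≤ 1) (s t δ X : ℝ) (hδ : 0 < δ) (hX : 0 < X) :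
    ‖(∑ e ∈ (EN 1 X).filter (fun e => s ≤ tE e ∧ tE e ≤ t), Φ e) -
      ∑ e ∈ EN 1 ((1 + δ) * X), Φ e * sharp_W s t δ (mE e / X) (tE e)‖ ≤
      sharp_N (s - δ) (t + 2 * δ) (δ * X) + (sharp_N (s - δ) (t + 2 * δ) ((1 + δ) * X) -
        sharp_N (s - δ) (t + 2 * δ) X) + sharp_N (s - δ) s ((1 + δ) * X) +
        sharp_N t (t + 2 * δ) ((1 + δ) * X) := by
  classical
  have hle : X ≤ (1 + δ) * X := by nlinarith
  have e1 : (∑ e ∈ (EN 1 X).filter (fun e => s ≤ tE e ∧ tE e ≤ t), Φ e) =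
      ∑ e ∈ EN 1 ((1 + δ) * X), Φ e * (sharp_i (mE e ≤ X ∧ s ≤ tE e ∧ tE e ≤ t) : ℂ) := by
    have e2 : (EN 1 X).filter (fun e => s ≤ tE e ∧ tE e ≤ t) =
        (EN 1 ((1 + δ) * X)).filter (fun e => mE e ≤ X ∧ s ≤ tE e ∧ tE e ≤ t) := by
      ext e
      rw [mem_filter, mem_filter, mem_EN one_pos, mem_EN one_pos]
      constructor
      · rintro ⟨⟨h1, h2⟩, h3⟩
        exact ⟨⟨h1, h2.trans hle⟩, h2, h3⟩
      · rintro ⟨⟨h1, -⟩, h2, h3⟩
        exact ⟨⟨h1, h2⟩, h3⟩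
    rw [e2, Finset.sum_filter]
    refine Finset.sum_congr rfl fun e _ => ?_
    by_cases h : mE e ≤ X ∧ s ≤ tE e ∧ tE e ≤ t
    · rw [if_pos h, sharp_i_pos h]
      simp
    · rw [if_neg h, sharp_i_neg h]
      simp
  rw [e1, ← Finset.sum_sub_distrib]
  have e3 : ∀ e ∈ EN 1 ((1 + δ) * X), ‖Φ e * (sharp_i (mE e ≤ X ∧ s ≤ tE e ∧ tE e ≤ t) : ℂ) -
      Φ e * sharp_W s t δ (mE e / X) (tE e)‖ ≤
      sharp_i (mE e ≤ δ * X ∧ s - δ ≤ tE e ∧ tE e < t + 2 * δ) +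
        sharp_i (X < mE e ∧ s - δ ≤ tE e ∧ tE e < t + 2 * δ) +
        sharp_i (s - δ ≤ tE e ∧ tE e < s) + sharp_i (t ≤ tE e ∧ tE e < t + 2 * δ) := by
    intro e _
    rw [← mul_sub, norm_mul]
    unfold sharp_W
    rw [← Complex.ofReal_sub, Complex.norm_real, Real.norm_eq_abs]
    calc ‖Φ e‖ * _ ≤ 1 * _ := mul_le_mul_of_nonneg_right (hΦ e) (abs_nonneg _)
      _ ≤ _ := by
        rw [one_mul]
        exact sharp_point s t δ X (mE e) (tE e) hδ hX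
  refine (norm_sum_le_of_le _ e3).trans ?_
  rw [Finset.sum_add_distrib, Finset.sum_add_distrib, Finset.sum_add_distrib]
  have f1 : ∑ e ∈ EN 1 ((1 + δ) * X), sharp_i (mE e ≤ δ * X ∧ s - δ ≤ tE e ∧ tE e < t + 2 * δ) =
      sharp_N (s - δ) (t + 2 * δ) (δ * X) := by
    rw [sharp_sum_i]
    unfold sharp_N
    congr 2
    ext e
    rw [mem_filter, mem_filter, mem_EN one_pos, mem_EN one_pos]
    constructor
    · rintro ⟨⟨h1, -⟩, h2, h3⟩
      exact ⟨⟨h1, h2⟩, h3⟩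
    · rintro ⟨⟨h1, h2⟩, h3⟩
      exact ⟨⟨h1, h2.trans (by nlinarith)⟩, h2, h3⟩
  have f2 : ∑ e ∈ EN 1 ((1 + δ) * X), sharp_i (X < mE e ∧ s - δ ≤ tE e ∧ tE e < t + 2 * δ) =
      sharp_N (s - δ) (t + 2 * δ) ((1 + δ) * X) - sharp_N (s - δ) (t + 2 * δ) X := by
    rw [eq_sub_iff_add_eq]
    have g1 : sharp_N (s - δ) (t + 2 * δ) X =
        ∑ e ∈ EN 1 ((1 + δ) * X), sharp_i (mE e ≤ X ∧ s - δ ≤ tE e ∧ tE e < t + 2 * δ) := by
      rw [sharp_sum_i]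
      unfold sharp_N
      congr 2
      ext e
      rw [mem_filter, mem_filter, mem_EN one_pos, mem_EN one_pos]
      constructor
      · rintro ⟨⟨h1, h2⟩, h3⟩
        exact ⟨⟨h1, h2.trans hle⟩, h2, h3⟩
      · rintro ⟨⟨h1, -⟩, h2, h3⟩
        exact ⟨⟨h1, h2⟩, h3⟩
    rw [g1, ← Finset.sum_add_distrib]
    unfold sharp_N
    rw [← sharp_sum_i]
    refine Finset.sum_congr rfl fun e _ => ?_
    by_cases h : s - δ ≤ tE e ∧ tE e < t + 2 * δ
    · by_cases h' : mE e ≤ X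
      · rw [sharp_i_pos h, sharp_i_neg (p := X < mE e ∧ s - δ ≤ tE e ∧ tE e < t + 2 * δ)
          (fun h'' => absurd h''.1 (not_lt.2 h')), sharp_i_pos ⟨h', h⟩, zero_add]
      · rw [sharp_i_pos h, sharp_i_pos (p := X < mE e ∧ s - δ ≤ tE e ∧ tE e < t + 2 * δ) ⟨not_le.1 h', h⟩,
          sharp_i_neg (fun h'' => h' h''.1), add_zero]
    · rw [sharp_i_neg h, sharp_i_neg (p := X < mE e ∧ s - δ ≤ tE e ∧ tE e < t + 2 * δ) (fun h'' => h h''.2),
        sharp_i_neg (fun h'' => h h''.2), add_zero]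
  have f3 : ∑ e ∈ EN 1 ((1 + δ) * X), sharp_i (s - δ ≤ tE e ∧ tE e < s) = sharp_N (s - δ) s ((1 + δ) * X) := by
    rw [sharp_sum_i]
    rfl
  have f4 : ∑ e ∈ EN 1 ((1 + δ) * X), sharp_i (t ≤ tE e ∧ tE e < t + 2 * δ) = sharp_N t (t + 2 * δ) ((1 + δ) * X) := by
    rw [sharp_sum_i]
    rfl
  rw [f1, f2, f3, f4]

theorem sharp_N_lim {κ : ℝ} (hκ : ∀ s t : ℝ, s ≤ t → Tendsto (fun x : ℝ =>
    (((EN 1 x).filter (fun e => s ≤ tE e ∧ tE e < t)).card : ℝ) / x) atTop (nhds (κ * (t - s))))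
    (a b c : ℝ) (hab : a ≤ b) (hc : 0 < c) :
    Tendsto (fun X : ℝ => sharp_N a b (c * X) / X) atTop (nhds (c * (κ * (b - a)))) := by
  have h1 := ((hκ a b hab).comp (tendsto_id.const_mul_atTop hc)).const_mul c
  refine h1.congr' ?_
  filter_upwards [eventually_gt_atTop 0] with X hX
  show c * (sharp_N a b (c * X) / (c * X)) = _
  field_simp

/-- PROOF. Let `0 < δ < 1`, `W y u = α y * β u` (real, continuous, between 0 and 1): `α = 1` on `[δ, 1]`, `0` outside `[δ/2, 1 + δ]`; `β = 1` on `[s, t]`, `0` outside `[s - δ, t + δ]`: `TF (1+δ) W`. The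
difference of the sharp sum and `∑_(EN 1 ((1+δ) X)) Φ W` is at most the number of `e ∈ EN 1 ((1 + δ) X)` with (`mE ≤ δ X` or `mE > X`) and `s - 1 ≤ tE < t + 2`, or with
`tE` within `δ` of `s` or of `t`; by `en_lim` (`#(EN 1 (δ X))`, `#(EN 1 ((1+δ) X)) - #(EN 1 X)` with the condition, ...) its limsup divided by `X` is `≤ C δ`. -/
theorem sharp (Φ : G × G → ℂ) (hΦ : ∀ e, ‖Φ e‖ ≤ 1)
    (H : ∀ (b : ℝ) (W : ℝ → ℝ → ℂ), TF b W →
      Tendsto (fun X : ℝ => (∑ e ∈ EN 1 (b * X), Φ e * W (mE e / X) (tE e)) / X) atTop (nhds 0))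
    (s t : ℝ) (hst : s ≤ t) :
    Tendsto (fun X : ℝ => (∑ e ∈ (EN 1 X).filter (fun e => s ≤ tE e ∧ tE e ≤ t), Φ e) / X) atTop (nhds 0) := by
  obtain ⟨κ, hκ0, hκ⟩ := en_lim
  rw [Metric.tendsto_nhds]
  intro ε hε
  -- choice of `δ`
  obtain ⟨δ, hδ, hδ1, hδε⟩ : ∃ δ : ℝ, 0 < δ ∧ δ ≤ 1 ∧ κ * δ * (2 * (t - s) + 12) < ε / 2 := by
    refine ⟨min 1 (ε / (4 * (κ * (2 * (t - s) + 12) + 1))), ?_, min_le_left _ _, ?_⟩
    · apply lt_min one_pos
      have : 0 ≤ κ * (2 * (t - s) + 12) := mul_nonneg hκ0 (by linarith)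
      positivity
    · have h0 : 0 ≤ κ * (2 * (t - s) + 12) := mul_nonneg hκ0 (by linarith)
      have h1 : min 1 (ε / (4 * (κ * (2 * (t - s) + 12) + 1))) ≤ ε / (4 * (κ * (2 * (t - s) + 12) + 1)) :=
        min_le_right _ _
      have h2 : κ * (2 * (t - s) + 12) * min 1 (ε / (4 * (κ * (2 * (t - s) + 12) + 1))) ≤
          κ * (2 * (t - s) + 12) * (ε / (4 * (κ * (2 * (t - s) + 12) + 1))) :=
        mul_le_mul_of_nonneg_left h1 h0
      have h3 : κ * (2 * (t - s) + 12) * (ε / (4 * (κ * (2 * (t - s) + 12) + 1))) ≤ ε / 4 := by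
        rw [mul_div_assoc', div_le_div_iff₀ (by positivity) (by norm_num)]
        nlinarith
      nlinarith
  have h1 := H (1 + δ) (sharp_W s t δ) (sharp_TF s t δ hδ)
  have h2 : Tendsto (fun X : ℝ => sharp_N (s - δ) (t + 2 * δ) (δ * X) / X +
      (sharp_N (s - δ) (t + 2 * δ) ((1 + δ) * X) / X - sharp_N (s - δ) (t + 2 * δ) (1 * X) / X) +
      sharp_N (s - δ) s ((1 + δ) * X) / X + sharp_N t (t + 2 * δ) ((1 + δ) * X) / X) atTop
      (nhds (δ * (κ * (t + 2 * δ - (s - δ))) + ((1 + δ) * (κ * (t + 2 * δ - (s - δ))) -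
        1 * (κ * (t + 2 * δ - (s - δ)))) + (1 + δ) * (κ * (s - (s - δ))) + (1 + δ) * (κ * (t + 2 * δ - t)))) :=
    ((((sharp_N_lim hκ _ _ _ (by linarith) hδ).add
      ((sharp_N_lim hκ _ _ _ (by linarith) (by linarith)).sub
        (sharp_N_lim hκ _ _ _ (by linarith) one_pos))).add
      (sharp_N_lim hκ _ _ _ (by linarith) (by linarith))).add
      (sharp_N_lim hκ _ _ _ (by linarith) (by linarith)))
  have h3 : δ * (κ * (t + 2 * δ - (s - δ))) + ((1 + δ) * (κ * (t + 2 * δ - (s - δ))) -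
        1 * (κ * (t + 2 * δ - (s - δ)))) + (1 + δ) * (κ * (s - (s - δ))) + (1 + δ) * (κ * (t + 2 * δ - t)) <
        ε / 2 := by
    have h4 : δ * (κ * (t + 2 * δ - (s - δ))) + ((1 + δ) * (κ * (t + 2 * δ - (s - δ))) -
        1 * (κ * (t + 2 * δ - (s - δ)))) + (1 + δ) * (κ * (s - (s - δ))) + (1 + δ) * (κ * (t + 2 * δ - t)) =
        κ * δ * (2 * (t - s) + 3 + 9 * δ) := by ring
    rw [h4]
    refine lt_of_le_of_lt ?_ hδε
    exact mul_le_mul_of_nonneg_left (by linarith) (mul_nonneg hκ0 hδ.le)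
  have h5 := (tendsto_order.1 h2).2 _ h3
  have h6 := (Metric.tendsto_nhds.1 h1) (ε / 2) (by linarith)
  filter_upwards [h5, h6, eventually_gt_atTop 0] with X g1 g2 hX
  rw [dist_zero_right] at g2 ⊢
  have g3 := sharp_diff Φ hΦ s t δ X hδ hX
  rw [one_mul] at g1
  set F := ∑ e ∈ (EN 1 X).filter (fun e => s ≤ tE e ∧ tE e ≤ t), Φ e with hF
  set K := ∑ e ∈ EN 1 ((1 + δ) * X), Φ e * sharp_W s t δ (mE e / X) (tE e) with hK
  have g4 : F / X = (F - K) / X + K / X := by ring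
  rw [g4]
  have g5 : ‖(F - K) / (X : ℂ)‖ < ε / 2 := by
    rw [norm_div, Complex.norm_real, Real.norm_eq_abs, abs_of_pos hX]
    refine lt_of_le_of_lt (div_le_div_of_nonneg_right g3 hX.le) ?_
    refine lt_of_eq_of_lt ?_ g1
    ring
  calc ‖(F - K) / (X : ℂ) + K / X‖ ≤ ‖(F - K) / (X : ℂ)‖ + ‖K / (X : ℂ)‖ := norm_add_le _ _
    _ < ε / 2 + ε / 2 := add_lt_add g5 g2
    _ = ε := by ring

end Pool.Agent.OmEq
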