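import Pool.Agent.Lib_MP_f1a94e_eq.Defs
import Pool.Agent.Lib_MP_f1a94e_aq.ZSmooth

/-!
# Piece PRODB: bound for the products
-/

set_option autoImplicit false

namespace Pool.Agent.OmEq

open Finset Pool.Agent.OmAll MeasureTheory

/-- the phase of one prime -/
theorem prodB_re {E : Finset ℕ} {g : ℕ → ℂ}
    (hg1 : ∀ p : ℕ, p.Prime → p % 4 = 1 → p ∉ E → ‖g p‖ = 1) {T p : ℕ} (hp : p ∈ PE E T) (τ : ℝ) :
    |(g p * Complex.exp (-(2 * τ * Real.log p : ℝ) * Complex.I)).re| ≤ 1 := by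
  obtain ⟨-, h2, h3, h4⟩ := mem_PE.1 hp
  refine (Complex.abs_re_le_norm _).trans ?_
  rw [norm_mul, hg1 p h2 h3 h4, one_mul]
  have : (-(2 * τ * Real.log p : ℝ) * Complex.I : ℂ) = ((-(2 * τ * Real.log p) : ℝ) : ℂ) * Complex.I := by
    push_cast
    ring
  rw [this, Complex.norm_exp_ofReal_mul_I]

theorem prodB_five {E : Finset ℕ} {T p : ℕ} (hp : p ∈ PE E T) : 5 ≤ p := by
  obtain ⟨h1, h2, h3, h4⟩ := mem_PE.1 hp
  exact ZSm.PT_five (ZSm.mem_PT.2 ⟨h1, h2, h3⟩)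

theorem prodB_Ap {p : ℕ} (hp : 5 ≤ p) : 2 * Ap p ≤ 4 / 5 := by
  obtain ⟨-, h2, -⟩ := Ap_bound p hp
  refine h2.trans ?_
  have : (5 : ℝ) ≤ p := by exact_mod_cast hp
  apply div_le_div_of_nonneg_left (by norm_num) (by norm_num) this

theorem prodB_factor {p : ℕ} (hp : 5 ≤ p) {z c : ℝ} (hz : 0 < z) (hc : |c| ≤ 1) :
    0 ≤ 1 + 2 * Ap p * (z - 1 + z * c) := by
  obtain ⟨h1, -, -⟩ := Ap_bound p hp
  have h2 := prodB_Ap hp
  have h3 : -1 ≤ c := (abs_le.1 hc).1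
  have h4 : -1 ≤ z - 1 + z * c := by nlinarith
  nlinarith

theorem prodB_prod (E : Finset ℕ) (g : ℕ → ℂ) (hg1 : ∀ p : ℕ, p.Prime → p % 4 = 1 → p ∉ E → ‖g p‖ = 1)
    (R : ℝ) (hNP : NP E g R) (z : ℝ) (hz : 1 / 2 < z) (hz1 : z < 1)
    (B : ℝ) (hBpos : 0 < B) :
    ∃ K : ℝ, ∀ T : ℕ, 3 ≤ T → ∀ τ : ℝ, 0 < |τ| → |τ| ≤ B →
      ∏ p ∈ PE E T,
        (1 + 2 * Ap p * (z - 1 + z * (g p * Complex.exp (-(2 * τ * Real.log p : ℝ) * Complex.I)).re)) ≤
      (Real.log T) ^ (2 * (z - 1)) * (Real.exp K *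
        Real.exp (2 * z * R * max 0 (Real.log (1 / |τ|)))) := by
  obtain ⟨C1, hC1⟩ := mu_bound
  obtain ⟨C2, hC2⟩ := hNP B hBpos
  have hs : Summable (fun p : ℕ => 12 / (p : ℝ) ^ 2) := by
    have := (Real.summable_one_div_nat_pow (p := 2)).mpr (by norm_num)
    refine (this.mul_left 12).congr (fun p => ?_)
    ring
  obtain ⟨S, hS⟩ : ∃ S : ℝ, S = ∑' p : ℕ, 12 / (p : ℝ) ^ 2 := ⟨_, rfl⟩
  refine ⟨|C1| + E.card + 4 * |C2| + S, fun T hT τ hτ hτB => ?_⟩
  have hlog := ZSm.one_le_logT hT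
  obtain ⟨c, hc⟩ : ∃ c : ℕ → ℝ, ∀ p, c p =
    (g p * Complex.exp (-(2 * τ * Real.log p : ℝ) * Complex.I)).re := ⟨_, fun _ => rfl⟩
  have hc1 : ∀ p ∈ PE E T, |c p| ≤ 1 := by
    intro p hp
    rw [hc]
    exact prodB_re hg1 hp τ
  simp only [← hc]
  have hNP' : ∑ p ∈ PE E T, c p / p ≤ R / 2 * max 0 (Real.log (1 / |τ|)) + C2 := by
    have := hC2 T hT τ hτ hτB
    simp only [← hc] at this
    exact this
  have h1 : ∏ p ∈ PE E T, (1 + 2 * Ap p * (z - 1 + z * c p)) ≤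
      Real.exp (∑ p ∈ PE E T, 2 * Ap p * (z - 1 + z * c p)) := by
    rw [Real.exp_sum]
    apply prod_le_prod
    · intro p hp
      exact prodB_factor (prodB_five hp) (by linarith) (hc1 p hp)
    · intro p hp
      have := Real.add_one_le_exp (2 * Ap p * (z - 1 + z * c p))
      linarith
  refine h1.trans ?_
  have h2 : (Real.log T) ^ (2 * (z - 1)) = Real.exp (Real.log (Real.log T) * (2 * (z - 1))) :=
    Real.rpow_def_of_pos (by linarith) _
  rw [h2, ← Real.exp_add, ← Real.exp_add]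
  apply Real.exp_le_exp.2
  -- the sum
  have h3 : ∑ p ∈ PE E T, 2 * Ap p * (z - 1 + z * c p) =
      (z - 1) * ∑ p ∈ PE E T, 2 * Ap p + z * ∑ p ∈ PE E T, 2 * Ap p * c p := by
    rw [mul_sum, mul_sum, ← sum_add_distrib]
    refine sum_congr rfl fun p _ => ?_
    ring
  have h4 : muT T ≤ ∑ p ∈ PE E T, 2 * Ap p + E.card := by
    unfold muT PE
    rw [← sum_inter_add_sum_sdiff (PT T) E]
    have h5 : ∑ p ∈ PT T ∩ E, 2 * Ap p ≤ E.card := by
      have h6 : ∑ p ∈ PT T ∩ E, 2 * Ap p ≤ ∑ _p ∈ PT T ∩ E, (1 : ℝ) := by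
        apply sum_le_sum
        intro p hp
        have := prodB_Ap (ZSm.PT_five (mem_inter.1 hp).1)
        linarith
      rw [sum_const, nsmul_eq_mul, mul_one] at h6
      refine h6.trans ?_
      exact_mod_cast card_le_card inter_subset_right
    linarith
  have h5 : (z - 1) * ∑ p ∈ PE E T, 2 * Ap p ≤
      Real.log (Real.log T) * (2 * (z - 1)) + |C1| + E.card := by
    have h6 := (abs_le.1 (hC1 T hT)).1
    have h7 : 2 * Real.log (Real.log T) - |C1| - E.card ≤ ∑ p ∈ PE E T, 2 * Ap p := by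
      have := le_abs_self C1
      linarith
    have h8 : (z - 1) * ∑ p ∈ PE E T, 2 * Ap p ≤
        (z - 1) * (2 * Real.log (Real.log T) - |C1| - E.card) :=
      mul_le_mul_of_nonpos_left h7 (by linarith)
    have h9 : (1 - z) * (|C1| + E.card) ≤ 1 * (|C1| + E.card) :=
      mul_le_mul_of_nonneg_right (by linarith) (by positivity)
    linarith
  have h6 : ∑ p ∈ PE E T, 2 * Ap p * c p ≤ 4 * ∑ p ∈ PE E T, c p / p + S := by
    have h7 : ∀ p ∈ PE E T, 2 * Ap p * c p ≤ 4 * (c p / p) + 12 / (p : ℝ) ^ 2 := by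
      intro p hp
      obtain ⟨-, h8, h9⟩ := Ap_bound p (prodB_five hp)
      have h10 := hc1 p hp
      have h11 : 2 * Ap p * c p - 4 * (c p / p) = (4 / (p : ℝ) - 2 * Ap p) * (-c p) := by ring
      have h12 : (4 / (p : ℝ) - 2 * Ap p) * (-c p) ≤ (4 / (p : ℝ) - 2 * Ap p) * 1 :=
        mul_le_mul_of_nonneg_left (by linarith [(abs_le.1 h10).1]) (by linarith)
      linarith
    have h8 := sum_le_sum h7
    rw [sum_add_distrib, ← mul_sum] at h8
    have h9 : ∑ p ∈ PE E T, 12 / (p : ℝ) ^ 2 ≤ S := by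
      rw [hS]
      exact hs.sum_le_tsum _ (fun p _ => by positivity)
    linarith
  have hS0 : 0 ≤ S := by rw [hS]; exact tsum_nonneg (fun p => by positivity)
  have h7 : z * ∑ p ∈ PE E T, 2 * Ap p * c p ≤
      2 * z * R * max 0 (Real.log (1 / |τ|)) + 4 * |C2| + S := by
    have h8 : ∑ p ∈ PE E T, 2 * Ap p * c p ≤ 4 * (R / 2 * max 0 (Real.log (1 / |τ|)) + C2) + S := by
      linarith
    have h9 := mul_le_mul_of_nonneg_left h8 (by linarith : 0 ≤ z)
    have h10 : z * (4 * C2 + S) ≤ 1 * (4 * |C2| + S) := by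
      have e1 : z * (4 * C2 + S) ≤ z * (4 * |C2| + S) :=
        mul_le_mul_of_nonneg_left (by linarith [le_abs_self C2]) (by linarith)
      have e2 : z * (4 * |C2| + S) ≤ 1 * (4 * |C2| + S) :=
        mul_le_mul_of_nonneg_right hz1.le (by positivity)
      linarith
    linarith
  rw [h3]
  linarith

/-- the integrable majorant -/
theorem prodB_major (R z B C : ℝ) (hR0 : 0 ≤ R) (hR1 : R ≤ 1) (hz : 1 / 2 < z) (hz1 : z < 1)
    (hzR : R < 1 → 2 * z * R < 1) (hBpos : 0 < B) (φ : ℝ → ℂ) (hφ : Continuous φ)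
    (hB : ∀ τ, B ≤ |τ| → φ τ = 0) (h0 : R < 1 ∨ ∀ τ, ‖φ τ‖ ≤ C * |τ|) :
    ∃ h : ℝ → ℝ, Integrable h ∧ ∀ τ : ℝ, 0 < |τ| →
      ‖φ τ‖ ^ 2 * Real.exp (2 * z * R * max 0 (Real.log (1 / |τ|))) ≤ h τ := by
  have hI : Integrable (Set.indicator (Set.Icc (-B) B) (fun _ : ℝ => (1 : ℝ))) := by
    rw [integrable_indicator_iff measurableSet_Icc]
    exact (continuous_const.integrableOn_Icc)
  have hMle : ∀ τ : ℝ, 0 < |τ| → 1 ≤ |τ| →
      Real.exp (2 * z * R * max 0 (Real.log (1 / |τ|))) = 1 := by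
    intro τ h1 h2
    have h3 : Real.log (1 / |τ|) ≤ 0 := by
      apply Real.log_nonpos (by positivity)
      rw [div_le_one h1]
      exact h2
    rw [max_eq_left h3, mul_zero, Real.exp_zero]
  have hMlt : ∀ τ : ℝ, 0 < |τ| → |τ| < 1 →
      Real.exp (2 * z * R * max 0 (Real.log (1 / |τ|))) = |τ| ^ (-(2 * z * R)) := by
    intro τ h1 h2
    have h3 : 0 ≤ Real.log (1 / |τ|) := by
      apply Real.log_nonneg
      rw [le_div_iff₀ h1]
      linarith
    rw [max_eq_right h3, Real.rpow_def_of_pos h1, one_div, Real.log_inv]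
    congr 1
    ring
  rcases h0 with h0 | h0
  · -- bounded case
    have ha := hzR h0
    obtain ⟨M, hM⟩ : ∃ M : ℝ, ∀ τ, ‖φ τ‖ ≤ M := by
      obtain ⟨M, hM⟩ := (isCompact_Icc (a := -B) (b := B)).exists_bound_of_continuousOn
        hφ.continuousOn
      refine ⟨max M 0, fun τ => ?_⟩
      by_cases h : |τ| ≤ B
      · exact (hM τ (abs_le.1 h)).trans (le_max_left _ _)
      · rw [hB τ (not_le.1 h).le, norm_zero]
        exact le_max_right _ _
    have hM0 : 0 ≤ M := (norm_nonneg _).trans (hM 0)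
    obtain ⟨h1, hh1⟩ : ∃ h1 : ℝ → ℝ, h1 = Set.indicator (Set.Ioc 0 B)
      (fun τ : ℝ => τ ^ (-(2 * z * R))) := ⟨_, rfl⟩
    have hi1 : Integrable h1 := by
      rw [hh1, integrable_indicator_iff measurableSet_Ioc,
        ← intervalIntegrable_iff_integrableOn_Ioc_of_le hBpos.le]
      exact intervalIntegral.intervalIntegrable_rpow' (by linarith)
    have hn1 : ∀ τ, 0 ≤ h1 τ := by
      intro τ
      rw [hh1]
      apply Set.indicator_nonneg
      intro x hx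
      exact Real.rpow_nonneg hx.1.le _
    refine ⟨fun τ => M ^ 2 * (Set.indicator (Set.Icc (-B) B) (fun _ : ℝ => (1 : ℝ)) τ +
      (h1 τ + h1 (-τ))), (hI.add (hi1.add hi1.comp_neg)).const_mul _, fun τ hτ => ?_⟩
    beta_reduce
    by_cases hτB : |τ| ≤ B
    · have e1 : Real.exp (2 * z * R * max 0 (Real.log (1 / |τ|))) ≤ 1 + |τ| ^ (-(2 * z * R)) := by
        have e2 : 0 ≤ |τ| ^ (-(2 * z * R)) := Real.rpow_nonneg hτ.le _
        rcases le_or_gt 1 |τ| with h | h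
        · rw [hMle τ hτ h]; linarith
        · rw [hMlt τ hτ h]; linarith
      have e3 : |τ| ^ (-(2 * z * R)) ≤ h1 τ + h1 (-τ) := by
        rcases le_or_gt 0 τ with h | h
        · rw [abs_of_nonneg h] at hτ hτB ⊢
          have : h1 τ = τ ^ (-(2 * z * R)) := by
            rw [hh1, Set.indicator_of_mem (by exact ⟨hτ, hτB⟩)]
          rw [this]
          linarith [hn1 (-τ)]
        · rw [abs_of_neg h] at hτ hτB ⊢
          have : h1 (-τ) = (-τ) ^ (-(2 * z * R)) := by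
            rw [hh1, Set.indicator_of_mem (by exact ⟨hτ, hτB⟩)]
          rw [this]
          linarith [hn1 τ]
      rw [Set.indicator_of_mem (by exact abs_le.1 hτB)]
      have e4 : ‖φ τ‖ ^ 2 ≤ M ^ 2 := pow_le_pow_left₀ (norm_nonneg _) (hM τ) 2
      exact mul_le_mul e4 (by linarith) (Real.exp_pos _).le (by positivity)
    · rw [hB τ (not_le.1 hτB).le, norm_zero]
      have e5 : 0 ≤ Set.indicator (Set.Icc (-B) B) (fun _ : ℝ => (1 : ℝ)) τ :=
        Set.indicator_nonneg (fun _ _ => zero_le_one) _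
      have e6 := hn1 τ
      have e7 := hn1 (-τ)
      have : 0 ≤ M ^ 2 * (Set.indicator (Set.Icc (-B) B) (fun _ : ℝ => (1 : ℝ)) τ +
        (h1 τ + h1 (-τ))) := by positivity
      simpa using this
  · refine ⟨fun τ => C ^ 2 * (B ^ 2 + 1) *
      Set.indicator (Set.Icc (-B) B) (fun _ : ℝ => (1 : ℝ)) τ, hI.const_mul _, fun τ hτ => ?_⟩
    beta_reduce
    by_cases hτB : |τ| ≤ B
    · rw [Set.indicator_of_mem (by exact abs_le.1 hτB), mul_one]
      have e1 : ‖φ τ‖ ^ 2 ≤ C ^ 2 * |τ| ^ 2 := by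
        rw [← mul_pow]
        exact pow_le_pow_left₀ (norm_nonneg _) (h0 τ) 2
      have e2 : |τ| ^ 2 * Real.exp (2 * z * R * max 0 (Real.log (1 / |τ|))) ≤ B ^ 2 + 1 := by
        rcases le_or_gt 1 |τ| with h | h
        · rw [hMle τ hτ h]
          have : |τ| ^ 2 ≤ B ^ 2 := pow_le_pow_left₀ hτ.le hτB 2
          linarith
        · rw [hMlt τ hτ h, ← Real.rpow_natCast |τ| 2, ← Real.rpow_add hτ]
          have e3 : |τ| ^ (((2 : ℕ) : ℝ) + -(2 * z * R)) ≤ 1 := by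
            apply Real.rpow_le_one hτ.le h.le
            push_cast
            nlinarith
          have : 0 ≤ B ^ 2 := by positivity
          linarith
      calc ‖φ τ‖ ^ 2 * Real.exp (2 * z * R * max 0 (Real.log (1 / |τ|)))
          ≤ (C ^ 2 * |τ| ^ 2) * Real.exp (2 * z * R * max 0 (Real.log (1 / |τ|))) :=
            mul_le_mul_of_nonneg_right e1 (Real.exp_pos _).le
        _ = C ^ 2 * (|τ| ^ 2 * Real.exp (2 * z * R * max 0 (Real.log (1 / |τ|)))) := by ring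
        _ ≤ C ^ 2 * (B ^ 2 + 1) := mul_le_mul_of_nonneg_left e2 (by positivity)
    · rw [hB τ (not_le.1 hτB).le, norm_zero]
      have e5 : 0 ≤ Set.indicator (Set.Icc (-B) B) (fun _ : ℝ => (1 : ℝ)) τ :=
        Set.indicator_nonneg (fun _ _ => zero_le_one) _
      have : 0 ≤ C ^ 2 * (B ^ 2 + 1) * Set.indicator (Set.Icc (-B) B) (fun _ : ℝ => (1 : ℝ)) τ := by
        positivity
      simpa using this

/-- PROOF. Put `c_p = Re (g p exp (-2 i τ log p))`, `|c_p| ≤ 1`. The factor is `1 + 2 Ap p (z - 1 + z c_p) = 1 - 2 Ap p + Ap p z ‖1 + g p exp(..)‖^2 ≥ 0`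
(`2 Ap p ≤ 4/5`, `‖g p‖ = 1`) and `≤ exp (2 Ap p (z - 1 + z c_p))`. With `Ap_bound`: `4/p - 12/p^2 ≤ 2 Ap p ≤ 4/p`, so the sum of the exponents is at most
`(z - 1) ∑_(PE) 2 Ap p + z ∑_(PE) (4/p) c_p + ∑ 12/p^2 ≤ (z - 1) (2 log log T - C1) + 4 z (R/2 max 0 (log (1/|τ|)) + C2) + C3`: `mu_bound` for
`muT T = ∑_(PT T) 2 Ap p`, the primes of `E` contribute at most `2 #E`; `NP` with `B`. So the product is
`≤ C4 (log T)^(2 (z-1)) max 1 (|τ|^(-2 z R))` for `0 < |τ| ≤ B`. If `R < 1` then `2 z R < 1` and `‖φ τ‖` is bounded: the integral over `|τ| ≤ B` of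
`|τ|^(-2 z R)` is finite. If `‖φ τ‖ ≤ C |τ|`: `|τ|^(2 - 2 z R)` is bounded (`2 z R ≤ 2 z < 2`). (`intervalIntegral.integrableOn_rpow` type lemmas:
`integrableOn_Ioo_rpow_iff`, `intervalIntegrable_rpow'`.) -/
theorem prodB (E : Finset ℕ) (g : ℕ → ℂ) (hg1 : ∀ p : ℕ, p.Prime → p % 4 = 1 → p ∉ E → ‖g p‖ = 1) (R : ℝ)
    (hR0 : 0 ≤ R) (hR1 : R ≤ 1) (hNP : NP E g R) (z : ℝ) (hz : 1 / 2 < z) (hz1 : z < 1) (hzR : R < 1 → 2 * z * R < 1)
    (B C : ℝ) (hBpos : 0 < B) (φ : ℝ → ℂ) (hφ : Continuous φ) (hB : ∀ τ, B ≤ |τ| → φ τ = 0)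
    (h0 : R < 1 ∨ ∀ τ, ‖φ τ‖ ≤ C * |τ|) :
    ∃ C' : ℝ, ∀ T : ℕ, 3 ≤ T →
      ∫ τ, ‖φ τ‖ ^ 2 * ∏ p ∈ PE E T,
        (1 + 2 * Ap p * (z - 1 + z * (g p * Complex.exp (-(2 * τ * Real.log p : ℝ) * Complex.I)).re)) ≤
      C' * (Real.log T) ^ (2 * (z - 1)) := by
  obtain ⟨K, hK⟩ := prodB_prod E g hg1 R hNP z hz hz1 B hBpos
  obtain ⟨h, hi, hh⟩ := prodB_major R z B C hR0 hR1 hz hz1 hzR hBpos φ hφ hB h0
  refine ⟨Real.exp K * ∫ τ, h τ, fun T hT => ?_⟩
  have hlog : 0 < Real.log T := by linarith [ZSm.one_le_logT hT]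
  have h1 : ∫ τ, ‖φ τ‖ ^ 2 * ∏ p ∈ PE E T,
        (1 + 2 * Ap p * (z - 1 + z * (g p * Complex.exp (-(2 * τ * Real.log p : ℝ) * Complex.I)).re)) ≤
      ∫ τ, ((Real.log T) ^ (2 * (z - 1)) * Real.exp K) * h τ := by
    apply integral_mono_of_nonneg
    · refine Filter.Eventually.of_forall fun τ => ?_
      apply mul_nonneg (by positivity)
      exact prod_nonneg fun p hp => prodB_factor (prodB_five hp) (by linarith) (prodB_re hg1 hp τ)
    · exact hi.const_mul _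
    · have h2 : ∀ᵐ τ : ℝ, τ ≠ 0 := by
        simp [ae_iff]
      filter_upwards [h2] with τ hτ
      have hτ' : 0 < |τ| := abs_pos.2 hτ
      by_cases hτB : |τ| ≤ B
      · have e1 := hK T hT τ hτ' hτB
        have e2 := hh τ hτ'
        calc ‖φ τ‖ ^ 2 * ∏ p ∈ PE E T,
              (1 + 2 * Ap p * (z - 1 + z * (g p * Complex.exp (-(2 * τ * Real.log p : ℝ) * Complex.I)).re))
            ≤ ‖φ τ‖ ^ 2 * ((Real.log T) ^ (2 * (z - 1)) * (Real.exp K *
                Real.exp (2 * z * R * max 0 (Real.log (1 / |τ|))))) :=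
              mul_le_mul_of_nonneg_left e1 (by positivity)
          _ = ((Real.log T) ^ (2 * (z - 1)) * Real.exp K) * (‖φ τ‖ ^ 2 *
                Real.exp (2 * z * R * max 0 (Real.log (1 / |τ|)))) := by ring
          _ ≤ _ := mul_le_mul_of_nonneg_left e2 (by positivity)
      · have e2 := hh τ hτ'
        rw [hB τ (not_le.1 hτB).le, norm_zero] at e2 ⊢
        have e3 : 0 ≤ h τ := by simpa using e2
        have : 0 ≤ ((Real.log T) ^ (2 * (z - 1)) * Real.exp K) * h τ := by positivity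
        simpa using this
  rw [integral_const_mul] at h1
  refine h1.trans (le_of_eq ?_)
  ring

end Pool.Agent.OmEq
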