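import Pool.Agent.Lib_MP_f1a94e_eq.Defs
import Pool.Agent.Lib_MP_f1a94e_aq.LocalB

/-!
# Piece LOCD: local densities of the set of movable primes
-/

set_option autoImplicit false

namespace Pool.Agent.OmEq

open Finset Pool.Agent.GaussMR Pool.Agent.OmAll

namespace LocDP

/-- the condition at a prime of `D` -/
def QA (p : ℕ) (e : G × G) : Prop := p ∣ nm e.2 ∧ ¬ p ^ 2 ∣ nm e.1 * nm e.2

/-- the condition at a prime outside of `D` -/
def QB (p : ℕ) (e : G × G) : Prop := ¬ (p ∣ nm e.1 * nm e.2 ∧ ¬ p ^ 2 ∣ nm e.1 * nm e.2)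

/-- the condition at the prime `p` -/
def QC (D : Finset ℕ) (p : ℕ) (e : G × G) : Prop := (p ∈ D → QA p e) ∧ (p ∉ D → QB p e)

/-- all conditions -/
def RC (D P : Finset ℕ) (e : G × G) : Prop := ∀ p ∈ P, QC D p e

theorem QC_per (D : Finset ℕ) (p : ℕ) {M : ℕ} (hM : p ^ 2 ∣ M) : Per M (QC D p) := by
  intro e f h h'
  have hp : p ∣ M := (dvd_pow_self p two_ne_zero).trans hM
  unfold QC QA QB
  rw [LocalBP.dvd_iff hp h', LocalBP.dvd_mul_iff hM h h', LocalBP.dvd_mul_iff hp h h']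

theorem RC_per (D P : Finset ℕ) {M : ℕ} (hM : ∀ p ∈ P, p ^ 2 ∣ M) : Per M (RC D P) := by
  intro e f h h'
  exact forall₂_congr (fun p hp => QC_per D p (hM p hp) e f h h')

open Classical in
theorem QB_card (p : ℕ) (hp : p.Prime) (h4 : p % 4 = 1) :
    (((cls (p ^ 2)).filter (QB p)).card : ℝ) = (1 - 2 * Ap p) * (cls (p ^ 2)).card := by
  have h1 := LocalBP.QQ_card (fun _ => True) p hp h4
  have h2 := LocalBP.QQ_card (fun _ => False) p hp h4
  have h3 : ((cls (p ^ 2)).filter (QB p)).card +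
      ((cls (p ^ 2)).filter (LocalBP.QQ (fun _ => True) p)).card +
      ((cls (p ^ 2)).filter (LocalBP.QQ (fun _ => False) p)).card = (cls (p ^ 2)).card := by
    rw [card_filter, card_filter, card_filter, ← sum_add_distrib, ← sum_add_distrib,
      card_eq_sum_ones]
    apply sum_congr rfl
    intro e _
    unfold QB LocalBP.QQ
    have h5 : p ∣ nm e.1 * nm e.2 ↔ p ∣ nm e.1 ∨ p ∣ nm e.2 := hp.dvd_mul
    have h6 : p ∣ nm e.1 → p ∣ nm e.2 → p ^ 2 ∣ nm e.1 * nm e.2 := by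
      intro a b
      rw [pow_two]
      exact mul_dvd_mul a b
    by_cases h7 : p ^ 2 ∣ nm e.1 * nm e.2
    · simp [h7]
    · by_cases h8 : p ∣ nm e.1
      · have h9 : ¬ p ∣ nm e.2 := fun h => h7 (h6 h8 h)
        simp [h5, h7, h8, h9]
      · by_cases h9 : p ∣ nm e.2
        · simp [h5, h7, h8, h9]
        · simp [h5, h7, h8, h9]
  have h4 : (((cls (p ^ 2)).filter (QB p)).card : ℝ) +
      ((cls (p ^ 2)).filter (LocalBP.QQ (fun _ => True) p)).card +
      ((cls (p ^ 2)).filter (LocalBP.QQ (fun _ => False) p)).card = (cls (p ^ 2)).card := by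
    exact_mod_cast h3
  rw [h1, h2] at h4
  linarith

open Classical in
theorem QC_card (D : Finset ℕ) (p : ℕ) (hp : p.Prime) (h4 : p % 4 = 1) :
    (((cls (p ^ 2)).filter (QC D p)).card : ℝ) =
      (if p ∈ D then Ap p else 1 - 2 * Ap p) * (cls (p ^ 2)).card := by
  by_cases h : p ∈ D
  · rw [if_pos h, ← LocalBP.QQ_card (fun _ => False) p hp h4]
    congr 2
    apply filter_congr
    intro e _
    unfold QC QA LocalBP.QQ
    simp [h]
  · rw [if_neg h, ← QB_card p hp h4]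
    congr 2
    apply filter_congr
    intro e _
    unfold QC
    simp [h]

open Classical in
theorem main (D P : Finset ℕ) : (∀ p ∈ P, p.Prime ∧ p % 4 = 1) →
    (((cls (∏ p ∈ P, p ^ 2)).filter (RC D P)).card : ℝ) =
      (∏ p ∈ P, if p ∈ D then Ap p else 1 - 2 * Ap p) * (cls (∏ p ∈ P, p ^ 2)).card := by
  induction P using Finset.induction_on with
  | empty =>
    intro _
    have h3 : ((cls (∏ p ∈ (∅ : Finset ℕ), p ^ 2)).filter (RC D ∅)) =
        cls (∏ p ∈ (∅ : Finset ℕ), p ^ 2) := by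
      apply filter_true_of_mem
      intro e _
      unfold RC
      simp
    rw [h3, prod_empty, prod_empty, one_mul]
  | insert p P hpP ih =>
    intro hP
    obtain ⟨hp, h4⟩ := hP p (mem_insert_self _ _)
    have hP' : ∀ q ∈ P, q.Prime ∧ q % 4 = 1 := fun q hq => hP q (mem_insert_of_mem hq)
    have ih' := ih hP'
    rw [prod_insert hpP, prod_insert hpP]
    set M1 : ℕ := ∏ q ∈ P, q ^ 2 with hM1
    have hM : p ^ 2 * M1 = M1 * p ^ 2 := by ring
    rw [hM]
    have hpos1 : 0 < M1 := by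
      rw [hM1]
      exact prod_pos (fun q hq => pow_pos (hP' q hq).1.pos 2)
    have hpos2 : 0 < p ^ 2 := pow_pos hp.pos 2
    have hco : M1.Coprime (p ^ 2) := by
      apply Nat.Coprime.pow_right
      rw [hM1]
      apply Nat.Coprime.prod_left
      intro q hq
      apply Nat.Coprime.pow_left
      rw [Nat.coprime_primes (hP' q hq).1 hp]
      rintro rfl
      exact hpP hq
    have hper1 : Per M1 (RC D P) := RC_per D P
      (fun q hq => dvd_prod_of_mem (fun q => q ^ 2) hq)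
    have hper2 : Per (p ^ 2) (QC D p) := QC_per D p (dvd_refl _)
    have h1 := cls_mul M1 (p ^ 2) hpos1 hpos2 hco (RC D P) (QC D p) hper1 hper2
    have h2 := cls_mul M1 (p ^ 2) hpos1 hpos2 hco (fun _ => True) (fun _ => True)
      (fun _ _ _ _ => Iff.rfl) (fun _ _ _ _ => Iff.rfl)
    simp only [and_self, filter_true] at h2
    have h3 : ((cls (M1 * p ^ 2)).filter (RC D (insert p P))).card =
        ((cls (M1 * p ^ 2)).filter (fun e => RC D P e ∧ QC D p e)).card := by
      congr 1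
      apply filter_congr
      intro e _
      unfold RC
      rw [forall_mem_insert]
      tauto
    rw [h3, h1, h2]
    push_cast
    rw [ih', QC_card D p hp h4]
    ring

theorem nm_natCast_mul (n : ℕ) (u : G) : nm ((n : G) * u) = n ^ 2 * nm u := by
  have h : ((nm ((n : G) * u) : ℕ) : ℤ) = ((n ^ 2 * nm u : ℕ) : ℤ) := by
    push_cast
    rw [nm_eq, nm_eq]
    simp only [Zsqrtd.re_mul, Zsqrtd.im_mul, Zsqrtd.re_natCast, Zsqrtd.im_natCast]
    ring
  exact_mod_cast h

open Classical in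
/-- the predicate on the left side, for `D ⊆ PE E T` -/
theorem bs_ds_iff (E : Finset ℕ) (T : ℕ) (D : Finset ℕ) (hD : D ⊆ PE E T) (e : G × G) :
    (bs E T e ∧ ds E T e = D) ↔ RC D (PE E T) e := by
  constructor
  · rintro ⟨h1, h2⟩ p hp
    constructor
    · intro hpD
      have h3 := h2.symm ▸ hpD
      have h4 : p ∈ ds E T e := h3
      have h5 := (mem_filter.1 h4).2
      have h6 := h1 p h4
      have hpr : p.Prime := (mem_PE.1 hp).2.1
      exact ⟨(hpr.dvd_mul.1 h5.1).resolve_left h6, h5.2⟩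
    · intro hpD h3
      apply hpD
      rw [← h2]
      exact mem_filter.2 ⟨hp, h3⟩
  · intro h
    have h2 : ds E T e = D := by
      ext p
      unfold ds
      rw [mem_filter]
      constructor
      · rintro ⟨h3, h4⟩
        by_contra h5
        exact (h p h3).2 h5 h4
      · intro hp
        have h3 := (h p (hD hp)).1 hp
        exact ⟨hD hp, h3.1.mul_left _, h3.2⟩
    refine ⟨?_, h2⟩
    intro p hp h3
    rw [h2] at hp
    have h4 := (h p (hD hp)).1 hp
    apply h4.2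
    rw [pow_two]
    exact mul_dvd_mul h3 h4.1

theorem RC_scale (D P : Finset ℕ) (n : ℕ) (hP : ∀ p ∈ P, p.Prime ∧ ¬ p ∣ n) (e : G × G) :
    RC D P (e.1, (n : G) * e.2) ↔ RC D P e := by
  refine forall₂_congr (fun p hp => ?_)
  obtain ⟨h1, h2⟩ := hP p hp
  have hco : p.Coprime (n ^ 2) :=
    Nat.Coprime.pow_right 2 ((Nat.Prime.coprime_iff_not_dvd h1).2 h2)
  have hco2 : (p ^ 2).Coprime (n ^ 2) := Nat.Coprime.pow_left 2 hco
  have a1 : p ∣ nm ((n : G) * e.2) ↔ p ∣ nm e.2 := by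
    rw [nm_natCast_mul]
    exact hco.dvd_mul_left
  have a2 : p ∣ nm e.1 * nm ((n : G) * e.2) ↔ p ∣ nm e.1 * nm e.2 := by
    rw [nm_natCast_mul, show nm e.1 * (n ^ 2 * nm e.2) = n ^ 2 * (nm e.1 * nm e.2) by ring]
    exact hco.dvd_mul_left
  have a3 : p ^ 2 ∣ nm e.1 * nm ((n : G) * e.2) ↔ p ^ 2 ∣ nm e.1 * nm e.2 := by
    rw [nm_natCast_mul, show nm e.1 * (n ^ 2 * nm e.2) = n ^ 2 * (nm e.1 * nm e.2) by ring]
    exact hco2.dvd_mul_left
  unfold QC QA QB
  dsimp only
  rw [a1, a2, a3]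

end LocDP

/-- PROOF. Divisibility of `nm e.1`, `nm e.2` by `p` and of `nm e.1 * nm e.2` by `p ^ 2` depends only on the classes modulo `p ^ 2`
(`LocalBP.dvd_iff`, `LocalBP.dvd_mul_iff`). -/
theorem ds_per (E : Finset ℕ) (T : ℕ) (D : Finset ℕ) :
    Per (∏ p ∈ PE E T, p ^ 2) (fun e => bs E T e ∧ ds E T e = D) := by
  classical
  intro e f h h'
  have hM : ∀ p ∈ PE E T, p ^ 2 ∣ ∏ p ∈ PE E T, p ^ 2 :=
    fun p hp => dvd_prod_of_mem (fun q => q ^ 2) hp
  have hds : ds E T e = ds E T f := by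
    unfold ds
    apply filter_congr
    intro p hp
    have hp1 : p ∣ ∏ p ∈ PE E T, p ^ 2 := (dvd_pow_self p two_ne_zero).trans (hM p hp)
    rw [LocalBP.dvd_mul_iff hp1 h h', LocalBP.dvd_mul_iff (hM p hp) h h']
  have hbs : bs E T e ↔ bs E T f := by
    unfold bs
    rw [hds]
    refine forall₂_congr (fun p hp => ?_)
    have hp0 : p ∈ PE E T := (mem_filter.1 hp).1
    have hp1 : p ∣ ∏ p ∈ PE E T, p ^ 2 := (dvd_pow_self p two_ne_zero).trans (hM p hp0)
    rw [LocalBP.dvd_iff hp1 h]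
  dsimp only
  rw [hbs, hds]

open Classical in
/-- PROOF. `nm ((n : G) * e.2) = n ^ 2 * nm e.2`, and `p ∤ n` for `p ∈ PE E T`, so the predicate is `bs E T e ∧ ds E T e = D`. It says: for
`p ∈ D`: `p ∣ nm e.2` and `¬ p ^ 2 ∣ nm e.1 * nm e.2` (this implies `p ∤ nm e.1`), and for `p ∈ PE E T \ D`: not (`p ∣ nm e.1 * nm e.2` and
`¬ p ^ 2 ∣ nm e.1 * nm e.2`). Induction over the primes as in `LocalBP.main` (there modulus `2 * ∏`, here `∏ p ^ 2`, empty product: `cls 1` has one element)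
with `cls_mul`, and `cls_p2`: the first set has density `Ap p` in `cls (p ^ 2)`, the complement of the second one `2 * Ap p` (the two disjoint
sets of `cls_p2`; `p ∣ nm e.1 * nm e.2` iff `p` divides one of them, and not both if `p ^ 2 ∤`). -/
theorem locD (E : Finset ℕ) (T : ℕ) (D : Finset ℕ) (hD : D ⊆ PE E T) (n : ℕ) (hn : ∀ p ∈ PE E T, ¬ p ∣ n) :
    (((cls (∏ p ∈ PE E T, p ^ 2)).filter
      (fun e => bs E T (e.1, (n : G) * e.2) ∧ ds E T (e.1, (n : G) * e.2) = D)).card : ℝ) =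
      Pr E T D * (cls (∏ p ∈ PE E T, p ^ 2)).card := by
  have h1 := LocDP.main D (PE E T) (fun p hp => ⟨(mem_PE.1 hp).2.1, (mem_PE.1 hp).2.2.1⟩)
  have h2 : (∏ p ∈ PE E T, if p ∈ D then Ap p else 1 - 2 * Ap p) = Pr E T D := by
    unfold Pr
    rw [prod_ite]
    congr 1
    · apply prod_congr _ (fun _ _ => rfl)
      ext p
      rw [mem_filter]
      exact ⟨fun h => h.2, fun h => ⟨hD h, h⟩⟩
    · apply prod_congr _ (fun _ _ => rfl)
      ext p
      rw [mem_filter, mem_sdiff]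
  rw [h2] at h1
  rw [← h1]
  congr 2
  apply filter_congr
  intro e _
  rw [LocDP.bs_ds_iff E T D hD, LocDP.RC_scale D (PE E T) n
    (fun p hp => ⟨(mem_PE.1 hp).2.1, hn p hp⟩)]

end Pool.Agent.OmEq
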