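import Pool.Agent.Lib_MP_f1a94e_aq.Kern
import Pool.Agent.Lib_MP_f1a94e_aq.Planch

/-!
# Piece MOL: approximation by band limited functions
-/

set_option autoImplicit false

namespace Pool.Agent.OmEq

open Finset Pool.Agent.OmAll MeasureTheory

theorem mol_kle (a v : ℝ) (ha : 0 < a) : Kf a v * (1 + v ^ 2) ≤ a + 4 / a := by
  have h1 := Kf_le a v ha.le
  have h2 := Kf_nonneg a v ha.le
  have h3 : Kf a v * v ^ 2 ≤ 4 / a := by
    by_cases hv : v = 0
    · rw [hv]
      have : 0 < 4 / a := by positivity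
      simpa using this.le
    · have h4 := Kf_le_sq a v ha hv
      have hv2 : 0 < v ^ 2 := by positivity
      calc Kf a v * v ^ 2 ≤ 4 / (a * v ^ 2) * v ^ 2 := mul_le_mul_of_nonneg_right h4 hv2.le
        _ = 4 / a := by field_simp
  nlinarith

theorem mol_kint : Integrable (Kf 1) := by
  have h1 : Integrable (fun v : ℝ => 5 * (1 + v ^ 2)⁻¹) := integrable_inv_one_add_sq.const_mul 5
  refine h1.mono' (Kf_cont 1).aestronglyMeasurable (Filter.Eventually.of_forall fun v => ?_)
  rw [Real.norm_eq_abs, abs_of_nonneg (Kf_nonneg 1 v zero_le_one)]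
  have h2 := mol_kle 1 v one_pos
  have h3 : (0 : ℝ) < 1 + v ^ 2 := by positivity
  rw [← div_eq_mul_inv, le_div_iff₀ h3]
  linarith

/-- the normalising constant -/
noncomputable def molI : ℝ := ∫ v, Kf 1 v

theorem molI_pos : 0 < molI := by
  refine integral_pos_of_integrable_nonneg_nonzero (x := 0) (Kf_cont 1) mol_kint
    (fun v => Kf_nonneg 1 v zero_le_one) ?_
  unfold Kf
  simp

/-- the normalised kernel -/
noncomputable def molK (v : ℝ) : ℝ := Kf 1 v / molI

theorem molK_cont : Continuous molK := (Kf_cont 1).div_const _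

theorem molK_nonneg (v : ℝ) : 0 ≤ molK v := div_nonneg (Kf_nonneg 1 v zero_le_one) molI_pos.le

theorem molK_int : Integrable molK := mol_kint.div_const _

theorem molK_one : ∫ v, molK v = 1 := by
  unfold molK
  rw [integral_div]
  exact div_self molI_pos.ne'

theorem molK_sq (v : ℝ) : molK v * v ^ 2 ≤ 4 / molI := by
  have h : Kf 1 v * v ^ 2 ≤ 4 := by
    by_cases hv : v = 0
    · rw [hv]
      norm_num
    · have h4 := Kf_le_sq 1 v one_pos hv
      have hv2 : 0 < v ^ 2 := by positivity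
      calc Kf 1 v * v ^ 2 ≤ 4 / (1 * v ^ 2) * v ^ 2 := mul_le_mul_of_nonneg_right h4 hv2.le
        _ = 4 := by field_simp
  unfold molK
  rw [div_mul_eq_mul_div]
  exact div_le_div_of_nonneg_right h molI_pos.le

/-- the mollified function -/
noncomputable def molPsi (w : ℝ → ℂ) (b t : ℝ) : ℂ := ∫ v, ((molK v : ℝ) : ℂ) * w (t - v / b)

theorem mol_bound (w : ℝ → ℂ) (hw : Continuous w) (hwi : Integrable w) (A M b t : ℝ) (hb : 1 ≤ b)
    (hA : ∀ s, A < |s| → w s = 0) (hM : ∀ s, ‖w s‖ ≤ M) :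
    ‖molPsi w b t‖ * (1 + t ^ 2) ≤ 2 * (1 + A ^ 2) * (M + 4 / molI * ∫ s, ‖w s‖) := by
  have hb0 : 0 < b := by linarith
  have hI := molI_pos
  set W := ∫ s, ‖w s‖ with hW
  have hW0 : 0 ≤ W := integral_nonneg fun s => norm_nonneg _
  have e1 : (∫ v, ‖w (t - v / b)‖) = b * W := by
    rw [Measure.integral_comp_div (fun x => ‖w (t - x)‖) b, abs_of_pos hb0, smul_eq_mul,
      integral_sub_left_eq_self (fun x => ‖w x‖) volume t]
  have i1 : Integrable (fun v => ‖w (t - v / b)‖) :=
    ((hwi.comp_sub_left t).comp_div hb0.ne').norm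
  have key : ∀ v : ℝ, (1 + t ^ 2) * (molK v * ‖w (t - v / b)‖) ≤
      2 * (1 + A ^ 2) * (M * molK v + 4 / molI / b ^ 2 * ‖w (t - v / b)‖) := by
    intro v
    have hk := molK_nonneg v
    have hn := norm_nonneg (w (t - v / b))
    by_cases hv : A < |t - v / b|
    · rw [hA _ hv, norm_zero, mul_zero, mul_zero, mul_zero, add_zero]
      have hM0 : 0 ≤ M := (norm_nonneg _).trans (hM 0)
      positivity
    · push Not at hv
      have h1 : (t - v / b) ^ 2 ≤ A ^ 2 := by
        rw [← sq_abs (t - v / b)]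
        exact pow_le_pow_left₀ (abs_nonneg _) hv 2
      have h2 : 1 + t ^ 2 ≤ 2 * (1 + A ^ 2) * (1 + (v / b) ^ 2) := by
        nlinarith [sq_nonneg (t - v / b - v / b), sq_nonneg (A * (v / b)), sq_nonneg (v / b),
          sq_nonneg A]
      have h3 : molK v * (v / b) ^ 2 ≤ 4 / molI / b ^ 2 := by
        have h4 := molK_sq v
        rw [div_pow, ← mul_div_assoc]
        exact div_le_div_of_nonneg_right h4 (by positivity)
      calc (1 + t ^ 2) * (molK v * ‖w (t - v / b)‖)
          ≤ (2 * (1 + A ^ 2) * (1 + (v / b) ^ 2)) * (molK v * ‖w (t - v / b)‖) :=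
            mul_le_mul_of_nonneg_right h2 (by positivity)
        _ = 2 * (1 + A ^ 2) * (molK v * ‖w (t - v / b)‖ +
              molK v * (v / b) ^ 2 * ‖w (t - v / b)‖) := by ring
        _ ≤ 2 * (1 + A ^ 2) * (M * molK v + 4 / molI / b ^ 2 * ‖w (t - v / b)‖) := by
            refine mul_le_mul_of_nonneg_left (add_le_add ?_ ?_) (by positivity)
            · rw [mul_comm M]
              exact mul_le_mul_of_nonneg_left (hM _) hk
            · exact mul_le_mul_of_nonneg_right h3 hn
  have i2 : Integrable (fun v => molK v * ‖w (t - v / b)‖) := by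
    refine (molK_int.mul_const M).mono' ?_ (Filter.Eventually.of_forall fun v => ?_)
    · have := molK_cont
      exact Continuous.aestronglyMeasurable (by fun_prop)
    · rw [norm_mul, norm_norm, Real.norm_eq_abs, abs_of_nonneg (molK_nonneg v)]
      exact mul_le_mul_of_nonneg_left (hM _) (molK_nonneg v)
  have h5 : ‖molPsi w b t‖ ≤ ∫ v, molK v * ‖w (t - v / b)‖ := by
    unfold molPsi
    refine (norm_integral_le_integral_norm _).trans (le_of_eq ?_)
    refine integral_congr_ae (Filter.Eventually.of_forall fun v => ?_)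
    simp only [norm_mul, Complex.norm_real, Real.norm_eq_abs, abs_of_nonneg (molK_nonneg v)]
  calc ‖molPsi w b t‖ * (1 + t ^ 2) ≤ (∫ v, molK v * ‖w (t - v / b)‖) * (1 + t ^ 2) :=
        mul_le_mul_of_nonneg_right h5 (by positivity)
    _ = ∫ v, (1 + t ^ 2) * (molK v * ‖w (t - v / b)‖) := by
        rw [integral_const_mul, mul_comm]
    _ ≤ ∫ v, 2 * (1 + A ^ 2) * (M * molK v + 4 / molI / b ^ 2 * ‖w (t - v / b)‖) := by
        refine integral_mono (i2.const_mul _) ?_ key
        exact ((molK_int.const_mul _).add (i1.const_mul _)).const_mul _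
    _ = 2 * (1 + A ^ 2) * (M + 4 / molI / b ^ 2 * (b * W)) := by
        rw [integral_const_mul, integral_add (molK_int.const_mul _) (i1.const_mul _),
          integral_const_mul, integral_const_mul, molK_one, e1, mul_one]
    _ ≤ 2 * (1 + A ^ 2) * (M + 4 / molI * W) := by
        refine mul_le_mul_of_nonneg_left (add_le_add le_rfl ?_) (by positivity)
        have h6 : 4 / molI / b ^ 2 * (b * W) = (4 / molI * W) / b := by
          field_simp
        rw [h6]
        exact div_le_self (by positivity) hb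

theorem mol_tend (w : ℝ → ℂ) (hw : Continuous w) (M t : ℝ) (hM : ∀ s, ‖w s‖ ≤ M) :
    Filter.Tendsto (fun n : ℕ => molPsi w ((n : ℝ) + 1) t) Filter.atTop (nhds (w t)) := by
  have e : w t = ∫ v, ((molK v : ℝ) : ℂ) * w t := by
    rw [integral_mul_const, integral_complex_ofReal, molK_one]
    simp
  rw [e]
  unfold molPsi
  refine tendsto_integral_of_dominated_convergence (fun v => molK v * M) (fun n => ?_)
    (molK_int.mul_const M) (fun n => Filter.Eventually.of_forall fun v => ?_)
    (Filter.Eventually.of_forall fun v => ?_)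
  · have := molK_cont
    exact Continuous.aestronglyMeasurable (by fun_prop)
  · rw [norm_mul, Complex.norm_real, Real.norm_eq_abs, abs_of_nonneg (molK_nonneg v)]
    exact mul_le_mul_of_nonneg_left (hM _) (molK_nonneg v)
  · refine Filter.Tendsto.const_mul _ ?_
    have h1 : Filter.Tendsto (fun n : ℕ => t - v / ((n : ℝ) + 1)) Filter.atTop (nhds (t - 0)) := by
      refine tendsto_const_nhds.sub ?_
      have h2 := (tendsto_one_div_add_atTop_nhds_zero_nat (𝕜 := ℝ)).const_mul v
      rw [mul_zero] at h2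
      refine h2.congr (fun n => ?_)
      rw [mul_one_div]
    rw [sub_zero] at h1
    exact (hw.tendsto t).comp h1

/-- the Fourier transform -/
noncomputable def molF (w : ℝ → ℂ) (τ : ℝ) : ℂ :=
  ∫ s, w s * Complex.exp (((-(τ * s) : ℝ) : ℂ) * Complex.I)

theorem molF_cont (w : ℝ → ℂ) (hw : Continuous w) (hwi : Integrable w) : Continuous (molF w) := by
  unfold molF
  refine continuous_of_dominated (bound := fun s => ‖w s‖) (fun τ => ?_)
    (fun τ => Filter.Eventually.of_forall fun s => ?_) hwi.norm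
    (Filter.Eventually.of_forall fun s => ?_)
  · exact Continuous.aestronglyMeasurable (by fun_prop)
  · rw [norm_mul, Complex.norm_exp_ofReal_mul_I, mul_one]
  · fun_prop

/-- the Fourier transform of the mollified function -/
noncomputable def molPhi (w : ℝ → ℂ) (b τ : ℝ) : ℂ :=
  ((max (1 - |τ| / b) 0 / molI : ℝ) : ℂ) * molF w τ

theorem molPhi_cont (w : ℝ → ℂ) (hw : Continuous w) (hwi : Integrable w) (b : ℝ) :
    Continuous (molPhi w b) := by
  unfold molPhi
  have := molF_cont w hw hwi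
  fun_prop

theorem mol_tri_zero (b τ : ℝ) (hb : 0 < b) (h : b ≤ |τ|) : max (1 - |τ| / b) 0 = 0 := by
  apply max_eq_right
  have : 1 ≤ |τ| / b := by rwa [le_div_iff₀ hb, one_mul]
  linarith

theorem molPhi_zero (w : ℝ → ℂ) (b τ : ℝ) (hb : 0 < b) (h : b ≤ |τ|) : molPhi w b τ = 0 := by
  unfold molPhi
  rw [mol_tri_zero b τ hb h]
  simp

theorem mol_tri_exp (b u : ℝ) (hb : 0 < b) :
    ((Kf b u : ℝ) : ℂ) = ∫ τ : ℝ, ((max (1 - |τ| / b) 0 : ℝ) : ℂ) *
      Complex.exp (((τ * u : ℝ) : ℂ) * Complex.I) := by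
  have hc : Continuous (fun τ : ℝ => max (1 - |τ| / b) 0) := by fun_prop
  have hs : HasCompactSupport (fun τ : ℝ => max (1 - |τ| / b) 0) := by
    apply HasCompactSupport.of_support_subset_isCompact (isCompact_Icc (a := -b) (b := b))
    intro τ hτ
    rw [Function.mem_support] at hτ
    rw [Set.mem_Icc, ← abs_le]
    by_contra h
    exact hτ (mol_tri_zero b τ hb (not_le.1 h).le)
  have i1 : Integrable (fun τ : ℝ => max (1 - |τ| / b) 0 * Real.cos (τ * u)) :=
    (Planch_Kf b u hb).1
  have i2 : Integrable (fun τ : ℝ => max (1 - |τ| / b) 0 * Real.sin (τ * u)) :=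
    Continuous.integrable_of_hasCompactSupport (by fun_prop) hs.mul_right
  have e0 : ∫ τ : ℝ, max (1 - |τ| / b) 0 * Real.sin (τ * u) = 0 := by
    have h1 := integral_neg_eq_self (fun τ : ℝ => max (1 - |τ| / b) 0 * Real.sin (τ * u)) volume
    have h2 : (fun τ : ℝ => max (1 - |-τ| / b) 0 * Real.sin (-τ * u)) =
        fun τ : ℝ => -(max (1 - |τ| / b) 0 * Real.sin (τ * u)) := by
      funext τ
      rw [abs_neg, neg_mul, Real.sin_neg, mul_neg]
    rw [h2, integral_neg] at h1
    linarith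
  have e1 : (fun τ : ℝ => ((max (1 - |τ| / b) 0 : ℝ) : ℂ) *
      Complex.exp (((τ * u : ℝ) : ℂ) * Complex.I)) =
      fun τ : ℝ => ((max (1 - |τ| / b) 0 * Real.cos (τ * u) : ℝ) : ℂ) +
        ((max (1 - |τ| / b) 0 * Real.sin (τ * u) : ℝ) : ℂ) * Complex.I := by
    funext τ
    rw [Complex.exp_mul_I, ← Complex.ofReal_cos, ← Complex.ofReal_sin]
    push_cast
    ring
  rw [e1, integral_add i1.ofReal (i2.ofReal.mul_const _), integral_mul_const,
    integral_complex_ofReal, integral_complex_ofReal, e0, ← (Planch_Kf b u hb).2]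
  simp

theorem mol_four (w : ℝ → ℂ) (hw : Continuous w) (hc : HasCompactSupport w) (b t : ℝ)
    (hb : 0 < b) :
    molPsi w b t = ∫ τ, molPhi w b τ * Complex.exp ((τ * t : ℝ) * Complex.I) := by
  have hI := molI_pos
  have e1 : molPsi w b t = ∫ s, w s * ((Kf b (t - s) / molI : ℝ) : ℂ) := by
    unfold molPsi
    have h1 : (fun v : ℝ => ((molK v : ℝ) : ℂ) * w (t - v / b)) =
        fun v => (fun x => ((molK (b * x) : ℝ) : ℂ) * w (t - x)) (v / b) := by
      funext v
      have : b * (v / b) = v := by field_simp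
      simp only [this]
    rw [h1, Measure.integral_comp_div (fun x : ℝ => ((molK (b * x) : ℝ) : ℂ) * w (t - x)) b,
      abs_of_pos hb]
    have h2 : (fun x : ℝ => ((molK (b * x) : ℝ) : ℂ) * w (t - x)) =
        fun x => (fun s => ((molK (b * (t - s)) : ℝ) : ℂ) * w s) (t - x) := by
      funext x
      simp only [sub_sub_cancel]
    rw [h2, integral_sub_left_eq_self (fun s => ((molK (b * (t - s)) : ℝ) : ℂ) * w s) volume t,
      ← integral_smul]
    refine integral_congr_ae (Filter.Eventually.of_forall fun s => ?_)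
    simp only [molK, Kf]
    rw [Complex.real_smul]
    have h3 : 1 * (b * (t - s)) / 2 = b * (t - s) / 2 := by ring
    rw [h3]
    push_cast
    ring
  have e2 : ∀ s : ℝ, w s * ((Kf b (t - s) / molI : ℝ) : ℂ) =
      ∫ τ : ℝ, w s * (((max (1 - |τ| / b) 0 / molI : ℝ) : ℂ) *
        Complex.exp (((τ * (t - s) : ℝ) : ℂ) * Complex.I)) := by
    intro s
    rw [integral_const_mul]
    congr 1
    rw [Complex.ofReal_div, mol_tri_exp b (t - s) hb, ← integral_div]
    refine integral_congr_ae (Filter.Eventually.of_forall fun τ => ?_)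
    simp only
    push_cast
    ring
  rw [e1]
  simp only [e2]
  rw [integral_integral_swap_of_hasCompactSupport]
  · refine integral_congr_ae (Filter.Eventually.of_forall fun τ => ?_)
    simp only
    unfold molPhi molF
    rw [mul_assoc, mul_comm (∫ s, w s * _) _, ← mul_assoc, ← integral_const_mul]
    refine integral_congr_ae (Filter.Eventually.of_forall fun s => ?_)
    simp only
    have h4 : Complex.exp (((τ * (t - s) : ℝ) : ℂ) * Complex.I) =
        Complex.exp (((τ * t : ℝ) : ℂ) * Complex.I) *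
          Complex.exp (((-(τ * s) : ℝ) : ℂ) * Complex.I) := by
      rw [← Complex.exp_add]
      congr 1
      push_cast
      ring
    rw [h4]
    ring
  · unfold Function.uncurry
    fun_prop
  · have hs : HasCompactSupport (fun p : ℝ × ℝ => w p.1 * ((max (1 - |p.2| / b) 0 : ℝ) : ℂ)) := by
      apply HasCompactSupport.of_support_subset_isCompact
        (hc.isCompact.prod (isCompact_Icc (a := -b) (b := b)))
      rintro ⟨s, τ⟩ hp
      rw [Function.mem_support] at hp
      constructor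
      · apply subset_tsupport
        rw [Function.mem_support]
        exact left_ne_zero_of_mul hp
      · show τ ∈ Set.Icc (-b) b
        rw [Set.mem_Icc, ← abs_le]
        by_contra h
        apply right_ne_zero_of_mul hp
        simp only
        rw [mol_tri_zero b τ hb (not_le.1 h).le]
        simp
    have e3 : (Function.uncurry fun s τ : ℝ => w s * (((max (1 - |τ| / b) 0 / molI : ℝ) : ℂ) *
        Complex.exp (((τ * (t - s) : ℝ) : ℂ) * Complex.I))) =
        fun p : ℝ × ℝ => (w p.1 * ((max (1 - |p.2| / b) 0 : ℝ) : ℂ)) *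
          ((1 / molI : ℝ) * Complex.exp (((p.2 * (t - p.1) : ℝ) : ℂ) * Complex.I)) := by
      funext p
      unfold Function.uncurry
      simp only
      push_cast
      ring
    rw [e3]
    exact hs.mul_right

theorem mol_small (w : ℝ → ℂ) (hw : Continuous w) (hc : HasCompactSupport w)
    (h0 : (∫ t, w t) = 0) (b τ : ℝ) (hb : 0 < b) :
    ‖molPhi w b τ‖ ≤ (1 / molI * ∫ s, |s| * ‖w s‖) * |τ| := by
  have hI := molI_pos
  have hwi : Integrable w := hw.integrable_of_hasCompactSupport hc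
  have i1 : Integrable (fun s => w s * Complex.exp (((-(τ * s) : ℝ) : ℂ) * Complex.I)) :=
    Continuous.integrable_of_hasCompactSupport (by fun_prop) hc.mul_right
  have i2 : Integrable (fun s => |s| * ‖w s‖) :=
    Continuous.integrable_of_hasCompactSupport (by fun_prop) hc.norm.mul_left
  have h1 : molF w τ = ∫ s, w s * (Complex.exp (((-(τ * s) : ℝ) : ℂ) * Complex.I) - 1) := by
    have h2 : (fun s => w s * (Complex.exp (((-(τ * s) : ℝ) : ℂ) * Complex.I) - 1)) =
        fun s => w s * Complex.exp (((-(τ * s) : ℝ) : ℂ) * Complex.I) - w s := by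
      funext s
      ring
    rw [h2, integral_sub i1 hwi, h0, sub_zero]
    rfl
  have h3 : ‖molF w τ‖ ≤ |τ| * ∫ s, |s| * ‖w s‖ := by
    rw [h1, ← integral_const_mul]
    refine norm_integral_le_of_norm_le (i2.const_mul _) (Filter.Eventually.of_forall fun s => ?_)
    rw [norm_mul, mul_comm ((-(τ * s) : ℝ) : ℂ) Complex.I]
    have h4 := Real.norm_exp_I_mul_ofReal_sub_one_le (x := -(τ * s))
    rw [Real.norm_eq_abs, abs_neg, abs_mul] at h4
    calc ‖w s‖ * ‖Complex.exp (Complex.I * ((-(τ * s) : ℝ) : ℂ)) - 1‖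
        ≤ ‖w s‖ * (|τ| * |s|) := mul_le_mul_of_nonneg_left h4 (norm_nonneg _)
      _ = |τ| * (|s| * ‖w s‖) := by ring
  have h5 : ‖((max (1 - |τ| / b) 0 / molI : ℝ) : ℂ)‖ ≤ 1 / molI := by
    rw [Complex.norm_real, Real.norm_eq_abs, abs_of_nonneg (by positivity)]
    refine div_le_div_of_nonneg_right ?_ hI.le
    refine max_le ?_ zero_le_one
    have : 0 ≤ |τ| / b := by positivity
    linarith
  unfold molPhi
  rw [norm_mul]
  calc ‖((max (1 - |τ| / b) 0 / molI : ℝ) : ℂ)‖ * ‖molF w τ‖
      ≤ 1 / molI * (|τ| * ∫ s, |s| * ‖w s‖) :=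
        mul_le_mul h5 h3 (norm_nonneg _) (by positivity)
    _ = (1 / molI * ∫ s, |s| * ‖w s‖) * |τ| := by ring

/-- PROOF. `ψ = w * k_b`, `k_b (t) = Kf b t / (2 π)` (`Kf b t = ∫ τ, max (1 - |τ|/b) 0 * cos (τ t)`, `Planch_Kf`), `∫ k_b = 1` (Fourier inversion, or
`∫ sinc^2`; if inconvenient any other nonnegative band limited kernel with `|k(t)| ≤ C/(1+t^2)` and integral 1 may be used, e.g. normalise by
its integral `I > 0`, `k_b (t) = b Kf 1 (b t) / I`). Approximate identity: `∫ ‖w t - ψ t‖ ≤ ∫ k_b (u) ∫ ‖w t - w (t - u)‖ dt du → 0` as `b → ∞` (continuity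
of translation for a continuous function with compact support, and `∫_(|u| > δ) k_b ≤ C/(b δ)`). `φ τ = (1/(2 π)) ŵ(τ) (1 - |τ|/b)^+` up to the normalisation, where
`ŵ τ = ∫ t, w t * exp (- i τ t)`: continuous, zero for `|τ| ≥ b`; Fubini gives `ψ t = ∫ τ, φ τ exp (i τ t)`. Decay: `w` vanishes for `|t| > A`, and
`k_b (u) ≤ C/(b u^2)` (`Kf_le_sq`), so `‖ψ t‖ ≤ C'/(1 + t^2)`. If `∫ w = 0` then `‖ŵ τ‖ = ‖∫ w t (exp (- i τ t) - 1)‖ ≤ |τ| ∫ |t| ‖w t‖`. -/
theorem mol (w : ℝ → ℂ) (hw : Continuous w) (hc : HasCompactSupport w) (ε : ℝ) (hε : 0 < ε) :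
    ∃ (B C : ℝ) (φ ψ : ℝ → ℂ), 0 < B ∧ 0 < C ∧ Continuous φ ∧ (∀ τ, B ≤ |τ| → φ τ = 0) ∧
      (∀ t, ψ t = ∫ τ, φ τ * Complex.exp ((τ * t : ℝ) * Complex.I)) ∧ Continuous ψ ∧
      (∀ t, ‖ψ t‖ ≤ C / (1 + t ^ 2)) ∧ (∫ t, ‖w t - ψ t‖) ≤ ε ∧
      ((∫ t, w t) = 0 → ∀ τ, ‖φ τ‖ ≤ C * |τ|) := by
  have hI := molI_pos
  have hwi : Integrable w := hw.integrable_of_hasCompactSupport hc
  obtain ⟨M, hM⟩ := hw.bounded_above_of_compact_support hc
  obtain ⟨A, hA⟩ : ∃ A : ℝ, ∀ s, A < |s| → w s = 0 := by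
    obtain ⟨A, hA⟩ := hc.isCompact.isBounded.exists_norm_le
    refine ⟨A, fun s hs => ?_⟩
    by_contra h
    have h1 := hA s (subset_tsupport w h)
    rw [Real.norm_eq_abs] at h1
    linarith
  have hM0 : 0 ≤ M := (norm_nonneg _).trans (hM 0)
  set C1 := 2 * (1 + A ^ 2) * (M + 4 / molI * ∫ s, ‖w s‖) with hC1
  have hW0 : 0 ≤ ∫ s, ‖w s‖ := integral_nonneg fun s => norm_nonneg _
  have hC10 : 0 ≤ C1 := by positivity
  set C2 := 1 / molI * ∫ s, |s| * ‖w s‖ with hC2
  have hW1 : 0 ≤ ∫ s, |s| * ‖w s‖ := integral_nonneg fun s => by positivity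
  have hC20 : 0 ≤ C2 := by positivity
  have hb1 : ∀ n : ℕ, (1 : ℝ) ≤ (n : ℝ) + 1 := fun n => by
    have : (0 : ℝ) ≤ n := Nat.cast_nonneg n
    linarith
  have hbd : ∀ (n : ℕ) (t : ℝ), ‖molPsi w ((n : ℝ) + 1) t‖ ≤ C1 / (1 + t ^ 2) := by
    intro n t
    rw [le_div_iff₀ (by positivity)]
    exact mol_bound w hw hwi A M _ t (hb1 n) hA hM
  have hcont : ∀ n : ℕ, Continuous (molPsi w ((n : ℝ) + 1)) := by
    intro n
    have hb0 : (0 : ℝ) < (n : ℝ) + 1 := by have := hb1 n; linarith
    have h1 : molPsi w ((n : ℝ) + 1) =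
        fun t => ∫ τ, molPhi w ((n : ℝ) + 1) τ * Complex.exp ((τ * t : ℝ) * Complex.I) := by
      funext t
      exact mol_four w hw hc _ t hb0
    rw [h1]
    have hp := molPhi_cont w hw hwi ((n : ℝ) + 1)
    have hps : HasCompactSupport (molPhi w ((n : ℝ) + 1)) := by
      apply HasCompactSupport.of_support_subset_isCompact
        (isCompact_Icc (a := -((n : ℝ) + 1)) (b := (n : ℝ) + 1))
      intro τ hτ
      rw [Function.mem_support] at hτ
      rw [Set.mem_Icc, ← abs_le]
      by_contra h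
      exact hτ (molPhi_zero w _ τ hb0 (not_le.1 h).le)
    refine continuous_of_dominated (bound := fun τ => ‖molPhi w ((n : ℝ) + 1) τ‖) (fun t => ?_)
      (fun t => Filter.Eventually.of_forall fun τ => ?_)
      (hp.integrable_of_hasCompactSupport hps).norm (Filter.Eventually.of_forall fun τ => ?_)
    · exact Continuous.aestronglyMeasurable (by fun_prop)
    · rw [norm_mul, Complex.norm_exp_ofReal_mul_I, mul_one]
    · fun_prop
  have htend : Filter.Tendsto (fun n : ℕ => ∫ t, ‖w t - molPsi w ((n : ℝ) + 1) t‖) Filter.atTop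
      (nhds (∫ _t : ℝ, (0 : ℝ))) := by
    refine tendsto_integral_of_dominated_convergence
      (fun t => ‖w t‖ + C1 * (1 + t ^ 2)⁻¹) (fun n => ?_)
      (hwi.norm.add (integrable_inv_one_add_sq.const_mul C1))
      (fun n => Filter.Eventually.of_forall fun t => ?_) (Filter.Eventually.of_forall fun t => ?_)
    · have := hcont n
      exact Continuous.aestronglyMeasurable (by fun_prop)
    · rw [norm_norm]
      refine (norm_sub_le _ _).trans (add_le_add le_rfl ?_)
      rw [← div_eq_mul_inv]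
      exact hbd n t
    · have h1 := (mol_tend w hw M t hM).const_sub (w t)
      rw [sub_self] at h1
      have h2 := h1.norm
      rwa [norm_zero] at h2
  rw [integral_zero] at htend
  obtain ⟨n, hn⟩ := ((tendsto_order.1 htend).2 ε hε).exists
  have hb0 : (0 : ℝ) < (n : ℝ) + 1 := by have := hb1 n; linarith
  refine ⟨(n : ℝ) + 1, C1 + C2 + 1, molPhi w ((n : ℝ) + 1), molPsi w ((n : ℝ) + 1), hb0,
    by positivity, molPhi_cont w hw hwi _, fun τ hτ => molPhi_zero w _ τ hb0 hτ,
    fun t => mol_four w hw hc _ t hb0, hcont n, fun t => ?_, hn.le, fun h0 τ => ?_⟩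
  · refine (hbd n t).trans (div_le_div_of_nonneg_right ?_ (by positivity))
    linarith
  · refine (mol_small w hw hc h0 _ τ hb0).trans (mul_le_mul_of_nonneg_right ?_ (abs_nonneg _))
    linarith

end Pool.Agent.OmEq
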