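import Pool.Agent.Lib_MP_f1a94e_eq.Defs
import Pool.Agent.Lib_MP_f1a94e_aq.Planch

/-!
# Piece PLAN: Plancherel for cluster sums
-/

set_option autoImplicit false

namespace Pool.Agent.OmEq

open Finset Pool.Agent.OmAll MeasureTheory

theorem plan_supp {B : ℝ} {φ : ℝ → ℂ} (hB : ∀ τ, B ≤ |τ| → φ τ = 0) : HasCompactSupport φ := by
  apply HasCompactSupport.of_support_subset_isCompact (isCompact_Icc (a := -B) (b := B))
  intro τ hτ
  rw [Function.mem_support] at hτ
  rw [Set.mem_Icc, ← abs_le]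
  by_contra h
  exact hτ (hB τ (not_le.1 h).le)

theorem plan_int {B : ℝ} {φ : ℝ → ℂ} (hφ : Continuous φ) (hB : ∀ τ, B ≤ |τ| → φ τ = 0)
    {f : ℝ → ℂ} (hf : Continuous f) : Integrable (fun τ => φ τ * f τ) :=
  (hφ.mul hf).integrable_of_hasCompactSupport ((plan_supp hB).mul_right)

/-- Plancherel for continuous integrable functions with integrable Fourier transform -/
theorem plan_planch {F : ℝ → ℂ} (hc : Continuous F) (hF : Integrable F)
    (hF' : Integrable (FourierTransform.fourier F)) :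
    ∫ ξ : ℝ, ‖FourierTransform.fourier F ξ‖ ^ 2 = ∫ x, ‖F x‖ ^ 2 := by
  have h1 := VectorFourier.integral_sesq_fourierIntegral_eq_neg_flip (innerSL ℂ)
    (L := innerₗ ℝ) Real.continuous_fourierChar continuous_inner hF hF'
  have h2 : ∀ x, VectorFourier.fourierIntegral Real.fourierChar volume (-(innerₗ ℝ).flip)
      (FourierTransform.fourier F) x = F x := by
    intro x
    have h0 := congrFun (hc.fourierInv_fourier_eq hF hF') x
    rw [Real.fourierInv_eq] at h0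
    rw [← h0]
    unfold VectorFourier.fourierIntegral
    congr 1
    funext v
    congr 2
    simp
  have h3 : ∀ ξ, VectorFourier.fourierIntegral Real.fourierChar volume (innerₗ ℝ) F ξ =
      FourierTransform.fourier F ξ := fun ξ => rfl
  simp only [h2, h3] at h1
  have h4 : ∀ z : ℂ, (innerSL ℂ z) z = ((‖z‖ ^ 2 : ℝ) : ℂ) := by
    intro z
    rw [innerSL_apply_apply, inner_self_eq_norm_sq_to_K]
    push_cast
    rfl
  simp only [h4] at h1
  rw [integral_complex_ofReal, integral_complex_ofReal] at h1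
  exact_mod_cast h1

theorem plan_cs (B : ℝ) (φ ψ : ℝ → ℂ) (hφ : Continuous φ) (hB : ∀ τ, B ≤ |τ| → φ τ = 0)
    (hψ : ∀ t, ψ t = ∫ τ, φ τ * Complex.exp ((τ * t : ℝ) * Complex.I))
    (g : ℕ → ℂ) (D : Finset ℕ) (t : ℝ) :
    cs g ψ D t = ∫ τ, (φ τ * ∏ p ∈ D, (1 + g p *
      Complex.exp (-(2 * τ * Real.log p : ℝ) * Complex.I))) *
        Complex.exp ((τ * t : ℝ) * Complex.I) := by
  unfold cs
  have h1 : ∀ a ∈ D.powerset, (∏ p ∈ a, g p) * ψ (t - 2 * lg a) =
      ∫ τ, φ τ * ((∏ p ∈ a, g p) * Complex.exp ((τ * (t - 2 * lg a) : ℝ) * Complex.I)) := by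
    intro a _
    rw [hψ, ← integral_const_mul]
    congr 1
    funext τ
    ring
  rw [sum_congr rfl h1, ← integral_finsetSum]
  · congr 1
    funext τ
    rw [prod_one_add, mul_sum, sum_mul]
    refine sum_congr rfl fun a _ => ?_
    rw [prod_mul_distrib, ← Complex.exp_sum]
    have h2 : ∑ p ∈ a, (-(2 * τ * Real.log p : ℝ) * Complex.I : ℂ) =
        -(2 * τ * lg a : ℝ) * Complex.I := by
      rw [← sum_mul]
      congr 1
      unfold lg
      push_cast
      rw [mul_sum, sum_neg_distrib]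
    rw [h2]
    have h3 : Complex.exp ((τ * (t - 2 * lg a) : ℝ) * Complex.I) =
        Complex.exp (-(2 * τ * lg a : ℝ) * Complex.I) * Complex.exp ((τ * t : ℝ) * Complex.I) := by
      rw [← Complex.exp_add]
      congr 1
      push_cast
      ring
    rw [h3]
    ring
  · intro a _
    exact plan_int hφ hB (by fun_prop)

/-- PROOF. `cs g ψ D t = ∑_a g(a) ∫ τ, φ τ exp (i τ (t - 2 lg a)) = ∫ τ, Φ τ exp (i τ t)` with
`Φ τ = φ τ * ∑_(a ⊆ D) ∏_(p ∈ a) (g p * exp (-2 i τ log p)) = φ τ * ∏_(p ∈ D) (1 + g p * exp (-2 i τ log p))` (`Finset.prod_one_add` / `Finset.prod_add`),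
continuous with compact support. So `cs g ψ D t = 𝓕⁻ Φ` up to scaling (`τ = 2 π ξ`), and Plancherel `∫ ‖∫ Φ τ exp (i τ t) dτ‖^2 dt = 2 π ∫ ‖Φ τ‖^2 dτ`. `Φ` is in `L^1` and `L^2`,
its inverse transform is integrable by `hC` (`‖cs g ψ D t‖ ≤ C'/(1 + t^2)`), so Fourier inversion holds; either use Plancherel of Mathlib
(`MeasureTheory.Lp` Fourier transform, or the method of `planch` in `Lib_MP_f1a94e_aq/Planch.lean`), or directly:
`∫ ‖F‖^2 = ∫ F(t) conj (∫ Φ exp (i τ t) dτ) dt = ∫ conj (Φ τ) (∫ F(t) exp (- i τ t) dt) dτ = ∫ conj (Φ τ) 2 π Φ τ dτ` by Fubini and inversion. -/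
theorem plan (B : ℝ) (φ ψ : ℝ → ℂ) (hφ : Continuous φ) (hB : ∀ τ, B ≤ |τ| → φ τ = 0)
    (hψ : ∀ t, ψ t = ∫ τ, φ τ * Complex.exp ((τ * t : ℝ) * Complex.I)) (hψc : Continuous ψ) (C : ℝ)
    (hC : ∀ t, ‖ψ t‖ ≤ C / (1 + t ^ 2)) (g : ℕ → ℂ) (D : Finset ℕ) :
    ∫ t, ‖cs g ψ D t‖ ^ 2 =
      2 * Real.pi * ∫ τ, ‖φ τ‖ ^ 2 * ∏ p ∈ D, ‖1 + g p * Complex.exp (-(2 * τ * Real.log p : ℝ) * Complex.I)‖ ^ 2 := by
  have hpi : (0 : ℝ) < 2 * Real.pi := by positivity
  have hP : ∃ P : ℝ → ℂ, ∀ τ, P τ = ∏ p ∈ D, (1 + g p *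
      Complex.exp (-(2 * τ * Real.log p : ℝ) * Complex.I)) := ⟨_, fun _ => rfl⟩
  obtain ⟨P, hP⟩ := hP
  have cP : Continuous P := by
    have : P = fun τ => ∏ p ∈ D, (1 + g p *
      Complex.exp (-(2 * τ * Real.log p : ℝ) * Complex.I)) := funext hP
    rw [this]
    fun_prop
  have hF : ∃ F : ℝ → ℂ, F = fun τ => φ (-τ) * P (-τ) := ⟨_, rfl⟩
  obtain ⟨F, hF⟩ := hF
  have hFc : Continuous F := by rw [hF]; fun_prop
  have hFi : Integrable F := by
    have h1 : Integrable (fun τ => φ τ * P τ) := plan_int hφ hB cP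
    rw [hF]
    exact h1.comp_neg
  -- Fourier transform
  have e1 : ∀ w : ℝ, FourierTransform.fourier F w = cs g ψ D (2 * Real.pi * w) := by
    intro w
    rw [plan_cs B φ ψ hφ hB hψ, Real.fourier_real_eq_integral_exp_smul]
    have h1 := integral_neg_eq_self (fun τ : ℝ => (φ τ * P τ) *
      Complex.exp ((τ * (2 * Real.pi * w) : ℝ) * Complex.I)) volume
    simp only [hP] at h1
    rw [← h1]
    congr 1
    funext τ
    rw [hF, smul_eq_mul]
    simp only [hP]
    rw [mul_comm]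
    congr 2
    push_cast
    ring
  have hψi : Integrable ψ := by
    have h1 : Integrable (fun t : ℝ => C * (1 + t ^ 2)⁻¹) := integrable_inv_one_add_sq.const_mul _
    refine h1.mono' hψc.aestronglyMeasurable (Filter.Eventually.of_forall fun t => ?_)
    rw [← div_eq_mul_inv]
    exact hC t
  have hcsi : Integrable (cs g ψ D) := by
    unfold cs
    apply integrable_finsetSum
    intro a _
    exact (hψi.comp_sub_right (2 * lg a)).const_mul _
  have e2 : Integrable (FourierTransform.fourier F) := by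
    have h1 : FourierTransform.fourier F = fun w => cs g ψ D (2 * Real.pi * w) := funext e1
    rw [h1]
    exact hcsi.comp_mul_left' hpi.ne'
  have key := plan_planch hFc hFi e2
  simp only [e1] at key
  have k1 := Measure.integral_comp_mul_left (fun t => ‖cs g ψ D t‖ ^ 2) (2 * Real.pi)
  rw [abs_of_pos (inv_pos.2 hpi), smul_eq_mul] at k1
  rw [k1] at key
  have k2 : ∫ x, ‖F x‖ ^ 2 = ∫ τ, ‖φ τ‖ ^ 2 * ∏ p ∈ D,
      ‖1 + g p * Complex.exp (-(2 * τ * Real.log p : ℝ) * Complex.I)‖ ^ 2 := by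
    have h1 := integral_neg_eq_self (fun τ : ℝ => ‖φ τ * P τ‖ ^ 2) volume
    have h2 : ∫ x, ‖F x‖ ^ 2 = ∫ x : ℝ, ‖φ (-x) * P (-x)‖ ^ 2 := by rw [hF]
    rw [h2, h1]
    congr 1
    funext τ
    rw [norm_mul, mul_pow, hP, norm_prod, prod_pow]
  rw [k2] at key
  rw [← key]
  field_simp

end Pool.Agent.OmEq
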