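import Pool.Agent.Lib_MP_f1a94e_eq.CnB

/-!
# Piece DSUM: removal of the factor `n / φ(n)`
-/

set_option autoImplicit false

namespace Pool.Agent.OmEq

open Finset Pool.Agent.GaussMR Pool.Agent.OmAll MeasureTheory Filter

/-- `1 / φ(d)` for squarefree `d` -/
noncomputable def dsumC (d : ℕ) : ℝ := if ∏ p ∈ d.primeFactors, p = d then 1 / (d.totient : ℝ) else 0

theorem dsumC_nonneg (d : ℕ) : 0 ≤ dsumC d := by
  unfold dsumC
  split_ifs
  · positivity
  · exact le_rfl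

/-- the totient of a product of distinct primes -/
theorem dsum_tot (S : Finset ℕ) (hS : ∀ p ∈ S, p.Prime) :
    (∏ p ∈ S, p).totient = ∏ p ∈ S, (p - 1) := by
  have h1 := Nat.totient_mul_prod_primeFactors (∏ p ∈ S, p)
  rw [Nat.primeFactors_prod hS] at h1
  have h2 : 0 < ∏ p ∈ S, p := Finset.prod_pos (fun p hp => (hS p hp).pos)
  rw [mul_comm] at h1
  exact Nat.eq_of_mul_eq_mul_left h2 h1

theorem dsum_le (d : ℕ) (hd : ∏ p ∈ d.primeFactors, p = d) : d ≤ 2 * d.totient ^ 2 := by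
  have hpr : ∀ p ∈ d.primeFactors, p.Prime := fun p hp => Nat.prime_of_mem_primeFactors hp
  have h1 : d.totient = ∏ p ∈ d.primeFactors, (p - 1) := by
    have := dsum_tot d.primeFactors hpr
    rw [hd] at this
    exact this
  have h2 : ∏ p ∈ d.primeFactors, p ≤ ∏ p ∈ d.primeFactors, ((p - 1) ^ 2 * (if p = 2 then 2 else 1)) := by
    refine Finset.prod_le_prod' (fun p hp => ?_)
    have h3 := (hpr p hp).two_le
    by_cases h4 : p = 2
    · rw [if_pos h4, h4]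
      norm_num
    · rw [if_neg h4, mul_one]
      obtain ⟨k, rfl⟩ : ∃ k, p = k + 3 := ⟨p - 3, by omega⟩
      have : k + 3 - 1 = k + 2 := by omega
      rw [this]
      nlinarith
  rw [hd, Finset.prod_mul_distrib, Finset.prod_pow, ← h1, Finset.prod_ite_eq'] at h2
  have h5 : (if 2 ∈ d.primeFactors then 2 else 1) ≤ 2 := by split_ifs <;> norm_num
  calc d ≤ d.totient ^ 2 * (if 2 ∈ d.primeFactors then 2 else 1) := h2
    _ ≤ d.totient ^ 2 * 2 := Nat.mul_le_mul_left _ h5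
    _ = 2 * d.totient ^ 2 := mul_comm _ _

theorem dsumC_div_le (d : ℕ) : dsumC d / d ≤ 2 / (d : ℝ) ^ (3 / 2 : ℝ) := by
  rcases Nat.eq_zero_or_pos d with h0 | h0
  · rw [h0]
    simp only [Nat.cast_zero, div_zero]
    positivity
  · have hd0 : (0 : ℝ) < d := by exact_mod_cast h0
    unfold dsumC
    by_cases hd : ∏ p ∈ d.primeFactors, p = d
    · rw [if_pos hd]
      have h1 := dsum_le d hd
      have h2 : (d : ℝ) ≤ 2 * (d.totient : ℝ) ^ 2 := by exact_mod_cast h1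
      have ht : (0 : ℝ) < d.totient := by exact_mod_cast Nat.totient_pos.mpr h0
      have h3 : √(d : ℝ) ≤ 2 * d.totient := by
        rw [Real.sqrt_le_left (by positivity)]
        nlinarith
      have h4 : (d : ℝ) ^ (3 / 2 : ℝ) = d * √(d : ℝ) := by
        rw [Real.sqrt_eq_rpow, ← Real.rpow_one_add' hd0.le (by norm_num)]
        norm_num
      rw [h4, div_div, div_le_div_iff₀ (by positivity) (by positivity)]
      nlinarith [Real.sqrt_nonneg (d : ℝ)]
    · rw [if_neg hd, zero_div]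
      positivity

theorem dsumC_summable : Summable (fun d : ℕ => dsumC d / d) := by
  have h1 : Summable (fun d : ℕ => 2 / (d : ℝ) ^ (3 / 2 : ℝ)) := by
    have h2 : Summable (fun d : ℕ => 2 * (1 / (d : ℝ) ^ (3 / 2 : ℝ))) :=
      (Real.summable_one_div_nat_rpow.mpr (by norm_num)).mul_left 2
    refine h2.congr (fun d => ?_)
    ring
  exact Summable.of_nonneg_of_le (fun d => div_nonneg (dsumC_nonneg d) (Nat.cast_nonneg d)) dsumC_div_le h1

/-- `n / φ(n)` as a sum over the divisors -/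
theorem dsum_eq (n : ℕ) (hn : 0 < n) : (n : ℝ) / n.totient = ∑ d ∈ n.divisors, dsumC d := by
  have hpr : ∀ p ∈ n.primeFactors, p.Prime := fun p hp => Nat.prime_of_mem_primeFactors hp
  have hcast : ∀ p ∈ n.primeFactors, ((p - 1 : ℕ) : ℝ) = (p : ℝ) - 1 := by
    intro p hp
    have := (hpr p hp).one_lt
    push_cast [Nat.cast_sub this.le]
    ring
  have hpos : ∀ p ∈ n.primeFactors, (0 : ℝ) < (p : ℝ) - 1 := by
    intro p hp
    have : (1 : ℝ) < p := by exact_mod_cast (hpr p hp).one_lt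
    linarith
  have h1 : (n : ℝ) / n.totient = ∏ p ∈ n.primeFactors, (1 + 1 / ((p : ℝ) - 1)) := by
    have h2 := Nat.totient_mul_prod_primeFactors n
    have h3 : (n.totient : ℝ) * ∏ p ∈ n.primeFactors, (p : ℝ) = n * ∏ p ∈ n.primeFactors, ((p : ℝ) - 1) := by
      rw [← Finset.prod_congr rfl hcast, ← Nat.cast_prod, ← Nat.cast_prod, ← Nat.cast_mul, ← Nat.cast_mul, h2]
    have h4 : ∏ p ∈ n.primeFactors, (1 + 1 / ((p : ℝ) - 1)) =
        (∏ p ∈ n.primeFactors, (p : ℝ)) / ∏ p ∈ n.primeFactors, ((p : ℝ) - 1) := by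
      rw [← Finset.prod_div_distrib]
      refine Finset.prod_congr rfl (fun p hp => ?_)
      have := hpos p hp
      field_simp
      ring
    have h5 : (0 : ℝ) < ∏ p ∈ n.primeFactors, ((p : ℝ) - 1) := Finset.prod_pos hpos
    have h6 : (0 : ℝ) < n.totient := by exact_mod_cast Nat.totient_pos.mpr hn
    rw [h4, div_eq_div_iff h6.ne' h5.ne']
    linarith
  rw [h1, Finset.prod_one_add]
  have h7 : ∑ d ∈ n.divisors, dsumC d =
      ∑ d ∈ n.divisors.filter (fun d => ∏ p ∈ d.primeFactors, p = d), 1 / (d.totient : ℝ) := by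
    rw [Finset.sum_filter]
    rfl
  rw [h7]
  refine Finset.sum_nbij' (fun S => ∏ p ∈ S, p) (fun d => d.primeFactors) ?_ ?_ ?_ ?_ ?_
  · intro S hS
    have hS' := Finset.mem_powerset.mp hS
    have hSp : ∀ p ∈ S, p.Prime := fun p hp => hpr p (hS' hp)
    refine mem_filter.mpr ⟨Nat.mem_divisors.mpr ⟨?_, hn.ne'⟩, ?_⟩
    · exact (Finset.prod_dvd_prod_of_subset _ _ _ hS').trans (Nat.prod_primeFactors_dvd n)
    · rw [Nat.primeFactors_prod hSp]
  · intro d hd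
    obtain ⟨h8, _⟩ := mem_filter.mp hd
    exact Finset.mem_powerset.mpr (Nat.primeFactors_mono (Nat.dvd_of_mem_divisors h8) hn.ne')
  · intro S hS
    have hS' := Finset.mem_powerset.mp hS
    exact Nat.primeFactors_prod (fun p hp => hpr p (hS' hp))
  · intro d hd
    exact (mem_filter.mp hd).2
  · intro S hS
    have hS' := Finset.mem_powerset.mp hS
    rw [dsum_tot S (fun p hp => hpr p (hS' hp)), Finset.prod_div_distrib, Finset.prod_const_one]
    push_cast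
    rw [Finset.prod_congr rfl (fun p hp => hcast p (hS' hp))]

theorem dsum_kap (n : ℕ) : 0 ≤ kap n ∧ kap n ≤ 2 := by
  unfold kap
  split_ifs <;> norm_num

theorem dsum_Qs (f : ℕ → ℂ) (hf : ∀ n, ‖f n‖ ≤ 1) (h : ℝ → ℝ) (h1 h2 : ℝ) (hh : HF h h1 h2) :
    ∃ C : ℝ, 0 < C ∧ ∀ n : ℕ, 0 < n → ∀ Y : ℝ, (n : ℝ) ≤ h2 * Y →
      ‖Qs f n (h2 * Y) (fun y t => ((h y ^ 2 * ps0 t : ℝ) : ℂ)) Y‖ ≤ C * (h2 * Y) := by
  classical
  obtain ⟨C, hC, hcnt⟩ := cnt 1
  refine ⟨C, hC, fun n hn Y hY => ?_⟩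
  refine le_trans ?_ (hcnt n hn (h2 * Y) hY)
  unfold Qs
  have hterm : ∀ e : G × G, ‖f (nm e.1) * (starRingEnd ℂ) (f (nm e.2)) *
      ((h (mE e / Y) ^ 2 * ps0 (tE e) : ℝ) : ℂ)‖ ≤ if |tE e| ≤ 1 then 1 else 0 := by
    intro e
    rw [norm_mul, norm_mul, RCLike.norm_conj, Complex.norm_real, Real.norm_eq_abs]
    have a1 := hf (nm e.1)
    have a2 := hf (nm e.2)
    have a3 := hh.nn (mE e / Y)
    have a4 := hh.le (mE e / Y)
    have a5 : ‖f (nm e.1)‖ * ‖f (nm e.2)‖ ≤ 1 := mul_le_one₀ a1 (norm_nonneg _) a2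
    by_cases ht : |tE e| ≤ 1
    · rw [if_pos ht]
      have a6 : 0 ≤ ps0 (tE e) := le_max_left _ _
      have a7 : ps0 (tE e) ≤ 1 := max_le zero_le_one (by linarith [abs_nonneg (tE e)])
      have a8 : h (mE e / Y) ^ 2 ≤ 1 := pow_le_one₀ a3 a4
      have a9 : h (mE e / Y) ^ 2 * ps0 (tE e) ≤ 1 := mul_le_one₀ a8 a6 a7
      rw [abs_of_nonneg (by positivity)]
      exact mul_le_one₀ a5 (by positivity) a9
    · rw [if_neg ht]
      have a6 : ps0 (tE e) = 0 := by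
        unfold ps0
        rw [max_eq_left]
        push Not at ht
        linarith
      rw [a6, mul_zero, abs_zero, mul_zero]
  calc ‖∑ e ∈ (EN n (h2 * Y)).filter (hc n), f (nm e.1) * (starRingEnd ℂ) (f (nm e.2)) *
        ((h (mE e / Y) ^ 2 * ps0 (tE e) : ℝ) : ℂ)‖
      ≤ ∑ e ∈ (EN n (h2 * Y)).filter (hc n), (if |tE e| ≤ 1 then (1 : ℝ) else 0) :=
        norm_sum_le_of_le _ (fun e _ => hterm e)
    _ ≤ ∑ e ∈ EN n (h2 * Y), (if |tE e| ≤ 1 then (1 : ℝ) else 0) := by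
        refine Finset.sum_le_sum_of_subset_of_nonneg (Finset.filter_subset _ _) (fun e _ _ => ?_)
        split_ifs <;> norm_num
    _ = (((EN n (h2 * Y)).filter (fun e => |tE e| ≤ 1)).card : ℝ) := by
        rw [← Finset.sum_filter, Finset.sum_const, nsmul_eq_mul, mul_one]

/-- PROOF. `n / φ(n) = ∏_(p ∣ n) (1 + 1/(p-1)) = ∑_(d ∣ n) c_d`, `c_d = μ(d)^2 / φ(d)` (`Nat.totient_eq_mul_prod_factors`, `Finset.prod_one_add`, `Nat.sum_divisors_filter_squarefree`), and `∑ c_d / d` converges (`φ(d) ≥ sqrt (d/2)`, or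
`∑_(d ≤ N) c_d/d ≤ ∏ (1 + 1/(p (p-1)))`). Put `K` with `∑_(d > K) c_d/d ≤ ε'`. `‖Qs f n (h2 Y) (..) Y‖ ≤ C h2 Y` for `n ≤ N ≤ h2 Y` (`cnt` with `B = 1`, `|f| ≤ 1`, `h ≤ 1`, `ps0 t = 0` for `|t| ≥ 1`). So the part `d > K` is at most
`∑_(d > K) c_d (N/d) * 2 C h2 Y ≤ 2 C h2 ε' N Y` (`0 ≤ ww ≤ 1`, `kap ≤ 2`). For the finitely many `d ≤ K` use `hQ d` with `ε''`. -/
theorem dsum (f : ℕ → ℂ) (hf : ∀ n, ‖f n‖ ≤ 1) (hQ : QdSmall f) : QSmall f := by
  classical
  intro h h1 h2 hh ε hε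
  obtain ⟨C, hC, hCQ⟩ := dsum_Qs f hf h h1 h2 hh
  have h2one : (1 : ℝ) ≤ h2 := hh.one
  have h2pos : 0 < h2 := by linarith
  obtain ⟨-, hw0, hw1, -⟩ := ww_props
  -- the tail
  have hε' : 0 < ε / (4 * C * h2) := by positivity
  obtain ⟨s, hs⟩ := summable_iff_vanishing_norm.mp dsumC_summable _ hε'
  set K : ℕ := s.sup id with hK
  have htail : ∀ N : ℕ, ∑ d ∈ (Icc 1 N).filter (fun d => K < d), dsumC d / d ≤ ε / (4 * C * h2) := by
    intro N
    have hd : Disjoint ((Icc 1 N).filter (fun d => K < d)) s := by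
      rw [Finset.disjoint_left]
      intro d hd hds
      have h3 := (mem_filter.mp hd).2
      have h4 : d ≤ K := Finset.le_sup (f := id) hds
      omega
    exact (le_abs_self _).trans (hs _ hd).le
  set SK : ℝ := ∑ d ∈ Icc 1 K, dsumC d with hSK
  have hSK0 : 0 ≤ SK := Finset.sum_nonneg (fun d _ => dsumC_nonneg d)
  set ε2 : ℝ := ε / (2 * (SK + 1)) with hε2
  have hε2pos : 0 < ε2 := by positivity
  have hex : ∀ d : ℕ, ∃ N0 : ℕ, 1 ≤ d → ∀ N : ℕ, N0 ≤ N →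
    ∀ᶠ Y : ℝ in atTop, ‖∑ n ∈ (Icc 1 N).filter (fun n => d ∣ n), ((kap n * ww ((n : ℝ) / N) : ℝ) : ℂ) *
      Qs f n (h2 * Y) (fun y t => ((h y ^ 2 * ps0 t : ℝ) : ℂ)) Y‖ ≤ ε2 * N * Y := by
    intro d
    by_cases hd : 1 ≤ d
    · obtain ⟨N0, hN0⟩ := hQ d hd h h1 h2 hh ε2 hε2pos
      exact ⟨N0, fun _ => hN0⟩
    · exact ⟨0, fun h => absurd h hd⟩
  choose N0 hN0 using hex
  refine ⟨(Icc 1 K).sup N0, fun N hN => ?_⟩
  have hsmall : ∀ᶠ Y : ℝ in atTop, ∀ d ∈ Icc 1 K, ‖∑ n ∈ (Icc 1 N).filter (fun n => d ∣ n), ((kap n * ww ((n : ℝ) / N) : ℝ) : ℂ) *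
      Qs f n (h2 * Y) (fun y t => ((h y ^ 2 * ps0 t : ℝ) : ℂ)) Y‖ ≤ ε2 * N * Y := by
    rw [Filter.eventually_all_finset]
    intro d hd
    exact hN0 d (mem_Icc.mp hd).1 N (le_trans (Finset.le_sup hd) hN)
  filter_upwards [hsmall, eventually_ge_atTop (N : ℝ), eventually_gt_atTop (0 : ℝ)] with Y hY hYN hY0
  set Q : ℕ → ℂ := fun n => Qs f n (h2 * Y) (fun y t => ((h y ^ 2 * ps0 t : ℝ) : ℂ)) Y with hQdef
  set Z : ℕ → ℂ := fun d => ∑ n ∈ (Icc 1 N).filter (fun n => d ∣ n), ((kap n * ww ((n : ℝ) / N) : ℝ) : ℂ) * Q n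
    with hZ
  have hQb : ∀ n ∈ Icc 1 N, ‖Q n‖ ≤ C * (h2 * Y) := by
    intro n hn
    obtain ⟨hn1, hn2⟩ := mem_Icc.mp hn
    refine hCQ n hn1 Y ?_
    have e1 : (n : ℝ) ≤ N := by exact_mod_cast hn2
    nlinarith
  have hZb : ∀ d ∈ Icc 1 N, ‖Z d‖ ≤ (N / d : ℝ) * (2 * (C * (h2 * Y))) := by
    intro d hd
    have hd1 := (mem_Icc.mp hd).1
    have hcard : (((Icc 1 N).filter (fun n => d ∣ n)).card : ℝ) ≤ (N / d : ℝ) := by
      have e1 : Icc 1 N = Ioc 0 N := by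
        ext x
        rw [mem_Icc, mem_Ioc]
        omega
      rw [e1, Nat.Ioc_filter_dvd_card_eq_div]
      exact Nat.cast_div_le
    calc ‖Z d‖ ≤ ∑ n ∈ (Icc 1 N).filter (fun n => d ∣ n), (2 * (C * (h2 * Y))) := by
          refine norm_sum_le_of_le _ (fun n hn => ?_)
          rw [norm_mul, Complex.norm_real, Real.norm_eq_abs]
          have k1 := dsum_kap n
          have k2 := hw0 ((n : ℝ) / N)
          have k3 := hw1 ((n : ℝ) / N)
          rw [abs_of_nonneg (mul_nonneg k1.1 k2)]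
          have k4 : kap n * ww ((n : ℝ) / N) ≤ 2 := by nlinarith
          exact mul_le_mul k4 (hQb n (mem_filter.mp hn).1) (norm_nonneg _) (by norm_num)
      _ = (((Icc 1 N).filter (fun n => d ∣ n)).card : ℝ) * (2 * (C * (h2 * Y))) := by
          rw [Finset.sum_const, nsmul_eq_mul]
      _ ≤ _ := mul_le_mul_of_nonneg_right hcard (by positivity)
  have hexch : ∑ n ∈ Icc 1 N, ((kap n * (n / n.totient) * ww ((n : ℝ) / N) : ℝ) : ℂ) * Q n =
      ∑ d ∈ Icc 1 N, (dsumC d : ℂ) * Z d := by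
    have e1 : ∀ n ∈ Icc 1 N, ((kap n * (n / n.totient) * ww ((n : ℝ) / N) : ℝ) : ℂ) * Q n =
        ∑ d ∈ Icc 1 N, (if d ∣ n then (dsumC d : ℂ) * (((kap n * ww ((n : ℝ) / N) : ℝ) : ℂ) * Q n) else 0) := by
      intro n hn
      obtain ⟨hn1, hn2⟩ := mem_Icc.mp hn
      have e2 : n.divisors = (Icc 1 N).filter (fun d => d ∣ n) := by
        ext d
        rw [Nat.mem_divisors, mem_filter, mem_Icc]
        constructor
        · rintro ⟨h3, h4⟩
          have h5 := Nat.le_of_dvd hn1 h3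
          have h6 := Nat.pos_of_dvd_of_pos h3 hn1
          exact ⟨⟨h6, by omega⟩, h3⟩
        · rintro ⟨_, h3⟩
          exact ⟨h3, by omega⟩
      rw [dsum_eq n hn1, ← Finset.sum_filter, ← e2, ← Finset.sum_mul]
      push_cast
      ring
    rw [Finset.sum_congr rfl e1, Finset.sum_comm]
    refine Finset.sum_congr rfl (fun d _ => ?_)
    rw [← Finset.sum_filter, ← Finset.mul_sum]
  rw [hexch]
  have hsplit : ∑ d ∈ Icc 1 N, dsumC d * ‖Z d‖ =
      ∑ d ∈ (Icc 1 N).filter (fun d => d ≤ K), dsumC d * ‖Z d‖ +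
      ∑ d ∈ (Icc 1 N).filter (fun d => K < d), dsumC d * ‖Z d‖ := by
    rw [← Finset.sum_filter_add_sum_filter_not (Icc 1 N) (fun d => d ≤ K)]
    congr 1
    refine Finset.sum_congr ?_ (fun _ _ => rfl)
    refine Finset.filter_congr (fun d _ => ?_)
    omega
  have hpart1 : ∑ d ∈ (Icc 1 N).filter (fun d => d ≤ K), dsumC d * ‖Z d‖ ≤ ε / 2 * N * Y := by
    calc ∑ d ∈ (Icc 1 N).filter (fun d => d ≤ K), dsumC d * ‖Z d‖
        ≤ ∑ d ∈ (Icc 1 N).filter (fun d => d ≤ K), dsumC d * (ε2 * N * Y) := by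
          refine Finset.sum_le_sum (fun d hd => ?_)
          obtain ⟨hd1, hd2⟩ := mem_filter.mp hd
          exact mul_le_mul_of_nonneg_left (hY d (mem_Icc.mpr ⟨(mem_Icc.mp hd1).1, hd2⟩)) (dsumC_nonneg d)
      _ ≤ ∑ d ∈ Icc 1 K, dsumC d * (ε2 * N * Y) := by
          refine Finset.sum_le_sum_of_subset_of_nonneg ?_ (fun d _ _ => ?_)
          · intro d hd
            obtain ⟨hd1, hd2⟩ := mem_filter.mp hd
            exact mem_Icc.mpr ⟨(mem_Icc.mp hd1).1, hd2⟩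
          · have := dsumC_nonneg d
            positivity
      _ = SK * (ε2 * N * Y) := by rw [← Finset.sum_mul]
      _ ≤ (SK + 1) * (ε2 * N * Y) := mul_le_mul_of_nonneg_right (by linarith) (by positivity)
      _ = ε / 2 * N * Y := by
          rw [hε2]
          field_simp
  have hpart2 : ∑ d ∈ (Icc 1 N).filter (fun d => K < d), dsumC d * ‖Z d‖ ≤ ε / 2 * N * Y := by
    calc ∑ d ∈ (Icc 1 N).filter (fun d => K < d), dsumC d * ‖Z d‖
        ≤ ∑ d ∈ (Icc 1 N).filter (fun d => K < d), (dsumC d / d) * (2 * C * h2 * N * Y) := by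
          refine Finset.sum_le_sum (fun d hd => ?_)
          have h3 := hZb d (mem_filter.mp hd).1
          calc dsumC d * ‖Z d‖ ≤ dsumC d * ((N / d : ℝ) * (2 * (C * (h2 * Y)))) :=
                mul_le_mul_of_nonneg_left h3 (dsumC_nonneg d)
            _ = (dsumC d / d) * (2 * C * h2 * N * Y) := by ring
      _ = (∑ d ∈ (Icc 1 N).filter (fun d => K < d), dsumC d / d) * (2 * C * h2 * N * Y) := by
          rw [← Finset.sum_mul]
      _ ≤ (ε / (4 * C * h2)) * (2 * C * h2 * N * Y) :=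
          mul_le_mul_of_nonneg_right (htail N) (by positivity)
      _ = ε / 2 * N * Y := by
          field_simp
          ring
  calc ‖∑ d ∈ Icc 1 N, (dsumC d : ℂ) * Z d‖ ≤ ∑ d ∈ Icc 1 N, dsumC d * ‖Z d‖ := by
        refine norm_sum_le_of_le _ (fun d _ => ?_)
        rw [norm_mul, Complex.norm_real, Real.norm_eq_abs, abs_of_nonneg (dsumC_nonneg d)]
    _ ≤ ε * N * Y := by
        rw [hsplit]
        linarith

end Pool.Agent.OmEq
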