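import Mathlib

/-!
# Piece RIEMTWO: from rectangles to continuous functions
-/

set_option autoImplicit false

namespace Pool.Agent.OmEq

open Finset Filter

lemma rt_cellint (Ψ : ℝ → ℝ → ℝ) (hΨ : Continuous (Function.uncurry Ψ)) (y0 y1 u0 u1 v η : ℝ)
    (hy : y0 ≤ y1) (hu : u0 ≤ u1)
    (h : ∀ y ∈ Set.Icc y0 y1, ∀ u ∈ Set.Icc u0 u1, |Ψ y u - v| ≤ η) :
    |(∫ y in y0..y1, ∫ u in u0..u1, Ψ y u) - v * ((y1 - y0) * (u1 - u0))| ≤
      η * ((y1 - y0) * (u1 - u0)) := by
  have hG : Continuous (fun y => ∫ u in u0..u1, Ψ y u) :=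
    intervalIntegral.continuous_parametric_intervalIntegral_of_continuous' hΨ u0 u1
  have h1 : (∫ y in y0..y1, ∫ u in u0..u1, Ψ y u) - v * ((y1 - y0) * (u1 - u0)) =
      ∫ y in y0..y1, ((∫ u in u0..u1, Ψ y u) - v * (u1 - u0)) := by
    rw [intervalIntegral.integral_sub (hG.intervalIntegrable _ _)
      (continuous_const.intervalIntegrable _ _), intervalIntegral.integral_const, smul_eq_mul]
    ring
  rw [h1]
  have h2 : ∀ y ∈ Set.uIoc y0 y1, ‖(∫ u in u0..u1, Ψ y u) - v * (u1 - u0)‖ ≤ η * (u1 - u0) := by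
    intro y hy'
    rw [Set.uIoc_of_le hy] at hy'
    have hc : Continuous (fun u => Ψ y u) := hΨ.comp (Continuous.prodMk_right y)
    have h3 : (∫ u in u0..u1, Ψ y u) - v * (u1 - u0) = ∫ u in u0..u1, (Ψ y u - v) := by
      rw [intervalIntegral.integral_sub (hc.intervalIntegrable _ _)
        (continuous_const.intervalIntegrable _ _), intervalIntegral.integral_const, smul_eq_mul]
      ring
    rw [h3]
    have h4 := intervalIntegral.norm_integral_le_of_norm_le_const (a := u0) (b := u1) (C := η)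
      (f := fun u => Ψ y u - v) (by
        intro u hu'
        rw [Set.uIoc_of_le hu] at hu'
        exact h y ⟨hy'.1.le, hy'.2⟩ u ⟨hu'.1.le, hu'.2⟩)
    rwa [abs_of_nonneg (by linarith : (0:ℝ) ≤ u1 - u0)] at h4
  have h5 := intervalIntegral.norm_integral_le_of_norm_le_const h2
  rw [abs_of_nonneg (by linarith : (0:ℝ) ≤ y1 - y0)] at h5
  rw [Real.norm_eq_abs] at h5
  linarith

/-- decomposition of the double integral into cells -/
lemma rt_split (Ψ : ℝ → ℝ → ℝ) (hΨ : Continuous (Function.uncurry Ψ)) (N J : ℕ) (a s : ℕ → ℝ) :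
    (∫ y in a 0..a N, ∫ u in s 0..s J, Ψ y u) =
      ∑ i ∈ range N, ∑ j ∈ range J, ∫ y in a i..a (i + 1), ∫ u in s j..s (j + 1), Ψ y u := by
  have hc : ∀ y, Continuous (fun u => Ψ y u) := fun y => hΨ.comp (Continuous.prodMk_right y)
  have hG : ∀ u0 u1 : ℝ, Continuous (fun y => ∫ u in u0..u1, Ψ y u) := fun u0 u1 =>
    intervalIntegral.continuous_parametric_intervalIntegral_of_continuous' hΨ u0 u1
  rw [← intervalIntegral.sum_integral_adjacent_intervals (n := N) (a := a)
    (fun k _ => (hG _ _).intervalIntegrable _ _)]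
  apply Finset.sum_congr rfl
  intro i _
  rw [← intervalIntegral.integral_finset_sum (fun j _ => (hG _ _).intervalIntegrable _ _)]
  apply intervalIntegral.integral_congr
  intro y _
  simp only
  rw [intervalIntegral.sum_integral_adjacent_intervals (n := J) (a := s)
    (fun k _ => (hc y).intervalIntegrable _ _)]

/-- the number of points in a rectangle with a corner on the axis -/
lemma rt_corner {ι : Type} (A : ι → Prop) (S : ℝ → Finset ι) (m t : ι → ℝ)
    (hS : ∀ x e, e ∈ S x ↔ A e ∧ m e ≤ x) (hm : ∀ e, A e → 0 < m e) (c : ℝ)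
    (hc : ∀ s u : ℝ, s ≤ u →
      Tendsto (fun x : ℝ => (((S x).filter (fun e => s ≤ t e ∧ t e < u)).card : ℝ) / x) atTop
        (nhds (c * (u - s)))) (y s u : ℝ) (hy : 0 ≤ y) (hsu : s ≤ u) :
    Tendsto (fun X : ℝ => (((S (y * X)).filter (fun e => s ≤ t e ∧ t e < u)).card : ℝ) / X) atTop
      (nhds (y * (c * (u - s)))) := by
  rcases eq_or_lt_of_le hy with h | h
  · have h1 : S 0 = ∅ := by
      apply Finset.eq_empty_of_forall_notMem
      intro e he
      rw [hS] at he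
      exact absurd (hm e he.1) (not_lt.2 he.2)
    rw [← h]
    simp [h1]
  · have h1 : Tendsto (fun X : ℝ => y * X) atTop atTop := tendsto_id.const_mul_atTop h
    have h2 := ((hc s u hsu).comp h1).const_mul y
    refine h2.congr' ?_
    filter_upwards [eventually_gt_atTop 0] with X hX
    simp only [Function.comp]
    rw [← mul_div_assoc, mul_div_mul_left _ _ h.ne']

/-- the number of points in a rectangle -/
lemma rt_cell {ι : Type} [DecidableEq ι] (A : ι → Prop) (S : ℝ → Finset ι) (m t : ι → ℝ)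
    (hS : ∀ x e, e ∈ S x ↔ A e ∧ m e ≤ x) (hm : ∀ e, A e → 0 < m e) (c : ℝ)
    (hc : ∀ s u : ℝ, s ≤ u →
      Tendsto (fun x : ℝ => (((S x).filter (fun e => s ≤ t e ∧ t e < u)).card : ℝ) / x) atTop
        (nhds (c * (u - s)))) (y y' s u : ℝ) (hy : 0 ≤ y) (hyy : y ≤ y') (hsu : s ≤ u) :
    Tendsto (fun X : ℝ => (((S (y' * X) \ S (y * X)).filter
      (fun e => s ≤ t e ∧ t e < u)).card : ℝ) / X) atTop (nhds (c * ((y' - y) * (u - s)))) := by
  have h1 := rt_corner A S m t hS hm c hc y s u hy hsu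
  have h2 := rt_corner A S m t hS hm c hc y' s u (hy.trans hyy) hsu
  have h3 := h2.sub h1
  have e : y' * (c * (u - s)) - y * (c * (u - s)) = c * ((y' - y) * (u - s)) := by ring
  rw [e] at h3
  refine h3.congr' ?_
  filter_upwards [eventually_gt_atTop 0] with X hX
  rw [← sub_div]
  congr 1
  have hsub : (S (y * X)).filter (fun e => s ≤ t e ∧ t e < u) ⊆
      (S (y' * X)).filter (fun e => s ≤ t e ∧ t e < u) := by
    apply Finset.filter_subset_filter
    intro e he
    rw [hS] at he ⊢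
    exact ⟨he.1, he.2.trans (mul_le_mul_of_nonneg_right hyy hX.le)⟩
  have h4 : (S (y' * X) \ S (y * X)).filter (fun e => s ≤ t e ∧ t e < u) =
      (S (y' * X)).filter (fun e => s ≤ t e ∧ t e < u) \
        (S (y * X)).filter (fun e => s ≤ t e ∧ t e < u) := by
    ext e
    simp only [Finset.mem_filter, Finset.mem_sdiff]
    tauto
  rw [h4, Finset.card_sdiff_of_subset hsub, Nat.cast_sub (Finset.card_le_card hsub)]

/-- telescoping decomposition of a finite set of points along a coordinate -/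
lemma rt_tele {ι : Type} (Q : Finset ι) (t : ι → ℝ) (s : ℕ → ℝ) (hs : Monotone s) (f : ι → ℝ)
    (J : ℕ) : ∑ e ∈ Q.filter (fun e => s 0 ≤ t e ∧ t e < s J), f e =
      ∑ j ∈ range J, ∑ e ∈ Q.filter (fun e => s j ≤ t e ∧ t e < s (j + 1)), f e := by
  induction J with
  | zero =>
    rw [Finset.range_zero, Finset.sum_empty]
    apply Finset.sum_eq_zero
    intro e he
    rw [Finset.mem_filter] at he
    exact absurd he.2.1 (not_le.2 he.2.2)
  | succ J ih =>
    rw [Finset.sum_range_succ, ← ih]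
    simp only [Finset.sum_filter]
    rw [← Finset.sum_add_distrib]
    apply Finset.sum_congr rfl
    intro e _
    have h1 : s 0 ≤ s J := hs (Nat.zero_le _)
    have h2 : s J ≤ s (J + 1) := hs (Nat.le_succ _)
    by_cases a : s 0 ≤ t e <;> by_cases b : t e < s J <;> by_cases d : t e < s (J + 1)
    · have n : ¬ (s J ≤ t e) := not_le.2 b
      simp [a, b, n]
      intro h
      exact absurd d (not_lt.2 h)
    · exact absurd (b.trans_le h2) d
    · have n : s J ≤ t e := not_lt.1 b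
      simp [a, b, d, n]
    · simp [b, d]
    · have n : ¬ (s J ≤ t e) := not_le.2 b
      simp [a, n]
    · exact absurd (b.trans_le h2) d
    · exact absurd (h1.trans (not_lt.1 b)) a
    · simp [b, d]

/-- decomposition of a sum over the points into sums over the cells -/
lemma rt_sum {ι : Type} [DecidableEq ι] (A : ι → Prop) (S : ℝ → Finset ι) (m t : ι → ℝ)
    (hS : ∀ x e, e ∈ S x ↔ A e ∧ m e ≤ x) (hm : ∀ e, A e → 0 < m e) (X : ℝ) (hX : 0 < X)
    (a s : ℕ → ℝ) (ha : Monotone a) (ha0 : a 0 = 0) (hs : Monotone s) (f : ι → ℝ) (N J : ℕ)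
    (hf : ∀ e, ¬ (s 0 ≤ t e ∧ t e < s J) → f e = 0) :
    ∑ e ∈ S (a N * X), f e = ∑ i ∈ range N, ∑ j ∈ range J,
      ∑ e ∈ (S (a (i + 1) * X) \ S (a i * X)).filter (fun e => s j ≤ t e ∧ t e < s (j + 1)), f e := by
  have h0 : ∑ e ∈ S (a 0 * X), f e = 0 := by
    rw [ha0, zero_mul]
    apply Finset.sum_eq_zero
    intro e he
    rw [hS] at he
    exact absurd (hm e he.1) (not_lt.2 he.2)
  have h1 := Finset.sum_range_sub (fun i => ∑ e ∈ S (a i * X), f e) N
  rw [h0, sub_zero] at h1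
  rw [← h1]
  apply Finset.sum_congr rfl
  intro i _
  rw [← rt_tele _ t s hs f J]
  have hsub : S (a i * X) ⊆ S (a (i + 1) * X) := by
    intro e he
    rw [hS] at he ⊢
    exact ⟨he.1, he.2.trans (mul_le_mul_of_nonneg_right (ha (Nat.le_succ _)) hX.le)⟩
  rw [← Finset.sum_sdiff hsub, add_sub_cancel_right, Finset.sum_filter]
  apply Finset.sum_congr rfl
  intro e _
  by_cases h : s 0 ≤ t e ∧ t e < s J
  · rw [if_pos h]
  · rw [if_neg h, hf e h]

/-- PROOF. `Ψ` is uniformly continuous and vanishes outside `[0, b] × [-B, B]`. If `b ≤ 0` everything is `0` (`Ψ = 0`; the sum is over terms with `Ψ = 0`). Let `δ = 1/K` mesh: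
for `0 ≤ i < ⌈b K⌉`, `- B K ≤ j < B K` the cell `{e : i/K X < m e ≤ (i+1)/K X, j/K ≤ t e < (j+1)/K}` has
`X c / K^2 + o(X)` elements (difference of `hc` at `x = (i+1)/K X` and `x = i/K X`; for `i = 0` use `0 < m e`, i.e. the `S` at `x = 0` is empty). On a cell `Ψ (m e / X) (t e)`
differs from the value at the corner by at most `η(K) → 0`. So `limsup |sum/X - c ∑ Ψ(corner)/K^2| ≤ C η(K)`, and `∑ Ψ(corner)/K^2` differs from
`∫ y, ∫ u, Ψ y u` by at most `C η(K)` as well. -/
theorem riem2 {ι : Type} (A : ι → Prop) (S : ℝ → Finset ι) (m t : ι → ℝ) (hS : ∀ x e, e ∈ S x ↔ A e ∧ m e ≤ x)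
    (hm : ∀ e, A e → 0 < m e) (c : ℝ) (hc0 : 0 ≤ c)
    (hc : ∀ s u : ℝ, s ≤ u →
      Tendsto (fun x : ℝ => (((S x).filter (fun e => s ≤ t e ∧ t e < u)).card : ℝ) / x) atTop (nhds (c * (u - s))))
    (Ψ : ℝ → ℝ → ℝ) (hΨ : Continuous (Function.uncurry Ψ)) (hcs : HasCompactSupport (Function.uncurry Ψ))
    (hneg : ∀ y u, y ≤ 0 → Ψ y u = 0) (b : ℝ) (hb : ∀ y u, b ≤ y → Ψ y u = 0) :
    Tendsto (fun X : ℝ => (∑ e ∈ S (b * X), Ψ (m e / X) (t e)) / X) atTop (nhds (c * ∫ y, ∫ u, Ψ y u)) := by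
  classical
  -- bounds of the support
  obtain ⟨M, hM1, hMb⟩ : ∃ M : ℕ, 1 ≤ M ∧ b ≤ M := by
    obtain ⟨n, hn⟩ := exists_nat_ge b
    exact ⟨n + 1, by omega, hn.trans (by push_cast; linarith)⟩
  obtain ⟨B, hB1, hB⟩ : ∃ B : ℕ, 1 ≤ B ∧ ∀ y u, Ψ y u ≠ 0 → |u| < B := by
    obtain ⟨R, hR⟩ := hcs.isBounded.subset_closedBall (0 : ℝ × ℝ)
    obtain ⟨n, hn⟩ := exists_nat_gt R
    refine ⟨n + 1, by omega, fun y u h => ?_⟩
    have h1 : (y, u) ∈ tsupport (Function.uncurry Ψ) := subset_tsupport _ (by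
      rw [Function.mem_support]
      exact h)
    have h2 := hR h1
    rw [mem_closedBall_zero_iff, Prod.norm_def] at h2
    have h3 : ‖u‖ ≤ R := (le_max_right _ _).trans h2
    rw [Real.norm_eq_abs] at h3
    push_cast
    linarith
  have hB0 : (0:ℝ) < B := by exact_mod_cast hB1
  have hM0 : (0:ℝ) < M := by exact_mod_cast hM1
  -- the integral over the box
  have hint : (∫ y, ∫ u, Ψ y u) = ∫ y in (0:ℝ)..M, ∫ u in (-B:ℝ)..B, Ψ y u := by
    have h1 : ∀ y, (∫ u, Ψ y u) = ∫ u in (-B:ℝ)..B, Ψ y u := by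
      intro y
      symm
      apply intervalIntegral.integral_eq_integral_of_support_subset
      intro u hu
      have := abs_lt.1 (hB y u hu)
      exact ⟨this.1, this.2.le⟩
    simp_rw [h1]
    symm
    apply intervalIntegral.integral_eq_integral_of_support_subset
    intro y hy
    rw [Function.mem_support] at hy
    constructor
    · by_contra hc
      apply hy
      have : ∀ u, Ψ y u = 0 := fun u => hneg y u (not_lt.1 hc)
      simp [this]
    · by_contra hc
      apply hy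
      have : ∀ u, Ψ y u = 0 := fun u => hb y u (hMb.trans (not_le.1 hc).le)
      simp [this]
  rw [Metric.tendsto_atTop']
  intro ε hε
  -- parameters
  obtain ⟨V, hV⟩ : ∃ V : ℝ, V = M * (2 * B) := ⟨_, rfl⟩
  have hV0 : 0 < V := by rw [hV]; positivity
  obtain ⟨η, hη⟩ : ∃ η : ℝ, η = ε / (4 * ((c + 1) * (V + 1))) := ⟨_, rfl⟩
  have hη0 : 0 < η := by rw [hη]; positivity
  have hηe : η * ((c + 1) * (V + 1)) = ε / 4 := by
    rw [hη]
    field_simp
  have huc : UniformContinuous (Function.uncurry Ψ) := hcs.uniformContinuous_of_continuous hΨ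
  obtain ⟨δ, hδ, hδ'⟩ := Metric.uniformContinuous_iff.1 huc η hη0
  obtain ⟨K, hK⟩ := exists_nat_gt (1 / δ)
  have hK0 : (0:ℝ) < K := lt_trans (by positivity) hK
  have hK0' : 0 < K := by exact_mod_cast hK0
  have hKδ : 1 / (K:ℝ) < δ := by
    rw [div_lt_iff₀ hK0]
    rw [div_lt_iff₀ hδ] at hK
    linarith
  -- the grid
  obtain ⟨a, ha⟩ : ∃ a : ℕ → ℝ, a = fun i : ℕ => (i : ℝ) / K := ⟨_, rfl⟩
  obtain ⟨s, hs⟩ : ∃ s : ℕ → ℝ, s = fun j : ℕ => -(B:ℝ) + (j : ℝ) / K := ⟨_, rfl⟩
  have ham : Monotone a := by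
    intro i j hij
    rw [ha]
    simp only
    gcongr
  have hsm : Monotone s := by
    intro i j hij
    rw [hs]
    simp only
    gcongr
  have ha0 : a 0 = 0 := by rw [ha]; simp
  have ha0' : ∀ i, 0 ≤ a i := fun i => by rw [← ha0]; exact ham (Nat.zero_le _)
  have haN : a (M * K) = M := by
    rw [ha]
    simp only [Nat.cast_mul]
    field_simp
  have hs0 : s 0 = -B := by rw [hs]; simp
  have hsJ : s (2 * B * K) = B := by
    rw [hs]
    simp only [Nat.cast_mul, Nat.cast_ofNat]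
    field_simp
    ring
  have hda : ∀ i, a (i + 1) - a i = 1 / K := fun i => by
    rw [ha]
    simp only [Nat.cast_add, Nat.cast_one]
    ring
  have hds : ∀ i, s (i + 1) - s i = 1 / K := fun i => by
    rw [hs]
    simp only [Nat.cast_add, Nat.cast_one]
    ring
  obtain ⟨C, hC⟩ : ∃ C : ℕ → ℕ → ℝ → Finset ι, C = fun i j X => (S (a (i + 1) * X) \ S (a i * X)).filter
      (fun e => s j ≤ t e ∧ t e < s (j + 1)) := ⟨_, rfl⟩
  have hlim : ∀ i j, Tendsto (fun X : ℝ => ((C i j X).card : ℝ) / X) atTop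
      (nhds (c * (1 / K * (1 / K)))) := by
    intro i j
    have h1 := rt_cell A S m t hS hm c hc (a i) (a (i + 1)) (s j) (s (j + 1)) (ha0' i)
      (ham (Nat.le_succ _)) (hsm (Nat.le_succ _))
    rw [hda, hds] at h1
    rw [hC]
    exact h1
  have hNJ : ∀ w : ℝ, ∑ i ∈ range (M * K), ∑ j ∈ range (2 * B * K), w * (1 / K * (1 / K)) = w * V := by
    intro w
    simp only [Finset.sum_const, Finset.card_range, nsmul_eq_mul, Nat.cast_mul, Nat.cast_ofNat]
    rw [hV]
    field_simp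
  -- variation on a cell
  have hvar : ∀ i j, ∀ y ∈ Set.Icc (a i) (a (i + 1)), ∀ u ∈ Set.Icc (s j) (s (j + 1)),
      |Ψ y u - Ψ (a i) (s j)| ≤ η := by
    intro i j y hy u hu
    have h1 := hda i
    have h2 := hds j
    have h3 : dist (y, u) (a i, s j) < δ := by
      rw [Prod.dist_eq]
      refine max_lt ?_ ?_
      · rw [Real.dist_eq, abs_of_nonneg (sub_nonneg.2 hy.1)]
        linarith only [hy.2, h1, hKδ]
      · rw [Real.dist_eq, abs_of_nonneg (sub_nonneg.2 hu.1)]
        linarith only [hu.2, h2, hKδ]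
    have h4 := hδ' h3
    rw [Real.dist_eq] at h4
    exact h4.le
  -- Riemann sum and integral
  obtain ⟨I, hI⟩ : ∃ I : ℝ, I = ∑ i ∈ range (M * K), ∑ j ∈ range (2 * B * K),
      Ψ (a i) (s j) * (1 / K * (1 / K)) := ⟨_, rfl⟩
  have hint2 : |(∫ y, ∫ u, Ψ y u) - I| ≤ η * V := by
    rw [hint]
    have h1 := rt_split Ψ hΨ (M * K) (2 * B * K) a s
    rw [ha0, haN, hs0, hsJ] at h1
    rw [h1, hI, ← Finset.sum_sub_distrib]
    rw [← hNJ η]
    refine (Finset.abs_sum_le_sum_abs _ _).trans (Finset.sum_le_sum fun i _ => ?_)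
    rw [← Finset.sum_sub_distrib]
    refine (Finset.abs_sum_le_sum_abs _ _).trans (Finset.sum_le_sum fun j _ => ?_)
    have h2 := rt_cellint Ψ hΨ (a i) (a (i + 1)) (s j) (s (j + 1)) (Ψ (a i) (s j)) η
      (ham (Nat.le_succ _)) (hsm (Nat.le_succ _)) (hvar i j)
    rw [hda, hds] at h2
    exact h2
  -- limits of the sums over cells
  have hl1 : Tendsto (fun X : ℝ => ∑ i ∈ range (M * K), ∑ j ∈ range (2 * B * K),
      ((C i j X).card : ℝ) / X) atTop (nhds (c * V)) := by
    rw [← hNJ c]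
    exact tendsto_finset_sum _ fun i _ => tendsto_finset_sum _ fun j _ => hlim i j
  have hl2 : Tendsto (fun X : ℝ => ∑ i ∈ range (M * K), ∑ j ∈ range (2 * B * K),
      Ψ (a i) (s j) * (((C i j X).card : ℝ) / X)) atTop (nhds (c * I)) := by
    have e : c * I = ∑ i ∈ range (M * K), ∑ j ∈ range (2 * B * K),
      Ψ (a i) (s j) * (c * (1 / K * (1 / K))) := by
      rw [hI, Finset.mul_sum]
      apply Finset.sum_congr rfl
      intro i _
      rw [Finset.mul_sum]
      apply Finset.sum_congr rfl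
      intro j _
      ring
    rw [e]
    exact tendsto_finset_sum _ fun i _ => tendsto_finset_sum _ fun j _ => (hlim i j).const_mul _
  have hev1 := hl1.eventually (gt_mem_nhds (show c * V < c * V + 1 by linarith))
  have hev2 := (Metric.tendsto_nhds.1 hl2) (ε / 4) (by linarith)
  obtain ⟨X0, hX0⟩ := ((hev1.and hev2).and (eventually_gt_atTop (0:ℝ))).exists_forall_of_atTop
  refine ⟨X0, fun X hXX => ?_⟩
  obtain ⟨⟨h1, h2⟩, hX⟩ := hX0 X (le_of_lt hXX)
  -- the sum over the points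
  have hsum : ∑ e ∈ S (b * X), Ψ (m e / X) (t e) = ∑ e ∈ S (a (M * K) * X), Ψ (m e / X) (t e) := by
    rw [haN]
    apply Finset.sum_subset
    · intro e he
      rw [hS] at he ⊢
      exact ⟨he.1, he.2.trans (mul_le_mul_of_nonneg_right hMb hX.le)⟩
    · intro e he he'
      rw [hS] at he he'
      apply hb
      rw [le_div_iff₀ hX]
      by_contra hcon
      exact he' ⟨he.1, (not_le.1 hcon).le⟩
  have hsum2 := rt_sum A S m t hS hm X hX a s ham ha0 hsm (fun e => Ψ (m e / X) (t e)) (M * K)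
    (2 * B * K) (by
      intro e he
      by_contra hcon
      have h3 := abs_lt.1 (hB _ _ hcon)
      apply he
      rw [hs0, hsJ]
      exact ⟨h3.1.le, h3.2⟩)
  have hest : |(∑ e ∈ S (b * X), Ψ (m e / X) (t e)) / X - ∑ i ∈ range (M * K),
      ∑ j ∈ range (2 * B * K), Ψ (a i) (s j) * (((C i j X).card : ℝ) / X)| ≤ η * (c * V + 1) := by
    refine le_trans ?_ (mul_le_mul_of_nonneg_left h1.le hη0.le)
    rw [hsum, hsum2, Finset.sum_div, ← Finset.sum_sub_distrib, Finset.mul_sum]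
    refine (Finset.abs_sum_le_sum_abs _ _).trans (Finset.sum_le_sum fun i _ => ?_)
    rw [Finset.sum_div, ← Finset.sum_sub_distrib, Finset.mul_sum]
    refine (Finset.abs_sum_le_sum_abs _ _).trans (Finset.sum_le_sum fun j _ => ?_)
    have h5 : ∑ e ∈ (S (a (i + 1) * X) \ S (a i * X)).filter
        (fun e => s j ≤ t e ∧ t e < s (j + 1)), Ψ (m e / X) (t e) =
        ∑ e ∈ C i j X, Ψ (m e / X) (t e) := by rw [hC]
    rw [h5]
    have h6 : (∑ e ∈ C i j X, Ψ (m e / X) (t e)) / X - Ψ (a i) (s j) * (((C i j X).card : ℝ) / X) =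
        (∑ e ∈ C i j X, (Ψ (m e / X) (t e) - Ψ (a i) (s j))) / X := by
      rw [Finset.sum_sub_distrib, Finset.sum_const, nsmul_eq_mul]
      ring
    rw [h6, abs_div, abs_of_pos hX, ← mul_div_assoc]
    apply div_le_div_of_nonneg_right _ hX.le
    refine (Finset.abs_sum_le_sum_abs _ _).trans ?_
    have h7 : ∀ e ∈ C i j X, |Ψ (m e / X) (t e) - Ψ (a i) (s j)| ≤ η := by
      intro e he
      rw [hC] at he
      simp only [Finset.mem_filter, Finset.mem_sdiff, hS] at he
      obtain ⟨⟨⟨hA, he1⟩, he2⟩, he3, he4⟩ := he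
      apply hvar i j _ _ _ ⟨he3, he4.le⟩
      constructor
      · rw [le_div_iff₀ hX]
        by_contra hcon
        exact he2 ⟨hA, (not_le.1 hcon).le⟩
      · rw [div_le_iff₀ hX]
        exact he1
    calc ∑ e ∈ C i j X, |Ψ (m e / X) (t e) - Ψ (a i) (s j)| ≤ ∑ e ∈ C i j X, η :=
          Finset.sum_le_sum h7
      _ = η * (C i j X).card := by rw [Finset.sum_const, nsmul_eq_mul, mul_comm]
  rw [Real.dist_eq] at h2 ⊢
  have h8 : |c * I - c * ∫ y, ∫ u, Ψ y u| ≤ c * (η * V) := by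
    rw [← mul_sub, abs_mul, abs_of_nonneg hc0, abs_sub_comm]
    exact mul_le_mul_of_nonneg_left hint2 hc0
  have h9 : η * (c * V + 1) ≤ ε / 4 := by
    rw [← hηe]
    apply mul_le_mul_of_nonneg_left _ hη0.le
    have e1 : (c + 1) * (V + 1) = c * V + 1 + c + V := by ring
    rw [e1]
    linarith only [hc0, hV0]
  have h10 : c * (η * V) ≤ ε / 4 := by
    rw [← hηe]
    have e1 : η * ((c + 1) * (V + 1)) = c * (η * V) + c * η + η * V + η := by ring
    rw [e1]
    linarith only [mul_pos hη0 hV0, mul_nonneg hc0 hη0.le, hη0]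
  rw [abs_lt] at h2 ⊢
  rw [abs_le] at hest h8
  constructor
  · linarith only [hest.1, h8.1, h2.1, h9, h10, hε]
  · linarith only [hest.2, h8.2, h2.2, h9, h10, hε]

end Pool.Agent.OmEq
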