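import Pool.Agent.Lib_MP_f1a94e_eq.ArcPair
import Pool.Agent.Lib_MP_f1a94e_eq.CnB

/-!
# Piece QDS: the sums over multiples of `d`
-/

set_option autoImplicit false

namespace Pool.Agent.OmEq

open Finset Pool.Agent.GaussMR Pool.Agent.OmAll MeasureTheory Filter

/-! ### weights -/

/-- the weight `ww` cut near zero -/
noncomputable def qdsW (η s : ℝ) : ℝ := ww s * min 1 (max 0 (s / η))

theorem qdsW_cont (η : ℝ) : Continuous (qdsW η) := by
  unfold qdsW
  exact ww_props.1.mul (continuous_const.min (continuous_const.max (continuous_id.div_const η)))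

theorem qdsW_cut (η s : ℝ) : 0 ≤ min 1 (max 0 (s / η)) ∧ min 1 (max 0 (s / η)) ≤ 1 :=
  ⟨le_min zero_le_one (le_max_left _ _), min_le_left _ _⟩

theorem qdsW_nn (η s : ℝ) : 0 ≤ qdsW η s := mul_nonneg (ww_props.2.1 s) (qdsW_cut η s).1

theorem qdsW_le (η s : ℝ) : qdsW η s ≤ ww s :=
  mul_le_of_le_one_right (ww_props.2.1 s) (qdsW_cut η s).2

theorem qdsW_le1 (η s : ℝ) : qdsW η s ≤ 1 := (qdsW_le η s).trans (ww_props.2.2.1 s)

theorem qdsW_lo {η s : ℝ} (hη : 0 < η) (hs : s ≤ 0) : qdsW η s = 0 := by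
  unfold qdsW
  have h : s / η ≤ 0 := div_nonpos_of_nonpos_of_nonneg hs hη.le
  rw [max_eq_left h, min_eq_right zero_le_one, mul_zero]

theorem qdsW_hi {η s : ℝ} (hs : 1 ≤ s) : qdsW η s = 0 := by
  unfold qdsW
  rw [ww_props.2.2.2 s (hs.trans (le_abs_self s)), zero_mul]

theorem qdsW_eq {η s : ℝ} (hη : 0 < η) (hs : η ≤ s) : qdsW η s = ww s := by
  unfold qdsW
  have h : 1 ≤ s / η := by rwa [le_div_iff₀ hη, one_mul]
  rw [min_eq_left (h.trans (le_max_right _ _)), mul_one]

theorem qdsW_uc (η : ℝ) (hη : 0 < η) : UniformContinuous (qdsW η) := by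
  refine HasCompactSupport.uniformContinuous_of_continuous ?_ (qdsW_cont η)
  refine HasCompactSupport.of_support_subset_isCompact (isCompact_Icc (a := (0 : ℝ)) (b := 1)) ?_
  intro s hs
  rw [Function.mem_support] at hs
  constructor
  · by_contra hc
    exact hs (qdsW_lo hη (not_le.1 hc).le)
  · by_contra hc
    exact hs (qdsW_hi (not_le.1 hc).le)

theorem qds_huc {h : ℝ → ℝ} {h1 h2 : ℝ} (hh : HF h h1 h2) : UniformContinuous h := by
  refine HasCompactSupport.uniformContinuous_of_continuous ?_ hh.cont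
  refine HasCompactSupport.of_support_subset_isCompact (isCompact_Icc (a := h1) (b := h2)) ?_
  intro s hs
  rw [Function.mem_support] at hs
  constructor
  · by_contra hc
    exact hs (hh.lo s (not_le.1 hc).le)
  · by_contra hc
    exact hs (hh.hi s (not_le.1 hc).le)

theorem qds_ps0_nn (t : ℝ) : 0 ≤ ps0 t := le_max_left _ _

theorem qds_ps0_le (t : ℝ) : ps0 t ≤ 1 := by
  unfold ps0
  exact max_le zero_le_one (by linarith [abs_nonneg t])

theorem qds_ps0_ne {t : ℝ} (h : ps0 t ≠ 0) : |t| < 1 := by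
  by_contra hc
  apply h
  unfold ps0
  rw [max_eq_left]
  linarith [not_lt.1 hc]

theorem qds_ps0_cont : Continuous ps0 := by
  unfold ps0
  exact continuous_const.max (continuous_const.sub continuous_abs)

theorem qds_exp1 : Real.exp 1 ≤ 4 := by
  have := Real.exp_one_lt_d9
  linarith

theorem qds_ratio {X X' : ℝ} (hX : 0 < X) (hX' : 0 < X') (h : |Real.log X' - Real.log X| < 1) :
    X' ≤ 4 * X ∧ X ≤ 4 * X' := by
  rw [abs_lt] at h
  constructor
  · have h1 : Real.log X' < 1 + Real.log X := by linarith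
    have h2 := Real.exp_lt_exp.2 h1
    rw [Real.exp_add, Real.exp_log hX, Real.exp_log hX'] at h2
    nlinarith [qds_exp1]
  · have h1 : Real.log X < 1 + Real.log X' := by linarith
    have h2 := Real.exp_lt_exp.2 h1
    rw [Real.exp_add, Real.exp_log hX, Real.exp_log hX'] at h2
    nlinarith [qds_exp1]

theorem qds_sqrt {X X' : ℝ} (hX : 0 < X) (hX' : 0 < X') (h : |Real.log X' - Real.log X| < 1) :
    Real.sqrt (X * X') ≤ 2 * X ∧ Real.sqrt (X * X') ≤ 2 * X' ∧ X ≤ 2 * Real.sqrt (X * X') ∧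
      X' ≤ 2 * Real.sqrt (X * X') := by
  obtain ⟨h1, h2⟩ := qds_ratio hX hX' h
  have hXX : 0 ≤ X * X' := by positivity
  refine ⟨?_, ?_, ?_, ?_⟩
  · rw [Real.sqrt_le_left (by positivity)]
    nlinarith
  · rw [Real.sqrt_le_left (by positivity)]
    nlinarith
  · have h3 : X / 2 ≤ Real.sqrt (X * X') := by
      apply Real.le_sqrt_of_sq_le
      nlinarith
    linarith
  · have h3 : X' / 2 ≤ Real.sqrt (X * X') := by
      apply Real.le_sqrt_of_sq_le
      nlinarith
    linarith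

/-- the weight of `arcpair` -/
noncomputable def qdsF (h : ℝ → ℝ) (η c : ℝ) (x x' σ : ℝ) : ℝ :=
  qdsW η (Real.sqrt (max x c * max x' c) * σ) * h (Real.sqrt (max x c * max x' c)) ^ 2 *
    ps0 (Real.log (max x' c) - Real.log (max x c))

theorem qdsF_cont {h : ℝ → ℝ} (hh : Continuous h) (η : ℝ) {c : ℝ} (hc : 0 < c) :
    Continuous (fun v : ℝ × ℝ × ℝ => qdsF h η c v.1 v.2.1 v.2.2) := by
  have c1 : Continuous (fun v : ℝ × ℝ × ℝ => max v.1 c) := continuous_fst.max continuous_const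
  have c2 : Continuous (fun v : ℝ × ℝ × ℝ => max v.2.1 c) := (continuous_fst.comp continuous_snd).max continuous_const
  have c3 : Continuous (fun v : ℝ × ℝ × ℝ => v.2.2) := continuous_snd.comp continuous_snd
  have c4 : Continuous (fun v : ℝ × ℝ × ℝ => Real.sqrt (max v.1 c * max v.2.1 c)) := (c1.mul c2).sqrt
  have c5 : Continuous (fun v : ℝ × ℝ × ℝ => Real.log (max v.1 c)) :=
    c1.log (fun v => (lt_of_lt_of_le hc (le_max_right _ _)).ne')
  have c6 : Continuous (fun v : ℝ × ℝ × ℝ => Real.log (max v.2.1 c)) :=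
    c2.log (fun v => (lt_of_lt_of_le hc (le_max_right _ _)).ne')
  unfold qdsF
  exact (((qdsW_cont η).comp (c4.mul c3)).mul ((hh.comp c4).pow 2)).mul (qds_ps0_cont.comp (c6.sub c5))

theorem qdsF_van {h : ℝ → ℝ} {h1 h2 : ℝ} (hh : HF h h1 h2) {η : ℝ} (hη : 0 < η) (x x' σ : ℝ)
    (hv : x ≤ h1 / 2 ∨ x' ≤ h1 / 2 ∨ 3 * h2 ≤ x ∨ 3 * h2 ≤ x' ∨ σ ≤ 0 ∨ 1 / h1 ≤ σ) :
    qdsF h η (h1 / 2) x x' σ = 0 := by
  have h1p := hh.pos
  have hc : 0 < h1 / 2 := by linarith
  have hX : 0 < max x (h1 / 2) := lt_of_lt_of_le hc (le_max_right _ _)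
  have hX' : 0 < max x' (h1 / 2) := lt_of_lt_of_le hc (le_max_right _ _)
  by_contra hne
  unfold qdsF at hne
  have n3 := right_ne_zero_of_mul hne
  have n12 := left_ne_zero_of_mul hne
  have n1 := left_ne_zero_of_mul n12
  have n2 : h (Real.sqrt (max x (h1 / 2) * max x' (h1 / 2))) ≠ 0 := by
    intro h0
    apply right_ne_zero_of_mul n12
    rw [h0]
    norm_num
  obtain ⟨s1, s2, s3, s4⟩ := qds_sqrt hX hX' (qds_ps0_ne n3)
  have lo : h1 < Real.sqrt (max x (h1 / 2) * max x' (h1 / 2)) := by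
    by_contra hc
    exact n2 (hh.lo _ (not_lt.1 hc))
  have hi : Real.sqrt (max x (h1 / 2) * max x' (h1 / 2)) < h2 := by
    by_contra hc
    exact n2 (hh.hi _ (not_lt.1 hc))
  have h2p := hh.one
  rcases hv with hv | hv | hv | hv | hv | hv
  · rw [max_eq_right hv] at s1 lo
    linarith
  · rw [max_eq_right hv] at s2 lo
    linarith
  · have := le_max_left x (h1 / 2)
    linarith
  · have := le_max_left x' (h1 / 2)
    linarith
  · apply n1
    apply qdsW_lo hη
    exact mul_nonpos_of_nonneg_of_nonpos (Real.sqrt_nonneg _) hv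
  · apply n1
    apply qdsW_hi
    have h3 : h1 * (1 / h1) = 1 := by field_simp
    rw [← h3]
    exact mul_le_mul lo.le hv (by positivity) (Real.sqrt_nonneg _)

theorem qdsF_eq {h : ℝ → ℝ} {h1 h2 : ℝ} (hh : HF h h1 h2) {η : ℝ} (hη : 0 < η) {x x' : ℝ} (σ : ℝ)
    (hx : 0 < x) (hx' : 0 < x') :
    qdsF h η (h1 / 2) x x' σ = qdsW η (Real.sqrt (x * x') * σ) * h (Real.sqrt (x * x')) ^ 2 *
      ps0 (Real.log x' - Real.log x) := by
  by_cases hc : h1 / 2 ≤ x ∧ h1 / 2 ≤ x'
  · unfold qdsF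
    rw [max_eq_left hc.1, max_eq_left hc.2]
  · have h0 : qdsF h η (h1 / 2) x x' σ = 0 := by
      apply qdsF_van hh hη
      by_contra hn
      apply hc
      constructor
      · by_contra h3
        exact hn (Or.inl (not_le.1 h3).le)
      · by_contra h3
        exact hn (Or.inr (Or.inl (not_le.1 h3).le))
    rw [h0]
    by_contra hne
    have hne' := Ne.symm hne
    have n3 := right_ne_zero_of_mul hne'
    have n12 := left_ne_zero_of_mul hne'
    have n2 : h (Real.sqrt (x * x')) ≠ 0 := by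
      intro h0
      apply right_ne_zero_of_mul n12
      rw [h0]
      norm_num
    obtain ⟨s1, s2, s3, s4⟩ := qds_sqrt hx hx' (qds_ps0_ne n3)
    have lo : h1 < Real.sqrt (x * x') := by
      by_contra hc
      exact n2 (hh.lo _ (not_lt.1 hc))
    apply hc
    constructor <;> linarith

/-! ### geometry of a pair -/

theorem qds_norm (V V' : G) : ‖((star V * V' : G) : ℂ)‖ = Real.sqrt ((nm V : ℝ) * nm V') := by
  rw [norm_eq_sqrt, nm_mul, nm_star]
  push_cast
  rfl

theorem qds_cos (V V' : G) : Real.sqrt ((nm V : ℝ) * nm V') * Real.cos (ang V V') = ((dot V V' : ℤ) : ℝ) := by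
  unfold ang
  rw [← qds_norm, Complex.norm_mul_cos_arg, star_mul_eq, ← GaussianInt.intCast_re]

theorem qds_sin (V V' : G) : Real.sqrt ((nm V : ℝ) * nm V') * Real.sin (ang V V') = ((det V V' : ℤ) : ℝ) := by
  unfold ang
  rw [← qds_norm, Complex.norm_mul_sin_arg, star_mul_eq, ← GaussianInt.intCast_im]

theorem qds_geo {V V' : G} (hdot : 0 < dot V V') (hdet : 0 < det V V') :
    0 < ang V V' ∧ ((det V V' : ℤ) : ℝ) ≤ Real.sqrt ((nm V : ℝ) * nm V') * ang V V' ∧
    ang V V' * ((dot V V' : ℤ) : ℝ) ≤ ((det V V' : ℤ) : ℝ) ∧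
    ((dot V V' : ℤ) : ℝ) ≤ Real.sqrt ((nm V : ℝ) * nm V') ∧
    Real.sqrt ((nm V : ℝ) * nm V') ≤ ((dot V V' : ℤ) : ℝ) + ((det V V' : ℤ) : ℝ) ∧
    (Real.sqrt ((nm V : ℝ) * nm V') * ang V V' - ((det V V' : ℤ) : ℝ)) * ((dot V V' : ℤ) : ℝ) ≤
      ((det V V' : ℤ) : ℝ) ^ 2 := by
  have hc := qds_cos V V'
  have hs := qds_sin V V'
  have e : ((dot V V' : ℤ) : ℝ) ^ 2 + ((det V V' : ℤ) : ℝ) ^ 2 = (nm V : ℝ) * nm V' := by
    exact_mod_cast dot_sq_add_det_sq V V'
  have hdot' : (0 : ℝ) < ((dot V V' : ℤ) : ℝ) := by exact_mod_cast hdot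
  have hdet' : (0 : ℝ) < ((det V V' : ℤ) : ℝ) := by exact_mod_cast hdet
  set x := ((dot V V' : ℤ) : ℝ) with hx
  set y := ((det V V' : ℤ) : ℝ) with hy
  set φ := ang V V' with hφ
  set ρ := Real.sqrt ((nm V : ℝ) * nm V') with hρ
  have hρ0 : 0 ≤ ρ := Real.sqrt_nonneg _
  have hρ1 : 0 < ρ := by
    rcases hρ0.lt_or_eq with h | h
    · exact h
    · rw [← h, zero_mul] at hc
      linarith
  have hφ1 : 0 ≤ φ := by
    rw [hφ]
    unfold ang
    rw [Complex.arg_nonneg_iff, star_mul_eq, ← GaussianInt.intCast_im]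
    exact hdet'.le
  have hφ2 : 0 < φ := by
    rcases hφ1.lt_or_eq with h | h
    · exact h
    · rw [← h, Real.sin_zero, mul_zero] at hs
      linarith
  have hφ3 : φ < Real.pi / 2 := by
    have h1 : |φ| < Real.pi / 2 := by
      rw [hφ]
      unfold ang
      rw [Complex.abs_arg_lt_pi_div_two_iff]
      left
      rw [star_mul_eq, ← GaussianInt.intCast_re]
      exact hdot'
    exact (le_abs_self _).trans_lt h1
  have hcos : 0 < Real.cos φ := Real.cos_pos_of_mem_Ioo ⟨by linarith, hφ3⟩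
  have h1 : y ≤ ρ * φ := by
    rw [← hs]
    exact mul_le_mul_of_nonneg_left (Real.sin_le hφ1) hρ0
  have h2 : φ * x ≤ y := by
    have h3 := Real.le_tan hφ1 hφ3
    rw [Real.tan_eq_sin_div_cos, le_div_iff₀ hcos] at h3
    rw [← hc, ← hs]
    have h4 := mul_le_mul_of_nonneg_left h3 hρ0
    linarith only [h4]
  have h3 : x ≤ ρ := by
    rw [← hc]
    exact mul_le_of_le_one_right hρ0 (Real.cos_le_one _)
  have h4 : ρ ≤ x + y := by
    rw [hρ, Real.sqrt_le_left (add_nonneg hdot'.le hdet'.le)]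
    have h5 := mul_pos hdot' hdet'
    linarith only [h5, e]
  refine ⟨hφ2, h1, h2, h3, h4, ?_⟩
  have h5 : ρ * φ * x ≤ ρ * y := by
    rw [mul_assoc]
    exact mul_le_mul_of_nonneg_left h2 hρ0
  have h6 := mul_le_mul_of_nonneg_right h4 hdet'.le
  linarith only [h5, h6]

theorem qds_geo2 {V V' : G} (hV : V ≠ 0) (hV' : V' ≠ 0) (h0 : 0 < ang V V') (h1 : ang V V' < Real.pi / 2) :
    0 < dot V V' ∧ 0 < det V V' := by
  have hc := qds_cos V V'
  have hs := qds_sin V V'
  have hcos : 0 < Real.cos (ang V V') := Real.cos_pos_of_mem_Ioo ⟨by linarith, h1⟩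
  have hsin : 0 < Real.sin (ang V V') := Real.sin_pos_of_pos_of_lt_pi h0 (by linarith [Real.pi_pos])
  have hρ : 0 < Real.sqrt ((nm V : ℝ) * nm V') := by
    apply Real.sqrt_pos.2
    have a1 : (0 : ℝ) < nm V := by exact_mod_cast nm_pos hV
    have a2 : (0 : ℝ) < nm V' := by exact_mod_cast nm_pos hV'
    positivity
  constructor
  · have : (0 : ℝ) < ((dot V V' : ℤ) : ℝ) := by
      rw [← hc]
      positivity
    exact_mod_cast this
  · have : (0 : ℝ) < ((det V V' : ℤ) : ℝ) := by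
      rw [← hs]
      positivity
    exact_mod_cast this

/-! ### the weight of the sums `Qs` -/

open Classical in
/-- the periodic factor -/
noncomputable def qdsK (d : ℕ) (V V' : G) : ℂ :=
  if ((d : ℤ) ∣ det V V' ∧ ((4 : ℤ) ∣ det V V' → cg 4 V' V)) then (if (4 : ℤ) ∣ det V V' then 2 else 1) else 0

theorem qdsK_bd (d : ℕ) (V V' : G) : ‖qdsK d V V'‖ ≤ 2 := by
  classical
  unfold qdsK
  split_ifs <;> simp

theorem qdsK_per (d : ℕ) (V V' U U' : G) (h : cg (4 * d) V U) (h' : cg (4 * d) V' U') :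
    qdsK d V V' = qdsK d U U' := by
  have h1 := det_cg h h'
  have hd : (d : ℤ) ∣ det V V' ↔ (d : ℤ) ∣ det U U' := by
    apply dvd_iff_dvd_of_dvd_sub
    exact (Int.natCast_dvd_natCast.2 (dvd_mul_left d 4)).trans h1
  have h4 : (4 : ℤ) ∣ det V V' ↔ (4 : ℤ) ∣ det U U' := by
    apply dvd_iff_dvd_of_dvd_sub
    exact (Int.natCast_dvd_natCast.2 (dvd_mul_right 4 d)).trans h1
  have hc : cg 4 V' V ↔ cg 4 U' U := by
    have a1 : cg 4 V U := cg_mono (dvd_mul_right 4 d) h
    have a2 : cg 4 V' U' := cg_mono (dvd_mul_right 4 d) h'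
    exact ⟨fun h => cg_trans (cg_symm a2) (cg_trans h a1), fun h => cg_trans a2 (cg_trans h (cg_symm a1))⟩
  have hP : ((d : ℤ) ∣ det V V' ∧ ((4 : ℤ) ∣ det V V' → cg 4 V' V)) ↔
      ((d : ℤ) ∣ det U U' ∧ ((4 : ℤ) ∣ det U U' → cg 4 U' U)) := by rw [hd, h4, hc]
  unfold qdsK
  by_cases hp : ((d : ℤ) ∣ det V V' ∧ ((4 : ℤ) ∣ det V V' → cg 4 V' V))
  · rw [if_pos hp, if_pos (hP.1 hp)]
    by_cases h5 : (4 : ℤ) ∣ det V V'
    · rw [if_pos h5, if_pos (h4.1 h5)]
    · rw [if_neg h5, if_neg (fun h6 => h5 (h4.2 h6))]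
  · rw [if_neg hp, if_neg (fun h6 => hp (hP.2 h6))]

/-- the weight of a pair in the sums `Qs` -/
noncomputable def qdsT (h : ℝ → ℝ) (N : ℕ) (Y : ℝ) (e : G × G) : ℝ :=
  if 0 < dot e.1 e.2 ∧ 1 ≤ det e.1 e.2 ∧ det e.1 e.2 ≤ N then
    ww (((det e.1 e.2 : ℤ) : ℝ) / N) * h (mE e / Y) ^ 2 * ps0 (tE e) else 0

theorem qds_Prim_ne {z : G} (hz : Prim z) : z ≠ 0 := by
  rintro rfl
  exact arcpair_prim0 hz

theorem qds_nm_pos {z : G} (hz : Prim z) : (0 : ℝ) < nm z := by
  exact_mod_cast nm_pos (qds_Prim_ne hz)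

open Classical in
theorem qds_sum (f : ℕ → ℂ) (d : ℕ) {h : ℝ → ℝ} {h1 h2 : ℝ} (hh : HF h h1 h2) {N : ℕ} {Y : ℝ}
    (hY : 2 * (N : ℝ) ≤ Y) (hY0 : 0 < Y) :
    ∑ n ∈ (Icc 1 N).filter (fun n => d ∣ n), ((kap n * ww ((n : ℝ) / N) : ℝ) : ℂ) *
      Qs f n (h2 * Y) (fun y t => ((h y ^ 2 * ps0 t : ℝ) : ℂ)) Y =
    ∑ e ∈ PV (3 * h2 * Y) ×ˢ PV (3 * h2 * Y), qdsK d e.1 e.2 * (f (nm e.1) * (starRingEnd ℂ) (f (nm e.2))) *
      ((qdsT h N Y e : ℝ) : ℂ) := by
  have h2p := hh.one
  set P := PV (3 * h2 * Y) ×ˢ PV (3 * h2 * Y) with hP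
  set T : G × G → ℂ := fun e => qdsK d e.1 e.2 * (f (nm e.1) * (starRingEnd ℂ) (f (nm e.2))) *
      ((qdsT h N Y e : ℝ) : ℂ) with hT
  have e1 : ∀ e ∈ P, T e = ∑ n ∈ Icc 1 N, if det e.1 e.2 = (n : ℤ) then T e else 0 := by
    intro e _
    by_cases hc : 1 ≤ det e.1 e.2 ∧ det e.1 e.2 ≤ N
    · rw [sum_eq_single (det e.1 e.2).toNat]
      · rw [if_pos]
        rw [Int.toNat_of_nonneg (by linarith [hc.1])]
      · intro n _ hn
        rw [if_neg]
        intro h3
        apply hn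
        rw [h3, Int.toNat_natCast]
      · intro h3
        exfalso
        apply h3
        rw [mem_Icc]
        omega
    · have h0 : T e = 0 := by
        rw [hT]
        dsimp only
        unfold qdsT
        rw [if_neg (fun h3 => hc h3.2), Complex.ofReal_zero, mul_zero]
      rw [h0]
      symm
      apply sum_eq_zero
      intro n _
      rw [ite_self]
  rw [sum_congr rfl e1, sum_comm, sum_filter]
  apply sum_congr rfl
  intro n hn
  rw [mem_Icc] at hn
  have hn0 : 0 < n := hn.1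
  have hnN : (n : ℝ) ≤ N := by exact_mod_cast hn.2
  rw [← sum_filter]
  split_ifs with hdn
  · unfold Qs
    rw [mul_sum]
    have hd4 : ∀ e : G × G, det e.1 e.2 = (n : ℤ) → ((4 : ℤ) ∣ det e.1 e.2 ↔ 4 ∣ n) := by
      intro e he
      rw [he]
      exact Int.natCast_dvd_natCast
    have hdd : ∀ e : G × G, det e.1 e.2 = (n : ℤ) → (d : ℤ) ∣ det e.1 e.2 := by
      intro e he
      rw [he]
      exact Int.natCast_dvd_natCast.2 hdn
    apply sum_congr_of_eq_on_inter
    · intro e he hne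
      rw [mem_filter, mem_EN hn0] at he
      obtain ⟨⟨hEn, hm⟩, hhc⟩ := he
      have hEn' := (En_iff hn0 e).1 hEn
      have hnP : e ∉ P := by
        intro h3
        exact hne (mem_filter.2 ⟨h3, hEn'.1⟩)
      by_cases hps : ps0 (tE e) = 0
      · dsimp only
        rw [hps]
        simp
      · by_cases hh0 : h (mE e / Y) = 0
        · dsimp only
          rw [hh0]
          simp
        · exfalso
          apply hnP
          have a1 := qds_nm_pos hEn'.2.2.1
          have a2 := qds_nm_pos hEn'.2.2.2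
          obtain ⟨s1, s2, s3, s4⟩ := qds_sqrt a1 a2 (qds_ps0_ne hps)
          have hdet : 0 < det e.1 e.2 := by
            rw [hEn'.1]
            exact_mod_cast hn0
          obtain ⟨-, -, -, -, g5, -⟩ := qds_geo hEn'.2.1 hdet
          have g6 : ((det e.1 e.2 : ℤ) : ℝ) = n := by
            rw [hEn'.1]
            norm_cast
          rw [g6] at g5
          have g7 : ((dot e.1 e.2 : ℤ) : ℝ) ≤ h2 * Y := hm
          have g8 : 2 * (h2 * Y + N) ≤ 3 * h2 * Y := by nlinarith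
          rw [hP, mem_product, mem_PV, mem_PV]
          exact ⟨⟨by linarith, hEn'.2.2.1⟩, ⟨by linarith, hEn'.2.2.2⟩⟩
    · intro e he hne
      rw [mem_filter, hP, mem_product, mem_PV, mem_PV] at he
      obtain ⟨⟨⟨-, p1⟩, -, p2⟩, hdet⟩ := he
      rw [mem_filter, mem_EN hn0, En_iff hn0] at hne
      rw [hT]
      dsimp only
      by_cases hdot : 0 < dot e.1 e.2
      · by_cases hm : mE e ≤ h2 * Y
        · have hnc : ¬ hc n e := fun h3 => hne ⟨⟨⟨hdet, hdot, p1, p2⟩, hm⟩, h3⟩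
          have hK : qdsK d e.1 e.2 = 0 := by
            unfold qdsK
            rw [if_neg]
            rintro ⟨-, h4⟩
            apply hnc
            intro h5
            exact h4 ((hd4 e hdet).2 h5)
          rw [hK]
          simp
        · have hz : h (mE e / Y) = 0 := by
            apply hh.hi
            rw [le_div_iff₀ hY0]
            exact (not_le.1 hm).le
          unfold qdsT
          rw [hz]
          simp
      · unfold qdsT
        rw [if_neg (fun h3 => hdot h3.1)]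
        simp
    · intro e he he'
      rw [mem_filter, mem_EN hn0] at he
      obtain ⟨⟨hEn, hm⟩, hhc⟩ := he
      have hdet := hEn.1
      have hdot := hEn.2.1
      have hK : qdsK d e.1 e.2 = ((kap n : ℝ) : ℂ) := by
        unfold qdsK kap
        rw [if_pos ⟨hdd e hdet, fun h4 => hhc ((hd4 e hdet).1 h4)⟩]
        by_cases h4 : 4 ∣ n
        · rw [if_pos ((hd4 e hdet).2 h4), if_pos h4]
          norm_num
        · rw [if_neg (fun h5 => h4 ((hd4 e hdet).1 h5)), if_neg h4]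
          norm_num
      have hTT : qdsT h N Y e = ww ((n : ℝ) / N) * h (mE e / Y) ^ 2 * ps0 (tE e) := by
        unfold qdsT
        rw [if_pos, hdet, Int.cast_natCast]
        · rw [hdet]
          refine ⟨hdot, ?_, ?_⟩
          · exact_mod_cast hn.1
          · exact_mod_cast hn.2
      rw [hT]
      dsimp only
      rw [hK, hTT]
      push_cast
      ring
  · symm
    apply sum_eq_zero
    intro e he
    rw [mem_filter] at he
    have hK : qdsK d e.1 e.2 = 0 := by
      unfold qdsK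
      rw [if_neg]
      rintro ⟨h3, -⟩
      apply hdn
      rw [he.2] at h3
      exact Int.natCast_dvd_natCast.1 h3
    rw [hT]
    dsimp only
    rw [hK]
    simp

/-- pairs with a small determinant -/
def qdsBad (h2 η : ℝ) (N : ℕ) (Y : ℝ) (e : G × G) : Prop :=
  0 < dot e.1 e.2 ∧ 1 ≤ det e.1 e.2 ∧ ((det e.1 e.2 : ℤ) : ℝ) < η * N ∧ |tE e| ≤ 1 ∧ mE e ≤ h2 * Y

open Classical in
theorem qds_bad {C h2 η : ℝ} (hC : 0 < C) (hη : 0 < η) (hη1 : η ≤ 1) (h2p : 1 ≤ h2)
    (hcnt : ∀ n : ℕ, 0 < n → ∀ x : ℝ, (n : ℝ) ≤ x → (((EN n x).filter (fun e => |tE e| ≤ 1)).card : ℝ) ≤ C * x)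
    {N : ℕ} {Y : ℝ} (hY : (N : ℝ) ≤ Y) (X : ℝ) :
    (((PV X ×ˢ PV X).filter (qdsBad h2 η N Y)).card : ℝ) ≤ η * N * (C * (h2 * Y)) := by
  have hN0 : (0 : ℝ) ≤ N := Nat.cast_nonneg _
  have hsub : (PV X ×ˢ PV X).filter (qdsBad h2 η N Y) ⊆
      (Icc 1 ⌊η * N⌋₊).biUnion (fun n => (EN n (h2 * Y)).filter (fun e => |tE e| ≤ 1)) := by
    intro e he
    rw [mem_filter, mem_product, mem_PV, mem_PV] at he
    obtain ⟨⟨⟨-, p1⟩, -, p2⟩, b1, b2, b3, b4, b5⟩ := he
    rw [mem_biUnion]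
    have hd0 : det e.1 e.2 = (((det e.1 e.2).toNat : ℕ) : ℤ) := by
      rw [Int.toNat_of_nonneg (by linarith)]
    have hn0 : 0 < (det e.1 e.2).toNat := by omega
    refine ⟨(det e.1 e.2).toNat, ?_, ?_⟩
    · rw [mem_Icc]
      refine ⟨hn0, ?_⟩
      apply Nat.le_floor
      have h3 : (((det e.1 e.2).toNat : ℕ) : ℝ) = ((det e.1 e.2 : ℤ) : ℝ) := by
        have := congrArg (fun z : ℤ => (z : ℝ)) hd0
        simp only [Int.cast_natCast] at this
        exact this.symm
      rw [h3]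
      exact b3.le
    · rw [mem_filter, mem_EN hn0, En_iff hn0]
      exact ⟨⟨⟨hd0, b1, p1, p2⟩, b5⟩, b4⟩
  have h3 : (((PV X ×ˢ PV X).filter (qdsBad h2 η N Y)).card : ℝ) ≤
      ∑ n ∈ Icc 1 ⌊η * N⌋₊, (((EN n (h2 * Y)).filter (fun e => |tE e| ≤ 1)).card : ℝ) := by
    have := (card_le_card hsub).trans card_biUnion_le
    exact_mod_cast this
  refine h3.trans ?_
  have hY0 : 0 ≤ Y := hN0.trans hY
  refine (sum_le_card_nsmul _ _ (C * (h2 * Y)) ?_).trans ?_
  · intro n hn
    rw [mem_Icc] at hn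
    apply hcnt n hn.1
    have h4 : (n : ℝ) ≤ η * N := (Nat.cast_le.2 hn.2).trans (Nat.floor_le (by positivity))
    have h5 := mul_le_mul_of_nonneg_right hη1 hN0
    have h6 := mul_le_mul_of_nonneg_right h2p hY0
    linarith only [h4, h5, h6, hY]
  · rw [nsmul_eq_mul, Nat.card_Icc, Nat.add_sub_cancel]
    exact mul_le_mul_of_nonneg_right (Nat.floor_le (by positivity)) (by positivity)

/-- comparison of the weights -/
theorem qds_cmp {h : ℝ → ℝ} {h1 h2 : ℝ} (hh : HF h h1 h2) {η : ℝ} (hη : 0 < η) {N : ℕ} (hN : 1 ≤ N)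
    {Y δ : ℝ} (hY0 : 0 < Y) (hY1 : 2 * (N : ℝ) ≤ h1 * Y) (hY2 : (N : ℝ) / (h1 * Y) < Real.pi / 2)
    (hY3 : 2 * (N : ℝ) / (h1 * Y) < δ) (hY4 : (N : ℝ) / Y < δ)
    (hw : ∀ s s' : ℝ, |s - s'| < δ → |qdsW η s - qdsW η s'| < η / 4)
    (hhu : ∀ s s' : ℝ, |s - s'| < δ → |h s - h s'| < η / 4) (e : G × G) (he1 : Prim e.1) (he2 : Prim e.2) :
    (|qdsT h N Y e - qdsF h η (h1 / 2) (nm e.1 / Y) (nm e.2 / Y) (Y * ang e.1 e.2 / N)| ≤ η ∧
      h1 / 4 * Y ≤ nm e.1 ∧ h1 / 4 * Y ≤ nm e.2 ∧ |ang e.1 e.2| ≤ 2 / h1 * N / Y) ∨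
    (|qdsT h N Y e - qdsF h η (h1 / 2) (nm e.1 / Y) (nm e.2 / Y) (Y * ang e.1 e.2 / N)| ≤ 1 + η ∧
      h1 / 4 * Y ≤ nm e.1 ∧ h1 / 4 * Y ≤ nm e.2 ∧ |ang e.1 e.2| ≤ 2 / h1 * N / Y ∧ qdsBad h2 η N Y e) ∨
    (|qdsT h N Y e - qdsF h η (h1 / 2) (nm e.1 / Y) (nm e.2 / Y) (Y * ang e.1 e.2 / N)| ≤ 0) := by
  have h1p := hh.pos
  have hN' : (0 : ℝ) < N := by exact_mod_cast hN
  have a1 := qds_nm_pos he1
  have a2 := qds_nm_pos he2
  have hx : 0 < (nm e.1 : ℝ) / Y := by positivity
  have hx' : 0 < (nm e.2 : ℝ) / Y := by positivity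
  set ρ := Real.sqrt ((nm e.1 : ℝ) * nm e.2) with hρ
  have hρ0 : 0 < ρ := Real.sqrt_pos.2 (by positivity)
  have hs1 : Real.sqrt ((nm e.1 : ℝ) / Y * (nm e.2 / Y)) = ρ / Y := by
    rw [hρ, ← Real.sqrt_sq hY0.le, ← Real.sqrt_div' _ (by positivity), Real.sqrt_sq hY0.le]
    congr 1
    field_simp
  have hlog : Real.log ((nm e.2 : ℝ) / Y) - Real.log ((nm e.1 : ℝ) / Y) = tE e := by
    unfold tE
    rw [Real.log_div a2.ne' hY0.ne', Real.log_div a1.ne' hY0.ne']
    ring
  have hs2 : ρ / Y * (Y * ang e.1 e.2 / N) = ρ * ang e.1 e.2 / N := by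
    field_simp
  rw [qdsF_eq hh hη _ hx hx', hs1, hlog, hs2]
  by_cases hps : ps0 (tE e) = 0
  · right
    right
    unfold qdsT
    rw [hps]
    simp
  have ht1 := qds_ps0_ne hps
  obtain ⟨s1, s2, s3, s4⟩ := qds_sqrt a1 a2 ht1
  rw [← hρ] at s1 s2 s3 s4
  by_cases hpos : 0 < dot e.1 e.2 ∧ 0 < det e.1 e.2
  · obtain ⟨hdot, hdet⟩ := hpos
    obtain ⟨g1, g2, g3, g4, g5, g6⟩ := qds_geo hdot hdet
    rw [← hρ] at g2 g4 g5 g6
    have hmE : mE e = ((dot e.1 e.2 : ℤ) : ℝ) := rfl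
    have hdot' : (0 : ℝ) < ((dot e.1 e.2 : ℤ) : ℝ) := by exact_mod_cast hdot
    have hdet' : (1 : ℝ) ≤ ((det e.1 e.2 : ℤ) : ℝ) := by exact_mod_cast hdet
    rw [← hmE] at g3 g4 g5 g6 hdot'
    set y := ((det e.1 e.2 : ℤ) : ℝ) with hy
    set φ := ang e.1 e.2 with hφ
    by_cases hcase : y < N ∧ h1 * Y / 2 ≤ mE e
    · obtain ⟨k1, k2⟩ := hcase
      have hA1 : h1 / 4 * Y ≤ nm e.1 := by linarith only [k2, g4, s1]
      have hA2 : h1 / 4 * Y ≤ nm e.2 := by linarith only [k2, g4, s2]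
      have hA3 : |φ| ≤ 2 / h1 * N / Y := by
        rw [abs_of_pos g1, div_mul_eq_mul_div, div_div, le_div_iff₀ (mul_pos h1p hY0)]
        have g7 := mul_le_mul_of_nonneg_left k2 g1.le
        linarith only [g7, g3, k1]
      -- closeness of arguments
      have d1 : |mE e / Y - ρ / Y| < δ := by
        rw [← sub_div, abs_div, abs_of_pos hY0, abs_sub_comm, abs_of_nonneg (sub_nonneg.2 g4)]
        refine lt_of_le_of_lt ?_ hY4
        apply div_le_div_of_nonneg_right _ hY0.le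
        linarith only [g5, k1]
      have d2 : |y / N - ρ * φ / N| < δ := by
        rw [← sub_div, abs_div, abs_of_pos hN', abs_sub_comm, abs_of_nonneg (sub_nonneg.2 g2)]
        refine lt_of_le_of_lt ?_ hY3
        rw [div_le_div_iff₀ hN' (mul_pos h1p hY0)]
        have q1 : (ρ * φ - y) * (h1 * Y / 2) ≤ y ^ 2 := by
          refine le_trans ?_ g6
          exact mul_le_mul_of_nonneg_left k2 (sub_nonneg.2 g2)
        have hy0 : 0 ≤ y := zero_le_one.trans hdet'
        have q2 : y ^ 2 ≤ (N : ℝ) * N := by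
          rw [pow_two]
          exact mul_le_mul k1.le k1.le hy0 hN'.le
        linarith only [q1, q2]
      have w1 := hw _ _ d2
      have w2 := hhu _ _ d1
      have hwn := qdsW_nn η (y / N)
      have hwn' := qdsW_nn η (ρ * φ / N)
      have hw1' := qdsW_le1 η (ρ * φ / N)
      have hb0 := hh.nn (mE e / Y)
      have hb1 := hh.le (mE e / Y)
      have hb0' := hh.nn (ρ / Y)
      have hb1' := hh.le (ρ / Y)
      have hp0 := qds_ps0_nn (tE e)
      have hp1 := qds_ps0_le (tE e)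
      have hmain : |qdsW η (y / N) * h (mE e / Y) ^ 2 * ps0 (tE e) -
          qdsW η (ρ * φ / N) * h (ρ / Y) ^ 2 * ps0 (tE e)| ≤ η := by
        rw [← sub_mul, abs_mul, abs_of_nonneg hp0]
        refine (mul_le_of_le_one_right (abs_nonneg _) hp1).trans ?_
        have e1 : qdsW η (y / N) * h (mE e / Y) ^ 2 - qdsW η (ρ * φ / N) * h (ρ / Y) ^ 2 =
            (qdsW η (y / N) - qdsW η (ρ * φ / N)) * h (mE e / Y) ^ 2 +
              qdsW η (ρ * φ / N) * ((h (mE e / Y) - h (ρ / Y)) * (h (mE e / Y) + h (ρ / Y))) := by ring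
        rw [e1]
        refine (abs_add_le _ _).trans ?_
        rw [abs_mul, abs_mul, abs_mul, abs_of_nonneg (sq_nonneg (h (mE e / Y))), abs_of_nonneg hwn',
          abs_of_nonneg (add_nonneg hb0 hb0')]
        have t1 : |qdsW η (y / N) - qdsW η (ρ * φ / N)| * h (mE e / Y) ^ 2 ≤ η / 4 := by
          refine (mul_le_of_le_one_right (abs_nonneg _) ?_).trans w1.le
          exact pow_le_one₀ hb0 hb1
        have t2 : qdsW η (ρ * φ / N) * (|h (mE e / Y) - h (ρ / Y)| * (h (mE e / Y) + h (ρ / Y))) ≤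
            1 * (η / 4 * 2) := by
          apply mul_le_mul hw1' _ (mul_nonneg (abs_nonneg _) (add_nonneg hb0 hb0')) zero_le_one
          exact mul_le_mul w2.le (by linarith only [hb1, hb1']) (add_nonneg hb0 hb0')
            (by linarith only [hη])
        linarith only [t1, t2, hη]
      by_cases hsm : y < η * N
      · -- small determinant
        by_cases hh0 : h (mE e / Y) = 0
        · left
          have hT : qdsT h N Y e = 0 := by
            unfold qdsT
            rw [hh0]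
            simp
          rw [hh0] at hmain
          rw [hT]
          refine ⟨?_, hA1, hA2, hA3⟩
          have e0 : qdsW η (y / N) * (0 : ℝ) ^ 2 * ps0 (tE e) = 0 := by ring
          rw [e0] at hmain
          exact hmain
        · right
          left
          refine ⟨?_, hA1, hA2, hA3, hdot, hdet, hsm, ht1.le, ?_⟩
          · have hT : qdsT h N Y e = ww (y / N) * h (mE e / Y) ^ 2 * ps0 (tE e) := by
              unfold qdsT
              rw [if_pos]
              refine ⟨hdot, hdet, ?_⟩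
              have : ((det e.1 e.2 : ℤ) : ℝ) < (N : ℤ) := k1
              exact_mod_cast this.le
            have e1 : ww (y / N) * h (mE e / Y) ^ 2 * ps0 (tE e) - qdsW η (ρ * φ / N) * h (ρ / Y) ^ 2 * ps0 (tE e) =
                (ww (y / N) - qdsW η (y / N)) * (h (mE e / Y) ^ 2 * ps0 (tE e)) +
                (qdsW η (y / N) * h (mE e / Y) ^ 2 * ps0 (tE e) -
                  qdsW η (ρ * φ / N) * h (ρ / Y) ^ 2 * ps0 (tE e)) := by ring
            rw [hT, e1]
            refine (abs_add_le _ _).trans (add_le_add ?_ hmain)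
            have t1 := qdsW_le η (y / N)
            have t2 := ww_props.2.2.1 (y / N)
            have t3 : h (mE e / Y) ^ 2 * ps0 (tE e) ≤ 1 := by
              apply mul_le_one₀ (pow_le_one₀ hb0 hb1) hp0 hp1
            rw [abs_mul, abs_of_nonneg (sub_nonneg.2 t1),
              abs_of_nonneg (mul_nonneg (sq_nonneg (h (mE e / Y))) hp0)]
            exact mul_le_one₀ (by linarith only [t2, hwn]) (mul_nonneg (sq_nonneg (h (mE e / Y))) hp0) t3
          · by_contra hc
            apply hh0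
            apply hh.hi
            rw [le_div_iff₀ hY0]
            exact (not_le.1 hc).le
      · left
        refine ⟨?_, hA1, hA2, hA3⟩
        have hT : qdsT h N Y e = qdsW η (y / N) * h (mE e / Y) ^ 2 * ps0 (tE e) := by
          unfold qdsT
          rw [if_pos, qdsW_eq hη]
          · rw [le_div_iff₀ hN']
            exact not_lt.1 hsm
          · refine ⟨hdot, hdet, ?_⟩
            have : ((det e.1 e.2 : ℤ) : ℝ) < (N : ℤ) := k1
            exact_mod_cast this.le
        rw [hT]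
        exact hmain
    · right
      right
      have hT : qdsT h N Y e = 0 := by
        by_contra hne
        apply hcase
        unfold qdsT at hne
        split_ifs at hne with hif
        · have n12 := left_ne_zero_of_mul hne
          have n1 := left_ne_zero_of_mul n12
          have n2 : h (mE e / Y) ≠ 0 := by
            intro h0
            apply right_ne_zero_of_mul n12
            rw [h0]
            norm_num
          constructor
          · by_contra hc
            apply n1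
            apply ww_props.2.2.2
            refine le_trans ?_ (le_abs_self _)
            rw [le_div_iff₀ hN', one_mul]
            exact not_lt.1 hc
          · by_contra hc
            apply n2
            apply hh.lo
            rw [div_le_iff₀ hY0]
            have : 0 < h1 * Y := by positivity
            linarith [not_le.1 hc]
        · exact (hne rfl).elim
      have hF : qdsW η (ρ * φ / N) * h (ρ / Y) ^ 2 * ps0 (tE e) = 0 := by
        by_contra hne
        apply hcase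
        have n12 := left_ne_zero_of_mul hne
        have n1 := left_ne_zero_of_mul n12
        have n2 : h (ρ / Y) ≠ 0 := by
          intro h0
          apply right_ne_zero_of_mul n12
          rw [h0]
          norm_num
        have m1 : ρ * φ < N := by
          by_contra hc
          apply n1
          apply qdsW_hi
          rw [le_div_iff₀ hN', one_mul]
          exact not_lt.1 hc
        have m2 : h1 * Y < ρ := by
          by_contra hc
          apply n2
          apply hh.lo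
          rw [div_le_iff₀ hY0]
          exact not_lt.1 hc
        constructor
        · linarith
        · linarith
      rw [hT, hF]
      simp
  · right
    right
    have hT : qdsT h N Y e = 0 := by
      unfold qdsT
      rw [if_neg]
      rintro ⟨k1, k2, -⟩
      exact hpos ⟨k1, by linarith⟩
    have hF : qdsW η (ρ * ang e.1 e.2 / N) * h (ρ / Y) ^ 2 * ps0 (tE e) = 0 := by
      by_contra hne
      apply hpos
      have n12 := left_ne_zero_of_mul hne
      have n1 := left_ne_zero_of_mul n12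
      have n2 : h (ρ / Y) ≠ 0 := by
        intro h0
        apply right_ne_zero_of_mul n12
        rw [h0]
        norm_num
      have m1 : ρ * ang e.1 e.2 < N := by
        by_contra hc
        apply n1
        apply qdsW_hi
        rw [le_div_iff₀ hN', one_mul]
        exact not_lt.1 hc
      have m2 : h1 * Y < ρ := by
        by_contra hc
        apply n2
        apply hh.lo
        rw [div_le_iff₀ hY0]
        exact not_lt.1 hc
      have m3 : 0 < ang e.1 e.2 := by
        by_contra hc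
        apply n1
        apply qdsW_lo hη
        apply div_nonpos_of_nonpos_of_nonneg _ hN'.le
        exact mul_nonpos_of_nonneg_of_nonpos hρ0.le (not_lt.1 hc)
      apply qds_geo2 (qds_Prim_ne he1) (qds_Prim_ne he2) m3
      refine lt_trans ?_ hY2
      rw [lt_div_iff₀ (mul_pos h1p hY0)]
      have m4 := mul_le_mul_of_nonneg_left m2.le m3.le
      linarith only [m4, m1]
    rw [hT, hF]
    simp

/-- PROOF. By `En_iff` the pairs `e ∈ EN n (h2 Y)`, `1 ≤ n ≤ N`, are the pairs `(V, V')` of primitive vectors with `1 ≤ det V V' ≤ N`, `0 < dot ≤ h2 Y`, so the sum is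
`S = ∑ κ(V, V') f(nm V) conj f(nm V') ww(det/N) h(dot/Y)^2 ps0(tE)` over these pairs, `κ(V, V') = 1_(d ∣ det) kap(det) 1_(4 ∣ det → cg 4 V' V)` (`kap` of an integer: 2 if `4 ∣ det`, else 1), periodic modulo `D = 4 d`, `‖κ‖ ≤ 2`.
Let `0 < η < 1` and `F x x' σ = w(sqrt(x x') σ) h(sqrt(x x'))^2 ps0(log x' - log x)` for `x, x' > 0` (zero otherwise), `w(s) = ww(s) * min 1 (max 0 (s/η))`: continuous (`ww_props`, `h = 0` near `0`), with `h1 < sqrt(x x') < h2` and `|log x' - log x| < 1` on the support, so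
`c0 = h1 exp(-1/2)`, `C0 = h2 exp(1/2)`, `B = 1/h1` are admissible. `arcpair` bounds the sum with `F`. Comparison of the two weights, for a pair with `F ≠ 0` or with weight `≠ 0`: `φ = ang V V'`, `ρ = sqrt(nm V nm V')`, `dot = ρ cos φ`, `det = ρ sin φ`. If `F ≠ 0`: `0 < φ ≤ B N / Y`, so
(`Y` large) `dot > 0`, `det > 0`, `det ≤ ρ φ < N`: the pair is in the range of `S`. In the range of `S` with `h(dot/Y) ≠ 0`: `dot ≥ h1 Y`, `0 < tan φ = det/dot ≤ N/(h1 Y)`. In both cases `φ → 0` uniformly, `dot/Y - ρ/Y → 0` and `det/N - ρ φ/N → 0` uniformly as `Y → ∞` (`N` fixed, `ρ/Y` bounded), and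
`sqrt(x x') = ρ/Y`, `sqrt(x x') σ = ρ φ / N`; so by uniform continuity the weights differ by at most `η` for pairs with `det ≥ η N` (there `w(det/N) = ww(det/N)`) and by at most `1` otherwise. The number of pairs in question (norms between `c0 Y/2` and `2 C0 Y`, `|φ| ≤ 2 B N/Y`) is at most `C N Y`
(`cntA`), and those with `1 ≤ det ≤ η N` (`+` small change) are at most `η N * C Y` (`cnt` for each `n ≤ η N`, `B = 2`). So `‖S - (sum with F)‖ ≤ C' η N Y`. Choose `η`, then `N0` from `arcpair`. -/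
theorem qds (f : ℕ → ℂ) (hf : ∀ n, ‖f n‖ ≤ 1) (hM : MRP f) : QdSmall f := by
  classical
  intro d hd h h1 h2 hh ε hε
  have h1p := hh.pos
  have h2p := hh.one
  by_cases h12 : h1 ≤ h2
  swap
  · -- trivial: `h = 0`
    have hz : ∀ y, h y = 0 := by
      intro y
      rcases le_total y h1 with h3 | h3
      · exact hh.lo y h3
      · exact hh.hi y (by linarith)
    refine ⟨0, fun N _ => ?_⟩
    filter_upwards [eventually_ge_atTop 0] with Y hY
    have h0 : ∑ n ∈ (Icc 1 N).filter (fun n => d ∣ n), ((kap n * ww ((n : ℝ) / N) : ℝ) : ℂ) *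
      Qs f n (h2 * Y) (fun y t => ((h y ^ 2 * ps0 t : ℝ) : ℂ)) Y = 0 := by
      apply sum_eq_zero
      intro n _
      have : Qs f n (h2 * Y) (fun y t => ((h y ^ 2 * ps0 t : ℝ) : ℂ)) Y = 0 := by
        unfold Qs
        apply sum_eq_zero
        intro e _
        dsimp only
        rw [hz]
        simp
      rw [this, mul_zero]
    rw [h0, norm_zero]
    positivity
  obtain ⟨C, hC, hcntA⟩ := cntA (h1 / 4) (3 * h2) (2 / h1) (by linarith) (by linarith) (by positivity)
  obtain ⟨C1, hC1, hcnt⟩ := cnt 1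
  set K : ℝ := C + 2 * C1 * h2 with hK
  have hKp : 0 < K := by positivity
  set η : ℝ := min 1 (ε / (4 * K)) with hηd
  have hη : 0 < η := lt_min one_pos (by positivity)
  have hη1 : η ≤ 1 := min_le_left _ _
  have hη2 : η * (4 * K) ≤ ε := by
    have := min_le_right 1 (ε / (4 * K))
    rwa [← hηd, le_div_iff₀ (by positivity)] at this
  obtain ⟨N0, hN0⟩ := arcpair f hf hM (4 * d) (by omega) (qdsK d) (qdsK_bd d) (qdsK_per d) (h1 / 2) (3 * h2) (1 / h1)
    (by linarith) (by linarith) (by positivity) (qdsF h η (h1 / 2)) (qdsF_cont hh.cont η (by linarith))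
    (qdsF_van hh hη) (ε / 2) (by linarith)
  obtain ⟨δ1, hδ1, hw⟩ := Metric.uniformContinuous_iff.1 (qdsW_uc η hη) (η / 4) (by linarith)
  obtain ⟨δ2, hδ2, hhu⟩ := Metric.uniformContinuous_iff.1 (qds_huc hh) (η / 4) (by linarith)
  set δ := min δ1 δ2 with hδd
  have hδ : 0 < δ := lt_min hδ1 hδ2
  have hw' : ∀ s s' : ℝ, |s - s'| < δ → |qdsW η s - qdsW η s'| < η / 4 := by
    intro s s' hs
    have := hw (a := s) (b := s') (by rw [Real.dist_eq]; exact hs.trans_le (min_le_left _ _))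
    rwa [Real.dist_eq] at this
  have hhu' : ∀ s s' : ℝ, |s - s'| < δ → |h s - h s'| < η / 4 := by
    intro s s' hs
    have := hhu (a := s) (b := s') (by rw [Real.dist_eq]; exact hs.trans_le (min_le_right _ _))
    rwa [Real.dist_eq] at this
  refine ⟨max N0 1, fun N hN => ?_⟩
  have hN1 : 1 ≤ N := (le_max_right _ _).trans hN
  have hN' : (1 : ℝ) ≤ N := by exact_mod_cast hN1
  have hl1 : Tendsto (fun Y : ℝ => (N : ℝ) / (h1 * Y)) atTop (nhds 0) := by
    have h3 : Tendsto (fun Y : ℝ => ((N : ℝ) / h1) / Y) atTop (nhds 0) := tendsto_const_nhds.div_atTop tendsto_id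
    refine h3.congr (fun Y => ?_)
    rw [div_div]
  have hl2 : Tendsto (fun Y : ℝ => 2 * (N : ℝ) / (h1 * Y)) atTop (nhds 0) := by
    have h3 : Tendsto (fun Y : ℝ => (2 * (N : ℝ) / h1) / Y) atTop (nhds 0) := tendsto_const_nhds.div_atTop tendsto_id
    refine h3.congr (fun Y => ?_)
    rw [div_div]
  have hl3 : Tendsto (fun Y : ℝ => (N : ℝ) / Y) atTop (nhds 0) := tendsto_const_nhds.div_atTop tendsto_id
  filter_upwards [hN0 N ((le_max_left _ _).trans hN), hcntA N hN1, eventually_gt_atTop 0,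
    eventually_ge_atTop (2 * (N : ℝ) / h1), eventually_ge_atTop (2 * (N : ℝ)),
    hl1.eventually_lt_const (by positivity : 0 < Real.pi / 2), hl2.eventually_lt_const hδ,
    hl3.eventually_lt_const hδ] with Y hA hB hY0 hY1 hY2 hY3 hY4 hY5
  have hY1' : 2 * (N : ℝ) ≤ h1 * Y := by
    rw [div_le_iff₀ h1p] at hY1
    linarith
  rw [qds_sum f d hh hY2 hY0]
  set P := PV (3 * h2 * Y) with hP
  rw [← sum_product' P P (fun V V' => qdsK d V V' * (f (nm V) * (starRingEnd ℂ) (f (nm V'))) *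
        ((qdsF h η (h1 / 2) (nm V / Y) (nm V' / Y) (Y * ang V V' / N) : ℝ) : ℂ))] at hA
  have hdec : ∑ e ∈ P ×ˢ P, qdsK d e.1 e.2 * (f (nm e.1) * (starRingEnd ℂ) (f (nm e.2))) * ((qdsT h N Y e : ℝ) : ℂ) =
      ∑ e ∈ P ×ˢ P, qdsK d e.1 e.2 * (f (nm e.1) * (starRingEnd ℂ) (f (nm e.2))) *
        ((qdsF h η (h1 / 2) (nm e.1 / Y) (nm e.2 / Y) (Y * ang e.1 e.2 / N) : ℝ) : ℂ) +
      ∑ e ∈ P ×ˢ P, qdsK d e.1 e.2 * (f (nm e.1) * (starRingEnd ℂ) (f (nm e.2))) *
        ((qdsT h N Y e - qdsF h η (h1 / 2) (nm e.1 / Y) (nm e.2 / Y) (Y * ang e.1 e.2 / N) : ℝ) : ℂ) := by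
    rw [← sum_add_distrib]
    apply sum_congr rfl
    intro e _
    rw [Complex.ofReal_sub]
    ring
  rw [hdec]
  refine (norm_add_le _ _).trans ?_
  have hsec : ‖∑ e ∈ P ×ˢ P, qdsK d e.1 e.2 * (f (nm e.1) * (starRingEnd ℂ) (f (nm e.2))) *
        ((qdsT h N Y e - qdsF h η (h1 / 2) (nm e.1 / Y) (nm e.2 / Y) (Y * ang e.1 e.2 / N) : ℝ) : ℂ)‖ ≤
      ε / 2 * N * Y := by
    have hpt : ∀ e ∈ P ×ˢ P, ‖qdsK d e.1 e.2 * (f (nm e.1) * (starRingEnd ℂ) (f (nm e.2))) *
        ((qdsT h N Y e - qdsF h η (h1 / 2) (nm e.1 / Y) (nm e.2 / Y) (Y * ang e.1 e.2 / N) : ℝ) : ℂ)‖ ≤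
        2 * ((if h1 / 4 * Y ≤ nm e.1 ∧ h1 / 4 * Y ≤ nm e.2 ∧ |ang e.1 e.2| ≤ 2 / h1 * N / Y then η else 0) +
          (if qdsBad h2 η N Y e then 2 else 0)) := by
      intro e he
      rw [mem_product, hP, mem_PV, mem_PV] at he
      have hcm := qds_cmp hh hη hN1 hY0 hY1' hY3 hY4 hY5 hw' hhu' e he.1.2 he.2.2
      set DD := qdsT h N Y e - qdsF h η (h1 / 2) (nm e.1 / Y) (nm e.2 / Y) (Y * ang e.1 e.2 / N) with hDD
      have hKf : ‖qdsK d e.1 e.2 * (f (nm e.1) * (starRingEnd ℂ) (f (nm e.2)))‖ ≤ 2 := by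
        rw [norm_mul, norm_mul, RCLike.norm_conj]
        have q1 := qdsK_bd d e.1 e.2
        have q2 : ‖f (nm e.1)‖ * ‖f (nm e.2)‖ ≤ 1 := mul_le_one₀ (hf _) (norm_nonneg _) (hf _)
        have q3 : 0 ≤ ‖f (nm e.1)‖ * ‖f (nm e.2)‖ := by positivity
        exact (mul_le_mul q1 q2 q3 zero_le_two).trans (by rw [mul_one])
      rw [norm_mul, Complex.norm_real, Real.norm_eq_abs]
      refine mul_le_mul hKf ?_ (abs_nonneg _) (by norm_num)
      rcases hcm with ⟨m1, m2⟩ | ⟨m1, m2, m3, m4, m5⟩ | m1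
      · rw [if_pos m2]
        have : (0 : ℝ) ≤ if qdsBad h2 η N Y e then 2 else 0 := by split_ifs <;> norm_num
        linarith
      · rw [if_pos ⟨m2, m3, m4⟩, if_pos m5]
        linarith
      · have t1 : (0 : ℝ) ≤ if qdsBad h2 η N Y e then 2 else 0 := by split_ifs <;> norm_num
        have t2 : (0 : ℝ) ≤ if h1 / 4 * Y ≤ nm e.1 ∧ h1 / 4 * Y ≤ nm e.2 ∧ |ang e.1 e.2| ≤ 2 / h1 * N / Y then η
            else 0 := by
          split_ifs
          · exact hη.le
          · exact le_rfl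
        linarith
    refine (norm_sum_le _ _).trans ((sum_le_sum hpt).trans ?_)
    rw [← mul_sum, sum_add_distrib, ← sum_filter, ← sum_filter, sum_const, sum_const, nsmul_eq_mul, nsmul_eq_mul]
    have hb := qds_bad hC1 hη hη1 h2p hcnt (N := N) (Y := Y) (by linarith) (3 * h2 * Y)
    rw [← hP] at hb
    have hb2 : (((P ×ˢ P).filter (fun e : G × G => h1 / 4 * Y ≤ nm e.1 ∧ h1 / 4 * Y ≤ nm e.2 ∧
        |ang e.1 e.2| ≤ 2 / h1 * N / Y)).card : ℝ) ≤ C * N * Y := by
      refine le_trans (le_of_eq ?_) hB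
      congr
    have hb1 : (((P ×ˢ P).filter (fun e : G × G => qdsBad h2 η N Y e)).card : ℝ) ≤ η * N * (C1 * (h2 * Y)) := by
      refine le_trans (le_of_eq ?_) hb
      congr
    have t1 := mul_le_mul_of_nonneg_right hb2 hη.le
    have hNY : 0 ≤ (N : ℝ) * Y := by positivity
    have t3 : 2 * (C * N * Y * η + η * N * (C1 * (h2 * Y)) * 2) = η * (4 * K) / 2 * ((N : ℝ) * Y) := by
      rw [hK]
      ring
    have t4 : η * (4 * K) / 2 * ((N : ℝ) * Y) ≤ ε / 2 * ((N : ℝ) * Y) :=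
      mul_le_mul_of_nonneg_right (by linarith) hNY
    calc _ ≤ 2 * (C * N * Y * η + η * N * (C1 * (h2 * Y)) * 2) := by linarith
      _ = η * (4 * K) / 2 * ((N : ℝ) * Y) := t3
      _ ≤ ε / 2 * ((N : ℝ) * Y) := t4
      _ = ε / 2 * N * Y := by ring
  refine (add_le_add hA hsec).trans (le_of_eq ?_)
  ring

end Pool.Agent.OmEq
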