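import Pool.Agent.Lib_MP_f1a94e_eq.Defs
import Pool.Agent.Lib_MP_f1a94e_aq.ZSmooth

/-!
# Piece ANI: Cauchy-Schwarz for the cluster sums
-/

set_option autoImplicit false

namespace Pool.Agent.OmEq

open Finset Pool.Agent.OmAll MeasureTheory Filter

open Pool.Agent.OmAll.ZSm

/-! ### tails -/

theorem ani_arctan {x : ℝ} (hx : 0 ≤ x) : Real.arctan x ≤ x := by
  have h := Real.le_tan (Real.arctan_nonneg.2 hx) (Real.arctan_lt_pi_div_two x)
  rwa [Real.tan_arctan] at h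

theorem ani_tail (K : ℝ) (hK : 0 < K) :
    ∫ u in {u : ℝ | K < |u|}, (1 + u ^ 2)⁻¹ ≤ 2 / K := by
  have h1 : {u : ℝ | K < |u|} = Set.Iio (-K) ∪ Set.Ioi K := by
    ext u
    simp only [Set.mem_setOf_eq, Set.mem_union, Set.mem_Iio, Set.mem_Ioi, lt_abs]
    constructor
    · rintro (h | h)
      · exact Or.inr h
      · exact Or.inl (by linarith)
    · rintro (h | h)
      · exact Or.inr (by linarith)
      · exact Or.inl h
  have h2 : Disjoint (Set.Iio (-K)) (Set.Ioi K) := by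
    rw [Set.disjoint_left]
    intro u hu hu'
    rw [Set.mem_Iio] at hu
    rw [Set.mem_Ioi] at hu'
    linarith
  rw [h1, setIntegral_union h2 measurableSet_Ioi integrable_inv_one_add_sq.integrableOn
    integrable_inv_one_add_sq.integrableOn, integral_Ioi_inv_one_add_sq, ← integral_Iic_eq_integral_Iio,
    integral_Iic_inv_one_add_sq, Real.arctan_neg]
  have h3 := Real.arctan_inv_of_pos hK
  have h4 := ani_arctan (inv_pos.2 hK).le
  have h5 : 2 / K = K⁻¹ + K⁻¹ := by ring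
  rw [h5]
  linarith

theorem ani_int {ψ : ℝ → ℂ} (hψ : Continuous ψ) {C : ℝ} (hC : ∀ t, ‖ψ t‖ ≤ C / (1 + t ^ 2)) :
    Integrable ψ := by
  refine Integrable.mono' (integrable_inv_one_add_sq.const_mul C) hψ.aestronglyMeasurable
    (Eventually.of_forall fun t => ?_)
  rw [← div_eq_mul_inv]
  exact hC t

theorem ani_C {ψ : ℝ → ℂ} {C : ℝ} (hC : ∀ t, ‖ψ t‖ ≤ C / (1 + t ^ 2)) : 0 ≤ C := by
  have h := (norm_nonneg _).trans (hC 0)
  simpa using h

/-- the part of a translate outside a window -/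
theorem ani_one {ψ : ℝ → ℂ} (hψ : Continuous ψ) {C : ℝ} (hC : ∀ t, ‖ψ t‖ ≤ C / (1 + t ^ 2))
    {s A K : ℝ} (hs : 0 ≤ s) (hK : 0 < K) (hA : 0 < A) :
    ∫ t in (Set.Icc (-(2 * A + K)) (2 * A + K))ᶜ, ‖ψ (t - 2 * s)‖ ≤ 2 * C / K + 4 * C * s / A := by
  have hC0 := ani_C hC
  have hψi := ani_int hψ hC
  have hsh : Integrable fun t => ‖ψ (t - 2 * s)‖ := (hψi.comp_sub_right (2 * s)).norm
  by_cases h : s ≤ A
  · have hm : MeasurableSet {u : ℝ | K < |u|} := measurableSet_lt measurable_const (by fun_prop)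
    obtain ⟨F, hF⟩ : ∃ F : ℝ → ℝ, F = Set.indicator {u : ℝ | K < |u|} (fun u => C * (1 + u ^ 2)⁻¹) :=
      ⟨_, rfl⟩
    have hFi : Integrable F := by
      rw [hF]
      exact (integrable_inv_one_add_sq.const_mul C).indicator hm
    have hF0 : ∀ u, 0 ≤ F u := by
      intro u
      rw [hF]
      apply Set.indicator_nonneg
      intro x _
      positivity
    have h1 : ∫ t in (Set.Icc (-(2 * A + K)) (2 * A + K))ᶜ, ‖ψ (t - 2 * s)‖ ≤
        ∫ t in (Set.Icc (-(2 * A + K)) (2 * A + K))ᶜ, F (t - 2 * s) := by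
      apply setIntegral_mono_on hsh.integrableOn (hFi.comp_sub_right (2 * s)).integrableOn
        measurableSet_Icc.compl
      intro t ht
      have h2 : K < |t - 2 * s| := by
        rw [Set.mem_compl_iff, Set.mem_Icc, not_and_or, not_le, not_le] at ht
        rw [lt_abs]
        rcases ht with ht | ht
        · right; linarith
        · left; linarith
      rw [hF, Set.indicator_of_mem (show t - 2 * s ∈ {u : ℝ | K < |u|} from h2), ← div_eq_mul_inv]
      exact hC _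
    have h2 : ∫ t in (Set.Icc (-(2 * A + K)) (2 * A + K))ᶜ, F (t - 2 * s) ≤ ∫ t, F (t - 2 * s) :=
      setIntegral_le_integral (hFi.comp_sub_right (2 * s)) (Eventually.of_forall fun t => hF0 _)
    have h3 : ∫ t, F (t - 2 * s) = ∫ t, F t := integral_sub_right_eq_self F (2 * s)
    have h4 : ∫ t, F t ≤ 2 * C / K := by
      rw [hF, integral_indicator hm, integral_const_mul]
      have := mul_le_mul_of_nonneg_left (ani_tail K hK) hC0
      calc _ ≤ C * (2 / K) := this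
        _ = 2 * C / K := by ring
    have h5 : 0 ≤ 4 * C * s / A := by positivity
    linarith
  · push Not at h
    have h1 : ∫ t in (Set.Icc (-(2 * A + K)) (2 * A + K))ᶜ, ‖ψ (t - 2 * s)‖ ≤ ∫ t, ‖ψ (t - 2 * s)‖ :=
      setIntegral_le_integral hsh (Eventually.of_forall fun t => norm_nonneg _)
    have h2 : ∫ t, ‖ψ (t - 2 * s)‖ = ∫ t, ‖ψ t‖ :=
      integral_sub_right_eq_self (fun t => ‖ψ t‖) (2 * s)
    have h3 : ∫ t, ‖ψ t‖ ≤ C * Real.pi := by
      rw [← integral_univ_inv_one_add_sq, ← integral_const_mul]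
      apply integral_mono hψi.norm (integrable_inv_one_add_sq.const_mul C)
      intro t
      simp only
      rw [← div_eq_mul_inv]
      exact hC t
    have h4 : C * Real.pi ≤ 4 * C := by nlinarith [Real.pi_le_four]
    have h5 : 4 * C ≤ 4 * C * s / A := by
      rw [le_div_iff₀ hA]
      nlinarith
    have h6 : 0 ≤ 2 * C / K := by positivity
    linarith

/-! ### product measures on subsets -/

theorem ani_prod (S : Finset ℕ) (x : ℕ → ℝ) (f : ℕ → ℝ) :
    ∑ D ∈ S.powerset, ((∏ p ∈ D, x p) * ∏ p ∈ S \ D, (1 - x p)) * ∑ p ∈ D, f p =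
      ∑ p ∈ S, x p * f p := by
  induction S using Finset.induction_on with
  | empty => simp
  | insert q S hq ih =>
    rw [Finset.sum_powerset_insert hq, Finset.sum_insert hq, ← ih]
    have h1 : ∀ D ∈ S.powerset, ((∏ p ∈ D, x p) * ∏ p ∈ insert q S \ D, (1 - x p)) * ∑ p ∈ D, f p =
        (1 - x q) * (((∏ p ∈ D, x p) * ∏ p ∈ S \ D, (1 - x p)) * ∑ p ∈ D, f p) := by
      intro D hD
      rw [Finset.mem_powerset] at hD
      have hqD : q ∉ D := fun h => hq (hD h)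
      rw [Finset.insert_sdiff_of_notMem _ hqD, Finset.prod_insert (by simp [hq])]
      ring
    have h2 : ∀ D ∈ S.powerset, ((∏ p ∈ insert q D, x p) * ∏ p ∈ insert q S \ insert q D, (1 - x p)) *
        ∑ p ∈ insert q D, f p =
        x q * (((∏ p ∈ D, x p) * ∏ p ∈ S \ D, (1 - x p)) * ∑ p ∈ D, f p) +
          x q * f q * ((∏ p ∈ D, x p) * ∏ p ∈ S \ D, (1 - x p)) := by
      intro D hD
      rw [Finset.mem_powerset] at hD
      have hqD : q ∉ D := fun h => hq (hD h)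
      have hsd : insert q S \ insert q D = S \ D := by
        ext a
        simp only [Finset.mem_sdiff, Finset.mem_insert]
        constructor
        · rintro ⟨h1, h2⟩
          push Not at h2
          exact ⟨h1.resolve_left h2.1, h2.2⟩
        · rintro ⟨k1, k2⟩
          refine ⟨Or.inr k1, ?_⟩
          rintro (rfl | h)
          · exact hq k1
          · exact k2 h
      rw [hsd, Finset.prod_insert hqD, Finset.sum_insert hqD]
      ring
    rw [Finset.sum_congr rfl h1, Finset.sum_congr rfl h2, Finset.sum_add_distrib, ← Finset.mul_sum,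
      ← Finset.mul_sum, ← Finset.mul_sum, ← Finset.prod_add]
    have h3 : ∏ p ∈ S, (x p + (1 - x p)) = 1 := Finset.prod_eq_one fun p _ => by ring
    rw [h3]
    ring

theorem mem_PE' {E : Finset ℕ} {T p : ℕ} (h : p ∈ PE E T) : p ∈ PT T := by
  rw [mem_PE] at h
  rw [mem_PT]
  exact ⟨h.1, h.2.1, h.2.2.1⟩

theorem ani_Ap {E : Finset ℕ} {T p : ℕ} (h : p ∈ PE E T) :
    0 < Ap p ∧ 2 * Ap p ≤ 4 / p ∧ 2 * Ap p ≤ 4 / 5 := by
  have h5 := PT_five (mem_PE' h)
  obtain ⟨h1, h2, -⟩ := Ap_bound p h5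
  refine ⟨h1, h2, h2.trans ?_⟩
  have : (5 : ℝ) ≤ p := by exact_mod_cast h5
  exact div_le_div_of_nonneg_left (by norm_num) (by norm_num) this

theorem ani_Pr (E : Finset ℕ) (T : ℕ) {D : Finset ℕ} (hD : D ⊆ PE E T) : 0 ≤ Pr E T D := by
  unfold Pr
  apply mul_nonneg
  · exact Finset.prod_nonneg fun p hp => (ani_Ap (hD hp)).1.le
  · apply Finset.prod_nonneg
    intro p hp
    have := (ani_Ap (Finset.sdiff_subset hp)).2.2
    linarith

theorem ani_pow (E : Finset ℕ) (T : ℕ) (y : ℝ) :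
    ∑ D ∈ (PE E T).powerset, Pr E T D * y ^ D.card = ∏ p ∈ PE E T, (1 + (y - 2) * Ap p) := by
  have h1 : ∏ p ∈ PE E T, (1 + (y - 2) * Ap p) = ∏ p ∈ PE E T, (y * Ap p + (1 - 2 * Ap p)) :=
    Finset.prod_congr rfl fun p _ => by ring
  rw [h1, Finset.prod_add]
  apply Finset.sum_congr rfl
  intro D _
  unfold Pr
  rw [Finset.prod_mul_distrib, Finset.prod_const]
  ring

theorem ani_two (E : Finset ℕ) (T : ℕ) :
    ∑ D ∈ (PE E T).powerset, Pr E T D * 2 ^ D.card = 1 := by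
  rw [ani_pow]
  apply Finset.prod_eq_one
  intro p _
  ring

theorem lg_nonneg (a : Finset ℕ) : 0 ≤ lg a :=
  Finset.sum_nonneg fun p _ => Real.log_natCast_nonneg p

theorem lg_mono {a D : Finset ℕ} (h : a ⊆ D) : lg a ≤ lg D :=
  Finset.sum_le_sum_of_subset_of_nonneg h fun p _ _ => Real.log_natCast_nonneg p

theorem ani_lg (E : Finset ℕ) (T : ℕ) :
    ∑ D ∈ (PE E T).powerset, Pr E T D * ∑ a ∈ D.powerset, lg a ≤ ∑ p ∈ PE E T, 2 * Ap p * Real.log p := by
  rw [← ani_prod (PE E T) (fun p => 2 * Ap p) (fun p => Real.log p)]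
  apply Finset.sum_le_sum
  intro D hD
  rw [Finset.mem_powerset] at hD
  have h1 : ∑ a ∈ D.powerset, lg a ≤ 2 ^ D.card * lg D := by
    calc ∑ a ∈ D.powerset, lg a ≤ ∑ a ∈ D.powerset, lg D :=
          Finset.sum_le_sum fun a ha => lg_mono (Finset.mem_powerset.1 ha)
      _ = _ := by rw [Finset.sum_const, Finset.card_powerset, nsmul_eq_mul]; push_cast; ring
  refine (mul_le_mul_of_nonneg_left h1 (ani_Pr E T hD)).trans (le_of_eq ?_)
  unfold Pr lg
  rw [Finset.prod_mul_distrib, Finset.prod_const]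
  ring

/-! ### cluster sums -/

theorem ani_cs_cont (g : ℕ → ℂ) {ψ : ℝ → ℂ} (hψ : Continuous ψ) (D : Finset ℕ) :
    Continuous (cs g ψ D) := by
  unfold cs
  fun_prop

theorem ani_cs_int (g : ℕ → ℂ) {ψ : ℝ → ℂ} (hψi : Integrable ψ) (D : Finset ℕ) :
    Integrable (cs g ψ D) := by
  unfold cs
  exact integrable_finset_sum _ fun a _ => (hψi.comp_sub_right (2 * lg a)).const_mul _

theorem ani_gnorm {E : Finset ℕ} {g : ℕ → ℂ}
    (hg1 : ∀ p : ℕ, p.Prime → p % 4 = 1 → p ∉ E → ‖g p‖ = 1) {T : ℕ} {a : Finset ℕ}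
    (ha : a ⊆ PE E T) : ‖∏ p ∈ a, g p‖ = 1 := by
  rw [norm_prod]
  apply Finset.prod_eq_one
  intro p hp
  have := mem_PE.1 (ha hp)
  exact hg1 p this.2.1 this.2.2.1 this.2.2.2

theorem ani_cs_le {E : Finset ℕ} {g : ℕ → ℂ}
    (hg1 : ∀ p : ℕ, p.Prime → p % 4 = 1 → p ∉ E → ‖g p‖ = 1) {T : ℕ} {D : Finset ℕ}
    (hD : D ⊆ PE E T) (ψ : ℝ → ℂ) (t : ℝ) :
    ‖cs g ψ D t‖ ≤ ∑ a ∈ D.powerset, ‖ψ (t - 2 * lg a)‖ := by
  unfold cs
  refine (norm_sum_le _ _).trans (Finset.sum_le_sum fun a ha => ?_)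
  rw [norm_mul, ani_gnorm hg1 ((Finset.mem_powerset.1 ha).trans hD), one_mul]

theorem ani_cs_sq (E : Finset ℕ) (g : ℕ → ℂ)
    (hg1 : ∀ p : ℕ, p.Prime → p % 4 = 1 → p ∉ E → ‖g p‖ = 1) (T : ℕ) (D : Finset ℕ)
    (hD : D ⊆ PE E T) {ψ : ℝ → ℂ} (hψ : Continuous ψ) {C : ℝ} (hC : ∀ t, ‖ψ t‖ ≤ C / (1 + t ^ 2)) :
    Integrable (fun t => ‖cs g ψ D t‖ ^ 2) := by
  have hC0 := ani_C hC
  have hb : ∀ t, ‖cs g ψ D t‖ ≤ ∑ a ∈ D.powerset, C := by
    intro t
    refine (ani_cs_le hg1 hD ψ t).trans (Finset.sum_le_sum fun a _ => (hC _).trans ?_)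
    apply div_le_self hC0
    nlinarith [sq_nonneg (t - 2 * lg a)]
  refine Integrable.mono' ((ani_cs_int g (ani_int hψ hC) D).norm.const_mul (∑ a ∈ D.powerset, C))
    ((ani_cs_cont g hψ D).norm.pow 2).aestronglyMeasurable (Eventually.of_forall fun t => ?_)
  rw [Real.norm_eq_abs, abs_of_nonneg (by positivity), sq]
  exact mul_le_mul_of_nonneg_right (hb t) (norm_nonneg _)

/-- the integral of one cluster sum -/
theorem ani_D (E : Finset ℕ) (g : ℕ → ℂ)
    (hg1 : ∀ p : ℕ, p.Prime → p % 4 = 1 → p ∉ E → ‖g p‖ = 1) (T : ℕ) (D : Finset ℕ)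
    (hD : D ⊆ PE E T) {ψ : ℝ → ℂ} (hψ : Continuous ψ) {C : ℝ} (hC : ∀ t, ‖ψ t‖ ≤ C / (1 + t ^ 2))
    {z A K l : ℝ} (hz : 0 < z) (hK : 0 < K) (hA : 0 < A) (hl : 0 < l) :
    ∫ t, ‖cs g ψ D t‖ ≤ l * (2 * A + K) * (1 / z) ^ D.card +
      1 / (2 * l) * (z ^ D.card * ∫ t, ‖cs g ψ D t‖ ^ 2) +
      (2 * C / K * 2 ^ D.card + 4 * C / A * ∑ a ∈ D.powerset, lg a) := by
  have hψi := ani_int hψ hC
  have hci := (ani_cs_int g hψi D).norm
  have hsq := ani_cs_sq E g hg1 T D hD hψ hC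
  rw [← integral_add_compl (measurableSet_Icc (a := -(2 * A + K)) (b := 2 * A + K)) hci]
  apply add_le_add
  · have hzc : 0 < z ^ D.card := by positivity
    have h1 : ∀ t, ‖cs g ψ D t‖ ≤ l / 2 * (1 / z) ^ D.card +
        1 / (2 * l) * (z ^ D.card * ‖cs g ψ D t‖ ^ 2) := by
      intro t
      obtain ⟨x, hx⟩ : ∃ x, x = ‖cs g ψ D t‖ := ⟨_, rfl⟩
      obtain ⟨y, hy⟩ : ∃ y, y = z ^ D.card := ⟨_, rfl⟩
      rw [← hx, ← hy, one_div_pow, ← hy]
      rw [← hy] at hzc
      have e : l / 2 * (1 / y) + 1 / (2 * l) * (y * x ^ 2) - x =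
          (l - y * x) ^ 2 / (2 * l * y) := by
        field_simp
        ring
      have : 0 ≤ (l - y * x) ^ 2 / (2 * l * y) := by positivity
      linarith
    have hint : Integrable (fun t => 1 / (2 * l) * (z ^ D.card * ‖cs g ψ D t‖ ^ 2)) :=
      (hsq.const_mul _).const_mul _
    calc ∫ t in Set.Icc (-(2 * A + K)) (2 * A + K), ‖cs g ψ D t‖
        ≤ ∫ t in Set.Icc (-(2 * A + K)) (2 * A + K), (l / 2 * (1 / z) ^ D.card +
            1 / (2 * l) * (z ^ D.card * ‖cs g ψ D t‖ ^ 2)) := by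
          apply setIntegral_mono hci.integrableOn _ h1
          exact (continuousOn_const.integrableOn_compact isCompact_Icc).add hint.integrableOn
      _ = (∫ t in Set.Icc (-(2 * A + K)) (2 * A + K), l / 2 * (1 / z) ^ D.card) +
            ∫ t in Set.Icc (-(2 * A + K)) (2 * A + K),
              1 / (2 * l) * (z ^ D.card * ‖cs g ψ D t‖ ^ 2) :=
          integral_add (continuousOn_const.integrableOn_compact isCompact_Icc) hint.integrableOn
      _ ≤ l * (2 * A + K) * (1 / z) ^ D.card +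
            1 / (2 * l) * (z ^ D.card * ∫ t, ‖cs g ψ D t‖ ^ 2) := by
          apply add_le_add
          · rw [setIntegral_const, Measure.real, Real.volume_Icc, smul_eq_mul,
              ENNReal.toReal_ofReal (by linarith)]
            apply le_of_eq
            ring
          · refine (setIntegral_le_integral hint (Eventually.of_forall fun t => ?_)).trans ?_
            · show 0 ≤ 1 / (2 * l) * (z ^ D.card * ‖cs g ψ D t‖ ^ 2)
              positivity
            · rw [integral_const_mul, integral_const_mul]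
  · calc ∫ t in (Set.Icc (-(2 * A + K)) (2 * A + K))ᶜ, ‖cs g ψ D t‖
        ≤ ∫ t in (Set.Icc (-(2 * A + K)) (2 * A + K))ᶜ, ∑ a ∈ D.powerset, ‖ψ (t - 2 * lg a)‖ := by
          apply setIntegral_mono hci.integrableOn _ (ani_cs_le hg1 hD ψ)
          exact (integrable_finset_sum _ fun a _ =>
            (hψi.comp_sub_right (2 * lg a)).norm).integrableOn
      _ = ∑ a ∈ D.powerset, ∫ t in (Set.Icc (-(2 * A + K)) (2 * A + K))ᶜ, ‖ψ (t - 2 * lg a)‖ :=
          integral_finset_sum _ fun a _ => (hψi.comp_sub_right (2 * lg a)).norm.integrableOn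
      _ ≤ ∑ a ∈ D.powerset, (2 * C / K + 4 * C * lg a / A) :=
          Finset.sum_le_sum fun a _ => ani_one hψ hC (lg_nonneg a) hK hA
      _ = _ := by
          rw [Finset.sum_add_distrib, Finset.sum_const, Finset.card_powerset, nsmul_eq_mul,
            Finset.mul_sum]
          push_cast
          congr 1
          · ring
          · exact Finset.sum_congr rfl fun a _ => by ring

/-- the density of the subsets with weight `z^(-#D)` -/
theorem ani_S1 (E : Finset ℕ) (z : ℝ) (hz : 1 / 2 < z) (hz1 : z < 1) :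
    ∃ C4 : ℝ, 0 < C4 ∧ ∀ T : ℕ, 3 ≤ T →
      ∑ D ∈ (PE E T).powerset, Pr E T D * (1 / z) ^ D.card ≤ C4 * (Real.log T) ^ (1 / z - 2) := by
  obtain ⟨C, hC⟩ := mu_bound
  have hz2 : 1 / z - 2 < 0 := by
    have : 1 / z < 2 := by
      rw [div_lt_iff₀ (by linarith)]
      linarith
    linarith
  refine ⟨Real.exp ((2 - 1 / z) * (C / 2 + E.card)), Real.exp_pos _, fun T hT => ?_⟩
  have hL := one_le_logT hT
  rw [ani_pow]
  have h1 : ∏ p ∈ PE E T, (1 + (1 / z - 2) * Ap p) ≤ Real.exp ((1 / z - 2) * ∑ p ∈ PE E T, Ap p) := by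
    rw [Finset.mul_sum, Real.exp_sum]
    apply Finset.prod_le_prod
    · intro p hp
      have h2 := ani_Ap hp
      have h3 : 0 < 1 / z := by positivity
      nlinarith [mul_pos h3 h2.1]
    · intro p _
      have := Real.add_one_le_exp ((1 / z - 2) * Ap p)
      linarith
  refine h1.trans ?_
  -- lower bound for the sum of `Ap`
  have h2 : Real.log (Real.log T) - (C / 2 + E.card) ≤ ∑ p ∈ PE E T, Ap p := by
    have h3 := (abs_le.1 (hC T hT)).1
    have h4 : muT T = 2 * ∑ p ∈ PT T, Ap p := by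
      unfold muT
      rw [Finset.mul_sum]
    have h5 : ∑ p ∈ PT T, Ap p = ∑ p ∈ PE E T, Ap p + ∑ p ∈ PT T ∩ E, Ap p := by
      unfold PE
      rw [← Finset.sum_sdiff (Finset.inter_subset_left (s₁ := PT T) (s₂ := E))]
      congr 1
      apply Finset.sum_congr _ fun _ _ => rfl
      ext a
      simp only [Finset.mem_sdiff, Finset.mem_inter]
      tauto
    have h6 : ∑ p ∈ PT T ∩ E, Ap p ≤ E.card := by
      calc ∑ p ∈ PT T ∩ E, Ap p ≤ ∑ p ∈ PT T ∩ E, 1 := by
            apply Finset.sum_le_sum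
            intro p hp
            rw [Finset.mem_inter] at hp
            have h7 := PT_five hp.1
            obtain ⟨-, h8, -⟩ := Ap_bound p h7
            have h9 : (5 : ℝ) ≤ p := by exact_mod_cast h7
            have h10 : 4 / (p : ℝ) ≤ 4 / 5 :=
              div_le_div_of_nonneg_left (by norm_num) (by norm_num) h9
            linarith
        _ = ((PT T ∩ E).card : ℝ) := by simp
        _ ≤ E.card := by exact_mod_cast Finset.card_le_card Finset.inter_subset_right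
    linarith
  have h3 : (Real.log T) ^ (1 / z - 2) = Real.exp ((1 / z - 2) * Real.log (Real.log T)) := by
    rw [Real.rpow_def_of_pos (by linarith), mul_comm]
  rw [h3, ← Real.exp_add]
  apply Real.exp_le_exp.2
  nlinarith [mul_le_mul_of_nonpos_left h2 hz2.le]

theorem ani_S3 (E : Finset ℕ) : ∃ C1 : ℝ, 0 ≤ C1 ∧ ∀ T : ℕ, 3 ≤ T →
    ∑ p ∈ PE E T, 2 * Ap p * Real.log p ≤ 2 * Real.log T + C1 := by
  obtain ⟨C, hC⟩ := Pool.Agent.GaussMR.mertens_log
  have hC0 : 0 ≤ C := (abs_nonneg _).trans (hC 2 le_rfl)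
  refine ⟨4 * C, by positivity, fun T hT => ?_⟩
  have h1 : ∑ p ∈ PT T, Real.log p / p ≤ Real.log T / 2 + C := by
    have := (abs_le.1 (hC (T : ℝ) (by exact_mod_cast (by omega : 2 ≤ T)))).2
    rw [← PT_eq] at this
    linarith
  calc ∑ p ∈ PE E T, 2 * Ap p * Real.log p ≤ ∑ p ∈ PE E T, 4 * (Real.log p / p) := by
        apply Finset.sum_le_sum
        intro p hp
        have h2 := (ani_Ap hp).2.1
        have h3 := mul_le_mul_of_nonneg_right h2 (Real.log_natCast_nonneg p)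
        calc _ ≤ 4 / (p : ℝ) * Real.log p := h3
          _ = _ := by ring
    _ ≤ ∑ p ∈ PT T, 4 * (Real.log p / p) := by
        apply Finset.sum_le_sum_of_subset_of_nonneg
        · intro p hp
          exact mem_PE' hp
        · intro p _ _
          have := Real.log_natCast_nonneg p
          positivity
    _ = 4 * ∑ p ∈ PT T, Real.log p / p := by rw [Finset.mul_sum]
    _ ≤ _ := by linarith

theorem ani_total (E : Finset ℕ) (g : ℕ → ℂ)
    (hg1 : ∀ p : ℕ, p.Prime → p % 4 = 1 → p ∉ E → ‖g p‖ = 1) (T : ℕ) {ψ : ℝ → ℂ}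
    (hψ : Continuous ψ) {C : ℝ} (hC : ∀ t, ‖ψ t‖ ≤ C / (1 + t ^ 2))
    {z A K l : ℝ} (hz : 0 < z) (hK : 0 < K) (hA : 0 < A) (hl : 0 < l) :
    IT E g T ψ ≤ l * (2 * A + K) * (∑ D ∈ (PE E T).powerset, Pr E T D * (1 / z) ^ D.card) +
      1 / (2 * l) * (∑ D ∈ (PE E T).powerset, Pr E T D * z ^ D.card * ∫ t, ‖cs g ψ D t‖ ^ 2) +
      (2 * C / K + 4 * C / A * ∑ p ∈ PE E T, 2 * Ap p * Real.log p) := by
  have hC0 := ani_C hC
  have h1 : IT E g T ψ ≤ ∑ D ∈ (PE E T).powerset, Pr E T D * (l * (2 * A + K) * (1 / z) ^ D.card +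
      1 / (2 * l) * (z ^ D.card * ∫ t, ‖cs g ψ D t‖ ^ 2) +
      (2 * C / K * 2 ^ D.card + 4 * C / A * ∑ a ∈ D.powerset, lg a)) := by
    unfold IT
    apply Finset.sum_le_sum
    intro D hD
    rw [Finset.mem_powerset] at hD
    exact mul_le_mul_of_nonneg_left (ani_D E g hg1 T D hD hψ hC hz hK hA hl) (ani_Pr E T hD)
  refine h1.trans ?_
  have h2 : ∑ D ∈ (PE E T).powerset, Pr E T D * (l * (2 * A + K) * (1 / z) ^ D.card +
      1 / (2 * l) * (z ^ D.card * ∫ t, ‖cs g ψ D t‖ ^ 2) +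
      (2 * C / K * 2 ^ D.card + 4 * C / A * ∑ a ∈ D.powerset, lg a)) =
      l * (2 * A + K) * (∑ D ∈ (PE E T).powerset, Pr E T D * (1 / z) ^ D.card) +
      1 / (2 * l) * (∑ D ∈ (PE E T).powerset, Pr E T D * z ^ D.card * ∫ t, ‖cs g ψ D t‖ ^ 2) +
      (2 * C / K * (∑ D ∈ (PE E T).powerset, Pr E T D * 2 ^ D.card) +
        4 * C / A * ∑ D ∈ (PE E T).powerset, Pr E T D * ∑ a ∈ D.powerset, lg a) := by
    rw [Finset.mul_sum, Finset.mul_sum, Finset.mul_sum, Finset.mul_sum, ← Finset.sum_add_distrib,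
      ← Finset.sum_add_distrib, ← Finset.sum_add_distrib]
    apply Finset.sum_congr rfl
    intro D _
    ring
  rw [h2, ani_two]
  have h3 := mul_le_mul_of_nonneg_left (ani_lg E T) (by positivity : 0 ≤ 4 * C / A)
  linarith

/-- PROOF. All `Pr E T D ≥ 0` (`0 ≤ 2 Ap p ≤ 4/5`). Let `K ≥ 1`, `A = K log T`, `A1 = K`, window `𝒲 = [-(2 A + A1), 2 A + A1]` (`A ≥ K`, so its length is at most `6 A`).
(i) Outside `𝒲`: `∫_(t ∉ 𝒲) ‖cs g ψ D t‖ ≤ ∑_(a ⊆ D) ∫_(t ∉ 𝒲) ‖ψ (t - 2 lg a)‖`; if `lg a ≤ A` the argument has absolute value `≥ A1`, so the integral is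
`≤ ∫_(|u| ≥ A1) C/(1+u^2) ≤ 2 C/A1`; otherwise it is `≤ ∫ ‖ψ‖ ≤ 4 C ≤ 4 C lg a / A`. Sum with `Pr`: `∑_D Pr D 2^(#D) = ∏ (1 - 2 Ap + 2 Ap) = 1`
(`Finset.prod_add` over `PE E T`), and `∑_D Pr D ∑_(a ⊆ D) lg a = ∑_p Ap p log p ≤ ∑_(p ≤ T) 2 log p / p ≤ C'' log T` (write `lg a = ∑_(p ∈ a) log p` and exchange: for
fixed `p` the sum over `D ∋ p`, `a ∋ p` is `Ap p ∏_(q ≠ p) (1 - 2 Ap q + 2 Ap q)`; Mertens bound in `Lib_MP_f1a94e_mr/MertensA.lean` or
by dyadic blocks from Chebyshev; any bound `∑_(p ∈ PT T) log p / p ≤ C'' log T` will do, e.g. `Ap p ≤ 2/p` and `∑_(m ≤ T) Λ(m)/m ≤ log T + C`). Total `≤ C'''/K`.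
(ii) Inside: Cauchy-Schwarz for sum and integral:
`∑_D Pr D ∫_𝒲 ‖cs‖ ≤ (∑_D Pr D z^(-#D) |𝒲|)^(1/2) (∑_D Pr D z^(#D) ∫ ‖cs‖^2)^(1/2)`, `∑_D Pr D z^(-#D) = ∏ (1 - 2 Ap + Ap / z) ≤ exp ((1/z - 2) ∑ Ap p)`
and `∑_(PE) Ap p = muT T / 2 - O(1) = log log T + O(1)` (`mu_bound`; `1/z - 2 < 0`), so the first factor is `≤ (6 K log T * C4 (log T)^(1/z - 2))^(1/2)`; the second one
`≤ (C' (log T)^(2 (z-1)))^(1/2)`. The exponent is `(1/z + 2 z - 3)/2 < 0` as `(2 z - 1)(z - 1) < 0`: for fixed `K` it tends to `0`. -/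
theorem anI (E : Finset ℕ) (g : ℕ → ℂ) (hg1 : ∀ p : ℕ, p.Prime → p % 4 = 1 → p ∉ E → ‖g p‖ = 1)
    (z : ℝ) (hz : 1 / 2 < z) (hz1 : z < 1) (ψ : ℝ → ℂ) (hψ : Continuous ψ) (C : ℝ) (hC : ∀ t, ‖ψ t‖ ≤ C / (1 + t ^ 2))
    (C' : ℝ) (hL2 : ∀ T : ℕ, 3 ≤ T → ∑ D ∈ (PE E T).powerset, Pr E T D * z ^ D.card * ∫ t, ‖cs g ψ D t‖ ^ 2 ≤
      C' * (Real.log T) ^ (2 * (z - 1))) :
    Tendsto (fun T : ℕ => IT E g T ψ) atTop (nhds 0) := by
  have hz0 : 0 < z := by linarith
  have hC0 := ani_C hC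
  obtain ⟨C4, hC4, hS1⟩ := ani_S1 E z hz hz1
  obtain ⟨C1, hC1, hS3⟩ := ani_S3 E
  -- the exponent
  have hexp : 1 / z - 1 < 2 * (1 - z) := by
    rw [sub_lt_iff_lt_add, div_lt_iff₀ hz0]
    nlinarith
  obtain ⟨m, hm1, hm2⟩ := exists_between hexp
  have hlogT : Tendsto (fun T : ℕ => Real.log (T : ℝ)) atTop atTop :=
    Real.tendsto_log_atTop.comp tendsto_natCast_atTop_atTop
  have hl1 : Tendsto (fun T : ℕ => (Real.log (T : ℝ)) ^ (1 / z - 1 - m)) atTop (nhds 0) := by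
    have h1 := (tendsto_rpow_neg_atTop (y := m - (1 / z - 1)) (by linarith)).comp hlogT
    refine h1.congr fun T => ?_
    simp only [Function.comp]
    congr 1
    ring
  have hl2 : Tendsto (fun T : ℕ => (Real.log (T : ℝ)) ^ (m + 2 * (z - 1))) atTop (nhds 0) := by
    have h1 := (tendsto_rpow_neg_atTop (y := 2 * (1 - z) - m) (by linarith)).comp hlogT
    refine h1.congr fun T => ?_
    simp only [Function.comp]
    congr 1
    ring
  -- the bound for fixed `K`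
  have hbound : ∀ K : ℝ, 1 ≤ K → ∀ T : ℕ, 3 ≤ T → IT E g T ψ ≤
      3 * K * C4 * (Real.log (T : ℝ)) ^ (1 / z - 1 - m) +
      C' / 2 * (Real.log (T : ℝ)) ^ (m + 2 * (z - 1)) + (10 * C + 4 * C * C1) / K := by
    intro K hK T hT
    have hL := one_le_logT hT
    have hL0 : 0 < Real.log (T : ℝ) := by linarith
    obtain ⟨L, hLdef⟩ : ∃ L : ℝ, L = Real.log (T : ℝ) := ⟨_, rfl⟩
    have hK0 : 0 < K := by linarith
    have h1 := ani_total E g hg1 T hψ hC (z := z) (A := K * Real.log T) (K := K)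
      (l := (Real.log (T : ℝ)) ^ (-m)) hz0 hK0 (by positivity) (by positivity)
    have h2 := hS1 T hT
    have h3 := hS3 T hT
    have h4 := hL2 T hT
    rw [← hLdef] at h1 h2 h3 h4 hL hL0 ⊢
    refine h1.trans ?_
    apply add_le_add
    · apply add_le_add
      · have h5 : 0 ≤ L ^ (-m) * (2 * (K * L) + K) := by positivity
        refine (mul_le_mul_of_nonneg_left h2 h5).trans ?_
        have h6 : L ^ (-m) * (2 * (K * L) + K) ≤ L ^ (-m) * (3 * K * L) := by
          apply mul_le_mul_of_nonneg_left _ (by positivity)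
          nlinarith
        refine (mul_le_mul_of_nonneg_right h6 (by positivity)).trans (le_of_eq ?_)
        have h7 : L ^ (1 / z - 1 - m) = L ^ (-m) * L * L ^ (1 / z - 2) := by
          rw [← Real.rpow_add_one hL0.ne', ← Real.rpow_add hL0]
          congr 1
          ring
        rw [h7]
        ring
      · have h5 : 0 ≤ 1 / (2 * L ^ (-m)) := by positivity
        refine (mul_le_mul_of_nonneg_left h4 h5).trans (le_of_eq ?_)
        have h7 : L ^ (m + 2 * (z - 1)) = (L ^ (-m))⁻¹ * L ^ (2 * (z - 1)) := by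
          rw [Real.rpow_neg hL0.le, inv_inv, ← Real.rpow_add hL0]
        rw [h7]
        field_simp
    · have h5 : 4 * C / (K * L) * ∑ p ∈ PE E T, 2 * Ap p * Real.log p ≤
          4 * C / (K * L) * (2 * L + C1) :=
        mul_le_mul_of_nonneg_left h3 (by positivity)
      have h6 : 4 * C / (K * L) * (2 * L + C1) ≤ (8 * C + 4 * C * C1) / K := by
        rw [div_mul_eq_mul_div, div_le_div_iff₀ (by positivity) hK0]
        have h8 : 4 * C * C1 * K ≤ 4 * C * C1 * K * L := by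
          apply le_mul_of_one_le_right (by positivity) hL
        nlinarith
      have h7 : (10 * C + 4 * C * C1) / K = 2 * C / K + (8 * C + 4 * C * C1) / K := by ring
      linarith
  -- conclusion
  have hIT0 : ∀ T, 0 ≤ IT E g T ψ := by
    intro T
    unfold IT
    apply Finset.sum_nonneg
    intro D hD
    rw [Finset.mem_powerset] at hD
    exact mul_nonneg (ani_Pr E T hD) (integral_nonneg fun t => norm_nonneg _)
  rw [Metric.tendsto_atTop]
  intro ε hε
  obtain ⟨K, hK⟩ := exists_nat_gt (max 1 ((10 * C + 4 * C * C1) / (ε / 2)))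
  have hK1 : (1 : ℝ) < K := (le_max_left _ _).trans_lt hK
  have hK2 : (10 * C + 4 * C * C1) / (ε / 2) < K := (le_max_right _ _).trans_lt hK
  have hK3 : (10 * C + 4 * C * C1) / K < ε / 2 := by
    rw [div_lt_iff₀ (by positivity)] at hK2
    rw [div_lt_iff₀ (by linarith)]
    linarith
  have hlim : Tendsto (fun T : ℕ => 3 * K * C4 * (Real.log (T : ℝ)) ^ (1 / z - 1 - m) +
      C' / 2 * (Real.log (T : ℝ)) ^ (m + 2 * (z - 1))) atTop (nhds 0) := by
    have := (hl1.const_mul (3 * K * C4)).add (hl2.const_mul (C' / 2))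
    simpa using this
  obtain ⟨N, hN⟩ := ((hlim.eventually (gt_mem_nhds (show (0:ℝ) < ε / 2 by linarith))).and
    (eventually_ge_atTop 3)).exists_forall_of_atTop
  refine ⟨N, fun T hT => ?_⟩
  obtain ⟨h1, h2⟩ := hN T hT
  have h3 := hbound K hK1.le T h2
  rw [Real.dist_eq, sub_zero, abs_of_nonneg (hIT0 T)]
  linarith

end Pool.Agent.OmEq
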