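import Mathlib

/-!
# Piece APPG: approximation by step functions and triangles
-/

set_option autoImplicit false

namespace Pool.Agent.OmEq

open Finset

/-- indicator of the cell `(C i / I, C (i+1) / I]` -/
noncomputable def cell (C : ℝ) (I i : ℕ) (x : ℝ) : ℝ := if C * i / I < x ∧ x ≤ C * (i + 1) / I then 1 else 0

theorem appg_cell (C : ℝ) (I : ℕ) (hC : 0 < C) (hI : 1 ≤ I) (x : ℝ) (hx : 0 < x) (hx' : x ≤ C) :
    ∃ i0 ∈ range I, C * i0 / I < x ∧ x - C * i0 / I ≤ C / I ∧ ∀ a : ℕ → ℝ,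
      ∑ i ∈ range I, a i * cell C I i x = a i0 := by
  have hI' : (0 : ℝ) < I := by exact_mod_cast hI
  have h0 : 0 < ⌈x * I / C⌉₊ := Nat.ceil_pos.2 (by positivity)
  obtain ⟨i0, hi0⟩ : ∃ i0, ⌈x * I / C⌉₊ = i0 + 1 := ⟨⌈x * I / C⌉₊ - 1, by omega⟩
  have h1 : (i0 : ℝ) < x * I / C := by
    have := Nat.ceil_lt_add_one (show 0 ≤ x * I / C by positivity)
    rw [hi0] at this
    push_cast at this
    linarith
  have h2 : x * I / C ≤ (i0 : ℝ) + 1 := by
    have := Nat.le_ceil (x * I / C)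
    rw [hi0] at this
    push_cast at this
    exact this
  have h3 : i0 + 1 ≤ I := by
    rw [← hi0]
    apply Nat.ceil_le.2
    rw [div_le_iff₀ hC]
    nlinarith
  have h4 : C * i0 / I < x := by
    rw [div_lt_iff₀ hI']
    rw [lt_div_iff₀ hC] at h1
    linarith
  have h5 : x ≤ C * (i0 + 1) / I := by
    rw [le_div_iff₀ hI']
    rw [div_le_iff₀ hC] at h2
    linarith
  refine ⟨i0, mem_range.2 (by omega), h4, ?_, ?_⟩
  · have : C * ((i0 : ℝ) + 1) / I = C * i0 / I + C / I := by ring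
    linarith
  · intro a
    rw [Finset.sum_eq_single i0]
    · unfold cell
      rw [if_pos ⟨h4, h5⟩, mul_one]
    · intro i _ hi
      unfold cell
      rw [if_neg, mul_zero]
      rintro ⟨h6, h7⟩
      apply hi
      have h8 : C * i / I < C * (i0 + 1) / I := lt_of_lt_of_le h6 h5
      have h9 : C * i0 / I < C * (i + 1) / I := lt_of_lt_of_le h4 h7
      rw [div_lt_div_iff_of_pos_right hI'] at h8 h9
      have h10 := lt_of_mul_lt_mul_left h8 hC.le
      have h11 := lt_of_mul_lt_mul_left h9 hC.le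
      have h12 : i < i0 + 1 := by exact_mod_cast h10
      have h13 : i0 < i + 1 := by exact_mod_cast h11
      omega
    · intro h
      exact absurd (mem_range.2 (by omega)) h

theorem appg_tri (I L : ℕ) (g : ℕ → ℝ) (hg : ∀ l, L ≤ l → g l = 0) (σ : ℝ) (hσ : 0 ≤ σ) :
    ∑ l ∈ range L, g l * max 0 (1 - |I * σ - l|) =
      g ⌊I * σ⌋₊ * (1 - (I * σ - ⌊I * σ⌋₊)) + g (⌊I * σ⌋₊ + 1) * (I * σ - ⌊I * σ⌋₊) := by
  have hs : 0 ≤ (I : ℝ) * σ := by positivity
  have h1 := Nat.floor_le hs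
  have h2 := Nat.lt_floor_add_one ((I : ℝ) * σ)
  set m := ⌊(I : ℝ) * σ⌋₊ with hm
  have e1 : ∑ l ∈ range L, g l * max 0 (1 - |I * σ - l|) =
      ∑ l ∈ range (max L (m + 2)), g l * max 0 (1 - |I * σ - l|) := by
    apply Finset.sum_subset (Finset.range_mono (le_max_left _ _))
    intro l _ hl
    rw [mem_range, not_lt] at hl
    rw [hg l hl, zero_mul]
  have e2 : ∑ l ∈ ({m, m + 1} : Finset ℕ), g l * max 0 (1 - |I * σ - l|) =
      ∑ l ∈ range (max L (m + 2)), g l * max 0 (1 - |I * σ - l|) := by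
    apply Finset.sum_subset
    · intro l hl
      rw [mem_insert, mem_singleton] at hl
      rw [mem_range]
      have := le_max_right L (m + 2)
      omega
    · intro l _ hl
      rw [mem_insert, mem_singleton, not_or] at hl
      have h3 : 1 ≤ |I * σ - l| := by
        rcases lt_or_ge l m with h | h
        · have h4 : (l : ℝ) + 1 ≤ m := by exact_mod_cast h
          rw [le_abs]
          left
          linarith
        · have h4 : m + 2 ≤ l := by omega
          have h5 : (m : ℝ) + 2 ≤ l := by exact_mod_cast h4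
          rw [le_abs]
          right
          linarith
      rw [max_eq_left (by linarith), mul_zero]
  rw [e1, ← e2, Finset.sum_pair (by omega)]
  have h6 : |(I : ℝ) * σ - m| = I * σ - m := abs_of_nonneg (by linarith)
  have h7 : |(I : ℝ) * σ - ((m + 1 : ℕ) : ℝ)| = 1 - (I * σ - m) := by
    push_cast
    rw [abs_of_nonpos (by linarith)]
    ring
  rw [h6, h7, max_eq_right (by linarith), max_eq_right (by linarith)]
  ring

/-- PROOF. `F` is uniformly continuous (compact support: it vanishes outside `[c0, C0]^2 × [0, B]`). For `x, x' ∈ (0, C0]` exactly one `i` and one `j` have `cell = 1`, `|x - C0 i/I| ≤ C0/I`. For `σ ≥ 0`, `∑_(l ≥ 0) max 0 (1 - |I σ - l|) = 1` and only `l` with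
`|σ - l/I| < 1/I` contribute; `F (..) (..) (l/I) = 0` for `l/I ≥ B` and for `l = 0`; for `σ < 0` all contributing terms have `l = 0`. So the difference is at most the modulus of continuity at `(C0 + 1)/I`, times 1. Support: if `x < c0/2` (or `x' < c0/2`) then
`F x x' σ = 0` and `C0 i/I < x < c0`; if `B + 1 < |σ|` then `F = 0` and the terms with `|I σ - l| < 1` have `l/I > B`. For `I` large. -/
theorem appG (c0 C0 B : ℝ) (hc0 : 0 < c0) (hC0 : c0 ≤ C0) (hB : 0 < B) (F : ℝ → ℝ → ℝ → ℝ)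
    (hF : Continuous (fun v : ℝ × ℝ × ℝ => F v.1 v.2.1 v.2.2))
    (h1 : ∀ x x' σ, x ≤ c0 ∨ x' ≤ c0 ∨ C0 ≤ x ∨ C0 ≤ x' ∨ σ ≤ 0 ∨ B ≤ σ → F x x' σ = 0) (ε : ℝ) (hε : 0 < ε) :
    ∃ I : ℕ, 1 ≤ I ∧ ∀ x x' σ : ℝ, 0 < x → x ≤ C0 → 0 < x' → x' ≤ C0 →
      |F x x' σ - ∑ i ∈ range I, ∑ j ∈ range I, ∑ l ∈ range (⌈B⌉₊ * I + 1),
        F (C0 * i / I) (C0 * j / I) ((l : ℝ) / I) * cell C0 I i x * cell C0 I j x' * max 0 (1 - |I * σ - l|)| ≤
      if c0 / 2 ≤ x ∧ c0 / 2 ≤ x' ∧ |σ| ≤ B + 1 then ε else 0 := by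
  have hC0' : 0 < C0 := by linarith
  have hcs : HasCompactSupport (fun v : ℝ × ℝ × ℝ => F v.1 v.2.1 v.2.2) := by
    refine HasCompactSupport.intro (K := Set.Icc c0 C0 ×ˢ Set.Icc c0 C0 ×ˢ Set.Icc 0 B)
      (isCompact_Icc.prod (isCompact_Icc.prod isCompact_Icc)) ?_
    rintro ⟨x, x', σ⟩ hx
    by_contra hne
    apply hx
    have hn : ¬ (x ≤ c0 ∨ x' ≤ c0 ∨ C0 ≤ x ∨ C0 ≤ x' ∨ σ ≤ 0 ∨ B ≤ σ) := fun h => hne (h1 x x' σ h)
    simp only [not_or, not_le] at hn
    obtain ⟨a1, a2, a3, a4, a5, a6⟩ := hn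
    exact ⟨⟨a1.le, a3.le⟩, ⟨a2.le, a4.le⟩, ⟨a5.le, a6.le⟩⟩
  have huc := hcs.uniformContinuous_of_continuous hF
  obtain ⟨δ, hδ, hδF⟩ := Metric.uniformContinuous_iff.1 huc ε hε
  obtain ⟨I0, hI0⟩ := exists_nat_gt ((C0 + 1) / δ)
  have hI : 1 ≤ I0 + 1 := by omega
  have hI' : (0 : ℝ) < ((I0 + 1 : ℕ) : ℝ) := by positivity
  have hId : (C0 + 1) / ((I0 + 1 : ℕ) : ℝ) < δ := by
    rw [div_lt_iff₀ hI']
    rw [div_lt_iff₀ hδ] at hI0
    push_cast
    nlinarith
  generalize I0 + 1 = I at hI hI' hId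
  clear hI0
  have hI1 : (1 : ℝ) ≤ I := by exact_mod_cast hI
  refine ⟨I, hI, ?_⟩
  intro x x' σ hx hxC hx' hxC'
  obtain ⟨i0, hi0, hi1, hi2, hi3⟩ := appg_cell C0 I hC0' hI x hx hxC
  obtain ⟨j0, hj0, hj1, hj2, hj3⟩ := appg_cell C0 I hC0' hI x' hx' hxC'
  have e1 : ∑ i ∈ range I, ∑ j ∈ range I, ∑ l ∈ range (⌈B⌉₊ * I + 1),
        F (C0 * i / I) (C0 * j / I) ((l : ℝ) / I) * cell C0 I i x * cell C0 I j x' * max 0 (1 - |I * σ - l|) =
      ∑ l ∈ range (⌈B⌉₊ * I + 1), F (C0 * i0 / I) (C0 * j0 / I) ((l : ℝ) / I) * max 0 (1 - |I * σ - l|) := by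
    rw [← hi3 (fun i => ∑ l ∈ range (⌈B⌉₊ * I + 1), F (C0 * i / I) (C0 * j0 / I) ((l : ℝ) / I) *
      max 0 (1 - |I * σ - l|))]
    refine Finset.sum_congr rfl fun i _ => ?_
    rw [← hj3 (fun j => ∑ l ∈ range (⌈B⌉₊ * I + 1), F (C0 * i / I) (C0 * j / I) ((l : ℝ) / I) *
      max 0 (1 - |I * σ - l|)), Finset.sum_mul]
    refine Finset.sum_congr rfl fun j _ => ?_
    rw [Finset.sum_mul, Finset.sum_mul]
    refine Finset.sum_congr rfl fun l _ => ?_
    ring
  rw [e1]
  set a := C0 * i0 / I with ha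
  set b := C0 * j0 / I with hb
  have hLz : ∀ l : ℕ, ⌈B⌉₊ * I + 1 ≤ l → F a b ((l : ℝ) / I) = 0 := by
    intro l hl
    apply h1
    refine Or.inr (Or.inr (Or.inr (Or.inr (Or.inr ?_))))
    rw [le_div_iff₀ hI']
    have h2 : ((⌈B⌉₊ * I + 1 : ℕ) : ℝ) ≤ l := by exact_mod_cast hl
    push_cast at h2
    have h3 := Nat.le_ceil B
    nlinarith
  rcases lt_or_ge σ 0 with hσ | hσ
  · -- `σ < 0`: everything vanishes
    have e2 : ∑ l ∈ range (⌈B⌉₊ * I + 1), F a b ((l : ℝ) / I) * max 0 (1 - |I * σ - l|) = 0 := by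
      apply Finset.sum_eq_zero
      intro l _
      rcases Nat.eq_zero_or_pos l with h | h
      · rw [h, h1 a b _ (by simp), zero_mul]
      · have h2 : (1 : ℝ) ≤ l := by exact_mod_cast h
        have h3 : (I : ℝ) * σ < 0 := mul_neg_of_pos_of_neg hI' hσ
        have h4 : 1 ≤ |(I : ℝ) * σ - l| := by
          rw [le_abs]
          right
          linarith
        rw [max_eq_left (by linarith), mul_zero]
    rw [e2, h1 x x' σ (by simp [hσ.le]), sub_zero, abs_zero]
    split_ifs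
    · exact hε.le
    · exact le_refl _
  · rw [appg_tri I _ (fun l => F a b ((l : ℝ) / I)) hLz σ hσ]
    have hs : 0 ≤ (I : ℝ) * σ := by positivity
    have g1 := Nat.floor_le hs
    have g2 := Nat.lt_floor_add_one ((I : ℝ) * σ)
    set m := ⌊(I : ℝ) * σ⌋₊ with hm
    have hf0 : 0 ≤ (I : ℝ) * σ - m := by linarith
    have hf1 : 0 ≤ 1 - ((I : ℝ) * σ - m) := by linarith
    by_cases hcase : c0 / 2 ≤ x ∧ c0 / 2 ≤ x' ∧ |σ| ≤ B + 1
    · rw [if_pos hcase]
      have k1 : |x - a| < δ := by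
        rw [abs_of_pos (by linarith)]
        refine lt_of_le_of_lt hi2 (lt_of_le_of_lt ?_ hId)
        exact div_le_div_of_nonneg_right (by linarith) hI'.le
      have k2 : |x' - b| < δ := by
        rw [abs_of_pos (by linarith)]
        refine lt_of_le_of_lt hj2 (lt_of_le_of_lt ?_ hId)
        exact div_le_div_of_nonneg_right (by linarith) hI'.le
      have k0 : 1 / (I : ℝ) < δ := lt_of_le_of_lt (div_le_div_of_nonneg_right (by linarith) hI'.le) hId
      have k3 : |σ - (m : ℝ) / I| < δ := by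
        refine lt_of_le_of_lt ?_ k0
        rw [abs_le, neg_le_iff_add_nonneg]
        have q1 : σ = (I * σ) / I := by field_simp
        constructor
        · have : σ - (m : ℝ) / I + 1 / I = (I * σ - m + 1) / I := by
            field_simp
          rw [this]
          exact div_nonneg (by linarith) hI'.le
        · rw [sub_le_iff_le_add, ← add_div, le_div_iff₀ hI']
          linarith
      have k4 : |σ - ((m + 1 : ℕ) : ℝ) / I| < δ := by
        refine lt_of_le_of_lt ?_ k0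
        push_cast
        rw [abs_le, neg_le_iff_add_nonneg]
        constructor
        · have : σ - ((m : ℝ) + 1) / I + 1 / I = (I * σ - m) / I := by
            field_simp
            ring
          rw [this]
          exact div_nonneg (by linarith) hI'.le
        · rw [sub_le_iff_le_add, ← add_div, le_div_iff₀ hI']
          linarith
      have k5 : |F x x' σ - F a b ((m : ℝ) / I)| ≤ ε := by
        have := hδF (a := (x, x', σ)) (b := (a, b, (m : ℝ) / I))
          (by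
            rw [Prod.dist_eq, Prod.dist_eq]
            exact max_lt k1 (max_lt k2 k3))
        exact this.le
      have k6 : |F x x' σ - F a b (((m + 1 : ℕ) : ℝ) / I)| ≤ ε := by
        have := hδF (a := (x, x', σ)) (b := (a, b, ((m + 1 : ℕ) : ℝ) / I))
          (by
            rw [Prod.dist_eq, Prod.dist_eq]
            exact max_lt k1 (max_lt k2 k4))
        exact this.le
      have k7 : F x x' σ - (F a b ((m : ℝ) / I) * (1 - ((I : ℝ) * σ - m)) +
          F a b (((m + 1 : ℕ) : ℝ) / I) * ((I : ℝ) * σ - m)) =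
          (F x x' σ - F a b ((m : ℝ) / I)) * (1 - ((I : ℝ) * σ - m)) +
          (F x x' σ - F a b (((m + 1 : ℕ) : ℝ) / I)) * ((I : ℝ) * σ - m) := by ring
      show |F x x' σ - (F a b ((m : ℝ) / I) * (1 - ((I : ℝ) * σ - m)) +
          F a b (((m + 1 : ℕ) : ℝ) / I) * ((I : ℝ) * σ - m))| ≤ ε
      rw [k7]
      refine (abs_add_le _ _).trans ?_
      rw [abs_mul, abs_mul, abs_of_nonneg hf1, abs_of_nonneg hf0]
      nlinarith
    · rw [if_neg hcase]
      have z1 : F x x' σ = 0 ∧ F a b ((m : ℝ) / I) = 0 ∧ F a b (((m + 1 : ℕ) : ℝ) / I) = 0 := by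
        rcases lt_or_ge x (c0 / 2) with h | h
        · exact ⟨h1 _ _ _ (Or.inl (by linarith)), h1 _ _ _ (Or.inl (by linarith)),
            h1 _ _ _ (Or.inl (by linarith))⟩
        rcases lt_or_ge x' (c0 / 2) with h' | h'
        · exact ⟨h1 _ _ _ (Or.inr (Or.inl (by linarith))), h1 _ _ _ (Or.inr (Or.inl (by linarith))),
            h1 _ _ _ (Or.inr (Or.inl (by linarith)))⟩
        have h'' : B + 1 < σ := by
          by_contra hne
          apply hcase
          refine ⟨h, h', ?_⟩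
          rw [abs_of_nonneg hσ]
          linarith
        have h3 : B ≤ (m : ℝ) / I := by
          rw [le_div_iff₀ hI']
          nlinarith
        have h4 : B ≤ ((m + 1 : ℕ) : ℝ) / I := by
          push_cast
          rw [le_div_iff₀ hI']
          rw [le_div_iff₀ hI'] at h3
          linarith
        refine ⟨h1 _ _ _ ?_, h1 _ _ _ ?_, h1 _ _ _ ?_⟩
        · exact Or.inr (Or.inr (Or.inr (Or.inr (Or.inr (by linarith)))))
        · exact Or.inr (Or.inr (Or.inr (Or.inr (Or.inr h3))))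
        · exact Or.inr (Or.inr (Or.inr (Or.inr (Or.inr h4))))
      show |F x x' σ - (F a b ((m : ℝ) / I) * (1 - ((I : ℝ) * σ - m)) +
          F a b (((m + 1 : ℕ) : ℝ) / I) * ((I : ℝ) * σ - m))| ≤ 0
      rw [z1.1, z1.2.1, z1.2.2]
      simp

end Pool.Agent.OmEq
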