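import Pool.Agent.Lib_MP_f1a94e_eq.Defs
import Pool.Agent.Lib_MP_f1a94e_aq.Tail

/-!
# Piece CNT: upper bounds for the number of pairs
-/

set_option autoImplicit false

namespace Pool.Agent.OmEq

open Finset Pool.Agent.GaussMR Pool.Agent.OmAll

/-- two second vectors of pairs with the same first vector and determinant differ by a multiple of it -/
theorem cnt_diff {V W W' : G} {n : ℤ} (hV : Prim V) (h : det V W = n) (h' : det V W' = n) :
    ∃ k : ℤ, W' = W + (k : G) * V := by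
  unfold det at h h'
  obtain ⟨a, b, hab⟩ := hV
  refine ⟨a * (W'.re - W.re) + b * (W'.im - W.im), ?_⟩
  apply Zsqrtd.ext
  · rw [Zsqrtd.re_add, TailP.smul_re]
    linear_combination (-(W'.re - W.re)) * hab + b * (h - h')
  · rw [Zsqrtd.im_add, TailP.smul_im]
    linear_combination (-(W'.im - W.im)) * hab + a * (h' - h)

theorem cnt_sub (V : G) (hV : Prim V) (n : ℤ) (a b : ℝ) (hab : a ≤ b) :
    ∃ s : Finset G, {V' : G | det V V' = n ∧ a ≤ ((dot V V' : ℤ) : ℝ) ∧ ((dot V V' : ℤ) : ℝ) ≤ b} ⊆ s ∧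
      (s.card : ℝ) ≤ (b - a) / nm V + 1 := by
  classical
  have h0 : (0 : ℝ) ≤ (b - a) / nm V + 1 := by
    have : (0 : ℝ) ≤ (b - a) / nm V := div_nonneg (by linarith) (Nat.cast_nonneg _)
    linarith
  by_cases hne : {V' : G | det V V' = n ∧ a ≤ ((dot V V' : ℤ) : ℝ) ∧ ((dot V V' : ℤ) : ℝ) ≤ b}.Nonempty
  · obtain ⟨W, hW, _, _⟩ := hne
    have hV0 : V ≠ 0 := by
      rintro rfl
      obtain ⟨u, v, huv⟩ := hV
      simp at huv
    have hn : (0 : ℝ) < nm V := by exact_mod_cast nm_pos hV0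
    set N : ℝ := (nm V : ℝ) with hndef
    set d : ℝ := ((dot V W : ℤ) : ℝ) with hd
    refine ⟨(Icc ⌈(a - d) / N⌉ ⌊(b - d) / N⌋).image (fun k : ℤ => W + (k : G) * V), ?_, ?_⟩
    · rintro W' ⟨h1, h2, h3⟩
      obtain ⟨k, rfl⟩ := cnt_diff hV hW h1
      rw [TailP.dot_add_mul] at h2 h3
      push_cast at h2 h3
      rw [Finset.mem_coe, mem_image]
      refine ⟨k, ?_, rfl⟩
      rw [mem_Icc]
      constructor
      · rw [Int.ceil_le, div_le_iff₀ hn]
        linarith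
      · rw [Int.le_floor, le_div_iff₀ hn]
        linarith
    · refine le_trans (Nat.cast_le.2 card_image_le) ?_
      rw [Int.card_Icc]
      rcases le_or_gt (⌊(b - d) / N⌋ + 1 - ⌈(a - d) / N⌉) 0 with h | h
      · rw [Int.toNat_of_nonpos h]
        simpa using h0
      · have h5 : (((⌊(b - d) / N⌋ + 1 - ⌈(a - d) / N⌉).toNat : ℕ) : ℝ) =
            ((⌊(b - d) / N⌋ + 1 - ⌈(a - d) / N⌉ : ℤ) : ℝ) := by
          have := Int.toNat_of_nonneg h.le
          exact_mod_cast this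
        rw [h5]
        push_cast
        have h6 := Int.floor_le ((b - d) / N)
        have h7 := Int.le_ceil ((a - d) / N)
        have h8 : (b - a) / N = (b - d) / N - (a - d) / N := by ring
        rw [h8]
        linarith
  · rw [Set.not_nonempty_iff_eq_empty] at hne
    rw [hne]
    exact ⟨∅, Set.empty_subset _, by simpa using h0⟩

/-- PROOF. As `edges_sub` / `edges_fixed` in `Lib_MP_f1a94e_aq/Tail.lean`: two solutions differ by an integer multiple of `V` (`V` primitive, `det V (W' - W) = 0`), and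
`dot V (W + k V) = dot V W + k nm V`. -/
theorem line_count (V : G) (hV : Prim V) (n : ℤ) (a b : ℝ) (hab : a ≤ b) :
    {V' : G | det V V' = n ∧ a ≤ ((dot V V' : ℤ) : ℝ) ∧ ((dot V V' : ℤ) : ℝ) ≤ b}.Finite ∧
      ({V' : G | det V V' = n ∧ a ≤ ((dot V V' : ℤ) : ℝ) ∧ ((dot V V' : ℤ) : ℝ) ≤ b}.ncard : ℝ) ≤
        (b - a) / nm V + 1 := by
  obtain ⟨s, h1, h2⟩ := cnt_sub V hV n a b hab
  refine ⟨s.finite_toSet.subset h1, le_trans ?_ h2⟩
  have := Set.ncard_le_ncard h1 s.finite_toSet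
  rw [Set.ncard_coe_finset] at this
  exact_mod_cast this

open Classical in
/-- PROOF. `nm e.1 * nm e.2 = dot ^ 2 + n ^ 2 ≤ 2 x ^ 2` and `nm e.1 ≤ exp B * nm e.2`, so `nm e.1 ≤ 2 exp (B/2) x` (B may be negative: then use `|B|`, or the set is empty). `e.1 ≠ 0` lies in a
finite set with at most `18 exp (B/2) x` elements (`ball_sub`). For given `V = e.1`: `dot ≤ ‖V‖ ‖V'‖ ≤ exp (B/2) nm V` (`dot ^ 2 ≤ nm V nm V' ≤ exp B (nm V)^2`), so by `line_count`
with `a = 0`, `b = exp (B/2) nm V` at most `exp (B/2) + 1` possibilities for `V'`. -/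
theorem cnt (B : ℝ) : ∃ C : ℝ, 0 < C ∧ ∀ n : ℕ, 0 < n → ∀ x : ℝ, (n : ℝ) ≤ x →
    (((EN n x).filter (fun e => |tE e| ≤ B)).card : ℝ) ≤ C * x := by
  set E : ℝ := Real.exp (|B| / 2) with hE
  have hE0 : 0 < E := Real.exp_pos _
  have hEE : Real.exp |B| = E ^ 2 := by
    rw [hE, ← Real.exp_nat_mul]
    congr 1
    push_cast
    ring
  refine ⟨18 * E * (E + 1), by positivity, ?_⟩
  intro n hn x hx
  have hn' : (1 : ℝ) ≤ n := by exact_mod_cast hn
  have hx0 : 0 < x := by linarith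
  obtain ⟨S, hS1, hS2, hS3⟩ := TailP.ball_sub (2 * E * x) (by positivity)
  have hex : ∀ V : G, ∃ s : Finset G, Prim V → ({V' : G | det V V' = (n : ℤ) ∧ (0 : ℝ) ≤ ((dot V V' : ℤ) : ℝ) ∧
      ((dot V V' : ℤ) : ℝ) ≤ E * nm V} ⊆ s ∧ (s.card : ℝ) ≤ (E * nm V - 0) / nm V + 1) := by
    intro V
    by_cases hV : Prim V
    · obtain ⟨s, hs⟩ := cnt_sub V hV n 0 (E * nm V) (by positivity)
      exact ⟨s, fun _ => hs⟩
    · exact ⟨∅, fun h => absurd h hV⟩
  choose F hF using hex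
  have hsub : (EN n x).filter (fun e => |tE e| ≤ B) ⊆
      (S.filter (fun V => Prim V)).biUnion (fun V => (F V).image (fun V' => (V, V'))) := by
    intro e he
    rw [mem_filter, mem_EN hn] at he
    obtain ⟨⟨h1, h2⟩, h3⟩ := he
    have h4 := dot_sq_add_det_sq e.1 e.2
    rw [h1.1] at h4
    have h4' : ((dot e.1 e.2 : ℤ) : ℝ) ^ 2 + (n : ℝ) ^ 2 = (nm e.1 : ℝ) * nm e.2 := by
      exact_mod_cast h4
    have h5 : (0 : ℝ) < ((dot e.1 e.2 : ℤ) : ℝ) := by exact_mod_cast h1.2.1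
    have h6 : ((dot e.1 e.2 : ℤ) : ℝ) ≤ x := h2
    have h7 : (0 : ℝ) < (nm e.1 : ℝ) * nm e.2 := by
      rw [← h4']
      positivity
    have h8 : (0 : ℝ) < nm e.1 := by
      rcases (Nat.cast_nonneg (α := ℝ) (nm e.1)).lt_or_eq with h | h
      · exact h
      · rw [← h, zero_mul] at h7
        exact absurd h7 (lt_irrefl _)
    have h9 : (0 : ℝ) < nm e.2 := by
      rcases (Nat.cast_nonneg (α := ℝ) (nm e.2)).lt_or_eq with h | h
      · exact h
      · rw [← h, mul_zero] at h7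
        exact absurd h7 (lt_irrefl _)
    have h10 : |tE e| ≤ |B| := h3.trans (le_abs_self B)
    rw [abs_le] at h10
    unfold tE at h10
    have h11 : (nm e.2 : ℝ) ≤ E ^ 2 * nm e.1 := by
      rw [← hEE, ← Real.log_le_log_iff h9 (by positivity), Real.log_mul (Real.exp_pos _).ne' h8.ne',
        Real.log_exp]
      linarith [h10.2]
    have h12 : (nm e.1 : ℝ) ≤ E ^ 2 * nm e.2 := by
      rw [← hEE, ← Real.log_le_log_iff h8 (by positivity), Real.log_mul (Real.exp_pos _).ne' h9.ne',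
        Real.log_exp]
      linarith [h10.1]
    have h13 : (nm e.1 : ℝ) ≤ 2 * E * x := by
      have h14 : ((dot e.1 e.2 : ℤ) : ℝ) ^ 2 ≤ x ^ 2 := pow_le_pow_left₀ h5.le h6 2
      have h15 : (n : ℝ) ^ 2 ≤ x ^ 2 := pow_le_pow_left₀ (by linarith) hx 2
      have h16 : (nm e.1 : ℝ) ^ 2 ≤ (2 * E * x) ^ 2 := by
        calc (nm e.1 : ℝ) ^ 2 = nm e.1 * nm e.1 := sq _
          _ ≤ nm e.1 * (E ^ 2 * nm e.2) := mul_le_mul_of_nonneg_left h12 h8.le
          _ = E ^ 2 * (nm e.1 * nm e.2) := by ring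
          _ ≤ E ^ 2 * (2 * x ^ 2) := by
              apply mul_le_mul_of_nonneg_left _ (by positivity)
              rw [← h4']
              linarith
          _ ≤ (2 * E * x) ^ 2 := by nlinarith [mul_pos hE0 hx0, sq_nonneg (E * x)]
      exact le_of_sq_le_sq h16 (by positivity)
    have h17 : ((dot e.1 e.2 : ℤ) : ℝ) ≤ E * nm e.1 := by
      have h18 : ((dot e.1 e.2 : ℤ) : ℝ) ^ 2 ≤ (E * nm e.1) ^ 2 := by
        calc ((dot e.1 e.2 : ℤ) : ℝ) ^ 2 ≤ (nm e.1 : ℝ) * nm e.2 := by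
              rw [← h4']
              nlinarith
          _ ≤ nm e.1 * (E ^ 2 * nm e.1) := mul_le_mul_of_nonneg_left h11 h8.le
          _ = (E * nm e.1) ^ 2 := by ring
      exact le_of_sq_le_sq h18 (by positivity)
    rw [mem_biUnion]
    refine ⟨e.1, ?_, ?_⟩
    · rw [mem_filter]
      refine ⟨hS1 e.1 ?_ h13, h1.2.2.1⟩
      intro h0
      have : nm e.1 = 0 := by
        rw [h0]
        rfl
      rw [this] at h8
      simp at h8
    · rw [mem_image]
      refine ⟨e.2, ?_, rfl⟩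
      have h19 : e.2 ∈ {V' : G | det e.1 V' = (n : ℤ) ∧ (0 : ℝ) ≤ ((dot e.1 V' : ℤ) : ℝ) ∧
        ((dot e.1 V' : ℤ) : ℝ) ≤ E * nm e.1} := ⟨h1.1, h5.le, h17⟩
      exact (hF e.1 h1.2.2.1).1 h19
  have h3 : (((EN n x).filter (fun e => |tE e| ≤ B)).card : ℝ) ≤
      ((∑ V ∈ S.filter (fun V => Prim V), (F V).card : ℕ) : ℝ) := by
    exact_mod_cast (card_le_card hsub).trans
      (card_biUnion_le.trans (Finset.sum_le_sum (fun V _ => card_image_le)))
  calc (((EN n x).filter (fun e => |tE e| ≤ B)).card : ℝ) ≤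
      ((∑ V ∈ S.filter (fun V => Prim V), (F V).card : ℕ) : ℝ) := h3
    _ = ∑ V ∈ S.filter (fun V => Prim V), ((F V).card : ℝ) := by push_cast; rfl
    _ ≤ ∑ V ∈ S.filter (fun V => Prim V), (E + 1) := by
        refine Finset.sum_le_sum (fun V hV => ?_)
        rw [mem_filter] at hV
        refine ((hF V hV.2).2).trans ?_
        have hnv : (0 : ℝ) < nm V := by exact_mod_cast nm_pos (hS2 V hV.1)
        rw [sub_zero, mul_div_assoc, div_self hnv.ne', mul_one]
    _ = (S.filter (fun V => Prim V)).card * (E + 1) := by rw [sum_const, nsmul_eq_mul]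
    _ ≤ S.card * (E + 1) := by
        apply mul_le_mul_of_nonneg_right _ (by linarith)
        exact_mod_cast card_filter_le _ _
    _ ≤ (9 * (2 * E * x)) * (E + 1) := mul_le_mul_of_nonneg_right hS3 (by linarith)
    _ = 18 * E * (E + 1) * x := by ring

end Pool.Agent.OmEq
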