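import Pool.Agent.Lib_MP_f1a94e_eq.Defs

/-!
# Piece EPRIM: the pairs of `En n` are the pairs of primitive vectors
-/

set_option autoImplicit false

namespace Pool.Agent.OmEq

open Finset Pool.Agent.GaussMR Pool.Agent.OmAll

theorem eprim_mul_re (k : ℤ) (V : G) : ((k : G) * V).re = k * V.re := by simp

theorem eprim_mul_im (k : ℤ) (V : G) : ((k : G) * V).im = k * V.im := by simp

/-- PROOF. Let `V` be primitive, `W` with `det V W = 1` (Bezout), so every `V' = c V + k W` with integers `c = - det W V'`-like coefficients (`det V V' = k`, `c = det V' W`). With `det V V' = n`: `V' = c V + n W`, so `V' = c V mod n`.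
If `c' V = V' mod n` with `c'` coprime to `n` then `c' = c mod n` (`V` primitive), so `c` is coprime to `n`, and `V'` is primitive: a common prime divisor `p` of the coordinates of `V'` divides `c = det V' W` and
`n = det V V'`. Conversely if `V'` is primitive then `c` is coprime to `n`: a prime `p` dividing both divides the coordinates of `c V + n W`. -/
theorem En_iff {n : ℕ} (hn : 0 < n) (e : G × G) :
    En n e ↔ det e.1 e.2 = n ∧ 0 < dot e.1 e.2 ∧ Prim e.1 ∧ Prim e.2 := by
  obtain ⟨V, V'⟩ := e
  unfold En cg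
  simp only [eprim_mul_re, eprim_mul_im]
  constructor
  · rintro ⟨h1, h2, h3, c, ⟨s, t, hst⟩, ⟨x, hx⟩, ⟨y, hy⟩⟩
    refine ⟨h1, h2, h3, ?_⟩
    have hn' : (n : ℤ) ≠ 0 := by exact_mod_cast hn.ne'
    have h4 : V.re * y - V.im * x = 1 := by
      have : (n : ℤ) * (V.re * y - V.im * x) = n * 1 := by
        unfold det at h1
        linear_combination h1 - V.re * hy + V.im * hx
      exact mul_left_cancel₀ hn' this
    refine ⟨s * y - t * V.im, -s * x + t * V.re, ?_⟩
    linear_combination (s * y - t * V.im) * hx + (-s * x + t * V.re) * hy + hst +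
      (s * c + t * n) * h4
  · rintro ⟨h1, h2, h3, h4⟩
    refine ⟨h1, h2, h3, ?_⟩
    obtain ⟨a, b, hab⟩ := h3
    obtain ⟨p, q, hpq⟩ := h4
    unfold det at h1
    refine ⟨V'.re * a + V'.im * b, ⟨p * V.re + q * V.im, -p * b + q * a, ?_⟩, ⟨-b, ?_⟩, ⟨a, ?_⟩⟩
    · rw [← h1]
      linear_combination hpq + (p * V'.re + q * V'.im) * hab
    · rw [← h1]
      linear_combination (-V'.re) * hab
    · rw [← h1]
      linear_combination (-V'.im) * hab

/-- parallel primitive vectors with positive scalar product are equal. PROOF. `V` primitive and `det V V' = 0` give `V' = c V` (`c = a V'.re + b V'.im` for `a V.re + b V.im = 1`), `V'` primitive gives `c = 1` or `-1`, `dot = c nm V > 0`. -/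
theorem eq_of_det_zero {V V' : G} (hV : Prim V) (hV' : Prim V') (h0 : det V V' = 0) (h1 : 0 < dot V V') : V' = V := by
  obtain ⟨a, b, hab⟩ := hV
  obtain ⟨p, q, hpq⟩ := hV'
  unfold det at h0
  unfold dot at h1
  obtain ⟨c, hc⟩ : ∃ c : ℤ, c = a * V'.re + b * V'.im := ⟨_, rfl⟩
  have h2 : V'.re = c * V.re := by
    rw [hc]
    linear_combination (-V'.re) * hab - b * h0
  have h3 : V'.im = c * V.im := by
    rw [hc]
    linear_combination (-V'.im) * hab + a * h0
  have h4 : c * (p * V.re + q * V.im) = 1 := by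
    linear_combination hpq - p * h2 - q * h3
  have h5 : 0 < c := by
    rw [h2, h3] at h1
    by_contra h6
    rw [not_lt] at h6
    have h7 : V.re * (c * V.re) + V.im * (c * V.im) = c * (V.re ^ 2 + V.im ^ 2) := by ring
    rw [h7] at h1
    have h8 : c * (V.re ^ 2 + V.im ^ 2) ≤ 0 := mul_nonpos_of_nonpos_of_nonneg h6 (by positivity)
    linarith
  have h6 : c = 1 := by
    rcases Int.eq_one_or_neg_one_of_mul_eq_one h4 with h | h
    · exact h
    · omega
  apply Zsqrtd.ext
  · rw [h2, h6, one_mul]
  · rw [h3, h6, one_mul]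

end Pool.Agent.OmEq
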