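import Pool.Agent.Lib_MP_f1a94e_eq.BDefs
import Pool.Agent.Lib_MP_f1a94e_eq.EPrim
import Pool.Agent.Lib_MP_f1a94e_eq.Cnt

/-!
# Piece CNTA: pairs with a small angle
-/

set_option autoImplicit false

namespace Pool.Agent.OmEq

open Finset Pool.Agent.GaussMR Pool.Agent.OmAll MeasureTheory Filter

/-- the facts about one pair -/
theorem cnta_pair {c0 C0 δ Y : ℝ} (hc0 : 0 < c0) (hY : 0 < Y) (hδ0 : 0 ≤ δ) (hδ1 : δ ≤ 1)
    {e : G × G} (h1 : (nm e.1 : ℝ) ≤ C0 * Y) (h2 : (nm e.2 : ℝ) ≤ C0 * Y)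
    (h3 : c0 * Y ≤ nm e.1) (h4 : c0 * Y ≤ nm e.2) (h5 : |ang e.1 e.2| ≤ δ) :
    0 < dot e.1 e.2 ∧ mE e ≤ C0 * Y ∧ |((det e.1 e.2 : ℤ) : ℝ)| ≤ C0 * Y * δ ∧
      |tE e| ≤ Real.log (C0 / c0) := by
  obtain ⟨V, V'⟩ := e
  simp only at h1 h2 h3 h4 h5 ⊢
  have hcY : 0 < c0 * Y := mul_pos hc0 hY
  have hn1 : (0 : ℝ) < nm V := lt_of_lt_of_le hcY h3
  have hn2 : (0 : ℝ) < nm V' := lt_of_lt_of_le hcY h4
  have hCY : 0 < C0 * Y := lt_of_lt_of_le hn1 h1
  obtain ⟨w, hw⟩ : ∃ w : ℂ, w = ((star V * V' : G) : ℂ) := ⟨_, rfl⟩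
  have hre : w.re = ((dot V V' : ℤ) : ℝ) := by
    rw [hw, star_mul_eq, ← GaussianInt.intCast_re]
  have him : w.im = ((det V V' : ℤ) : ℝ) := by
    rw [hw, star_mul_eq, ← GaussianInt.intCast_im]
  have hns : ‖w‖ ^ 2 = (nm V : ℝ) * nm V' := by
    rw [hw, norm_sq_eq, nm_mul, nm_star]
    push_cast
    rfl
  have hnle : ‖w‖ ≤ C0 * Y := by
    have : ‖w‖ ^ 2 ≤ (C0 * Y) ^ 2 := by
      rw [hns, sq]
      exact mul_le_mul h1 h2 hn2.le hCY.le
    exact le_of_sq_le_sq this hCY.le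
  have hnpos : 0 < ‖w‖ := by
    have h6 : 0 < ‖w‖ ^ 2 := by rw [hns]; positivity
    have h7 : ‖w‖ ≠ 0 := by
      intro h8
      rw [h8] at h6
      norm_num at h6
    exact lt_of_le_of_ne (norm_nonneg _) (Ne.symm h7)
  have hang : |Complex.arg w| ≤ δ := by
    rw [hw]
    exact h5
  have hcos : 0 < Real.cos (Complex.arg w) := by
    apply Real.cos_pos_of_mem_Ioo
    have := Real.pi_gt_three
    rw [abs_le] at hang
    constructor <;> linarith
  have hdot : 0 < ((dot V V' : ℤ) : ℝ) := by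
    rw [← hre, ← Complex.norm_mul_cos_arg]
    exact mul_pos hnpos hcos
  refine ⟨by exact_mod_cast hdot, ?_, ?_, ?_⟩
  · unfold mE
    simp only
    rw [← hre]
    exact (Complex.re_le_norm w).trans hnle
  · rw [← him, ← Complex.norm_mul_sin_arg, abs_mul, abs_norm]
    have h6 : |Real.sin (Complex.arg w)| ≤ δ := (Real.abs_sin_le_abs).trans hang
    exact mul_le_mul hnle h6 (abs_nonneg _) hCY.le
  · unfold tE
    simp only
    have hC0 : 0 < C0 := by
      by_contra h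
      rw [not_lt] at h
      have := mul_nonpos_of_nonpos_of_nonneg h hY.le
      linarith
    have e1 : Real.log (C0 / c0) = Real.log (C0 * Y) - Real.log (c0 * Y) := by
      rw [Real.log_mul hC0.ne' hY.ne', Real.log_mul hc0.ne' hY.ne', Real.log_div hC0.ne' hc0.ne']
      ring
    have a1 := Real.log_le_log hcY h3
    have a2 := Real.log_le_log hcY h4
    have a3 := Real.log_le_log hn1 h1
    have a4 := Real.log_le_log hn2 h2
    rw [e1, abs_le]
    constructor <;> linarith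

theorem cnta_swap {V V' : G} : mE (V', V) = mE (V, V') ∧ |tE (V', V)| = |tE (V, V')| := by
  constructor
  · unfold mE dot
    simp only
    congr 1
    ring
  · unfold tE
    simp only
    rw [abs_sub_comm]

open Classical in
/-- PROOF. `star V * V' = dot + i det` (`star_mul_eq`), so with `φ = ang V V'`: `dot = ρ cos φ`, `det = ρ sin φ`, `ρ = sqrt (nm V nm V') ≤ C0 Y`. For large `Y`, `|φ| ≤ B N / Y < π/2`, so `dot > 0`, `|det| ≤ C0 B N`. For `det = n > 0`: `(V, V') ∈ EN n (C0 Y)` (`En_iff`) with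
`|tE| ≤ log (C0/c0)`; for `det = - n < 0` the same for `(V', V)`; for `det = 0`, `V' = V` (`eq_of_det_zero`), at most `9 C0 Y` pairs (`ball_sub`). By `cnt` the total is `≤ 2 C0 B N * C C0 Y + 9 C0 Y` (`n ≤ C0 B N ≤ C0 Y`). -/
theorem cntA (c0 C0 B : ℝ) (hc0 : 0 < c0) (hC0 : c0 ≤ C0) (hB : 0 < B) : ∃ C : ℝ, 0 < C ∧ ∀ N : ℕ, 1 ≤ N →
    ∀ᶠ Y : ℝ in atTop, (((PV (C0 * Y) ×ˢ PV (C0 * Y)).filter (fun e : G × G => c0 * Y ≤ nm e.1 ∧ c0 * Y ≤ nm e.2 ∧
      |ang e.1 e.2| ≤ B * N / Y)).card : ℝ) ≤ C * N * Y := by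
  obtain ⟨C1, hC1, hcnt⟩ := cnt (Real.log (C0 / c0))
  have hC0' : 0 < C0 := lt_of_lt_of_le hc0 hC0
  refine ⟨2 * (C0 * B * (C1 * C0)) + 9 * C0, by positivity, fun N hN => ?_⟩
  have hN' : (1 : ℝ) ≤ N := by exact_mod_cast hN
  filter_upwards [eventually_ge_atTop (B * N + 1)] with Y hY
  have hBN : 0 < B * N := by positivity
  have hY0 : 0 < Y := by linarith
  have hδ1 : B * N / Y ≤ 1 := by
    rw [div_le_one hY0]
    linarith
  have hδ0 : 0 ≤ B * N / Y := by positivity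
  obtain ⟨S, hS1, hS2, hS3⟩ := TailP.ball_sub (C0 * Y) (by positivity)
  set M : ℕ := ⌊C0 * B * N⌋₊ with hM
  have hMle : (M : ℝ) ≤ C0 * B * N := Nat.floor_le (by positivity)
  set F : ℕ → Finset (G × G) := fun n => (EN n (C0 * Y)).filter (fun e => |tE e| ≤ Real.log (C0 / c0))
    with hF
  have hFc : ∀ n ∈ Icc 1 M, ((F n).card : ℝ) ≤ C1 * (C0 * Y) := by
    intro n hn
    rw [mem_Icc] at hn
    apply hcnt n (by omega)
    have h1 : (n : ℝ) ≤ M := by exact_mod_cast hn.2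
    have h2 : C0 * B * N ≤ C0 * Y := by
      rw [mul_assoc]
      exact mul_le_mul_of_nonneg_left (by linarith) hC0'.le
    linarith
  have hsub : (PV (C0 * Y) ×ˢ PV (C0 * Y)).filter (fun e : G × G => c0 * Y ≤ nm e.1 ∧
      c0 * Y ≤ nm e.2 ∧ |ang e.1 e.2| ≤ B * N / Y) ⊆
      ((Icc 1 M).biUnion F ∪ (Icc 1 M).biUnion (fun n => (F n).image Prod.swap)) ∪
        S.image (fun V => (V, V)) := by
    rintro ⟨V, V'⟩ he
    rw [mem_filter, mem_product, mem_PV, mem_PV] at he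
    obtain ⟨⟨⟨h1, hp1⟩, ⟨h2, hp2⟩⟩, h3, h4, h5⟩ := he
    simp only at h1 hp1 h2 hp2 h3 h4 h5
    obtain ⟨hd, hm, hdet, ht⟩ := cnta_pair (e := (V, V')) hc0 hY0 hδ0 hδ1 h1 h2 h3 h4 h5
    simp only at hd hdet
    have hdet' : |((det V V' : ℤ) : ℝ)| ≤ C0 * B * N := by
      refine hdet.trans (le_of_eq ?_)
      field_simp
    have hnat : ∀ k : ℤ, 0 < k → ((k : ℤ) : ℝ) ≤ C0 * B * N → k.toNat ∈ Icc 1 M := by
      intro k hk hk2
      rw [mem_Icc]
      refine ⟨by omega, ?_⟩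
      rw [hM]
      apply Nat.le_floor
      have : ((k.toNat : ℕ) : ℝ) = ((k : ℤ) : ℝ) := by
        have := Int.toNat_of_nonneg hk.le
        exact_mod_cast this
      rw [this]
      exact hk2
    rw [mem_union, mem_union]
    rcases lt_trichotomy (det V V') 0 with h | h | h
    · left; right
      rw [mem_biUnion]
      have hk : 0 < det V' V := by rw [det_comm]; omega
      refine ⟨(det V' V).toNat, hnat _ hk ?_, ?_⟩
      · rw [det_comm]
        push_cast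
        exact (neg_le_abs _).trans hdet'
      · rw [mem_image]
        refine ⟨(V', V), ?_, rfl⟩
        rw [hF, mem_filter, mem_EN (by omega), En_iff (by omega)]
        refine ⟨⟨⟨?_, ?_, hp2, hp1⟩, ?_⟩, ?_⟩
        · simp only
          rw [Int.toNat_of_nonneg hk.le]
        · have : dot V' V = dot V V' := by unfold dot; ring
          simp only
          rw [this]
          exact hd
        · rw [cnta_swap.1]
          exact hm
        · rw [cnta_swap.2]
          exact ht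
    · right
      rw [mem_image]
      have hVV := eq_of_det_zero hp1 hp2 h hd
      refine ⟨V, hS1 V ?_ h1, by rw [hVV]⟩
      intro h0
      rw [h0, nm_zero] at h3
      have : 0 < c0 * Y := mul_pos hc0 hY0
      push_cast at h3
      linarith
    · left; left
      rw [mem_biUnion]
      refine ⟨(det V V').toNat, hnat _ h ((le_abs_self _).trans hdet'), ?_⟩
      rw [hF, mem_filter, mem_EN (by omega), En_iff (by omega)]
      refine ⟨⟨⟨?_, hd, hp1, hp2⟩, hm⟩, ht⟩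
      simp only
      rw [Int.toNat_of_nonneg h.le]
  have hcard : (((PV (C0 * Y) ×ˢ PV (C0 * Y)).filter (fun e : G × G => c0 * Y ≤ nm e.1 ∧
      c0 * Y ≤ nm e.2 ∧ |ang e.1 e.2| ≤ B * N / Y)).card : ℝ) ≤
      ∑ n ∈ Icc 1 M, ((F n).card : ℝ) + ∑ n ∈ Icc 1 M, ((F n).card : ℝ) + S.card := by
    have h1 := (card_le_card hsub).trans ((card_union_le _ _).trans
      (Nat.add_le_add (card_union_le _ _) card_image_le))
    have h2 : ((Icc 1 M).biUnion F).card ≤ ∑ n ∈ Icc 1 M, (F n).card := card_biUnion_le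
    have h3 : ((Icc 1 M).biUnion (fun n => (F n).image Prod.swap)).card ≤
        ∑ n ∈ Icc 1 M, (F n).card :=
      card_biUnion_le.trans (sum_le_sum fun n _ => card_image_le)
    have h4 := h1.trans (Nat.add_le_add (Nat.add_le_add h2 h3) le_rfl)
    exact_mod_cast h4
  have hsum : ∑ n ∈ Icc 1 M, ((F n).card : ℝ) ≤ C0 * B * N * (C1 * (C0 * Y)) := by
    calc ∑ n ∈ Icc 1 M, ((F n).card : ℝ) ≤ ∑ _n ∈ Icc 1 M, C1 * (C0 * Y) := sum_le_sum hFc
      _ = M * (C1 * (C0 * Y)) := by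
          rw [sum_const, Nat.card_Icc, nsmul_eq_mul, Nat.add_sub_cancel]
      _ ≤ C0 * B * N * (C1 * (C0 * Y)) := mul_le_mul_of_nonneg_right hMle (by positivity)
  have h9 : 9 * (C0 * Y) ≤ 9 * C0 * N * Y := by
    have : 9 * C0 * Y * 1 ≤ 9 * C0 * Y * N := mul_le_mul_of_nonneg_left hN' (by positivity)
    linarith
  calc _ ≤ _ := hcard
    _ ≤ C0 * B * N * (C1 * (C0 * Y)) + C0 * B * N * (C1 * (C0 * Y)) + 9 * C0 * N * Y := by
        linarith
    _ = _ := by ring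

end Pool.Agent.OmEq
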