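import Pool.Agent.Lib_MP_f1a94e_eq.BDefs
import Pool.Agent.Lib_MP_f1a94e_eq.FzD
import Pool.Agent.Lib_MP_f1a94e_aq.LocalB

/-!
# Piece MRPO: from odd numbers to all primitive numbers, coprime to `R`
-/

set_option autoImplicit false

namespace Pool.Agent.OmEq

open Finset Pool.Agent.GaussMR Pool.Agent.OmAll MeasureTheory Filter

/-- representatives modulo `M` -/
noncomputable def mrpoR (M : ℕ) : Finset G :=
  (Finset.range M ×ˢ Finset.range M).image (fun p : ℕ × ℕ => (⟨(p.1 : ℤ), (p.2 : ℤ)⟩ : G))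

theorem mrpo_mem {M : ℕ} {z : G} (hz : z ∈ mrpoR M) : (0 ≤ z.re ∧ z.re < M) ∧ (0 ≤ z.im ∧ z.im < M) := by
  unfold mrpoR at hz
  rw [mem_image] at hz
  obtain ⟨p, hp, rfl⟩ := hz
  rw [mem_product, mem_range, mem_range] at hp
  refine ⟨⟨Int.natCast_nonneg _, ?_⟩, ⟨Int.natCast_nonneg _, ?_⟩⟩
  · show (p.1 : ℤ) < M
    exact_mod_cast hp.1
  · show (p.2 : ℤ) < M
    exact_mod_cast hp.2

theorem mrpo_rd {M : ℕ} (hM : 0 < M) (z : G) : rd M z ∈ mrpoR M := by
  have hM' : (0 : ℤ) < M := by exact_mod_cast hM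
  have a1 := Int.emod_nonneg z.re hM'.ne'
  have a2 := Int.emod_lt_of_pos z.re hM'
  have b1 := Int.emod_nonneg z.im hM'.ne'
  have b2 := Int.emod_lt_of_pos z.im hM'
  unfold mrpoR
  rw [mem_image]
  refine ⟨((z.re % M).toNat, (z.im % M).toNat), ?_, ?_⟩
  · rw [mem_product, mem_range, mem_range]
    dsimp only
    constructor <;> omega
  · dsimp only
    rw [Int.toNat_of_nonneg a1, Int.toNat_of_nonneg b1]
    rfl

theorem mrpo_card (M : ℕ) : (mrpoR M).card ≤ M * M := by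
  unfold mrpoR
  refine card_image_le.trans ?_
  rw [card_product, card_range]

open Classical in
/-- splitting a periodic condition into classes -/
theorem mrpo_split {M : ℕ} (hM : 0 < M) (S : Finset G) (P : G → Prop) [DecidablePred P]
    (hP : ∀ z w : G, cg M z w → P z → P w) (g : G → ℂ) :
    ∑ z ∈ S.filter P, g z = ∑ b ∈ (mrpoR M).filter P, ∑ z ∈ S.filter (fun z => cg M z b), g z := by
  rw [← sum_fiberwise_of_maps_to (s := S.filter P) (t := (mrpoR M).filter P) (g := rd M)]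
  · apply sum_congr rfl
    intro b hb
    rw [mem_filter] at hb
    apply sum_congr _ (fun _ _ => rfl)
    ext z
    simp only [mem_filter]
    constructor
    · rintro ⟨⟨h1, -⟩, h3⟩
      refine ⟨h1, ?_⟩
      rw [← h3]
      exact cg_symm (rd_cg M z)
    · rintro ⟨h1, h2⟩
      have h3 := mrpo_mem hb.1
      exact ⟨⟨h1, hP _ _ (cg_symm h2) hb.2⟩, rd_eq_of_cg h2 h3.1 h3.2⟩
  · intro z hz
    rw [mem_filter] at hz ⊢
    exact ⟨mrpo_rd hM z, hP _ _ (cg_symm (rd_cg M z)) hz.2⟩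

theorem mrpo_cop {R : ℕ} {z w : G} (h : cg R z w) (hz : (nm z).Coprime R) : (nm w).Coprime R := by
  have h1 := LocalBP.cg_nm h
  have h2 : nm w ≡ nm z [MOD R] := by
    rw [← Int.natCast_modEq_iff]
    exact Int.modEq_iff_dvd.2 h1
  unfold Nat.Coprime at *
  rw [h2.gcd_eq]
  exact hz

/-! ### arcs -/

theorem mrpo_arc_mul {u w : G} (hu : u ≠ 0) (hw : w ≠ 0) (θ δ : ℝ) :
    arcIn θ δ (u * w) ↔ arcIn (θ - Complex.arg (u : ℂ)) δ w := by
  have h1 : ((Complex.arg ((u * w : G) : ℂ) : ℝ) : Real.Angle) =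
      ((Complex.arg (u : ℂ) + Complex.arg (w : ℂ) : ℝ) : Real.Angle) := by
    rw [GaussianInt.toComplex_mul, Complex.arg_mul_coe_angle (toComplex_ne_zero hu) (toComplex_ne_zero hw)]
    rfl
  obtain ⟨j, hj⟩ := Real.Angle.angle_eq_iff_two_pi_dvd_sub.1 h1
  unfold arcIn
  constructor
  · rintro ⟨k, h2, h3⟩
    refine ⟨k + j, ?_, ?_⟩
    · push_cast
      linarith
    · push_cast
      linarith
  · rintro ⟨k, h2, h3⟩
    refine ⟨k - j, ?_, ?_⟩
    · push_cast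
      linarith
    · push_cast
      linarith

theorem mrpo_arc_per (θ δ : ℝ) (z : G) : arcIn (θ + 2 * Real.pi) δ z ↔ arcIn θ δ z := by
  unfold arcIn
  constructor
  · rintro ⟨k, h2, h3⟩
    refine ⟨k - 1, ?_, ?_⟩
    · push_cast
      linarith
    · push_cast
      linarith
  · rintro ⟨k, h2, h3⟩
    refine ⟨k + 1, ?_, ?_⟩
    · push_cast
      linarith
    · push_cast
      linarith

theorem mrpo_arc_meas (δ : ℝ) (z : G) : MeasurableSet {θ : ℝ | arcIn θ δ z} := by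
  have h : {θ : ℝ | arcIn θ δ z} = ⋃ k : ℤ, Set.Ioc (Complex.arg (z : ℂ) + 2 * Real.pi * k - δ)
      (Complex.arg (z : ℂ) + 2 * Real.pi * k) := by
    ext θ
    rw [Set.mem_iUnion]
    constructor
    · rintro ⟨k, h2, h3⟩
      exact ⟨k, by linarith, h2⟩
    · rintro ⟨k, h2, h3⟩
      exact ⟨k, h3, by linarith⟩
  rw [h]
  exact MeasurableSet.iUnion (fun k => measurableSet_Ioc)

open Classical in
theorem mrpo_So_eq (f : ℕ → ℂ) (D : ℕ) (b : G) (X δ θ : ℝ) :
    So f D b X δ θ = ∑ z ∈ (V X).filter (fun z => cg D z b), if arcIn θ δ z then f (nm z) else 0 := by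
  unfold So
  rw [← sum_filter, filter_filter]

theorem mrpo_So_meas (f : ℕ → ℂ) (D : ℕ) (b : G) (X δ : ℝ) : Measurable (So f D b X δ) := by
  classical
  have h : So f D b X δ = fun θ => ∑ z ∈ (V X).filter (fun z => cg D z b),
      if arcIn θ δ z then f (nm z) else 0 := by
    funext θ
    rw [mrpo_So_eq]
  rw [h]
  apply Finset.measurable_sum
  intro z _
  exact Measurable.ite (mrpo_arc_meas δ z) measurable_const measurable_const

theorem mrpo_So_bd (f : ℕ → ℂ) (D : ℕ) (b : G) (X δ θ : ℝ) : ‖So f D b X δ θ‖ ≤ ∑ z ∈ V X, ‖f (nm z)‖ := by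
  classical
  rw [mrpo_So_eq]
  refine (norm_sum_le _ _).trans ?_
  refine (sum_le_sum (g := fun z => ‖f (nm z)‖) ?_).trans
    (sum_le_sum_of_subset_of_nonneg (filter_subset _ _) (fun _ _ _ => norm_nonneg _))
  intro z _
  split_ifs
  · exact le_rfl
  · rw [norm_zero]
    exact norm_nonneg _

theorem mrpo_So_int (f : ℕ → ℂ) (D : ℕ) (b : G) (X δ s a c : ℝ) :
    IntervalIntegrable (fun θ => ‖So f D b X δ (θ - s)‖ ^ 2) volume a c := by
  have h1 : Measurable (fun θ => ‖So f D b X δ (θ - s)‖ ^ 2) :=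
    (((mrpo_So_meas f D b X δ).comp (measurable_id.sub_const s)).norm).pow_const 2
  refine (intervalIntegrable_const (c := (∑ z ∈ V X, ‖f (nm z)‖) ^ 2)).mono_fun h1.aestronglyMeasurable ?_
  refine Eventually.of_forall (fun θ => ?_)
  dsimp only
  rw [Real.norm_of_nonneg (by positivity), Real.norm_of_nonneg (by positivity)]
  exact pow_le_pow_left₀ (norm_nonneg _) (mrpo_So_bd f D b X δ _) 2

theorem mrpo_So_per (f : ℕ → ℂ) (D : ℕ) (b : G) (X δ θ : ℝ) :
    So f D b X δ (θ + 2 * Real.pi) = So f D b X δ θ := by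
  classical
  rw [mrpo_So_eq, mrpo_So_eq]
  apply sum_congr rfl
  intro z _
  simp only [mrpo_arc_per]

theorem mrpo_shift (f : ℕ → ℂ) (D : ℕ) (b : G) (X δ s : ℝ) :
    ∫ θ in (0 : ℝ)..(2 * Real.pi), ‖So f D b X δ (θ - s)‖ ^ 2 =
      ∫ θ in (0 : ℝ)..(2 * Real.pi), ‖So f D b X δ θ‖ ^ 2 := by
  have hp : Function.Periodic (fun θ => ‖So f D b X δ θ‖ ^ 2) (2 * Real.pi) := by
    intro θ
    dsimp only
    rw [mrpo_So_per]
  rw [intervalIntegral.integral_comp_sub_right (fun θ => ‖So f D b X δ θ‖ ^ 2) s]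
  have h := hp.intervalIntegral_add_eq (0 - s) 0
  rw [show (0 : ℝ) - s + 2 * Real.pi = 2 * Real.pi - s by ring, zero_add] at h
  exact h

/-! ### even primitive numbers -/

/-- `1 + i` -/
def mrpoU : G := ⟨1, 1⟩

/-- division by `1 + i` -/
def mrpoH (z : G) : G := ⟨(z.re + z.im) / 2, (z.im - z.re) / 2⟩

theorem mrpo_mul (w : G) : mrpoU * w = ⟨w.re - w.im, w.re + w.im⟩ := by
  unfold mrpoU
  apply Zsqrtd.ext
  · simp
    ring
  · simp
    ring

theorem mrpo_U_ne : mrpoU ≠ 0 := by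
  intro h
  have h1 := congrArg Zsqrtd.re h
  exact absurd h1 (by decide)

theorem mrpo_nmU : nm mrpoU = 2 := by
  have h : (nm mrpoU : ℤ) = 2 := by
    rw [nm_eq]
    rfl
  exact_mod_cast h

theorem mrpo_nm (w : G) : nm (mrpoU * w) = 2 * nm w := by
  rw [nm_mul, mrpo_nmU]

theorem mrpo_H_mul (w : G) : mrpoH (mrpoU * w) = w := by
  rw [mrpo_mul]
  unfold mrpoH
  apply Zsqrtd.ext
  · show (w.re - w.im + (w.re + w.im)) / 2 = w.re
    omega
  · show (w.re + w.im - (w.re - w.im)) / 2 = w.im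
    omega

theorem mrpo_mul_H {z : G} (hz : Even (z.re + z.im)) : mrpoU * mrpoH z = z := by
  obtain ⟨k, hk⟩ := hz
  rw [mrpo_mul]
  unfold mrpoH
  apply Zsqrtd.ext
  · show (z.re + z.im) / 2 - (z.im - z.re) / 2 = z.re
    omega
  · show (z.re + z.im) / 2 + (z.im - z.re) / 2 = z.im
    omega

theorem mrpo_prim_mul {w : G} (hw : Prim w) (ho : Odd (nm w)) : Prim (mrpoU * w) := by
  rw [odd_nm_iff] at ho
  rw [mrpo_mul]
  unfold Prim at *
  show IsCoprime (w.re - w.im) (w.re + w.im)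
  obtain ⟨a, b, hab⟩ := hw
  obtain ⟨k, hk⟩ := ho
  -- 1 = (re+im) - 2 k, 2 = (a - b)(re - im) + (a + b) (re + im)
  refine ⟨-k * (a - b), 1 - k * (a + b), ?_⟩
  linear_combination hk - 2 * k * hab

theorem mrpo_prim_H {z : G} (hz : Prim z) (he : Even (z.re + z.im)) : Prim (mrpoH z) ∧ Odd (nm (mrpoH z)) := by
  have h1 := mrpo_mul_H he
  set w := mrpoH z with hw
  rw [mrpo_mul] at h1
  have hre : w.re - w.im = z.re := congrArg Zsqrtd.re h1
  have him : w.re + w.im = z.im := congrArg Zsqrtd.im h1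
  unfold Prim at hz ⊢
  obtain ⟨a, b, hab⟩ := hz
  refine ⟨⟨a + b, b - a, ?_⟩, ?_⟩
  · rw [← hre, ← him] at hab
    linear_combination hab
  · rw [odd_nm_iff, him]
    by_contra hc
    rw [Int.not_odd_iff_even] at hc
    have hr : Even z.re := by
      have := he.sub hc
      rwa [add_sub_cancel_right] at this
    have h3 : Even (1 : ℤ) := by
      rw [← hab]
      exact (hr.mul_left a).add (hc.mul_left b)
    exact absurd h3 (by decide)

open Classical in
theorem mrpo_even (g : G → ℂ) (P : G → Prop) [DecidablePred P] [DecidablePred fun z : G => ¬ Odd (nm z)] (X : ℝ) :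
    ∑ z ∈ ((PV X).filter P).filter (fun z => ¬ Odd (nm z)), g z =
      ∑ w ∈ (V (X / 2)).filter (fun w => P (mrpoU * w)), g (mrpoU * w) := by
  have hev : ∀ z : G, ¬ Odd (nm z) → Even (z.re + z.im) := by
    intro z hz
    rw [odd_nm_iff, Int.not_odd_iff_even] at hz
    exact hz
  refine sum_nbij' mrpoH (fun w => mrpoU * w) ?_ ?_ ?_ ?_ ?_
  · intro z hz
    simp only [mem_filter] at hz ⊢
    obtain ⟨⟨h1, h2⟩, h3⟩ := hz
    rw [mem_PV] at h1
    have h4 := mrpo_mul_H (hev z h3)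
    have h5 := mrpo_prim_H h1.2 (hev z h3)
    rw [mem_V, h4]
    refine ⟨⟨?_, h5.2, h5.1⟩, h2⟩
    have h6 := mrpo_nm (mrpoH z)
    rw [h4] at h6
    have h7 : (nm z : ℝ) = 2 * nm (mrpoH z) := by exact_mod_cast h6
    linarith [h1.1]
  · intro w hw
    simp only [mem_filter] at hw ⊢
    obtain ⟨h1, h2⟩ := hw
    rw [mem_V] at h1
    refine ⟨⟨?_, h2⟩, ?_⟩
    · rw [mem_PV, mrpo_nm]
      refine ⟨?_, mrpo_prim_mul h1.2.2 h1.2.1⟩
      push_cast
      linarith [h1.1]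
    · rw [mrpo_nm, Nat.not_odd_iff_even]
      exact even_two_mul _
  · intro z hz
    simp only [mem_filter] at hz
    exact mrpo_mul_H (hev z hz.2)
  · intro w _
    exact mrpo_H_mul w
  · intro z hz
    simp only [mem_filter] at hz
    rw [mrpo_mul_H (hev z hz.2)]

theorem mrpo_fz (R : ℕ) {n : ℕ} (hn : n ≠ 0) (hc : n.Coprime R) :
    fz R (-1) n = (-1 : ℂ) ^ ArithmeticFunction.cardFactors n := by
  unfold fz
  rw [if_neg]
  rintro (h | h)
  · exact hn h
  · exact h hc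

theorem mrpo_fz0 (R : ℕ) {n : ℕ} (hc : ¬ n.Coprime R) : fz R (-1) n = 0 := by
  unfold fz
  rw [if_pos (Or.inr hc)]

open Classical in
/-- sums of `fz` over odd primitive numbers with a periodic condition, in classes -/
theorem mrpo_cls {M R : ℕ} (hM : 0 < M) (hR : R ∣ M) (Q : G → Prop) (hQ : ∀ z w : G, cg M z w → Q z → Q w)
    (X δ θ : ℝ) :
    ∑ z ∈ (V X).filter (fun z => Q z ∧ arcIn θ δ z), fz R (-1) (nm z) =
      ∑ b ∈ (mrpoR M).filter (fun z => Q z ∧ (nm z).Coprime R),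
        So (fun n => (-1 : ℂ) ^ ArithmeticFunction.cardFactors n) M b X δ θ := by
  have h1 : ∑ z ∈ (V X).filter (fun z => Q z ∧ arcIn θ δ z), fz R (-1) (nm z) =
      ∑ z ∈ ((V X).filter (fun z => arcIn θ δ z)).filter (fun z => Q z ∧ (nm z).Coprime R),
        (-1 : ℂ) ^ ArithmeticFunction.cardFactors (nm z) := by
    rw [filter_filter, sum_filter, sum_filter]
    apply sum_congr rfl
    intro z hz
    rw [mem_V] at hz
    by_cases ha : arcIn θ δ z
    · by_cases hq : Q z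
      · by_cases hc : (nm z).Coprime R
        · rw [if_pos ⟨hq, ha⟩, if_pos ⟨ha, hq, hc⟩, mrpo_fz R (nm_pos_of_odd hz.2.1).ne' hc]
        · rw [if_pos ⟨hq, ha⟩, if_neg (fun h => hc h.2.2), mrpo_fz0 R hc]
      · rw [if_neg (fun h => hq h.1), if_neg (fun h => hq h.2.1)]
    · rw [if_neg (fun h => ha h.2), if_neg (fun h => ha h.1)]
  rw [h1, mrpo_split hM _ (fun z => Q z ∧ (nm z).Coprime R)
    (fun z w h h2 => ⟨hQ z w h h2.1, mrpo_cop (cg_mono hR h) h2.2⟩)]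
  apply sum_congr rfl
  intro b _
  unfold So
  apply sum_congr _ (fun _ _ => rfl)
  ext z
  simp only [mem_filter]
  constructor
  · rintro ⟨⟨h2, h3⟩, h4⟩
    exact ⟨h2, h4, h3⟩
  · rintro ⟨h2, h3, h4⟩
    exact ⟨⟨h2, h4⟩, h3⟩

open Classical in
theorem mrpo_dec {D R : ℕ} (hD : 0 < D) (hR : 0 < R) (b : G) (X δ θ : ℝ) :
    Sp (fz R (-1)) D b X δ θ =
      (∑ b1 ∈ (mrpoR (D * R)).filter (fun z => cg D z b ∧ (nm z).Coprime R),
        So (fun n => (-1 : ℂ) ^ ArithmeticFunction.cardFactors n) (D * R) b1 X δ θ) +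
      fz R (-1) 2 * ∑ b1 ∈ (mrpoR (D * R)).filter (fun z => cg D (mrpoU * z) b ∧ (nm z).Coprime R),
        So (fun n => (-1 : ℂ) ^ ArithmeticFunction.cardFactors n) (D * R) b1 (X / 2) δ
          (θ - Complex.arg (mrpoU : ℂ)) := by
  have hM : 0 < D * R := Nat.mul_pos hD hR
  rw [← mrpo_cls hM (dvd_mul_left R D) (fun z => cg D z b)
    (fun z w h h2 => cg_trans (cg_symm (cg_mono (dvd_mul_right D R) h)) h2),
    ← mrpo_cls hM (dvd_mul_left R D) (fun z => cg D (mrpoU * z) b) ?_]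
  · unfold Sp
    rw [← sum_filter_add_sum_filter_not _ (fun z => Odd (nm z)), mrpo_even]
    congr 1
    · apply sum_congr _ (fun _ _ => rfl)
      ext z
      simp only [mem_filter, mem_PV, mem_V]
      constructor
      · rintro ⟨⟨⟨h1, h2⟩, h3⟩, h4⟩
        exact ⟨⟨h1, h4, h2⟩, h3⟩
      · rintro ⟨⟨h1, h4, h2⟩, h3⟩
        exact ⟨⟨⟨h1, h2⟩, h3⟩, h4⟩
    · rw [mul_sum]
      have hz : ‖(-1 : ℂ)‖ = 1 := by simp
      have hset : (V (X / 2)).filter (fun w => cg D (mrpoU * w) b ∧ arcIn θ δ (mrpoU * w)) =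
          (V (X / 2)).filter (fun w => cg D (mrpoU * w) b ∧ arcIn (θ - Complex.arg (mrpoU : ℂ)) δ w) := by
        apply filter_congr
        intro w hw
        rw [mem_V] at hw
        rw [mrpo_arc_mul mrpo_U_ne (ne_zero_of_odd hw.2.1)]
      rw [hset]
      apply sum_congr rfl
      intro w _
      rw [mrpo_nm, (fz_FF R hR (-1) hz).mul]
  · intro z w h h2
    refine cg_trans ?_ h2
    have h3 := cg_mono (dvd_mul_right D R) h
    obtain ⟨⟨x, hx⟩, ⟨y, hy⟩⟩ := h3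
    rw [mrpo_mul, mrpo_mul]
    refine ⟨⟨y - x, ?_⟩, ⟨-x - y, ?_⟩⟩
    · show w.re - w.im - (z.re - z.im) = _
      linear_combination hy - hx
    · show w.re + w.im - (z.re + z.im) = _
      linear_combination - hy - hx

/-- PROOF. `f = fz R (-1)`, `L n = (-1)^Ω(n)`. A primitive `z` is odd or `z = (1 + i) w` with `w` odd primitive, `nm z = 2 nm w` (`(1+i)^2 = 2 i` and `z` is not divisible by 2), and `(1+i) w` is primitive for `w` odd primitive. `arg ((1+i) w) = arg w + π/4` modulo `2π`. So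
`Sp f D b X δ θ = ∑_(b1) So L (D R) b1 X δ θ + c ∑_(b2) So L (D R) b2 (X/2) δ (θ - π/4)`, `b1` over the representatives modulo `D R` with `b1 = b mod D` and `(nm b1, R) = 1`, `b2` over those with `(1+i) b2 = b mod D` and `(nm b2, R) = 1`, `c = f 2` (`f (2 m) = f 2 * f m`; `‖c‖ ≤ 1`): `cg`, `nm` are
compatible with congruences, `f (nm z) = L (nm z)` if `(nm z, R) = 1` and `0` otherwise. With `m = 2 (D R)^2` terms, `‖∑‖^2 ≤ m ∑ ‖.‖^2`, the integral over a period of the shifted function is the same (`So` is `2π`-periodic in `θ`), and `H / X = (H/2) / (X/2)`: apply `hL` with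
`ε' = ε / m^2` to all classes, `H0` twice the maximum. -/
theorem mrp_of_mro (hL : MRO (fun n => (-1 : ℂ) ^ ArithmeticFunction.cardFactors n)) (R : ℕ) (hR : 0 < R) :
    MRP (fz R (-1)) := by
  classical
  intro D hD b ε hε
  set L : ℕ → ℂ := fun n => (-1 : ℂ) ^ ArithmeticFunction.cardFactors n with hLd
  set M : ℕ := D * R with hMd
  have hM : 0 < M := Nat.mul_pos hD hR
  have hM' : (0 : ℝ) < M := by exact_mod_cast hM
  set K : ℝ := (M : ℝ) * M with hK
  have hK0 : 0 < K := by positivity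
  set ε' : ℝ := ε / (4 * K ^ 2) with hε'
  have hε'0 : 0 < ε' := by positivity
  have key : ∀ᶠ H : ℝ in atTop, ∀ b1 ∈ mrpoR M, ∀ᶠ X : ℝ in atTop,
      ∫ θ in (0 : ℝ)..(2 * Real.pi), ‖So L M b1 X (H / X) θ‖ ^ 2 ≤ ε' * H ^ 2 := by
    rw [eventually_all_finset]
    intro b1 _
    obtain ⟨H0, -, h⟩ := hL M hM b1 ε' hε'0
    filter_upwards [eventually_ge_atTop H0] with H hH
    obtain ⟨X0, hX0⟩ := h H hH
    filter_upwards [eventually_ge_atTop X0] with X hX
    exact hX0 X hX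
  have key2 : ∀ᶠ H : ℝ in atTop, ∀ b1 ∈ mrpoR M, ∀ᶠ X : ℝ in atTop,
      ∫ θ in (0 : ℝ)..(2 * Real.pi), ‖So L M b1 X (H / 2 / X) θ‖ ^ 2 ≤ ε' * (H / 2) ^ 2 :=
    (tendsto_id.atTop_div_const two_pos).eventually key
  obtain ⟨H0, hH0⟩ := eventually_atTop.1 (key.and key2)
  refine ⟨max H0 1, lt_max_of_lt_right one_pos, fun H hH => ?_⟩
  obtain ⟨k1, k2⟩ := hH0 H ((le_max_left _ _).trans hH)
  have k1' := (eventually_all_finset _).2 k1
  have k2' := (tendsto_id.atTop_div_const (two_pos (α := ℝ))).eventually ((eventually_all_finset _).2 k2)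
  obtain ⟨X0, hX0⟩ := eventually_atTop.1 ((k1'.and k2').and (eventually_gt_atTop 0))
  refine ⟨X0, fun X hX => ?_⟩
  obtain ⟨⟨q1, q2⟩, hX1⟩ := hX0 X hX
  have hHX : H / 2 / (X / 2) = H / X := by
    field_simp
  simp only [id_eq, hHX] at q2
  set δ := H / X with hδ
  set s := Complex.arg (mrpoU : ℂ) with hs
  set T1 := (mrpoR M).filter (fun z => cg D z b ∧ (nm z).Coprime R) with hT1
  set T2 := (mrpoR M).filter (fun z => cg D (mrpoU * z) b ∧ (nm z).Coprime R) with hT2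
  have hc2 : ‖fz R (-1) 2‖ ≤ 1 := (fz_FF R hR (-1) (by simp)).bd 2
  have hcard1 : (T1.card : ℝ) ≤ K := by
    have h1 : T1.card ≤ M * M := (card_le_card (filter_subset _ _)).trans (mrpo_card M)
    rw [hK]
    exact_mod_cast h1
  have hcard2 : (T2.card : ℝ) ≤ K := by
    have h1 : T2.card ≤ M * M := (card_le_card (filter_subset _ _)).trans (mrpo_card M)
    rw [hK]
    exact_mod_cast h1
  -- pointwise bound
  have hpt : ∀ θ : ℝ, ‖Sp (fz R (-1)) D b X δ θ‖ ^ 2 ≤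
      2 * K * (∑ b1 ∈ T1, ‖So L M b1 X δ θ‖ ^ 2 + ∑ b1 ∈ T2, ‖So L M b1 (X / 2) δ (θ - s)‖ ^ 2) := by
    intro θ
    have e1 : ‖Sp (fz R (-1)) D b X δ θ‖ ≤
        (∑ b1 ∈ T1, ‖So L M b1 X δ θ‖) + ∑ b1 ∈ T2, ‖So L M b1 (X / 2) δ (θ - s)‖ := by
      rw [mrpo_dec hD hR]
      refine (norm_add_le _ _).trans (add_le_add (norm_sum_le _ _) ?_)
      rw [norm_mul]
      refine (mul_le_of_le_one_left (norm_nonneg _) hc2).trans (norm_sum_le _ _)
    have e2 : (∑ b1 ∈ T1, ‖So L M b1 X δ θ‖) ^ 2 ≤ K * ∑ b1 ∈ T1, ‖So L M b1 X δ θ‖ ^ 2 :=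
      (sq_sum_le_card_mul_sum_sq).trans (mul_le_mul_of_nonneg_right hcard1 (sum_nonneg fun _ _ => by positivity))
    have e3 : (∑ b1 ∈ T2, ‖So L M b1 (X / 2) δ (θ - s)‖) ^ 2 ≤
        K * ∑ b1 ∈ T2, ‖So L M b1 (X / 2) δ (θ - s)‖ ^ 2 :=
      (sq_sum_le_card_mul_sum_sq).trans (mul_le_mul_of_nonneg_right hcard2 (sum_nonneg fun _ _ => by positivity))
    have e4 := pow_le_pow_left₀ (norm_nonneg _) e1 2
    nlinarith [sq_nonneg ((∑ b1 ∈ T1, ‖So L M b1 X δ θ‖) - ∑ b1 ∈ T2, ‖So L M b1 (X / 2) δ (θ - s)‖)]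
  have hi1 : ∀ b1 ∈ T1, IntervalIntegrable (fun θ => ‖So L M b1 X δ θ‖ ^ 2) volume 0 (2 * Real.pi) := by
    intro b1 _
    have h := mrpo_So_int L M b1 X δ 0 0 (2 * Real.pi)
    simpa only [sub_zero] using h
  have hi2 : ∀ b1 ∈ T2, IntervalIntegrable (fun θ => ‖So L M b1 (X / 2) δ (θ - s)‖ ^ 2) volume 0 (2 * Real.pi) :=
    fun b1 _ => mrpo_So_int L M b1 (X / 2) δ s 0 (2 * Real.pi)
  have hI1 : IntervalIntegrable (fun θ => ∑ b1 ∈ T1, ‖So L M b1 X δ θ‖ ^ 2) volume 0 (2 * Real.pi) := by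
    have := IntervalIntegrable.sum T1 hi1
    have e : (∑ i ∈ T1, fun θ => ‖So L M i X δ θ‖ ^ 2) = fun θ => ∑ b1 ∈ T1, ‖So L M b1 X δ θ‖ ^ 2 := by
      funext θ
      rw [Finset.sum_apply]
    rw [e] at this
    exact this
  have hI2 : IntervalIntegrable (fun θ => ∑ b1 ∈ T2, ‖So L M b1 (X / 2) δ (θ - s)‖ ^ 2) volume 0 (2 * Real.pi) := by
    have := IntervalIntegrable.sum T2 hi2
    have e : (∑ i ∈ T2, fun θ => ‖So L M i (X / 2) δ (θ - s)‖ ^ 2) =
        fun θ => ∑ b1 ∈ T2, ‖So L M b1 (X / 2) δ (θ - s)‖ ^ 2 := by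
      funext θ
      rw [Finset.sum_apply]
    rw [e] at this
    exact this
  have hR1 : IntervalIntegrable (fun θ => 2 * K * (∑ b1 ∈ T1, ‖So L M b1 X δ θ‖ ^ 2 +
      ∑ b1 ∈ T2, ‖So L M b1 (X / 2) δ (θ - s)‖ ^ 2)) volume 0 (2 * Real.pi) := (hI1.add hI2).const_mul _
  have hpi : (0 : ℝ) ≤ 2 * Real.pi := by positivity
  have hmeas : Measurable (fun θ => ‖Sp (fz R (-1)) D b X δ θ‖ ^ 2) := by
    have h : (fun θ => ‖Sp (fz R (-1)) D b X δ θ‖ ^ 2) = fun θ => ‖(∑ b1 ∈ T1, So L M b1 X δ θ) +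
      fz R (-1) 2 * ∑ b1 ∈ T2, So L M b1 (X / 2) δ (θ - s)‖ ^ 2 := by
      funext θ
      rw [mrpo_dec hD hR]
    rw [h]
    refine Measurable.pow_const (Measurable.norm ?_) 2
    refine Measurable.add (Finset.measurable_sum _ fun b1 _ => mrpo_So_meas L M b1 X δ) ?_
    refine Measurable.const_mul (Finset.measurable_sum _ fun b1 _ => ?_) _
    exact (mrpo_So_meas L M b1 (X / 2) δ).comp (measurable_id.sub_const s)
  have hint : IntervalIntegrable (fun θ => ‖Sp (fz R (-1)) D b X δ θ‖ ^ 2) volume 0 (2 * Real.pi) := by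
    refine hR1.mono_fun hmeas.aestronglyMeasurable (Eventually.of_forall fun θ => ?_)
    dsimp only
    rw [Real.norm_of_nonneg (by positivity)]
    exact (hpt θ).trans (le_abs_self _)
  have hmono := intervalIntegral.integral_mono_on hpi hint hR1 (fun θ _ => hpt θ)
  refine hmono.trans ?_
  rw [intervalIntegral.integral_const_mul, intervalIntegral.integral_add hI1 hI2,
    intervalIntegral.integral_finsetSum hi1, intervalIntegral.integral_finsetSum hi2]
  have b1 : ∑ b1 ∈ T1, ∫ θ in (0 : ℝ)..(2 * Real.pi), ‖So L M b1 X δ θ‖ ^ 2 ≤ K * (ε' * H ^ 2) := by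
    refine (sum_le_card_nsmul _ _ (ε' * H ^ 2) (fun b1 hb1 => q1 b1 (mem_filter.1 hb1).1)).trans ?_
    rw [nsmul_eq_mul]
    exact mul_le_mul_of_nonneg_right hcard1 (by positivity)
  have b2 : ∑ b1 ∈ T2, ∫ θ in (0 : ℝ)..(2 * Real.pi), ‖So L M b1 (X / 2) δ (θ - s)‖ ^ 2 ≤
      K * (ε' * (H / 2) ^ 2) := by
    refine (sum_le_card_nsmul _ _ (ε' * (H / 2) ^ 2) (fun b1 hb1 => ?_)).trans ?_
    · rw [mrpo_shift]
      exact q2 b1 (mem_filter.1 hb1).1
    · rw [nsmul_eq_mul]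
      exact mul_le_mul_of_nonneg_right hcard2 (by positivity)
  have hfin : 2 * K * (K * (ε' * H ^ 2) + K * (ε' * (H / 2) ^ 2)) ≤ ε * H ^ 2 := by
    have e1 : 4 * K ^ 2 * ε' = ε := by
      rw [hε']
      field_simp
    have e2 : 2 * K * (K * (ε' * H ^ 2) + K * (ε' * (H / 2) ^ 2)) = (4 * K ^ 2 * ε') * H ^ 2 * (5 / 8) := by ring
    rw [e2, e1]
    have e3 : 0 ≤ ε * H ^ 2 := by positivity
    linarith
  refine le_trans ?_ hfin
  have hK2 : 0 ≤ 2 * K := by positivity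
  exact mul_le_mul_of_nonneg_left (add_le_add b1 b2) hK2

end Pool.Agent.OmEq
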