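import Pool.Agent.Lib_MP_f1a94e_eq.ArcI
import Pool.Agent.Lib_MP_f1a94e_eq.CntA
import Pool.Agent.Lib_MP_f1a94e_eq.AppG
import Pool.Agent.Lib_MP_f1a94e_eq.MrpO

/-!
# Piece ARCPAIR: pairs of primitive vectors at a small angle
-/

set_option autoImplicit false

namespace Pool.Agent.OmEq

open Finset Pool.Agent.GaussMR Pool.Agent.OmAll MeasureTheory Filter

open Classical in
theorem arcpair_split {D : ℕ} (hD : 0 < D) (S : Finset G) (g : G → ℂ) :
    ∑ z ∈ S, g z = ∑ b ∈ mrpoR D, ∑ z ∈ S.filter (fun z => cg D z b), g z := by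
  have h := mrpo_split hD S (fun _ => True) (fun _ _ _ h => h) g
  simpa only [filter_true] using h

open Classical in
theorem arcpair_split2 {D : ℕ} (hD : 0 < D) (S : Finset G) (κ : G → G → ℂ)
    (hper : ∀ V V' U U', cg D V U → cg D V' U' → κ V V' = κ U U') (a : G → G → ℂ) :
    ∑ V ∈ S, ∑ V' ∈ S, κ V V' * a V V' = ∑ b ∈ mrpoR D, ∑ b' ∈ mrpoR D, κ b b' *
      ∑ V ∈ S.filter (fun z => cg D z b), ∑ V' ∈ S.filter (fun z => cg D z b'), a V V' := by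
  rw [arcpair_split hD]
  apply sum_congr rfl
  intro b _
  have h1 : ∀ V ∈ S.filter (fun z => cg D z b), ∑ V' ∈ S, κ V V' * a V V' =
      ∑ b' ∈ mrpoR D, κ b b' * ∑ V' ∈ S.filter (fun z => cg D z b'), a V V' := by
    intro V hV
    rw [mem_filter] at hV
    rw [arcpair_split hD]
    apply sum_congr rfl
    intro b' _
    rw [mul_sum]
    apply sum_congr rfl
    intro V' hV'
    rw [mem_filter] at hV'
    rw [hper V V' b b' hV.2 hV'.2]
  rw [sum_congr rfl h1, sum_comm]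
  apply sum_congr rfl
  intro b' _
  rw [mul_sum]

open Classical in
theorem arcpair_cell {C0 Y : ℝ} (hC0 : 0 < C0) (hY : 0 < Y) {I i : ℕ} (hi : i < I) (Q : G → Prop) (g : G → ℂ) :
    ∑ z ∈ (PV (C0 * Y)).filter Q, g z * ((cell C0 I i (nm z / Y) : ℝ) : ℂ) =
      ∑ z ∈ (PV (C0 * Y * ((i + 1 : ℕ) : ℝ) / I)).filter Q, g z - ∑ z ∈ (PV (C0 * Y * ((i : ℕ) : ℝ) / I)).filter Q, g z := by
  have hI : (0 : ℝ) < I := by exact_mod_cast (Nat.zero_le i).trans_lt hi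
  have hX : ∀ k : ℕ, k ≤ I → (PV (C0 * Y * (k : ℝ) / I)).filter Q =
      ((PV (C0 * Y)).filter Q).filter (fun z => (nm z : ℝ) ≤ C0 * Y * (k : ℝ) / I) := by
    intro k hk
    have hk' : (k : ℝ) ≤ I := by exact_mod_cast hk
    have h1 : C0 * Y * (k : ℝ) / I ≤ C0 * Y := by
      rw [div_le_iff₀ hI]
      exact mul_le_mul_of_nonneg_left hk' (by positivity)
    ext z
    simp only [mem_filter, mem_PV]
    constructor
    · rintro ⟨⟨h2, h3⟩, h4⟩
      exact ⟨⟨⟨h2.trans h1, h3⟩, h4⟩, h2⟩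
    · rintro ⟨⟨⟨h2, h3⟩, h4⟩, h5⟩
      exact ⟨⟨h5, h3⟩, h4⟩
  rw [hX (i + 1) hi, hX i hi.le, sum_filter (s := (PV (C0 * Y)).filter Q),
    sum_filter (s := (PV (C0 * Y)).filter Q), ← sum_sub_distrib]
  apply sum_congr rfl
  intro z _
  have e1 : C0 * i / I < (nm z : ℝ) / Y ↔ ¬ (nm z : ℝ) ≤ C0 * Y * (i : ℝ) / I := by
    rw [not_le, div_lt_div_iff₀ hI hY, div_lt_iff₀ hI]
    constructor <;> intro h <;> linarith
  have e2 : (nm z : ℝ) / Y ≤ C0 * (i + 1) / I ↔ (nm z : ℝ) ≤ C0 * Y * ((i + 1 : ℕ) : ℝ) / I := by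
    rw [div_le_div_iff₀ hY hI, le_div_iff₀ hI]
    push_cast
    constructor <;> intro h <;> linarith
  have e3 : (nm z : ℝ) ≤ C0 * Y * (i : ℝ) / I → (nm z : ℝ) ≤ C0 * Y * ((i + 1 : ℕ) : ℝ) / I := by
    intro h
    refine h.trans ?_
    push_cast
    apply div_le_div_of_nonneg_right _ hI.le
    have : 0 < C0 * Y := by positivity
    nlinarith
  unfold cell
  by_cases h1 : (nm z : ℝ) ≤ C0 * Y * (i : ℝ) / I
  · rw [if_neg (fun h => (e1.1 h.1) h1), if_pos (e3 h1), if_pos h1]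
    simp
  · by_cases h2 : (nm z : ℝ) ≤ C0 * Y * ((i + 1 : ℕ) : ℝ) / I
    · rw [if_pos ⟨e1.2 h1, e2.2 h2⟩, if_pos h2, if_neg h1]
      simp
    · rw [if_neg (fun h => h2 (e2.1 h.2)), if_neg h2, if_neg h1]
      simp

open Classical in
theorem arcpair_cells {C0 Y : ℝ} (hC0 : 0 < C0) (hY : 0 < Y) {I i j : ℕ} (hi : i < I) (hj : j < I)
    (Q Q' : G → Prop) (a : G → G → ℂ) (E : ℝ)
    (hE : ∀ k k' : ℕ, k ≤ I → k' ≤ I → ‖∑ V ∈ (PV (C0 * Y * (k : ℝ) / I)).filter Q,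
      ∑ V' ∈ (PV (C0 * Y * (k' : ℝ) / I)).filter Q', a V V'‖ ≤ E) :
    ‖∑ V ∈ (PV (C0 * Y)).filter Q, ∑ V' ∈ (PV (C0 * Y)).filter Q',
      a V V' * ((cell C0 I j (nm V' / Y) : ℝ) : ℂ) * ((cell C0 I i (nm V / Y) : ℝ) : ℂ)‖ ≤ 4 * E := by
  have h1 : ∀ V : G, ∑ V' ∈ (PV (C0 * Y)).filter Q',
      a V V' * ((cell C0 I j (nm V' / Y) : ℝ) : ℂ) * ((cell C0 I i (nm V / Y) : ℝ) : ℂ) =
      (∑ V' ∈ (PV (C0 * Y * ((j + 1 : ℕ) : ℝ) / I)).filter Q', a V V' -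
        ∑ V' ∈ (PV (C0 * Y * ((j : ℕ) : ℝ) / I)).filter Q', a V V') * ((cell C0 I i (nm V / Y) : ℝ) : ℂ) := by
    intro V
    rw [← arcpair_cell hC0 hY hj, sum_mul]
  simp only [h1]
  rw [arcpair_cell hC0 hY hi, sum_sub_distrib, sum_sub_distrib]
  have a1 := hE (i + 1) (j + 1) hi hj
  have a2 := hE (i + 1) j hi hj.le
  have a3 := hE i (j + 1) hi.le hj
  have a4 := hE i j hi.le hj.le
  refine (norm_sub_le _ _).trans ?_
  refine (add_le_add (norm_sub_le _ _) (norm_sub_le _ _)).trans ?_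
  linarith

theorem arcpair_prim0 : ¬ Prim (0 : G) := by
  rintro ⟨a, b, hab⟩
  simp at hab

theorem arcpair_PV0 : PV 0 = ∅ := by
  rw [eq_empty_iff_forall_notMem]
  intro z hz
  rw [mem_PV] at hz
  have h1 : nm z = 0 := by
    have : (nm z : ℝ) ≤ 0 := hz.1
    exact_mod_cast le_antisymm this (Nat.cast_nonneg _)
  rw [nm_eq_zero] at h1
  have h2 := hz.2
  rw [h1] at h2
  exact arcpair_prim0 h2

theorem arcpair_pos {X : ℝ} {z : G} (hz : z ∈ PV X) : 0 < nm z := by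
  rw [mem_PV] at hz
  apply nm_pos
  rintro rfl
  exact arcpair_prim0 hz.2

open Classical in
/-- bound for one triple of cells -/
theorem arcpair_term (f : ℕ → ℂ) (D : ℕ) (hD : 0 < D) (κ : G → G → ℂ)
    (hκ : ∀ V V', ‖κ V V'‖ ≤ 2) (hper : ∀ V V' U U', cg D V U → cg D V' U' → κ V V' = κ U U')
    {C0 Y N A δ : ℝ} (hC0 : 0 < C0) (hY : 0 < Y) (hN : 0 < N) {I i j l : ℕ} (hi : i < I) (hj : j < I)
    (hδ : δ = N / (I * Y)) (hl : ((l : ℝ) + 1) * δ < Real.pi) (hA : 0 ≤ A)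
    (hS : ∀ b ∈ mrpoR D, ∀ k ∈ Icc 1 I,
      ∫ θ in (0 : ℝ)..(2 * Real.pi), ‖Sp f D b (C0 * Y * (k : ℝ) / I) δ θ‖ ^ 2 ≤ A) :
    ‖∑ V ∈ PV (C0 * Y), ∑ V' ∈ PV (C0 * Y), κ V V' * (f (nm V) * (starRingEnd ℂ) (f (nm V'))) *
      ((cell C0 I i (nm V / Y) * cell C0 I j (nm V' / Y) * max 0 (1 - |I * (Y * ang V V' / N) - l|) : ℝ) : ℂ)‖ ≤
      8 * ((D : ℝ) ^ 4) * (A / δ) := by
  have hI : (0 : ℝ) < I := by exact_mod_cast (Nat.zero_le i).trans_lt hi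
  have hδ0 : 0 < δ := by
    rw [hδ]
    positivity
  have hAδ : 0 ≤ A / δ := by positivity
  have e0 : ∀ V V' : G, κ V V' * (f (nm V) * (starRingEnd ℂ) (f (nm V'))) *
      ((cell C0 I i (nm V / Y) * cell C0 I j (nm V' / Y) * max 0 (1 - |I * (Y * ang V V' / N) - l|) : ℝ) : ℂ) =
      κ V V' * (f (nm V) * (starRingEnd ℂ) (f (nm V')) * ((max 0 (1 - |ang V V' / δ - l|) : ℝ) : ℂ) *
        ((cell C0 I j (nm V' / Y) : ℝ) : ℂ) * ((cell C0 I i (nm V / Y) : ℝ) : ℂ)) := by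
    intro V V'
    have e1 : (I : ℝ) * (Y * ang V V' / N) = ang V V' / δ := by
      rw [hδ]
      field_simp
    rw [e1]
    push_cast
    ring
  simp only [e0]
  rw [arcpair_split2 hD _ κ hper]
  have hcard : ((mrpoR D).card : ℝ) ≤ (D : ℝ) * D := by exact_mod_cast mrpo_card D
  have hterm : ∀ b ∈ mrpoR D, ∀ b' ∈ mrpoR D, ‖κ b b' * ∑ V ∈ (PV (C0 * Y)).filter (fun z => cg D z b),
      ∑ V' ∈ (PV (C0 * Y)).filter (fun z => cg D z b'),
        (f (nm V) * (starRingEnd ℂ) (f (nm V')) * ((max 0 (1 - |ang V V' / δ - l|) : ℝ) : ℂ) *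
        ((cell C0 I j (nm V' / Y) : ℝ) : ℂ) * ((cell C0 I i (nm V / Y) : ℝ) : ℂ))‖ ≤ 8 * (A / δ) := by
    intro b hb b' hb'
    rw [norm_mul]
    have h4 : ‖∑ V ∈ (PV (C0 * Y)).filter (fun z => cg D z b),
      ∑ V' ∈ (PV (C0 * Y)).filter (fun z => cg D z b'),
        (f (nm V) * (starRingEnd ℂ) (f (nm V')) * ((max 0 (1 - |ang V V' / δ - l|) : ℝ) : ℂ) *
        ((cell C0 I j (nm V' / Y) : ℝ) : ℂ) * ((cell C0 I i (nm V / Y) : ℝ) : ℂ))‖ ≤ 4 * (A / δ) := by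
      apply arcpair_cells hC0 hY hi hj (fun z => cg D z b) (fun z => cg D z b')
        (fun V V' => f (nm V) * (starRingEnd ℂ) (f (nm V')) * ((max 0 (1 - |ang V V' / δ - l|) : ℝ) : ℂ))
      intro k k' hk hk'
      rcases Nat.eq_zero_or_pos k with h0 | h0
      · rw [h0, Nat.cast_zero, mul_zero, zero_div, arcpair_PV0, filter_empty, sum_empty, norm_zero]
        exact hAδ
      · rcases Nat.eq_zero_or_pos k' with h0' | h0'
        · rw [h0', Nat.cast_zero, mul_zero, zero_div, arcpair_PV0, filter_empty]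
          simp only [sum_empty, sum_const_zero, norm_zero]
          exact hAδ
        · exact arc_bound f D b b' _ _ δ A hδ0 l hl (hS b hb k (mem_Icc.2 ⟨h0, hk⟩))
            (hS b' hb' k' (mem_Icc.2 ⟨h0', hk'⟩))
    calc _ ≤ 2 * (4 * (A / δ)) := mul_le_mul (hκ _ _) h4 (norm_nonneg _) (by norm_num)
      _ = 8 * (A / δ) := by ring
  refine (norm_sum_le _ _).trans ?_
  refine (sum_le_card_nsmul _ _ ((D : ℝ) * D * (8 * (A / δ))) (fun b hb => ?_)).trans ?_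
  · refine (norm_sum_le _ _).trans ?_
    refine (sum_le_card_nsmul _ _ (8 * (A / δ)) (fun b' hb' => hterm b hb b' hb')).trans ?_
    rw [nsmul_eq_mul]
    exact mul_le_mul_of_nonneg_right hcard (by positivity)
  · rw [nsmul_eq_mul]
    calc _ ≤ (D : ℝ) * D * ((D : ℝ) * D * (8 * (A / δ))) := mul_le_mul_of_nonneg_right hcard (by positivity)
      _ = 8 * ((D : ℝ) ^ 4) * (A / δ) := by ring

theorem arcpair_ev (f : ℕ → ℂ) (hM : MRP f) {D : ℕ} (hD : 0 < D) {C0 ε : ℝ} (hC0 : 0 < C0) (hε : 0 < ε) {I : ℕ}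
    (hI : 1 ≤ I) : ∀ᶠ N : ℕ in atTop, ∀ᶠ Y : ℝ in atTop, ∀ b ∈ mrpoR D, ∀ k ∈ Icc 1 I,
      ∫ θ in (0 : ℝ)..(2 * Real.pi), ‖Sp f D b (C0 * Y * (k : ℝ) / I) (N / (I * Y)) θ‖ ^ 2 ≤
        ε * ((N : ℝ) * C0 / I) ^ 2 := by
  have hI' : (0 : ℝ) < I := by exact_mod_cast hI
  have h1 : ∀ᶠ N : ℕ in atTop, ∀ b ∈ mrpoR D, ∀ k ∈ Icc 1 I, ∀ᶠ X : ℝ in atTop,
      ∫ θ in (0 : ℝ)..(2 * Real.pi), ‖Sp f D b X ((N * (C0 * k / (I * I))) / X) θ‖ ^ 2 ≤
        ε * ((N : ℝ) * (C0 * k / (I * I))) ^ 2 := by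
    rw [eventually_all_finset]
    intro b _
    rw [eventually_all_finset]
    intro k hk
    have hk1 : (1 : ℝ) ≤ k := by exact_mod_cast (mem_Icc.1 hk).1
    obtain ⟨H0, -, h⟩ := hM D hD b ε hε
    have ht : Tendsto (fun N : ℕ => (N : ℝ) * (C0 * k / (I * I))) atTop atTop :=
      tendsto_natCast_atTop_atTop.atTop_mul_const (by positivity)
    filter_upwards [ht.eventually_ge_atTop H0] with N hN
    obtain ⟨X0, hX0⟩ := h _ hN
    filter_upwards [eventually_ge_atTop X0] with X hX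
    exact hX0 X hX
  filter_upwards [h1] with N hN
  rw [eventually_all_finset]
  intro b hb
  rw [eventually_all_finset]
  intro k hk
  have hk1 : (1 : ℝ) ≤ k := by exact_mod_cast (mem_Icc.1 hk).1
  have hk2 : (k : ℝ) ≤ I := by exact_mod_cast (mem_Icc.1 hk).2
  have ht : Tendsto (fun Y : ℝ => C0 * Y * (k : ℝ) / I) atTop atTop := by
    have h3 : Tendsto (fun Y : ℝ => Y * (C0 * k / I)) atTop atTop := tendsto_id.atTop_mul_const (by positivity)
    refine h3.congr (fun Y => ?_)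
    ring
  filter_upwards [ht.eventually (hN b hb k hk), eventually_gt_atTop 0] with Y hY hY0
  have e1 : (N : ℝ) * (C0 * k / (I * I)) / (C0 * Y * (k : ℝ) / I) = N / (I * Y) := by
    field_simp
  rw [e1] at hY
  refine hY.trans (mul_le_mul_of_nonneg_left (pow_le_pow_left₀ (by positivity) ?_ 2) hε.le)
  rw [mul_div_assoc (N : ℝ)]
  refine mul_le_mul_of_nonneg_left ?_ (Nat.cast_nonneg _)
  rw [div_le_div_iff₀ (by positivity) hI']
  nlinarith [mul_le_mul_of_nonneg_left hk2 (by positivity : 0 ≤ C0 * I)]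

/-- PROOF. Given `ε`; `C` from `cntA (c0/2) C0 (B+1)`; `appG` with `ε1 = ε/(8 C)` (`‖κ‖ ≤ 2`): `I`. The difference of the sum and the sum with `F` replaced by its approximation (`x = nm V / Y`, `x' = nm V' / Y ∈ (0, C0]`, `σ = Y ang / N`) is at most
`2 ε1 C N Y ≤ ε N Y / 2` for `N ≥ 1` and large `Y`. The approximation: split into residue classes `b, b'` modulo `D` (representatives with coordinates in `[0, D)`), `κ V V' = κ b b'`; `cell C0 I i (nm V / Y) = 1_(nm V ≤ X_(i+1)) - 1_(nm V ≤ X_i)`, `X_i = C0 i Y / I`;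
`I σ - l = ang / δ - l` with `δ = N / (I Y)`. So it is a sum of at most `I^2 (⌈B⌉ I + 1) D^4 * 4` terms, each at most `2 sup|F|` times a sum as in `arc_bound` with radii `X_i, X_j` (`i, j ≥ 1`; for `i = 0` the ball is `{0}`, no primitive vectors). Let `ε2 > 0` be small. `MRP` with
`ε2` for the finitely many classes: `H0`. For `X = X_i`, `δ = H/X` with `H = N C0 i / I^2`, which is `≥ H0` for all `i ≥ 1` if `N ≥ N0`; for fixed `N` and large `Y` all the finitely many radii satisfy `X_i ≥ X0`, so the integrals are at most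
`A = ε2 (N C0 / I)^2`; `A/δ = ε2 C0^2 N Y / I`; also `(⌈B⌉ I + 2) δ < π` for large `Y`. Choose `ε2` so small that the total is `≤ ε N Y / 2`. -/
theorem arcpair (f : ℕ → ℂ) (hf : ∀ n, ‖f n‖ ≤ 1) (hM : MRP f) (D : ℕ) (hD : 0 < D) (κ : G → G → ℂ)
    (hκ : ∀ V V', ‖κ V V'‖ ≤ 2) (hper : ∀ V V' U U', cg D V U → cg D V' U' → κ V V' = κ U U')
    (c0 C0 B : ℝ) (hc0 : 0 < c0) (hC0 : c0 ≤ C0) (hB : 0 < B) (F : ℝ → ℝ → ℝ → ℝ)
    (hF : Continuous (fun v : ℝ × ℝ × ℝ => F v.1 v.2.1 v.2.2))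
    (h1 : ∀ x x' σ, x ≤ c0 ∨ x' ≤ c0 ∨ C0 ≤ x ∨ C0 ≤ x' ∨ σ ≤ 0 ∨ B ≤ σ → F x x' σ = 0) (ε : ℝ) (hε : 0 < ε) :
    ∃ N0 : ℕ, ∀ N : ℕ, N0 ≤ N → ∀ᶠ Y : ℝ in atTop,
      ‖∑ V ∈ PV (C0 * Y), ∑ V' ∈ PV (C0 * Y), κ V V' * (f (nm V) * (starRingEnd ℂ) (f (nm V'))) *
        ((F (nm V / Y) (nm V' / Y) (Y * ang V V' / N) : ℝ) : ℂ)‖ ≤ ε * N * Y := by
  classical
  have hC0' : 0 < C0 := hc0.trans_le hC0
  have hD' : (0 : ℝ) < D := by exact_mod_cast hD
  obtain ⟨C, hC, hcnt⟩ := cntA (c0 / 2) C0 (B + 1) (by linarith) (by linarith) (by linarith)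
  set ε1 : ℝ := ε / (4 * C) with hε1
  have hε1' : 0 < ε1 := by positivity
  obtain ⟨I, hI, happ⟩ := appG c0 C0 B hc0 hC0 hB F hF h1 ε1 hε1'
  have hI' : (0 : ℝ) < I := by exact_mod_cast hI
  set Q : Finset (ℕ × ℕ × ℕ) := range I ×ˢ range I ×ˢ range (⌈B⌉₊ * I + 1) with hQ
  set cc : ℕ × ℕ × ℕ → ℝ := fun q => F (C0 * q.1 / I) (C0 * q.2.1 / I) ((q.2.2 : ℝ) / I) with hcc
  set S : ℝ := ∑ q ∈ Q, |cc q| with hS
  have hS0 : 0 ≤ S := sum_nonneg fun _ _ => abs_nonneg _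
  set ε2 : ℝ := ε / (16 * (S + 1) * D ^ 4 * C0 ^ 2) with hε2
  have hε2' : 0 < ε2 := by positivity
  obtain ⟨N0, hN0⟩ := eventually_atTop.1 (arcpair_ev f hM hD hC0' hε2' hI)
  refine ⟨max N0 1, fun N hN => ?_⟩
  have hN1 : 1 ≤ N := (le_max_right _ _).trans hN
  have hNr : (0 : ℝ) < N := by exact_mod_cast hN1
  have hδlim : Tendsto (fun Y : ℝ => ((⌈B⌉₊ * I + 1 : ℕ) + 1 : ℝ) * (N / (I * Y))) atTop (nhds 0) := by
    have h3 : Tendsto (fun Y : ℝ => (((⌈B⌉₊ * I + 1 : ℕ) + 1 : ℝ) * N / I) / Y) atTop (nhds 0) :=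
      tendsto_const_nhds.div_atTop tendsto_id
    refine h3.congr (fun Y => ?_)
    ring
  filter_upwards [hN0 N ((le_max_left _ _).trans hN), hcnt N hN1, eventually_gt_atTop 0,
    hδlim.eventually_lt_const Real.pi_pos] with Y hY1 hY2 hY0 hY3
  set δ : ℝ := N / (I * Y) with hδ
  have hδ0 : 0 < δ := by positivity
  set P := PV (C0 * Y) with hP
  set w : G → G → ℂ := fun V V' => f (nm V) * (starRingEnd ℂ) (f (nm V')) with hw
  have hwb : ∀ V V', ‖w V V'‖ ≤ 1 := by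
    intro V V'
    rw [hw]
    dsimp only
    rw [norm_mul, RCLike.norm_conj]
    exact mul_le_one₀ (hf _) (norm_nonneg _) (hf _)
  set u : ℕ × ℕ × ℕ → G → G → ℝ := fun q V V' => cell C0 I q.1 (nm V / Y) * cell C0 I q.2.1 (nm V' / Y) *
    max 0 (1 - |I * (Y * ang V V' / N) - q.2.2|) with hu
  set Ap : G → G → ℝ := fun V V' => ∑ q ∈ Q, cc q * u q V V' with hAp
  have hap : ∀ V ∈ P, ∀ V' ∈ P, |F (nm V / Y) (nm V' / Y) (Y * ang V V' / N) - Ap V V'| ≤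
      if c0 / 2 * Y ≤ nm V ∧ c0 / 2 * Y ≤ nm V' ∧ |ang V V'| ≤ (B + 1) * N / Y then ε1 else 0 := by
    intro V hV V' hV'
    have hVp := arcpair_pos hV
    have hVp' := arcpair_pos hV'
    rw [hP, mem_PV] at hV hV'
    have a1 : (0 : ℝ) < nm V / Y := by
      have : (0 : ℝ) < nm V := by exact_mod_cast hVp
      positivity
    have a2 : (0 : ℝ) < nm V' / Y := by
      have : (0 : ℝ) < nm V' := by exact_mod_cast hVp'
      positivity
    have a3 : (nm V : ℝ) / Y ≤ C0 := by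
      rw [div_le_iff₀ hY0]
      exact hV.1
    have a4 : (nm V' : ℝ) / Y ≤ C0 := by
      rw [div_le_iff₀ hY0]
      exact hV'.1
    have h3 := happ _ _ (Y * ang V V' / N) a1 a3 a2 a4
    have e1 : Ap V V' = ∑ i ∈ range I, ∑ j ∈ range I, ∑ l ∈ range (⌈B⌉₊ * I + 1),
        F (C0 * i / I) (C0 * j / I) ((l : ℝ) / I) * cell C0 I i (nm V / Y) * cell C0 I j (nm V' / Y) *
          max 0 (1 - |I * (Y * ang V V' / N) - l|) := by
      rw [hAp]
      dsimp only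
      rw [hQ, sum_product]
      apply sum_congr rfl
      intro i _
      rw [sum_product]
      apply sum_congr rfl
      intro j _
      apply sum_congr rfl
      intro l _
      rw [hcc, hu]
      dsimp only
      ring
    rw [e1]
    refine h3.trans ?_
    split_ifs with b1 b2 b3
    · exact le_rfl
    · exfalso
      apply b2
      obtain ⟨c1, c2, c3⟩ := b1
      rw [le_div_iff₀ hY0] at c1 c2
      refine ⟨c1, c2, ?_⟩
      rw [abs_div, abs_mul, abs_of_pos hY0, abs_of_pos hNr, div_le_iff₀ hNr] at c3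
      rw [le_div_iff₀ hY0]
      linarith
    · exact hε1'.le
    · exact le_rfl
  -- first part
  have hfirst : ‖∑ V ∈ P, ∑ V' ∈ P, κ V V' * w V V' *
      (((F (nm V / Y) (nm V' / Y) (Y * ang V V' / N) : ℝ) : ℂ) - ((Ap V V' : ℝ) : ℂ))‖ ≤ ε / 2 * N * Y := by
    have e1 : ∀ V ∈ P, ∀ V' ∈ P, ‖κ V V' * w V V' *
        (((F (nm V / Y) (nm V' / Y) (Y * ang V V' / N) : ℝ) : ℂ) - ((Ap V V' : ℝ) : ℂ))‖ ≤
        2 * (if c0 / 2 * Y ≤ nm V ∧ c0 / 2 * Y ≤ nm V' ∧ |ang V V'| ≤ (B + 1) * N / Y then ε1 else 0) := by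
      intro V hV V' hV'
      rw [← Complex.ofReal_sub, norm_mul, Complex.norm_real, Real.norm_eq_abs, norm_mul]
      have h3 := hap V hV V' hV'
      have h4 : ‖κ V V'‖ * ‖w V V'‖ ≤ 2 := by
        have := mul_le_mul (hκ V V') (hwb V V') (norm_nonneg _) (by norm_num)
        linarith
      exact mul_le_mul h4 h3 (abs_nonneg _) (by norm_num)
    refine (norm_sum_le _ _).trans ?_
    refine (sum_le_sum fun V hV => (norm_sum_le _ _).trans (sum_le_sum fun V' hV' => e1 V hV V' hV')).trans ?_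
    rw [← sum_product' P P (fun V V' => 2 * (if c0 / 2 * Y ≤ (nm V : ℝ) ∧ c0 / 2 * Y ≤ (nm V' : ℝ) ∧
      |ang V V'| ≤ (B + 1) * N / Y then ε1 else 0)), ← mul_sum, ← sum_filter, sum_const, nsmul_eq_mul]
    have h5 : 2 * (C * N * Y * ε1) = ε / 2 * N * Y := by
      rw [hε1]
      field_simp
      ring
    rw [← h5]
    refine mul_le_mul_of_nonneg_left (mul_le_mul_of_nonneg_right ?_ hε1'.le) (by norm_num)
    refine le_trans (le_of_eq ?_) hY2
    congr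
  -- second part
  have hsecond : ‖∑ V ∈ P, ∑ V' ∈ P, κ V V' * w V V' * ((Ap V V' : ℝ) : ℂ)‖ ≤ ε / 2 * N * Y := by
    have e1 : ∑ V ∈ P, ∑ V' ∈ P, κ V V' * w V V' * ((Ap V V' : ℝ) : ℂ) =
        ∑ q ∈ Q, ((cc q : ℝ) : ℂ) * ∑ V ∈ P, ∑ V' ∈ P, κ V V' * w V V' * ((u q V V' : ℝ) : ℂ) := by
      have e2 : ∀ V V' : G, κ V V' * w V V' * ((Ap V V' : ℝ) : ℂ) =
          ∑ q ∈ Q, ((cc q : ℝ) : ℂ) * (κ V V' * w V V' * ((u q V V' : ℝ) : ℂ)) := by
        intro V V'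
        rw [hAp]
        dsimp only
        rw [Complex.ofReal_sum, mul_sum]
        apply sum_congr rfl
        intro q _
        rw [Complex.ofReal_mul]
        ring
      simp only [e2, mul_sum]
      rw [sum_congr rfl (fun V _ => sum_comm), sum_comm]
    rw [e1]
    refine (norm_sum_le _ _).trans ?_
    set A : ℝ := ε2 * ((N : ℝ) * C0 / I) ^ 2 with hA
    have hA0 : 0 ≤ A := by positivity
    have e3 : ∀ q ∈ Q, ‖((cc q : ℝ) : ℂ) * ∑ V ∈ P, ∑ V' ∈ P, κ V V' * w V V' * ((u q V V' : ℝ) : ℂ)‖ ≤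
        |cc q| * (8 * ((D : ℝ) ^ 4) * (A / δ)) := by
      intro q hq
      rw [hQ, mem_product, mem_product, mem_range, mem_range, mem_range] at hq
      rw [norm_mul, Complex.norm_real, Real.norm_eq_abs]
      refine mul_le_mul_of_nonneg_left ?_ (abs_nonneg _)
      refine arcpair_term f D hD κ hκ hper hC0' hY0 hNr hq.1 hq.2.1 hδ ?_ hA0 hY1
      refine lt_of_le_of_lt ?_ hY3
      refine mul_le_mul_of_nonneg_right ?_ hδ0.le
      have : (q.2.2 : ℝ) ≤ (⌈B⌉₊ * I + 1 : ℕ) := by exact_mod_cast hq.2.2.le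
      linarith
    refine (sum_le_sum e3).trans ?_
    rw [← sum_mul, ← hS]
    have e4 : A / δ = ε2 * C0 ^ 2 * N * Y / I := by
      rw [hA, hδ]
      field_simp
    rw [e4]
    have e5 : 8 * (D : ℝ) ^ 4 * (ε2 * C0 ^ 2 * N * Y / I) ≤ 8 * (D : ℝ) ^ 4 * (ε2 * C0 ^ 2 * N * Y) := by
      refine mul_le_mul_of_nonneg_left ?_ (by positivity)
      apply div_le_self (by positivity)
      exact_mod_cast hI
    have e6 : (S + 1) * (8 * (D : ℝ) ^ 4 * (ε2 * C0 ^ 2 * N * Y)) = ε / 2 * N * Y := by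
      rw [hε2]
      field_simp
      ring
    rw [← e6]
    exact mul_le_mul (by linarith) e5 (by positivity) (by linarith)
  have hsum : ∑ V ∈ P, ∑ V' ∈ P, κ V V' * (f (nm V) * (starRingEnd ℂ) (f (nm V'))) *
        ((F (nm V / Y) (nm V' / Y) (Y * ang V V' / N) : ℝ) : ℂ) =
      ∑ V ∈ P, ∑ V' ∈ P, κ V V' * w V V' *
        (((F (nm V / Y) (nm V' / Y) (Y * ang V V' / N) : ℝ) : ℂ) - ((Ap V V' : ℝ) : ℂ)) +
      ∑ V ∈ P, ∑ V' ∈ P, κ V V' * w V V' * ((Ap V V' : ℝ) : ℂ) := by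
    rw [← sum_add_distrib]
    apply sum_congr rfl
    intro V _
    rw [← sum_add_distrib]
    apply sum_congr rfl
    intro V' _
    rw [hw]
    dsimp only
    ring
  rw [hsum]
  refine (norm_add_le _ _).trans ((add_le_add hfirst hsecond).trans (le_of_eq ?_))
  ring

end Pool.Agent.OmEq
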