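import Pool.Agent.Lib_MP_f1a94e_eq.Cnt

/-!
# Piece CS: Cauchy-Schwarz over unbalanced edges
-/

set_option autoImplicit false

namespace Pool.Agent.OmEq

open Finset Pool.Agent.GaussMR Pool.Agent.OmAll

/-- triangle on `[J, J + N]` -/
noncomputable def rho (J N : ℕ) (r : ℝ) : ℝ := max 0 (1 - |2 * (r - J) / N - 1|)

/-- the norm of `A = (V - V') / n` -/
noncomputable def aN (n : ℕ) (e : G × G) : ℝ := ((nm e.1 : ℝ) + nm e.2 - 2 * mE e) / (n : ℝ) ^ 2

/-- the weight of a pair of determinant `n` -/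
noncomputable def wN (h : ℝ → ℝ) (J N n : ℕ) (X : ℝ) (e : G × G) : ℝ :=
  h (aN n e / X) ^ 2 * rho J N ((nm e.1 - mE e) / (n * aN n e)) * rho J N ((mE e - nm e.2) / (n * aN n e))

open Classical in
/-- the correlations of determinant `n` -/
noncomputable def Gm (f : ℕ → ℂ) (h : ℝ → ℝ) (J N n : ℕ) (x X : ℝ) : ℂ :=
  ∑ e ∈ (EN n x).filter (fun e => cg n e.2 e.1), f (nm e.1) * (starRingEnd ℂ) (f (nm e.2)) * (wN h J N n X e : ℂ)

/-- the sum over unbalanced edges -/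
noncomputable def SX (f : ℕ → ℂ) (h : ℝ → ℝ) (J N : ℕ) (x X : ℝ) : ℂ :=
  ∑ e ∈ EN 1 x, f (nm e.1) * f (nm e.2) * ((h (nm e.1 / X) * rho J N (mE e / nm e.1) : ℝ) : ℂ)

theorem csN_rho_nonneg (J N : ℕ) (r : ℝ) : 0 ≤ rho J N r := le_max_left _ _

theorem csN_rho_le (J N : ℕ) (r : ℝ) : rho J N r ≤ 1 := by
  unfold rho
  apply max_le zero_le_one
  linarith [abs_nonneg (2 * (r - J) / N - 1)]

theorem csN_rho_ne {J N : ℕ} (hN : 1 ≤ N) {r : ℝ} (h : rho J N r ≠ 0) : (J : ℝ) ≤ r ∧ r ≤ J + N := by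
  have h1 : |2 * (r - J) / N - 1| < 1 := by
    by_contra hc
    push Not at hc
    apply h
    unfold rho
    apply max_eq_left
    linarith
  rw [abs_lt] at h1
  have hN0 : (0 : ℝ) < N := by exact_mod_cast hN
  have h2 : 0 < 2 * (r - J) / N := by linarith [h1.1]
  have h3 : 2 * (r - J) / N < 2 := by linarith [h1.2]
  rw [div_lt_iff₀ hN0] at h3
  rw [div_pos_iff_of_pos_right hN0] at h2
  constructor <;> linarith

open Classical in
/-- the second vectors of the unbalanced edges with first vector `A` -/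
noncomputable def csB (J N : ℕ) (A : G) : Finset G :=
  (ball (((J : ℝ) + N) ^ 2 * nm A + 1)).filter (fun B => det A B = 1 ∧
    (J : ℝ) * nm A ≤ ((dot A B : ℤ) : ℝ) ∧ ((dot A B : ℤ) : ℝ) ≤ (J + N) * nm A)

theorem csN_ne_zero {A B : G} (h : det A B = 1) : A ≠ 0 := by
  rintro rfl
  unfold det at h
  simp at h

theorem csN_nm_pos {A B : G} (h : det A B = 1) : (1 : ℝ) ≤ nm A := by
  exact_mod_cast nm_pos (csN_ne_zero h)

/-- bound of the norm of the second vector -/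
theorem csN_nm_le {J N : ℕ} {A B : G} (h : det A B = 1) (h0 : (0 : ℝ) ≤ ((dot A B : ℤ) : ℝ))
    (h1 : ((dot A B : ℤ) : ℝ) ≤ (J + N) * nm A) : (nm B : ℝ) ≤ ((J : ℝ) + N) ^ 2 * nm A + 1 := by
  have h2 := csN_nm_pos h
  have h3 := dot_sq_add_det_sq A B
  rw [h] at h3
  have h4 : ((dot A B : ℤ) : ℝ) ^ 2 + 1 = (nm A : ℝ) * nm B := by
    have : ((dot A B ^ 2 + 1 ^ 2 : ℤ) : ℝ) = (((nm A : ℤ) * nm B : ℤ) : ℝ) := by rw [h3]
    push_cast at this
    linarith
  have h5 : ((dot A B : ℤ) : ℝ) ^ 2 ≤ ((J + N) * nm A) ^ 2 := by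
    apply pow_le_pow_left₀ h0 h1
  have h6 : (nm A : ℝ) * nm B ≤ nm A * (((J : ℝ) + N) ^ 2 * nm A + 1) := by
    rw [← h4]
    nlinarith
  exact le_of_mul_le_mul_left h6 (by linarith)

theorem csN_mem {J N : ℕ} {A B : G} : B ∈ csB J N A ↔ det A B = 1 ∧
    (J : ℝ) * nm A ≤ ((dot A B : ℤ) : ℝ) ∧ ((dot A B : ℤ) : ℝ) ≤ (J + N) * nm A := by
  classical
  unfold csB
  rw [mem_filter, mem_ball]
  refine ⟨fun h => h.2, fun h => ⟨?_, h⟩⟩
  apply csN_nm_le h.1 _ h.2.2
  exact le_trans (by positivity) h.2.1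

theorem csN_card {J N : ℕ} {A : G} (hA : A ≠ 0) : ((csB J N A).card : ℝ) ≤ N + 1 := by
  have hn : (0 : ℝ) < nm A := by exact_mod_cast nm_pos hA
  obtain ⟨s, h1, h2⟩ := TailP.edges_sub A (J * nm A) ((J + N) * nm A) (by
    have : (0 : ℝ) ≤ N := Nat.cast_nonneg _
    nlinarith)
  have h3 : csB J N A ⊆ s := by
    intro B hB
    rw [csN_mem] at hB
    have : B ∈ (s : Set G) := h1 hB
    exact this
  have h4 : ((csB J N A).card : ℝ) ≤ s.card := by exact_mod_cast card_le_card h3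
  have h5 : (((J : ℝ) + N) * nm A - J * nm A) / nm A + 1 = N + 1 := by
    field_simp
    ring
  rw [h5] at h2
  linarith

open Classical in
/-- the first vectors -/
noncomputable def csA (Y : ℝ) : Finset G := (ball Y).filter (fun z => z ≠ 0)

theorem csN_memA {Y : ℝ} {z : G} : z ∈ csA Y ↔ z ≠ 0 ∧ (nm z : ℝ) ≤ Y := by
  classical
  unfold csA
  rw [mem_filter, mem_ball, and_comm]

theorem csN_cardA {Y : ℝ} (hY : 0 ≤ Y) : ((csA Y).card : ℝ) ≤ 9 * Y := by
  obtain ⟨s, h1, _, h2⟩ := TailP.ball_sub Y hY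
  have h3 : csA Y ⊆ s := by
    intro z hz
    rw [csN_memA] at hz
    exact h1 z hz.1 hz.2
  have h4 : ((csA Y).card : ℝ) ≤ s.card := by exact_mod_cast card_le_card h3
  linarith

/-- the inner sum -/
noncomputable def csT (f : ℕ → ℂ) (J N : ℕ) (A : G) : ℂ :=
  ∑ B ∈ csB J N A, f (nm B) * ((rho J N (((dot A B : ℤ) : ℝ) / nm A) : ℝ) : ℂ)

/-- the term of the pair `p` in the square of the inner sum -/
noncomputable def csF (f : ℕ → ℂ) (J N : ℕ) (A : G) (p : G × G) : ℂ :=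
  f (nm p.1) * (starRingEnd ℂ) (f (nm p.2)) *
    ((rho J N (((dot A p.1 : ℤ) : ℝ) / nm A) * rho J N (((dot A p.2 : ℤ) : ℝ) / nm A) : ℝ) : ℂ)

theorem csN_prim {A B : G} (h : det A B = 1) : Prim A ∧ Prim B := by
  unfold det at h
  refine ⟨⟨B.im, -B.re, ?_⟩, ⟨-A.im, A.re, ?_⟩⟩
  · linear_combination h
  · linear_combination h

theorem csN_cg_one (u v : G) : cg 1 u v := by
  unfold cg
  simp

theorem csN_SX (f : ℕ → ℂ) (h : ℝ → ℝ) (h2 : ℝ) (hh2 : ∀ y, h2 ≤ y → h y = 0) (J N : ℕ) (hJ : 1 ≤ J)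
    (hN : 1 ≤ N) (X : ℝ) (hX : 1 ≤ X) (x : ℝ) (hx : (J + N) * h2 * X ≤ x) :
    SX f h J N x X = ∑ A ∈ csA (h2 * X), f (nm A) * ((h (nm A / X) : ℝ) : ℂ) * csT f J N A := by
  classical
  have hX0 : (0 : ℝ) < X := by linarith
  have hJ0 : (1 : ℝ) ≤ J := by exact_mod_cast hJ
  have hN0 : (0 : ℝ) ≤ N := Nat.cast_nonneg _
  set P : Finset (G × G) := (EN 1 x).filter (fun e => e.1 ∈ csA (h2 * X) ∧ e.2 ∈ csB J N e.1)
    with hP
  have hPmem : ∀ e : G × G, e ∈ P ↔ e.1 ∈ csA (h2 * X) ∧ e.2 ∈ csB J N e.1 := by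
    intro e
    rw [hP, mem_filter]
    refine ⟨fun h => h.2, fun he => ⟨?_, he⟩⟩
    obtain ⟨h3, h4⟩ := he
    rw [csN_memA] at h3
    rw [csN_mem] at h4
    rw [mem_EN one_pos]
    have h5 : (0 : ℝ) < ((dot e.1 e.2 : ℤ) : ℝ) := by
      have := csN_nm_pos h4.1
      nlinarith [h4.2.1]
    refine ⟨⟨?_, ?_, (csN_prim h4.1).1, ?_⟩, ?_⟩
    · rw [h4.1]
      rfl
    · exact_mod_cast h5
    · exact ⟨1, isCoprime_one_left, csN_cg_one _ _⟩
    · unfold mE
      calc ((dot e.1 e.2 : ℤ) : ℝ) ≤ (J + N) * nm e.1 := h4.2.2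
        _ ≤ (J + N) * (h2 * X) := by
          apply mul_le_mul_of_nonneg_left h3.2
          positivity
        _ ≤ x := by linarith
  have h3 : ∑ A ∈ csA (h2 * X), f (nm A) * ((h (nm A / X) : ℝ) : ℂ) * csT f J N A =
      ∑ A ∈ csA (h2 * X), ∑ B ∈ csB J N A, f (nm A) * ((h (nm A / X) : ℝ) : ℂ) *
        (f (nm B) * ((rho J N (((dot A B : ℤ) : ℝ) / nm A) : ℝ) : ℂ)) := by
    apply sum_congr rfl
    intro A _
    unfold csT
    rw [mul_sum]
  rw [h3, ← sum_finset_product' P (csA (h2 * X)) (csB J N) hPmem]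
  unfold SX
  rw [hP, sum_filter_of_ne]
  · apply sum_congr rfl
    intro e _
    unfold mE
    push_cast
    ring
  · intro e he hne
    rw [mem_EN one_pos] at he
    obtain ⟨⟨hdet, hdot, hprim, _⟩, _⟩ := he
    have hdet1 : det e.1 e.2 = 1 := by
      rw [hdet]
      rfl
    have hne1 : h (nm e.1 / X) ≠ 0 := by
      intro h0
      apply hne
      rw [h0]
      simp
    have hne2 : rho J N (((dot e.1 e.2 : ℤ) : ℝ) / nm e.1) ≠ 0 := by
      intro h0
      apply hne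
      rw [h0]
      simp
    have hnm := csN_nm_pos hdet1
    have h4 : (nm e.1 : ℝ) / X < h2 := by
      by_contra hc
      push Not at hc
      exact hne1 (hh2 _ hc)
    rw [div_lt_iff₀ hX0] at h4
    have h5 := csN_rho_ne hN hne2
    rw [le_div_iff₀ (by linarith), div_le_iff₀ (by linarith)] at h5
    rw [csN_memA, csN_mem]
    exact ⟨⟨csN_ne_zero hdet1, h4.le⟩, hdet1, h5.1, h5.2⟩

theorem csN_conj (f : ℕ → ℂ) (J N : ℕ) (A : G) (p : G × G) :
    (starRingEnd ℂ) (csF f J N A p) = csF f J N A (p.2, p.1) := by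
  unfold csF
  rw [map_mul, map_mul, Complex.conj_conj, Complex.conj_ofReal]
  push_cast
  ring

open Classical in
/-- the pairs with `dot A B' < dot A B` -/
noncomputable def csU (f : ℕ → ℂ) (J N : ℕ) (A : G) : ℂ :=
  ∑ p ∈ csB J N A ×ˢ csB J N A, if dot A p.2 < dot A p.1 then csF f J N A p else 0

theorem csN_eq_of_dot {A B B' : G} (h : det A B = 1) (h' : det A B' = 1) (hd : dot A B = dot A B') :
    B = B' := by
  obtain ⟨k, hk⟩ := TailP.diff_mul h h'
  rw [hk, TailP.dot_add_mul] at hd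
  have hnm : (nm A : ℤ) ≠ 0 := by
    have := nm_pos (csN_ne_zero h)
    omega
  have h1 : k * (nm A : ℤ) = 0 := by linarith
  have h2 : k = 0 := by
    rcases mul_eq_zero.1 h1 with h3 | h3
    · exact h3
    · exact absurd h3 hnm
  rw [hk, h2]
  simp

theorem csN_TT (f : ℕ → ℂ) (J N : ℕ) (A : G) :
    csT f J N A * (starRingEnd ℂ) (csT f J N A) =
      ∑ B ∈ csB J N A, csF f J N A (B, B) + csU f J N A + (starRingEnd ℂ) (csU f J N A) := by
  classical
  have h1 : csT f J N A * (starRingEnd ℂ) (csT f J N A) =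
      ∑ p ∈ csB J N A ×ˢ csB J N A, csF f J N A p := by
    unfold csT
    rw [map_sum, sum_mul_sum, sum_product]
    apply sum_congr rfl
    intro B _
    apply sum_congr rfl
    intro B' _
    unfold csF
    rw [map_mul, Complex.conj_ofReal]
    push_cast
    ring
  have h2 : ∑ p ∈ csB J N A ×ˢ csB J N A, csF f J N A p =
      ∑ p ∈ csB J N A ×ˢ csB J N A, (if p.1 = p.2 then csF f J N A p else 0) +
      ∑ p ∈ csB J N A ×ˢ csB J N A, (if dot A p.2 < dot A p.1 then csF f J N A p else 0) +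
      ∑ p ∈ csB J N A ×ˢ csB J N A, (if dot A p.1 < dot A p.2 then csF f J N A p else 0) := by
    rw [← sum_add_distrib, ← sum_add_distrib]
    apply sum_congr rfl
    intro p hp
    rw [mem_product, csN_mem, csN_mem] at hp
    rcases lt_trichotomy (dot A p.1) (dot A p.2) with h | h | h
    · rw [if_neg (fun h3 => by rw [h3] at h; exact lt_irrefl _ h), if_neg (not_lt.2 h.le), if_pos h]
      ring
    · rw [if_pos (csN_eq_of_dot hp.1.1 hp.2.1 h), if_neg (by omega), if_neg (by omega)]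
      ring
    · rw [if_neg (fun h3 => by rw [h3] at h; exact lt_irrefl _ h), if_pos h, if_neg (not_lt.2 h.le)]
      ring
  have h3 : ∑ p ∈ csB J N A ×ˢ csB J N A, (if p.1 = p.2 then csF f J N A p else 0) =
      ∑ B ∈ csB J N A, csF f J N A (B, B) := by
    rw [sum_product]
    apply sum_congr rfl
    intro B hB
    rw [sum_ite_eq, if_pos hB]
  have h4 : ∑ p ∈ csB J N A ×ˢ csB J N A, (if dot A p.1 < dot A p.2 then csF f J N A p else 0) =
      (starRingEnd ℂ) (csU f J N A) := by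
    unfold csU
    rw [map_sum, sum_product, sum_product, sum_comm]
    apply sum_congr rfl
    intro B _
    apply sum_congr rfl
    intro B' _
    show (if dot A B' < dot A B then csF f J N A (B', B) else 0) =
      (starRingEnd ℂ) (if dot A B' < dot A B then csF f J N A (B, B') else 0)
    split_ifs
    · rw [csN_conj]
    · rw [map_zero]
  rw [h1, h2, h3, h4]
  rfl

theorem csN_U (f : ℕ → ℂ) (J N : ℕ) (A : G) :
    csU f J N A = ∑ n ∈ Icc 1 N, ∑ p ∈ csB J N A ×ˢ csB J N A,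
      if p.1 = p.2 + (((n : ℤ) : G)) * A then csF f J N A p else 0 := by
  classical
  unfold csU
  rw [sum_comm]
  apply sum_congr rfl
  intro p hp
  rw [mem_product, csN_mem, csN_mem] at hp
  obtain ⟨⟨h1, h2, h3⟩, h4, h5, h6⟩ := hp
  have hA := csN_ne_zero h1
  have hnm : (0 : ℤ) < nm A := by exact_mod_cast nm_pos hA
  by_cases hlt : dot A p.2 < dot A p.1
  · rw [if_pos hlt]
    obtain ⟨k, hk⟩ := TailP.diff_mul h4 h1
    have h7 : dot A p.1 = dot A p.2 + k * nm A := by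
      rw [hk, TailP.dot_add_mul]
    have hk1 : 1 ≤ k := by
      by_contra hc
      push Not at hc
      nlinarith
    have hkN : k ≤ N := by
      have h8 : ((k * nm A : ℤ) : ℝ) ≤ N * nm A := by
        have h9 : ((k * nm A : ℤ) : ℝ) = ((dot A p.1 : ℤ) : ℝ) - ((dot A p.2 : ℤ) : ℝ) := by
          rw [h7]
          push_cast
          ring
        rw [h9]
        linarith
      have h10 : k * nm A ≤ (N : ℤ) * nm A := by exact_mod_cast h8
      exact le_of_mul_le_mul_right h10 hnm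
    obtain ⟨m, rfl⟩ := Int.eq_ofNat_of_zero_le (by omega : (0 : ℤ) ≤ k)
    rw [sum_eq_single m]
    · rw [if_pos hk]
    · intro n hn hnm'
      rw [if_neg]
      intro h8
      apply hnm'
      rw [hk] at h8
      have h9 : (((m : ℤ) : G)) * A = (((n : ℤ) : G)) * A := add_left_cancel h8
      have h10 := mul_right_cancel₀ hA h9
      have h11 : (m : ℤ) = (n : ℤ) := by exact_mod_cast h10
      omega
    · intro hm
      exfalso
      apply hm
      rw [mem_Icc]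
      omega
  · rw [if_neg hlt]
    symm
    apply sum_eq_zero
    intro n hn
    rw [mem_Icc] at hn
    rw [if_neg]
    intro h8
    apply hlt
    rw [h8, TailP.dot_add_mul]
    have : (0 : ℤ) < (n : ℤ) * nm A := by
      have : (0 : ℤ) < n := by omega
      positivity
    omega

theorem csN_nm_sub (V V' : G) : (nm (V - V') : ℤ) = nm V + nm V' - 2 * dot V V' := by
  rw [nm_eq, nm_eq, nm_eq]
  unfold dot
  rw [Zsqrtd.re_sub, Zsqrtd.im_sub]
  ring

theorem csN_nm_smul (n : ℤ) (A : G) : (nm ((n : G) * A) : ℤ) = n ^ 2 * nm A := by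
  rw [nm_eq, nm_eq, TailP.smul_re, TailP.smul_im]
  ring

theorem csN_Gm (f : ℕ → ℂ) (h : ℝ → ℝ) (h2 : ℝ) (hh2 : ∀ y, h2 ≤ y → h y = 0) (J N : ℕ) (hJ : 1 ≤ J)
    (hN : 1 ≤ N) (X : ℝ) (hX : 1 ≤ X) (x' : ℝ) (hx' : (J + N) ^ 2 * h2 * X + 1 ≤ x') (n : ℕ) (hn : 1 ≤ n) :
    ∑ A ∈ csA (h2 * X), ((h (nm A / X) ^ 2 : ℝ) : ℂ) * ∑ p ∈ csB J N A ×ˢ csB J N A,
      (if p.1 = p.2 + (((n : ℤ) : G)) * A then csF f J N A p else 0) = Gm f h J N n x' X := by
  classical
  have hX0 : (0 : ℝ) < X := by linarith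
  have hJ0 : (1 : ℝ) ≤ J := by exact_mod_cast hJ
  have hn0 : (1 : ℝ) ≤ n := by exact_mod_cast hn
  have hnz : (1 : ℤ) ≤ n := by exact_mod_cast hn
  set S : Finset ((_ : G) × (G × G)) := (csA (h2 * X)).sigma
    (fun A => (csB J N A ×ˢ csB J N A).filter (fun p => p.1 = p.2 + (((n : ℤ) : G)) * A)) with hS
  have h1 : ∑ A ∈ csA (h2 * X), ((h (nm A / X) ^ 2 : ℝ) : ℂ) * ∑ p ∈ csB J N A ×ˢ csB J N A,
      (if p.1 = p.2 + (((n : ℤ) : G)) * A then csF f J N A p else 0) =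
      ∑ a ∈ S, ((h (nm a.1 / X) ^ 2 : ℝ) : ℂ) * csF f J N a.1 a.2 := by
    rw [hS, sum_sigma]
    apply sum_congr rfl
    intro A _
    rw [mul_sum, sum_filter]
    apply sum_congr rfl
    intro p _
    split_ifs
    · rfl
    · rw [mul_zero]
  have hSmem : ∀ a : (_ : G) × (G × G), a ∈ S ↔ (a.1 ≠ 0 ∧ (nm a.1 : ℝ) ≤ h2 * X) ∧
      (a.2.1 ∈ csB J N a.1 ∧ a.2.2 ∈ csB J N a.1) ∧ a.2.1 = a.2.2 + (((n : ℤ) : G)) * a.1 := by
    intro a
    rw [hS, mem_sigma, csN_memA, mem_filter, mem_product]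
  -- facts about a triple
  have hfacts : ∀ A V V' : G, V = V' + (((n : ℤ) : G)) * A → A ≠ 0 →
      aN n (V, V') = nm A ∧ ((nm V : ℝ) - mE (V, V')) / (n * aN n (V, V')) =
        ((dot A V : ℤ) : ℝ) / nm A ∧ (mE (V, V') - (nm V' : ℝ)) / (n * aN n (V, V')) =
        ((dot A V' : ℤ) : ℝ) / nm A := by
    intro A V V' hV hA
    have hnm : (0 : ℝ) < nm A := by exact_mod_cast nm_pos hA
    have h3 : V - V' = (((n : ℤ) : G)) * A := by
      rw [hV]
      ring
    have h4 : (n : ℤ) ^ 2 * nm A = nm V + nm V' - 2 * dot V V' := by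
      rw [← csN_nm_smul, ← h3, csN_nm_sub]
    have h5 : (n : ℝ) ^ 2 * nm A = nm V + nm V' - 2 * ((dot V V' : ℤ) : ℝ) := by exact_mod_cast h4
    have h6 : aN n (V, V') = nm A := by
      unfold aN mE
      rw [div_eq_iff (by positivity)]
      show (nm V : ℝ) + nm V' - 2 * ((dot V V' : ℤ) : ℝ) = nm A * (n : ℝ) ^ 2
      rw [← h5]
      ring
    have h7 : (n : ℤ) * dot A V = nm V - dot V V' := by
      rw [nm_eq, hV]
      unfold dot
      rw [Zsqrtd.re_add, Zsqrtd.im_add, TailP.smul_re, TailP.smul_im]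
      ring
    have h8 : (n : ℤ) * dot A V' = dot V V' - nm V' := by
      rw [nm_eq, hV]
      unfold dot
      rw [Zsqrtd.re_add, Zsqrtd.im_add, TailP.smul_re, TailP.smul_im]
      ring
    have h9 : (n : ℝ) * ((dot A V : ℤ) : ℝ) = nm V - ((dot V V' : ℤ) : ℝ) := by exact_mod_cast h7
    have h10 : (n : ℝ) * ((dot A V' : ℤ) : ℝ) = ((dot V V' : ℤ) : ℝ) - nm V' := by exact_mod_cast h8
    refine ⟨h6, ?_, ?_⟩
    · rw [h6]
      unfold mE
      show ((nm V : ℝ) - ((dot V V' : ℤ) : ℝ)) / (n * nm A) = _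
      rw [← h9]
      field_simp
    · rw [h6]
      unfold mE
      show (((dot V V' : ℤ) : ℝ) - (nm V' : ℝ)) / (n * nm A) = _
      rw [← h10]
      field_simp
  rw [h1]
  unfold Gm
  apply sum_bij_ne_zero (fun a _ _ => a.2)
  · rintro ⟨A, B, B'⟩ ha _
    rw [hSmem] at ha
    obtain ⟨⟨hA, hAX⟩, ⟨hB, hB'⟩, hBB⟩ := ha
    simp only at hA hAX hB hB' hBB
    have hb := csN_mem.1 hB
    have hb' := csN_mem.1 hB'
    have hnm : (1 : ℝ) ≤ nm A := csN_nm_pos hb.1
    rw [mem_filter, mem_EN (by omega)]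
    have hdetB : det B B' = n := by
      have := hb'.1
      rw [hBB]
      unfold det at this ⊢
      rw [Zsqrtd.re_add, Zsqrtd.im_add, TailP.smul_re, TailP.smul_im]
      linear_combination (n : ℤ) * this
    have hdotB : dot B B' = nm B' + n * dot A B' := by
      rw [hBB, nm_eq]
      unfold dot
      rw [Zsqrtd.re_add, Zsqrtd.im_add, TailP.smul_re, TailP.smul_im]
      ring
    have hdot' : (0 : ℝ) < ((dot A B' : ℤ) : ℝ) := by nlinarith [hb'.2.1]
    have hdot'' : (0 : ℤ) < dot A B' := by exact_mod_cast hdot'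
    have hdot : (0 : ℝ) < ((dot A B : ℤ) : ℝ) := by nlinarith [hb.2.1]
    have hnB' : (0 : ℤ) ≤ nm B' := Int.natCast_nonneg _
    have hcg : cg n B' B := by
      unfold cg
      rw [hBB, Zsqrtd.re_add, Zsqrtd.im_add, TailP.smul_re, TailP.smul_im]
      constructor
      · exact ⟨-A.re, by ring⟩
      · exact ⟨-A.im, by ring⟩
    refine ⟨⟨⟨hdetB, ?_, (csN_prim hb.1).2, ⟨1, isCoprime_one_left, ?_⟩⟩, ?_⟩, hcg⟩
    · show 0 < dot B B'
      rw [hdotB]
      have : (0 : ℤ) < n * dot A B' := by positivity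
      omega
    · show cg n B' (((1 : ℤ) : G) * B)
      rw [Int.cast_one, one_mul]
      exact hcg
    · unfold mE
      show ((dot B B' : ℤ) : ℝ) ≤ x'
      have h3 := csN_nm_le hb.1 hdot.le hb.2.2
      have h4 := csN_nm_le hb'.1 hdot'.le hb'.2.2
      have h5 := csN_nm_sub B B'
      have h6 : (0 : ℤ) ≤ nm (B - B') := Int.natCast_nonneg _
      have h7 : 2 * dot B B' ≤ (nm B : ℤ) + nm B' := by omega
      have h8 : 2 * ((dot B B' : ℤ) : ℝ) ≤ (nm B : ℝ) + nm B' := by exact_mod_cast h7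
      have h9 : ((J : ℝ) + N) ^ 2 * nm A ≤ ((J : ℝ) + N) ^ 2 * (h2 * X) :=
        mul_le_mul_of_nonneg_left hAX (by positivity)
      nlinarith
  · rintro ⟨A, B, B'⟩ ha _ ⟨A₂, B₂, B₂'⟩ ha₂ _ heq
    rw [hSmem] at ha ha₂
    have h3 : (B, B') = (B₂, B₂') := heq
    rw [Prod.mk.injEq] at h3
    obtain ⟨rfl, rfl⟩ := h3
    have h4 : (((n : ℤ) : G)) * A = (((n : ℤ) : G)) * A₂ := by
      have h5 := ha.2.2
      have h6 := ha₂.2.2
      simp only at h5 h6
      rw [h5] at h6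
      exact add_left_cancel h6
    have h5 : ((n : ℤ) : G) ≠ 0 := by
      intro h0
      have : (n : ℤ) = 0 := by exact_mod_cast h0
      omega
    have h6 : A = A₂ := mul_left_cancel₀ h5 h4
    rw [h6]
  · rintro ⟨V, V'⟩ he hne
    rw [mem_filter, mem_EN (by omega)] at he
    obtain ⟨⟨⟨hdet, hdot, hprim, _⟩, _⟩, hcg⟩ := he
    simp only at hdet hdot hprim hcg
    obtain ⟨⟨a, ha⟩, ⟨b, hb⟩⟩ := hcg
    set A : G := ⟨-a, -b⟩ with hAdef
    have hV : V = V' + (((n : ℤ) : G)) * A := by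
      apply Zsqrtd.ext
      · rw [Zsqrtd.re_add, TailP.smul_re, hAdef]
        simp only
        linarith
      · rw [Zsqrtd.im_add, TailP.smul_im, hAdef]
        simp only
        linarith
    have hdetn' : det V V' = (n : ℤ) * det A V' := by
      rw [hV]
      unfold det
      rw [Zsqrtd.re_add, Zsqrtd.im_add, TailP.smul_re, TailP.smul_im]
      ring
    have hdetn : (n : ℤ) * det A V' = n := by rw [← hdetn', hdet]
    have hdet1 : det A V' = 1 := by
      have h3 : (n : ℤ) * det A V' = n * 1 := by rw [hdetn, mul_one]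
      exact mul_left_cancel₀ (by omega) h3
    have hdet2 : det A V = 1 := by
      rw [← hdet1, hV]
      unfold det
      rw [Zsqrtd.re_add, Zsqrtd.im_add, TailP.smul_re, TailP.smul_im]
      ring
    have hA := csN_ne_zero hdet1
    have hnm := csN_nm_pos hdet1
    obtain ⟨h3, h4, h5⟩ := hfacts A V V' hV hA
    have hw : wN h J N n X (V, V') ≠ 0 := by
      intro h0
      apply hne
      rw [h0]
      simp
    unfold wN at hw
    simp only at hw
    rw [h4, h5, h3] at hw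
    have hw1 : h (nm A / X) ≠ 0 := by
      intro h0
      apply hw
      rw [h0]
      ring
    have hw2 : rho J N (((dot A V : ℤ) : ℝ) / nm A) ≠ 0 := by
      intro h0
      apply hw
      rw [h0]
      ring
    have hw3 : rho J N (((dot A V' : ℤ) : ℝ) / nm A) ≠ 0 := by
      intro h0
      apply hw
      rw [h0]
      ring
    have h6 : (nm A : ℝ) / X < h2 := by
      by_contra hc
      push Not at hc
      exact hw1 (hh2 _ hc)
    rw [div_lt_iff₀ hX0] at h6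
    have h7 := csN_rho_ne hN hw2
    have h8 := csN_rho_ne hN hw3
    rw [le_div_iff₀ (by linarith), div_le_iff₀ (by linarith)] at h7 h8
    refine ⟨⟨A, V, V'⟩, ?_, ?_, rfl⟩
    · rw [hSmem]
      exact ⟨⟨hA, h6.le⟩, ⟨csN_mem.2 ⟨hdet2, h7.1, h7.2⟩, csN_mem.2 ⟨hdet1, h8.1, h8.2⟩⟩, hV⟩
    · have h9 : f (nm V) ≠ 0 := by
        intro h0
        apply hne
        rw [h0]
        simp
      have h10 : (starRingEnd ℂ) (f (nm V')) ≠ 0 := by
        intro h0
        apply hne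
        rw [h0]
        simp
      unfold csF
      refine mul_ne_zero ?_ (mul_ne_zero (mul_ne_zero h9 h10) ?_)
      · exact_mod_cast pow_ne_zero 2 hw1
      · exact_mod_cast mul_ne_zero hw2 hw3
  · rintro ⟨A, B, B'⟩ ha _
    rw [hSmem] at ha
    obtain ⟨⟨hA, hAX⟩, ⟨hB, hB'⟩, hBB⟩ := ha
    simp only at hA hAX hB hB' hBB
    obtain ⟨h3, h4, h5⟩ := hfacts A B B' hBB hA
    unfold csF wN
    simp only
    rw [h4, h5, h3]
    push_cast
    ring

/-- PROOF. Only `e = (A, B)` with `h (nm A / X) ≠ 0` (so `nm A < h2 X`) and `rho J N (dot / nm A) ≠ 0` (so `J ≤ dot A B / nm A ≤ J + N`) contribute, and all pairs with `det A B = 1` with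
these two properties lie in `EN 1 x` (`0 < dot`, `A` primitive, `c = 1`: everything is congruent modulo 1; `dot ≤ (J + N) h2 X ≤ x`). So
`S = ∑_A f(nm A) h(nm A / X) T_A`, `T_A = ∑_(B : det A B = 1) f(nm B) rho (dot A B / nm A)`, `A ≠ 0` in a set of at most `9 h2 X` elements (`ball_sub`). Cauchy-Schwarz:
`‖S‖^2 ≤ 9 h2 X ∑_A h(nm A/X)^2 ‖T_A‖^2`, and `‖T_A‖^2 = ∑_(B, B')`: the diagonal is at most the number of `B`, `≤ N + 1` (`edges_fixed` / `line_count`), total `≤ 9 h2 X (N + 1)`.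
Off the diagonal, `B = B' + n A` or `B' = B + n A` with `n ≥ 1` (`diff_mul` of Tail.lean) and `n ≤ N` (both quotients in `[J, J + N]`, `dot A (B' + n A) = dot A B' + n nm A`); the two parts are complex
conjugates, so they add up to `2 Re`. For fixed `n`: `(A, B, B')` with `B = B' + n A` corresponds to `e = (V, V') = (B, B')`, `det B B' = n det A B' = n`,
`dot B B' = nm B' + n dot A B' > 0`, `B` primitive (`det A B = 1`), `V' = V mod n`, so `e ∈ EN n x'` with `cg n e.2 e.1` (`dot B B' ≤ (nm B + nm B')/2`, `nm B nm A = dot^2 + 1`, `nm A ≥ 1`, so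
`nm B ≤ (J + N)^2 h2 X + 1`); conversely `e ∈ EN n` with `cg n e.2 e.1` gives `A = (V - V')/n` with `det A V' = 1`, `det A V = 1`; the weights agree: `n^2 nm A = nm V + nm V' - 2 dot`,
`n dot A V = nm V - dot V V'`, `n dot A V' = dot V V' - nm V'`, and if the weight is not zero then `dot A V' > 0`, ... So `∑_A h^2 (off-diagonal with n) = Gm n`. -/
theorem csN (f : ℕ → ℂ) (hf : ∀ n, ‖f n‖ ≤ 1) (h : ℝ → ℝ) (hh0 : ∀ y, 0 ≤ h y) (hh1 : ∀ y, h y ≤ 1) (h2 : ℝ)
    (hh2 : ∀ y, h2 ≤ y → h y = 0) (J N : ℕ) (hJ : 1 ≤ J) (hN : 1 ≤ N) (X : ℝ) (hX : 1 ≤ X) (hh2' : 1 ≤ h2) (x x' : ℝ)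
    (hx : (J + N) * h2 * X ≤ x) (hx' : (J + N) ^ 2 * h2 * X + 1 ≤ x') :
    ‖SX f h J N x X‖ ^ 2 ≤ 9 * h2 * X * (9 * h2 * X * (N + 1) + 2 * ‖∑ n ∈ Icc 1 N, Gm f h J N n x' X‖) := by
  classical
  have hX0 : (0 : ℝ) < X := by linarith
  have hY0 : (0 : ℝ) ≤ h2 * X := by positivity
  set 𝒜 := csA (h2 * X) with h𝒜
  have hcardA : (𝒜.card : ℝ) ≤ 9 * (h2 * X) := csN_cardA hY0
  rw [csN_SX f h h2 hh2 J N hJ hN X hX x hx]
  -- the sum of the squares
  set Q : ℝ := ∑ A ∈ 𝒜, h (nm A / X) ^ 2 * ‖csT f J N A‖ ^ 2 with hQ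
  have h1 : ‖∑ A ∈ 𝒜, f (nm A) * ((h (nm A / X) : ℝ) : ℂ) * csT f J N A‖ ^ 2 ≤ 9 * h2 * X * Q := by
    have h3 : ‖∑ A ∈ 𝒜, f (nm A) * ((h (nm A / X) : ℝ) : ℂ) * csT f J N A‖ ≤
        ∑ A ∈ 𝒜, h (nm A / X) * ‖csT f J N A‖ := by
      apply norm_sum_le_of_le
      intro A _
      rw [norm_mul, norm_mul, Complex.norm_real, Real.norm_eq_abs, abs_of_nonneg (hh0 _)]
      have h4 := hf (nm A)
      have h5 := hh0 (nm A / X)
      have h6 := norm_nonneg (csT f J N A)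
      calc ‖f (nm A)‖ * h (nm A / X) * ‖csT f J N A‖ ≤ 1 * h (nm A / X) * ‖csT f J N A‖ := by gcongr
        _ = _ := by ring
    have h4 : (∑ A ∈ 𝒜, h (nm A / X) * ‖csT f J N A‖) ^ 2 ≤
        𝒜.card * ∑ A ∈ 𝒜, (h (nm A / X) * ‖csT f J N A‖) ^ 2 := sq_sum_le_card_mul_sum_sq
    have h5 : ∑ A ∈ 𝒜, (h (nm A / X) * ‖csT f J N A‖) ^ 2 = Q := by
      rw [hQ]
      apply sum_congr rfl
      intro A _
      ring
    have hQ0 : 0 ≤ Q := by
      rw [hQ]
      apply sum_nonneg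
      intro A _
      positivity
    calc ‖∑ A ∈ 𝒜, f (nm A) * ((h (nm A / X) : ℝ) : ℂ) * csT f J N A‖ ^ 2
        ≤ (∑ A ∈ 𝒜, h (nm A / X) * ‖csT f J N A‖) ^ 2 := pow_le_pow_left₀ (norm_nonneg _) h3 2
      _ ≤ 𝒜.card * Q := by rw [← h5]; exact h4
      _ ≤ 9 * (h2 * X) * Q := mul_le_mul_of_nonneg_right hcardA hQ0
      _ = 9 * h2 * X * Q := by ring
  refine h1.trans ?_
  apply mul_le_mul_of_nonneg_left _ (by positivity)
  -- expansion of the squares
  set D : ℂ := ∑ A ∈ 𝒜, ((h (nm A / X) ^ 2 : ℝ) : ℂ) * ∑ B ∈ csB J N A, csF f J N A (B, B) with hD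
  set U : ℂ := ∑ A ∈ 𝒜, ((h (nm A / X) ^ 2 : ℝ) : ℂ) * csU f J N A with hU
  have h3 : ((Q : ℝ) : ℂ) = D + U + (starRingEnd ℂ) U := by
    rw [hQ, hD, hU, map_sum, ← sum_add_distrib, ← sum_add_distrib]
    push_cast
    apply sum_congr rfl
    intro A _
    have h4 : ((‖csT f J N A‖ : ℝ) : ℂ) ^ 2 = csT f J N A * (starRingEnd ℂ) (csT f J N A) := by
      rw [Complex.mul_conj, Complex.normSq_eq_norm_sq]
      push_cast
      rfl
    rw [h4, csN_TT, map_mul, map_pow, Complex.conj_ofReal]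
    ring
  have hUG : U = ∑ n ∈ Icc 1 N, Gm f h J N n x' X := by
    rw [hU]
    have h4 : ∀ A ∈ 𝒜, ((h (nm A / X) ^ 2 : ℝ) : ℂ) * csU f J N A =
        ∑ n ∈ Icc 1 N, ((h (nm A / X) ^ 2 : ℝ) : ℂ) * ∑ p ∈ csB J N A ×ˢ csB J N A,
          (if p.1 = p.2 + (((n : ℤ) : G)) * A then csF f J N A p else 0) := by
      intro A _
      rw [csN_U, mul_sum]
    rw [sum_congr rfl h4, sum_comm]
    apply sum_congr rfl
    intro n hn
    rw [mem_Icc] at hn
    exact csN_Gm f h h2 hh2 J N hJ hN X hX x' hx' n hn.1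
  have hDle : ‖D‖ ≤ 9 * h2 * X * (N + 1) := by
    rw [hD]
    have h4 : ‖∑ A ∈ 𝒜, ((h (nm A / X) ^ 2 : ℝ) : ℂ) * ∑ B ∈ csB J N A, csF f J N A (B, B)‖ ≤
        ∑ _A ∈ 𝒜, ((N : ℝ) + 1) := by
      apply norm_sum_le_of_le
      intro A hA
      rw [h𝒜, csN_memA] at hA
      rw [norm_mul, Complex.norm_real, Real.norm_eq_abs, abs_of_nonneg (sq_nonneg _)]
      have h5 : ‖∑ B ∈ csB J N A, csF f J N A (B, B)‖ ≤ ∑ _B ∈ csB J N A, (1 : ℝ) := by
        apply norm_sum_le_of_le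
        intro B _
        unfold csF
        rw [norm_mul, norm_mul, Complex.norm_real, RCLike.norm_conj, Real.norm_eq_abs]
        have h6 := hf (nm B)
        have h7 := csN_rho_nonneg J N (((dot A B : ℤ) : ℝ) / nm A)
        have h8 := csN_rho_le J N (((dot A B : ℤ) : ℝ) / nm A)
        simp only
        rw [abs_of_nonneg (mul_nonneg h7 h7)]
        calc ‖f (nm B)‖ * ‖f (nm B)‖ * (rho J N (((dot A B : ℤ) : ℝ) / nm A) *
              rho J N (((dot A B : ℤ) : ℝ) / nm A)) ≤ 1 * 1 * (1 * 1) := by gcongr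
          _ = 1 := by norm_num
      rw [sum_const, nsmul_eq_mul, mul_one] at h5
      have h6 : h (nm A / X) ^ 2 ≤ 1 := by
        have h7 := hh0 (nm A / X)
        have h8 := hh1 (nm A / X)
        nlinarith
      calc h (nm A / X) ^ 2 * ‖∑ B ∈ csB J N A, csF f J N A (B, B)‖
          ≤ 1 * ((N : ℝ) + 1) := by
            apply mul_le_mul h6 (h5.trans (csN_card hA.1)) (norm_nonneg _) zero_le_one
        _ = (N : ℝ) + 1 := one_mul _
    rw [sum_const, nsmul_eq_mul] at h4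
    calc _ ≤ (𝒜.card : ℝ) * ((N : ℝ) + 1) := h4
      _ ≤ 9 * (h2 * X) * ((N : ℝ) + 1) := by
        apply mul_le_mul_of_nonneg_right hcardA
        positivity
      _ = _ := by ring
  have h4 : Q = D.re + 2 * U.re := by
    have h5 := congrArg Complex.re h3
    rw [Complex.ofReal_re, Complex.add_re, Complex.add_re, Complex.conj_re] at h5
    linarith
  rw [h4, ← hUG]
  have h5 := Complex.re_le_norm D
  have h6 := Complex.re_le_norm U
  linarith

end Pool.Agent.OmEq
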