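import Pool.Agent.Lib_MP_f1a94e_eq.Tog

/-!
# Piece CLS: the class of a pair
-/

set_option autoImplicit false

namespace Pool.Agent.OmEq

open Finset Pool.Agent.GaussMR Pool.Agent.OmAll

open Classical in
/-- the class `c mod n` with `V' = c V mod n` -/
noncomputable def cl (n : ℕ) (e : G × G) : ZMod n :=
  if h : ∃ c : ℤ, IsCoprime c (n : ℤ) ∧ cg n e.2 ((c : G) * e.1) then ((Classical.choose h : ℤ) : ZMod n) else 0

theorem cls_mul (c : ℤ) (V : G) : ((c : G) * V).re = c * V.re ∧ ((c : G) * V).im = c * V.im := by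
  constructor <;> simp

/-- two multiples of a primitive vector that agree modulo `M` have factors that agree modulo `M` -/
theorem cls_dvd {M : ℕ} {V : G} (hV : Prim V) {a b : ℤ} (h : cg M ((a : G) * V) ((b : G) * V)) :
    (M : ℤ) ∣ a - b := by
  obtain ⟨h1, h2⟩ := h
  rw [(cls_mul a V).1, (cls_mul b V).1] at h1
  rw [(cls_mul a V).2, (cls_mul b V).2] at h2
  obtain ⟨u, v, huv⟩ := hV
  have e : a - b = (a * V.re - b * V.re) * u + (a * V.im - b * V.im) * v := by
    linear_combination (b - a) * huv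
  rw [e]
  exact dvd_add (h1.mul_right _) (h2.mul_right _)

theorem cls_cg {M : ℕ} (V : G) {a b : ℤ} (h : (M : ℤ) ∣ a - b) : cg M ((a : G) * V) ((b : G) * V) := by
  constructor
  · rw [(cls_mul a V).1, (cls_mul b V).1, ← sub_mul]
    exact h.mul_right _
  · rw [(cls_mul a V).2, (cls_mul b V).2, ← sub_mul]
    exact h.mul_right _

/-- PROOF. Let `c'` be the chosen integer (`En n e` gives existence). `n ∣ (c - c') e.1.re` and `n ∣ (c - c') e.1.im`, and `e.1` is primitive
(`a e.1.re + b e.1.im = 1`), so `n ∣ c - c'`: `ZMod.intCast_eq_intCast_iff_dvd_sub`. -/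
theorem cl_eq {n : ℕ} {e : G × G} (he : En n e) {c : ℤ} (hc : cg n e.2 ((c : G) * e.1)) : cl n e = (c : ZMod n) := by
  classical
  have h := he.2.2.2
  have h1 := (Classical.choose_spec h).2
  unfold cl
  rw [dif_pos h, ZMod.intCast_eq_intCast_iff_dvd_sub]
  exact cls_dvd he.2.2.1 (cg_trans (cg_symm hc) h1)

/-- from `cl_eq` and `IsCoprime` -/
theorem cl_unit {n : ℕ} {e : G × G} (he : En n e) : IsUnit (cl n e) := by
  obtain ⟨c, hc, hcg⟩ := he.2.2.2
  rw [cl_eq he hcg]
  obtain ⟨a, b, hab⟩ := hc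
  have h1 : ((a * c + b * n : ℤ) : ZMod n) = ((1 : ℤ) : ZMod n) := by rw [hab]
  push_cast at h1
  rw [ZMod.natCast_self, mul_zero, add_zero] at h1
  exact IsUnit.of_mul_eq_one (a : ZMod n) (by rw [mul_comm]; exact h1)

/-- PROOF. `cg n e.2 e.1` iff `cg n e.2 (1 * e.1)`; if `cl n e = 1` then for `c` from `En n e`, `(c : ZMod n) = 1`, `n ∣ c - 1`, and `cg n e.2 (c e.1)`. -/
theorem cl_one {n : ℕ} {e : G × G} (he : En n e) : cl n e = 1 ↔ cg n e.2 e.1 := by
  have h1 : ((1 : ℤ) : G) * e.1 = e.1 := by rw [Int.cast_one, one_mul]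
  constructor
  · intro h
    obtain ⟨c, hc, hcg⟩ := he.2.2.2
    rw [cl_eq he hcg, ← Int.cast_one, ZMod.intCast_eq_intCast_iff_dvd_sub] at h
    have h2 := cls_cg e.1 h
    rw [h1] at h2
    exact cg_trans hcg (cg_symm h2)
  · intro h
    have h2 : cg n e.2 (((1 : ℤ) : G) * e.1) := by rw [h1]; exact h
    rw [cl_eq he h2, Int.cast_one]

/-- PROOF. The pair `(U, star γ W)`: `det (U, star γ W) = det (γ U, W) = n` and the same for `dot` (`star (γ U) * W = star U * (star γ * W)`, `star_mul_eq`), `U` is primitive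
(`prim_of_mul`), and from `W = c γ U mod n`: `star γ W = c (star γ * γ) U = c p U mod n`, `p = nm γ` coprime to `n`. (`toggle` in piece TOG contains the same computation.) -/
theorem En_move {n : ℕ} {γ U W : G} (hp : (nm γ).Prime) (hn : (nm γ).Coprime n) (he : En n (γ * U, W)) :
    En n (U, star γ * W) ∧ cl n (U, star γ * W) = (nm γ : ZMod n) * cl n (γ * U, W) := by
  have he0 := he
  obtain ⟨h1, h2, h3, c, hc, hcg⟩ := he
  simp only at h1 h2 h3 hcg
  have hcg2 : cg n (star γ * W) (((c * nm γ : ℤ) : G) * U) := by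
    rw [tog_cg] at hcg ⊢
    have h7 : star γ * W - ((c * nm γ : ℤ) : G) * U = (W - (c : G) * (γ * U)) * star γ := by
      have h8 : (W - (c : G) * (γ * U)) * star γ = star γ * W - (c : G) * (γ * star γ) * U := by
        ring
      rw [h8, tog_mul_star]
      push_cast
      ring
    rw [h7]
    exact Dvd.dvd.mul_right hcg _
  have hE : En n (U, star γ * W) := by
    refine ⟨?_, ?_, ?_, ?_⟩
    · show det U (star γ * W) = n
      rw [← tog_det.1]
      exact h1
    · show 0 < dot U (star γ * W)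
      rw [← tog_det.2]
      exact h2
    · show Prim U
      exact (prim_of_mul h3).2
    · exact ⟨c * nm γ, IsCoprime.mul_left hc (Nat.isCoprime_iff_coprime.2 hn), hcg2⟩
  refine ⟨hE, ?_⟩
  rw [cl_eq hE hcg2, cl_eq he0 hcg]
  push_cast
  ring

/-- for a multiple `n` of `M` the class modulo `M` is the reduction: `cg M e.2 e.1` iff the class is `1` modulo `M`. PROOF. As `cl_one`: with `c` from `En n e`,
`cg M e.2 (c e.1)`, and `cg M (c e.1) e.1` iff `M ∣ c - 1` (`e.1` primitive). -/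
theorem cl_cast {n M : ℕ} (hM : M ∣ n) {e : G × G} (he : En n e) : (ZMod.castHom hM (ZMod M)) (cl n e) = 1 ↔ cg M e.2 e.1 := by
  obtain ⟨c, hc, hcg⟩ := he.2.2.2
  have h1 : ((1 : ℤ) : G) * e.1 = e.1 := by rw [Int.cast_one, one_mul]
  have hcgM := cg_mono hM hcg
  rw [cl_eq he hcg, map_intCast]
  constructor
  · intro h
    rw [← Int.cast_one, ZMod.intCast_eq_intCast_iff_dvd_sub] at h
    have h2 := cls_cg e.1 h
    rw [h1] at h2
    exact cg_trans hcgM (cg_symm h2)
  · intro h
    have h2 : cg M ((c : G) * e.1) (((1 : ℤ) : G) * e.1) := by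
      rw [h1]
      exact cg_trans (cg_symm hcgM) h
    have h3 := cls_dvd he.2.2.1 h2
    rw [← Int.cast_one, ZMod.intCast_eq_intCast_iff_dvd_sub, ← neg_sub]
    exact (dvd_neg).2 h3

end Pool.Agent.OmEq
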