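import Pool.Agent.Lib_MP_f1a94e_eq.Conv
import Pool.Agent.Lib_MP_f1a94e_mr.StepB

/-!
# From factorisations to the integers `m`
-/

set_option autoImplicit false

namespace Pool.Agent.OmEq

open Finset Pool.Agent.GaussMR Pool.Agent.OmAll Filter

/-- the set of `d` counted by `tx` is finite -/
theorem tx_fin (X : ℝ) (m : ℕ) :
    {d : ℕ | d ∣ m ^ 2 + 1 ∧ (d : ℝ) ≤ X ∧ ((m ^ 2 + 1 : ℕ) : ℝ) ≤ X * d}.Finite := by
  refine (Set.finite_Iic (m ^ 2 + 1)).subset (fun d hd => ?_)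
  exact Nat.le_of_dvd (by positivity) hd.1

open Classical in
/-- the factorisations over a set of `m` -/
theorem FS_le_tx (α β x X : ℝ) (hα : 0 < α) (hβ : 0 < β) (hx : 1 ≤ x) (hX : x ≤ X) (hXα : 2 * x ^ 2 ≤ α * X ^ 2)
    (hXβ : 2 * β * x ^ 2 ≤ X ^ 2) (P : ℕ × ℕ → Prop) (B : Finset ℕ)
    (hB : ∀ m : ℕ, 1 ≤ m → (m : ℝ) ≤ x → (∃ d e : ℕ, d * e = m ^ 2 + 1 ∧ (α * d ≤ e ∧ (e : ℝ) ≤ β * d) ∧ P (d, e)) →
      m ∈ B) :
    ((FS α β x P).ncard : ℝ) ≤ ∑ m ∈ B, (tx X m : ℝ) := by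
  have hX0 : 0 ≤ X := by linarith
  set D : ℕ → Finset ℕ := fun m => (tx_fin X m).toFinset with hD
  have hDc : ∀ m, (D m).card = tx X m := by
    intro m
    unfold tx
    rw [Set.ncard_eq_toFinset_card _ (tx_fin X m)]
  set F : Finset (Σ _ : ℕ, ℕ) := B.sigma D with hF
  set f : (Σ _ : ℕ, ℕ) → ℕ × ℕ := fun s => (s.2, (s.1 ^ 2 + 1) / s.2) with hf
  have hsub : FS α β x P ⊆ ((F.image f : Finset (ℕ × ℕ)) : Set (ℕ × ℕ)) := by
    rintro ⟨d, e⟩ ⟨⟨m, hm1, hmx, hde⟩, ⟨h1, h2⟩, hP⟩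
    simp only at hde h1 h2
    have hd0 : 0 < d := by
      rcases Nat.eq_zero_or_pos d with h | h
      · rw [h] at hde; simp at hde
      · exact h
    have he0 : 0 < e := by
      rcases Nat.eq_zero_or_pos e with h | h
      · rw [h] at hde; simp at hde
      · exact h
    have hd' : (0 : ℝ) < d := by exact_mod_cast hd0
    have he' : (0 : ℝ) < e := by exact_mod_cast he0
    have hder : (d : ℝ) * e = (m : ℝ) ^ 2 + 1 := by exact_mod_cast hde
    have hm0 : (0 : ℝ) ≤ m := Nat.cast_nonneg m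
    have hmx2 : (m : ℝ) ^ 2 + 1 ≤ 2 * x ^ 2 := by nlinarith
    have hdX : (d : ℝ) ≤ X := by
      have h3 : α * (d : ℝ) ^ 2 ≤ α * X ^ 2 := by
        calc α * (d : ℝ) ^ 2 = d * (α * d) := by ring
          _ ≤ d * e := by gcongr
          _ ≤ 2 * x ^ 2 := by rw [hder]; exact hmx2
          _ ≤ α * X ^ 2 := hXα
      have h4 : (d : ℝ) ^ 2 ≤ X ^ 2 := le_of_mul_le_mul_left h3 hα
      exact (sq_le_sq₀ hd'.le hX0).1 h4
    have heX : (e : ℝ) ≤ X := by
      have h3 : (e : ℝ) ^ 2 ≤ X ^ 2 := by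
        calc (e : ℝ) ^ 2 = e * e := by ring
          _ ≤ (β * d) * e := by gcongr
          _ = β * (d * e) := by ring
          _ ≤ β * (2 * x ^ 2) := by rw [hder]; gcongr
          _ = 2 * β * x ^ 2 := by ring
          _ ≤ X ^ 2 := hXβ
      exact (sq_le_sq₀ he'.le hX0).1 h3
    have hdiv : (m ^ 2 + 1) / d = e := by
      rw [← hde]; exact Nat.mul_div_cancel_left e hd0
    rw [Finset.mem_coe, Finset.mem_image]
    refine ⟨⟨m, d⟩, ?_, ?_⟩
    · rw [hF, Finset.mem_sigma]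
      refine ⟨hB m hm1 hmx ⟨d, e, hde, ⟨h1, h2⟩, hP⟩, ?_⟩
      simp only [hD]
      rw [Set.Finite.mem_toFinset]
      refine ⟨Dvd.intro _ hde, hdX, ?_⟩
      push_cast
      rw [← hder, mul_comm]
      gcongr
    · simp only [hf, hdiv]
  have h1 := Set.ncard_le_ncard hsub (Finset.finite_toSet _)
  rw [Set.ncard_coe_finset] at h1
  have h2 : (F.image f).card ≤ F.card := Finset.card_image_le
  have h3 : F.card = ∑ m ∈ B, tx X m := by
    rw [hF, Finset.card_sigma]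
    exact Finset.sum_congr rfl (fun m _ => hDc m)
  have h4 : (FS α β x P).ncard ≤ ∑ m ∈ B, tx X m := by
    rw [← h3]
    exact h1.trans h2
  exact_mod_cast h4

open Classical in
/-- many `m` -/
theorem many_m (α β : ℝ) (hα : 0 < α) (hβ : 0 < β) (P : ℕ × ℕ → Prop) (c x0 : ℝ) (hc : 0 < c)
    (h : ∀ x : ℝ, x0 ≤ x → c * x ≤ ((FS α β x P).ncard : ℝ))
    (hev : ∀ m d e : ℕ, d * e = m ^ 2 + 1 → P (d, e) → Even m) (A : ℝ) (hA : Real.log 2 < A) :
    ∃ x1 : ℝ, ∀ x : ℝ, x1 ≤ x → x / Real.log x ^ A ≤ (Set.ncard {m : ℕ | (m : ℝ) ≤ x ∧ Even m ∧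
      ∃ d e : ℕ, d * e = m ^ 2 + 1 ∧ (α * d ≤ e ∧ (e : ℝ) ≤ β * d) ∧ P (d, e)} : ℝ) := by
  obtain ⟨e', he1, he2⟩ := exists_between hA
  have hl2 : 0 < Real.log 2 := Real.log_pos (by norm_num)
  obtain ⟨d', C, hd, hC, hstep⟩ := stepB e' he1
  -- the constant
  obtain ⟨K, hK1, hKα, hKβ⟩ : ∃ K : ℝ, 1 ≤ K ∧ 2 ≤ α * K ^ 2 ∧ 2 * β ≤ K ^ 2 := by
    refine ⟨1 + 2 / α + 2 * β, ?_, ?_, ?_⟩
    · have : 0 < 2 / α := by positivity
      linarith
    · have h1 : 0 < 2 / α := by positivity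
      have h2 : α * (2 / α) = 2 := by field_simp
      have h3 : (2 / α) * 1 ≤ (1 + 2 / α + 2 * β) * (1 + 2 / α + 2 * β) := by gcongr <;> linarith
      calc 2 = α * ((2 / α) * 1) := by rw [mul_one, h2]
        _ ≤ α * ((1 + 2 / α + 2 * β) * (1 + 2 / α + 2 * β)) := by gcongr
        _ = α * (1 + 2 / α + 2 * β) ^ 2 := by ring
    · have h1 : 0 < 2 / α := by positivity
      have h3 : (2 * β) * 1 ≤ (1 + 2 / α + 2 * β) * (1 + 2 / α + 2 * β) := by gcongr <;> linarith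
      nlinarith
  have hlim : Tendsto (fun x : ℝ => Real.log (K * x) ^ d') atTop atTop :=
    (tendsto_rpow_atTop hd).comp (Real.tendsto_log_atTop.comp (tendsto_id.const_mul_atTop (by linarith)))
  obtain ⟨x2, hx2⟩ := eventually_atTop.mp (hlim.eventually_gt_atTop (C * K / c))
  have hlim2 : Tendsto (fun x : ℝ => Real.log x ^ (A - e')) atTop atTop :=
    (tendsto_rpow_atTop (by linarith : 0 < A - e')).comp Real.tendsto_log_atTop
  obtain ⟨x3, hx3⟩ := eventually_atTop.mp (hlim2.eventually_ge_atTop ((2 : ℝ) ^ e'))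
  refine ⟨max x0 (max x2 (max x3 (max 3 K))), ?_⟩
  intro x hx
  have hxx0 : x0 ≤ x := (le_max_left _ _).trans hx
  have hxx2 : x2 ≤ x := ((le_max_left _ _).trans (le_max_right _ _)).trans hx
  have hxx3 : x3 ≤ x := (((le_max_left _ _).trans (le_max_right _ _)).trans (le_max_right _ _)).trans hx
  have hx3' : 3 ≤ x :=
    ((((le_max_left _ _).trans (le_max_right _ _)).trans (le_max_right _ _)).trans (le_max_right _ _)).trans hx
  have hxK : K ≤ x :=
    ((((le_max_right _ _).trans (le_max_right _ _)).trans (le_max_right _ _)).trans (le_max_right _ _)).trans hx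
  by_contra hcon
  push Not at hcon
  set S : Set ℕ := {m : ℕ | (m : ℝ) ≤ x ∧ Even m ∧
      ∃ d e : ℕ, d * e = m ^ 2 + 1 ∧ (α * d ≤ e ∧ (e : ℝ) ≤ β * d) ∧ P (d, e)} with hS
  have hfin : S.Finite := by
    apply (Set.finite_Iic ⌊x⌋₊).subset
    intro m hm
    exact Nat.le_floor hm.1
  set B : Finset ℕ := hfin.toFinset with hB
  have hBm : ∀ m, m ∈ B ↔ m ∈ S := fun m => Set.Finite.mem_toFinset hfin
  have hlogx : 0 < Real.log x := Real.log_pos (by linarith)
  have hKx : x ≤ K * x := by nlinarith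
  have hlogKx : 0 < Real.log (K * x) := Real.log_pos (by linarith)
  have hBc : (B.card : ℝ) ≤ (K * x) / Real.log (K * x) ^ e' := by
    rw [hB, ← Set.ncard_eq_toFinset_card S hfin]
    refine hcon.le.trans ?_
    have h1 : Real.log (K * x) ≤ 2 * Real.log x := by
      rw [Real.log_mul (by linarith) (by linarith)]
      have := Real.log_le_log (by linarith) hxK
      linarith
    have h2 : Real.log (K * x) ^ e' ≤ Real.log x ^ A := by
      calc Real.log (K * x) ^ e' ≤ (2 * Real.log x) ^ e' :=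
            Real.rpow_le_rpow hlogKx.le h1 (by linarith)
        _ = 2 ^ e' * Real.log x ^ e' := Real.mul_rpow (by norm_num) hlogx.le
        _ ≤ Real.log x ^ (A - e') * Real.log x ^ e' := by
            gcongr
            exact hx3 x hxx3
        _ = Real.log x ^ A := by
            rw [← Real.rpow_add hlogx]
            congr 1
            ring
    exact div_le_div₀ (by positivity) hKx (Real.rpow_pos_of_pos hlogKx _) h2
  have h1 := hstep (K * x) (by linarith) B (fun m hm => by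
    have := (hBm m).1 hm
    exact ⟨this.2.1, this.1.trans hKx⟩) hBc
  have h2 := FS_le_tx α β x (K * x) hα hβ (by linarith) hKx
    (by
      have : 2 * x ^ 2 ≤ (α * K ^ 2) * x ^ 2 := by gcongr
      calc 2 * x ^ 2 ≤ (α * K ^ 2) * x ^ 2 := this
        _ = α * (K * x) ^ 2 := by ring)
    (by
      have : (2 * β) * x ^ 2 ≤ K ^ 2 * x ^ 2 := by gcongr
      calc 2 * β * x ^ 2 ≤ K ^ 2 * x ^ 2 := this
        _ = (K * x) ^ 2 := by ring) P B (by
      rintro m hm1 hmx ⟨d, e, hde, h1, h2⟩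
      exact (hBm m).2 ⟨hmx, hev m d e hde h2, d, e, hde, h1, h2⟩)
  have h3 : c * x ≤ C * (K * x) / Real.log (K * x) ^ d' := (h x hxx0).trans (h2.trans h1)
  have h4 := hx2 x hxx2
  have h5 : 0 < Real.log (K * x) ^ d' := Real.rpow_pos_of_pos hlogKx d'
  rw [le_div_iff₀ h5] at h3
  have h6 : C * K < c * Real.log (K * x) ^ d' := by
    rw [div_lt_iff₀ hc] at h4
    linarith
  have h7 : 0 < x := by linarith
  nlinarith

end Pool.Agent.OmEq
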