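import Pool.Agent.Lib_MP_f1a94e_eq.Rect
import Pool.Agent.Lib_MP_f1a94e_eq.RiemTwo

/-!
# Piece TR: limits of sums over base pairs
-/

set_option autoImplicit false

namespace Pool.Agent.OmEq

open Finset Pool.Agent.GaussMR Pool.Agent.OmAll Filter

theorem tr_Ap_nonneg (p : ℕ) : 0 ≤ Ap p := by
  unfold Ap
  positivity

theorem tr_Ap_le {p : ℕ} (hp : 1 ≤ p) : 0 ≤ 1 - 2 * Ap p := by
  have h1 : (1 : ℝ) ≤ p := by exact_mod_cast hp
  unfold Ap
  rw [sub_nonneg, ← mul_div_assoc, div_le_one (by positivity)]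
  nlinarith [mul_nonneg (sub_nonneg.2 h1) (sub_nonneg.2 h1),
    mul_nonneg (mul_nonneg (sub_nonneg.2 h1) (sub_nonneg.2 h1)) (sub_nonneg.2 h1)]

theorem tr_Pr_nonneg (E : Finset ℕ) (T : ℕ) (D : Finset ℕ) : 0 ≤ Pr E T D := by
  unfold Pr
  refine mul_nonneg (prod_nonneg fun p _ => tr_Ap_nonneg p) (prod_nonneg fun p hp => ?_)
  exact tr_Ap_le (mem_PE.1 (mem_sdiff.1 hp).1).2.1.one_lt.le

open Classical in
/-- PROOF. The base pairs are split by `D = ds E T e ⊆ PE E T`: the sum is `∑_(D ∈ (PE E T).powerset)` of the sum over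
`S_D (b X) = (EN n (b X)).filter (bs E T e ∧ ds E T e = D)` of `Ψ D (mE e / X) (tE e)`; apply `riem2` (`A e = En n e ∧ bs E T e ∧ ds E T e = D`, `mem_EN`, `mE_pos`) with
`c = κ * Pr E T D` (`rect`; `0 ≤ Pr`: `0 ≤ Ap p ≤ 1/2` for `p ≥ 5`, `Ap p = 2 (p-1)^2/(p^2 (p+1))`) and add up. -/
theorem tr (n : ℕ) (hn : 0 < n) : ∃ κ : ℝ, 0 ≤ κ ∧ ∀ E : Finset ℕ, n.primeFactors ⊆ E → ∀ (T : ℕ)
    (Ψ : Finset ℕ → ℝ → ℝ → ℝ), (∀ D, Continuous (Function.uncurry (Ψ D))) →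
    (∀ D, HasCompactSupport (Function.uncurry (Ψ D))) → (∀ D y u, y ≤ 0 → Ψ D y u = 0) →
    ∀ b : ℝ, (∀ D y u, b ≤ y → Ψ D y u = 0) →
    Tendsto (fun X : ℝ => (∑ e ∈ (EN n (b * X)).filter (bs E T), Ψ (ds E T e) (mE e / X) (tE e)) / X) atTop
      (nhds (κ * ∑ D ∈ (PE E T).powerset, Pr E T D * ∫ y, ∫ u, Ψ D y u)) := by
  obtain ⟨κ, hκ0, hrect⟩ := rect n hn
  refine ⟨κ, hκ0, ?_⟩
  intro E hE T Ψ hcont hcs hneg b hb
  have key : ∀ D ∈ (PE E T).powerset, Tendsto (fun X : ℝ =>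
      (∑ e ∈ (EN n (b * X)).filter (fun e => bs E T e ∧ ds E T e = D),
        Ψ D (mE e / X) (tE e)) / X) atTop
      (nhds (κ * Pr E T D * ∫ y, ∫ u, Ψ D y u)) := by
    intro D hD
    refine riem2 (fun e => En n e ∧ (bs E T e ∧ ds E T e = D))
      (fun x => (EN n x).filter (fun e => bs E T e ∧ ds E T e = D)) mE tE ?_ ?_
      (κ * Pr E T D) (mul_nonneg hκ0 (tr_Pr_nonneg E T D)) ?_ (Ψ D) (hcont D) (hcs D) (hneg D) b
      (hb D)
    · intro x e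
      rw [mem_filter, mem_EN hn]
      tauto
    · intro e he
      exact mE_pos he.1
    · intro s u hsu
      refine (hrect E hE T D (mem_powerset.1 hD) s u hsu).congr fun x => ?_
      rw [filter_filter]
  have hsum := tendsto_finsetSum _ key
  have e1 : ∑ D ∈ (PE E T).powerset, κ * Pr E T D * ∫ y, ∫ u, Ψ D y u
      = κ * ∑ D ∈ (PE E T).powerset, Pr E T D * ∫ y, ∫ u, Ψ D y u := by
    rw [mul_sum]
    exact sum_congr rfl fun D _ => by rw [mul_assoc]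
  rw [e1] at hsum
  refine hsum.congr fun X => ?_
  rw [← sum_div]
  congr 1
  rw [← sum_fiberwise_of_maps_to (s := (EN n (b * X)).filter (bs E T)) (t := (PE E T).powerset)
    (g := ds E T) (fun e _ => mem_powerset.2 (by unfold ds; exact filter_subset _ _))]
  refine sum_congr rfl fun D _ => ?_
  rw [filter_filter]
  refine sum_congr rfl fun e he => ?_
  rw [(mem_filter.1 he).2.2]

end Pool.Agent.OmEq
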