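import Pool.Agent.Lib_MP_f1a94e_eq.Clu
import Pool.Agent.Lib_MP_f1a94e_eq.TR
import Pool.Agent.Lib_MP_f1a94e_eq.An
import Pool.Agent.Lib_MP_f1a94e_eq.HDefs

/-!
# Piece CTW: the twisted cluster theorem
-/

set_option autoImplicit false

namespace Pool.Agent.OmEq

open Finset Pool.Agent.GaussMR Pool.Agent.OmAll MeasureTheory Filter

theorem ctw_psi_cont {b : ℝ} {W : ℝ → ℝ → ℂ} (hW : TF b W) (g : ℕ → ℂ) (D : Finset ℕ) :
    Continuous (Function.uncurry fun y t => ‖cs g (W y) D t‖) := by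
  have h : (Function.uncurry fun y t => ‖cs g (W y) D t‖) =
      fun p : ℝ × ℝ => ‖∑ a ∈ D.powerset, (∏ q ∈ a, g q) * Function.uncurry W (p.1, p.2 - 2 * lg a)‖ := by
    funext p
    rfl
  rw [h]
  refine continuous_norm.comp (continuous_finsetSum _ fun a _ => continuous_const.mul ?_)
  exact hW.cont.comp (by fun_prop)

theorem ctw_psi_supp {b : ℝ} {W : ℝ → ℝ → ℂ} (hW : TF b W) (g : ℕ → ℂ) (D : Finset ℕ) :
    HasCompactSupport (Function.uncurry fun y t => ‖cs g (W y) D t‖) := by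
  obtain ⟨R0, hR0, hR⟩ := ctw_supp hW
  have hL : ∃ L : ℝ, ∀ a ∈ D.powerset, |2 * lg a| ≤ L := by
    refine ⟨∑ a ∈ D.powerset, |2 * lg a|, fun a ha => ?_⟩
    exact single_le_sum (f := fun a => |2 * lg a|) (fun i _ => abs_nonneg _) ha
  obtain ⟨L, hL⟩ := hL
  refine HasCompactSupport.of_support_subset_isCompact
    ((isCompact_Icc (a := -R0) (b := R0)).prod (isCompact_Icc (a := -(R0 + L)) (b := R0 + L))) ?_
  rintro ⟨y, t⟩ h
  rw [Function.mem_support] at h
  have h1 : cs g (W y) D t ≠ 0 := fun h2 => h (by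
    show ‖cs g (W y) D t‖ = 0
    rw [h2, norm_zero])
  unfold cs at h1
  obtain ⟨a, ha, h2⟩ := exists_ne_zero_of_sum_ne_zero h1
  have h3 := hR y _ (right_ne_zero_of_mul h2)
  have h4 := hL a ha
  rw [Set.mem_prod, Set.mem_Icc, Set.mem_Icc, ← abs_le, ← abs_le]
  refine ⟨h3.1, ?_⟩
  have h5 : |t| ≤ |t - 2 * lg a| + |2 * lg a| := by
    have := abs_add_le (t - 2 * lg a) (2 * lg a)
    rwa [sub_add_cancel] at this
  show |t| ≤ R0 + L
  linarith [h3.2]

/-- PROOF. Let `T` be given. `cluster` with `fun y t => W (y / X) t` (X > 0) gives for the sum `∑_(EN n (b X), bs) Φ e * cs g (W (mE e / X)) (ds E T e) (tE e)`, so its norm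
is at most `∑_(EN n (b X), bs) Ψ (ds E T e) (mE e / X) (tE e)` with `Ψ D y t = ‖cs g (W y) D t‖` (`Cmp.bd`). `Ψ D` is continuous with compact support (a finite sum
of translates in `t` of `W`), zero for `y ≤ 0` and `b ≤ y`. `tr` gives the limit `κ * ∑_D Pr D * ∫ y, ∫ t, Ψ D y t = κ * ∫ y, IT E g T (W y)` (finite sum and integral:
`y ↦ ∫ t, Ψ D y t` is integrable, e.g. `Integrable.integral_prod_left` or continuous with compact support). Hence for every `T`,
`limsup_X ‖sum‖ / X ≤ κ * ∫ y, IT E g T (W y)`. For `T → ∞` the right side tends to `0` by dominated convergence: `0 ≤ IT E g T (W y) ≤ ∫ t, ‖W y t‖` (`IT_le`), which is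
integrable in `y`, and `IT E g T (W y) → 0` for every `y` by `an` (`W y` is continuous with compact support). -/
theorem ctw (n : ℕ) (hn : 0 < n) (E : Finset ℕ) (hE : n.primeFactors ⊆ E) (g : ℕ → ℂ)
    (hg1 : ∀ p : ℕ, p.Prime → p % 4 = 1 → p ∉ E → ‖g p‖ = 1) (R : ℝ) (hR0 : 0 ≤ R) (hR1 : R ≤ 1) (hNP : NP E g R)
    (Φ : G × G → ℂ) (hΦ : Cmp n E g Φ) (b : ℝ) (W : ℝ → ℝ → ℂ) (hW : TF b W)
    (h0 : R < 1 ∨ ∀ y, (∫ t, W y t) = 0) :
    Tendsto (fun X : ℝ => (∑ e ∈ EN n (b * X), Φ e * W (mE e / X) (tE e)) / X) atTop (nhds 0) := by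
  classical
  obtain ⟨κ, hκ, htr⟩ := tr n hn
  -- integrability
  have hPi : ∀ D : Finset ℕ, Integrable (Function.uncurry fun y t => ‖cs g (W y) D t‖)
      (volume.prod volume) := fun D => by
    have h1 := (ctw_psi_cont hW g D).integrable_of_hasCompactSupport (ctw_psi_supp hW g D)
      (μ := (volume : Measure (ℝ × ℝ)))
    rwa [Measure.volume_eq_prod] at h1
  have hP1 : ∀ D : Finset ℕ, Integrable (fun y => ∫ t, ‖cs g (W y) D t‖) := fun D =>
    (hPi D).integral_prod_left
  have hWi : Integrable (fun y => ∫ t, ‖W y t‖) := by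
    have h1 := (hW.cont.integrable_of_hasCompactSupport hW.supp
      (μ := (volume : Measure (ℝ × ℝ)))).norm
    rw [Measure.volume_eq_prod] at h1
    exact h1.integral_prod_left
  -- the limit in `X`
  have hIT : ∀ T : ℕ, ∑ D ∈ (PE E T).powerset, Pr E T D * ∫ y, ∫ t, ‖cs g (W y) D t‖ =
      ∫ y, IT E g T (W y) := by
    intro T
    unfold IT
    rw [integral_finsetSum]
    · refine sum_congr rfl fun D _ => ?_
      rw [integral_const_mul]
    · intro D _
      exact (hP1 D).const_mul _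
  have hITi : ∀ T : ℕ, Integrable (fun y => IT E g T (W y)) := by
    intro T
    unfold IT
    exact integrable_finsetSum _ fun D _ => (hP1 D).const_mul _
  -- dominated convergence
  have hlim : Tendsto (fun T : ℕ => ∫ y, IT E g T (W y)) atTop (nhds 0) := by
    have h1 := tendsto_integral_of_dominated_convergence (F := fun T y => IT E g T (W y))
      (f := fun _ => (0 : ℝ)) (fun y => ∫ t, ‖W y t‖) (fun T => (hITi T).aestronglyMeasurable)
      hWi ?_ ?_
    · rwa [integral_zero] at h1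
    · intro T
      refine Filter.Eventually.of_forall fun y => ?_
      rw [Real.norm_eq_abs, abs_of_nonneg (AnP.IT_nonneg E g T (W y))]
      exact IT_le E g hg1 T (W y)
        ((ctw_cont_right hW y).integrable_of_hasCompactSupport (ctw_supp_right hW y))
    · refine Filter.Eventually.of_forall fun y => ?_
      exact an E g hg1 R hR0 hR1 hNP (W y) (ctw_cont_right hW y) (ctw_supp_right hW y)
        (h0.imp id fun h => h y)
  rw [Metric.tendsto_atTop]
  intro ε hε
  have hlim' := hlim.const_mul κ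
  rw [mul_zero] at hlim'
  obtain ⟨T, hT⟩ := (hlim'.eventually (gt_mem_nhds hε)).exists
  have ht := htr E hE T (fun D y t => ‖cs g (W y) D t‖) (ctw_psi_cont hW g) (ctw_psi_supp hW g)
    (fun D y u hy => by
      show ‖cs g (W y) D u‖ = 0
      unfold cs
      rw [sum_eq_zero, norm_zero]
      intro a _
      rw [hW.lo y _ hy, mul_zero]) b
    (fun D y u hy => by
      show ‖cs g (W y) D u‖ = 0
      unfold cs
      rw [sum_eq_zero, norm_zero]
      intro a _
      rw [hW.hi y _ hy, mul_zero])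
  rw [hIT T] at ht
  obtain ⟨X0, hX0⟩ := eventually_atTop.1 (ht.eventually (gt_mem_nhds hT))
  refine ⟨max X0 1, fun X hX => ?_⟩
  have hX1 : X0 ≤ X := (le_max_left _ _).trans hX
  have hX2 : 0 < X := lt_of_lt_of_le one_pos ((le_max_right _ _).trans hX)
  have h3 := hX0 X hX1
  rw [dist_zero_right, norm_div, Complex.norm_real, Real.norm_eq_abs, abs_of_pos hX2]
  refine lt_of_le_of_lt ?_ h3
  refine div_le_div_of_nonneg_right ?_ hX2.le
  have h4 := cluster n hn E hE g Φ hΦ T (b * X) (fun y t => W (y / X) t)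
  rw [h4]
  refine (norm_sum_le _ _).trans (sum_le_sum fun e _ => ?_)
  rw [norm_mul]
  have h5 : ‖Φ e‖ * ‖cs g (fun t => W (mE e / X) t) (ds E T e) (tE e)‖ ≤
      1 * ‖cs g (fun t => W (mE e / X) t) (ds E T e) (tE e)‖ :=
    mul_le_mul_of_nonneg_right (hΦ.bd e) (norm_nonneg _)
  rw [one_mul] at h5
  exact h5

end Pool.Agent.OmEq
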