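import Pool.Agent.Lib_MP_f1a94e_eq.EqnA
import Pool.Agent.Lib_MP_f1a94e_aq.DCount

/-!
# Piece EQNB: counting pairs of determinant `n`
-/

set_option autoImplicit false

namespace Pool.Agent.OmEq

open Finset Pool.Agent.GaussMR Pool.Agent.OmAll Filter

namespace EqnB

/-- the pair of determinant `n` from an edge -/
def psi (n : ℕ) (c : ℤ) (e : G × G) : G × G := (e.1, (c : G) * e.1 + (n : G) * e.2)

theorem psi_re (n : ℕ) (c : ℤ) (e : G × G) : (psi n c e).2.re = c * e.1.re + n * e.2.re := by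
  simp [psi]

theorem psi_im (n : ℕ) (c : ℤ) (e : G × G) : (psi n c e).2.im = c * e.1.im + n * e.2.im := by
  simp [psi]

theorem psi_inj (n : ℕ) (hn : 0 < n) (c : ℤ) : Function.Injective (psi n c) := by
  intro e f h
  have h1 : e.1 = f.1 := by
    have h0 : (psi n c e).1 = (psi n c f).1 := by rw [h]
    exact h0
  have h2 := psi_re n c e
  have h3 := psi_im n c e
  rw [h, psi_re, ← h1] at h2
  rw [h, psi_im, ← h1] at h3
  have hn' : (n : ℤ) ≠ 0 := by exact_mod_cast hn.ne'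
  have h4 : f.2.re = e.2.re := mul_left_cancel₀ hn' (by linarith)
  have h5 : f.2.im = e.2.im := mul_left_cancel₀ hn' (by linarith)
  exact Prod.ext h1 (Zsqrtd.ext h4.symm h5.symm)

theorem det_psi (n : ℕ) (c : ℤ) (e : G × G) : det e.1 (psi n c e).2 = n * det e.1 e.2 := by
  unfold det
  rw [psi_re, psi_im]
  ring

/-- the edges for the residue `c` -/
def SS (n : ℕ) (c : ℤ) (P : G × G → Prop) (s t x : ℝ) : Set (G × G) :=
  {e | det e.1 e.2 = 1 ∧ 0 < dot e.1 (psi n c e).2 ∧ ((dot e.1 (psi n c e).2 : ℤ) : ℝ) ≤ x ∧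
    Real.exp s * (nm e.1 : ℝ) ≤ (nm (psi n c e).2 : ℝ) ∧
    (nm (psi n c e).2 : ℝ) < Real.exp t * (nm e.1 : ℝ) ∧ P (psi n c e)}

/-- the residues -/
noncomputable def CC (n : ℕ) : Finset ℤ := by
  classical
  exact (Finset.Ioc (-(n : ℤ)) 0).filter (fun c => IsCoprime c (n : ℤ))

theorem mem_CC {n : ℕ} {c : ℤ} : c ∈ CC n ↔ (-(n : ℤ) < c ∧ c ≤ 0) ∧ IsCoprime c (n : ℤ) := by
  classical
  unfold CC
  rw [mem_filter, mem_Ioc]

open Classical in
/-- the residue of a pair -/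
noncomputable def fc (n : ℕ) (e : G × G) : ℤ :=
  if h : ∃ c : ℤ, c ∈ CC n ∧ cg n e.2 ((c : G) * e.1) then h.choose else 0

theorem cg_iff (n : ℕ) (c : ℤ) (e : G × G) : cg n e.2 ((c : G) * e.1) ↔
    (n : ℤ) ∣ e.2.re - c * e.1.re ∧ (n : ℤ) ∣ e.2.im - c * e.1.im := by
  unfold cg
  simp

theorem uniq {n : ℕ} {e : G × G} (hp : Prim e.1) {c c' : ℤ} (hc : c ∈ CC n) (hc' : c' ∈ CC n)
    (h : cg n e.2 ((c : G) * e.1)) (h' : cg n e.2 ((c' : G) * e.1)) : c = c' := by
  rw [cg_iff] at h h'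
  rw [mem_CC] at hc hc'
  have h1 : (n : ℤ) ∣ (c - c') * e.1.re := by
    have := dvd_sub h'.1 h.1
    have e1 : e.2.re - c' * e.1.re - (e.2.re - c * e.1.re) = (c - c') * e.1.re := by ring
    rwa [e1] at this
  have h2 : (n : ℤ) ∣ (c - c') * e.1.im := by
    have := dvd_sub h'.2 h.2
    have e1 : e.2.im - c' * e.1.im - (e.2.im - c * e.1.im) = (c - c') * e.1.im := by ring
    rwa [e1] at this
  obtain ⟨a, b, hab⟩ := hp
  have h3 : (n : ℤ) ∣ c - c' := by
    have h4 := dvd_add (Dvd.dvd.mul_left h1 a) (Dvd.dvd.mul_left h2 b)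
    have e1 : a * ((c - c') * e.1.re) + b * ((c - c') * e.1.im) = c - c' := by
      calc _ = (c - c') * (a * e.1.re + b * e.1.im) := by ring
        _ = _ := by rw [hab, mul_one]
    rwa [e1] at h4
  obtain ⟨k, hk⟩ := h3
  have h5 : -(n : ℤ) < c - c' := by omega
  have h6 : c - c' < n := by omega
  rw [hk] at h5 h6
  have hn : (0 : ℤ) < n := by omega
  have h7 : k < 1 := by
    by_contra hh
    push Not at hh
    nlinarith
  have h8 : -1 < k := by
    by_contra hh
    push Not at hh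
    nlinarith
  have h9 : k = 0 := by omega
  rw [h9, mul_zero] at hk
  linarith

theorem exi {n : ℕ} (hn : 0 < n) {e : G × G} (c : ℤ) (hc : IsCoprime c (n : ℤ))
    (h : cg n e.2 ((c : G) * e.1)) : ∃ c : ℤ, c ∈ CC n ∧ cg n e.2 ((c : G) * e.1) := by
  have hn' : (0 : ℤ) < n := by exact_mod_cast hn
  rw [cg_iff] at h
  refine ⟨-((-c) % n), ?_, ?_⟩
  · rw [mem_CC]
    have h1 := Int.emod_nonneg (-c) hn'.ne'
    have h2 := Int.emod_lt_of_pos (-c) hn'
    refine ⟨⟨by omega, by omega⟩, ?_⟩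
    have h3 : -((-c) % (n : ℤ)) = c + n * ((-c) / n) := by
      have := Int.emod_add_mul_ediv (-c) n
      linarith
    rw [h3]
    exact hc.add_mul_left_left _
  · rw [cg_iff]
    have h3 : -((-c) % (n : ℤ)) = c + n * ((-c) / n) := by
      have := Int.emod_add_mul_ediv (-c) n
      linarith
    rw [h3]
    constructor
    · have e1 : e.2.re - (c + n * ((-c) / n)) * e.1.re = (e.2.re - c * e.1.re) - n * ((-c) / n * e.1.re) := by ring
      rw [e1]
      exact dvd_sub h.1 (Dvd.intro _ rfl)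
    · have e1 : e.2.im - (c + n * ((-c) / n)) * e.1.im = (e.2.im - c * e.1.im) - n * ((-c) / n * e.1.im) := by ring
      rw [e1]
      exact dvd_sub h.2 (Dvd.intro _ rfl)

theorem fc_spec {n : ℕ} (hn : 0 < n) {e : G × G} (he : En n e) :
    fc n e ∈ CC n ∧ cg n e.2 ((fc n e : G) * e.1) := by
  classical
  obtain ⟨-, -, -, c, hc, h⟩ := he
  have h1 := exi hn c hc h
  unfold fc
  rw [dif_pos h1]
  exact h1.choose_spec

theorem nm_pos1 {u v : G} (h : det u v = 1) : 0 < nm u := by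
  apply nm_pos
  rintro rfl
  simp [det] at h

theorem nm_posn {n : ℕ} (hn : 0 < n) {u v : G} (h : det u v = n) : 0 < nm u ∧ 0 < nm v := by
  have hn' : (n : ℤ) ≠ 0 := by exact_mod_cast hn.ne'
  constructor
  · apply nm_pos
    rintro rfl
    apply hn'
    rw [← h]
    simp [det]
  · apply nm_pos
    rintro rfl
    apply hn'
    rw [← h]
    simp [det]

theorem tE_le {e : G × G} (h1 : 0 < nm e.1) (h2 : 0 < nm e.2) (s : ℝ) :
    s ≤ tE e ↔ Real.exp s * (nm e.1 : ℝ) ≤ nm e.2 := by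
  have h1' : (0 : ℝ) < nm e.1 := by exact_mod_cast h1
  have h2' : (0 : ℝ) < nm e.2 := by exact_mod_cast h2
  unfold tE
  rw [← Real.exp_le_exp, Real.exp_sub, Real.exp_log h1', Real.exp_log h2', le_div_iff₀ h1']

theorem tE_lt {e : G × G} (h1 : 0 < nm e.1) (h2 : 0 < nm e.2) (t : ℝ) :
    tE e < t ↔ (nm e.2 : ℝ) < Real.exp t * (nm e.1 : ℝ) := by
  rw [← not_le, tE_le h1 h2, not_le]

open Classical in
theorem fiber {n : ℕ} (hn : 0 < n) (P : G × G → Prop) (s t x : ℝ) {c : ℤ} (hc : c ∈ CC n) :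
    (((((EN n x).filter (fun e => P e ∧ s ≤ tE e ∧ tE e < t)).filter (fun e => fc n e = c)) :
      Finset (G × G)) : Set (G × G)) = psi n c '' SS n c P s t x := by
  have hn' : (0 : ℤ) < n := by exact_mod_cast hn
  ext e
  simp only [coe_filter, Set.mem_setOf_eq, Set.mem_image, mem_filter, mem_EN hn]
  constructor
  · rintro ⟨⟨⟨h1, h2⟩, h3, h4, h5⟩, h6⟩
    have h7 := (fc_spec hn h1).2
    rw [h6, cg_iff] at h7
    obtain ⟨⟨a, ha⟩, ⟨b, hb⟩⟩ := h7
    have h8 : psi n c (e.1, ⟨a, b⟩) = e := by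
      apply Prod.ext
      · rfl
      · apply Zsqrtd.ext
        · rw [psi_re]
          show c * e.1.re + n * a = _
          linarith
        · rw [psi_im]
          show c * e.1.im + n * b = _
          linarith
    obtain ⟨h9, h10⟩ := nm_posn hn h1.1
    refine ⟨(e.1, ⟨a, b⟩), ?_, h8⟩
    unfold SS
    rw [Set.mem_setOf_eq, h8]
    refine ⟨?_, h1.2.1, h2, (tE_le h9 h10 s).1 h4, (tE_lt h9 h10 t).1 h5, h3⟩
    have h11 := det_psi n c (e.1, ⟨a, b⟩)
    rw [h8] at h11
    have h12 : det e.1 e.2 = n := h1.1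
    have h13 : (n : ℤ) * det e.1 ⟨a, b⟩ = n * 1 := by
      rw [mul_one]
      exact h11.symm.trans h12
    exact mul_left_cancel₀ hn'.ne' h13
  · rintro ⟨f, ⟨h1, h2, h3, h4, h5, h6⟩, rfl⟩
    have h7 : det f.1 (psi n c f).2 = n := by rw [det_psi, h1, mul_one]
    have h7' : det (psi n c f).1 (psi n c f).2 = n := h7
    obtain ⟨h9, h10⟩ := nm_posn hn h7'
    have hP : Prim f.1 := ⟨f.2.im, -f.2.re, by
      unfold det at h1
      linarith⟩
    have hcg : cg n (psi n c f).2 ((c : G) * (psi n c f).1) := by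
      rw [cg_iff, psi_re, psi_im]
      refine ⟨⟨f.2.re, ?_⟩, ⟨f.2.im, ?_⟩⟩
      · show c * f.1.re + n * f.2.re - c * f.1.re = _
        ring
      · show c * f.1.im + n * f.2.im - c * f.1.im = _
        ring
    have hE : En n (psi n c f) := ⟨h7, h2, hP, c, (mem_CC.1 hc).2, hcg⟩
    refine ⟨⟨⟨hE, h3⟩, h6, (tE_le (e := psi n c f) h9 h10 s).2 h4,
      (tE_lt (e := psi n c f) h9 h10 t).2 h5⟩, ?_⟩
    obtain ⟨h11, h12⟩ := fc_spec hn hE
    have hP' : Prim (psi n c f).1 := hP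
    exact uniq hP' h11 hc h12 hcg

open Classical in
theorem SS_fin {n : ℕ} (hn : 0 < n) (P : G × G → Prop) (s t x : ℝ) {c : ℤ} (hc : c ∈ CC n) :
    (SS n c P s t x).Finite := by
  apply Set.Finite.of_finite_image (f := psi n c)
  · rw [← fiber hn P s t x hc]
    exact Finset.finite_toSet _
  · exact (psi_inj n hn c).injOn

open Classical in
theorem card_eq {n : ℕ} (hn : 0 < n) (P : G × G → Prop) (s t x : ℝ) :
    ((EN n x).filter (fun e => P e ∧ s ≤ tE e ∧ tE e < t)).card =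
      ∑ c ∈ CC n, (SS n c P s t x).ncard := by
  rw [Finset.card_eq_sum_card_fiberwise (f := fc n) (t := CC n)]
  · refine Finset.sum_congr rfl fun c hc => ?_
    rw [← Set.ncard_coe_finset, fiber hn P s t x hc]
    exact Set.ncard_image_of_injective _ (psi_inj n hn c)
  · intro e he
    rw [Finset.mem_coe, mem_filter, mem_EN hn] at he
    exact (fc_spec hn he.1.1).1

/-- the predicate on edges -/
def QQ (n : ℕ) (c : ℤ) (P : G × G → Prop) (e : G × G) : Prop := P (psi n c e)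

theorem QQ_per {M n : ℕ} {c : ℤ} {P : G × G → Prop} (hP : Per M P) : Per M (QQ n c P) := by
  intro e f h1 h2
  unfold QQ
  apply hP
  · exact h1
  · obtain ⟨a1, a2⟩ := h1
    obtain ⟨b1, b2⟩ := h2
    constructor
    · rw [psi_re, psi_re]
      have e1 : c * e.1.re + n * e.2.re - (c * f.1.re + n * f.2.re) =
        c * (e.1.re - f.1.re) + n * (e.2.re - f.2.re) := by ring
      rw [e1]
      exact dvd_add (Dvd.dvd.mul_left a1 _) (Dvd.dvd.mul_left b1 _)
    · rw [psi_im, psi_im]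
      have e1 : c * e.1.im + n * e.2.im - (c * f.1.im + n * f.2.im) =
        c * (e.1.im - f.1.im) + n * (e.2.im - f.2.im) := by ring
      rw [e1]
      exact dvd_add (Dvd.dvd.mul_left a2 _) (Dvd.dvd.mul_left b2 _)

/-- the set of `eqnA` -/
def EE (n M : ℕ) (c : ℤ) (γ : G × G) (s t x : ℝ) : Set (G × G) :=
  {e : G × G | det e.1 e.2 = 1 ∧ cg M e.1 γ.1 ∧ cg M e.2 γ.2 ∧
        0 < dot e.1 ((c : G) * e.1 + (n : G) * e.2) ∧
        ((dot e.1 ((c : G) * e.1 + (n : G) * e.2) : ℤ) : ℝ) ≤ x ∧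
        Real.exp s * (nm e.1 : ℝ) ≤ (nm ((c : G) * e.1 + (n : G) * e.2) : ℝ) ∧
        (nm ((c : G) * e.1 + (n : G) * e.2) : ℝ) < Real.exp t * (nm e.1 : ℝ)}

open Classical in
theorem SS_card {n : ℕ} (hn : 0 < n) {M : ℕ} (hM : 0 < M) (P : G × G → Prop) (hP : Per M P) (s t x : ℝ)
    {c : ℤ} (hc : c ∈ CC n) :
    (SS n c P s t x).ncard = ∑ γ ∈ (cls M).filter (QQ n c P), (EE n M c γ s t x).ncard := by
  have hfin := SS_fin hn P s t x hc
  rw [Set.ncard_eq_toFinset_card _ hfin]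
  rw [Finset.card_eq_sum_card_fiberwise (f := DCount.rep M) (t := (cls M).filter (QQ n c P))]
  · refine Finset.sum_congr rfl fun γ hγ => ?_
    rw [Finset.mem_filter] at hγ
    rw [← Set.ncard_coe_finset]
    congr 1
    ext e
    simp only [Finset.coe_filter, Set.Finite.mem_toFinset, Set.mem_setOf_eq]
    constructor
    · rintro ⟨⟨h1, h2, h3, h4, h5, h6⟩, h8⟩
      obtain ⟨h9, h10⟩ := DCount.cg_rep M e
      rw [h8] at h9 h10
      exact ⟨h1, h9, h10, h2, h3, h4, h5⟩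
    · rintro ⟨h1, h6, h7, h2, h3, h4, h5⟩
      refine ⟨⟨h1, h2, h3, h4, h5, ?_⟩, DCount.rep_unique M e γ hγ.1 h6 h7⟩
      exact (QQ_per hP e γ h6 h7).mpr hγ.2
  · intro e he
    rw [Finset.mem_coe, Set.Finite.mem_toFinset] at he
    rw [Finset.mem_coe, Finset.mem_filter]
    obtain ⟨h9, h10⟩ := DCount.cg_rep M e
    exact ⟨DCount.rep_mem M hM e he.1, (QQ_per hP e _ h9 h10).mp he.2.2.2.2.2⟩

/-- the shear -/
def sh (M : ℕ) (k : ℤ) (e : G × G) : G × G := (e.1, rd M ((k : G) * e.1 + e.2))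

theorem rd_cls {M : ℕ} (hM : 0 < M) {e : G × G} (he : e ∈ cls M) (v : G) (hv : (M : ℤ) ∣ det e.1 v - 1) :
    (e.1, rd M v) ∈ cls M := by
  have hM' : (0 : ℤ) < M := by exact_mod_cast hM
  rw [mem_cls] at he ⊢
  refine ⟨he.1, he.2.1, ⟨Int.emod_nonneg _ hM'.ne', Int.emod_lt_of_pos _ hM'⟩,
    ⟨Int.emod_nonneg _ hM'.ne', Int.emod_lt_of_pos _ hM'⟩, ?_⟩
  have h1 : (M : ℤ) ∣ det e.1 (rd M v) - det e.1 v :=
    det_cg ⟨by simp, by simp⟩ (rd_cg M v)
  have h2 := dvd_add h1 hv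
  have e1 : det e.1 (rd M v) - det e.1 v + (det e.1 v - 1) = det e.1 (rd M v) - 1 := by ring
  rwa [e1] at h2

theorem sh_mem {M : ℕ} (hM : 0 < M) (k : ℤ) {e : G × G} (he : e ∈ cls M) : sh M k e ∈ cls M := by
  apply rd_cls hM he
  have h1 : det e.1 ((k : G) * e.1 + e.2) = det e.1 e.2 := by
    unfold det
    simp
    ring
  rw [h1]
  exact (mem_cls.1 he).2.2.2.2

theorem sh_sh {M : ℕ} (k : ℤ) {e : G × G} (he : e ∈ cls M) : sh M (-k) (sh M k e) = e := by
  rw [mem_cls] at he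
  obtain ⟨-, -, ⟨c1, c2⟩, ⟨d1, d2⟩, -⟩ := he
  apply Prod.ext
  · rfl
  · apply Zsqrtd.ext
    · show (((-k : ℤ) : G) * e.1 + rd M ((k : G) * e.1 + e.2)).re % M = _
      have h1 : (((-k : ℤ) : G) * e.1 + rd M ((k : G) * e.1 + e.2)).re =
          -(k * e.1.re) + (k * e.1.re + e.2.re) % M := by
        simp [rd]
      rw [h1, Int.add_emod_emod]
      have h2 : -(k * e.1.re) + (k * e.1.re + e.2.re) = e.2.re := by ring
      rw [h2]
      exact Int.emod_eq_of_lt c1 c2
    · show (((-k : ℤ) : G) * e.1 + rd M ((k : G) * e.1 + e.2)).im % M = _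
      have h1 : (((-k : ℤ) : G) * e.1 + rd M ((k : G) * e.1 + e.2)).im =
          -(k * e.1.im) + (k * e.1.im + e.2.im) % M := by
        simp [rd]
      rw [h1, Int.add_emod_emod]
      have h2 : -(k * e.1.im) + (k * e.1.im + e.2.im) = e.2.im := by ring
      rw [h2]
      exact Int.emod_eq_of_lt d1 d2

open Classical in
theorem shear_card {n M : ℕ} (hM : 0 < M) (hMn : M.Coprime n) (P : G × G → Prop) (hP : Per M P) (c : ℤ) :
    ((cls M).filter (QQ n c P)).card = ((cls M).filter (fun e => P (e.1, (n : G) * e.2))).card := by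
  obtain ⟨a, b, hab⟩ : IsCoprime (n : ℤ) (M : ℤ) := Nat.isCoprime_iff_coprime.2 hMn.symm
  have key : ∀ e : G × G, QQ n c P e ↔ P (e.1, (n : G) * (sh M (c * a) e).2) := by
    intro e
    unfold QQ
    apply hP
    · exact ⟨by simp [psi], by simp [psi]⟩
    · constructor
      · rw [psi_re]
        have h1 : ((n : G) * (sh M (c * a) e).2).re = n * ((c * a * e.1.re + e.2.re) % M) := by
          simp [sh, rd]
        rw [show ((e.1, (n : G) * (sh M (c * a) e).2) : G × G).2 = (n : G) * (sh M (c * a) e).2 from rfl, h1]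
        have h2 := Int.emod_add_mul_ediv (c * a * e.1.re + e.2.re) M
        refine ⟨c * b * e.1.re + n * ((c * a * e.1.re + e.2.re) / M), ?_⟩
        have h3 : (c * a * e.1.re + e.2.re) % M =
          (c * a * e.1.re + e.2.re) - M * ((c * a * e.1.re + e.2.re) / M) := by linarith
        rw [h3]
        linear_combination (-(c * e.1.re)) * hab
      · rw [psi_im]
        have h1 : ((n : G) * (sh M (c * a) e).2).im = n * ((c * a * e.1.im + e.2.im) % M) := by
          simp [sh, rd]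
        rw [show ((e.1, (n : G) * (sh M (c * a) e).2) : G × G).2 = (n : G) * (sh M (c * a) e).2 from rfl, h1]
        have h2 := Int.emod_add_mul_ediv (c * a * e.1.im + e.2.im) M
        refine ⟨c * b * e.1.im + n * ((c * a * e.1.im + e.2.im) / M), ?_⟩
        have h3 : (c * a * e.1.im + e.2.im) % M =
          (c * a * e.1.im + e.2.im) - M * ((c * a * e.1.im + e.2.im) / M) := by linarith
        rw [h3]
        linear_combination (-(c * e.1.im)) * hab
  apply Finset.card_nbij' (sh M (c * a)) (sh M (-(c * a)))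
  · intro e he
    rw [Finset.mem_coe, mem_filter] at he
    rw [Finset.mem_coe, mem_filter]
    exact ⟨sh_mem hM _ he.1, (key e).1 he.2⟩
  · intro e he
    rw [Finset.mem_coe, mem_filter] at he
    rw [Finset.mem_coe, mem_filter]
    refine ⟨sh_mem hM _ he.1, (key _).2 ?_⟩
    have h1 := sh_sh (-(c * a)) he.1
    rw [neg_neg] at h1
    rw [h1]
    exact he.2
  · intro e he
    rw [Finset.mem_coe, mem_filter] at he
    exact sh_sh _ he.1
  · intro e he
    rw [Finset.mem_coe, mem_filter] at he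
    have h1 := sh_sh (-(c * a)) he.1
    rwa [neg_neg] at h1

end EqnB

open EqnB in
open Classical in
/-- PROOF. For `e ∈ En n` there is exactly one `c` with `-n < c ≤ 0`, `IsCoprime c n`, `cg n e.2 (c * e.1)` (existence: reduce `c` modulo `n`;
uniqueness: `(c - c') * e.1 = 0` mod `n` and `e.1` primitive). Put `u = (e.2 - c e.1)/n`, so `det e.1 u = 1` and `e.2 = c e.1 + n u`. This is a
bijection from `{e ∈ EN n x, s ≤ tE e < t, P e}` to the disjoint union over these `φ(n)` values of `c` of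
`{(V, u) : det V u = 1, 0 < dot V V' ≤ x, exp s * nm V ≤ nm V' < exp t * nm V, P (V, V')}`, `V' = c V + n u` (`Prim V` follows from `det V u = 1`; `det V V' = n`;
`s ≤ tE` iff `exp s * nm V ≤ nm V'` as both norms are positive). Split by the class `γ` of `(V, u)` in `cls M` (`DCount.rep`, `rep_mem`, `rep_unique`): `P (V, V')` depends only on
`γ`. `eqnA` (with `κ_M` from `equid M`) gives the limit `κ_M (t - s)/n * #{γ ∈ cls M : P (γ.1, c γ.1 + n γ.2)}`. For fixed `c` choose `n'` with `n n' = 1` mod `M`;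
`γ ↦ (γ.1, c n' γ.1 + γ.2)` (reduced) is a bijection of `cls M`, and `P (γ.1, c γ.1 + n γ.2) ↔ P (γ.1, n (c n' γ.1 + γ.2))`. So the number is
`#((cls M).filter (fun e => P (e.1, n e.2)))` for every `c`. Finally `κ_M * #cls M = κ_1` (see the proof of `dcount`: `DCount.count_lim` with the predicate `True`).
So `κ = κ_1 φ(n) / n`, `κ ≥ 0`. -/
theorem eqnB (n : ℕ) (hn : 0 < n) : ∃ κ : ℝ, 0 ≤ κ ∧ ∀ M : ℕ, 0 < M → M.Coprime n → ∀ P : G × G → Prop, Per M P →
    ∀ s t : ℝ, s ≤ t →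
    Tendsto (fun x : ℝ => (((EN n x).filter (fun e => P e ∧ s ≤ tE e ∧ tE e < t)).card : ℝ) / x) atTop
      (nhds (κ * ((((cls M).filter (fun e => P (e.1, (n : G) * e.2))).card : ℝ) / (cls M).card) * (t - s))) := by
  obtain ⟨κ₁, hκ₁⟩ := equid 1 one_pos
  have h0 : ((1 : ℕ) : ℤ) ∣ det (0 : G × G).1 (0 : G × G).2 - 1 := by simp
  have hnn : 0 ≤ κ₁ := by
    have h1 := hκ₁ 0 h0 0 1 zero_le_one
    rw [sub_zero, mul_one] at h1
    apply ge_of_tendsto h1
    filter_upwards [eventually_ge_atTop (0 : ℝ)] with x hx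
    positivity
  have hn' : (0 : ℝ) < n := by exact_mod_cast hn
  refine ⟨κ₁ * (CC n).card / n, by positivity, fun M hM hMn P hP s t hst => ?_⟩
  obtain ⟨κ, hκ⟩ := equid M hM
  have hall := DCount.count_lim _ hM (fun _ => True) (fun _ _ _ _ => Iff.rfl) κ hκ 0 1 zero_le_one
  have hkap : κ₁ = ((cls M).card : ℝ) * κ := by
    have h1 := hκ₁ 0 h0 0 1 zero_le_one
    simp only [and_true, Set.setOf_mem_eq, Finset.filter_true] at hall
    have h2 := tendsto_nhds_unique h1 hall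
    linarith
  have hcl : ((cls M).card : ℝ) ≠ 0 := by
    have h1 : (cls M).Nonempty := ⟨_, DCount.rep_mem M hM ((⟨1, 0⟩, ⟨0, 1⟩) : G × G) (by simp [det])⟩
    exact_mod_cast h1.card_pos.ne'
  have hlim : ∀ c ∈ CC n, Tendsto (fun x : ℝ => ((SS n c P s t x).ncard : ℝ) / x) atTop
      (nhds (((cls M).filter (fun e => P (e.1, (n : G) * e.2))).card * (κ * (t - s) / n))) := by
    intro c hc
    rw [← shear_card hM hMn P hP c]
    have h1 : (fun x : ℝ => ((SS n c P s t x).ncard : ℝ) / x) =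
        fun x : ℝ => ∑ γ ∈ (cls M).filter (QQ n c P), ((EE n M c γ s t x).ncard : ℝ) / x := by
      funext x
      rw [SS_card hn hM P hP s t x hc]
      push_cast
      rw [Finset.sum_div]
    rw [h1, ← nsmul_eq_mul, ← Finset.sum_const]
    apply tendsto_finsetSum
    intro γ hγ
    rw [Finset.mem_filter, mem_cls] at hγ
    have hc' := mem_CC.1 hc
    exact eqnA n hn c hc'.1.1 hc'.1.2 M hM κ hκ γ hγ.1.2.2.2.2 s t hst
  have h2 : (fun x : ℝ => (((EN n x).filter (fun e => P e ∧ s ≤ tE e ∧ tE e < t)).card : ℝ) / x) =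
      fun x : ℝ => ∑ c ∈ CC n, ((SS n c P s t x).ncard : ℝ) / x := by
    funext x
    rw [card_eq hn P s t x]
    push_cast
    rw [Finset.sum_div]
  have h3 := tendsto_finsetSum (CC n) hlim
  rw [← h2] at h3
  convert h3 using 2
  rw [Finset.sum_const, nsmul_eq_mul, hkap]
  field_simp

end Pool.Agent.OmEq
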