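import Pool.Agent.Lib_MP_f1a94e_eq.Defs
import Pool.Agent.Lib_MP_f1a94e_aq.Equid
import Pool.Agent.Lib_MP_f1a94e_aq.DCount
import Pool.Agent.Lib_MP_f1a94e_mr.VAsymp

/-!
# Piece TOTR: the total number of edges with norms coprime to `R`
-/

set_option autoImplicit false

namespace Pool.Agent.OmEq

open Finset Pool.Agent.GaussMR Pool.Agent.OmAll Filter

/-- for primitive `V` a vector `V'` with `det V V' = 1`, `nm V < dot V V' ≤ 2 nm V` -/
private theorem totr_ex {V : G} (hV : Prim V) (h0 : 0 < nm V) : ∃ V' : G, det V V' = 1 ∧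
    (nm V : ℤ) < dot V V' ∧ dot V V' ≤ 2 * (nm V : ℤ) := by
  obtain ⟨a, b, hab⟩ := hV
  have hn : (0 : ℤ) < nm V := by exact_mod_cast h0
  have hsq := nm_eq V
  set d : ℤ := V.re * (-b) + V.im * a with hd
  set q : ℤ := (d - 1) / (nm V : ℤ) with hq
  have h1 := Int.emod_add_mul_ediv (d - 1) (nm V : ℤ)
  have h2 := Int.emod_nonneg (d - 1) hn.ne'
  have h3 := Int.emod_lt_of_pos (d - 1) hn
  rw [← hq] at h1
  refine ⟨⟨-b + (1 - q) * V.re, a + (1 - q) * V.im⟩, ?_, ?_, ?_⟩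
  · unfold det
    simp only
    linear_combination hab
  · have h4 : dot V ⟨-b + (1 - q) * V.re, a + (1 - q) * V.im⟩ = d + (1 - q) * (nm V : ℤ) := by
      unfold dot
      simp only
      rw [hd, hsq]
      ring
    rw [h4]
    nlinarith
  · have h4 : dot V ⟨-b + (1 - q) * V.re, a + (1 - q) * V.im⟩ = d + (1 - q) * (nm V : ℤ) := by
      unfold dot
      simp only
      rw [hd, hsq]
      ring
    rw [h4]
    nlinarith

/-- PROOF. For primitive `V` with `nm V ≤ x / 2` there is `V'` with `det V V' = 1` and `nm V < dot V V' ≤ 2 nm V ≤ x` (Bezout, `dot V (W + k V) = dot V W + k nm V`); then `nm V nm V' = dot^2 + 1`, so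
`1 ≤ nm V' / nm V < 5` (`dot^2 + 1 ≤ 4 (nm V)^2 + 1`, `nm V ≥ 1`), i.e. `0 ≤ tE < log 6`. So `#(NE 1 0 0 (log 6) x) ≥ #{V primitive, nm V ≤ x/2} ≥ #(V (x/2)) ≥ c x` (odd primitive ones, library `Lib_MP_f1a94e_mr`, lower bound
`card_V_ge` or similar; the map `V ↦ (V, V')` is injective). -/
theorem ne_lower : ∃ c : ℝ, 0 < c ∧ ∀ᶠ x : ℝ in atTop, c * x ≤ ((NE 1 0 0 (Real.log 6) x).ncard : ℝ) := by
  obtain ⟨c, hc, hge⟩ := card_V_ge
  refine ⟨c / 2, by positivity, ?_⟩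
  filter_upwards [eventually_ge_atTop (2 : ℝ)] with x hx
  have h1 := hge (x / 2) (by linarith)
  have hex : ∀ z : G, ∃ w : G, z ∈ V (x / 2) → (z, w) ∈ NE 1 0 0 (Real.log 6) x := by
    intro z
    by_cases hz : z ∈ V (x / 2)
    · obtain ⟨hz1, hz2, hz3⟩ := mem_V.1 hz
      have h0 := nm_pos_of_odd hz2
      obtain ⟨w, hw1, hw2, hw3⟩ := totr_ex hz3 h0
      refine ⟨w, fun _ => ?_⟩
      have hdd := dot_sq_add_det_sq z w
      rw [hw1] at hdd
      have hdd' : ((dot z w : ℤ) : ℝ) ^ 2 + 1 ^ 2 = (nm z : ℝ) * nm w := by exact_mod_cast hdd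
      have g1 : (1 : ℝ) ≤ nm z := by exact_mod_cast h0
      have g2 : (nm z : ℝ) < ((dot z w : ℤ) : ℝ) := by exact_mod_cast hw2
      have g3 : ((dot z w : ℤ) : ℝ) ≤ 2 * (nm z : ℝ) := by exact_mod_cast hw3
      unfold NE
      rw [Set.mem_ofPred_eq]
      refine ⟨hw1, ?_, ?_, ?_, ?_, ?_, ?_⟩
      · have : (0 : ℤ) ≤ nm z := by positivity
        show 0 < dot z w
        linarith
      · show ((dot z w : ℤ) : ℝ) ≤ x
        linarith
      · show Real.exp 0 * (nm z : ℝ) ≤ (nm w : ℝ)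
        rw [Real.exp_zero, one_mul]
        by_contra hlt
        push Not at hlt
        nlinarith
      · show (nm w : ℝ) < Real.exp (Real.log 6) * (nm z : ℝ)
        rw [Real.exp_log (by norm_num)]
        by_contra hle
        push Not at hle
        have h5 : (nm z : ℝ) * (6 * nm z) ≤ nm z * nm w := mul_le_mul_of_nonneg_left hle (by linarith)
        nlinarith
      · simp [cg]
      · simp [cg]
    · exact ⟨0, fun h => absurd h hz⟩
  choose g hg using hex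
  have h2 : ((V (x / 2)).card : ℝ) ≤ ((NE 1 0 0 (Real.log 6) x).ncard : ℝ) := by
    have h3 : ((fun z => (z, g z)) '' (V (x / 2) : Set G)).ncard ≤ (NE 1 0 0 (Real.log 6) x).ncard := by
      refine Set.ncard_le_ncard ?_ (NE_finite _ _ _ _ _)
      rintro _ ⟨z, hz, rfl⟩
      exact hg z hz
    rw [Set.ncard_image_of_injective _ (fun a b h => congrArg Prod.fst h), Set.ncard_coe_finset] at h3
    exact_mod_cast h3
  linarith

private theorem totr_nm_mod {R : ℕ} {u v : G} (h : cg R u v) : (nm u : ℤ) ≡ nm v [ZMOD R] := by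
  obtain ⟨h1, h2⟩ := h
  rw [nm_eq, nm_eq]
  exact ((Int.modEq_iff_dvd.2 (by rw [← neg_sub]; exact (dvd_neg).2 h1)).pow 2).add
    ((Int.modEq_iff_dvd.2 (by rw [← neg_sub]; exact (dvd_neg).2 h2)).pow 2)

private theorem totr_per (R : ℕ) : Per R (fun e : G × G => (nm e.1 * nm e.2).Coprime R) := by
  intro e f h1 h2
  have h3 : nm e.1 * nm e.2 ≡ nm f.1 * nm f.2 [MOD R] := by
    rw [← Int.natCast_modEq_iff]
    push_cast
    exact (totr_nm_mod h1).mul (totr_nm_mod h2)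
  show Nat.gcd _ _ = 1 ↔ Nat.gcd _ _ = 1
  rw [h3.gcd_eq]

private theorem totr_En_iff (e : G × G) : En 1 e ↔ det e.1 e.2 = 1 ∧ 0 < dot e.1 e.2 := by
  unfold En
  constructor
  · rintro ⟨h1, h2, -, -⟩
    exact ⟨by simpa using h1, h2⟩
  · rintro ⟨h1, h2⟩
    refine ⟨by simpa using h1, h2, ?_, 1, by simpa using isCoprime_one_left, ?_⟩
    · unfold Prim
      unfold det at h1
      exact ⟨e.2.im, -e.2.re, by linarith⟩
    · unfold cg
      simp

private theorem totr_nm_pos {e : G × G} (h : det e.1 e.2 = 1) : 0 < nm e.1 ∧ 0 < nm e.2 := by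
  have h1 : det e.1 e.2 ≠ 0 := by
    rw [h]
    exact one_ne_zero
  constructor
  · apply nm_pos
    intro h0
    apply h1
    rw [h0]
    simp [det]
  · apply nm_pos
    intro h0
    apply h1
    rw [h0]
    simp [det]

private theorem totr_lo {e : G × G} (h1 : 0 < nm e.1) (h2 : 0 < nm e.2) (s : ℝ) :
    s ≤ tE e ↔ Real.exp s * (nm e.1 : ℝ) ≤ (nm e.2 : ℝ) := by
  have h1' : (0 : ℝ) < nm e.1 := by exact_mod_cast h1
  have h2' : (0 : ℝ) < nm e.2 := by exact_mod_cast h2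
  unfold tE
  rw [le_sub_iff_add_le, Real.le_log_iff_exp_le h2', Real.exp_add, Real.exp_log h1']

open Classical in
private theorem totr_card (R : ℕ) (s t x : ℝ) :
    ((EN 1 x).filter (fun e => (s ≤ tE e ∧ tE e < t) ∧ (nm e.1 * nm e.2).Coprime R)).card =
      {e : G × G | e ∈ NE 1 0 s t x ∧ (nm e.1 * nm e.2).Coprime R}.ncard := by
  rw [← Set.ncard_coe_finset]
  congr 1
  ext e
  rw [coe_filter]
  show e ∈ EN 1 x ∧ (s ≤ tE e ∧ tE e < t) ∧ _ ↔ e ∈ NE 1 0 s t x ∧ _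
  rw [mem_EN one_pos]
  unfold NE
  rw [Set.mem_ofPred_eq]
  constructor
  · rintro ⟨⟨h1, h2⟩, ⟨h3, h4⟩, h7⟩
    have hd := (totr_En_iff e).1 h1
    obtain ⟨h5, h6⟩ := totr_nm_pos hd.1
    refine ⟨⟨hd.1, hd.2, h2, (totr_lo h5 h6 s).1 h3, ?_, ?_, ?_⟩, h7⟩
    · rw [← not_le, ← totr_lo h5 h6 t, not_le]
      exact h4
    · simp [cg]
    · simp [cg]
  · rintro ⟨⟨h1, h2, h3, h4, h5, -, -⟩, h8⟩
    obtain ⟨h6, h7⟩ := totr_nm_pos h1
    refine ⟨⟨(totr_En_iff e).2 ⟨h1, h2⟩, h3⟩, ⟨(totr_lo h6 h7 s).2 h4, ?_⟩, h8⟩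
    rw [← not_le, totr_lo h6 h7 t, not_le]
    exact h5

/-- PROOF. `equid R` gives `κ_R` with `#(NE R γ s t x)/x → κ_R (t - s)` for every `γ` with `R ∣ det γ - 1`; `count_lim` with `P e = (nm e.1 * nm e.2).Coprime R` (periodic modulo `R`: `nm` is a polynomial in the coordinates) gives the
limit `#((cls R).filter P) κ_R (t - s)` for `{e ∈ NE 1 0 s t x | P e}`, and `P = True` gives `#(cls R) κ_R log 6 ≥ c > 0` by `ne_lower`, so `κ_R > 0`. `(cls R).filter P` is not empty: it contains the class of `(1, i)` (`det = 1`, `nm = 1`; for `R = 1`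
the class `(0,0)`). Finally `EN 1 x` with `s ≤ tE < t` is `NE 1 0 s t x` (see `en_lim` in piece SHARP), and the boundary `tE = t` is negligible: `s ≤ tE < t ⊆ s ≤ tE ≤ t ⊆ s ≤ tE < t + δ`. -/
theorem totR (R : ℕ) (hR : 0 < R) : ∃ κ : ℝ, 0 < κ ∧ ∀ s t : ℝ, s ≤ t → Tendsto (fun X : ℝ =>
    (((EN 1 X).filter (fun e => (s ≤ tE e ∧ tE e ≤ t) ∧ (nm e.1 * nm e.2).Coprime R)).card : ℝ) / X) atTop
      (nhds (κ * (t - s))) := by
  classical
  obtain ⟨κ, hκ⟩ := equid R hR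
  obtain ⟨c, hc, hlow⟩ := ne_lower
  have hlog : 0 < Real.log 6 := Real.log_pos (by norm_num)
  have hκ0 : 0 < κ := by
    have h1 := DCount.count_lim R hR (fun _ => True) (fun _ _ _ _ => Iff.rfl) κ hκ 0 (Real.log 6) hlog.le
    simp only [and_true, Set.ofPred_mem_eq, Finset.filter_true] at h1
    have h2 : c ≤ ((cls R).card : ℝ) * (κ * (Real.log 6 - 0)) := by
      refine ge_of_tendsto h1 ?_
      filter_upwards [hlow, eventually_gt_atTop 0] with x hx hx0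
      rw [le_div_iff₀ hx0]
      exact hx
    by_contra hle
    push Not at hle
    have h3 : ((cls R).card : ℝ) * (κ * (Real.log 6 - 0)) ≤ 0 :=
      mul_nonpos_of_nonneg_of_nonpos (by positivity)
        (mul_nonpos_of_nonpos_of_nonneg hle (by linarith))
    linarith
  obtain ⟨P, hP⟩ : ∃ P : G × G → Prop, P = fun e => (nm e.1 * nm e.2).Coprime R := ⟨_, rfl⟩
  have hper : Per R P := by
    rw [hP]
    exact totr_per R
  have hne : 0 < ((cls R).filter P).card := by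
    rw [Finset.card_pos]
    refine ⟨DCount.rep R (⟨1, 0⟩, ⟨0, 1⟩), Finset.mem_filter.2
      ⟨DCount.rep_mem R hR _ (by simp [det]), ?_⟩⟩
    obtain ⟨h1, h2⟩ := DCount.cg_rep R ((⟨1, 0⟩, ⟨0, 1⟩) : G × G)
    refine (hper _ _ h1 h2).1 ?_
    have e1 : nm (⟨1, 0⟩ : G) = 1 := by
      have : ((nm (⟨1, 0⟩ : G) : ℕ) : ℤ) = ((1 : ℕ) : ℤ) := by rw [nm_eq]; norm_num
      exact_mod_cast this
    have e2 : nm (⟨0, 1⟩ : G) = 1 := by
      have : ((nm (⟨0, 1⟩ : G) : ℕ) : ℤ) = ((1 : ℕ) : ℤ) := by rw [nm_eq]; norm_num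
      exact_mod_cast this
    rw [hP]
    show (nm (⟨1, 0⟩ : G) * nm (⟨0, 1⟩ : G)).Coprime R
    rw [e1, e2]
    simp
  obtain ⟨K, hK⟩ : ∃ K : ℝ, K = (((cls R).filter P).card : ℝ) * κ := ⟨_, rfl⟩
  have hK0 : 0 < K := by
    rw [hK]
    have : (0 : ℝ) < ((cls R).filter P).card := by
      exact_mod_cast hne
    positivity
  have hlim : ∀ s t : ℝ, s ≤ t → Tendsto (fun X : ℝ =>
      (((EN 1 X).filter (fun e => (s ≤ tE e ∧ tE e < t) ∧ (nm e.1 * nm e.2).Coprime R)).card : ℝ) / X)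
        atTop (nhds (K * (t - s))) := by
    intro s t hst
    have h1 := DCount.count_lim R hR P hper κ hκ s t hst
    rw [hK]
    have h2 : (fun X : ℝ =>
        (((EN 1 X).filter (fun e => (s ≤ tE e ∧ tE e < t) ∧ (nm e.1 * nm e.2).Coprime R)).card : ℝ) / X) =
        fun x : ℝ => ({e : G × G | e ∈ NE 1 0 s t x ∧ P e}.ncard : ℝ) / x := by
      funext x
      rw [hP, ← totr_card R s t x]
    rw [h2, mul_assoc]
    exact h1
  refine ⟨K, hK0, fun s t hst => ?_⟩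
  rw [Metric.tendsto_atTop]
  intro ε hε
  obtain ⟨δ, hδ⟩ : ∃ δ : ℝ, δ = ε / (2 * K) := ⟨_, rfl⟩
  have hδ0 : 0 < δ := by rw [hδ]; positivity
  have hKδ : K * δ = ε / 2 := by rw [hδ]; field_simp
  obtain ⟨X1, hX1⟩ := Metric.tendsto_atTop.1 (hlim s t hst) (ε / 2) (by positivity)
  obtain ⟨X2, hX2⟩ := Metric.tendsto_atTop.1 (hlim s (t + δ) (by linarith)) (ε / 2) (by positivity)
  refine ⟨max 1 (max X1 X2), fun X hX => ?_⟩
  have y0 : 1 ≤ X := (le_max_left _ _).trans hX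
  have y1 := hX1 X (((le_max_left _ _).trans (le_max_right _ _)).trans hX)
  have y2 := hX2 X (((le_max_right _ _).trans (le_max_right _ _)).trans hX)
  have hX0 : 0 < X := by linarith
  rw [Real.dist_eq, abs_lt] at y1 y2
  have c1 : (((EN 1 X).filter (fun e => (s ≤ tE e ∧ tE e < t) ∧ (nm e.1 * nm e.2).Coprime R)).card : ℝ) / X ≤
      (((EN 1 X).filter (fun e => (s ≤ tE e ∧ tE e ≤ t) ∧ (nm e.1 * nm e.2).Coprime R)).card : ℝ) / X := by
    refine div_le_div_of_nonneg_right ?_ hX0.le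
    refine Nat.cast_le.2 (Finset.card_le_card fun e he => ?_)
    obtain ⟨h0, h⟩ := Finset.mem_filter.1 he
    exact Finset.mem_filter.2 ⟨h0, ⟨h.1.1, h.1.2.le⟩, h.2⟩
  have c2 : (((EN 1 X).filter (fun e => (s ≤ tE e ∧ tE e ≤ t) ∧ (nm e.1 * nm e.2).Coprime R)).card : ℝ) / X ≤
      (((EN 1 X).filter (fun e => (s ≤ tE e ∧ tE e < t + δ) ∧ (nm e.1 * nm e.2).Coprime R)).card : ℝ) / X := by
    refine div_le_div_of_nonneg_right ?_ hX0.le
    refine Nat.cast_le.2 (Finset.card_le_card fun e he => ?_)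
    obtain ⟨h0, h⟩ := Finset.mem_filter.1 he
    exact Finset.mem_filter.2 ⟨h0, ⟨h.1.1, lt_of_le_of_lt h.1.2 (by linarith)⟩, h.2⟩
  rw [Real.dist_eq, abs_lt]
  have e1 : K * (t + δ - s) = K * (t - s) + ε / 2 := by
    rw [← hKδ]
    ring
  constructor <;> linarith [y1.1, y1.2, y2.1, y2.2]

end Pool.Agent.OmEq
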