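import Pool.Agent.Lib_MP_f1a94e_eq.LimH
import Pool.Agent.Lib_MP_f1a94e_eq.Sharp
import Pool.Agent.Lib_MP_f1a94e_eq.TotR
import Pool.Agent.Lib_MP_f1a94e_eq.FzD

/-!
# Piece FINE: joint equidistribution over edges
-/

set_option autoImplicit false

namespace Pool.Agent.OmEq

open Finset Pool.Agent.GaussMR Pool.Agent.OmAll MeasureTheory Filter

theorem fine_nm_ne {X : ℝ} {e : G × G} (he : e ∈ EN 1 X) : nm e.1 ≠ 0 ∧ nm e.2 ≠ 0 := by
  rw [mem_EN one_pos] at he
  have h1 := he.1.1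
  have h2 := dot_sq_add_det_sq e.1 e.2
  rw [h1] at h2
  constructor
  · intro h
    rw [h] at h2
    push_cast at h2
    nlinarith [sq_nonneg (dot e.1 e.2)]
  · intro h
    rw [h] at h2
    push_cast at h2
    nlinarith [sq_nonneg (dot e.1 e.2)]

/-- the sum of the characters over the edges -/
noncomputable def fineS (q R : ℕ) (s t : ℝ) (i j : ℕ) (X : ℝ) : ℂ :=
  ∑ e ∈ (EN 1 X).filter (fun e => s ≤ tE e ∧ tE e ≤ t),
    fz R (zq q ^ i) (nm e.1) * fz R (zq q ^ j) (nm e.2)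

theorem fine_count (q : ℕ) (hq : 0 < q) (R : ℕ) (s t : ℝ) (a b : ℕ) (X : ℝ) :
    ((((EN 1 X).filter (fun e => ((s ≤ tE e ∧ tE e ≤ t) ∧ (nm e.1 * nm e.2).Coprime R) ∧
        ArithmeticFunction.cardFactors (nm e.1) ≡ a [MOD q] ∧
        ArithmeticFunction.cardFactors (nm e.2) ≡ b [MOD q])).card : ℕ) : ℂ) =
      ∑ i ∈ range q, ∑ j ∈ range q,
        ((zq q ^ (i * a))⁻¹ * (zq q ^ (j * b))⁻¹ / (q : ℂ) ^ 2) * fineS q R s t i j X := by
  classical
  have hq0 : (q : ℂ) ≠ 0 := by exact_mod_cast hq.ne'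
  have h1 : ∑ i ∈ range q, ∑ j ∈ range q,
      ((zq q ^ (i * a))⁻¹ * (zq q ^ (j * b))⁻¹ / (q : ℂ) ^ 2) * fineS q R s t i j X =
      ∑ e ∈ (EN 1 X).filter (fun e => s ≤ tE e ∧ tE e ≤ t), ∑ i ∈ range q, ∑ j ∈ range q,
        ((zq q ^ (i * a))⁻¹ * (zq q ^ (j * b))⁻¹ / (q : ℂ) ^ 2) *
          (fz R (zq q ^ i) (nm e.1) * fz R (zq q ^ j) (nm e.2)) := by
    symm
    rw [sum_comm]
    apply sum_congr rfl
    intro i _
    rw [sum_comm]
    apply sum_congr rfl
    intro j _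
    unfold fineS
    rw [mul_sum]
  rw [h1, card_filter, Nat.cast_sum, sum_filter]
  apply sum_congr rfl
  intro e he
  obtain ⟨hn1, hn2⟩ := fine_nm_ne he
  by_cases hA : s ≤ tE e ∧ tE e ≤ t
  swap
  · rw [if_neg (fun h => hA h.1.1), if_neg hA, Nat.cast_zero]
  rw [if_pos hA]
  by_cases hC : (nm e.1 * nm e.2).Coprime R
  · have hC1 : (nm e.1).Coprime R := Nat.Coprime.coprime_mul_right hC
    have hC2 : (nm e.2).Coprime R := Nat.Coprime.coprime_mul_left hC
    have h2 : ∑ i ∈ range q, ∑ j ∈ range q,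
        ((zq q ^ (i * a))⁻¹ * (zq q ^ (j * b))⁻¹ / (q : ℂ) ^ 2) *
          (fz R (zq q ^ i) (nm e.1) * fz R (zq q ^ j) (nm e.2)) =
        (∑ i ∈ range q, (zq q ^ (i * a))⁻¹ * (zq q ^ i) ^ ArithmeticFunction.cardFactors (nm e.1)) *
        (∑ j ∈ range q, (zq q ^ (j * b))⁻¹ * (zq q ^ j) ^ ArithmeticFunction.cardFactors (nm e.2)) /
          (q : ℂ) ^ 2 := by
      rw [sum_mul_sum, sum_div]
      apply sum_congr rfl
      intro i _
      rw [sum_div]
      apply sum_congr rfl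
      intro j _
      unfold fz
      rw [if_neg (by tauto), if_neg (by tauto)]
      ring
    rw [h2, fine_orth hq, fine_orth hq]
    by_cases h3 : ArithmeticFunction.cardFactors (nm e.1) ≡ a [MOD q]
    · by_cases h4 : ArithmeticFunction.cardFactors (nm e.2) ≡ b [MOD q]
      · rw [if_pos ⟨⟨hA, hC⟩, h3, h4⟩, if_pos h3, if_pos h4, Nat.cast_one]
        field_simp
      · rw [if_neg (fun h => h4 h.2.2), if_neg h4, mul_zero, zero_div, Nat.cast_zero]
    · rw [if_neg (fun h => h3 h.2.1), if_neg h3, zero_mul, zero_div, Nat.cast_zero]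
  · rw [if_neg (fun h => hC h.1.2), Nat.cast_zero]
    symm
    apply sum_eq_zero
    intro i _
    apply sum_eq_zero
    intro j _
    have h2 : ¬ (nm e.1).Coprime R ∨ ¬ (nm e.2).Coprime R := by
      by_contra h
      push Not at h
      exact hC (Nat.Coprime.mul_left h.1 h.2)
    unfold fz
    rcases h2 with h2 | h2
    · rw [if_pos (Or.inr h2)]
      ring
    · rw [if_pos (c := nm e.2 = 0 ∨ ¬ (nm e.2).Coprime R) (Or.inr h2)]
      ring

/-- the sums with different or equal characters. PROOF. `i ≠ j` (`i, j < q`): `zq q ^ i ≠ zq q ^ j` (`Complex.isPrimitiveRoot_exp`), so `joint_ne`; `i = j ≠ 0`: `sm` with `H`. -/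
theorem char_lim (q : ℕ) (hq : 0 < q) (R : ℕ) (hR : 0 < R) (i j : ℕ) (hi : i < q) (hj : j < q)
    (hij : ¬ (i = 0 ∧ j = 0)) (H : i = j → GmSmall (fz R (zq q ^ j))) (b : ℝ) (W : ℝ → ℝ → ℂ) (hW : TF b W) :
    Tendsto (fun X : ℝ => (∑ e ∈ EN 1 (b * X), fz R (zq q ^ i) (nm e.1) * fz R (zq q ^ j) (nm e.2) *
      W (mE e / X) (tE e)) / X) atTop (nhds 0) := by
  have hFi := fz_FF R hR (zq q ^ i) (fine_norm q hq i)
  have hFj := fz_FF R hR (zq q ^ j) (fine_norm q hq j)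
  by_cases h : i = j
  · subst h
    exact sm (fz R (zq q ^ i)) hFi.mul hFi.bd (H rfl) b W hW
  · refine joint_ne R.primeFactors _ _ (zq q ^ i) (zq q ^ j) hFi hFj (fine_norm q hq i)
      (fine_norm q hq j) ?_ b W hW
    intro h1
    rw [fine_pow_eq hq] at h1
    apply h
    unfold Nat.ModEq at h1
    rwa [Nat.mod_eq_of_lt hi, Nat.mod_eq_of_lt hj] at h1

/-- the sharp sums with characters are small -/
theorem fine_lim (q : ℕ) (hq : 0 < q) (R : ℕ) (hR : 0 < R) (i j : ℕ) (hi : i < q) (hj : j < q)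
    (hij : ¬ (i = 0 ∧ j = 0)) (H : i = j → GmSmall (fz R (zq q ^ j))) (s t : ℝ) (hst : s ≤ t) :
    Tendsto (fun X : ℝ => fineS q R s t i j X / X) atTop (nhds 0) := by
  have hFi := fz_FF R hR (zq q ^ i) (fine_norm q hq i)
  have hFj := fz_FF R hR (zq q ^ j) (fine_norm q hq j)
  refine sharp (fun e => fz R (zq q ^ i) (nm e.1) * fz R (zq q ^ j) (nm e.2)) ?_ ?_ s t hst
  · intro e
    rw [norm_mul]
    calc ‖fz R (zq q ^ i) (nm e.1)‖ * ‖fz R (zq q ^ j) (nm e.2)‖ ≤ 1 * 1 := by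
          apply mul_le_mul (hFi.bd _) (hFj.bd _) (norm_nonneg _) zero_le_one
      _ = 1 := one_mul 1
  · intro b W hW
    exact char_lim q hq R hR i j hi hj hij H b W hW

/-- the sum with trivial characters is the number of edges -/
theorem fine_zero (q : ℕ) (R : ℕ) (s t : ℝ) (X : ℝ) :
    fineS q R s t 0 0 X = ((((EN 1 X).filter (fun e => (s ≤ tE e ∧ tE e ≤ t) ∧
      (nm e.1 * nm e.2).Coprime R)).card : ℕ) : ℂ) := by
  classical
  unfold fineS
  rw [card_filter, Nat.cast_sum, sum_filter]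
  apply sum_congr rfl
  intro e he
  obtain ⟨hn1, hn2⟩ := fine_nm_ne he
  by_cases hA : s ≤ tE e ∧ tE e ≤ t
  swap
  · rw [if_neg hA, if_neg (fun h => hA h.1), Nat.cast_zero]
  rw [if_pos hA]
  unfold fz
  by_cases hC : (nm e.1 * nm e.2).Coprime R
  · have hC1 : (nm e.1).Coprime R := Nat.Coprime.coprime_mul_right hC
    have hC2 : (nm e.2).Coprime R := Nat.Coprime.coprime_mul_left hC
    rw [if_neg (by tauto), if_neg (by tauto), if_pos ⟨hA, hC⟩]
    simp
  · have h2 : ¬ (nm e.1).Coprime R ∨ ¬ (nm e.2).Coprime R := by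
      by_contra h
      push Not at h
      exact hC (Nat.Coprime.mul_left h.1 h.2)
    have h3 : ¬ ((s ≤ tE e ∧ tE e ≤ t) ∧ (nm e.1 * nm e.2).Coprime R) := fun h => hC h.2
    rcases h2 with h2 | h2
    · rw [if_pos (Or.inr h2), zero_mul, if_neg h3, Nat.cast_zero]
    · rw [if_pos (c := nm e.2 = 0 ∨ ¬ (nm e.2).Coprime R) (Or.inr h2), mul_zero, if_neg h3,
        Nat.cast_zero]

/-- PROOF. `κ` from `totR R`. Orthogonality: for `n1, n2` coprime to `R` (and nonzero), the indicator of `Ω(n1) ≡ a, Ω(n2) ≡ b mod q` is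
`(1/q^2) ∑_(i, j < q) z^(- i a - j b) fz R (z^i) n1 * fz R (z^j) n2`, `z = zq q` (geometric sums, `IsPrimitiveRoot.geom_sum_eq_zero`), and both sides vanish if `n1 n2` is not coprime to `R`
(`Nat.coprime_mul_iff_left`; norms of the edges of `EN 1` are not zero). Sum over the edges with `s ≤ tE ≤ t`: the term `i = j = 0` is `(1/q^2)` times the count of `totR`; the others are `o(X)` by `sharp` (`Φ e = fz .. * fz ..`,
`‖Φ‖ ≤ 1` by `fz_FF.bd`) and `char_lim`. Real parts. -/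
theorem fin_edges (q : ℕ) (hq : 0 < q) (R : ℕ) (hR : 0 < R) (H : ∀ j : ℕ, 1 ≤ j → j < q → GmSmall (fz R (zq q ^ j))) :
    ∃ κ : ℝ, 0 < κ ∧ ∀ s t : ℝ, s ≤ t → Tendsto (fun X : ℝ =>
      (((EN 1 X).filter (fun e => (s ≤ tE e ∧ tE e ≤ t) ∧ (nm e.1 * nm e.2).Coprime R)).card : ℝ) / X) atTop
        (nhds (κ * (t - s))) ∧
      ∀ a b : ℕ, Tendsto (fun X : ℝ => (((EN 1 X).filter (fun e => ((s ≤ tE e ∧ tE e ≤ t) ∧ (nm e.1 * nm e.2).Coprime R) ∧
        ArithmeticFunction.cardFactors (nm e.1) ≡ a [MOD q] ∧ ArithmeticFunction.cardFactors (nm e.2) ≡ b [MOD q])).card : ℝ) / X)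
          atTop (nhds (κ * (t - s) / q ^ 2)) := by
  obtain ⟨κ, hκ, hlim⟩ := totR R hR
  refine ⟨κ, hκ, fun s t hst => ⟨hlim s t hst, fun a b => ?_⟩⟩
  have hS : ∀ i ∈ range q, ∀ j ∈ range q, Tendsto (fun X : ℝ => fineS q R s t i j X / X) atTop
      (nhds (if i = 0 ∧ j = 0 then ((κ * (t - s) : ℝ) : ℂ) else 0)) := by
    intro i hi j hj
    rw [mem_range] at hi hj
    by_cases h : i = 0 ∧ j = 0
    · rw [if_pos h, h.1, h.2]
      have h1 := (Complex.continuous_ofReal.tendsto (κ * (t - s))).comp (hlim s t hst)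
      refine h1.congr (fun X => ?_)
      rw [fine_zero, Function.comp_apply]
      push_cast
      rfl
    · rw [if_neg h]
      refine fine_lim q hq R hR i j hi hj h (fun hij => ?_) s t hst
      apply H j _ hj
      rcases Nat.eq_zero_or_pos j with h0 | h0
      · exfalso
        apply h
        rw [hij, h0]
        exact ⟨rfl, rfl⟩
      · exact h0
  have hC : Tendsto (fun X : ℝ => ∑ i ∈ range q, ∑ j ∈ range q,
      ((zq q ^ (i * a))⁻¹ * (zq q ^ (j * b))⁻¹ / (q : ℂ) ^ 2) * (fineS q R s t i j X / X)) atTop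
      (nhds (∑ i ∈ range q, ∑ j ∈ range q, ((zq q ^ (i * a))⁻¹ * (zq q ^ (j * b))⁻¹ / (q : ℂ) ^ 2) *
        (if i = 0 ∧ j = 0 then ((κ * (t - s) : ℝ) : ℂ) else 0))) := by
    apply tendsto_finsetSum
    intro i hi
    apply tendsto_finsetSum
    intro j hj
    exact (hS i hi j hj).const_mul _
  have hval : ∑ i ∈ range q, ∑ j ∈ range q, ((zq q ^ (i * a))⁻¹ * (zq q ^ (j * b))⁻¹ / (q : ℂ) ^ 2) *
        (if i = 0 ∧ j = 0 then ((κ * (t - s) : ℝ) : ℂ) else 0) =
        ((κ * (t - s) / q ^ 2 : ℝ) : ℂ) := by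
    rw [sum_eq_single 0, sum_eq_single 0]
    · rw [if_pos ⟨rfl, rfl⟩]
      push_cast
      simp
      ring
    · intro j _ hj
      rw [if_neg (fun h => hj h.2), mul_zero]
    · intro h
      exact absurd (mem_range.2 hq) h
    · intro i _ hi
      apply sum_eq_zero
      intro j _
      rw [if_neg (fun h => hi h.1), mul_zero]
    · intro h
      exact absurd (mem_range.2 hq) h
  rw [hval] at hC
  have hre := (Complex.continuous_re.tendsto _).comp hC
  rw [Complex.ofReal_re] at hre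
  refine hre.congr (fun X => ?_)
  rw [Function.comp_apply]
  have h1 : ∑ i ∈ range q, ∑ j ∈ range q,
      ((zq q ^ (i * a))⁻¹ * (zq q ^ (j * b))⁻¹ / (q : ℂ) ^ 2) * (fineS q R s t i j X / X) =
      ((((((EN 1 X).filter (fun e => ((s ≤ tE e ∧ tE e ≤ t) ∧ (nm e.1 * nm e.2).Coprime R) ∧
        ArithmeticFunction.cardFactors (nm e.1) ≡ a [MOD q] ∧
        ArithmeticFunction.cardFactors (nm e.2) ≡ b [MOD q])).card : ℝ) / X) : ℝ) : ℂ) := by
    push_cast
    rw [fine_count q hq R s t a b X, sum_div]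
    apply sum_congr rfl
    intro i _
    rw [sum_div]
    apply sum_congr rfl
    intro j _
    ring
  rw [h1, Complex.ofReal_re]

/-- PROOF. As `fin_edges`, for all `q`: `q` odd or even; only the term `i = j = q/2` (if `q` is even) is not controlled, and its coefficient `z^(- (q/2) (a + b)) = (-1)^(a+b)` is the same for `(a, b)` and `(a', b')`
if `a + b ≡ a' + b' mod 2`. For `1 ≤ j < q` with `2 j ≠ q`: `(z^j)^2 ≠ 1`, hypothesis `H`. -/
theorem fin_diff (q : ℕ) (hq : 0 < q) (R : ℕ) (hR : 0 < R)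
    (H : ∀ j : ℕ, 1 ≤ j → j < q → 2 * j ≠ q → GmSmall (fz R (zq q ^ j))) (s t : ℝ) (hst : s ≤ t) (a b a' b' : ℕ)
    (hab : (a + b) % 2 = (a' + b') % 2) :
    Tendsto (fun X : ℝ => ((((EN 1 X).filter (fun e => ((s ≤ tE e ∧ tE e ≤ t) ∧ (nm e.1 * nm e.2).Coprime R) ∧
        ArithmeticFunction.cardFactors (nm e.1) ≡ a [MOD q] ∧ ArithmeticFunction.cardFactors (nm e.2) ≡ b [MOD q])).card : ℝ) -
      (((EN 1 X).filter (fun e => ((s ≤ tE e ∧ tE e ≤ t) ∧ (nm e.1 * nm e.2).Coprime R) ∧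
        ArithmeticFunction.cardFactors (nm e.1) ≡ a' [MOD q] ∧ ArithmeticFunction.cardFactors (nm e.2) ≡ b' [MOD q])).card : ℝ)) / X)
          atTop (nhds 0) := by
  have h0 := fine_ne hq
  have hterm : ∀ i ∈ range q, ∀ j ∈ range q, Tendsto (fun X : ℝ =>
      (((zq q ^ (i * a))⁻¹ * (zq q ^ (j * b))⁻¹ / (q : ℂ) ^ 2) -
        ((zq q ^ (i * a'))⁻¹ * (zq q ^ (j * b'))⁻¹ / (q : ℂ) ^ 2)) * (fineS q R s t i j X / X)) atTop
      (nhds 0) := by
    intro i hi j hj
    rw [mem_range] at hi hj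
    by_cases h : i = 0 ∧ j = 0
    · rw [h.1, h.2]
      simp
    · by_cases h2 : i = j ∧ 2 * j = q
      · have h3 : ((zq q ^ (i * a))⁻¹ * (zq q ^ (j * b))⁻¹ / (q : ℂ) ^ 2) -
            ((zq q ^ (i * a'))⁻¹ * (zq q ^ (j * b'))⁻¹ / (q : ℂ) ^ 2) = 0 := by
          have h4 : zq q ^ (i * a) * zq q ^ (j * b) = zq q ^ (i * a') * zq q ^ (j * b') := by
            rw [h2.1, ← pow_add, ← pow_add, ← mul_add, ← mul_add, fine_pow_eq hq, ← h2.2, mul_comm 2 j]
            exact Nat.ModEq.mul_left' j hab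
          rw [← mul_inv, ← mul_inv, h4, sub_self]
        rw [h3]
        simp
      · have h3 : Tendsto (fun X : ℝ => fineS q R s t i j X / X) atTop (nhds 0) := by
          refine fine_lim q hq R hR i j hi hj h (fun hij => ?_) s t hst
          apply H j _ hj
          · intro h4
            exact h2 ⟨hij, h4⟩
          · rcases Nat.eq_zero_or_pos j with h0 | h0
            · exfalso
              apply h
              rw [hij, h0]
              exact ⟨rfl, rfl⟩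
            · exact h0
        have h4 := h3.const_mul (((zq q ^ (i * a))⁻¹ * (zq q ^ (j * b))⁻¹ / (q : ℂ) ^ 2) -
            ((zq q ^ (i * a'))⁻¹ * (zq q ^ (j * b'))⁻¹ / (q : ℂ) ^ 2))
        rwa [mul_zero] at h4
  have hC : Tendsto (fun X : ℝ => ∑ i ∈ range q, ∑ j ∈ range q,
      (((zq q ^ (i * a))⁻¹ * (zq q ^ (j * b))⁻¹ / (q : ℂ) ^ 2) -
        ((zq q ^ (i * a'))⁻¹ * (zq q ^ (j * b'))⁻¹ / (q : ℂ) ^ 2)) * (fineS q R s t i j X / X)) atTop
      (nhds (∑ i ∈ range q, ∑ j ∈ range q, (0 : ℂ))) := by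
    apply tendsto_finsetSum
    intro i hi
    apply tendsto_finsetSum
    intro j hj
    exact hterm i hi j hj
  rw [sum_eq_zero (fun i _ => sum_const_zero)] at hC
  have hre := (Complex.continuous_re.tendsto _).comp hC
  rw [Complex.zero_re] at hre
  refine hre.congr (fun X => ?_)
  rw [Function.comp_apply]
  have h1 : ∑ i ∈ range q, ∑ j ∈ range q,
      (((zq q ^ (i * a))⁻¹ * (zq q ^ (j * b))⁻¹ / (q : ℂ) ^ 2) -
        ((zq q ^ (i * a'))⁻¹ * (zq q ^ (j * b'))⁻¹ / (q : ℂ) ^ 2)) * (fineS q R s t i j X / X) =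
      ((((((EN 1 X).filter (fun e => ((s ≤ tE e ∧ tE e ≤ t) ∧ (nm e.1 * nm e.2).Coprime R) ∧
        ArithmeticFunction.cardFactors (nm e.1) ≡ a [MOD q] ∧
        ArithmeticFunction.cardFactors (nm e.2) ≡ b [MOD q])).card : ℝ) -
        (((EN 1 X).filter (fun e => ((s ≤ tE e ∧ tE e ≤ t) ∧ (nm e.1 * nm e.2).Coprime R) ∧
        ArithmeticFunction.cardFactors (nm e.1) ≡ a' [MOD q] ∧
        ArithmeticFunction.cardFactors (nm e.2) ≡ b' [MOD q])).card : ℝ)) / X : ℝ) : ℂ) := by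
    push_cast
    rw [fine_count q hq R s t a b X, fine_count q hq R s t a' b' X, ← sum_sub_distrib, sum_div]
    apply sum_congr rfl
    intro i _
    rw [← sum_sub_distrib, sum_div]
    apply sum_congr rfl
    intro j _
    ring
  rw [h1, Complex.ofReal_re]

end Pool.Agent.OmEq
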