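import Pool.Agent.Lib_MP_f1a94e_eq.Defs
import Pool.Agent.Lib_MP_f1a94e_aq.Exist
import Pool.Agent.Lib_MP_f1a94e_aq.DEdges

/-!
# Piece FOURC: factorisations and edges
-/

set_option autoImplicit false

namespace Pool.Agent.OmEq

open Finset Pool.Agent.GaussMR Pool.Agent.OmAll

private theorem fourC_En (e : G × G) : En 1 e ↔ det e.1 e.2 = 1 ∧ 0 < dot e.1 e.2 := by
  constructor
  · rintro ⟨h1, h2, -, -⟩
    exact ⟨by simpa using h1, h2⟩
  · rintro ⟨h1, h2⟩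
    refine ⟨by simpa using h1, h2, ?_, 1, isCoprime_one_left, ?_, ?_⟩
    · have h3 : e.1.re * e.2.im - e.1.im * e.2.re = 1 := h1
      exact ⟨e.2.im, -e.2.re, by linarith⟩
    · simp
    · simp

private theorem fourC_mul {e : G × G} {m : ℕ} (h1 : det e.1 e.2 = 1) (h2 : dot e.1 e.2 = m) :
    nm e.1 * nm e.2 = m ^ 2 + 1 := by
  have h4 := dot_sq_add_det_sq e.1 e.2
  rw [h1, h2] at h4
  have h5 : ((nm e.1 * nm e.2 : ℕ) : ℤ) = ((m ^ 2 + 1 : ℕ) : ℤ) := by
    push_cast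
    linarith
  exact_mod_cast h5

open Classical in
/-- PROOF. As `dcount_edges` (DEdges.lean): the map `e ↦ (nm e.1, nm e.2)` from the left set to the right set; `dot e.1 e.2 = m ≥ 1`, `nm e.1 nm e.2 = m^2 + 1` (`dot_sq_add_det_sq`), `m` is determined by `(d, e)`, and the fibre over
`(d, d')` with `d d' = m^2 + 1` is `{e : det = 1, dot = m, nm e.1 = d}`, which has `4` elements (`four`, `d ∣ m^2 + 1`; then `nm e.2 = d'`). `En 1 e`: `V` primitive as `det = 1`, congruences modulo 1 are trivial. -/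
theorem four_count (X : ℝ) (P : ℕ × ℕ → Prop) :
    ((EN 1 X).filter (fun e => P (nm e.1, nm e.2))).card =
      4 * {r : ℕ × ℕ | (∃ m : ℕ, 1 ≤ m ∧ (m : ℝ) ≤ X ∧ r.1 * r.2 = m ^ 2 + 1) ∧ P r}.ncard := by
  set F : Finset (G × G) := (EN 1 X).filter (fun e => P (nm e.1, nm e.2)) with hF
  have hmem : ∀ e : G × G, e ∈ F ↔ (det e.1 e.2 = 1 ∧ 0 < dot e.1 e.2 ∧
      ((dot e.1 e.2 : ℤ) : ℝ) ≤ X) ∧ P (nm e.1, nm e.2) := by
    intro e
    rw [hF, mem_filter, mem_EN one_pos, fourC_En]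
    unfold mE
    tauto
  -- the fibre over a factorisation
  have hfib : ∀ (r : ℕ × ℕ) (m : ℕ), 1 ≤ m → (m : ℝ) ≤ X → r.1 * r.2 = m ^ 2 + 1 → P r →
      (F.filter (fun e => (nm e.1, nm e.2) = r)).card = 4 := by
    intro r m hm hmX hr hP
    have h4 := four m r.1 ⟨r.2, hr.symm⟩
    rw [← h4, ← Set.ncard_coe_finset]
    congr 1
    ext e
    rw [Finset.mem_coe, mem_filter, hmem, Set.mem_ofPred_eq]
    constructor
    · rintro ⟨⟨⟨a1, a2, a3⟩, a4⟩, a5⟩
      refine ⟨a1, ?_, by rw [← a5]⟩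
      obtain ⟨k, hk⟩ := Int.eq_ofNat_of_zero_le a2.le
      have h5 := fourC_mul a1 hk
      have h6 : nm e.1 * nm e.2 = m ^ 2 + 1 := by
        rw [← hr, ← a5]
      have h7 : k ^ 2 = m ^ 2 := by omega
      have h8 : k = m := Nat.pow_left_injective (n := 2) (by norm_num) h7
      rw [hk, h8]
    · rintro ⟨a1, a2, a3⟩
      have h5 := fourC_mul a1 a2
      have h6 : nm e.2 = r.2 := by
        have h7 : r.1 * nm e.2 = r.1 * r.2 := by rw [← a3, h5, a3, hr]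
        have h8 : 0 < r.1 := by
          rcases Nat.eq_zero_or_pos r.1 with h | h
          · rw [h, zero_mul] at hr
            omega
          · exact h
        exact Nat.eq_of_mul_eq_mul_left h8 h7
      have h9 : (nm e.1, nm e.2) = r := by rw [a3, h6]
      refine ⟨⟨⟨a1, ?_, ?_⟩, ?_⟩, h9⟩
      · rw [a2]; omega
      · rw [a2]; simpa using hmX
      · rw [h9]; exact hP
  -- the image of `F`
  have himg : {r : ℕ × ℕ | (∃ m : ℕ, 1 ≤ m ∧ (m : ℝ) ≤ X ∧ r.1 * r.2 = m ^ 2 + 1) ∧ P r} =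
      ((F.image (fun e => (nm e.1, nm e.2)) : Finset (ℕ × ℕ)) : Set (ℕ × ℕ)) := by
    ext r
    rw [Finset.mem_coe, mem_image, Set.mem_ofPred_eq]
    constructor
    · rintro ⟨⟨m, hm, hmX, hr⟩, hP⟩
      have h4 := hfib r m hm hmX hr hP
      have h5 : (F.filter (fun e => (nm e.1, nm e.2) = r)).Nonempty := by
        rw [← card_pos, h4]
        norm_num
      obtain ⟨e, he⟩ := h5
      rw [mem_filter] at he
      exact ⟨e, he.1, he.2⟩
    · rintro ⟨e, he, rfl⟩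
      rw [hmem] at he
      obtain ⟨⟨a1, a2, a3⟩, a4⟩ := he
      obtain ⟨k, hk⟩ := Int.eq_ofNat_of_zero_le a2.le
      refine ⟨⟨k, ?_, ?_, fourC_mul a1 hk⟩, a4⟩
      · rw [hk] at a2
        omega
      · rw [hk] at a3
        simpa using a3
  rw [himg, Set.ncard_coe_finset, card_eq_sum_card_image (fun e : G × G => (nm e.1, nm e.2)) F]
  have h4 : ∀ r ∈ F.image (fun e => (nm e.1, nm e.2)),
      (F.filter (fun e => (nm e.1, nm e.2) = r)).card = 4 := by
    intro r hr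
    have hr' : r ∈ {r : ℕ × ℕ | (∃ m : ℕ, 1 ≤ m ∧ (m : ℝ) ≤ X ∧ r.1 * r.2 = m ^ 2 + 1) ∧ P r} := by
      rw [himg]
      exact hr
    obtain ⟨⟨m, hm, hmX, hr1⟩, hP⟩ := hr'
    exact hfib r m hm hmX hr1 hP
  rw [sum_congr rfl h4, sum_const, smul_eq_mul, mul_comm]

end Pool.Agent.OmEq
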