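import Pool.Agent.Lib_MP_f1a94e_eq.GmA
import Pool.Agent.Lib_MP_f1a94e_eq.FinE
import Pool.Agent.Lib_MP_f1a94e_eq.FourC

/-!
# Final assembly, stage A
-/

set_option autoImplicit false

namespace Pool.Agent.OmEq

open Finset Pool.Agent.GaussMR Pool.Agent.OmAll MeasureTheory Filter

theorem zq_root (q : ℕ) (hq : 0 < q) : IsPrimitiveRoot (zq q) q := by
  unfold zq
  exact Complex.isPrimitiveRoot_exp q hq.ne'

theorem norm_zq (q : ℕ) (hq : 0 < q) (j : ℕ) : ‖zq q ^ j‖ = 1 := by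
  rw [norm_pow, (zq_root q hq).norm'_eq_one hq.ne', one_pow]

theorem zq_sq_ne (q : ℕ) (hq : 0 < q) (j : ℕ) (hj : 1 ≤ j) (hjq : j < q) (h2 : 2 * j ≠ q) : (zq q ^ j) ^ 2 ≠ 1 := by
  rw [← pow_mul]
  intro h
  have h1 := (zq_root q hq).dvd_of_pow_eq_one _ h
  obtain ⟨k, hk⟩ := h1
  have hk1 : k = 0 ∨ k = 1 ∨ 2 ≤ k := by omega
  rcases hk1 with h0 | h0 | h0
  · rw [h0] at hk; omega
  · rw [h0] at hk; omega
  · have : q * 2 ≤ q * k := Nat.mul_le_mul_left _ h0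
    omega

theorem gm_small_A (q : ℕ) (hq : 0 < q) (R : ℕ) (hR : 0 < R) (j : ℕ) (hj : 1 ≤ j) (hjq : j < q) (h2 : 2 * j ≠ q) :
    GmSmall (fz R (zq q ^ j)) :=
  gm_small_of_ne _ _ _ (fz_FF R hR _ (norm_zq q hq j)) (norm_zq q hq j) (zq_sq_ne q hq j hj hjq h2)

end Pool.Agent.OmEq
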