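import Pool.Agent.Lib_MP_f1a94e_eq.FinA
import Pool.Agent.Lib_MP_f1a94e_eq.RedB
import Pool.Agent.Lib_MP_f1a94e_eq.DSum
import Pool.Agent.Lib_MP_f1a94e_eq.QdS
import Pool.Agent.Lib_MP_f1a94e_eq.MrpO

/-!
# Final assembly, stage B
-/

set_option autoImplicit false

namespace Pool.Agent.OmEq

open Finset Pool.Agent.GaussMR Pool.Agent.OmAll MeasureTheory Filter

theorem gm_small_neg (hL : MRO (fun n => (-1 : ℂ) ^ ArithmeticFunction.cardFactors n)) (R : ℕ) (hR : 0 < R) :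
    GmSmall (fz R (-1)) := by
  have hF : FF (fz R (-1)) R.primeFactors (-1) := fz_FF R hR (-1) (by simp)
  exact redB _ _ _ hF (by simp) (dsum _ hF.bd (qds _ hF.bd (mrp_of_mro hL R hR)))

theorem gm_small_all (hL : MRO (fun n => (-1 : ℂ) ^ ArithmeticFunction.cardFactors n)) (q : ℕ) (hq : 0 < q)
    (R : ℕ) (hR : 0 < R) (j : ℕ) (hj : 1 ≤ j) (hjq : j < q) : GmSmall (fz R (zq q ^ j)) := by
  by_cases h2 : 2 * j = q
  · have h1 : (zq q ^ j) ^ 2 = 1 := by
      rw [← pow_mul, mul_comm, h2]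
      exact (zq_root q hq).pow_eq_one
    have h3 : zq q ^ j = 1 ∨ zq q ^ j = -1 := by
      have h4 : (zq q ^ j - 1) * (zq q ^ j + 1) = 0 := by linear_combination h1
      rcases mul_eq_zero.1 h4 with h5 | h5
      · exact Or.inl (sub_eq_zero.1 h5)
      · exact Or.inr (eq_neg_of_add_eq_zero_left h5)
    rcases h3 with h3 | h3
    · exfalso
      have := (zq_root q hq).dvd_of_pow_eq_one _ h3
      exact absurd (Nat.le_of_dvd (by omega) this) (by omega)
    · rw [h3]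
      exact gm_small_neg hL R hR
  · exact gm_small_A q hq R hR j hj hjq h2

/-- joint equidistribution for every `q`, from Matomaki-Radziwill in arcs -/
theorem fin_all (hL : MRO (fun n => (-1 : ℂ) ^ ArithmeticFunction.cardFactors n)) (q : ℕ) (hq : 0 < q) (R : ℕ) (hR : 0 < R) :
    ∃ κ : ℝ, 0 < κ ∧ ∀ s t : ℝ, s ≤ t → Tendsto (fun X : ℝ =>
      (((EN 1 X).filter (fun e => (s ≤ tE e ∧ tE e ≤ t) ∧ (nm e.1 * nm e.2).Coprime R)).card : ℝ) / X) atTop
        (nhds (κ * (t - s))) ∧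
      ∀ a b : ℕ, Tendsto (fun X : ℝ => (((EN 1 X).filter (fun e => ((s ≤ tE e ∧ tE e ≤ t) ∧ (nm e.1 * nm e.2).Coprime R) ∧
        ArithmeticFunction.cardFactors (nm e.1) ≡ a [MOD q] ∧ ArithmeticFunction.cardFactors (nm e.2) ≡ b [MOD q])).card : ℝ) / X)
          atTop (nhds (κ * (t - s) / q ^ 2)) :=
  fin_edges q hq R hR (fun j hj hjq => gm_small_all hL q hq R hR j hj hjq)

end Pool.Agent.OmEq
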