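import Pool.Agent.Lib_MP_f1a94e_eq.Pair

/-!
# Piece GRAM: correlations of pairs congruent modulo the determinant
-/

set_option autoImplicit false

namespace Pool.Agent.OmEq

open Finset Pool.Agent.GaussMR Pool.Agent.OmAll MeasureTheory Filter

open Classical in
/-- PROOF. For `e ∈ En n`: `cg n e.2 e.1` iff `cl n e = 1` (`cl_one`), and `cl n e` is a unit, so the indicator is `(1/φ(n)) ∑_χ χ (cl n e)`
(`DirichletCharacter.sum_char_inv_mul_char_eq` with `a = 1`). For each `χ` apply `pair_lim` with `f1 = f`, `f2 = conj f` (`FF.conj`), `ω1 = ω`, `ω2 = conj ω`: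
`ω1 * conj ω2 = ω ^ 2 ≠ 1`. Finite sum of limits. -/
theorem gram (n : ℕ) (hn : 0 < n) (f : ℕ → ℂ) (E : Finset ℕ) (ω : ℂ) (h : FF f E ω) (hω : ‖ω‖ = 1) (hω2 : ω ^ 2 ≠ 1)
    (b : ℝ) (W : ℝ → ℝ → ℂ) (hW : TF b W) :
    Tendsto (fun X : ℝ => (∑ e ∈ (EN n (b * X)).filter (fun e => cg n e.2 e.1),
      f (nm e.1) * (starRingEnd ℂ) (f (nm e.2)) * W (mE e / X) (tE e)) / X) atTop (nhds 0) := by
  have : NeZero n := ⟨hn.ne'⟩
  have hφ : ((n.totient : ℕ) : ℂ) ≠ 0 := by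
    exact_mod_cast (Nat.totient_pos.2 hn).ne'
  have h1 : Tendsto (fun X : ℝ => ∑ χ : DirichletCharacter ℂ n, (∑ e ∈ EN n (b * X),
      f (nm e.1) * (starRingEnd ℂ) (f (nm e.2)) * χ (cl n e) * W (mE e / X) (tE e)) / X) atTop
      (nhds (∑ _χ : DirichletCharacter ℂ n, (0 : ℂ))) := by
    refine tendsto_finsetSum _ fun χ _ => ?_
    refine pair_lim n χ E f (fun n => (starRingEnd ℂ) (f n)) ω ((starRingEnd ℂ) ω) h h.conj hω
      (by simpa using hω) b W hW (Or.inl ?_)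
    rw [Complex.conj_conj, ← sq]
    exact hω2
  have h2 := h1.const_mul (((n.totient : ℕ) : ℂ)⁻¹)
  rw [Finset.sum_const_zero, mul_zero] at h2
  refine h2.congr fun X => ?_
  rw [← Finset.sum_div, Finset.sum_comm, ← mul_div_assoc, Finset.mul_sum]
  congr 1
  rw [Finset.sum_filter]
  refine Finset.sum_congr rfl fun e he => ?_
  have hEn : En n e := ((mem_EN hn).1 he).1
  have h3 : ∑ χ : DirichletCharacter ℂ n, f (nm e.1) * (starRingEnd ℂ) (f (nm e.2)) * χ (cl n e) *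
      W (mE e / X) (tE e) = (∑ χ : DirichletCharacter ℂ n, χ (cl n e)) *
        (f (nm e.1) * (starRingEnd ℂ) (f (nm e.2)) * W (mE e / X) (tE e)) := by
    rw [Finset.sum_mul]
    exact Finset.sum_congr rfl fun χ _ => by ring
  rw [h3, DirichletCharacter.sum_characters_eq]
  by_cases hc : cg n e.2 e.1
  · rw [if_pos ((cl_one hEn).2 hc), if_pos hc, inv_mul_cancel_left₀ hφ]
  · rw [if_neg (fun h4 => hc ((cl_one hEn).1 h4)), if_neg hc]
    simp

end Pool.Agent.OmEq
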