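import Pool.Agent.Lib_MP_f1a94e_eq.LimH
import Pool.Agent.Lib_MP_f1a94e_eq.Gram

/-!
# Piece GMA: small correlations if `ω ^ 2 ≠ 1`
-/

set_option autoImplicit false

namespace Pool.Agent.OmEq

open Finset Pool.Agent.GaussMR Pool.Agent.OmAll MeasureTheory Filter

/-- PROOF. `N0 = J0 = 1`. For each `n`, `1 ≤ n ≤ N`, `J ≥ 1`: `apxN` with `b = (J+N)^2 h2 + 1` and `gram` for `WN h J N n` (`WN_tf`) give `Gm f h J N n (b X) X / X → 0`; finite sum over `n ≤ N`;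
then `‖sum‖ ≤ ε X ≤ ε N^2 X` eventually. -/
theorem gm_small_of_ne (f : ℕ → ℂ) (E : Finset ℕ) (ω : ℂ) (h : FF f E ω) (hω : ‖ω‖ = 1) (hω2 : ω ^ 2 ≠ 1) :
    GmSmall f := by
  classical
  intro h' h1 h2 hh ε hε
  refine ⟨1, fun N hN => ⟨1, fun J hJ => ?_⟩⟩
  set b : ℝ := ((J : ℝ) + N) ^ 2 * h2 + 1 with hb
  have h2one : (1 : ℝ) ≤ h2 := hh.one
  have hb0 : 0 < b := by
    have : 0 ≤ ((J : ℝ) + N) ^ 2 * h2 := by positivity
    linarith
  have hlim : ∀ n ∈ Icc 1 N, Tendsto (fun X : ℝ => Gm f h' J N n (b * X) X / X) atTop (nhds 0) := by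
    intro n hn
    have hn1 : 1 ≤ n := (mem_Icc.mp hn).1
    have e1 := apxN f h.bd h' h1 h2 hh J N n hJ hN hn1 b hb0
    have e2 := gram n hn1 f E ω h hω hω2 b (WN h' J N n) (WN_tf h' h1 h2 hh J N n hJ hN hn1 b (by linarith))
    have e3 := e1.add e2
    rw [add_zero] at e3
    refine e3.congr (fun X => ?_)
    ring
  have hsum := tendsto_finsetSum (Icc 1 N) hlim
  rw [Finset.sum_const_zero] at hsum
  have hev := (Metric.tendsto_nhds.mp hsum) ε hε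
  filter_upwards [hev, eventually_gt_atTop (0 : ℝ)] with X hX hX0
  rw [dist_zero_right, ← Finset.sum_div, norm_div, Complex.norm_real, Real.norm_eq_abs, abs_of_pos hX0,
    div_lt_iff₀ hX0] at hX
  have hN1 : (1 : ℝ) ≤ N := by exact_mod_cast hN
  have hN2 : (1 : ℝ) ≤ (N : ℝ) ^ 2 := one_le_pow₀ hN1
  calc ‖∑ n ∈ Icc 1 N, Gm f h' J N n (b * X) X‖ ≤ ε * X := hX.le
    _ ≤ ε * N ^ 2 * X := by
      have : ε * 1 * X ≤ ε * (N : ℝ) ^ 2 * X := by gcongr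
      linarith

end Pool.Agent.OmEq
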