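import Pool.Agent.Lib_MP_f1a94e_eq.BDefs
import Pool.Agent.Lib_MP_f1a94e_eq.Pair

/-!
# Piece GRAMB: from one class to almost all classes
-/

set_option autoImplicit false

namespace Pool.Agent.OmEq

open Finset Pool.Agent.GaussMR Pool.Agent.OmAll MeasureTheory Filter

open Classical in
/-- the coefficient of a character in the expansion of a function of the units -/
noncomputable def grambCo (n : ℕ) [NeZero n] (G : ZMod n → ℂ) (χ : DirichletCharacter ℂ n) : ℂ :=
  (n.totient : ℂ)⁻¹ * ∑ u ∈ univ.filter (fun u : ZMod n => IsUnit u), G u * χ u⁻¹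

open Classical in
theorem gramb_fourier (n : ℕ) [NeZero n] (G : ZMod n → ℂ) (c : ZMod n) (hc : IsUnit c) :
    G c = ∑ χ : DirichletCharacter ℂ n, grambCo n G χ * χ c := by
  have hφ : (n.totient : ℂ) ≠ 0 := by
    have := (Nat.totient_pos.mpr (NeZero.pos n)).ne'
    exact_mod_cast this
  have h1 : ∀ χ : DirichletCharacter ℂ n, grambCo n G χ * χ c =
      (n.totient : ℂ)⁻¹ * ∑ u ∈ univ.filter (fun u : ZMod n => IsUnit u), G u * (χ u⁻¹ * χ c) := by
    intro χ
    unfold grambCo
    rw [mul_assoc, Finset.sum_mul]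
    congr 1
    refine Finset.sum_congr rfl (fun u _ => ?_)
    ring
  rw [Finset.sum_congr rfl (fun χ _ => h1 χ), ← Finset.mul_sum, Finset.sum_comm]
  have h2 : ∀ u ∈ univ.filter (fun u : ZMod n => IsUnit u),
      ∑ χ : DirichletCharacter ℂ n, G u * (χ u⁻¹ * χ c) = if u = c then G c * (n.totient : ℂ) else 0 := by
    intro u hu
    rw [← Finset.mul_sum, DirichletCharacter.sum_char_inv_mul_char_eq ℂ (mem_filter.mp hu).2 c]
    by_cases h : u = c
    · rw [if_pos h, if_pos h, h]
    · rw [if_neg h, if_neg h, mul_zero]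
  rw [Finset.sum_congr rfl h2, Finset.sum_ite_eq', if_pos (mem_filter.mpr ⟨mem_univ _, hc⟩)]
  field_simp

theorem gramb_lim (n : ℕ) [NeZero n] (f : ℕ → ℂ) (E : Finset ℕ) (ω : ℂ) (h : FF f E ω) (hω : ‖ω‖ = 1)
    (b : ℝ) (W : ℝ → ℝ → ℂ) (hW : TF b W) (G : ZMod n → ℂ)
    (h0 : ∀ χ : DirichletCharacter ℂ n, grambCo n G χ = 0 ∨
      (∃ a : ℕ, a % 4 = 1 ∧ a.Coprime n ∧ χ ((a : ZMod n)) ≠ 1) ∨ ∀ y, (∫ t, W y t) = 0) :
    Tendsto (fun X : ℝ => (∑ e ∈ EN n (b * X),
      f (nm e.1) * (starRingEnd ℂ) (f (nm e.2)) * G (cl n e) * W (mE e / X) (tE e)) / X) atTop (nhds 0) := by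
  classical
  have hn : 0 < n := NeZero.pos n
  have h1 : ∀ χ : DirichletCharacter ℂ n, Tendsto (fun X : ℝ => grambCo n G χ * ((∑ e ∈ EN n (b * X),
      f (nm e.1) * (starRingEnd ℂ) (f (nm e.2)) * χ (cl n e) * W (mE e / X) (tE e)) / X)) atTop (nhds 0) := by
    intro χ
    rcases h0 χ with h2 | h2
    · rw [h2]
      simp only [zero_mul]
      exact tendsto_const_nhds
    · have hω' : ‖(starRingEnd ℂ) ω‖ = 1 := by rw [RCLike.norm_conj, hω]
      have h3 := pair_lim n χ E f (fun m => (starRingEnd ℂ) (f m)) ω ((starRingEnd ℂ) ω) h h.conj hω hω'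
        b W hW (Or.inr h2)
      have h4 := h3.const_mul (grambCo n G χ)
      rw [mul_zero] at h4
      exact h4
  have h2 := tendsto_finsetSum (univ : Finset (DirichletCharacter ℂ n)) (fun χ _ => h1 χ)
  rw [Finset.sum_const_zero] at h2
  refine h2.congr (fun X => ?_)
  have h3 : ∀ e ∈ EN n (b * X), f (nm e.1) * (starRingEnd ℂ) (f (nm e.2)) * G (cl n e) * W (mE e / X) (tE e) =
      ∑ χ : DirichletCharacter ℂ n, grambCo n G χ *
        (f (nm e.1) * (starRingEnd ℂ) (f (nm e.2)) * χ (cl n e) * W (mE e / X) (tE e)) := by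
    intro e he
    rw [gramb_fourier n G (cl n e) (cl_unit ((mem_EN hn).mp he).1), Finset.mul_sum, Finset.sum_mul]
    refine Finset.sum_congr rfl (fun χ _ => ?_)
    ring
  rw [Finset.sum_congr rfl h3, Finset.sum_comm, Finset.sum_div]
  refine Finset.sum_congr rfl (fun χ _ => ?_)
  rw [← Finset.mul_sum, mul_div_assoc]

/-- classes `1 mod 4` -/
def GrambH (n : ℕ) (c : ZMod n) : Prop := ∀ h : 4 ∣ n, (ZMod.castHom h (ZMod 4)) c = 1

theorem gramb_hc {n : ℕ} {e : G × G} (he : En n e) : hc n e ↔ GrambH n (cl n e) := by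
  constructor
  · intro h h4
    exact (cl_cast h4 he).mpr (h h4)
  · intro h h4
    exact (cl_cast h4 he).mp (h h4)

/-- representatives -/
theorem gramb_rep (n : ℕ) [NeZero n] (u : ZMod n) (hu : IsUnit u) (hH : GrambH n u) :
    ∃ a : ℕ, a % 4 = 1 ∧ a.Coprime n ∧ (a : ZMod n) = u := by
  set v := u.val with hv
  have hvu : (v : ZMod n) = u := ZMod.natCast_zmod_val u
  have hcop : v.Coprime n := (ZMod.isUnit_iff_coprime v n).mp (by rw [hvu]; exact hu)
  have h2 : n % 2 = 0 → v % 2 = 1 := by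
    intro h
    by_contra hcon
    have hd : 2 ∣ Nat.gcd v n := Nat.dvd_gcd (by omega) (by omega)
    rw [hcop] at hd
    omega
  have h4 : n % 4 = 0 → v % 4 = 1 := by
    intro h
    have h5 := hH (Nat.dvd_of_mod_eq_zero h)
    rw [← hvu, map_natCast] at h5
    have h6 : ((v : ℕ) : ZMod 4) = ((1 : ℕ) : ZMod 4) := by rw [h5]; rfl
    have h7 := (ZMod.natCast_eq_natCast_iff' v 1 4).mp h6
    omega
  have hk : ∃ k : ℕ, (v + k * n) % 4 = 1 := by
    by_contra hcon
    push Not at hcon
    have c0 := hcon 0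
    have c1 := hcon 1
    have c2 := hcon 2
    have c3 := hcon 3
    omega
  obtain ⟨k, hk⟩ := hk
  have e1 : ((v + k * n : ℕ) : ZMod n) = u := by
    push_cast
    rw [hvu, ZMod.natCast_self, mul_zero, add_zero]
  refine ⟨v + k * n, hk, ?_, e1⟩
  exact (ZMod.isUnit_iff_coprime _ n).mp (by rw [e1]; exact hu)

open Classical in
theorem gramb_card_units (n : ℕ) [NeZero n] :
    (univ.filter (fun u : ZMod n => IsUnit u)).card = n.totient := by
  rw [← ZMod.card_units_eq_totient]
  symm
  refine Finset.card_bij (fun (u : (ZMod n)ˣ) _ => (u : ZMod n)) ?_ ?_ ?_ 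
  · intro u _
    exact mem_filter.mpr ⟨mem_univ _, u.isUnit⟩
  · intro u _ v _ huv
    exact Units.ext huv
  · intro u hu
    obtain ⟨w, hw⟩ := (mem_filter.mp hu).2
    exact ⟨w, mem_univ _, hw⟩

open Classical in
/-- the number of classes `1 mod 4` -/
theorem gramb_card (n : ℕ) [NeZero n] :
    kap n * ((univ.filter (fun u : ZMod n => IsUnit u ∧ GrambH n u)).card : ℝ) = n.totient := by
  by_cases h4 : 4 ∣ n
  · have h1 : (univ.filter (fun u : ZMod n => IsUnit u ∧ GrambH n u)).card =
        (univ.filter (fun u : ZMod n => IsUnit u ∧ ¬ GrambH n u)).card := by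
      have key : ∀ u : ZMod n, IsUnit u → (GrambH n (-u) ↔ ¬ GrambH n u) := by
        intro u hu
        have hu4 : IsUnit ((ZMod.castHom h4 (ZMod 4)) u) := hu.map _
        have e1 : ∀ c : ZMod n, GrambH n c ↔ (ZMod.castHom h4 (ZMod 4)) c = 1 :=
          fun c => ⟨fun h => h h4, fun h _ => h⟩
        rw [e1, e1, map_neg]
        generalize (ZMod.castHom h4 (ZMod 4)) u = x at hu4
        revert x
        decide
      refine Finset.card_bij (fun u _ => -u) ?_ ?_ ?_
      · intro u hu
        obtain ⟨_, h2, h3⟩ := mem_filter.mp hu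
        refine mem_filter.mpr ⟨mem_univ _, h2.neg, ?_⟩
        rw [key u h2, not_not]
        exact h3
      · intro u _ v _ huv
        exact neg_injective huv
      · intro u hu
        obtain ⟨_, h2, h3⟩ := mem_filter.mp hu
        refine ⟨-u, mem_filter.mpr ⟨mem_univ _, h2.neg, (key u h2).mpr h3⟩, neg_neg u⟩
    have h2 : (univ.filter (fun u : ZMod n => IsUnit u ∧ GrambH n u)).card +
        (univ.filter (fun u : ZMod n => IsUnit u ∧ ¬ GrambH n u)).card = n.totient := by
      rw [← gramb_card_units n, ← Finset.card_filter_add_card_filter_not (s := univ.filter (fun u : ZMod n => IsUnit u))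
        (GrambH n), Finset.filter_filter, Finset.filter_filter]
    unfold kap
    rw [if_pos h4]
    rw [← h1] at h2
    have h3 : ((univ.filter (fun u : ZMod n => IsUnit u ∧ GrambH n u)).card : ℝ) +
      ((univ.filter (fun u : ZMod n => IsUnit u ∧ GrambH n u)).card : ℝ) = n.totient := by exact_mod_cast h2
    linarith
  · have h1 : univ.filter (fun u : ZMod n => IsUnit u ∧ GrambH n u) = univ.filter (fun u : ZMod n => IsUnit u) := by
      refine Finset.filter_congr (fun u _ => ?_)
      exact ⟨fun h => h.1, fun h => ⟨h, fun h5 => absurd h5 h4⟩⟩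
    unfold kap
    rw [if_neg h4, h1, gramb_card_units, one_mul]

open Classical in
/-- PROOF. Let `H` be the set of units `c` of `ZMod n` with `c = 1 mod 4` if `4 ∣ n` (all units if not `4 ∣ n`). `#H = φ(n) / kap n`: if `4 ∣ n` the map `c ↦ -c` exchanges `H` and its complement in the units. For `e ∈ En n`, `c = cl n e` is a unit (`cl_unit`),
`cg n e.2 e.1` iff `c = 1` (`cl_one`), `hc n e` iff `c ∈ H` (`cl_cast` with `M = 4`). Characters: for a unit `c`,
`1_(c = 1) - (kap n / φ(n)) 1_(c ∈ H) = (1/φ(n)) ∑_χ χ(c) (1 - (kap n / φ(n)) ∑_(h ∈ H) χ(h)⁻¹)` (`DirichletCharacter.sum_char_inv_mul_char_eq`). If `χ(a) = 1` for all natural `a` with `a % 4 = 1`, coprime to `n`, then `χ = 1` on `H`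
(every `h ∈ H` is the class of such an `a`: if `4 ∣ n` any representative; if `n` is odd by CRT; if `n = 2 mod 4` one of the representatives `h`, `h + n`), and the bracket is `0`. For the other `χ`: `pair_lim` with `f1 = f`, `f2 = conj f`
(`FF.conj`), second case of `h0`. Finite sum. -/
theorem gramB (n : ℕ) (hn : 0 < n) (f : ℕ → ℂ) (E : Finset ℕ) (ω : ℂ) (h : FF f E ω) (hω : ‖ω‖ = 1)
    (b : ℝ) (W : ℝ → ℝ → ℂ) (hW : TF b W) :
    Tendsto (fun X : ℝ => ((∑ e ∈ (EN n (b * X)).filter (fun e => cg n e.2 e.1),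
      f (nm e.1) * (starRingEnd ℂ) (f (nm e.2)) * W (mE e / X) (tE e)) -
        ((kap n / n.totient : ℝ) : ℂ) * Qs f n (b * X) W X) / X) atTop (nhds 0) := by
  have : NeZero n := ⟨hn.ne'⟩
  have hφ : (n.totient : ℝ) ≠ 0 := by
    have := (Nat.totient_pos.mpr hn).ne'
    exact_mod_cast this
  set G : ZMod n → ℂ := fun c => (if c = 1 then 1 else 0) -
    ((kap n / n.totient : ℝ) : ℂ) * (if GrambH n c then 1 else 0) with hG
  have h0 : ∀ χ : DirichletCharacter ℂ n, grambCo n G χ = 0 ∨
      (∃ a : ℕ, a % 4 = 1 ∧ a.Coprime n ∧ χ ((a : ZMod n)) ≠ 1) ∨ ∀ y, (∫ t, W y t) = 0 := by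
    intro χ
    by_cases hex : ∃ a : ℕ, a % 4 = 1 ∧ a.Coprime n ∧ χ ((a : ZMod n)) ≠ 1
    · exact Or.inr (Or.inl hex)
    · left
      push Not at hex
      unfold grambCo
      have h1 : ∑ u ∈ univ.filter (fun u : ZMod n => IsUnit u), G u * χ u⁻¹ = 0 := by
        have e1 : ∀ u ∈ univ.filter (fun u : ZMod n => IsUnit u), G u * χ u⁻¹ =
            (if u = 1 then 1 else 0) - (if GrambH n u then ((kap n / n.totient : ℝ) : ℂ) else 0) := by
          intro u hu
          have hu' := (mem_filter.mp hu).2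
          rw [hG]
          simp only
          rw [sub_mul]
          congr 1
          · by_cases h1 : u = 1
            · have h3 := ZMod.inv_mul_of_unit (1 : ZMod n) isUnit_one
              rw [mul_one] at h3
              rw [if_pos h1, h1, h3, map_one, mul_one]
            · rw [if_neg h1, zero_mul]
          · by_cases h1 : GrambH n u
            · rw [if_pos h1, if_pos h1, mul_one]
              obtain ⟨a, ha4, hac, hau⟩ := gramb_rep n u hu' h1
              have h2 := hex a ha4 hac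
              rw [hau] at h2
              have h3 : u⁻¹ * u = 1 := ZMod.inv_mul_of_unit u hu'
              have h4 : χ u⁻¹ * χ u = 1 := by rw [← map_mul, h3, map_one]
              rw [h2, mul_one] at h4
              rw [h4, mul_one]
            · rw [if_neg h1, if_neg h1, mul_zero, zero_mul]
        rw [Finset.sum_congr rfl e1, Finset.sum_sub_distrib, Finset.sum_ite_eq',
          if_pos (mem_filter.mpr ⟨mem_univ _, isUnit_one⟩), ← Finset.sum_filter, Finset.filter_filter,
          Finset.sum_const, nsmul_eq_mul]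
        have h5 := gramb_card n
        have h6 : ((univ.filter (fun u : ZMod n => IsUnit u ∧ GrambH n u)).card : ℝ) *
            (kap n / n.totient) = 1 := by
          rw [← mul_div_assoc, mul_comm, h5, div_self hφ]
        have h7 : (((univ.filter (fun u : ZMod n => IsUnit u ∧ GrambH n u)).card : ℝ) : ℂ) *
            ((kap n / n.totient : ℝ) : ℂ) = 1 := by
          rw [← Complex.ofReal_mul, h6, Complex.ofReal_one]
        rw [Complex.ofReal_natCast] at h7
        rw [h7, sub_self]
      rw [h1, mul_zero]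
  refine (gramb_lim n f E ω h hω b W hW G h0).congr (fun X => ?_)
  congr 1
  unfold Qs
  rw [Finset.mul_sum, Finset.sum_filter, Finset.sum_filter, ← Finset.sum_sub_distrib]
  refine Finset.sum_congr rfl (fun e he => ?_)
  have he' := ((mem_EN hn).mp he).1
  have k1 : cg n e.2 e.1 ↔ cl n e = 1 := (cl_one he').symm
  have k2 := gramb_hc he'
  rw [hG]
  simp only [k1, k2]
  by_cases c1 : cl n e = 1
  · by_cases c2 : GrambH n (cl n e)
    · simp only [c1, if_true] at c2 ⊢
      simp only [c2, if_true]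
      ring
    · simp only [c1, if_true] at c2 ⊢
      simp only [c2, if_false]
      ring
  · by_cases c2 : GrambH n (cl n e)
    · simp only [c1, if_false, c2, if_true]
      ring
    · simp only [c1, if_false, c2]
      ring

/-- PROOF. `1_(c ∈ H) = (1/φ(n)) ∑_χ χ(c) ∑_(h ∈ H) χ(h)⁻¹` for units `c` (`H` as in `gramB`), and `pair_lim`, third case of `h0`, for every `χ`. -/
theorem tvfB (n : ℕ) (hn : 0 < n) (f : ℕ → ℂ) (E : Finset ℕ) (ω : ℂ) (h : FF f E ω) (hω : ‖ω‖ = 1)
    (b : ℝ) (W : ℝ → ℝ → ℂ) (hW : TF b W) (h0 : ∀ y, (∫ t, W y t) = 0) :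
    Tendsto (fun X : ℝ => Qs f n (b * X) W X / X) atTop (nhds 0) := by
  classical
  have : NeZero n := ⟨hn.ne'⟩
  refine (gramb_lim n f E ω h hω b W hW (fun c => if GrambH n c then 1 else 0)
    (fun χ => Or.inr (Or.inr h0))).congr (fun X => ?_)
  congr 1
  unfold Qs
  rw [Finset.sum_filter]
  refine Finset.sum_congr rfl (fun e he => ?_)
  have k2 := gramb_hc ((mem_EN hn).mp he).1
  by_cases c2 : GrambH n (cl n e)
  · rw [if_pos c2, if_pos (k2.mpr c2), mul_one]
  · rw [if_neg c2, if_neg (fun hh => c2 (k2.mp hh)), mul_zero, zero_mul]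

end Pool.Agent.OmEq
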