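import Pool.Agent.Lib_MP_f1a94e_eq.EqnB
import Pool.Agent.Lib_MP_f1a94e_eq.LocD

/-!
# Piece RECT: base pairs with given movable primes
-/

set_option autoImplicit false

namespace Pool.Agent.OmEq

open Finset Pool.Agent.GaussMR Pool.Agent.OmAll Filter

theorem rect_cls_pos (M : ℕ) (hM : 0 < M) : (0 : ℝ) < (cls M).card := by
  have h : (rd M (1 : G), rd M (⟨0, 1⟩ : G)) ∈ cls M := by
    apply rd_mem_cls (N := M) (e := ((1 : G), (⟨0, 1⟩ : G))) hM (dvd_refl M)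
    have h1 : det (1 : G) (⟨0, 1⟩ : G) - 1 = 0 := by
      unfold det
      simp
    show (M : ℤ) ∣ det (1 : G) (⟨0, 1⟩ : G) - 1
    rw [h1]
    exact dvd_zero _
  have h2 : 0 < (cls M).card := card_pos.2 ⟨_, h⟩
  exact_mod_cast h2

open Classical in
/-- PROOF. `eqnB` with `M = ∏_(p ∈ PE E T) p ^ 2` (coprime to `n` since `n.primeFactors ⊆ E`; positive), `P e = bs E T e ∧ ds E T e = D` (`ds_per`), and `locD`
(`p ∈ PE E T` does not divide `n`); `cls M` is nonempty (contains the class of `(1, i)`), so the quotient is `Pr E T D`. The same `κ` for all `E, T, D`. -/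
theorem rect (n : ℕ) (hn : 0 < n) : ∃ κ : ℝ, 0 ≤ κ ∧ ∀ E : Finset ℕ, n.primeFactors ⊆ E → ∀ (T : ℕ) (D : Finset ℕ),
    D ⊆ PE E T → ∀ s t : ℝ, s ≤ t →
    Tendsto (fun x : ℝ => (((EN n x).filter
      (fun e => (bs E T e ∧ ds E T e = D) ∧ s ≤ tE e ∧ tE e < t)).card : ℝ) / x) atTop
      (nhds (κ * Pr E T D * (t - s))) := by
  obtain ⟨κ, hκ, h⟩ := eqnB n hn
  refine ⟨κ, hκ, ?_⟩
  intro E hE T D hD s t hst
  have hn0 : ∀ p ∈ PE E T, ¬ p ∣ n := by
    intro p hp hd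
    obtain ⟨_, h2, _, h4⟩ := mem_PE.1 hp
    exact h4 (hE (Nat.mem_primeFactors.2 ⟨h2, hd, hn.ne'⟩))
  have hM : 0 < ∏ p ∈ PE E T, p ^ 2 :=
    prod_pos (fun p hp => pow_pos (mem_PE.1 hp).2.1.pos 2)
  have hco : (∏ p ∈ PE E T, p ^ 2).Coprime n := by
    apply Nat.Coprime.prod_left
    intro p hp
    apply Nat.Coprime.pow_left
    exact (Nat.Prime.coprime_iff_not_dvd (mem_PE.1 hp).2.1).2 (hn0 p hp)
  have h1 := h _ hM hco (fun e => bs E T e ∧ ds E T e = D) (ds_per E T D) s t hst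
  have h2 := locD E T D hD n hn0
  have h3 := rect_cls_pos _ hM
  have h4 : (((cls (∏ p ∈ PE E T, p ^ 2)).filter
      (fun e => bs E T (e.1, (n : G) * e.2) ∧ ds E T (e.1, (n : G) * e.2) = D)).card : ℝ) /
      (cls (∏ p ∈ PE E T, p ^ 2)).card = Pr E T D := by
    rw [h2, mul_div_assoc, div_self h3.ne', mul_one]
  have h5 : ∀ (f g : ℝ → ℝ) (a b : ℝ), a = b → (∀ x, f x = g x) → Tendsto f atTop (nhds a) →
      Tendsto g atTop (nhds b) := by
    rintro f g a b rfl hfg hf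
    exact hf.congr hfg
  refine h5 _ _ _ _ ?_ ?_ h1
  · rw [← h4]
    congr
  · intro x
    congr

end Pool.Agent.OmEq
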