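import Pool.Agent.Lib_MP_f1a94e_eq.FinA
import Pool.Agent.Lib_MP_f1a94e_eq.Conv

/-!
# Conversion of the limits over edges into limits over factorisations
-/

set_option autoImplicit false

namespace Pool.Agent.OmEq

open Finset Pool.Agent.GaussMR Pool.Agent.OmAll Filter

theorem exists_nat_cl (q : ℕ) (hq : 0 < q) (a : ℤ) :
    ∃ b : ℕ, (b : ℤ) ≡ a [ZMOD q] ∧ ∀ n : ℕ, n ≡ b [MOD q] ↔ (n : ℤ) ≡ a [ZMOD q] := by
  have hq0 : (q : ℤ) ≠ 0 := by exact_mod_cast hq.ne'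
  have h1 : ((a % q).toNat : ℤ) = a % q := Int.toNat_of_nonneg (Int.emod_nonneg _ hq0)
  have h2 : (((a % q).toNat : ℕ) : ℤ) ≡ a [ZMOD q] := by
    rw [h1]
    exact Int.mod_modEq a q
  refine ⟨(a % q).toNat, h2, fun n => ?_⟩
  rw [← Int.natCast_modEq_iff]
  constructor
  · intro h
    exact h.trans h2
  · intro h
    exact h.trans h2.symm

/-- the count with classes -/
noncomputable def NF (q R : ℕ) (α β x : ℝ) (a b : ℤ) : ℕ :=
  (FS α β x (fun r => (r.1 * r.2).Coprime R ∧ (ArithmeticFunction.cardFactors r.1 : ℤ) ≡ a [ZMOD q] ∧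
    (ArithmeticFunction.cardFactors r.2 : ℤ) ≡ b [ZMOD q])).ncard

/-- the count without classes -/
noncomputable def NT (R : ℕ) (α β x : ℝ) : ℕ := (FS α β x (fun r => (r.1 * r.2).Coprime R)).ncard

theorem NT_eq (R : ℕ) (α β : ℝ) (hα : 0 < α) (hβ : 0 < β) (X : ℝ) :
    (NT R α β X : ℝ) = (((EN 1 X).filter (fun e => (Real.log α ≤ tE e ∧ tE e ≤ Real.log β) ∧
      (nm e.1 * nm e.2).Coprime R)).card : ℝ) / 4 := by
  classical
  have h := card_conv α β hα hβ X (fun r => (r.1 * r.2).Coprime R)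
  have h2 : ((EN 1 X).filter (fun e => (Real.log α ≤ tE e ∧ tE e ≤ Real.log β) ∧
      (nm e.1 * nm e.2).Coprime R)).card = 4 * NT R α β X := by
    unfold NT
    rw [← h]
    congr 1
    ext e
    simp only [mem_filter]
  rw [h2]
  push_cast
  ring

theorem NF_eq (q R : ℕ) (α β : ℝ) (hα : 0 < α) (hβ : 0 < β) (X : ℝ) (a b : ℤ) (a' b' : ℕ)
    (ha : ∀ n : ℕ, n ≡ a' [MOD q] ↔ (n : ℤ) ≡ a [ZMOD q]) (hb : ∀ n : ℕ, n ≡ b' [MOD q] ↔ (n : ℤ) ≡ b [ZMOD q]) :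
    (NF q R α β X a b : ℝ) = (((EN 1 X).filter (fun e => ((Real.log α ≤ tE e ∧ tE e ≤ Real.log β) ∧
      (nm e.1 * nm e.2).Coprime R) ∧ ArithmeticFunction.cardFactors (nm e.1) ≡ a' [MOD q] ∧
        ArithmeticFunction.cardFactors (nm e.2) ≡ b' [MOD q])).card : ℝ) / 4 := by
  classical
  have h := card_conv α β hα hβ X (fun r => (r.1 * r.2).Coprime R ∧
    (ArithmeticFunction.cardFactors r.1 : ℤ) ≡ a [ZMOD q] ∧ (ArithmeticFunction.cardFactors r.2 : ℤ) ≡ b [ZMOD q])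
  have h2 : ((EN 1 X).filter (fun e => ((Real.log α ≤ tE e ∧ tE e ≤ Real.log β) ∧
      (nm e.1 * nm e.2).Coprime R) ∧ ArithmeticFunction.cardFactors (nm e.1) ≡ a' [MOD q] ∧
        ArithmeticFunction.cardFactors (nm e.2) ≡ b' [MOD q])).card = 4 * NF q R α β X a b := by
    unfold NF
    rw [← h]
    congr 1
    ext e
    simp only [mem_filter, ha, hb, and_assoc]
  rw [h2]
  push_cast
  ring

theorem log_div' {α β : ℝ} (hα : 0 < α) (hβ : 0 < β) : Real.log (β / α) = Real.log β - Real.log α :=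
  Real.log_div hβ.ne' hα.ne'

theorem nt_lim (R : ℕ) (hR : 0 < R) : ∃ κ : ℝ, 0 < κ ∧ ∀ α β : ℝ, 0 < α → α ≤ β →
    Tendsto (fun x : ℝ => (NT R α β x : ℝ) / x) atTop (nhds (κ * Real.log (β / α))) := by
  obtain ⟨κ, hκ, h⟩ := totR R hR
  refine ⟨κ / 4, by positivity, fun α β hα hαβ => ?_⟩
  have hβ : 0 < β := lt_of_lt_of_le hα hαβ
  have h1 := (h (Real.log α) (Real.log β) (Real.log_le_log hα hαβ)).div_const 4
  rw [log_div' hα hβ]
  have h2 : κ * (Real.log β - Real.log α) / 4 = κ / 4 * (Real.log β - Real.log α) := by ring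
  rw [← h2]
  refine h1.congr (fun X => ?_)
  rw [NT_eq R α β hα hβ X]
  ring

theorem nf_lim (q R : ℕ) (hq : 0 < q) (hR : 0 < R) (H : ∀ j : ℕ, 1 ≤ j → j < q → GmSmall (fz R (zq q ^ j)))
    (κ : ℝ) (hκ : ∀ α β : ℝ, 0 < α → α ≤ β →
      Tendsto (fun x : ℝ => (NT R α β x : ℝ) / x) atTop (nhds (κ * Real.log (β / α))))
    (α β : ℝ) (hα : 0 < α) (hαβ : α ≤ β) (a b : ℤ) :
    Tendsto (fun x : ℝ => (NF q R α β x a b : ℝ) / x) atTop (nhds (κ * Real.log (β / α) / q ^ 2)) := by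
  have hβ : 0 < β := lt_of_lt_of_le hα hαβ
  obtain ⟨κ', hκ', h⟩ := fin_edges q hq R hR H
  -- the constants agree
  have hk : κ' / 4 = κ := by
    have h1 := (h (Real.log 1) (Real.log (Real.exp 1)) (by simp)).1.div_const 4
    have h2 := hκ 1 (Real.exp 1) one_pos (by
      have := Real.add_one_le_exp (1 : ℝ)
      linarith)
    have h3 : Tendsto (fun x : ℝ => (NT R 1 (Real.exp 1) x : ℝ) / x) atTop
        (nhds (κ' * (Real.log (Real.exp 1) - Real.log 1) / 4)) := by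
      refine h1.congr (fun X => ?_)
      rw [NT_eq R 1 (Real.exp 1) one_pos (Real.exp_pos 1) X]
      ring
    have h4 := tendsto_nhds_unique h3 h2
    simp only [Real.log_exp, Real.log_one, div_one, mul_one, sub_zero] at h4
    exact h4
  obtain ⟨a', -, ha⟩ := exists_nat_cl q hq a
  obtain ⟨b', -, hb⟩ := exists_nat_cl q hq b
  have h1 := ((h (Real.log α) (Real.log β) (Real.log_le_log hα hαβ)).2 a' b').div_const 4
  rw [log_div' hα hβ, ← hk]
  have h2 : κ' * (Real.log β - Real.log α) / q ^ 2 / 4 = κ' / 4 * (Real.log β - Real.log α) / q ^ 2 := by ring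
  rw [← h2]
  refine h1.congr (fun X => ?_)
  rw [NF_eq q R α β hα hβ X a b a' b' ha hb]
  ring

/-- even `q`: classes with the same parity of `a + b` -/
theorem nf_diff (q R : ℕ) (hq : 0 < q) (hqe : Even q) (hR : 0 < R) (α β : ℝ) (hα : 0 < α) (hαβ : α ≤ β)
    (a b a' b' : ℤ) (hab : Even (a + b - (a' + b'))) :
    Tendsto (fun x : ℝ => ((NF q R α β x a b : ℝ) - NF q R α β x a' b') / x) atTop (nhds 0) := by
  have hβ : 0 < β := lt_of_lt_of_le hα hαβ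
  obtain ⟨a1, ha0, ha⟩ := exists_nat_cl q hq a
  obtain ⟨b1, hb0, hb⟩ := exists_nat_cl q hq b
  obtain ⟨a2, ha0', ha'⟩ := exists_nat_cl q hq a'
  obtain ⟨b2, hb0', hb'⟩ := exists_nat_cl q hq b'
  have hq2 : (2 : ℤ) ∣ q := by
    obtain ⟨r, hr⟩ := hqe
    exact ⟨r, by rw [hr]; push_cast; ring⟩
  have e1 : (2 : ℤ) ∣ a - a1 := hq2.trans ha0.dvd
  have e2 : (2 : ℤ) ∣ b - b1 := hq2.trans hb0.dvd
  have e3 : (2 : ℤ) ∣ a' - a2 := hq2.trans ha0'.dvd
  have e4 : (2 : ℤ) ∣ b' - b2 := hq2.trans hb0'.dvd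
  have hpar : (a1 + b1) % 2 = (a2 + b2) % 2 := by
    obtain ⟨c, hc⟩ := hab
    omega
  have h1 := (fin_diff q hq R hR (fun j hj hjq h2 => gm_small_A q hq R hR j hj hjq h2) (Real.log α) (Real.log β)
    (Real.log_le_log hα hαβ) a1 b1 a2 b2 hpar).div_const 4
  rw [zero_div] at h1
  refine h1.congr (fun X => ?_)
  rw [NF_eq q R α β hα hβ X a b a1 b1 ha hb, NF_eq q R α β hα hβ X a' b' a2 b2 ha' hb']
  ring

/-- stage A, odd `q` -/
theorem gm_odd (q R : ℕ) (hq : Odd q) (hR : 0 < R) : ∀ j : ℕ, 1 ≤ j → j < q → GmSmall (fz R (zq q ^ j)) := by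
  intro j hj hjq
  refine gm_small_A q (by omega) R hR j hj hjq (fun h => ?_)
  obtain ⟨k, hk⟩ := hq
  omega

end Pool.Agent.OmEq
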