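import Pool.Agent.Lib_MP_f1a94e_eq.FinB
import Pool.Agent.Lib_MP_f1a94e_eq.ResA
import Pool.Agent.Lib_MP_f1a94e_eq.CountE

/-!
# All moduli: asymptotics for factorisations and the number of `m`
-/

set_option autoImplicit false

namespace Pool.Agent.OmEq

open Finset Pool.Agent.GaussMR Pool.Agent.OmAll Filter

theorem nf_all (hL : MRO (fun n => (-1 : ℂ) ^ ArithmeticFunction.cardFactors n)) (R : ℕ) (hR : 0 < R) :
    ∃ κ : ℝ, 0 < κ ∧ ∀ α β : ℝ, 0 < α → α ≤ β →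
      Tendsto (fun x : ℝ => (NT R α β x : ℝ) / x) atTop (nhds (κ * Real.log (β / α))) ∧
      ∀ q : ℕ, 0 < q → ∀ a b : ℤ,
        Tendsto (fun x : ℝ => (NF q R α β x a b : ℝ) / x) atTop (nhds (κ * Real.log (β / α) / q ^ 2)) := by
  obtain ⟨κ, hκ, h⟩ := nt_lim R hR
  refine ⟨κ, hκ, fun α β hα hαβ => ⟨h α β hα hαβ, fun q hq a b => ?_⟩⟩
  exact nf_lim q R hq hR (fun j hj hjq => gm_small_all hL q hq R hR j hj hjq) κ h α β hα hαβ a b

/-- every class, every modulus: many `m` -/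
theorem many_all (hL : MRO (fun n => (-1 : ℂ) ^ ArithmeticFunction.cardFactors n)) (R : ℕ) (hR : 0 < R)
    (α β : ℝ) (hα : 0 < α) (hαβ : α < β) (q : ℕ) (hq : 0 < q) (a b : ℤ) (A : ℝ) (hA : Real.log 2 < A) :
    ∃ x1 : ℝ, ∀ x : ℝ, x1 ≤ x → x / Real.log x ^ A ≤ (Set.ncard {m : ℕ | (m : ℝ) ≤ x ∧ Even m ∧
      ((m ^ 2 + 1).Coprime R ∧ ∃ d e : ℕ, d * e = m ^ 2 + 1 ∧ (α * d ≤ e ∧ (e : ℝ) ≤ β * d) ∧
        (ArithmeticFunction.cardFactors d : ℤ) ≡ a [ZMOD q] ∧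
        (ArithmeticFunction.cardFactors e : ℤ) ≡ b [ZMOD q])} : ℝ) := by
  have hβ : 0 < β := hα.trans hαβ
  obtain ⟨κ, hκ, h⟩ := nf_all hL (2 * R) (by omega)
  have hlim := (h α β hα hαβ.le).2 q hq a b
  have hlog : 0 < Real.log (β / α) := Real.log_pos (by rwa [lt_div_iff₀ hα, one_mul])
  have hc : 0 < κ * Real.log (β / α) / q ^ 2 := by positivity
  obtain ⟨x0, hx0⟩ := eventually_atTop.1 (hlim.eventually (lt_mem_nhds (half_lt_self hc)))
  obtain ⟨x1, hx1⟩ := many_m α β hα hβ (fun r => (r.1 * r.2).Coprime (2 * R) ∧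
    (ArithmeticFunction.cardFactors r.1 : ℤ) ≡ a [ZMOD q] ∧ (ArithmeticFunction.cardFactors r.2 : ℤ) ≡ b [ZMOD q])
    (κ * Real.log (β / α) / q ^ 2 / 2) (max x0 1) (by positivity) (fun x hx => by
      have h1 := hx0 x ((le_max_left _ _).trans hx)
      have hxp : 0 < x := lt_of_lt_of_le one_pos ((le_max_right _ _).trans hx)
      rw [lt_div_iff₀ hxp] at h1
      exact h1.le) (by
      intro m d e hde hP
      have h1 : (m ^ 2 + 1).Coprime 2 := by
        rw [← hde]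
        exact hP.1.coprime_mul_right_right
      by_contra hm
      rw [Nat.not_even_iff_odd] at hm
      have h2 : Even (m ^ 2 + 1) := (hm.pow).add_one
      rw [Nat.coprime_two_right] at h1
      exact (Nat.not_even_iff_odd.2 h1) h2) A hA
  refine ⟨x1, fun x hx => (hx1 x hx).trans ?_⟩
  norm_cast
  refine Set.ncard_le_ncard ?_ ((Set.finite_Iic ⌊x⌋₊).subset fun m hm => Nat.le_floor hm.1)
  rintro m ⟨h1, h2, d, e, hde, h3, h4, h5⟩
  refine ⟨h1, h2, ?_, d, e, hde, h3, h5⟩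
  rw [← hde]
  exact Nat.Coprime.coprime_mul_left_right (k := 2) (by simpa [mul_comm] using h4)

end Pool.Agent.OmEq
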