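import Pool.Agent.Lib_MP_f1a94e_eq.Defs

/-!
# Piece TOG: moving one small prime
-/

set_option autoImplicit false

namespace Pool.Agent.OmEq

open Finset Pool.Agent.GaussMR Pool.Agent.OmAll

/-- pairs with `p` dividing `|V'|^2`, `p ^ 2` not dividing the product -/
def Bp (n p : ℕ) : Set (G × G) := {e | En n e ∧ p ∣ nm e.2 ∧ ¬ p ^ 2 ∣ nm e.1 * nm e.2}

/-- pairs with `p` dividing `|V|^2`, `p ^ 2` not dividing the product -/
def Ap' (n p : ℕ) : Set (G × G) := {e | En n e ∧ p ∣ nm e.1 ∧ ¬ p ^ 2 ∣ nm e.1 * nm e.2}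

theorem tog_mul_star (z : G) : z * star z = ((nm z : ℕ) : G) := by
  have h := nm_eq z
  apply Zsqrtd.ext
  · simp
    have h2 : ((nm z : ℕ) : ℤ) = z.re ^ 2 + z.im ^ 2 := h
    rw [h2]; ring
  · simp; ring

theorem tog_prime {g : G} (h : (nm g).Prime) : Prime g := by
  rw [← irreducible_iff_prime]
  refine ⟨fun hu => h.one_lt.ne' (nm_eq_one_iff.2 hu), fun b c hbc => ?_⟩
  have h1 : nm b * nm c = nm g := by rw [hbc, nm_mul]
  rcases (Nat.prime_mul_iff.1 (h1 ▸ h)) with ⟨_, h3⟩ | ⟨_, h3⟩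
  · exact Or.inr (nm_eq_one_iff.1 h3)
  · exact Or.inl (nm_eq_one_iff.1 h3)

theorem tog_star_dvd {u v : G} : star u ∣ star v ↔ u ∣ v := by
  constructor
  · rintro ⟨c, hc⟩
    refine ⟨star c, ?_⟩
    have := congrArg star hc
    rwa [star_star, star_mul', star_star] at this
  · rintro ⟨c, rfl⟩
    exact ⟨star c, star_mul' _ _⟩

theorem tog_nm_nat (p : ℕ) : nm ((p : ℕ) : G) = p ^ 2 := by
  have : (nm ((p : ℕ) : G) : ℤ) = (p : ℤ) ^ 2 := by
    rw [nm_eq]
    simp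
  exact_mod_cast this

theorem tog_exists (p : ℕ) (hp : p.Prime) (h4 : p % 4 = 1) : ∃ π : G, nm π = p ∧ ¬ π ∣ star π := by
  have : Fact p.Prime := ⟨hp⟩
  obtain ⟨a, b, hab⟩ := Nat.Prime.sq_add_sq (p := p) (by omega)
  have hn : nm (⟨(a : ℤ), (b : ℤ)⟩ : G) = p := by
    have h2 : (nm (⟨(a : ℤ), (b : ℤ)⟩ : G) : ℤ) = (p : ℤ) := by
      rw [nm_eq, ← hab]
      push_cast
      ring
    exact_mod_cast h2
  refine ⟨⟨(a : ℤ), (b : ℤ)⟩, hn, fun hd => ?_⟩
  have hsum : (⟨(a : ℤ), (b : ℤ)⟩ : G) + star (⟨(a : ℤ), (b : ℤ)⟩ : G) = ((2 * a : ℕ) : G) := by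
    apply Zsqrtd.ext
    · simp
      ring
    · simp
  have h1 : (⟨(a : ℤ), (b : ℤ)⟩ : G) ∣ ((2 * a : ℕ) : G) := by
    rw [← hsum]
    exact dvd_add (dvd_refl _) hd
  have h2 := nm_dvd h1
  rw [hn, tog_nm_nat] at h2
  have h3 : p ∣ 2 * a := hp.dvd_of_dvd_pow h2
  have h5 : p ∣ a := by
    rcases hp.dvd_mul.1 h3 with h | h
    · exfalso
      have := Nat.le_of_dvd (by norm_num) h
      have := hp.two_le
      have h6 : p = 2 := by omega
      omega
    · exact h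
  rcases Nat.eq_zero_or_pos a with h0 | h0
  · rw [h0] at hab
    have h6 : p = b * b := by rw [← hab]; ring
    have h7 : b ∣ p := ⟨b, h6⟩
    rcases (Nat.dvd_prime hp).1 h7 with h8 | h8
    · rw [h8] at h6
      exact hp.one_lt.ne' (by omega)
    · rw [h8] at h6
      have := hp.one_lt
      nlinarith
  · have h6 := Nat.le_of_dvd h0 h5
    have h7 := hp.one_lt
    nlinarith [sq_nonneg b]

/-- the two candidates -/
def TogC (π γ : G) : Prop := γ = π ∨ γ = star π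

theorem tog_cand {p : ℕ} (hp : p.Prime) {π : G} (hn : nm π = p) (hd : ¬ π ∣ star π) {γ : G}
    (h : TogC π γ) : nm γ = p ∧ Prime γ ∧ ¬ γ ∣ star γ ∧ γ * star γ = ((p : ℕ) : G) := by
  rcases h with rfl | rfl
  · exact ⟨hn, tog_prime (by rw [hn]; exact hp), hd, by rw [tog_mul_star, hn]⟩
  · refine ⟨by rw [nm_star, hn], tog_prime (by rw [nm_star, hn]; exact hp), fun h => hd ?_,
      by rw [tog_mul_star, nm_star, hn]⟩
    exact tog_star_dvd.1 h

theorem tog_dvd_exists {p : ℕ} (hp : p.Prime) {π : G} (hn : nm π = p) {z : G} (h : p ∣ nm z) :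
    π ∣ z ∨ star π ∣ z := by
  have hpr : Prime π := tog_prime (by rw [hn]; exact hp)
  have h1 : π ∣ z * star z := by
    rw [tog_mul_star]
    have h2 : ((p : ℕ) : G) ∣ ((nm z : ℕ) : G) := by exact_mod_cast (Nat.cast_dvd_cast (α := G) h)
    refine dvd_trans ?_ h2
    rw [← hn, ← tog_mul_star]
    exact dvd_mul_right _ _
  rcases hpr.dvd_or_dvd h1 with h2 | h2
  · exact Or.inl h2
  · right
    rw [← tog_star_dvd, star_star]
    exact h2

theorem tog_both {p : ℕ} {γ : G} (hγ : Prime γ) (hd : ¬ γ ∣ star γ)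
    (hm : γ * star γ = ((p : ℕ) : G)) {z : G} (h1 : γ ∣ z) (h2 : star γ ∣ z) :
    ((p : ℕ) : G) ∣ z := by
  obtain ⟨w, rfl⟩ := h2
  rcases hγ.dvd_or_dvd h1 with h3 | h3
  · exact absurd h3 hd
  · obtain ⟨v, rfl⟩ := h3
    refine ⟨v, ?_⟩
    rw [← hm]
    ring

theorem tog_sq_dvd {p : ℕ} {z : G} (h : ((p : ℕ) : G) ∣ z) : p ^ 2 ∣ nm z := by
  have h1 := nm_dvd h
  rwa [tog_nm_nat] at h1

theorem tog_not_dvd {p : ℕ} (hp : p.Prime) {z : G} (hz : Prim z) : ¬ ((p : ℕ) : G) ∣ z :=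
  fun h => hp.one_lt.ne' (prim_iff.1 hz p h)

theorem tog_prim {z : G} (h : ∀ l : ℕ, l.Prime → ¬ ((l : ℕ) : G) ∣ z) : Prim z := by
  rw [prim_iff]
  intro n hn
  by_contra hn1
  obtain ⟨q, hq, hqn⟩ := Nat.exists_prime_and_dvd hn1
  exact h q hq (dvd_trans (by exact_mod_cast (Nat.cast_dvd_cast (α := G) hqn)) hn)

theorem tog_cg {n : ℕ} {u v : G} : cg n u v ↔ ((n : ℤ) : G) ∣ u - v := by
  unfold cg
  rw [Zsqrtd.intCast_dvd]
  simp

theorem tog_det {γ U W : G} : det (γ * U) W = det U (star γ * W) ∧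
    dot (γ * U) W = dot U (star γ * W) := by
  have h1 := star_mul_eq (γ * U) W
  have h2 := star_mul_eq U (star γ * W)
  have h3 : star (γ * U) * W = star U * (star γ * W) := by
    rw [star_mul']
    ring
  rw [h3, h2] at h1
  have h4 := congrArg Zsqrtd.re h1
  have h5 := congrArg Zsqrtd.im h1
  exact ⟨h5.symm, h4.symm⟩

theorem tog_nm (γ U W : G) : nm (γ * U) * nm W = nm U * nm (star γ * W) := by
  rw [nm_mul, nm_mul, nm_star]
  ring

theorem tog_coprime {p n : ℕ} (hp : p.Prime) (hpn : ¬ p ∣ n) : IsCoprime (p : ℤ) (n : ℤ) := by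
  rw [Nat.isCoprime_iff_coprime]
  exact (Nat.Prime.coprime_iff_not_dvd hp).2 hpn

theorem tog_fwd {n p : ℕ} (hp : p.Prime) (hpn : ¬ p ∣ n) {γ U W : G}
    (hg : nm γ = p ∧ Prime γ ∧ ¬ γ ∣ star γ ∧ γ * star γ = ((p : ℕ) : G))
    (h : (U, star γ * W) ∈ Bp n p) : (γ * U, W) ∈ Ap' n p := by
  obtain ⟨hn, hpr, hd, hm⟩ := hg
  obtain ⟨⟨h1, h2, h3, c, hc, hcg⟩, h5, h6⟩ := h
  simp only at h1 h2 h3 hcg h5 h6
  refine ⟨⟨?_, ?_, ?_, ?_⟩, ?_, ?_⟩
  · show det (γ * U) W = n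
    rw [tog_det.1]
    exact h1
  · show 0 < dot (γ * U) W
    rw [tog_det.2]
    exact h2
  · show Prim (γ * U)
    refine tog_prim fun l hl hlU => ?_
    by_cases hlp : l = p
    · subst hlp
      rw [← hm] at hlU
      have h7 : star γ ∣ U := (mul_dvd_mul_iff_left hpr.ne_zero).1 hlU
      have h8 : l ∣ nm U := by
        have := nm_dvd h7
        rwa [nm_star, hn] at this
      apply h6
      rw [sq]
      exact mul_dvd_mul h8 h5
    · have h7 : ((l : ℕ) : G) ∣ ((p : ℕ) : G) * U := by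
        rw [← hm]
        have h8 : γ * star γ * U = star γ * (γ * U) := by ring
        rw [h8]
        exact Dvd.dvd.mul_left hlU _
      have hcop : IsCoprime ((l : ℕ) : G) ((p : ℕ) : G) := by
        have h8 : IsCoprime (l : ℤ) (p : ℤ) := by
          rw [Nat.isCoprime_iff_coprime]
          exact (Nat.coprime_primes hl hp).2 hlp
        have h9 := h8.map (Int.castRingHom G)
        simpa using h9
      exact tog_not_dvd hl h3 (hcop.dvd_of_dvd_mul_left h7)
  · obtain ⟨a, b, hab⟩ := tog_coprime hp hpn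
    refine ⟨a * c, IsCoprime.mul_left ⟨p, b, by rw [← hab]; ring⟩ hc, ?_⟩
    rw [tog_cg] at hcg ⊢
    show ((n : ℤ) : G) ∣ W - ((a * c : ℤ) : G) * (γ * U)
    have hab' : (a : G) * ((p : ℕ) : G) + (b : G) * ((n : ℤ) : G) = 1 := by
      have := congrArg (fun t : ℤ => (t : G)) hab
      push_cast at this ⊢
      exact this
    have h7 : W - ((a * c : ℤ) : G) * (γ * U) =
        ((n : ℤ) : G) * ((b : G) * W) + (star γ * W - (c : G) * U) * ((a : G) * γ) := by
      have h8 : (star γ * W - (c : G) * U) * ((a : G) * γ) =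
          (a : G) * (γ * star γ) * W - (a : G) * (c : G) * (γ * U) := by ring
      rw [h8, hm]
      have h9 : W = ((a : G) * ((p : ℕ) : G) + (b : G) * ((n : ℤ) : G)) * W := by
        rw [hab', one_mul]
      calc W - ((a * c : ℤ) : G) * (γ * U)
          = ((a : G) * ((p : ℕ) : G) + (b : G) * ((n : ℤ) : G)) * W
              - ((a * c : ℤ) : G) * (γ * U) := by rw [← h9]
        _ = _ := by
          push_cast
          ring
    rw [h7]
    exact dvd_add (dvd_mul_right _ _) (Dvd.dvd.mul_right hcg _)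
  · show p ∣ nm (γ * U)
    rw [nm_mul, hn]
    exact dvd_mul_right _ _
  · show ¬ p ^ 2 ∣ nm (γ * U) * nm W
    rw [tog_nm]
    exact h6

theorem tog_bwd {n p : ℕ} (hp : p.Prime) (hpn : ¬ p ∣ n) {γ U W : G}
    (hg : nm γ = p ∧ Prime γ ∧ ¬ γ ∣ star γ ∧ γ * star γ = ((p : ℕ) : G))
    (h : (γ * U, W) ∈ Ap' n p) : (U, star γ * W) ∈ Bp n p := by
  obtain ⟨hn, hpr, hd, hm⟩ := hg
  obtain ⟨⟨h1, h2, h3, c, hc, hcg⟩, h5, h6⟩ := h
  simp only at h1 h2 h3 hcg h5 h6
  refine ⟨⟨?_, ?_, ?_, ?_⟩, ?_, ?_⟩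
  · show det U (star γ * W) = n
    rw [← tog_det.1]
    exact h1
  · show 0 < dot U (star γ * W)
    rw [← tog_det.2]
    exact h2
  · show Prim U
    exact tog_prim fun l hl hlU => tog_not_dvd hl h3 (Dvd.dvd.mul_left hlU _)
  · refine ⟨c * p, IsCoprime.mul_left hc (tog_coprime hp hpn), ?_⟩
    rw [tog_cg] at hcg ⊢
    show ((n : ℤ) : G) ∣ star γ * W - ((c * p : ℤ) : G) * U
    have h7 : star γ * W - ((c * p : ℤ) : G) * U = (W - (c : G) * (γ * U)) * star γ := by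
      have h8 : (W - (c : G) * (γ * U)) * star γ = star γ * W - (c : G) * (γ * star γ) * U := by
        ring
      rw [h8, hm]
      push_cast
      ring
    rw [h7]
    exact Dvd.dvd.mul_right hcg _
  · show p ∣ nm (star γ * W)
    rw [nm_mul, nm_star, hn]
    exact dvd_mul_right _ _
  · show ¬ p ^ 2 ∣ nm U * nm (star γ * W)
    rw [← tog_nm]
    exact h6

/-- PROOF. Fix a Gaussian prime `π` with `nm π = p` (`p = 1 mod 4`: Mathlib `Nat.Prime.sq_add_sq`, or `GaussianInt` prime lemmas; see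
also the files of `Lib_MP_f1a94e_mr`). For `e` in `Bp`: `π ∣ p ∣ e.2 * star e.2`, so `π ∣ e.2` or `star π ∣ e.2`; not both, otherwise
`p ∣ e.2` (the two primes are not associated as `p` is odd) and `p ^ 2 ∣ nm e.2`. Let `γ = star π` if `π ∣ e.2` and `γ = π` otherwise, so
`e = (U, star γ * W)`; put `φ e = (γ * U, W)`. `det` and `dot` are unchanged: `star (γ U) * W = star U * (star γ * W)` (`star_mul_eq`).
`γ U` is primitive: if a prime `ℓ` divides `γ U` and `ℓ ≠ p` then `ℓ ∣ star γ γ U = p U` and `ℓ ∣ U`, contradiction; if `p = γ star γ ∣ γ U` then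
`star γ ∣ U`, `p ∣ nm U`, and `p ∣ nm e.2`, so `p ^ 2 ∣ nm e.1 * nm e.2`, contradiction. Class: from `star γ W = c U` mod `n` we get
`p W = c γ U`, and `p p' = 1` mod `n` for some `p'` (coprime to `n`, as is `c p'`).
Conversely for `e' = (V, W)` in `Ap'`: exactly one `γ ∈ {π, star π}` divides `V` (`V` is primitive); `V = γ U`, `e = (U, star γ W)`; `U` is primitive as a
divisor of `V`; `star γ W = c p U`. These two maps are inverse to each other: in `e = (U, star γ W)` the prime `star γ` is the one dividing `e.2`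
(only one does), in `(γ U, W)` `γ` is the one dividing the first component. -/
theorem toggle (n : ℕ) (hn : 0 < n) (p : ℕ) (hp : p.Prime) (h4 : p % 4 = 1) (hpn : ¬ p ∣ n) :
    ∃ φ : G × G → G × G, Set.BijOn φ (Bp n p) (Ap' n p) ∧
      ∀ e ∈ Bp n p, ∃ γ U W : G, nm γ = p ∧ e = (U, star γ * W) ∧ φ e = (γ * U, W) := by
  classical
  obtain ⟨π, hπ, hd⟩ := tog_exists p hp h4
  set φ : G × G → G × G := fun e =>
    if h : ∃ gw : G × G, TogC π gw.1 ∧ e.2 = star gw.1 * gw.2 then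
      (h.choose.1 * e.1, h.choose.2) else e with hφ
  have spec : ∀ e ∈ Bp n p, ∃ γ W : G, TogC π γ ∧ e.2 = star γ * W ∧ φ e = (γ * e.1, W) := by
    intro e he
    have hex : ∃ gw : G × G, TogC π gw.1 ∧ e.2 = star gw.1 * gw.2 := by
      rcases tog_dvd_exists hp hπ he.2.1 with ⟨w, hw⟩ | ⟨w, hw⟩
      · exact ⟨(star π, w), Or.inr rfl, by simpa using hw⟩
      · exact ⟨(π, w), Or.inl rfl, hw⟩
    refine ⟨hex.choose.1, hex.choose.2, hex.choose_spec.1, hex.choose_spec.2, ?_⟩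
    rw [hφ]
    simp only [dif_pos hex]
  have other : ∀ γ γ' : G, TogC π γ → TogC π γ' → γ ≠ γ' → γ' = star γ := by
    rintro γ γ' (rfl | rfl) (rfl | rfl) hne
    · exact absurd rfl hne
    · rfl
    · rw [star_star]
    · exact absurd rfl hne
  refine ⟨φ, ⟨?_, ?_, ?_⟩, ?_⟩
  · intro e he
    obtain ⟨γ, W, hγ, h1, h2⟩ := spec e he
    rw [h2]
    refine tog_fwd hp hpn (tog_cand hp hπ hd hγ) ?_
    rw [← h1]
    exact he
  · intro e he e' he' hee
    obtain ⟨γ, W, hγ, h1, h2⟩ := spec e he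
    obtain ⟨γ', W', hγ', h1', h2'⟩ := spec e' he'
    have hg := tog_cand hp hπ hd hγ
    have hfw : (γ * e.1, W) ∈ Ap' n p := by
      refine tog_fwd hp hpn hg ?_
      rw [← h1]
      exact he
    rw [h2, h2'] at hee
    have h3 : γ * e.1 = γ' * e'.1 := congrArg Prod.fst hee
    have h5 : W = W' := congrArg Prod.snd hee
    by_cases hgg : γ = γ'
    · subst hgg
      have h6 : e.1 = e'.1 := mul_left_cancel₀ hg.2.1.ne_zero h3
      exact Prod.ext h6 (by rw [h1, h1', h5])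
    · exfalso
      have h6 := other γ γ' hγ hγ' hgg
      have h7 : ((p : ℕ) : G) ∣ γ * e.1 := by
        refine tog_both hg.2.1 hg.2.2.1 hg.2.2.2 (dvd_mul_right _ _) ?_
        rw [h3, h6]
        exact dvd_mul_right _ _
      exact tog_not_dvd hp hfw.1.2.2.1 h7
  · intro e' he'
    have hex : ∃ γ U : G, TogC π γ ∧ e'.1 = γ * U := by
      rcases tog_dvd_exists hp hπ he'.2.1 with ⟨w, hw⟩ | ⟨w, hw⟩
      · exact ⟨π, w, Or.inl rfl, hw⟩
      · exact ⟨star π, w, Or.inr rfl, hw⟩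
    obtain ⟨γ, U, hγ, hU⟩ := hex
    have hg := tog_cand hp hπ hd hγ
    have hmem : (U, star γ * e'.2) ∈ Bp n p := by
      refine tog_bwd hp hpn hg ?_
      rw [← hU]
      exact he'
    refine ⟨(U, star γ * e'.2), hmem, ?_⟩
    obtain ⟨γ₁, W₁, hγ₁, h1, h2⟩ := spec _ hmem
    simp only at h1 h2
    have hgg : γ = γ₁ := by
      by_contra hne
      have h6 := other γ γ₁ hγ hγ₁ hne
      have h7 : ((p : ℕ) : G) ∣ star γ * e'.2 := by
        refine tog_both hg.2.1 hg.2.2.1 hg.2.2.2 ?_ (dvd_mul_right _ _)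
        rw [h1, h6, star_star]
        exact dvd_mul_right _ _
      exact hmem.2.2 (Dvd.dvd.mul_left (tog_sq_dvd h7) _)
    subst hgg
    have hne : star γ ≠ 0 := by
      intro h0
      apply hg.2.1.ne_zero
      have := congrArg star h0
      simpa using this
    have h8 : e'.2 = W₁ := mul_left_cancel₀ hne h1
    rw [h2, ← h8, ← hU]
  · intro e he
    obtain ⟨γ, W, hγ, h1, h2⟩ := spec e he
    exact ⟨γ, e.1, W, (tog_cand hp hπ hd hγ).1, Prod.ext rfl h1, h2⟩

end Pool.Agent.OmEq
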